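import Pool.Agent.Work.MP_bf98aa_gt.Pl.PLc

/-!
Linear symplectic algebra on the model space WW m = (XX m x R) x R. Transport Ns.ld, Ns.ld', Ns.nd_ws along the obvious equivalence of WW m with VV m = XX m x R x R (it pulls ws back to w0); Pq_wn: wn is the pull-back of w0 by
the reflection rf, whose determinant is -1. fold_lin: let p be the vector with b p = l; then b p v = 1; Ns.lin_fam (or ld with the covector l, followed by a correction of the image of ax 1 by transvections or by ext_lin-like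
algebra) gives a symplectic family containing p and v; L sends the t-axis to p and ax 1 to v. ext_lin: b = pb cx wD + wedge cs xi with xi = b (ax 1); p = xi on the t-axis equals Pq b (decomp0), take L (ax 1) = (x0, 0, 1/p) with
wD x0 = -(1/p) xi on XX m (nd_wD). decomp0: the form is the pull-back of w0 by (x, t, s) -> (x, t + (q/p) xi x, p s + r xi x), determinant p by det_rank2. decomp: expand the wedges, Pq_pb, decomp0.
-/

set_option autoImplicit false
set_option maxSynthPendingDepth 3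
set_option linter.unusedSectionVars false
set_option linter.unusedVariables false

open Set Filter Topology Metric

noncomputable section
namespace Pool.Agent.Work.MP_bf98aa_gt.Pl

open Pool.Agent.Work.MP_bf98aa_gt.Ns

variable {m : ℕ}

/-- The reflection in the hyperplane `s = 0`. -/
def rf (m : ℕ) : WW m →L[ℝ] WW m :=
  (ContinuousLinearMap.fst ℝ (YY m) ℝ).prod (-ContinuousLinearMap.snd ℝ (YY m) ℝ)

theorem rf_apply (v : WW m) : rf m v = (v.1, -v.2) := rfl

theorem cx_apply (v : WW m) : cx m v = v.1.1 := rfl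

theorem ct_apply (v : WW m) : ct m v = v.1.2 := rfl

theorem cs_apply (v : WW m) : cs m v = v.2 := rfl

theorem ax_fst (s : ℝ) : (ax m s).1 = 0 := rfl

theorem ax_snd (s : ℝ) : (ax m s).2 = s := rfl

theorem ax_zero : ax m 0 = 0 := rfl

theorem ax_add (s s' : ℝ) : ax m (s + s') = ax m s + ax m s' :=
  Prod.ext (add_zero _).symm rfl

theorem ax_sub (s s' : ℝ) : ax m (s - s') = ax m s - ax m s' :=
  Prod.ext (sub_zero _).symm rfl

theorem ax_smul (s : ℝ) : ax m s = s • ax m 1 :=
  Prod.ext (smul_zero s).symm (mul_one s).symm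

theorem continuous_ax : Continuous (ax m) :=
  continuous_const.prodMk continuous_id

theorem fw_apply (g : WW m →ᴬ[ℝ] WW m) (L : ℝ) (v : WW m) : fw g L v = g (v + ax m L) := rfl

theorem fw_lin (g : WW m →ᴬ[ℝ] WW m) (L : ℝ) : (fw g L).contLinear = g.contLinear := by
  rw [fw, ContinuousAffineMap.comp_contLinear, ContinuousAffineMap.add_contLinear,
    ContinuousAffineMap.const_contLinear, add_zero]
  rfl

theorem w0_apply (u v : WW m) :
    w0 m u v = wD m u.1.1 v.1.1 + (u.2 * v.1.2 - u.1.2 * v.2) := rfl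

theorem wn_apply (u v : WW m) :
    wn m u v = wD m u.1.1 v.1.1 - (u.2 * v.1.2 - u.1.2 * v.2) := rfl

theorem finrank_YY : Module.finrank ℝ (YY m) = 2 * m + 1 := by
  rw [Module.finrank_prod, finrank_XX, Module.finrank_self]

theorem finrank_WW : Module.finrank ℝ (WW m) = 2 * m + 2 := by
  rw [Module.finrank_prod, finrank_YY, Module.finrank_self]

theorem cs_ne : cs m ≠ 0 := fun h =>
  one_ne_zero (DFunLike.congr_fun h (ax m 1))

theorem skew_w0 : Skew (w0 m) :=
  (skew_pb skew_wD _).add (skew_wedge _ _)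

theorem skew_wn : Skew (wn m) :=
  (skew_pb skew_wD _).sub (skew_wedge _ _)

theorem nd_w0 : Nd (w0 m) := by
  intro u h
  have h1 := h ((0, 1), 0)
  have h2 := h ((0, 0), 1)
  have h3 := nd_wD u.1.1 fun v => by simpa [w0_apply] using h ((v, 0), 0)
  simp only [w0_apply, map_zero, mul_one, mul_zero, sub_zero, zero_add, zero_sub,
    neg_eq_zero] at h1 h2
  exact Prod.ext (Prod.ext h3 h2) h1

theorem pf_w0_ne : pf (w0 m) ≠ 0 :=
  pf_ne finrank_WW skew_w0 nd_w0

theorem det_rf : (rf m).det = -1 := by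
  have e : rf m = ContinuousLinearMap.id ℝ (WW m) + (cs m).smulRight (ax m (-2)) :=
    ContinuousLinearMap.ext fun v => Prod.ext (by simp [rf_apply, ax_fst])
      (by simp [rf_apply, ax_snd, cs_apply]; ring)
  rw [e, det_rank1, cs_apply, ax_snd]
  norm_num

theorem pb_rf_w0 : pb (rf m) (w0 m) = wn m :=
  b2_ext fun u v => by
    simp only [pb_apply, w0_apply, wn_apply, rf_apply]
    ring

theorem pb_rf_wn : pb (rf m) (wn m) = w0 m :=
  b2_ext fun u v => by
    simp only [pb_apply, w0_apply, wn_apply, rf_apply]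
    ring

theorem Pq_w0 : Pq (w0 m) = 1 :=
  div_self pf_w0_ne

theorem Pq_pb (L : WW m →L[ℝ] WW m) (b : B2 (WW m)) : Pq (pb L b) = L.det * Pq b := by
  rw [Pq, Pq, pf_pb, mul_div_assoc]

theorem Pq_wn : Pq (wn m) = -1 := by
  rw [← pb_rf_w0, Pq_pb, det_rf, Pq_w0, mul_one]

theorem Pq_ne {b : B2 (WW m)} (hs : Skew b) (h : Nd b) : Pq b ≠ 0 :=
  div_ne_zero (pf_ne finrank_WW hs h) pf_w0_ne

theorem nd_of_Pq {b : B2 (WW m)} (hs : Skew b) (h : Pq b ≠ 0) : Nd b :=
  nd_of_pf finrank_WW hs (div_ne_zero_iff.1 h).1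

theorem continuous_Pq : Continuous (Pq : B2 (WW m) → ℝ) :=
  contDiff_pf.continuous.div_const _

theorem Pq_smul (c : ℝ) (b : B2 (WW m)) : Pq (c • b) = c ^ (m + 1) * Pq b := by
  rw [Pq, Pq, pf_def' finrank_WW, pf_def' finrank_WW b, map_smul, smul_pow, map_smul, smul_eq_mul,
    mul_div_assoc]

theorem det_of_sp {L : WW m →L[ℝ] WW m} (h : pb L (w0 m) = w0 m) : L.det = 1 := by
  have := Pq_pb L (w0 m)
  rw [h, Pq_w0, mul_one] at this
  exact this.symm

theorem Sp.det {g : WW m →ᴬ[ℝ] WW m} (h : Sp g) : g.contLinear.det = 1 := det_of_sp h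

theorem Sp.comp {g g' : WW m →ᴬ[ℝ] WW m} (h : Sp g) (h' : Sp g') : Sp (g.comp g') := by
  rw [Sp, ContinuousAffineMap.comp_contLinear, pb_comp, h, h']

theorem Sp.inv {g : WW m →ᴬ[ℝ] WW m} (h : Sp g) :
    ∃ g' : WW m →ᴬ[ℝ] WW m, Sp g' ∧ (∀ y, g' (g y) = y) ∧ ∀ y, g (g' y) = y := by
  obtain ⟨g', h1, h2, -, -, h3⟩ := aff_inv g (h.det ▸ one_ne_zero)
  refine ⟨g', ?_, h1, h2⟩
  rw [Sp, ← congrArg (pb g'.contLinear) h, ← pb_comp, h3, pb_id]

theorem Sp.fw {g : WW m →ᴬ[ℝ] WW m} (h : Sp g) (L : ℝ) : Sp (fw g L) := by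
  rw [Sp, fw_lin, h]

/-- A frame with given origin and linear part. -/
theorem frame_ex (p : WW m) (K : WW m →L[ℝ] WW m) :
    ∃ g : WW m →ᴬ[ℝ] WW m, g.contLinear = K ∧ ∀ v, g v = p + K v := by
  refine ⟨ContinuousAffineMap.const ℝ _ p + K.toContinuousAffineMap, ?_, fun _ => rfl⟩
  rw [ContinuousAffineMap.add_contLinear, ContinuousAffineMap.const_contLinear, zero_add]
  rfl

theorem aff_eq {V F : Type} [NormedAddCommGroup V] [NormedSpace ℝ V] [NormedAddCommGroup F]
    [NormedSpace ℝ F] (g : V →ᴬ[ℝ] F) (v : V) : g v = g 0 + g.contLinear v := by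
  simpa [add_comm] using g.map_vadd 0 v

end Pool.Agent.Work.MP_bf98aa_gt.Pl
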