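import Pool.Agent.Work.MP_bf98aa_gt.Pl.PLd
import Pool.Agent.Work.MP_bf98aa_gt.Pl.Lin

/-!
Charts from inverse maps. G' is locally affine at generic points and injective on the open set Sb, so its derivative is bijective (inj_of_injOn, LinearMap.injective_iff_surjective) and gen_pull transports the generic properties;
G o G' = id near u gives DG o DG' = id. pos_of_acc: the set of good v contains the image under G of an open dense subset of Sb (gen_of_exists; for O open in A the preimage in Sb is open and nonempty); Pq_pb.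
Pot.form only depends on germs.
-/

set_option autoImplicit false
set_option maxSynthPendingDepth 3
set_option linter.unusedSectionVars false
set_option linter.unusedVariables false

open Set Filter Topology Metric

noncomputable section
namespace Pool.Agent.Work.MP_bf98aa_gt.Pl

open Pool.Agent.Work.MP_bf98aa_gt.Ns

variable {m : ℕ}

theorem Pot.skew_form {V : Type} [NormedAddCommGroup V] [NormedSpace ℝ V] (P : Pot V) (y : V) :
    Skew (P.form y) := by
  refine Finset.sum_induction _ Skew (fun b c hb hc u v => ?_) (fun _ _ => neg_zero.symm)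
    fun k _ u v => ?_
  · exact show b u v + c u v = -(b v u + c v u) by rw [hb u v, hc u v, neg_add]
  · generalize fderiv ℝ (P.f k) y = θ
    generalize fderiv ℝ (P.g k) y = φ
    change θ u * φ v - φ u * θ v = -(θ v * φ u - φ v * θ u)
    ring

theorem Pot.PLOn.gen_aff {V : Type} [NormedAddCommGroup V] [NormedSpace ℝ V] {P : Pot V}
    {U : Set V} (h : P.PLOn U) (hU : IsOpen U) : ∀ᶠ y in gen V, y ∈ U → P.AffAt y := by
  have k : ∀ᶠ y in gen V, ∀ k, (y ∈ U → LocAff (P.f k) y) ∧ (y ∈ U → LocAff (P.g k) y) :=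
    eventually_all.2 fun k => ((h k).1.gen_locAff hU).and ((h k).2.gen_locAff hU)
  exact k.mono fun y hy hyU k => ⟨(hy k).1 hyU, (hy k).2 hyU⟩

theorem Pot.AffAt.eventually {V : Type} [NormedAddCommGroup V] [NormedSpace ℝ V] {P : Pot V}
    {y : V} (h : P.AffAt y) : ∀ᶠ z in 𝓝 y, P.AffAt z ∧ P.form z = P.form y := by
  have k : ∀ᶠ z in 𝓝 y, ∀ k, (LocAff (P.f k) z ∧ LocAff (P.g k) z) ∧
      fderiv ℝ (P.f k) z = fderiv ℝ (P.f k) y ∧ fderiv ℝ (P.g k) z = fderiv ℝ (P.g k) y :=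
    eventually_all.2 fun k => ((h k).1.eventually.and (h k).2.eventually).and
      ((h k).1.fderiv_eventually.and (h k).2.fderiv_eventually)
  exact k.mono fun z hz => ⟨fun k => (hz k).1,
    Finset.sum_congr rfl fun k _ => by rw [(hz k).2.1, (hz k).2.2]⟩

theorem Pot.AffAt.comp {V V' : Type} [NormedAddCommGroup V] [NormedSpace ℝ V]
    [NormedAddCommGroup V'] [NormedSpace ℝ V'] {P : Pot V'} {φ : V → V'} {y : V}
    (h : P.AffAt (φ y)) (hφ : LocAff φ y) :
    (P.comp φ).AffAt y ∧ (P.comp φ).form y = pb (fderiv ℝ φ y) (P.form (φ y)) := by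
  refine ⟨fun k => ⟨(h k).1.comp hφ, (h k).2.comp hφ⟩, ?_⟩
  refine ContinuousLinearMap.ext fun u => ContinuousLinearMap.ext fun v => ?_
  change _ = P.form (φ y) (fderiv ℝ φ y u) (fderiv ℝ φ y v)
  simp only [Pot.form, _root_.sum_apply]
  refine Finset.sum_congr rfl fun k _ => ?_
  change wedge (fderiv ℝ (fun x => P.f k (φ x)) y) (fderiv ℝ (fun x => P.g k (φ x)) y) u v = _
  rw [(h k).1.fderiv_comp hφ, (h k).2.fderiv_comp hφ]
  rfl

theorem Pot.comp_congr {V E : Type} [NormedAddCommGroup V] [NormedSpace ℝ V] (P : Pot E)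
    {e e' : V → E} {y : V} (h : e' =ᶠ[𝓝 y] e) :
    (P.comp e').form y = (P.comp e).form y ∧ ((P.comp e).AffAt y → (P.comp e').AffAt y) := by
  have a : ∀ u : E → ℝ, (fun z => u (e' z)) =ᶠ[𝓝 y] fun z => u (e z) := fun u =>
    h.mono fun z hz => congrArg u hz
  exact ⟨Finset.sum_congr rfl fun k _ =>
    congrArg₂ wedge (a (P.f k)).fderiv_eq (a (P.g k)).fderiv_eq,
    fun b k => ⟨(b k).1.congr (a (P.f k)), (b k).2.congr (a (P.g k))⟩⟩

theorem Pot.PLOn.comp {V V' : Type} [NormedAddCommGroup V] [NormedSpace ℝ V]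
    [NormedAddCommGroup V'] [NormedSpace ℝ V'] {P : Pot V'} {S : Set V'} (h : P.PLOn S)
    {φ : V → V'} {U : Set V} (hφ : Pl.PLOn U φ) (hm : MapsTo φ U S) : (P.comp φ).PLOn U := by
  exact fun k => ⟨(h k).1.comp hφ hm, (h k).2.comp hφ hm⟩

theorem acc_of_inv {P : Pot (WW m)} {A Sb : Set (WW m)} {G G' : WW m → WW m} (hA : IsOpen A)
    (hS : IsOpen Sb) (hG : PL G) (hG' : PL G') (h1 : ∀ v ∈ A, G v ∈ Sb ∧ G' (G v) = v)
    (h2 : ∀ u ∈ Sb, G' u ∈ A ∧ G (G' u) = u)
    (h : ∀ᶠ v in gen (WW m), v ∈ A →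
      0 < (fderiv ℝ G v).det ∧ P.form v = pb (fderiv ℝ G v) (w0 m)) : Acc P A := by
  have hi : InjOn G' Sb := fun u hu u' hu' e => by rw [← (h2 u hu).2, e, (h2 u' hu').2]
  have a1 : ∀ᶠ u in gen (WW m), u ∈ Sb →
      LocAff G' u ∧ Function.Surjective (fderiv ℝ G' u) := by
    filter_upwards [hG'.gen_locAff] with u a hu
    obtain ⟨B, b1, b2⟩ := a.exists_aff
    refine ⟨a, ?_⟩
    rw [b2]
    refine (bij_of_det (PLc_det_ne (inj_of_injOn B (inter_mem b1 (hS.mem_nhds hu))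
      fun x hx x' hx' e => hi hx.2 hx'.2 ?_))).2
    exact (show G' x = B x from hx.1).trans (e.trans (show G' x' = B x' from hx'.1).symm)
  refine ⟨Sb, G', hS, hG', hi, ?_, fun U hU hO => ?_, ?_⟩
  · exact Subset.antisymm (image_subset_iff.2 fun u hu => (h2 u hu).1)
      fun v hv => ⟨G v, (h1 v hv).1, (h1 v hv).2⟩
  · have e : G' '' U = A ∩ G ⁻¹' U := by
      refine Subset.antisymm (image_subset_iff.2 fun u hu => ⟨(h2 u (hU hu)).1, ?_⟩)
        fun v hv => ⟨G v, hv.2, (h1 v hv.1).2⟩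
      rw [mem_preimage, (h2 u (hU hu)).2]
      exact hu
    rw [e]
    exact hA.inter (hO.preimage hG.continuous)
  · filter_upwards [a1, gen_pull hS a1 (h.and hG.gen_locAff)] with u b1 b2 hu
    obtain ⟨c1, c2⟩ := b2 hu
    obtain ⟨c3, c4⟩ := c1 (h2 u hu).1
    have e : (fderiv ℝ G (G' u)).comp (fderiv ℝ G' u) = ContinuousLinearMap.id ℝ (WW m) := by
      rw [← c2.fderiv_comp (b1 hu).1, ← fderiv_fun_id (x := u)]
      exact EventuallyEq.fderiv_eq (eventually_of_mem (hS.mem_nhds hu) fun z hz => (h2 z hz).2)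
    have d := det_comp' (fderiv ℝ G (G' u)) (fderiv ℝ G' u)
    rw [e, PLc_one] at d
    exact ⟨(mul_pos_iff_of_pos_left c3).1 (d ▸ one_pos), by rw [c4, ← pb_comp, e, pb_id]⟩

theorem Acc.isOpen {P : Pot (WW m)} {A : Set (WW m)} (h : Acc P A) : IsOpen A := by
  obtain ⟨Sb, G, hS, -, -, rfl, ho, -⟩ := h
  exact ho Sb Subset.rfl hS

theorem pos_of_acc {P : Pot (WW m)} {A : Set (WW m)} (h : Acc P A) :
    ∀ᶠ v in gen (WW m), v ∈ A → 0 < Pq (P.form v) := by
  have hA := h.isOpen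
  obtain ⟨Sb, G, hS, hG, -, rfl, ho, hp⟩ := h
  refine gen_of_exists hA fun O hO hO' ⟨v, hv⟩ => ?_
  obtain ⟨u, hu, rfl⟩ := hO hv
  obtain ⟨y, hy, k⟩ := gen_exists hp (hS.inter (hO'.preimage hG.continuous)) ⟨u, hu, hv⟩
  obtain ⟨W, w1, w2, w3⟩ := _root_.mem_nhds_iff.1 (inter_mem k (hS.mem_nhds hy.1))
  refine ⟨G y, hy.2, eventually_of_mem ((ho W (fun z hz => (w1 hz).2) w2).mem_nhds
    (mem_image_of_mem G w3)) ?_⟩
  rintro _ ⟨z, hz, rfl⟩
  obtain ⟨c1, c2⟩ := (w1 hz).1 (w1 hz).2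
  have d := Pq_pb (fderiv ℝ G z) (P.form (G z))
  rw [c2, Pq_w0] at d
  exact (mul_pos_iff_of_pos_left c1).1 (d ▸ one_pos)

end Pool.Agent.Work.MP_bf98aa_gt.Pl
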