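import Pool.Agent.Work.MP_bf98aa_gt.Pl.PLd

/-!
Simplices and their gauges. Useful: AffineBasis.sum_coord_apply_eq_one, AffineBasis.linear_combination_coord_eq_self, AffineBasis.coord_apply, AffineBasis.continuous_coord (or AffineMap.continuous_of_finiteDimensional),
AffineBasis.surjective_coord needs Nontrivial (Fin (d+1)). clE is closed and bounded (y is the sum of coord i y times q i with bounded coordinates). shrink: the compact sets clE (eps + 1/n) minus O decrease, or minimise the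
continuous function max of -coord on the compact set clE (eps+1) minus O. ell q j is linear (it vanishes at 0), the sum of w j * ell j is 0 with w j = coord j 0 > 0 and the sum of w j is 1.
bet_unique: for y = sum c j q j one has coord j y = c j + (1 - sum c) w j.
-/

set_option autoImplicit false
set_option maxSynthPendingDepth 3
set_option linter.unusedSectionVars false
set_option linter.unusedVariables false

open Set Filter Topology Metric

noncomputable section
namespace Pool.Agent.Work.MP_bf98aa_gt.Pl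

open Pool.Agent.Work.MP_bf98aa_gt.Ns

variable {Y Y' : Type} [NormedAddCommGroup Y] [NormedSpace ℝ Y] [FiniteDimensional ℝ Y]
  [NormedAddCommGroup Y'] [NormedSpace ℝ Y'] [FiniteDimensional ℝ Y'] {d : ℕ}
  {σ q : Sx Y d} {ε ε' : ℝ}

/-- The barycentric coordinates as continuous affine maps. -/
def crd (σ : Sx Y d) (i : Fin (d + 1)) : Y →ᴬ[ℝ] ℝ :=
  ⟨σ.coord i, AffineMap.continuous_of_finiteDimensional _⟩

theorem crd_apply (σ : Sx Y d) (i : Fin (d + 1)) (y : Y) : crd σ i y = σ.coord i y := rfl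

theorem crd_lin (σ : Sx Y d) (i : Fin (d + 1)) (y : Y) :
    (crd σ i).contLinear y = (σ.coord i).linear y := rfl

theorem Sx_aff {F : Type} [AddCommGroup F] [Module ℝ F] (A : Y →ᵃ[ℝ] F) (p : Fin (d + 1) → Y)
    {w : Fin (d + 1) → ℝ} (hw : ∑ i, w i = 1) : A (∑ i, w i • p i) = ∑ i, w i • A (p i) := by
  rw [← Finset.affineCombination_eq_linear_combination _ _ _ hw,
    Finset.map_affineCombination _ _ _ hw, Finset.affineCombination_eq_linear_combination _ _ _ hw]
  rfl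

theorem Sx_coord (σ : Sx Y d) {w : Fin (d + 1) → ℝ} (hw : ∑ i, w i = 1) (i : Fin (d + 1)) :
    σ.coord i (∑ j, w j • σ j) = w i := by
  rw [← Finset.affineCombination_eq_linear_combination _ _ _ hw,
    σ.coord_apply_combination_of_mem (Finset.mem_univ i) hw]

theorem Sx_line (A : Y →ᵃ[ℝ] ℝ) (y c : Y) (t : ℝ) :
    A (y + t • (c - y)) = A y + t * (A c - A y) := by
  have h := A.map_vadd y (t • (c - y))
  rw [map_smul, ← vsub_eq_sub, A.linearMap_vsub] at h
  rw [add_comm, add_comm (A y)]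
  exact h

theorem Sx_cont (σ : Sx Y d) (i : Fin (d + 1)) : Continuous (σ.coord i) :=
  AffineMap.continuous_of_finiteDimensional _

theorem Sx_cl (σ : Sx Y d) (ε : ℝ) : clE σ ε = σ.coords ⁻¹' Set.pi univ fun _ => Ici (-ε) :=
  Set.ext fun _ => ⟨fun h i _ => h i, fun h i => h i trivial⟩

theorem Sx_op (σ : Sx Y d) (ε : ℝ) : opE σ ε = σ.coords ⁻¹' Set.pi univ fun _ => Ioi (-ε) :=
  Set.ext fun _ => ⟨fun h i _ => h i, fun h i => h i trivial⟩

theorem Sx_closed (σ : Sx Y d) (ε : ℝ) : IsClosed (clE σ ε) := by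
  rw [Sx_cl]
  exact (isClosed_set_pi fun _ _ => isClosed_Ici).preimage
    (AffineMap.continuous_of_finiteDimensional _)

theorem sx_finrank (σ : Sx Y d) : Module.finrank ℝ Y = d := by
  have h := σ.card_eq_finrank_add_one
  rw [Fintype.card_fin] at h
  omega

theorem crd_ne (hd : 1 ≤ d) (σ : Sx Y d) (i : Fin (d + 1)) : (crd σ i).contLinear ≠ 0 := by
  intro h
  have : Nontrivial (Fin (d + 1)) := Fin.nontrivial_iff_two_le.2 (by omega)
  obtain ⟨j, hj⟩ := exists_ne i
  have h1 := crd_lin σ i (σ i -ᵥ σ j)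
  rw [h, AffineMap.linearMap_vsub, σ.coord_apply_eq, σ.coord_apply_ne hj.symm] at h1
  simp at h1

theorem isCompact_clE (σ : Sx Y d) (ε : ℝ) : IsCompact (clE σ ε) := by
  have hc : Continuous fun w : Fin (d + 1) → ℝ => ∑ i, w i • σ i := by fun_prop
  refine ((isCompact_univ_pi fun _ => isCompact_Icc (a := -ε)
    (b := 1 + ((d : ℝ) + 1) * ε - ε)).image hc).of_isClosed_subset (Sx_closed σ ε) fun y hy =>
    ⟨fun i => σ.coord i y, fun i _ => ⟨hy i, ?_⟩, σ.linear_combination_coord_eq_self y⟩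
  have h1 := Finset.single_le_sum (f := fun j => σ.coord j y + ε)
    (fun j _ => neg_le_iff_add_nonneg.1 (hy j)) (Finset.mem_univ i)
  rw [Finset.sum_add_distrib, σ.sum_coord_apply_eq_one] at h1
  simp only [Finset.sum_const, Finset.card_univ, Fintype.card_fin, nsmul_eq_mul, Nat.cast_add,
    Nat.cast_one] at h1
  exact le_sub_iff_add_le.2 h1

theorem isOpen_opE (σ : Sx Y d) (ε : ℝ) : IsOpen (opE σ ε) := by
  rw [Sx_op]
  exact (isOpen_set_pi finite_univ fun _ _ => isOpen_Ioi).preimage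
    (AffineMap.continuous_of_finiteDimensional _)

theorem convex_clE (σ : Sx Y d) (ε : ℝ) : Convex ℝ (clE σ ε) := by
  rw [Sx_cl]
  exact (convex_pi fun _ _ => convex_Ici _).affine_preimage _

theorem convex_opE (σ : Sx Y d) (ε : ℝ) : Convex ℝ (opE σ ε) := by
  rw [Sx_op]
  exact (convex_pi fun _ _ => convex_Ioi _).affine_preimage _

theorem opE_sub_clE (σ : Sx Y d) (ε : ℝ) : opE σ ε ⊆ clE σ ε := by
  exact fun y hy i => (hy i).le

theorem clE_sub_opE (σ : Sx Y d) (h : ε < ε') : clE σ ε ⊆ opE σ ε' := by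
  exact fun y hy i => (neg_lt_neg h).trans_le (hy i)

theorem opE_mono (σ : Sx Y d) (h : ε ≤ ε') : opE σ ε ⊆ opE σ ε' := by
  exact fun y hy i => (neg_le_neg h).trans_lt (hy i)

theorem clE_mono (σ : Sx Y d) (h : ε ≤ ε') : clE σ ε ⊆ clE σ ε' := by
  exact fun y hy i => (neg_le_neg h).trans (hy i)

theorem opE_nonempty (σ : Sx Y d) (h : 0 < 1 + ((d : ℝ) + 1) * ε) : (opE σ ε).Nonempty := by
  have h0 : (0 : ℝ) < (d : ℝ) + 1 := by positivity
  refine ⟨∑ j, (1 / ((d : ℝ) + 1)) • σ j, fun i => ?_⟩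
  rw [Sx_coord σ (w := fun _ => 1 / ((d : ℝ) + 1)) (by simp [h0.ne']), lt_div_iff₀ h0]
  linarith

theorem closure_opE (σ : Sx Y d) (h : 0 < 1 + ((d : ℝ) + 1) * ε) :
    closure (opE σ ε) = clE σ ε := by
  refine (closure_minimal (opE_sub_clE σ ε) (Sx_closed σ ε)).antisymm fun y hy => ?_
  obtain ⟨c, hc⟩ := opE_nonempty σ h
  refine mem_closure_of_tendsto ((PLb_line y (c - y)).mono_left (nhdsWithin_le_nhds (s := Ioi 0)))
    (mem_of_superset (Ioo_mem_nhdsGT one_pos) fun t ht i => ?_)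
  rw [Sx_line]
  nlinarith [mul_pos ht.1 (sub_pos.2 (hc i)), mul_nonneg (sub_pos.2 ht.2).le (sub_nonneg.2 (hy i))]

theorem gen_clE (hd : 1 ≤ d) (σ : Sx Y d) (ε : ℝ) :
    ∀ᶠ y in gen Y, y ∈ clE σ ε → y ∈ opE σ ε := by
  refine (eventually_all.2 fun i => gen_ne (crd σ i + ContinuousAffineMap.const ℝ Y ε)
    (by simpa using crd_ne hd σ i)).mono fun y h hy i => (hy i).lt_of_ne fun e => h i ?_
  show σ.coord i y + ε = 0
  rw [← e, neg_add_cancel]

theorem clE_shrink (σ : Sx Y d) {O : Set Y} (hO : IsOpen O) (h : clE σ ε ⊆ O) :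
    ∃ ε', ε < ε' ∧ clE σ ε' ⊆ O := by
  have h1 := ((isCompact_clE σ (ε + 1)).diff hO).eventually_forall_of_forall_eventually
    (x₀ := ε) (P := fun e y => y ∉ clE σ e) fun y hy => by
      obtain ⟨i, hi⟩ := not_forall.1 fun h' : ∀ i, -ε ≤ σ.coord i y => hy.2 (h h')
      exact (((Sx_cont σ i).comp continuous_snd).continuousAt.eventually_lt
        continuous_fst.neg.continuousAt (not_le.1 hi)).mono fun z hz h' => (h' i).not_gt hz
  obtain ⟨e, h2, h3⟩ := ((h1.filter_mono (nhdsWithin_le_nhds (s := Ioi ε))).and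
    (Ioo_mem_nhdsGT (lt_add_one ε))).exists
  exact ⟨e, h3.1, fun y hy => by_contra fun h' => h2 y ⟨clE_mono σ h3.2.le hy, h'⟩ hy⟩

theorem clE_eq_hull (σ : Sx Y d) : clE σ 0 = convexHull ℝ (range σ) := by
  rw [σ.convexHull_eq_nonneg_coord, clE, neg_zero]

/-- A simplex from its vertices and its coordinates. -/
theorem sx_of_coord (p : Fin (d + 1) → Y) (c : Fin (d + 1) → Y →ᵃ[ℝ] ℝ)
    (h1 : ∀ i j, c i (p j) = if i = j then 1 else 0) (h2 : ∀ y, ∑ i, c i y • p i = y)
    (h3 : ∀ y, ∑ i, c i y = 1) : ∃ σ : Sx Y d, (∀ i, σ i = p i) ∧ ∀ i y, σ.coord i y = c i y := by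
  have hi : AffineIndependent ℝ p := affineIndependent_iff.2 fun s w hw hs e he => by
    have h4 := congrArg (c e).linear hs
    have h5 : ∀ y, (c e).linear y = c e y - c e 0 := fun y => by
      rw [← vsub_eq_sub, ← AffineMap.linearMap_vsub, vsub_eq_sub, sub_zero]
    simp only [map_sum, map_smul, map_zero] at h4
    simp only [h5, h1, smul_eq_mul, mul_sub, Finset.sum_sub_distrib, ← Finset.sum_mul, hw] at h4
    simpa [he] using h4
  have ht : affineSpan ℝ (range p) = ⊤ := top_unique fun y _ => by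
    rw [← h2 y, ← Finset.affineCombination_eq_linear_combination _ _ _ (h3 y)]
    exact affineCombination_mem_affineSpan (h3 y) p
  refine ⟨⟨p, hi, ht⟩, fun _ => rfl, fun i y => ?_⟩
  exact (congrArg _ (h2 y).symm).trans (Sx_coord ⟨p, hi, ht⟩ (h3 y) i)

theorem sx_map (σ : Sx Y d) (A : Y →ᴬ[ℝ] Y') (hA : Function.Bijective A) :
    ∃ σ' : Sx Y' d, (∀ i, σ' i = A (σ i)) ∧ ∀ i y, σ'.coord i (A y) = σ.coord i y := by
  have ht := AffineMap.span_eq_top_of_surjective A.toAffineMap hA.2 σ.tot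
  rw [← range_comp] at ht
  refine ⟨⟨_, σ.ind.map' A.toAffineMap hA.1, ht⟩, fun _ => rfl, fun i y => ?_⟩
  have h1 := Sx_aff A.toAffineMap σ (σ.sum_coord_apply_eq_one y)
  rw [σ.linear_combination_coord_eq_self] at h1
  exact (congrArg _ h1).trans (Sx_coord ⟨_, _, ht⟩ (σ.sum_coord_apply_eq_one y) i)

/-- The affine map with given values on the vertices. -/
theorem sx_aff {F : Type} [NormedAddCommGroup F] [NormedSpace ℝ F] (σ : Sx Y d)
    (p : Fin (d + 1) → F) : ∃ A : Y →ᴬ[ℝ] F, ∀ y, A y = ∑ i, σ.coord i y • p i := by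
  refine ⟨(∑ i, (ContinuousLinearMap.proj i).smulRight (p i) :
    (Fin (d + 1) → ℝ) →L[ℝ] F).toContinuousAffineMap.comp
    ⟨σ.coords, AffineMap.continuous_of_finiteDimensional _⟩, fun y => ?_⟩
  simp

theorem sx_iso (σ : Sx Y d) (σ' : Sx Y' d) : ∃ A : Y →ᴬ[ℝ] Y', Function.Bijective A ∧
    ∀ i y, σ'.coord i (A y) = σ.coord i y := by
  obtain ⟨A, hA⟩ := sx_aff σ σ'
  have h1 : ∀ i y, σ'.coord i (A y) = σ.coord i y := fun i y => by
    rw [hA, Sx_coord σ' (σ.sum_coord_apply_eq_one y)]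
  refine ⟨A, ⟨fun y y' e => σ.ext_elem fun i => ?_, fun y => ⟨∑ j, σ'.coord j y • σ j,
    σ'.ext_elem fun i => ?_⟩⟩, h1⟩
  · rw [← h1, e, h1]
  · rw [h1, Sx_coord σ (σ'.sum_coord_apply_eq_one y)]

theorem Wall.mono {i : Fin (d + 1)} {z z' : Y} {r r' : ℝ} (h : Wall σ i z r) (hr : 0 < r')
    (hz : σ.coord i z' = 0) (hs : ball z' r' ⊆ ball z r) : Wall σ i z' r' := by
  exact ⟨hr, hz, fun y hy => h.2.2 y (hs hy)⟩

theorem Wall.mem {i : Fin (d + 1)} {z : Y} {r : ℝ} (h : Wall σ i z r) : z ∈ clE σ 0 := by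
  intro j
  rw [neg_zero]
  rcases eq_or_ne j i with rfl | e
  · exact h.2.1.ge
  · exact (h.2.2 z (mem_ball_self h.1) j e).le

theorem isOpen_hb (σ : Sx Y d) (i : Fin (d + 1)) (z : Y) (r : ℝ) : IsOpen (hb σ i z r) := by
  exact isOpen_ball.inter (isOpen_lt (Sx_cont σ i) continuous_const)

theorem Wall.closure_hb (hd : 1 ≤ d) {i : Fin (d + 1)} {z : Y} {r : ℝ} (h : Wall σ i z r) :
    z ∈ closure (hb σ i z r) := by
  have h1 := (PLb_line z (σ i - z)).mono_left (nhdsWithin_le_nhds (s := Iio 0))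
  refine mem_closure_of_tendsto h1 ((h1.eventually (ball_mem_nhds z h.1)).and
    (mem_of_superset self_mem_nhdsWithin fun t ht => ?_))
  show σ.coord i _ < 0
  rw [Sx_line, h.2.1, σ.coord_apply_eq]
  simpa using ht

theorem wall_ex (hd : 1 ≤ d) (σ : Sx Y d) (i : Fin (d + 1)) : ∃ z r, Wall σ i z r := by
  have h0 : (0 : ℝ) < d := by exact_mod_cast hd
  have hw : ∑ j, (if j = i then 0 else 1 / (d : ℝ)) = 1 := by
    rw [Fin.sum_univ_succAbove _ i]
    simp [Fin.succAbove_ne, h0.ne']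
  have h1 : ∀ᶠ y in 𝓝 (∑ j, (if j = i then 0 else 1 / (d : ℝ)) • σ j),
      ∀ j, j ≠ i → 0 < σ.coord j y := eventually_all.2 fun j => eventually_imp_distrib_left.2
    fun e => (Sx_cont σ j).continuousAt.eventually_const_lt (by
      rw [Sx_coord σ hw, if_neg e]
      positivity)
  obtain ⟨r, hr, h2⟩ := Metric.eventually_nhds_iff_ball.1 h1
  exact ⟨_, r, hr, by rw [Sx_coord σ hw, if_pos rfl], h2⟩

end Pool.Agent.Work.MP_bf98aa_gt.Pl
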