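import Pool.Agent.Work.MP_bf98aa_gt.Pl.Acc
import Pool.Agent.Work.MP_bf98aa_gt.Pl.Sx

/-!
Pull-backs of the form through charts. PB.trans: both witnesses have the same simplex (iota_eq), A = (inverse of alpha') o alpha (aff_inv); Pot.comp_congr and Pot.AffAt.comp relate the forms (P.comp (e' o A) is (P.comp e').comp A by definition).
PB.iota: apply the same argument to the inverse of alpha. PB.eventually: Pot.AffAt.eventually, eventually_eventually_nhds. pb_aff: pb_iota, IsPLH.gen_pull for alpha (isPLH_aff), PB.comp. emb_aff: Emb.comp_plh or Emb.comp.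
dx_trans: the set of y in U with c y in c' '' U' is open (Emb.isOpen_pre) and nonempty; gen_push moves the generic property of c' to U; gen_exists, PB.trans.
-/

set_option autoImplicit false
set_option maxSynthPendingDepth 3
set_option linter.unusedSectionVars false
set_option linter.unusedVariables false

open Set Filter Topology Metric

noncomputable section
namespace Pool.Agent.Work.MP_bf98aa_gt.Pl

open Pool.Agent.Work.MP_bf98aa_gt.Ns

def Pot.add {E : Type} (P Q : Pot E) : Pot E :=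
  ⟨P.κ ⊕ Q.κ, inferInstance, Sum.elim P.f Q.f, Sum.elim P.g Q.g⟩

def Pot.zero (E : Type) : Pot E := ⟨Empty, inferInstance, fun k => k.elim, fun k => k.elim⟩

variable {m : ℕ} {E : Type} [NormedAddCommGroup E] [NormedSpace ℝ E] [FiniteDimensional ℝ E]
  {a : Amb m E} {P P' Q : Pot E} {e e' : WW m → E} {y y' : WW m} {b b' : B2 (WW m)}
  {U U' : Set (WW m)} {X X' C : Set E}

theorem Pot.add_form (P Q : Pot E) (e : WW m → E) (y : WW m) :
    ((P.add Q).comp e).form y = (P.comp e).form y + (Q.comp e).form y := by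
  exact Fintype.sum_sum_type (α₁ := P.κ) (α₂ := Q.κ) _

theorem Pot.add_aff (P Q : Pot E) (e : WW m → E) (y : WW m) :
    ((P.add Q).comp e).AffAt y ↔ (P.comp e).AffAt y ∧ (Q.comp e).AffAt y := by
  refine ⟨fun h => ⟨fun k => h (.inl k), fun k => h (.inr k)⟩, fun h k => ?_⟩
  rcases k with k | k
  exacts [h.1 k, h.2 k]

theorem Pot.PLOn.add (h : P.PLOn X) (h' : Q.PLOn X) : (P.add Q).PLOn X := by
  rintro (k | k)
  exacts [h k, h' k]

theorem plOn_zero (X : Set E) : (Pot.zero E).PLOn X := fun k => k.elim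

theorem fm_zero (a : Amb m E) (τ : a.T) (z : WW m) : fm a (Pot.zero E) τ z = a.B τ := by
  exact add_eq_left.2 (Finset.sum_eq_zero fun k _ => k.elim)

theorem emb_iota (a : Amb m E) (τ : a.T) : Emb a.M (a.ι τ) (opE a.Δ 0) := by
  exact ⟨isOpen_opE _ _, plOn_aff _ _, (a.inj τ).injOn, a.oin τ⟩

theorem iota_eq {τ τ' : a.T} {z z' : WW m} (hz : z ∈ opE a.Δ 0) (hz' : z' ∈ clE a.Δ 0)
    (h : a.ι τ z = a.ι τ' z') : τ = τ' ∧ z = z' := by
  obtain rfl : τ = τ' := by_contra fun hn =>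
    disjoint_left.1 (a.disj τ τ' hn) ⟨z, hz, rfl⟩ ⟨z', hz', h.symm⟩
  exact ⟨rfl, a.inj τ h⟩

theorem AmbA_id {τ : a.T} {z : WW m} (hz : z ∈ opE a.Δ 0) (h : (P.comp (a.ι τ)).AffAt z) :
    PB a P (a.ι τ) z (fm a P τ z) :=
  ⟨τ, ContinuousAffineMap.id ℝ _, zero_lt_one.trans_eq PLc_one.symm, hz, EventuallyEq.rfl, h,
    congrArg (· + _) (pb_id _).symm⟩

theorem pb_iota (hP : P.PLOn a.M) (τ : a.T) :
    ∀ᶠ z in gen (WW m), z ∈ opE a.Δ 0 → PB a P (a.ι τ) z (fm a P τ z) := by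
  exact ((hP.comp (plOn_aff _ _) ((a.mem τ).mono_left (opE_sub_clE _ _))).gen_aff
    (isOpen_opE _ _)).mono fun z h hz => AmbA_id hz (h hz)

theorem PB.skew (h : PB a P e y b) : Skew b := by
  obtain ⟨τ, α, -, -, -, -, rfl⟩ := h
  exact (skew_pb (a.skew τ) _).add (Pot.skew_form _ _)

theorem PB.locAff (h : PB a P e y b) : LocAff e y := by
  obtain ⟨τ, α, -, -, h, -⟩ := h
  exact ⟨(a.ι τ).comp α, h⟩

theorem PB.congr (h : PB a P e y b) (he : e' =ᶠ[𝓝 y] e) : PB a P e' y b := by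
  obtain ⟨τ, α, h1, h2, h3, h4, h5⟩ := h
  exact ⟨τ, α, h1, h2, he.trans h3, (P.comp_congr he).2 h4, (P.comp_congr he).1 ▸ h5⟩

theorem PB.eventually (h : PB a P e y b) : ∀ᶠ z in 𝓝 y, PB a P e z b := by
  obtain ⟨τ, α, h1, h2, h3, h4, h5⟩ := h
  filter_upwards [α.continuous.continuousAt.eventually ((isOpen_opE _ _).mem_nhds h2),
    h3.eventually_nhds, h4.eventually] with z k2 k3 k4
  exact ⟨τ, α, h1, k2, k3, k4.1, k4.2 ▸ h5⟩

theorem PB.comp {φ : WW m → WW m} (h : PB a P e (φ y) b) (hφ : LocAff φ y)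
    (hd : 0 < (fderiv ℝ φ y).det) : PB a P (fun z => e (φ z)) y (pb (fderiv ℝ φ y) b) := by
  obtain ⟨τ, α, h1, h2, h3, h4, h5⟩ := h
  obtain ⟨A, hA, hA'⟩ := hφ.exists_aff
  obtain ⟨k4, k5⟩ := h4.comp hφ
  refine ⟨τ, α.comp A, ?_, ?_, ?_, k4, ?_⟩
  · rw [ContinuousAffineMap.comp_contLinear, det_comp']
    exact mul_pos h1 (hA' ▸ hd)
  · exact (congrArg (fun z => α z ∈ opE a.Δ 0) hA.self_of_nhds).mp h2
  · filter_upwards [hφ.continuousAt.eventually h3, hA] with z k1 k2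
    exact k1.trans (congrArg (fun z => a.ι τ (α z)) k2)
  · rw [h5, pb_add, ContinuousAffineMap.comp_contLinear, pb_comp, ← k5, hA']
    rfl

theorem PB.trans (h : PB a P e y b) (h' : PB a P e' y' b') (he : e y = e' y') :
    ∃ A : WW m →ᴬ[ℝ] WW m, 0 < A.contLinear.det ∧ A y = y' ∧ (e =ᶠ[𝓝 y] fun z => e' (A z)) ∧
      b = pb A.contLinear b' := by
  obtain ⟨τ, α, h1, h2, h3, h4, h5⟩ := h
  obtain ⟨τ', α', k1, k2, k3, k4, k5⟩ := h'
  obtain ⟨rfl, hy⟩ := iota_eq h2 (opE_sub_clE _ _ k2)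
    (h3.self_of_nhds.symm.trans (he.trans k3.self_of_nhds))
  obtain ⟨β, b1, b2, b3, -, b5⟩ := aff_inv α' k1.ne'
  have hA : β.comp α y = y' := (congrArg β hy).trans (b1 y')
  have hE : e =ᶠ[𝓝 y] fun z => e' (β.comp α z) := by
    filter_upwards [h3, (β.comp α).continuous.continuousAt.eventually (hA ▸ k3)] with z e1 e2
    exact e1.trans ((congrArg (a.ι τ) (b2 (α z))).symm.trans e2.symm)
  refine ⟨β.comp α, ?_, hA, hE, ?_⟩
  · rw [ContinuousAffineMap.comp_contLinear, det_comp']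
    exact mul_pos ((mul_pos_iff_of_pos_right k1).1 (zero_lt_one.trans_eq b3.symm)) h1
  · subst hA
    have h6 := (k4.comp (locAff_aff (β.comp α) y)).2
    rw [ContinuousAffineMap.fderiv] at h6
    rw [h5, k5, pb_add, ← h6, ← pb_comp, ContinuousAffineMap.comp_contLinear,
      ← ContinuousLinearMap.comp_assoc, b5, ContinuousLinearMap.id_comp, (P.comp_congr hE).1]
    rfl

theorem PB.unique (h : PB a P e y b) (h' : PB a P e y b') : b = b' := by
  obtain ⟨τ, α, h1, h2, h3, h4, h5⟩ := h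
  obtain ⟨τ', α', k1, k2, k3, k4, k5⟩ := h'
  obtain ⟨rfl, -⟩ := iota_eq h2 (opE_sub_clE _ _ k2) (h3.self_of_nhds.symm.trans k3.self_of_nhds)
  have hE : (α : WW m → WW m) =ᶠ[𝓝 y] α' := (h3.symm.trans k3).mono fun z hz => a.inj τ hz
  have h6 := hE.fderiv_eq (𝕜 := ℝ)
  rw [ContinuousAffineMap.fderiv, ContinuousAffineMap.fderiv] at h6
  rw [h5, k5, h6]

theorem PB.iota (h : PB a P e y b) : ∃ (τ : a.T) (z : WW m), z ∈ opE a.Δ 0 ∧ a.ι τ z = e y ∧
    PB a P (a.ι τ) z (fm a P τ z) := by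
  obtain ⟨τ, α, h1, h2, h3, h4, h5⟩ := h
  obtain ⟨β, b1, b2, -⟩ := aff_inv α h1.ne'
  refine ⟨τ, α y, h2, h3.self_of_nhds.symm, AmbA_id h2 ?_⟩
  rw [← b1 y] at h3 h4
  refine (P.comp_congr (e := fun z => e (β z)) ?_).2 (h4.comp (locAff_aff β _)).1
  filter_upwards [β.continuous.continuousAt.eventually h3] with z e1
  exact (e1.trans (congrArg (a.ι τ) (b2 z))).symm

theorem PB.add (h : PB a P e y b) (hQ : (Q.comp e).AffAt y) :
    PB a (P.add Q) e y (b + (Q.comp e).form y) := by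
  obtain ⟨τ, α, h1, h2, h3, h4, h5⟩ := h
  exact ⟨τ, α, h1, h2, h3, (P.add_aff Q e y).2 ⟨h4, hQ⟩, by rw [Pot.add_form, h5, add_assoc]⟩

theorem emb_aff (τ : a.T) {α : WW m →ᴬ[ℝ] WW m} (hα : 0 < α.contLinear.det) (hU : IsOpen U)
    (hs : U ⊆ opE a.Δ 0) : Emb a.M (fun y => a.ι τ (α y)) (α ⁻¹' U) := by
  obtain ⟨β, h⟩ := isPLH_aff α hα
  exact ((emb_iota a τ).mono hU hs).comp_plh h

theorem pb_aff (hP : P.PLOn a.M) (τ : a.T) {α : WW m →ᴬ[ℝ] WW m} (hα : 0 < α.contLinear.det)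
    (hs : U ⊆ opE a.Δ 0) (h : ∀ᶠ z in gen (WW m), z ∈ U → fm a P τ z = b) :
    ∀ᶠ y in gen (WW m), α y ∈ U → PB a P (fun y => a.ι τ (α y)) y (pb α.contLinear b) := by
  obtain ⟨β, hβ⟩ := isPLH_aff α hα
  refine (hβ.gen_pull ((pb_iota hP τ).and h)).mono fun y hy hU => ?_
  have h1 := (hy.1 (hs hU)).comp (locAff_aff α y) (by rwa [ContinuousAffineMap.fderiv])
  rwa [ContinuousAffineMap.fderiv, hy.2 hU] at h1

theorem dx_aff (hP : P.PLOn a.M) (τ : a.T) {α : WW m →ᴬ[ℝ] WW m} (hα : 0 < α.contLinear.det)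
    (hU : IsOpen U) (hs : U ⊆ opE a.Δ 0) (h : ∀ᶠ z in gen (WW m), z ∈ U → fm a P τ z = b)
    (hb : pb α.contLinear b = w0 m) : Dx a P (fun y => a.ι τ (α y)) (α ⁻¹' U) :=
  ⟨emb_aff τ hα hU hs, hb ▸ pb_aff hP τ hα hs h⟩

theorem Dx.mono (h : Dx a P e U) (hU : IsOpen U') (hs : U' ⊆ U) : Dx a P e U' := by
  exact ⟨h.1.mono hU hs, h.2.mono fun y hy hU' => hy (hs hU')⟩

theorem Dx.congr (h : Dx a P e U) (he : ∀ y ∈ U, e' y = e y) : Dx a P e' U := by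
  exact ⟨h.1.congr he, h.2.mono fun y hy hU =>
    (hy hU).congr (eventually_of_mem (h.1.opn.mem_nhds hU) he)⟩

theorem Dx.comp_plh (h : Dx a P e U) {φ ψ : WW m → WW m} (hφ : IsPLH φ ψ)
    (hs : ∀ᶠ z in gen (WW m), pb (fderiv ℝ φ z) (w0 m) = w0 m) :
    Dx a P (fun y => e (φ y)) (φ ⁻¹' U) := by
  refine ⟨h.1.comp_plh hφ, ?_⟩
  filter_upwards [hφ.gen_pull h.2, hφ.pl.gen_locAff, hφ.pos, hs] with y h1 h2 h3 h4 hy
  have h5 := (h1 hy).comp h2 h3
  rwa [h4] at h5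

theorem Dx.comp_sp (h : Dx a P e U) {g : WW m →ᴬ[ℝ] WW m} (hg : Sp g) :
    Dx a P (fun y => e (g y)) (g ⁻¹' U) := by
  obtain ⟨β, hβ⟩ := isPLH_aff g (zero_lt_one.trans_eq hg.det.symm)
  exact h.comp_plh hβ (Eventually.of_forall fun z => by rwa [ContinuousAffineMap.fderiv])

theorem Dx.shift (h : Dx a P e U) (c : WW m) :
    Dx a P (fun y => e (y - c)) ((fun y => y - c) ⁻¹' U) := by
  obtain ⟨g, h1, h2⟩ := frame_ex (-c) (ContinuousLinearMap.id ℝ (WW m))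
  have h3 : (g : WW m → WW m) = fun y => y - c := funext fun y => (h2 y).trans (neg_add_eq_sub c y)
  have h4 := h.comp_sp (g := g) (by rw [Sp, h1, pb_id])
  rwa [h3] at h4

theorem dx_trans (h : Dx a P e U) (h' : Dx a P e' U') (hne : (e '' U ∩ e' '' U').Nonempty)
    {p : WW m → Prop} (hp : ∀ᶠ y in gen (WW m), p y) : ∃ y ∈ U, p y ∧ ∃ A : WW m →ᴬ[ℝ] WW m,
      Sp A ∧ A y ∈ U' ∧ e =ᶠ[𝓝 y] fun z => e' (A z) := by
  obtain ⟨_, ⟨x, hx, rfl⟩, hx'⟩ := hne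
  obtain ⟨y, ⟨hy, y', hy', he⟩, h1⟩ := gen_exists ((gen_push h'.1 h.1 h'.2).and (h.2.and hp))
    (h.1.isOpen_pre h'.1.openSub) ⟨x, hx, hx'⟩
  obtain ⟨h2, h3, h4⟩ := h1.self_of_nhds
  obtain ⟨A, -, k2, k3, k4⟩ := (h3 hy).trans (h2 hy y' hy' he) he.symm
  exact ⟨y, hy, h4, A, k4.symm, k2 ▸ hy', k3⟩

end Pool.Agent.Work.MP_bf98aa_gt.Pl
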