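import Pool.Agent.Work.MP_bf98aa_gt.Pl.Lin

/-!
Linear symplectic algebra on the model space WW m = (XX m x R) x R. Transport Ns.ld, Ns.ld', Ns.nd_ws along the obvious equivalence of WW m with VV m = XX m x R x R (it pulls ws back to w0); Pq_wn: wn is the pull-back of w0 by
the reflection rf, whose determinant is -1. fold_lin: let p be the vector with b p = l; then b p v = 1; Ns.lin_fam (or ld with the covector l, followed by a correction of the image of ax 1 by transvections or by ext_lin-like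
algebra) gives a symplectic family containing p and v; L sends the t-axis to p and ax 1 to v. ext_lin: b = pb cx wD + wedge cs xi with xi = b (ax 1); p = xi on the t-axis equals Pq b (decomp0), take L (ax 1) = (x0, 0, 1/p) with
wD x0 = -(1/p) xi on XX m (nd_wD). decomp0: the form is the pull-back of w0 by (x, t, s) -> (x, t + (q/p) xi x, p s + r xi x), determinant p by det_rank2. decomp: expand the wedges, Pq_pb, decomp0.
-/

set_option autoImplicit false
set_option maxSynthPendingDepth 3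
set_option linter.unusedSectionVars false
set_option linter.unusedVariables false

open Set Filter Topology Metric

noncomputable section
namespace Pool.Agent.Work.MP_bf98aa_gt.Pl

open Pool.Agent.Work.MP_bf98aa_gt.Ns

variable {m : ℕ}

theorem LinB_cov {b : B2 (WW m)} (hs : Skew b) (h : Pq b ≠ 0) {l : B1 (WW m)} {q : WW m}
    (hq : l q = 1) :
    ∃ L : WW m →L[ℝ] WW m, pb L b = w0 m ∧ L (ax m 1) = q ∧ l.comp L = cs m := by
  have hn := nd_of_Pq hs h
  have hp : ∀ x, l x = b x (sharp b (-l)) := fun x => by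
    rw [hs x, sharp_spec hn]
    simp
  generalize sharp b (-l) = p at hp
  obtain ⟨a, c, h, ha, hc⟩ := lin_fam hs hn (hp q ▸ hq) m finrank_WW.ge
  let L : WW m →ₗ[ℝ] WW m :=
    { toFun := fun y => ∑ i, y.1.1 (Sum.inl i) • a i.castSucc + y.2 • a (Fin.last m) +
        (∑ i, y.1.1 (Sum.inr i) • c i.castSucc + y.1.2 • c (Fin.last m))
      map_add' := fun x y => by
        simp only [Prod.fst_add, Prod.snd_add, Pi.add_apply, add_smul, Finset.sum_add_distrib]
        abel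
      map_smul' := fun r x => by
        simp only [Prod.smul_fst, Prod.smul_snd, Pi.smul_apply, smul_eq_mul, mul_smul, smul_add,
          Finset.smul_sum, RingHom.id_apply] }
  have eL : ∀ y, L y =
      ∑ i, (Fin.snoc (α := fun _ => ℝ) (fun i => y.1.1 (Sum.inl i)) y.2 i) • a i +
      ∑ i, (Fin.snoc (α := fun _ => ℝ) (fun i => y.1.1 (Sum.inr i)) y.1.2 i) • c i := fun y => by
    rw [Fin.sum_univ_castSucc, Fin.sum_univ_castSucc]
    simp only [Fin.snoc_castSucc, Fin.snoc_last]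
    rfl
  have hL : ∀ u v, b (L u) (L v) = w0 m u v := fun u v => by
    rw [eL, eL, lin_comp hs h, Fin.sum_univ_castSucc, w0_apply, wD_apply]
    simp only [Fin.snoc_castSucc, Fin.snoc_last]
  refine ⟨LinearMap.toContinuousLinearMap L, b2_ext fun u v => ?_, ?_,
    ContinuousLinearMap.ext fun y => ?_⟩
  · rw [pb_apply]
    exact hL u v
  · show L (ax m 1) = q
    simp [L, ax, ha]
  · have e : L ((0, 1), 0) = p := by simp [L, hc]
    have := hL y ((0, 1), 0)
    rw [e, ← hp, w0_apply] at this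
    rw [cs_apply]
    refine Eq.trans this ?_
    simp

theorem darboux {b : B2 (WW m)} (hs : Skew b) (h : Pq b ≠ 0) :
    ∃ L : WW m →L[ℝ] WW m, pb L b = w0 m ∧ L.det * Pq b = 1 := by
  obtain ⟨v, hv⟩ := PLc_unit (cs_ne (m := m))
  obtain ⟨L, hL, -⟩ := LinB_cov hs h hv
  exact ⟨L, hL, by rw [← Pq_pb, hL, Pq_w0]⟩

theorem darboux_cov {b : B2 (WW m)} (hs : Skew b) (h : Pq b ≠ 0) {l : B1 (WW m)} (hl : l ≠ 0) :
    ∃ L : WW m →L[ℝ] WW m, pb L b = w0 m ∧ l.comp L = cs m := by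
  obtain ⟨v, hv⟩ := PLc_unit hl
  obtain ⟨L, hL, -, e⟩ := LinB_cov hs h hv
  exact ⟨L, hL, e⟩

/-- Any two nondegenerate forms are equivalent. -/
theorem equiv_forms {b b' : B2 (WW m)} (hs : Skew b) (hs' : Skew b') (h : Pq b ≠ 0)
    (h' : Pq b' ≠ 0) : ∃ Z : WW m →L[ℝ] WW m, pb Z b' = b ∧ Z.det * Pq b' = Pq b := by
  obtain ⟨L, hL, hd⟩ := darboux hs h
  obtain ⟨L', hL', -⟩ := darboux hs' h'
  have h0 : L.det ≠ 0 := left_ne_zero_of_mul_eq_one hd
  let K : WW m →L[ℝ] WW m := (L.toContinuousLinearEquivOfDetNeZero h0).symm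
  have hK : ∀ y, L (K y) = y := (L.toContinuousLinearEquivOfDetNeZero h0).apply_symm_apply
  have e : pb (L'.comp K) b' = b := by
    rw [pb_comp, hL', ← hL]
    exact b2_ext fun u v => by rw [pb_apply, pb_apply, hK, hK]
  exact ⟨L'.comp K, e, by rw [← Pq_pb, e]⟩

theorem fold_lin {b : B2 (WW m)} (hs : Skew b) (h : Pq b ≠ 0) {l : B1 (WW m)} {v : WW m}
    (hv : l v = 1) :
    ∃ L : WW m →L[ℝ] WW m, pb L b = wn m ∧ L (ax m 1) = v ∧ l.comp L = cs m := by
  obtain ⟨L, hL, e1, e2⟩ := LinB_cov hs h (l := -l) (q := -v) (by simpa using hv)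
  refine ⟨L.comp (rf m), by rw [pb_comp, hL, pb_rf_w0], ?_, ContinuousLinearMap.ext fun y => ?_⟩
  · have e : rf m (ax m 1) = -ax m 1 := by simp [rf_apply, ax]
    rw [ContinuousLinearMap.comp_apply, e, map_neg, e1, neg_neg]
  · have e : -l (L (rf m y)) = -y.2 := DFunLike.congr_fun e2 (rf m y)
    exact neg_injective e

theorem LinB_form (ξ : B1 (XX m)) (p q r : ℝ) (u v : WW m) :
    (pb (cx m) (wD m) + (p • wedge (cs m) (ct m) + q • wedge (cs m) (ξ.comp (cx m)) +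
      r • wedge (ξ.comp (cx m)) (ct m))) u v = wD m u.1.1 v.1.1 +
        (p * (u.2 * v.1.2 - u.1.2 * v.2) + q * (u.2 * ξ v.1.1 - ξ u.1.1 * v.2) +
          r * (ξ u.1.1 * v.1.2 - u.1.2 * ξ v.1.1)) := by
  simp only [add_apply, smul_apply, smul_eq_mul, pb_apply, wedge_apply,
    ContinuousLinearMap.comp_apply, cx_apply, cs_apply, ct_apply]

theorem decomp0 (ξ : B1 (XX m)) {p : ℝ} (hp : p ≠ 0) (q r : ℝ) :
    Pq (pb (cx m) (wD m) + (p • wedge (cs m) (ct m) + q • wedge (cs m) (ξ.comp (cx m)) +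
      r • wedge (ξ.comp (cx m)) (ct m))) = p := by
  have hd := det_rank2 ((q / p) • ξ.comp (cx m)) ((p - 1) • cs m + r • ξ.comp (cx m))
    (((0, 1), 0) : WW m) (ax m 1)
  generalize hT : ContinuousLinearMap.id ℝ (WW m) +
    ((q / p) • ξ.comp (cx m)).smulRight (((0, 1), 0) : WW m) +
      ((p - 1) • cs m + r • ξ.comp (cx m)).smulRight (ax m 1) = T at hd
  have e : ∀ u : WW m, T u = ((u.1.1, u.1.2 + q / p * ξ u.1.1), p * u.2 + r * ξ u.1.1) := fun u => by
    rw [← hT]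
    refine Prod.ext (Prod.ext ?_ ?_) ?_ <;> simp [ax, cx_apply, cs_apply]
    ring
  have e2 : pb (cx m) (wD m) + (p • wedge (cs m) (ct m) + q • wedge (cs m) (ξ.comp (cx m)) +
      r • wedge (ξ.comp (cx m)) (ct m)) = pb T (w0 m) := b2_ext fun u v => by
    rw [LinB_form, pb_apply, w0_apply, e, e]
    field_simp
    ring
  rw [e2, Pq_pb, Pq_w0, hd]
  simp [ax, cx_apply, cs_apply]

theorem ext_lin {b : B2 (WW m)} (hs : Skew b) (h : 0 < Pq b)
    (e : ∀ u v : WW m, u.2 = 0 → v.2 = 0 → b u v = wD m u.1.1 v.1.1) :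
    ∃ (L : WW m →L[ℝ] WW m) (c : ℝ), 0 < c ∧ pb L b = w0 m ∧ (∀ u : WW m, u.2 = 0 → L u = u) ∧
      ∀ u, (L u).2 = c * u.2 := by
  let η : B1 (XX m) := (b (ax m 1)).comp
    ((ContinuousLinearMap.inl ℝ (YY m) ℝ).comp (ContinuousLinearMap.inl ℝ (XX m) ℝ))
  obtain ⟨p, hp⟩ : ∃ p, p = b (ax m 1) ((0, 1), 0) := ⟨_, rfl⟩
  have k0 : ∀ y : WW m, y = (y.1, 0) + y.2 • ax m 1 := fun y => by simp [ax]
  have k1 : ∀ y : YY m, b (ax m 1) (y, 0) = η y.1 + p * y.2 := fun y => by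
    have : ((y, 0) : WW m) = ((y.1, 0), 0) + y.2 • ((0, 1), 0) := by simp
    rw [this, map_add, map_smul, smul_eq_mul, mul_comm, hp]
    rfl
  have hb : ∀ u v : WW m, b u v = wD m u.1.1 v.1.1 +
      (p * (u.2 * v.1.2 - u.1.2 * v.2) + (u.2 * η v.1.1 - η u.1.1 * v.2)) := fun u v => by
    conv_lhs => rw [k0 u, k0 v]
    simp only [map_add, map_smul, add_apply, smul_apply, smul_eq_mul]
    rw [e (u.1, 0) (v.1, 0) rfl rfl, hs (u.1, 0) (ax m 1), k1, k1, hs.self]
    ring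
  have h0 : p ≠ 0 := fun a => by
    have := nd_of_Pq hs h.ne' ((0, 1), 0) fun v => by simp [hb, a]
    simp at this
  have hP : Pq b = p := by
    rw [← decomp0 η h0 1 0]
    refine congrArg Pq (b2_ext fun u v => ?_)
    rw [LinB_form, hb]
    ring
  obtain ⟨x, hx⟩ : ∃ x : XX m, ∀ y, wD m x y = -(p⁻¹ * η y) :=
    ⟨sharp (wD m) (-(p⁻¹ • η)), fun y => by rw [sharp_spec nd_wD]; rfl⟩
  let L : WW m →L[ℝ] WW m :=
    ContinuousLinearMap.id ℝ (WW m) + (cs m).smulRight (((x, 0), p⁻¹ - 1) : WW m)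
  have eL : ∀ u : WW m, L u = ((u.1.1 + u.2 • x, u.1.2), p⁻¹ * u.2) := fun u => by
    refine Prod.ext (Prod.ext ?_ ?_) ?_ <;> simp [L, cs_apply]
    ring
  refine ⟨L, p⁻¹, inv_pos.2 (hP ▸ h), b2_ext fun u v => ?_, fun u hu => ?_, fun u => by rw [eL]⟩
  · rw [pb_apply, hb, eL, eL, w0_apply]
    simp only [map_add, map_smul, add_apply, smul_apply, smul_eq_mul]
    rw [skew_wD u.1.1 x, skew_wD.self x, hx, hx]
    field_simp
    ring
  · rw [eL]
    refine Prod.ext (Prod.ext ?_ rfl) ?_ <;> simp [hu]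

theorem LinB_side {b : B2 (WW m)} (hs : Skew b) (h : 0 < Pq b) {l : B1 (WW m)}
    {L : WW m →L[ℝ] WW m} (hd : 0 < L.det) (hc : ∀ u, l (L u) = u.2)
    (e : ∀ u v : WW m, u.2 = 0 → v.2 = 0 → b (L u) (L v) = wD m u.1.1 v.1.1) :
    ∃ (L' : WW m →L[ℝ] WW m) (c : ℝ), 0 < c ∧ 0 < L'.det ∧ pb L' b = w0 m ∧
      (∀ u, l (L' u) = c * u.2) ∧ ∀ u : WW m, u.2 = 0 → L u = L' u := by
  obtain ⟨K, c, h1, h2, h3, h4⟩ := ext_lin (skew_pb hs L) (by rw [Pq_pb]; positivity) e
  have e1 : pb (L.comp K) b = w0 m := by rw [pb_comp, h2]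
  refine ⟨L.comp K, c, h1, ?_, e1, fun u => (hc _).trans (h4 u),
    fun u hu => congrArg L (h3 u hu).symm⟩
  exact pos_of_mul_pos_left (by rw [← Pq_pb, e1, Pq_w0]; exact one_pos) h.le

/-- Two positive forms that agree on a hyperplane. -/
theorem wall_lin {b b' : B2 (WW m)} (hs : Skew b) (hs' : Skew b') (h : 0 < Pq b) (h' : 0 < Pq b')
    {l : B1 (WW m)} (hl : l ≠ 0) (e : ∀ u v, l u = 0 → l v = 0 → b u v = b' u v) :
    ∃ (L L' : WW m →L[ℝ] WW m) (c : ℝ), 0 < c ∧ 0 < L.det ∧ 0 < L'.det ∧ pb L b = w0 m ∧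
      pb L' b' = w0 m ∧ (∀ u, l (L u) = u.2) ∧ (∀ u, l (L' u) = c * u.2) ∧
      ∀ u : WW m, u.2 = 0 → L u = L' u := by
  obtain ⟨L, hL, hc⟩ := darboux_cov hs h.ne' hl
  have hc' : ∀ u, l (L u) = u.2 := DFunLike.congr_fun hc
  have hd : 0 < L.det := pos_of_mul_pos_left (by rw [← Pq_pb, hL, Pq_w0]; exact one_pos) h.le
  obtain ⟨L', c, h1, h2, h3, h4, h5⟩ := LinB_side hs' h' hd hc' fun u v hu hv => by
    rw [← e _ _ ((hc' u).trans hu) ((hc' v).trans hv), ← pb_apply, hL, w0_apply, hu, hv]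
    ring
  exact ⟨L, L', c, h1, hd, h2, hL, h3, hc', h4, h5⟩

/-- A negative and a positive form that agree on a hyperplane. -/
theorem fold2_lin {b b' : B2 (WW m)} (hs : Skew b) (hs' : Skew b') (h : Pq b < 0) (h' : 0 < Pq b')
    {l : B1 (WW m)} {v : WW m} (hv : l v = 1) (e : ∀ u v, l u = 0 → l v = 0 → b u v = b' u v) :
    ∃ (L L' : WW m →L[ℝ] WW m) (c : ℝ), 0 < c ∧ 0 < L.det ∧ 0 < L'.det ∧ pb L b = wn m ∧
      pb L' b' = w0 m ∧ L (ax m 1) = v ∧ (∀ u, l (L u) = u.2) ∧ (∀ u, l (L' u) = c * u.2) ∧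
      ∀ u : WW m, u.2 = 0 → L u = L' u := by
  obtain ⟨L, hL, ha, hc⟩ := fold_lin hs h.ne hv
  have hc' : ∀ u, l (L u) = u.2 := DFunLike.congr_fun hc
  have hd : 0 < L.det := by
    have := Pq_pb L b
    rw [hL, Pq_wn] at this
    nlinarith
  obtain ⟨L', c, h1, h2, h3, h4, h5⟩ := LinB_side hs' h' hd hc' fun u v hu hv => by
    rw [← e _ _ ((hc' u).trans hu) ((hc' v).trans hv), ← pb_apply, hL, wn_apply, hu, hv]
    ring
  exact ⟨L, L', c, h1, hd, h2, hL, h3, ha, hc', h4, h5⟩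

/-- The form on the sleeve. -/
theorem decomp {κ : Type} [Fintype κ] (D : WW m →L[ℝ] WW m) (hD : 0 < D.det) (ξ : B1 (XX m))
    (lt : ℝ) (R : B1 (WW m)) (hR : R = lt • (ct m).comp D + (ξ.comp (cx m)).comp D)
    (α β ε α' β' : κ → ℝ) (hp : 0 < ∑ i, (ε i * β i + lt * (β i * α' i - α i * β' i))) :
    0 < Pq (pb ((cx m).comp D) (wD m) + ∑ i, wedge (α i • R + β i • (cs m).comp D)
      (ε i • (ct m).comp D + α' i • R + β' i • (cs m).comp D)) := by
  have e : pb ((cx m).comp D) (wD m) + ∑ i, wedge (α i • R + β i • (cs m).comp D)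
      (ε i • (ct m).comp D + α' i • R + β' i • (cs m).comp D) = pb D (pb (cx m) (wD m) +
        ((∑ i, (ε i * β i + lt * (β i * α' i - α i * β' i))) • wedge (cs m) (ct m) +
          (∑ i, (β i * α' i - α i * β' i)) • wedge (cs m) (ξ.comp (cx m)) +
          (∑ i, α i * ε i) • wedge (ξ.comp (cx m)) (ct m))) := b2_ext fun u v => by
    rw [pb_apply D, LinB_form, Finset.sum_mul, Finset.sum_mul, Finset.sum_mul,
      ← Finset.sum_add_distrib, ← Finset.sum_add_distrib, add_apply, add_apply, sum_apply, sum_apply]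
    refine congrArg₂ (· + ·) (pb_apply _ _ _ _) (Finset.sum_congr rfl fun i _ => ?_)
    simp only [hR, add_apply, smul_apply, smul_eq_mul, wedge_apply,
      ContinuousLinearMap.comp_apply, cx_apply, cs_apply, ct_apply]
    ring
  rw [e, Pq_pb, decomp0 ξ hp.ne']
  exact mul_pos hD hp

theorem wD_eq_sum {V : Type} [NormedAddCommGroup V] [NormedSpace ℝ V] (D : V →L[ℝ] XX m) :
    pb D (wD m) = ∑ i : Fin m,
      wedge ((ContinuousLinearMap.proj (R := ℝ) (φ := fun _ => ℝ) (Sum.inl i)).comp D)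
        ((ContinuousLinearMap.proj (R := ℝ) (φ := fun _ => ℝ) (Sum.inr i)).comp D) := by
  refine ContinuousLinearMap.ext fun u => ContinuousLinearMap.ext fun v => ?_
  rw [sum_apply, sum_apply]
  exact wD_apply (D u) (D v)

/-- A skew form is a sum of products of covectors. -/
theorem skew_eq_sum {V : Type} [NormedAddCommGroup V] [NormedSpace ℝ V] [FiniteDimensional ℝ V]
    {b : B2 V} (hs : Skew b) : ∃ (r : ℕ) (p q : Fin r → B1 V), b = ∑ k, wedge (p k) (q k) := by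
  let e := Module.finBasis ℝ V
  refine ⟨_, fun k => LinearMap.toContinuousLinearMap (e.coord k), fun k => (1 / 2 : ℝ) • b (e k),
    b2_ext fun u v => ?_⟩
  have h1 : ∀ u v, b u v = ∑ k, e.repr u k * b (e k) v := fun u v => by
    conv_lhs => rw [← e.sum_repr u]
    simp only [map_sum, map_smul, sum_apply, smul_apply, smul_eq_mul]
  have h2 : b u v = 1 / 2 * b u v - 1 / 2 * b v u := by
    rw [hs v u]
    ring
  rw [h2, h1 u v, h1 v u, Finset.mul_sum, Finset.mul_sum, ← Finset.sum_sub_distrib, sum_apply,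
    sum_apply]
  refine Finset.sum_congr rfl fun k _ => ?_
  simp only [wedge_apply, smul_apply, smul_eq_mul, LinearMap.coe_toContinuousLinearMap',
    Module.Basis.coord_apply]
  ring

theorem small_ne {b : B2 (WW m)} (hs : Skew b) {t0 : ℝ} (ht : 0 < t0) :
    ∃ t, 0 < t ∧ t < t0 ∧ Pq (b + t • w0 m) ≠ 0 := by
  let A : Module.End ℝ (WW m) := ((w0 m).inverse.comp b : WW m →L[ℝ] WW m)
  have hf : {t : ℝ | A.HasEigenvalue (-t)}.Finite :=
    A.finite_hasEigenvalue.preimage neg_injective.injOn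
  obtain ⟨t, h1, h2⟩ := ((Ioo_infinite ht).diff hf).nonempty
  refine ⟨t, h1.1, h1.2, Pq_ne (hs.add (skew_w0.smul t)) fun u hu => ?_⟩
  by_contra h0
  refine h2 (Module.End.hasEigenvalue_of_hasEigenvector (x := u)
    ⟨Module.End.mem_eigenspace_iff.2 ?_, h0⟩)
  refine sharp_eq nd_w0 (θ := b u) (ContinuousLinearMap.ext fun v => ?_)
  have := hu v
  simp only [add_apply, smul_apply, smul_eq_mul] at this
  simp only [map_smul, smul_apply, smul_eq_mul]
  linarith

end Pool.Agent.Work.MP_bf98aa_gt.Pl
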