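import Pool.Agent.Work.MP_bf98aa_gt.Pl.AmbA
import Pool.Agent.Work.MP_bf98aa_gt.Pl.LinB

/-!
Darboux points, positivity, negligible sets. good_of_chart: gen_push from (e, U) to (iota tau, opE), pb_iota, PB.trans, Pq_pb. pos_of_good: gen_push from every (iota tau, opE) to (e, U) (finitely many tau: eventually_all), PB.iota, PB.trans.
good_dar: gen_local on the open set of z in opE with iota z in Dar. negl_image: for every affine piece A of e let B = (left inverse of iota) o A; the points z with iota z in A '' Z lie in B '' Z; if B is invertible use genericity of the complement under the inverse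
(gen_pull for the affine inverse), otherwise B '' Z lies in a proper affine subspace (gen_sub). Keep.dar, Keep.fm, Keep.good: restrict the chart to the open set of points whose image is off C (Emb.isOpen_pre with OpenSub M (M minus C));
for the generic statement use that a generic point of the closure of an open set is in it, or gen_local. acc_dar: the chart is e o G on Sb (Emb.comp); G is locally affine with bijective derivative at generic points, gen_pull, PB.comp.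
-/

set_option autoImplicit false
set_option maxSynthPendingDepth 3
set_option linter.unusedSectionVars false
set_option linter.unusedVariables false

open Set Filter Topology Metric

noncomputable section
namespace Pool.Agent.Work.MP_bf98aa_gt.Pl

open Pool.Agent.Work.MP_bf98aa_gt.Ns

variable {m : ℕ} {E : Type} [NormedAddCommGroup E] [NormedSpace ℝ E] [FiniteDimensional ℝ E]
  {a : Amb m E} {P P' Q : Pot E} {e e' : WW m → E} {y y' : WW m} {b b' : B2 (WW m)}
  {U U' : Set (WW m)} {X X' C : Set E}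

theorem openSub_dar (a : Amb m E) (P : Pot E) : OpenSub a.M (Dar a P) := by
  exact openSub_of_local fun x ⟨e, U, h, hx⟩ => ⟨_, hx, fun _ hy => ⟨e, U, h, hy⟩, h.1.openSub⟩

theorem Dx.sub_dar (h : Dx a P e U) : e '' U ⊆ Dar a P := fun _ hx => ⟨e, U, h, hx⟩

theorem dar_const (hP : P.PLOn a.M) (τ : a.T) (hU : IsOpen U) (hs : U ⊆ opE a.Δ 0) (hb : Skew b)
    (hp : 0 < Pq b) (h : ∀ᶠ z in gen (WW m), z ∈ U → fm a P τ z = b) :
    a.ι τ '' U ⊆ Dar a P := by
  obtain ⟨L, hL, hd⟩ := darboux hb hp.ne'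
  obtain ⟨α, rfl, -⟩ := frame_ex 0 L
  have h0 : 0 < α.contLinear.det := (pos_iff_pos_of_mul_pos (hd ▸ one_pos)).2 hp
  obtain ⟨α', -, h1, -⟩ := aff_inv α h0.ne'
  rintro _ ⟨z, hz, rfl⟩
  exact (dx_aff hP τ h0 hU hs h hL).sub_dar ⟨α' z, by simpa [h1] using hz, by simp [h1]⟩

theorem acc_dar (he : Emb a.M e U) {R : Pot (WW m)} {A : Set (WW m)} (hA : Acc R A) (hs : A ⊆ U)
    (h : ∀ᶠ v in gen (WW m), v ∈ A → PB a P e v (R.form v)) : e '' A ⊆ Dar a P := by
  obtain ⟨S, G, hS, hG, hi, rfl, ho, hg⟩ := hA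
  have h1 := gen_pull hS ((hG.gen_locAff.and hg).mono fun u hu hu' =>
    ⟨hu.1, (bij_of_det (hu.2 hu').1.ne').2⟩) h
  rw [← image_comp]
  refine Dx.sub_dar (e := fun y => e (G y))
    ⟨he.comp hS (hG.plOn _) hi (fun u hu => hs ⟨u, hu, rfl⟩) ho, ?_⟩
  filter_upwards [hG.gen_locAff, hg, h1] with u h2 h3 h4 hu
  exact (h3 hu).2 ▸ (h4 hu ⟨u, hu, rfl⟩).comp h2 (h3 hu).1

theorem Good.mono (h : Good a P X) (hs : X' ⊆ X) : Good a P X' := by
  exact fun τ => (h τ).mono fun z hz h1 h2 => hz h1 (hs h2)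

theorem Good.union (h : Good a P X) (h' : Good a P X') : Good a P (X ∪ X') := by
  exact fun τ => ((h τ).and (h' τ)).mono fun z hz h1 h2 => h2.elim (hz.1 h1) (hz.2 h1)

theorem Negl.good (h : Negl a X) (P : Pot E) : Good a P X := by
  exact fun τ => (h τ).mono fun z hz h1 h2 => absurd h2 (hz h1)

theorem good_of_chart (hP : P.PLOn a.M) (he : Emb a.M e U)
    (h : ∀ᶠ y in gen (WW m), y ∈ U → ∃ b, PB a P e y b ∧ 0 < Pq b) : Good a P (e '' U) := by
  intro τ
  filter_upwards [gen_push he (emb_iota a τ) h, pb_iota hP τ] with z h1 h2 hz ⟨y, hy, hyz⟩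
  obtain ⟨b, hb, hp⟩ := h1 hz y hy hyz
  obtain ⟨A, hA, -, -, rfl⟩ := hb.trans (h2 hz) hyz
  rw [Pq_pb] at hp
  exact (pos_iff_pos_of_mul_pos hp).1 hA

theorem pos_of_good (hg : Good a P X) (he : Emb a.M e U) :
    ∀ᶠ y in gen (WW m), y ∈ U → e y ∈ X → ∀ b, PB a P e y b → 0 < Pq b := by
  filter_upwards [eventually_all.2 fun τ => gen_push (emb_iota a τ) he (hg τ)] with y h1 hy hX b hb
  obtain ⟨τ, z, hz, hzy, h2⟩ := hb.iota
  obtain ⟨A, hA, -, -, rfl⟩ := hb.trans h2 hzy.symm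
  rw [Pq_pb]
  exact mul_pos hA (h1 τ hy z hz hzy (hzy ▸ hX))

theorem good_dar (hP : P.PLOn a.M) : Good a P (Dar a P) := by
  intro τ
  refine (gen_local (p := fun z => 0 < Pq (fm a P τ z))
    ((emb_iota a τ).isOpen_pre (openSub_dar a P)) ?_).mono fun z hz h1 h2 => hz ⟨h1, h2⟩
  rintro x ⟨hx, e, U, hD, hx'⟩
  refine ⟨_, ((emb_iota a τ).isOpen_pre hD.1.openSub).mem_nhds ⟨hx, hx'⟩, ?_⟩
  exact (good_of_chart hP hD.1 (hD.2.mono fun y hy hy' => ⟨_, hy hy', Pq_w0 (m := m) ▸ one_pos⟩) τ).mono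
    fun z hz h1 => hz h1.1 h1.2

theorem AmbB_negl {Z : Set (WW m)} (B : WW m →ᴬ[ℝ] WW m) (h : ∀ᶠ v in gen (WW m), v ∉ Z) :
    ∀ᶠ z in gen (WW m), z ∉ B '' Z := by
  by_cases hB : Function.Surjective B.contLinear
  · have h0 := PLc_det_ne (A := B.contLinear)
      ((LinearMap.injective_iff_surjective (f := (B.contLinear : WW m →ₗ[ℝ] WW m))).2 hB)
    obtain ⟨B', h1, -, h2, -⟩ := aff_inv B h0
    have h3 := gen_pull (φ := B') isOpen_univ (Eventually.of_forall fun y _ => ⟨locAff_aff B' y, by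
      rw [B'.hasFDerivAt.fderiv]
      exact (bij_of_det (left_ne_zero_of_mul_eq_one h2)).2⟩) h
    filter_upwards [h3] with z hz ⟨v, hv, hz'⟩
    exact hz trivial (by rwa [← hz', h1])
  · filter_upwards [gen_sub (LinearMap.range (B.contLinear : WW m →ₗ[ℝ] WW m))
      (fun h0 => hB (LinearMap.range_eq_top.1 h0)) (B 0)] with z hz ⟨v, _, hz'⟩
    exact hz ⟨v, by rw [← hz', aff_eq B v, add_sub_cancel_left]; rfl⟩

theorem AmbB_open (M : Set E) (hC : IsClosed C) : OpenSub M (M \ C) :=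
  ⟨Cᶜ, hC.isOpen_compl, inter_comm _ _⟩

theorem AmbB_disj (e : WW m → E) (U : Set (WW m)) (M C : Set E) :
    Disjoint (e '' (U ∩ e ⁻¹' (M \ C))) C :=
  disjoint_left.2 fun _ ⟨_, hy, h⟩ => h ▸ hy.2.2

theorem negl_image {S Z : Set (WW m)} (he : PLOn S e) (hs : Z ⊆ S)
    (h : ∀ᶠ v in gen (WW m), v ∉ Z) : Negl a (e '' Z) := by
  intro τ
  obtain ⟨-, 𝒜, hf, hA⟩ := he
  obtain ⟨J, hJ⟩ := left_inv_aff (a.ι τ) (inj_contLinear _ (a.inj τ))
  filter_upwards [(eventually_all_finite hf).2 fun A _ => AmbB_negl (J.comp A) h] with z h1 _ ⟨v, hv, hz⟩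
  obtain ⟨A, h2, h3⟩ := hA v (hs hv)
  exact h1 A h2 ⟨v, hv, by rw [ContinuousAffineMap.comp_apply, ← h3, hz, hJ]⟩

theorem Keep.dar (h : Keep a P P' C) (hC : IsClosed C) : Dar a P \ C ⊆ Dar a P' := by
  rintro _ ⟨⟨e, U, hD, y, hy, rfl⟩, hx⟩
  have hD' := hD.mono (hD.1.isOpen_pre (AmbB_open a.M hC)) inter_subset_left
  refine ⟨e, _, ⟨hD'.1, ?_⟩, y, ⟨hy, hD.1.mapsTo hy, hx⟩, rfl⟩
  filter_upwards [h e _ hD'.1 (AmbB_disj e U a.M C), hD'.2] with z h1 h2 hz
  exact h1 hz _ (h2 hz)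

theorem Keep.fm (h : Keep a P P' C) (hC : IsClosed C) (hP : P.PLOn a.M) (hP' : P'.PLOn a.M)
    (τ : a.T) : ∀ᶠ z in gen (WW m), z ∈ opE a.Δ 0 → a.ι τ z ∉ C → fm a P' τ z = fm a P τ z := by
  have h0 := (emb_iota a τ).mono ((emb_iota a τ).isOpen_pre (AmbB_open a.M hC)) inter_subset_left
  filter_upwards [h _ _ h0 (AmbB_disj _ _ a.M C), pb_iota hP τ, pb_iota hP' τ] with z h1 h2 h3 hz hc
  exact (h3 hz).unique (h1 ⟨hz, (emb_iota a τ).mapsTo hz, hc⟩ _ (h2 hz))

theorem Keep.good (h : Keep a P P' C) (hC : IsClosed C) (hP : P.PLOn a.M) (hP' : P'.PLOn a.M)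
    (hg : Good a P X) : Good a P' (X \ C) := by
  intro τ
  filter_upwards [h.fm hC hP hP' τ, hg τ] with z h1 h2 hz hx
  rw [h1 hz hx.2]
  exact h2 hz hx.1

end Pool.Agent.Work.MP_bf98aa_gt.Pl
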