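import Pool.Agent.Work.MP_bf98aa_gt.Pl.AmbB

/-!
Changing the potentials, crossing walls. update: for every k let F k, G k be the extensions by zero (ext0) of f - f0 and g - g0, and F0 k, G0 k extensions of f0, g0 (hx); Q consists of the pairs (F, G0 + G) and (F0, G):
d(f - f0) dg + df0 d(g - g0) = df dg - df0 dg0. Off e '' N the functions F, G vanish, so the form of Q.comp e' vanishes on the open set U; PB.add, Pot.PLOn.gen_aff.
two_side: halfball for the vector valued map v -> (fun k => f k v, fun k => g k v) (plOn_pi), or induction; affine maps that agree on the part of the hyperplane in a ball have linear parts that agree on the kernel.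
wall_dar: two_side, gen_exists in the two half balls, wall_lin, the chart is e o phi with phi = two_piece (z' + L u) (z' + L' u) along cs; Emb.comp_plh, IsPLH.gen_pull, PB.comp, gen_ne.
adj_cross: shrink the ball so that its image avoids C, apply wall_dar with l = crd, the form pb alpha (B tau') on the negative side and B tau on the positive side, R = P.comp e, pos_of_good; W is the image of the small ball.
-/

set_option autoImplicit false
set_option maxSynthPendingDepth 3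
set_option linter.unusedSectionVars false
set_option linter.unusedVariables false

open Set Filter Topology Metric

noncomputable section
namespace Pool.Agent.Work.MP_bf98aa_gt.Pl

open Pool.Agent.Work.MP_bf98aa_gt.Ns

variable {m : ℕ} {E : Type} [NormedAddCommGroup E] [NormedSpace ℝ E] [FiniteDimensional ℝ E]
  {a : Amb m E} {P P' Q : Pot E} {e e' : WW m → E} {y y' : WW m} {b b' : B2 (WW m)}
  {U U' : Set (WW m)} {X X' C : Set E}

theorem update {N No : Set (WW m)} (hN : IsCompact N) (hs : No ⊆ N) (he : PLOn N e)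
    (hi : InjOn e N) (hm : MapsTo e N a.M) (ho : Emb a.M e No) (Θ : Pot2 (WW m))
    (h1 : Θ.new.PLOn univ) (h0 : Θ.old.PLOn univ)
    (bd : ∀ v ∈ N, v ∉ No → ∀ k, Θ.f k v = Θ.f0 k v ∧ Θ.g k v = Θ.g0 k v)
    (hx : ∀ h : WW m → ℝ, PL h → ∃ H : E → ℝ, PLOn a.M H ∧ ∀ v ∈ N, H (e v) = h v) :
    ∃ Q : Pot E, Q.PLOn a.M ∧ (∀ P, Keep a P (P.add Q) (e '' N)) ∧
      ∀ P, ∀ᶠ v in gen (WW m), v ∈ No → ∀ b, PB a P e v b →
        PB a (P.add Q) e v (b + (Θ.new.form v - Θ.old.form v)) := by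
  have hf : ∀ k, PL (Θ.f k) ∧ PL (Θ.g k) := h1
  have hf0 : ∀ k, PL (Θ.f0 k) ∧ PL (Θ.g0 k) := h0
  choose F hF hFe hFz using fun k => ext0 hN ho.opn hs he hi hm ho.oin
    (((hf k).1.sub (hf0 k).1).mono (subset_univ N)) fun v hv hv' => sub_eq_zero.2 (bd v hv hv' k).1
  choose G hG hGe hGz using fun k => ext0 hN ho.opn hs he hi hm ho.oin
    (((hf k).2.sub (hf0 k).2).mono (subset_univ N)) fun v hv hv' => sub_eq_zero.2 (bd v hv hv' k).2
  choose F0 hF0 hF0e using fun k => hx _ (hf0 k).1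
  choose G0 hG0 hG0e using fun k => hx _ (hf0 k).2
  let Q1 : Pot E := ⟨Θ.κ, Θ.fin, F, fun k x => G0 k x + G k x⟩
  let Q2 : Pot E := ⟨Θ.κ, Θ.fin, F0, G⟩
  have hQ : (Q1.add Q2).PLOn a.M :=
    Pot.PLOn.add (P := Q1) (Q := Q2) (fun k => ⟨hF k, (hG0 k).add (hG k)⟩) fun k => ⟨hF0 k, hG k⟩
  refine ⟨Q1.add Q2, hQ, fun P e' U he' hd => ?_, fun P => ?_⟩
  · filter_upwards [(hQ.comp he'.pl he'.mapsTo).gen_aff he'.opn] with y hy hyU b hb
    have hz : ∀ H : E → ℝ, (∀ x, x ∉ e '' N → H x = 0) → fderiv ℝ (fun z => H (e' z)) y = 0 := by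
      intro H hH
      have : (fun z => H (e' z)) =ᶠ[𝓝 y] fun _ => 0 :=
        eventually_of_mem (he'.opn.mem_nhds hyU) fun z hz =>
          hH _ (disjoint_left.1 hd (mem_image_of_mem _ hz))
      rw [this.fderiv_eq, fderiv_fun_const]
      rfl
    have e1 : (Q1.comp e').form y = 0 := Finset.sum_eq_zero fun k _ => by
      change wedge (fderiv ℝ (fun z => F k (e' z)) y) _ = 0
      rw [hz _ (hFz k)]
      simp [wedge]
    have e2 : (Q2.comp e').form y = 0 := Finset.sum_eq_zero fun k _ => by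
      change wedge _ (fderiv ℝ (fun z => G k (e' z)) y) = 0
      rw [hz _ (hGz k)]
      simp [wedge]
    simpa [Pot.add_form, e1, e2] using hb.add (hy hyU)
  · filter_upwards [(hQ.comp ho.pl ho.mapsTo).gen_aff ho.opn, h1.gen_aff isOpen_univ,
      h0.gen_aff isOpen_univ] with v hv a1 a0 hvN b hb
    have hz : ∀ (H : E → ℝ) (h : WW m → ℝ), (∀ w ∈ N, H (e w) = h w) →
        fderiv ℝ (fun z => H (e z)) v = fderiv ℝ h v := fun H h hH =>
      EventuallyEq.fderiv_eq (eventually_of_mem (ho.opn.mem_nhds hvN) fun z hz => hH z (hs hz))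
    have e1 : ((Q1.add Q2).comp e).form v = Θ.new.form v - Θ.old.form v := by
      rw [Pot.add_form]
      refine (Finset.sum_add_distrib.symm.trans
        (Finset.sum_congr rfl fun (k : Θ.κ) _ => ?_)).trans (Finset.sum_sub_distrib _ _)
      have d1 : DifferentiableAt ℝ (Θ.f k) v := (a1 trivial k).1.differentiableAt
      have d2 : DifferentiableAt ℝ (Θ.g k) v := (a1 trivial k).2.differentiableAt
      have d3 : DifferentiableAt ℝ (Θ.f0 k) v := (a0 trivial k).1.differentiableAt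
      have d4 : DifferentiableAt ℝ (Θ.g0 k) v := (a0 trivial k).2.differentiableAt
      change wedge (fderiv ℝ (fun z => F k (e z)) v) (fderiv ℝ (fun z => G0 k (e z) + G k (e z)) v) +
        wedge (fderiv ℝ (fun z => F0 k (e z)) v) (fderiv ℝ (fun z => G k (e z)) v) =
        wedge (fderiv ℝ (Θ.f k) v) (fderiv ℝ (Θ.g k) v) -
          wedge (fderiv ℝ (Θ.f0 k) v) (fderiv ℝ (Θ.g0 k) v)
      rw [hz _ _ (hFe k), hz _ _ (hGe k), hz _ _ (hF0e k),
        hz (fun x => G0 k x + G k x) (Θ.g k) fun w hw => by rw [hG0e k w hw, hGe k w hw]; ring,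
        fderiv_fun_sub d1 d3, fderiv_fun_sub d2 d4]
      refine ContinuousLinearMap.ext fun u => ContinuousLinearMap.ext fun w => ?_
      simp [wedge]
      ring
    exact e1 ▸ hb.add (hv hvN)

theorem AmbC_pt (l : WW m →ᴬ[ℝ] ℝ) (hl : l.contLinear ≠ 0) {z : WW m} (h0 : l z = 0) {r : ℝ}
    (hr : 0 < r) : (∃ y ∈ ball z r, l y < 0) ∧ ∃ y ∈ ball z r, 0 < l y := by
  obtain ⟨v, hv⟩ := PLc_unit hl
  have h := (PLb_line z v).eventually (ball_mem_nhds z hr)
  have e : ∀ t : ℝ, l (z + t • v) = t := fun t => by simp [PLb_add, h0, hv]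
  obtain ⟨t, ht, ht'⟩ := ((h.filter_mono nhdsWithin_le_nhds).and
    (self_mem_nhdsWithin (s := Iio (0 : ℝ)))).exists
  obtain ⟨s, hs, hs'⟩ := ((h.filter_mono nhdsWithin_le_nhds).and
    (self_mem_nhdsWithin (s := Ioi (0 : ℝ)))).exists
  exact ⟨⟨_, ht, (e t).trans_lt ht'⟩, _, hs, lt_of_lt_of_eq hs' (e s).symm⟩

/-- The form of a family of linear functions. -/
def AmbC_W {κ : Type} [Fintype κ] (L : WW m →L[ℝ] (κ → ℝ) × (κ → ℝ)) : B2 (WW m) :=
  ∑ k, wedge ((ContinuousLinearMap.proj k).comp ((ContinuousLinearMap.fst ℝ _ _).comp L))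
    ((ContinuousLinearMap.proj k).comp ((ContinuousLinearMap.snd ℝ _ _).comp L))

theorem AmbC_W_apply {κ : Type} [Fintype κ] (L : WW m →L[ℝ] (κ → ℝ) × (κ → ℝ)) (u v : WW m) :
    AmbC_W L u v = ∑ k, ((L u).1 k * (L v).2 k - (L u).2 k * (L v).1 k) := by
  simp [AmbC_W, wedge]

theorem AmbC_skew {κ : Type} [Fintype κ] (L : WW m →L[ℝ] (κ → ℝ) × (κ → ℝ)) :
    Skew (AmbC_W L) := fun u v => by
  rw [AmbC_W_apply, AmbC_W_apply, ← Finset.sum_neg_distrib]
  exact Finset.sum_congr rfl fun k _ => by ring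

theorem AmbC_form (R : Pot (WW m)) (A : WW m →ᴬ[ℝ] (R.κ → ℝ) × (R.κ → ℝ)) {v : WW m}
    (h : ∀ᶠ y in 𝓝 v, (fun k => R.f k y, fun k => R.g k y) = A y) :
    R.form v = AmbC_W A.contLinear := by
  have hA := A.hasFDerivAt.congr_of_eventuallyEq h
  refine Finset.sum_congr rfl fun k _ => ?_
  rw [(hasFDerivAt_pi'.1 hA.fst k).fderiv, (hasFDerivAt_pi'.1 hA.snd k).fderiv]

theorem two_side (hU : IsOpen U) {R : Pot (WW m)} (hR : R.PLOn U) (l : WW m →ᴬ[ℝ] ℝ)
    (hl : l.contLinear ≠ 0) {z : WW m} (hz : z ∈ U) (h0 : l z = 0) :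
    ∃ (z' : WW m) (r : ℝ) (c c' : B2 (WW m)), 0 < r ∧ l z' = 0 ∧ ball z' r ⊆ U ∧ Skew c ∧ Skew c' ∧
      (∀ u v, l.contLinear u = 0 → l.contLinear v = 0 → c u v = c' u v) ∧
      (∀ v ∈ ball z' r, l v < 0 → R.form v = c) ∧ ∀ v ∈ ball z' r, 0 < l v → R.form v = c' := by
  obtain ⟨z', r, A, A', hr, hz', hs, hA, hA'⟩ := halfball hU
    ((plOn_pi fun k => (hR k).1).prodMk (plOn_pi fun k => (hR k).2)) l hl hz h0
  have key : ∀ u, l.contLinear u = 0 → A.contLinear u = A'.contLinear u := by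
    intro u hu
    obtain ⟨t, ht, ht'⟩ := ((((PLb_line z' u).eventually (ball_mem_nhds z' hr)).filter_mono
      nhdsWithin_le_nhds).and (self_mem_nhdsWithin (s := Ioi (0 : ℝ)))).exists
    have e0 : l (z' + t • u) = 0 := by simp [PLb_add, hz', hu]
    have e1 := (hA _ ht e0.le).symm.trans (hA' _ ht e0.ge)
    rw [PLb_add, PLb_add, ← hA _ (mem_ball_self hr) hz'.le, ← hA' _ (mem_ball_self hr) hz'.ge,
      add_right_inj] at e1
    exact smul_right_injective _ (ne_of_gt ht') e1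
  refine ⟨z', r, _, _, hr, hz', hs, AmbC_skew A.contLinear, AmbC_skew A'.contLinear,
    fun u v hu hv => ?_, fun v hv h => AmbC_form R A ?_, fun v hv h => AmbC_form R A' ?_⟩
  · rw [AmbC_W_apply, AmbC_W_apply, key u hu, key v hv]
  · filter_upwards [isOpen_ball.mem_nhds hv, l.continuous.continuousAt.eventually_lt_const h]
      with y h1 h2 using hA y h1 h2.le
  · filter_upwards [isOpen_ball.mem_nhds hv, l.continuous.continuousAt.eventually_const_lt h]
      with y h1 h2 using hA' y h1 h2.le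

theorem wall_dar (he : Emb a.M e U) {R : Pot (WW m)} (hR : R.PLOn U) (hb : Skew b) (hb' : Skew b')
    (l : WW m →ᴬ[ℝ] ℝ) (hl : l.contLinear ≠ 0)
    (hag : ∀ u v, l.contLinear u = 0 → l.contLinear v = 0 → b u v = b' u v)
    (h : ∀ᶠ v in gen (WW m), v ∈ U →
      (l v < 0 → PB a P e v (b + R.form v) ∧ 0 < Pq (b + R.form v)) ∧
      (0 < l v → PB a P e v (b' + R.form v) ∧ 0 < Pq (b' + R.form v)))
    {z : WW m} (hz : z ∈ U) (h0 : l z = 0) :
    ∃ (z' : WW m) (r : ℝ), 0 < r ∧ l z' = 0 ∧ ball z' r ⊆ U ∧ e '' ball z' r ⊆ Dar a P := by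
  obtain ⟨z', r, c, c', hr, hz', hs, hc, hc', hcc, h1, h2⟩ := two_side he.opn hR l hl hz h0
  obtain ⟨⟨y1, hy1⟩, y2, hy2⟩ := AmbC_pt l hl hz' hr
  obtain ⟨v1, hv1, p1⟩ := gen_exists h
    (isOpen_ball.inter (isOpen_lt l.continuous continuous_const)) ⟨y1, hy1⟩
  obtain ⟨v2, hv2, p2⟩ := gen_exists h
    (isOpen_ball.inter (isOpen_lt continuous_const l.continuous)) ⟨y2, hy2⟩
  have q1 := ((p1.self_of_nhds (hs hv1.1)).1 hv1.2).2
  have q2 := ((p2.self_of_nhds (hs hv2.1)).2 hv2.2).2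
  rw [h1 _ hv1.1 hv1.2] at q1
  rw [h2 _ hv2.1 hv2.2] at q2
  have sk : ∀ {x y : B2 (WW m)}, Skew x → Skew y → Skew (x + y) := fun hx hy u v => by
    rw [add_apply, add_apply, add_apply, add_apply, hx u v, hy u v, neg_add]
  obtain ⟨L, L', t, ht, hL, hL', eL, eL', lL, lL', hLL⟩ := wall_lin (sk hb hc) (sk hb' hc') q1 q2 hl
    fun u v hu hv => by
      rw [add_apply, add_apply, add_apply, add_apply, hag u v hu hv, hcc u v hu hv]
  obtain ⟨g, hg, eg⟩ := frame_ex z' L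
  obtain ⟨g', hg', eg'⟩ := frame_ex z' L'
  have hcs : (cs m).toContinuousAffineMap.contLinear ≠ 0 := cs_ne
  obtain ⟨ψ, hφ⟩ := two_piece g g' (hg ▸ hL) (hg' ▸ hL') _ hcs fun y hy => by
    rw [eg, eg', hLL y hy]
  set φ : WW m → WW m := fun y => if (cs m).toContinuousAffineMap y ≤ 0 then g y else g' y
  have hD : Dx a P (fun y => e (φ y)) (φ ⁻¹' ball z' r) := by
    refine ⟨(he.mono isOpen_ball hs).comp_plh hφ, ?_⟩
    filter_upwards [hφ.gen_pull h, gen_ne _ hcs] with y hy hne hm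
    have key : ∀ (k : WW m →ᴬ[ℝ] WW m) (x : B2 (WW m)), φ =ᶠ[𝓝 y] k → 0 < k.contLinear.det →
        pb k.contLinear x = w0 m → PB a P e (φ y) x → PB a P (fun y => e (φ y)) y (w0 m) := by
      intro k x hk hd hx hp
      have e1 : fderiv ℝ φ y = k.contLinear := hk.fderiv_eq.trans k.hasFDerivAt.fderiv
      have := hp.comp ⟨k, hk⟩ (e1 ▸ hd)
      rwa [e1, hx] at this
    rcases lt_or_gt_of_ne hne with h3 | h3
    · have e1 : φ =ᶠ[𝓝 y] g :=
        ((cs m).continuous.continuousAt.eventually_lt_const h3).mono fun w hw => if_pos hw.le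
      have e2 : l (φ y) < 0 := by
        rw [e1.self_of_nhds, eg, PLc_add, hz', lL, zero_add]
        exact h3
      exact key g _ e1 (hg ▸ hL) (hg ▸ eL) (h1 _ hm e2 ▸ ((hy (hs hm)).1 e2).1)
    · have e1 : φ =ᶠ[𝓝 y] g' :=
        ((cs m).continuous.continuousAt.eventually_const_lt h3).mono fun w hw => if_neg hw.not_ge
      have e2 : 0 < l (φ y) := by
        rw [e1.self_of_nhds, eg', PLc_add, hz', lL', zero_add]
        exact mul_pos ht h3
      exact key g' _ e1 (hg' ▸ hL') (hg' ▸ eL') (h2 _ hm e2 ▸ ((hy (hs hm)).2 e2).1)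
  refine ⟨z', r, hr, hz', hs, ?_⟩
  rintro _ ⟨v, hv, rfl⟩
  exact hD.sub_dar ⟨ψ v, by rwa [mem_preimage, hφ.right], by simp only [hφ.right]⟩

theorem adj_cross {τ τ' : a.T} (h : Adj a.M a.Δ a.ι a.B τ τ') (hP : P.PLOn a.M) (hC : IsClosed C)
    (hc : ∀ z ∈ clE a.Δ 0, z ∉ opE a.Δ 0 → a.ι τ z ∉ C) (hg : Good a P Cᶜ) :
    ∃ W : Set E, OpenSub a.M W ∧ IsPreconnected W ∧ W ⊆ Dar a P ∧ Disjoint W C ∧
      (W ∩ a.ι τ '' opE a.Δ 0).Nonempty ∧ (W ∩ a.ι τ' '' opE a.Δ 0).Nonempty := by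
  classical
  obtain ⟨i, z, r, α, hw, hα, hmap, -, hB, he⟩ := h
  set e : WW m → E := fun y => if 0 ≤ a.Δ.coord i y then a.ι τ y else a.ι τ' (α y)
  have hU : IsOpen (ball z r ∩ e ⁻¹' Cᶜ) :=
    he.pl.continuousOn.isOpen_inter_preimage isOpen_ball hC.isOpen_compl
  have he' := he.mono hU inter_subset_left
  have hR := hP.comp he'.pl he'.mapsTo
  have hl := crd_ne (by omega) a.Δ i
  have hop : ∀ v ∈ ball z r, 0 < a.Δ.coord i v → v ∈ opE a.Δ 0 := fun v hv h j => by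
    rw [neg_zero]
    by_cases hj : j = i
    · exact hj ▸ h
    · exact hw.2.2 v hv j hj
  have hz : z ∈ ball z r ∩ e ⁻¹' Cᶜ := by
    refine ⟨mem_ball_self hw.1, ?_⟩
    have : e z = a.ι τ z := if_pos hw.2.1.ge
    rw [mem_preimage, this]
    exact hc z hw.mem fun h => by simpa [hw.2.1] using h i
  obtain ⟨z', r', hr, hz', hs, hD⟩ := wall_dar (P := P) he' hR (b := pb α.contLinear (a.B τ'))
    (fun u v => a.skew τ' _ _) (a.skew τ) (crd a.Δ i) hl hB (by
      filter_upwards [hR.gen_aff hU, pos_of_good hg he'] with v h1 h2 hv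
      refine ⟨fun h => ?_, fun h => ?_⟩
      · have h3 : PB a P e v (pb α.contLinear (a.B τ') + (P.comp e).form v) :=
          ⟨τ', α, hα, hmap ⟨hv.1, h⟩, ((Sx_cont a.Δ i).continuousAt.eventually_lt_const h).mono
            fun w hw => if_neg hw.not_ge, h1 hv, rfl⟩
        exact ⟨h3, h2 hv hv.2 _ h3⟩
      · have h3 : PB a P e v (a.B τ + (P.comp e).form v) :=
          ⟨τ, ContinuousAffineMap.id ℝ _, (PLc_one (V := WW m)).symm ▸ one_pos, hop v hv.1 h,
            ((Sx_cont a.Δ i).continuousAt.eventually_const_lt h).mono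
              fun w hw => if_pos hw.le, h1 hv, rfl⟩
        exact ⟨h3, h2 hv hv.2 _ h3⟩) hz hw.2.1
  have he2 := he'.mono isOpen_ball hs
  obtain ⟨⟨y1, hy1, l1⟩, y2, hy2, l2⟩ := AmbC_pt _ hl hz' hr
  refine ⟨_, he2.openSub, (convex_ball z' r').isPreconnected.image _ he2.pl.continuousOn, hD,
    disjoint_left.2 ?_, ⟨e y2, mem_image_of_mem _ hy2, y2, hop _ (hs hy2).1 l2, (if_pos l2.le).symm⟩,
    e y1, mem_image_of_mem _ hy1, α y1, hmap ⟨(hs hy1).1, l1⟩, (if_neg l1.not_ge).symm⟩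
  rintro _ ⟨v, hv, rfl⟩
  exact (hs hv).2

end Pool.Agent.Work.MP_bf98aa_gt.Pl
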