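import Mathlib

/-!
Piecewise linear symplectic forms on simplicial pseudomanifolds: the notions used in the statement.
-/

set_option autoImplicit false

open Set Filter Topology

namespace Pool.Agent.Work.MP_bf98aa_gt.PlSt

/-- The index `2 i`. -/
def evn {n : ℕ} (i : Fin n) : Fin (2 * n) :=
  ⟨2 * i.1, Nat.mul_lt_mul_of_pos_left i.2 Nat.two_pos⟩

/-- The index `2 i + 1`. -/
def odd {n : ℕ} (i : Fin n) : Fin (2 * n) :=
  ⟨2 * i.1 + 1, Nat.lt_of_lt_of_le (Nat.lt_succ_self _) (Nat.mul_le_mul_left 2 i.2)⟩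

/-- The Pfaffian sum: `2 ^ n` times the coefficient of the `n`-th exterior power of the 2-form
with skew matrix `A`. -/
noncomputable def pfaff {n : ℕ} (A : Fin (2 * n) → Fin (2 * n) → ℝ) : ℝ :=
  ∑ σ : Equiv.Perm (Fin (2 * n)), ((Equiv.Perm.sign σ : ℤ) : ℝ) * ∏ i : Fin n, A (σ (evn i)) (σ (odd i))

variable {W T : Type} [Fintype W] [DecidableEq W] {N : ℕ}

/-- The point of `ℝ ^ W` that realises a vertex. -/
def pt (w : W) : W → ℝ := Pi.single w 1

/-- The closed simplex with vertices `u 0, …, u N`. -/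
def simplex (u : Fin (N + 1) → W) : Set (W → ℝ) := convexHull ℝ (range fun i => pt (u i))

/-- The open simplex: all barycentric coordinates are positive. -/
def openSimplex (u : Fin (N + 1) → W) : Set (W → ℝ) := {x | x ∈ simplex u ∧ ∀ i, 0 < x (u i)}

/-- The polyhedron. -/
def space (v : T → Fin (N + 1) → W) : Set (W → ℝ) := ⋃ τ, simplex (v τ)

/-- The vertices of the face opposite to the vertex number `i`. -/
def face (u : Fin (N + 1) → W) (i : Fin (N + 1)) : Set W := range fun k => u (i.succAbove k)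

/-- The ordered top simplices `v τ` form a closed, strongly connected, coherently oriented
pseudomanifold of dimension `N`. -/
structure Pseudo (v : T → Fin (N + 1) → W) : Prop where
  inj : ∀ τ, Function.Injective (v τ)
  distinct : ∀ τ τ', range (v τ) = range (v τ') → τ = τ'
  two : ∀ τ i, ∃! τ', τ' ≠ τ ∧ face (v τ) i ⊆ range (v τ')
  orient : ∀ (τ τ' : T) (i j : Fin (N + 1)) (π : Equiv.Perm (Fin N)), τ ≠ τ' →
    (∀ k, v τ (i.succAbove k) = v τ' (j.succAbove (π k))) →
    (-1 : ℤ) ^ (i.1 + j.1) * (Equiv.Perm.sign π : ℤ) = -1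
  conn : ∀ τ τ', Relation.ReflTransGen (fun a b => ∃ i, face (v a) i ⊆ range (v b)) τ τ'

/-- An alternating real simplicial 2-cocycle. -/
structure Cocycle (v : T → Fin (N + 1) → W) (c : W → W → W → ℝ) : Prop where
  alt1 : ∀ x y z, c x y z = -c y x z
  alt2 : ∀ x y z, c x y z = -c x z y
  closed : ∀ τ i j k l, c (v τ j) (v τ k) (v τ l) - c (v τ i) (v τ k) (v τ l) +
    c (v τ i) (v τ j) (v τ l) - c (v τ i) (v τ j) (v τ k) = 0

/-- The matrix, in the basis of edges from `u 0`, of the constant 2-form of the cocycle. -/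
def mat (c : W → W → W → ℝ) (u : Fin (N + 1) → W) (i j : Fin N) : ℝ :=
  c (u 0) (u i.succ) (u j.succ)

/-- The differential of an affine function on the edge from `u 0` to `u (i + 1)`. -/
def dif (a : (W → ℝ) →ᵃ[ℝ] ℝ) (u : Fin (N + 1) → W) (i : Fin N) : ℝ :=
  a (pt (u i.succ)) - a (pt (u 0))

/-- A piecewise linear function on `S`: a continuous selection of finitely many affine functions. -/
def IsPL (S : Set (W → ℝ)) (f : (W → ℝ) → ℝ) : Prop :=
  ContinuousOn f S ∧ ∃ A : Set ((W → ℝ) →ᵃ[ℝ] ℝ), A.Finite ∧ ∀ x ∈ S, ∃ a ∈ A, f x = a x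

end Pool.Agent.Work.MP_bf98aa_gt.PlSt
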