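import Pool.Agent.Work.MP_bf98aa_gt.Pl.Core
import Pool.Agent.Work.MP_bf98aa_gt.Pl.Sx
import Pool.Agent.Work.MP_bf98aa_gt.Pl.Stmt
import Pool.Agent.Work.MP_bf98aa_gt.Ns.Bridge

/-!
The reference simplex; affine maps that permute its vertices; removal of the nondegeneracy
assumption.
-/

set_option autoImplicit false
set_option maxSynthPendingDepth 3
set_option linter.unusedSectionVars false
set_option linter.unusedVariables false

open Set Filter Topology Metric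

noncomputable section
namespace Pool.Agent.Work.MP_bf98aa_gt.Pl

open Pool.Agent.Work.MP_bf98aa_gt.Ns

theorem br_frame (m : ℕ) : ∃ (Ψ : (Fin (2 * (m + 1)) → ℝ) ≃L[ℝ] WW m) (κ : ℝ), 0 < κ ∧
    ∀ b : B2 (WW m), (PlSt.pfaff fun i j => b (Ψ (Pi.single i 1)) (Ψ (Pi.single j 1))) = κ * Pq b := by
  obtain ⟨Ψ⟩ : Nonempty ((Fin (2 * (m + 1)) → ℝ) ≃L[ℝ] WW m) :=
    ⟨ContinuousLinearEquiv.ofFinrankEq (by rw [finrank_WW]; simp; ring)⟩
  obtain ⟨κ₁, h1, e1⟩ := pfaff_eq (m + 1)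
  obtain ⟨κ₂, h2, e2⟩ := pf_equiv Ψ
  have e : ∀ b : B2 (WW m), (PlSt.pfaff fun i j => b (Ψ (Pi.single i 1)) (Ψ (Pi.single j 1))) =
      κ₁ * κ₂ * pf (w0 m) * Pq b := fun b => by
    refine (e1 (pb (Ψ : (Fin (2 * (m + 1)) → ℝ) →L[ℝ] WW m) b)).trans ?_
    rw [e2, Pq, mul_assoc _ (pf (w0 m)), mul_div_cancel₀ _ pf_w0_ne, mul_assoc]
  rcases (mul_ne_zero (mul_ne_zero h1 h2) (pf_w0_ne (m := m))).lt_or_gt with h | h
  · have hr : ∀ v : WW m, rf m (rf m v) = v := fun v => by rw [rf_apply, rf_apply, neg_neg]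
    refine ⟨Ψ.trans (ContinuousLinearEquiv.equivOfInverse (rf m) (rf m) hr hr), _, neg_pos.2 h,
      fun b => (e (pb (rf m) b)).trans ?_⟩
    rw [Pq_pb, det_rf]
    ring
  · exact ⟨Ψ, _, h, e⟩

theorem br_ref (m : ℕ) : ∃ (Δ : Sx (WW m) (2 * m + 2)) (κ : ℝ), 0 < κ ∧ ∀ b : B2 (WW m),
    (PlSt.pfaff (n := m + 1) fun i j => b (Δ i.succ - Δ 0) (Δ j.succ - Δ 0)) = κ * Pq b := by
  obtain ⟨Ψ, κ, h, e⟩ := br_frame m
  obtain ⟨l, hl⟩ : ∃ l : Fin (2 * m + 2) → WW m →ₗ[ℝ] ℝ, ∀ i y, l i y = Ψ.symm y i :=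
    ⟨fun i => (LinearMap.proj i).comp (Ψ.symm : WW m →ₗ[ℝ] (Fin (2 * (m + 1)) → ℝ)), fun _ _ => rfl⟩
  obtain ⟨Δ, h1, -⟩ := sx_of_coord (d := 2 * m + 2)
    (Fin.cons (0 : WW m) fun i => Ψ (Pi.single i 1))
    (Fin.cons (AffineMap.const ℝ (WW m) (1 : ℝ) - (∑ i, l i).toAffineMap) fun i => (l i).toAffineMap)
    (fun i j => by
      refine Fin.cases ?_ (fun i => ?_) i <;> refine Fin.cases ?_ (fun j => ?_) j
      · simp
      · simp [hl, (Fin.succ_ne_zero j).symm]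
      · simp [Fin.succ_ne_zero i]
      · simp [hl, Pi.single_apply])
    (fun y => by
      rw [Fin.sum_univ_succ]
      simp only [Fin.cons_zero, Fin.cons_succ, smul_zero, zero_add, LinearMap.coe_toAffineMap, hl,
        ← map_smul, ← map_sum]
      exact (congrArg Ψ (pi_eq_sum_univ' (Ψ.symm y)).symm).trans (Ψ.apply_symm_apply y))
    (fun y => by
      rw [Fin.sum_univ_succ]
      simp)
  refine ⟨Δ, κ, h, fun b => Eq.trans ?_ (e b)⟩
  refine congrArg PlSt.pfaff (funext fun i => funext fun j => ?_)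
  rw [h1, h1, h1]
  exact congrArg₂ (fun x y => b x y) (sub_zero _) (sub_zero _)

section
variable {Y : Type} [NormedAddCommGroup Y] [NormedSpace ℝ Y] [FiniteDimensional ℝ Y] {d : ℕ}

theorem br_rank1 (l : Y →ᴬ[ℝ] ℝ) (u : Y) : ∃ A : Y →ᴬ[ℝ] Y, (∀ y, A y = y + l y • u) ∧
    A.contLinear.det = 1 + l.contLinear u := by
  refine ⟨ContinuousAffineMap.id ℝ Y +
    (ContinuousLinearMap.toSpanSingleton ℝ u).toContinuousAffineMap.comp l, fun _ => rfl, ?_⟩
  rw [← det_rank1]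
  rfl

theorem br_lin (Δ : Sx Y d) (k : Fin (d + 1)) (y y' : Y) :
    (crd Δ k).contLinear (y - y') = Δ.coord k y - Δ.coord k y' :=
  (crd Δ k).contLinear_map_vsub y y'

theorem br_perm (Δ : Sx Y d) (ρ : Equiv.Perm (Fin (d + 1))) : ∃ P : Y →ᴬ[ℝ] Y,
    P.contLinear.det = ((Equiv.Perm.sign ρ : ℤ) : ℝ) ∧ ∀ k y, Δ.coord (ρ k) (P y) = Δ.coord k y := by
  induction ρ using Equiv.Perm.swap_induction_on with
  | one => exact ⟨ContinuousAffineMap.id ℝ Y, PLc_one.trans (by simp), fun _ _ => rfl⟩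
  | swap_mul σ a b hab ih =>
    obtain ⟨P, h1, h2⟩ := ih
    obtain ⟨S, s1, s2⟩ := br_rank1 (crd Δ a - crd Δ b) (Δ b - Δ a)
    refine ⟨S.comp P, ?_, fun k y => ?_⟩
    · rw [ContinuousAffineMap.comp_contLinear, det_comp', h1, s2, ContinuousAffineMap.sub_contLinear,
        _root_.sub_apply, br_lin, br_lin, Equiv.Perm.sign_mul, Equiv.Perm.sign_swap hab]
      simp only [Δ.coord_apply, if_pos, if_neg hab, if_neg hab.symm]
      push_cast
      ring
    · rw [← h2 k y, ContinuousAffineMap.comp_apply, s1, Equiv.Perm.mul_apply, ← crd_apply, PLc_line,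
        br_lin]
      generalize σ k = k
      simp only [crd_apply, ContinuousAffineMap.sub_apply, Δ.coord_apply, smul_eq_mul]
      by_cases e1 : k = a
      · simp [e1, hab.symm]
      by_cases e2 : k = b
      · simp [e2, hab]
      · simp [Equiv.swap_apply_of_ne_of_ne e1 e2, e1, e2]

end

variable {m : ℕ} {E : Type} [NormedAddCommGroup E] [NormedSpace ℝ E] [FiniteDimensional ℝ E]

theorem br_adj {T : Type} {M : Set E} {Δ : Sx (WW m) (2 * m + 2)} {ι : T → WW m →ᴬ[ℝ] E}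
    {B : T → B2 (WW m)} {τ τ' : T} (h : Adj M Δ ι B τ τ') (β : B2 E) :
    Adj M Δ ι (fun τ => B τ + pb (ι τ).contLinear β) τ τ' := by
  obtain ⟨i, z, r, α, h1, h2, h3, h4, h5, h6⟩ := h
  refine ⟨i, z, r, α, h1, h2, h3, h4, fun u u' e e' => ?_, h6⟩
  have k : ∀ u, (Δ.coord i).linear u = 0 →
      (ι τ').contLinear (α.contLinear u) = (ι τ).contLinear u := fun u e => by
    have e1 := h4 (z + u) (by rw [← crd_apply, PLc_add, crd_apply, crd_lin, h1.2.1, e, add_zero])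
    rw [PLc_add, PLc_add, PLc_add, h4 z h1.2.1] at e1
    exact add_left_cancel e1
  simp only [_root_.add_apply, pb_apply, h5 u u' e e', k u e, k u' e']

theorem br_small (a : Amb m E) (h : 0 < ∑ τ, Pq (a.B τ)) (S : Finset a.T) : ∃ β : B2 E, Skew β ∧
    (∀ τ ∈ S, Pq (a.B τ + pb (a.ι τ).contLinear β) ≠ 0) ∧
      0 < ∑ τ, Pq (a.B τ + pb (a.ι τ).contLinear β) := by
  classical
  induction S using Finset.induction_on with
  | empty => exact ⟨0, skew_zero, by simp, by simpa only [pb_zero, add_zero] using h⟩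
  | insert τ₀ S _ ih =>
    obtain ⟨β, h1, h2, h3⟩ := ih
    obtain ⟨L, hL⟩ := left_inv_aff (a.ι τ₀) (inj_contLinear _ (a.inj τ₀))
    have hL' : ∀ u, L.contLinear ((a.ι τ₀).contLinear u) = u := fun u => by
      have e := hL (0 + u)
      rw [PLc_add, PLc_add, hL] at e
      exact add_left_cancel e
    have c : ∀ τ, Continuous fun t : ℝ =>
        Pq (a.B τ + pb (a.ι τ).contLinear (β + t • pb L.contLinear (w0 m))) := fun τ => by
      simp only [pb_add, pb_smul]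
      exact continuous_Pq.comp (by fun_prop)
    have e1 : ∀ᶠ t : ℝ in 𝓝 0, ∀ τ ∈ S,
        Pq (a.B τ + pb (a.ι τ).contLinear (β + t • pb L.contLinear (w0 m))) ≠ 0 :=
      (eventually_all_finset S).2 fun τ hτ => (c τ).continuousAt.eventually_ne (by
        simpa only [zero_smul, add_zero] using h2 τ hτ)
    have e2 : ∀ᶠ t : ℝ in 𝓝 0,
        0 < ∑ τ, Pq (a.B τ + pb (a.ι τ).contLinear (β + t • pb L.contLinear (w0 m))) :=
      (continuous_finsetSum _ fun τ _ => c τ).continuousAt.eventually_const_lt (by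
        simpa only [zero_smul, add_zero] using h3)
    obtain ⟨t₀, t1, t2⟩ := Metric.eventually_nhds_iff_ball.1 (e1.and e2)
    obtain ⟨t, u1, u2, u3⟩ := small_ne ((a.skew τ₀).add (skew_pb h1 (a.ι τ₀).contLinear)) t1
    have t3 := t2 t (by rw [mem_ball_zero_iff, Real.norm_eq_abs, abs_of_pos u1]; exact u2)
    refine ⟨_, h1.add ((skew_pb skew_w0 _).smul t), fun τ hτ => ?_, t3.2⟩
    rcases Finset.mem_insert.1 hτ with rfl | hτ
    · have e : pb (a.ι τ).contLinear (pb L.contLinear (w0 m)) = w0 m :=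
        b2_ext fun u v => by rw [pb_apply, pb_apply, hL', hL']
      rwa [pb_add, pb_smul, e, ← add_assoc]
    · exact t3.1 τ hτ

theorem core' (hm : 1 ≤ m) (a : Amb m E) (h : 0 < ∑ τ, Pq (a.B τ)) :
    ∃ P : Pot E, P.PLOn a.M ∧ Good a P univ := by
  obtain ⟨β, h1, h2, h3⟩ := br_small a h Finset.univ
  obtain ⟨P, p1, p2⟩ := core hm
    { a with
      B := fun τ => a.B τ + pb (a.ι τ).contLinear β
      skew := fun τ => (a.skew τ).add (skew_pb h1 _)
      conn := fun τ τ' => Relation.ReflTransGen.mono (fun _ _ e => br_adj e β) _ _ (a.conn τ τ') }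
    (fun τ => h2 τ (Finset.mem_univ _)) h3
  obtain ⟨r, p, q, e⟩ := skew_eq_sum h1
  refine ⟨⟨P.κ ⊕ Fin r, inferInstance, Sum.elim P.f fun k => p k, Sum.elim P.g fun k => q k⟩,
    ?_, fun τ => (p2 τ).mono fun z hz e1 e2 => (hz e1 e2).trans_eq (congrArg Pq ?_)⟩
  · rintro (k | k)
    · exact p1 k
    · exact ⟨plOn_clm _ _, plOn_clm _ _⟩
  · have k : ∀ l : B1 E, fderiv ℝ (fun y => l (a.ι τ y)) z = l.comp (a.ι τ).contLinear := fun l =>
      (l.hasFDerivAt.comp z (a.ι τ).hasFDerivAt).fderiv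
    change a.B τ + pb (a.ι τ).contLinear β + (P.comp (a.ι τ)).form z = a.B τ + ∑ k : P.κ ⊕ Fin r, _
    rw [Fintype.sum_sum_type, add_assoc, add_comm (pb _ β), e, pb_sum]
    simp only [pb_wedge, ← k]
    rfl

end Pool.Agent.Work.MP_bf98aa_gt.Pl
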