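import Pool.Agent.Work.MP_bf98aa_gt.Pl.BrA

/-!
Affine parametrisations of the simplices of a pseudomanifold.
-/

set_option autoImplicit false
set_option maxSynthPendingDepth 3
set_option linter.unusedSectionVars false
set_option linter.unusedVariables false

open Set Filter Topology Metric

noncomputable section
namespace Pool.Agent.Work.MP_bf98aa_gt.Pl

open Pool.Agent.Work.MP_bf98aa_gt.Ns Pool.Agent.Work.MP_bf98aa_gt.PlSt

variable {Y : Type} [NormedAddCommGroup Y] [NormedSpace ℝ Y] [FiniteDimensional ℝ Y] {d : ℕ}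
  {W T : Type} [Fintype W] [DecidableEq W] {Δ : Sx Y d} {u u' : Fin (d + 1) → W}
  {ι ι' : Y →ᴬ[ℝ] W → ℝ}

/-- The affine map sends the vertices of the reference simplex to the given vertices. -/
def Par (Δ : Sx Y d) (u : Fin (d + 1) → W) (ι : Y →ᴬ[ℝ] W → ℝ) : Prop :=
  Function.Injective u ∧ ∀ y, ι y = ∑ i, Δ.coord i y • pt (u i)

theorem Par.val (h : Par Δ u ι) (y : Y) (k : Fin (d + 1)) : ι y (u k) = Δ.coord k y := by
  simp [h.2, pt, Finset.sum_apply, Pi.single_apply, h.1.eq_iff]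

theorem Par.off (h : Par Δ u ι) (y : Y) {w : W} (hw : w ∉ range u) : ι y w = 0 := by
  have e : ∀ k, w ≠ u k := fun k e => hw ⟨k, e.symm⟩
  simp [h.2, pt, Finset.sum_apply, e]

theorem Par.inj (h : Par Δ u ι) : Function.Injective ι := fun y y' e =>
  Δ.ext_elem fun i => by rw [← h.val, e, h.val]

theorem Par.vert (h : Par Δ u ι) (k : Fin (d + 1)) : ι (Δ k) = pt (u k) := by
  simp [h.2, Δ.coord_apply]

theorem Par.img (h : Par Δ u ι) : simplex u = ι '' clE Δ 0 := by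
  rw [clE_eq_hull]
  refine Eq.trans ?_ (ι.toAffineMap.image_convexHull _).symm
  rw [← range_comp]
  exact congrArg (fun f => convexHull ℝ (range f)) (funext fun k => (h.vert k).symm)

theorem Par.mem (h : Par Δ u ι) {y : Y} (hy : y ∈ clE Δ 0) : ι y ∈ simplex u :=
  h.img ▸ mem_image_of_mem _ hy

theorem Par.supp (h : Par Δ u ι) {x : W → ℝ} (hx : x ∈ simplex u) {w : W} (hw : 0 < x w) :
    w ∈ range u := by
  obtain ⟨y, -, rfl⟩ := h.img.subset hx
  exact by_contra fun e => hw.ne' (h.off y e)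

theorem Par.retr (h : Par Δ u ι) (y : Y) : ∑ k, ι y (u k) • Δ k = y := by
  simp only [h.val, Δ.linear_combination_coord_eq_self]

theorem Par.perm (h : Par Δ u ι) {ρ : Equiv.Perm (Fin (d + 1))} {P : Y →ᴬ[ℝ] Y}
    (hP : ∀ k y, Δ.coord (ρ k) (P y) = Δ.coord k y) : Par Δ (fun k => u (ρ k)) (ι.comp P) := by
  refine ⟨h.1.comp ρ.injective, fun y => ?_⟩
  rw [ContinuousAffineMap.comp_apply, h.2, ← Equiv.sum_comp ρ]
  simp only [hP]

theorem br_simplex (u : Fin (d + 1) → W) (ρ : Equiv.Perm (Fin (d + 1))) :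
    simplex (fun k => u (ρ k)) = simplex u :=
  congrArg (convexHull ℝ) (ρ.surjective.range_comp fun i => pt (u i))

theorem br_range (hu : Function.Injective u) (h : range u ⊆ range u') : range u = range u' := by
  refine Set.eq_of_subset_of_ncard_le h ?_ (finite_range _)
  rw [← image_univ, ← image_univ, ncard_image_of_injective _ hu]
  exact ncard_image_le finite_univ

theorem emb_of_retr {E : Type} [NormedAddCommGroup E] [NormedSpace ℝ E] {M O : Set E} {e : Y → E}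
    {U : Set Y} {L : E → Y} (hU : IsOpen U) (hp : PLOn U e) (hL : Continuous L) (hO : IsOpen O)
    (h1 : ∀ y ∈ U, L (e y) = y ∧ e y ∈ O ∧ e y ∈ M)
    (h2 : ∀ x ∈ O, x ∈ M → L x ∈ U → e (L x) = x) : Emb M e U := by
  refine ⟨hU, hp, fun y hy y' hy' k => ?_, fun U' hs hU' => ⟨O ∩ L ⁻¹' U',
    hO.inter (hU'.preimage hL), Subset.antisymm ?_ fun x hx => ⟨_, hx.1.2, h2 x hx.1.1 hx.2 (hs hx.1.2)⟩⟩⟩
  · rw [← (h1 y hy).1, k, (h1 y' hy').1]
  · rintro _ ⟨y, hy, rfl⟩
    obtain ⟨a, b, c⟩ := h1 y (hs hy)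
    exact ⟨⟨b, mem_preimage.2 (a.symm ▸ hy)⟩, c⟩

theorem br_open {κ : Type} [Finite κ] (w : κ → W) : IsOpen {x : W → ℝ | ∀ k, 0 < x (w k)} := by
  rw [ofPred_forall]
  exact isOpen_iInter_of_finite fun k => isOpen_lt continuous_const (continuous_apply _)

theorem br_top {v : T → Fin (d + 1) → W} (hv : Pseudo v) {ι : T → Y →ᴬ[ℝ] W → ℝ}
    (h : ∀ τ, Par Δ (v τ) (ι τ)) {τ τ' : T} {x : W → ℝ} (h1 : ∀ k, 0 < x (v τ k))
    (h2 : x ∈ simplex (v τ')) : τ = τ' :=
  hv.distinct _ _ (br_range (hv.inj τ) (range_subset_iff.2 fun k => (h τ').supp h2 (h1 k)))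

theorem br_oin {v : T → Fin (d + 1) → W} (hv : Pseudo v) {ι : T → Y →ᴬ[ℝ] W → ℝ}
    (h : ∀ τ, Par Δ (v τ) (ι τ)) (τ : T) : Emb (space v) (ι τ) (opE Δ 0) := by
  refine emb_of_retr (O := {x | ∀ k, 0 < x (v τ k)}) (L := fun x => ∑ k, x (v τ k) • Δ k)
    (isOpen_opE _ _) (plOn_aff _ _) (by fun_prop) (br_open _) (fun y hy => ⟨(h τ).retr y,
      fun k => ?_, mem_iUnion.2 ⟨τ, (h τ).mem (opE_sub_clE _ _ hy)⟩⟩) fun x hx hM _ => ?_
  · rw [(h τ).val]
    exact neg_zero.ge.trans_lt (hy k)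
  · obtain ⟨σ, hσ⟩ := mem_iUnion.1 hM
    obtain rfl := br_top hv h hx hσ
    obtain ⟨y, -, rfl⟩ := (h τ).img.subset hσ
    exact congrArg _ ((h τ).retr y)

theorem br_rho (hu : Function.Injective u) {i : Fin (d + 1)} (h : face u i ⊆ range u') :
    ∃ (j : Fin (d + 1)) (π : Equiv.Perm (Fin d)) (ρ : Equiv.Perm (Fin (d + 1))),
      (∀ k, u (i.succAbove k) = u' (j.succAbove (π k))) ∧ (∀ k, k ≠ i → u' (ρ k) = u k) ∧
      (Equiv.Perm.sign ρ : ℤ) = (-1) ^ (i.1 + j.1) * (Equiv.Perm.sign π : ℤ) := by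
  choose φ hφ using fun k => show ∃ j, u' j = u (i.succAbove k) from h ⟨k, rfl⟩
  obtain ⟨j, hj⟩ : ∃ j, ∀ k, φ k ≠ j := by
    by_contra hc
    have h1 := Fintype.card_le_of_surjective φ fun j => by
      simpa using not_exists.1 hc j
    simp at h1
  choose p hp using fun k => Fin.exists_succAbove_eq (hj k)
  have hi : Function.Injective p := fun a b e =>
    Fin.succAbove_right_injective (p := i) (hu (by rw [← hφ, ← hφ, ← hp, ← hp, e]))
  have e : ∀ k, u (i.succAbove k) = u' (j.succAbove (Equiv.ofBijective p hi.bijective_of_finite k)) :=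
    fun k => (hφ k).symm.trans (congrArg u' (hp k).symm)
  refine ⟨j, _, j.cycleRange.symm * Equiv.Perm.decomposeFin.symm (0, Equiv.ofBijective p
    hi.bijective_of_finite) * i.cycleRange, e, fun k hk => ?_, ?_⟩
  · obtain ⟨k, rfl⟩ := Fin.exists_succAbove_eq hk
    rw [e]
    simp
  · simp [pow_add]
    ring

theorem br_base {v : T → Fin (d + 1) → W} {c : W → W → W → ℝ} (hc : Cocycle v c) (τ : T)
    {p q : Fin (d + 1) → ℝ} (hp : ∑ j, p j = 0) (hq : ∑ j, q j = 0) (a b : Fin (d + 1)) :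
    ∑ j, ∑ k, p j * q k * c (v τ a) (v τ j) (v τ k) =
      ∑ j, ∑ k, p j * q k * c (v τ b) (v τ j) (v τ k) := by
  have e : ∀ j k, p j * q k * c (v τ a) (v τ j) (v τ k) = p j * q k * c (v τ b) (v τ j) (v τ k) +
      (p j * c (v τ b) (v τ a) (v τ j) * q k - p j * (q k * c (v τ b) (v τ a) (v τ k))) :=
    fun j k => by linear_combination p j * q k * hc.closed τ b a j k
  simp only [e, Finset.sum_add_distrib, Finset.sum_sub_distrib, ← Finset.mul_sum, ← Finset.sum_mul,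
    hp, hq, mul_zero, zero_mul, Finset.sum_const_zero, sub_zero, add_zero]

theorem br_sum (Δ : Sx Y d) (a : Y) : ∑ j, (Δ.coord j).linear a = 0 := by
  have e : ∀ j, (Δ.coord j).linear a = Δ.coord j a - Δ.coord j 0 := fun j => by
    rw [← br_lin, sub_zero, crd_lin]
  simp only [e, Finset.sum_sub_distrib, Δ.sum_coord_apply_eq_one, sub_self]

theorem br_form (Δ : Sx Y d) (C : Fin (d + 1) → Fin (d + 1) → ℝ) : ∃ B : B2 Y, ∀ a b,
    B a b = ∑ j, ∑ k, (Δ.coord j).linear a * (Δ.coord k).linear b * C j k := by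
  refine ⟨∑ j, ∑ k, C j k • (crd Δ j).contLinear.smulRight (crd Δ k).contLinear, fun a b => ?_⟩
  simp only [_root_.sum_apply, _root_.smul_apply, ContinuousLinearMap.smulRight_apply, smul_eq_mul,
    crd_lin, mul_comm (C _ _)]

end Pool.Agent.Work.MP_bf98aa_gt.Pl
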