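import Pool.Agent.Work.MP_bf98aa_gt.Pl.BrB

/-!
Two simplices glued along a facet; the ambient polyhedron of a pseudomanifold.
-/

set_option autoImplicit false
set_option maxSynthPendingDepth 3
set_option linter.unusedSectionVars false
set_option linter.unusedVariables false

open Set Filter Topology Metric

noncomputable section
namespace Pool.Agent.Work.MP_bf98aa_gt.Pl

open Pool.Agent.Work.MP_bf98aa_gt.Ns Pool.Agent.Work.MP_bf98aa_gt.PlSt

section
variable {Y : Type} [NormedAddCommGroup Y] [NormedSpace ℝ Y] [FiniteDimensional ℝ Y] {d : ℕ}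
  {W T : Type} [Fintype W] [DecidableEq W] {Δ : Sx Y d}

theorem br_refl (Δ : Sx Y d) (i : Fin (d + 1)) {z : Y} (hz : Δ.coord i z = 0) : ∃ R : Y →ᴬ[ℝ] Y,
    R.contLinear.det = -1 ∧ (∀ y, R y = y + Δ.coord i y • (-2 : ℝ) • (Δ i - z)) ∧
      (∀ y, Δ.coord i (R y) = -Δ.coord i y) ∧ ∀ y, R (R y) = y := by
  obtain ⟨R, r1, r2⟩ := br_rank1 (crd Δ i) ((-2 : ℝ) • (Δ i - z))
  have e : (crd Δ i).contLinear ((-2 : ℝ) • (Δ i - z)) = -2 := by
    rw [map_smul, br_lin, hz, Δ.coord_apply_eq, sub_zero, smul_eq_mul, mul_one]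
  have r3 : ∀ y, Δ.coord i (R y) = -Δ.coord i y := fun y => by
    rw [r1, ← crd_apply, PLc_line, e, smul_eq_mul, crd_apply]
    ring
  refine ⟨R, by rw [r2, e]; norm_num, r1, r3, fun y => ?_⟩
  rw [r1, crd_apply, r3, r1, crd_apply, neg_smul (Δ.coord i y), add_neg_cancel_right]

open Classical in
theorem br_emb {M : Set (W → ℝ)} {u u' : Fin (d + 1) → W} {ι ι' : Y →ᴬ[ℝ] W → ℝ} (h : Par Δ u ι)
    (h' : Par Δ u' ι') {i : Fin (d + 1)} (e : ∀ k, k ≠ i → u' k = u k) (ne : u' i ≠ u i)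
    (s : simplex u ⊆ M) (s' : simplex u' ⊆ M)
    (hM : ∀ x ∈ M, (∀ k, 0 < x (u (i.succAbove k))) → x ∈ simplex u ∨ x ∈ simplex u')
    {z : Y} {r : ℝ} (hw : Wall Δ i z r) {R : Y →ᴬ[ℝ] Y}
    (r1 : ∀ y, R y = y + Δ.coord i y • (-2 : ℝ) • (Δ i - z))
    (r2 : ∀ y, Δ.coord i (R y) = -Δ.coord i y) (r3 : ∀ y, R (R y) = y)
    (r4 : ∀ y ∈ ball z r, ∀ k, k ≠ i → 0 < Δ.coord k (R y)) :
    (∀ y, Δ.coord i y = 0 → ι' (R y) = ι y) ∧
      Emb M (fun y => if 0 ≤ Δ.coord i y then ι y else ι' (R y)) (ball z r) := by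
  have k1 : ∀ y, Δ.coord i y = 0 → ι' (R y) = ι y := fun y hy => by
    rw [r1, hy, zero_smul, add_zero, h.2, h'.2]
    refine Finset.sum_congr rfl fun k _ => ?_
    rcases eq_or_ne k i with rfl | hk
    · rw [hy, zero_smul, zero_smul]
    · rw [e k hk]
  have n1 : u' i ∉ range u := by
    rintro ⟨k, hk⟩
    rcases eq_or_ne k i with rfl | hi
    · exact ne hk.symm
    · exact hi (h'.1 ((e k hi).trans hk))
  have n2 : u i ∉ range u' := by
    rintro ⟨k, hk⟩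
    rcases eq_or_ne k i with rfl | hi
    · exact ne hk
    · exact hi (h.1 ((e k hi).symm.trans hk))
  obtain ⟨L, hL⟩ : ∃ L : (W → ℝ) → Y,
      L = fun x => ∑ k, x (u k) • Δ k + x (u' i) • (Δ i + (-2 : ℝ) • (Δ i - z)) := ⟨_, rfl⟩
  have l1 : ∀ y, L (ι y) = y := fun y => by
    simp only [hL, h.retr, h.off y n1, zero_smul, add_zero]
  have l2 : ∀ y, L (ι' y) = R y := fun y => by
    have a := h'.retr y
    rw [Fin.sum_univ_succAbove _ i] at a
    simp only [hL]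
    rw [Fin.sum_univ_succAbove _ i, h'.off y n2, r1, smul_add, ← add_assoc, zero_smul, zero_add,
      add_comm _ (_ • Δ i), ← h'.val]
    simp only [← e _ (Fin.succAbove_ne i _), a]
  have c : ∀ y, (∀ k, k ≠ i → 0 < Δ.coord k y) → 0 ≤ Δ.coord i y → y ∈ clE Δ 0 := fun y a b k => by
    rw [neg_zero]
    rcases eq_or_ne k i with rfl | hk
    · exact b
    · exact (a k hk).le
  refine ⟨k1, emb_of_retr (O := {x | ∀ k, 0 < x (u (i.succAbove k))}) (L := L) isOpen_ball ?_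
    (by rw [hL]; fun_prop) (br_open _) (fun y hy => ?_) fun x hx hm hl => ?_⟩
  · simpa only [neg_nonpos, ContinuousAffineMap.comp_apply] using plOn_ite (S := ball z r) (l := fun y => -Δ.coord i y)
      (Sx_cont Δ i).neg.continuousOn (plOn_aff ι _) (plOn_aff (ι'.comp R) _)
      fun y _ hy => (k1 y (neg_eq_zero.1 hy)).symm
  · by_cases hi : 0 ≤ Δ.coord i y
    · rw [if_pos hi]
      exact ⟨l1 y, fun k => (h.val y _).symm ▸ hw.2.2 y hy _ (Fin.succAbove_ne i k),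
        s (h.mem (c y (hw.2.2 y hy) hi))⟩
    · rw [if_neg hi]
      refine ⟨(l2 _).trans (r3 y), fun k => ?_, s' (h'.mem (c _ (r4 y hy) ?_))⟩
      · rw [← e _ (Fin.succAbove_ne i k), h'.val]
        exact r4 y hy _ (Fin.succAbove_ne i k)
      · rw [r2]
        exact neg_nonneg.2 (not_le.1 hi).le
  · rcases hM x hm hx with a | a
    · obtain ⟨y, hy, rfl⟩ := h.img.subset a
      rw [l1, if_pos (neg_zero.ge.trans (hy i))]
    · obtain ⟨y, hy, rfl⟩ := h'.img.subset a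
      rw [l2, r3]
      refine ite_eq_right_iff.2 fun b => ?_
      rw [← k1 _ (le_antisymm (by rw [r2]; exact neg_nonpos.2 (neg_zero.ge.trans (hy i))) b), r3]

open Classical in
theorem br_glue (hd : 1 ≤ d) {v : T → Fin (d + 1) → W} (hv : Pseudo v) {ι : T → Y →ᴬ[ℝ] W → ℝ}
    (h : ∀ τ, Par Δ (v τ) (ι τ)) {τ τ' : T} (hne : τ ≠ τ') {i : Fin (d + 1)}
    (hf : face (v τ) i ⊆ range (v τ')) :
    ∃ (z : Y) (r : ℝ) (α : Y →ᴬ[ℝ] Y) (ρ : Equiv.Perm (Fin (d + 1))), Wall Δ i z r ∧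
      0 < α.contLinear.det ∧ MapsTo α (hb Δ i z r) (opE Δ 0) ∧
      (∀ y, Δ.coord i y = 0 → ι τ' (α y) = ι τ y) ∧ (∀ k, k ≠ i → v τ' (ρ k) = v τ k) ∧
      (∀ a, (Δ.coord i).linear a = 0 →
        ∀ k, (Δ.coord (ρ k)).linear (α.contLinear a) = (Δ.coord k).linear a) ∧
      Emb (space v) (fun y => if 0 ≤ Δ.coord i y then ι τ y else ι τ' (α y)) (ball z r) := by
  obtain ⟨j, π, ρ, e1, e2, e3⟩ := br_rho (hv.inj τ) hf
  obtain ⟨P, p1, p2⟩ := br_perm Δ ρ
  obtain ⟨z, r₀, hw⟩ := wall_ex hd Δ i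
  obtain ⟨R, r0, r1, r2, r3⟩ := br_refl Δ i hw.2.1
  have r4 : ∀ y, Δ.coord i y = 0 → R y = y := fun y hy => by rw [r1, hy, zero_smul, add_zero]
  obtain ⟨r, hr, hs⟩ := Metric.eventually_nhds_iff_ball.1 (Eventually.and (ball_mem_nhds z hw.1)
    (R.continuous.continuousAt.eventually_mem (s := ball z r₀) (x := z)
      (by rw [r4 z hw.2.1]; exact ball_mem_nhds z hw.1)))
  have hw' : Wall Δ i z r := hw.mono hr hw.2.1 fun y hy => (hs y hy).1
  have r5 : ∀ y ∈ ball z r, ∀ k, k ≠ i → 0 < Δ.coord k (R y) := fun y hy => hw.2.2 _ (hs y hy).2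
  obtain ⟨k1, k2⟩ := br_emb (M := space v) (h τ) ((h τ').perm p2) e2 (fun e => hne (hv.distinct _ _
      (br_range (hv.inj τ) (range_subset_iff.2 fun k => ⟨ρ k, by
        rcases eq_or_ne k i with rfl | hk
        · exact e
        · exact e2 k hk⟩))))
    (subset_iUnion (fun σ => simplex (v σ)) τ)
    ((br_simplex _ ρ).trans_subset (subset_iUnion (fun σ => simplex (v σ)) τ'))
    (fun x hx hp => by
      obtain ⟨σ, hσ⟩ := mem_iUnion.1 hx
      refine (eq_or_ne σ τ).imp (fun e : σ = τ => e ▸ hσ) fun e => ?_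
      rw [br_simplex, ← (hv.two τ i).unique ⟨e, range_subset_iff.2 fun k => (h σ).supp hσ (hp k)⟩
        ⟨hne.symm, hf⟩]
      exact hσ) hw' r1 r2 r3 r5
  refine ⟨z, r, P.comp R, ρ, hw', ?_, fun y hy k => ?_, k1, e2, fun a ha k => ?_, k2⟩
  · rw [ContinuousAffineMap.comp_contLinear, det_comp', p1, r0, e3, hv.orient τ τ' i j π hne e1]
    norm_num
  · obtain ⟨k, rfl⟩ := ρ.surjective k
    rw [neg_zero, ContinuousAffineMap.comp_apply, p2]
    rcases eq_or_ne k i with rfl | hk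
    · rw [r2]
      exact neg_pos.2 hy.2
    · exact r5 y hy.1 k hk
  · have e : (P.comp R).contLinear a = P (z + a) - P z := by
      rw [eq_sub_iff_add_eq', ← r4 z hw.2.1, ← ContinuousAffineMap.comp_apply, ← PLc_add,
        ContinuousAffineMap.comp_apply, r4 z hw.2.1, r4]
      rw [← crd_apply, PLc_add, crd_apply, crd_lin, hw.2.1, ha, add_zero]
    rw [e, ← crd_lin, br_lin, p2, p2, ← br_lin, add_sub_cancel_left, crd_lin]

end

theorem br_amb {m : ℕ} {W T : Type} [Fintype W] [DecidableEq W] [Fintype T]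
    (Δ : Sx (WW m) (2 * m + 2)) {v : T → Fin (2 * m + 2 + 1) → W} (hv : Pseudo v)
    {c : W → W → W → ℝ} (hc : Cocycle v c) {ι : T → WW m →ᴬ[ℝ] W → ℝ}
    (h : ∀ τ, Par Δ (v τ) (ι τ)) {B : T → B2 (WW m)} (hB : ∀ τ a b, B τ a b = ∑ j, ∑ k,
      (Δ.coord j).linear a * (Δ.coord k).linear b * c (v τ 0) (v τ j) (v τ k)) (τ τ' : T) :
    Relation.ReflTransGen (Adj (space v) Δ ι B) τ τ' := by
  refine Relation.ReflTransGen.lift' id ?_ _ _ (hv.conn τ τ')
  rintro σ σ' ⟨i, hi⟩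
  rcases eq_or_ne σ σ' with rfl | hne
  · exact Relation.ReflTransGen.refl
  obtain ⟨z, r, α, ρ, h1, h2, h3, h4, h5, h6, h7⟩ := br_glue (by omega) hv h hne hi
  refine Relation.ReflTransGen.single ⟨i, z, r, α, h1, h2, h3, h4, fun a b ha hb => ?_, h7⟩
  obtain ⟨l, hl⟩ := exists_ne i
  rw [hB, hB, br_base hc _ (br_sum _ _) (br_sum _ _) 0 (ρ l), br_base hc _ (br_sum _ _) (br_sum _ _) 0 l,
    ← Equiv.sum_comp ρ]
  refine Finset.sum_congr rfl fun j _ => ?_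
  rw [← Equiv.sum_comp ρ]
  refine Finset.sum_congr rfl fun k _ => ?_
  rw [h6 a ha, h6 b hb]
  rcases eq_or_ne j i with rfl | hj
  · rw [ha, zero_mul, zero_mul, zero_mul]
  rcases eq_or_ne k i with rfl | hk
  · rw [hb, mul_zero, zero_mul, zero_mul]
  · rw [id, id, h5 l hl, h5 j hj, h5 k hk]

end Pool.Agent.Work.MP_bf98aa_gt.Pl
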