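import Pool.Agent.Work.MP_bf98aa_gt.Pl.BrC

/-!
The existence theorem for pseudomanifolds from the theorem on ambient polyhedra.
-/

set_option autoImplicit false
set_option maxSynthPendingDepth 3
set_option linter.unusedSectionVars false
set_option linter.unusedVariables false

open Set Filter Topology Metric

noncomputable section
namespace Pool.Agent.Work.MP_bf98aa_gt.Pl

open Pool.Agent.Work.MP_bf98aa_gt.Ns Pool.Agent.Work.MP_bf98aa_gt.PlSt

section
variable {Y : Type} [NormedAddCommGroup Y] [NormedSpace ℝ Y] [FiniteDimensional ℝ Y] {d : ℕ}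
  {W T : Type} [Fintype W] [DecidableEq W] {Δ : Sx Y d}

theorem br_mat {v : T → Fin (d + 1) → W} {c : W → W → W → ℝ} (hc : Cocycle v c)
    (u : Fin (d + 1) → W) (i j : Fin d) : ∑ a, ∑ b, (Δ.coord a).linear (Δ i.succ - Δ 0) *
      (Δ.coord b).linear (Δ j.succ - Δ 0) * c (u 0) (u a) (u b) = mat c u i j := by
  have e : ∀ x y, c x x y = 0 := fun x y => by linarith [hc.alt1 x x y]
  have e' : ∀ x y, c x y x = 0 := fun x y => by rw [hc.alt2, e, neg_zero]
  simp only [← crd_lin, br_lin, Δ.coord_apply]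
  simp [sub_mul, mul_sub, e, e', mat]

theorem br_dif {u : Fin (d + 1) → W} {ι : Y →ᴬ[ℝ] W → ℝ} (h : Par Δ u ι) {f : (W → ℝ) → ℝ}
    {a : (W → ℝ) →ᵃ[ℝ] ℝ} {z : Y} (e : ∀ᶠ y in 𝓝 z, f (ι y) = a (ι y)) (i : Fin d) :
    fderiv ℝ (fun y => f (ι y)) z (Δ i.succ - Δ 0) = dif a u i := by
  obtain ⟨A, hA⟩ : ∃ A : Y →ᴬ[ℝ] ℝ, ∀ y, A y = a (ι y) :=
    ⟨.comp ⟨a, a.continuous_of_finiteDimensional⟩ ι, fun _ => rfl⟩
  rw [(A.hasFDerivAt.congr_of_eventuallyEq (e.mono fun y hy => hy.trans (hA y).symm)).fderiv, dif,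
    ← h.vert, ← h.vert, ← hA, ← hA]
  exact A.contLinear_map_vsub _ _

theorem br_pl {S : Set (W → ℝ)} {f : (W → ℝ) → ℝ} (h : PLOn S f) : IsPL S f := by
  obtain ⟨h1, 𝒜, h2, h3⟩ := h
  exact ⟨h1, _, h2.image ContinuousAffineMap.toAffineMap, fun x hx =>
    (h3 x hx).elim fun A hA => ⟨_, mem_image_of_mem _ hA.1, hA.2⟩⟩

end

theorem br_main {m : ℕ} (hm : 1 ≤ m) {W T : Type} [Fintype W] [DecidableEq W] [Fintype T]
    {v : T → Fin (2 * m + 2 + 1) → W} (hv : Pseudo v) {c : W → W → W → ℝ} (hc : Cocycle v c)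
    (hpos : 0 < ∑ τ, pfaff (n := m + 1) (mat c (v τ))) :
    ∃ (r : ℕ) (f g : Fin r → (W → ℝ) → ℝ), (∀ k, IsPL (space v) (f k) ∧ IsPL (space v) (g k)) ∧
      ∀ τ, ∀ x ∈ openSimplex (v τ), ∀ a b : Fin r → (W → ℝ) →ᵃ[ℝ] ℝ,
        (∀ k, f k =ᶠ[𝓝[simplex (v τ)] x] a k ∧ g k =ᶠ[𝓝[simplex (v τ)] x] b k) →
        0 < pfaff (n := m + 1) fun i j => mat c (v τ) i j +
          ∑ k, (dif (a k) (v τ) i * dif (b k) (v τ) j - dif (a k) (v τ) j * dif (b k) (v τ) i) := by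
  obtain ⟨Δ, κ, hκ, e⟩ := br_ref m
  choose ι hι using fun τ => sx_aff Δ fun i => pt (v τ i)
  have h : ∀ τ, Par Δ (v τ) (ι τ) := fun τ => ⟨hv.inj τ, hι τ⟩
  choose B hB using fun τ => br_form Δ fun j k => c (v τ 0) (v τ j) (v τ k)
  have hmat : ∀ τ (i j : Fin (2 * m + 2)), B τ (Δ i.succ - Δ 0) (Δ j.succ - Δ 0) = mat c (v τ) i j :=
    fun τ i j => (hB τ _ _).trans (br_mat hc _ i j)
  obtain ⟨P, p1, p2⟩ := core' hm
    { T := T
      fin := inferInstance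
      M := space v
      Δ := Δ
      ι := ι
      B := B
      skew := fun τ a b => by
        rw [hB, hB, Finset.sum_comm, ← Finset.sum_neg_distrib]
        refine Finset.sum_congr rfl fun j _ => ?_
        rw [← Finset.sum_neg_distrib]
        refine Finset.sum_congr rfl fun k _ => ?_
        rw [hc.alt2]
        ring
      inj := fun τ => (h τ).inj
      mem := fun τ y hy => mem_iUnion.2 ⟨τ, (h τ).mem hy⟩
      disj := fun τ τ' hne => disjoint_left.2 (by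
        rintro _ ⟨y, hy, rfl⟩ hx
        exact hne (br_top hv h (fun k => ((h τ).val y k).symm ▸ neg_zero.ge.trans_lt (hy k))
          ((h τ').img.superset hx)))
      oin := fun τ => (br_oin hv h τ).oin
      conn := br_amb Δ hv hc h hB }
    ((mul_pos_iff_of_pos_left hκ).1 (by
      rw [Finset.mul_sum]
      refine hpos.trans_eq (Finset.sum_congr rfl fun τ _ => Eq.trans ?_ (e _))
      exact congrArg pfaff (funext fun i => funext fun j => (hmat τ i j).symm)))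
  obtain ⟨ε⟩ : Nonempty (Fin (Fintype.card P.κ) ≃ P.κ) := ⟨(Fintype.equivFin _).symm⟩
  refine ⟨_, fun k => P.f (ε k), fun k => P.g (ε k), fun k => ⟨br_pl (p1 _).1, br_pl (p1 _).2⟩,
    fun τ x hx a b hab => ?_⟩
  obtain ⟨y, -, rfl⟩ := (h τ).img.subset hx.1
  have hy : opE Δ 0 ∈ 𝓝 y := (isOpen_opE _ _).mem_nhds fun k =>
    neg_zero.le.trans_lt ((h τ).val y k ▸ hx.2 k)
  have t : Tendsto (ι τ) (𝓝 y) (𝓝[simplex (v τ)] ι τ y) :=
    tendsto_nhdsWithin_iff.2 ⟨(ι τ).continuous.continuousAt, mem_of_superset hy fun z hz =>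
      (h τ).mem (opE_sub_clE _ _ hz)⟩
  obtain ⟨O, o1, o2, o3⟩ := _root_.eventually_nhds_iff.1 (Eventually.and hy (eventually_all.2 fun k =>
    (t.eventually (hab k).1).eventually_nhds.and (t.eventually (hab k).2).eventually_nhds))
  obtain ⟨z, z1, z2⟩ := gen_exists (p2 τ) o2 ⟨y, o3⟩
  refine ((mul_pos hκ (z2.self_of_nhds (o1 z z1).1 trivial)).trans_eq (e _).symm).trans_eq
    (congrArg pfaff (funext fun i => funext fun j => ?_))
  change (B τ + ∑ k : P.κ, wedge (fderiv ℝ (fun y => P.f k (ι τ y)) z)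
    (fderiv ℝ (fun y => P.g k (ι τ y)) z)) _ _ = _
  rw [_root_.add_apply, _root_.add_apply, ← Equiv.sum_comp ε, _root_.sum_apply, _root_.sum_apply]
  refine congrArg₂ (· + ·) (hmat τ i j) (Finset.sum_congr rfl fun k _ => ?_)
  rw [wedge_apply]
  exact congrArg₂ (· - ·) (congrArg₂ (· * ·) (br_dif (h τ) ((o1 z z1).2 k).1 i)
    (br_dif (h τ) ((o1 z z1).2 k).2 j)) ((mul_comm _ _).trans (congrArg₂ (· * ·)
      (br_dif (h τ) ((o1 z z1).2 k).1 j) (br_dif (h τ) ((o1 z z1).2 k).2 i)))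

end Pool.Agent.Work.MP_bf98aa_gt.Pl
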