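import Pool.Agent.Work.MP_bf98aa_gt.Pl.Rho

/-!
Connectedness. codim2_conn: for x, y in the set choose z in U generic (gen_sub) outside the proper affine subspaces x + span (S, c - x) and y + span (S, c - y); the segments from x to z and from z to y avoid every c + S.
seg_conn: the set lies between U minus the line and the closure of it (IsPreconnected.subset_closure, gen_sub for density). rot_conn: rot q S is the image of (Y minus 0) x S under (y, u) -> ((u.1 / rho y) y, u.2);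
isConnected_compl_singleton_of_one_lt_rank. ann_conn: translate the centroid to 0 (sx_map); then the set is a < rho < b or a < rho (project rot_conn by fst), where coord i >= -eps for all i iff rho <= 1 + (d+1) eps.
many_conn: induction on the finite set with rem_conn (M = univ).
-/

set_option autoImplicit false
set_option maxSynthPendingDepth 3
set_option linter.unusedSectionVars false
set_option linter.unusedVariables false

open Set Filter Topology Metric

noncomputable section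
namespace Pool.Agent.Work.MP_bf98aa_gt.Pl

open Pool.Agent.Work.MP_bf98aa_gt.Ns

variable {Y Y' : Type} [NormedAddCommGroup Y] [NormedSpace ℝ Y] [FiniteDimensional ℝ Y]
  [NormedAddCommGroup Y'] [NormedSpace ℝ Y'] [FiniteDimensional ℝ Y'] {d : ℕ}

theorem Conn_le (v : Y) : Module.finrank ℝ (Submodule.span ℝ {v}) ≤ 1 :=
  (finrank_span_le_card _).trans (by simp)

theorem Conn_ne {S : Submodule ℝ Y} (h : Module.finrank ℝ S < Module.finrank ℝ Y) : S ≠ ⊤ :=
  fun e => h.ne (by rw [e, finrank_top])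

theorem codim2_conn {U : Set Y} (hU : IsOpen U) (hc : Convex ℝ U) {𝒮 : Set (Y × Submodule ℝ Y)}
    (hf : 𝒮.Finite) (hd : ∀ p ∈ 𝒮, Module.finrank ℝ p.2 + 2 ≤ Module.finrank ℝ Y) :
    IsPreconnected {y | y ∈ U ∧ ∀ p ∈ 𝒮, y - p.1 ∉ p.2} := by
  have key : ∀ x ∈ {y | y ∈ U ∧ ∀ p ∈ 𝒮, y - p.1 ∉ p.2}, ∀ᶠ z in gen Y, z ∈ U →
      segment ℝ x z ⊆ {y | y ∈ U ∧ ∀ p ∈ 𝒮, y - p.1 ∉ p.2} := fun x hx => by
    filter_upwards [(eventually_all_finite hf).2 fun p hp => gen_sub
      (p.2 ⊔ Submodule.span ℝ {p.1 - x}) (Conn_ne (by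
        have := Submodule.finrank_add_le_finrank_add_finrank p.2 (Submodule.span ℝ {p.1 - x})
        have := Conn_le (p.1 - x)
        have := hd p hp
        omega)) x] with z hz zU w hw
    refine ⟨hc.segment_subset hx.1 zU hw, fun p hp h => ?_⟩
    obtain ⟨t, -, rfl⟩ := segment_eq_image' ℝ x z ▸ hw
    rcases eq_or_ne t 0 with rfl | ht
    · exact hx.2 p hp (by simpa using h)
    · refine hz p hp ((Submodule.smul_mem_iff _ ht).1 ?_)
      simpa using Submodule.add_mem_sup h (Submodule.mem_span_singleton_self (p.1 - x))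
  refine isPreconnected_of_forall_pair fun x hx y hy => ?_
  obtain ⟨z, zU, hz⟩ := gen_exists ((key x hx).and (key y hy)) hU ⟨x, hx.1⟩
  exact ⟨_, union_subset (hz.self_of_nhds.1 zU) (hz.self_of_nhds.2 zU),
    Or.inl (left_mem_segment _ _ _), Or.inr (left_mem_segment _ _ _),
    .union z (right_mem_segment _ _ _) (right_mem_segment _ _ _)
      (convex_segment _ _).isPreconnected (convex_segment _ _).isPreconnected⟩

theorem seg_conn {U X : Set Y} (hU : IsOpen U) (hc : Convex ℝ U) (hX : Lines X)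
    (hd : 3 ≤ Module.finrank ℝ Y) : IsPreconnected (U \ X) := by
  obtain ⟨S, hS, h⟩ := hX
  have k := codim2_conn hU hc (hS.image fun p => (p.1, Submodule.span ℝ {p.2})) (by
    rintro _ ⟨p, -, rfl⟩
    exact (Nat.add_le_add_right (Conn_le p.2) 2).trans hd)
  refine k.subset_closure (fun y hy => ⟨hy.1, fun hx => ?_⟩)
    fun y hy => mem_closure_iff.2 fun O hO yO => ?_
  · obtain ⟨p, hp, t, rfl⟩ := h y hx
    exact hy.2 _ (mem_image_of_mem _ hp) (Submodule.mem_span_singleton.2 ⟨t, by simp⟩)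
  · obtain ⟨z, hz, h'⟩ := gen_exists ((eventually_all_finite hS).2 fun p _ => gen_sub _
      (Conn_ne ((Conn_le p.2).trans_lt (by omega))) p.1) (hO.inter hU) ⟨y, yO, hy.1⟩
    refine ⟨z, hz.1, hz.2, ?_⟩
    rintro _ ⟨p, hp, rfl⟩
    exact h'.self_of_nhds p hp

theorem rot_conn (hd : 2 ≤ d) {q : Sx Y d} (hq : Cen q) {S : Set (ℝ × ℝ)} (hS : IsPreconnected S)
    (h0 : ∀ u ∈ S, 0 ≤ u.1) : IsPreconnected (rot q S) := by
  have c := isConnected_compl_singleton_of_one_lt_rank (E := Y)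
    (by rw [← Module.finrank_eq_rank, sx_finrank q]; exact_mod_cast hd) 0
  have n : ∀ y ∈ ({0}ᶜ : Set Y), rho q y ≠ 0 := fun y hy e => hy (rho_eq_zero hq e)
  have k := (c.isPreconnected.prod hS).image (fun w => ((w.2.1 / rho q w.1) • w.1, w.2.2))
    (((continuous_snd.fst.continuousOn.div ((pl_rho q).continuous.comp continuous_fst).continuousOn
      fun w hw => n _ hw.1).smul continuousOn_fst).prodMk continuous_snd.snd.continuousOn)
  refine (Subset.antisymm ?_ fun v hv => ?_ : _ = rot q S) ▸ k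
  · rintro _ ⟨w, hw, rfl⟩
    simpa only [rot, pr, mem_preimage, rho_smul hq (div_nonneg (h0 _ hw.2) (rho_nonneg hq _)),
      div_mul_cancel₀ _ (n _ hw.1)] using hw.2
  · by_cases e : v.1 = 0
    · obtain ⟨y, hy⟩ := c.nonempty
      exact ⟨(y, pr q v), ⟨hy, hv⟩, Prod.ext (by simp [pr, e, rho_zero hq]) rfl⟩
    · exact ⟨(v.1, pr q v), ⟨e, hv⟩, Prod.ext (by simp [pr, div_self (n _ e)]) rfl⟩

theorem centre_ex (σ : Sx Y d) : ∃ (c : Y) (q : Sx Y d), Cen q ∧
    (∀ ε y, y ∈ clE σ ε ↔ rho q (y - c) ≤ 1 + ((d : ℝ) + 1) * ε) ∧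
    ∀ ε y, y ∈ opE σ ε ↔ rho q (y - c) < 1 + ((d : ℝ) + 1) * ε := by
  obtain ⟨c, hc⟩ : ∃ c, ∀ j, σ.coord j c = ((d : ℝ) + 1)⁻¹ :=
    ⟨_, fun j => (σ.coord_apply_centroid (Finset.mem_univ j)).trans (by simp)⟩
  obtain ⟨q, -, hq⟩ := sx_map σ (ContinuousAffineMap.id ℝ Y - ContinuousAffineMap.const ℝ Y c)
    (Equiv.subRight c).bijective
  have h1 : ∀ i y, q.coord i (y - c) = σ.coord i y := hq
  have h2 : ∀ j, q.coord j 0 = ((d : ℝ) + 1)⁻¹ := fun j => by rw [← sub_self c, h1, hc]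
  have h3 : (0 : ℝ) < d + 1 := by positivity
  have h4 : ∀ j y, ell q j (y - c) = 1 + (d + 1) * -σ.coord j y := fun j y => by
    rw [ell, h1, h2, div_inv_eq_mul]
    ring
  refine ⟨c, q, fun j => (h2 j).symm ▸ inv_pos.2 h3, fun ε y => ?_, fun ε y => ?_⟩
  · simp only [rho_le_iff, h4, add_le_add_iff_left, mul_le_mul_iff_right₀ h3, clE, mem_ofPred_eq,
      neg_le (a := ε)]
  · simp only [rho_lt_iff, h4, add_lt_add_iff_left, mul_lt_mul_iff_right₀ h3, opE, mem_ofPred_eq,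
      neg_lt (a := ε)]

theorem ann_conn (hd : 2 ≤ d) (σ : Sx Y d) {ε ε' : ℝ} (h : 0 < 1 + ((d : ℝ) + 1) * ε) :
    IsPreconnected (opE σ ε' \ clE σ ε) := by
  obtain ⟨c, q, hq, h1, h2⟩ := centre_ex σ
  have k := (rot_conn hd hq ((isPreconnected_Ioo (a := 1 + ((d : ℝ) + 1) * ε)
    (b := 1 + ((d : ℝ) + 1) * ε')).prod (isPreconnected_singleton (x := (0 : ℝ))))
      fun u hu => (h.trans hu.1.1).le).image (fun v => v.1 + c) (by fun_prop)
  refine (Subset.antisymm ?_ fun y hy => ?_ : _ = opE σ ε' \ clE σ ε) ▸ k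
  · rintro _ ⟨v, hv, rfl⟩
    rw [Set.mem_sdiff, h1, h2, add_sub_cancel_right]
    exact ⟨hv.1.2, hv.1.1.not_ge⟩
  · exact ⟨(y - c, 0), ⟨⟨not_le.1 (mt (h1 _ _).2 hy.2), (h2 _ _).1 hy.1⟩, rfl⟩, sub_add_cancel _ _⟩

theorem many_conn {κ : Type} [Finite κ] {U : Set Y} (hU : IsOpen U) (hc : IsPreconnected U)
    {K O : κ → Set Y} (hK : ∀ i, IsClosed (K i)) (hO : ∀ i, IsOpen (O i)) (h1 : ∀ i, K i ⊆ O i)
    (h2 : ∀ i, O i ⊆ U) (h3 : ∀ i, IsPreconnected (O i \ K i))
    (h4 : ∀ i j, i ≠ j → Disjoint (O i) (O j)) : IsPreconnected (U \ ⋃ i, K i) := by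
  suffices H : ∀ s : Set κ, s.Finite → IsPreconnected (U \ ⋃ i ∈ s, K i) by
    simpa using H univ finite_univ
  intro s hs
  induction s, hs using Set.Finite.induction_on with
  | empty => simpa using hc
  | @insert a s ha hs ih =>
    rw [biUnion_insert, union_comm, ← Set.sdiff_sdiff]
    refine rem_conn (M := univ) ⟨_, hU.sdiff (hs.isClosed_biUnion fun i _ => hK i),
      (inter_univ _).symm⟩ ih (hK a) ⟨_, hO a, (inter_univ _).symm⟩ (inter_subset_left.trans (h1 a))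
      (fun y hy => ⟨h2 a hy.1, fun hy' => ?_⟩) (h3 a)
    obtain ⟨i, hi, hy'⟩ := mem_iUnion₂.1 hy'
    exact disjoint_left.1 (h4 a i fun e => ha (e ▸ hi)) hy.1 (h1 i hy')

end Pool.Agent.Work.MP_bf98aa_gt.Pl
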