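import Pool.Agent.Work.MP_bf98aa_gt.Pl.PackB
import Pool.Agent.Work.MP_bf98aa_gt.Pl.AmbA
import Pool.Agent.Work.MP_bf98aa_gt.Pl.LinB

/-!
Cells and slots. N = 2 m + 2. Let D' = sx_resize Delta (inn m) (factor 1/2: clE D' 0 = clE Delta (inn m), opE D' (1/(N+1)) = opE Delta 0), sig0 the cell IsK 1 0 1, Phi = sx_iso sig0 D' with linear part Ph (a continuous linear equivalence), K = clE sig0 0, U = the set of x with
Phi 0 + Ph x in opE Delta 0, which is opE sig0 (1/(N+1)), of volume 2^N vol K (vol_opE, vol_pos). iota = negative simplices, kappa = positive ones, p i = - Pq ((2 mu)^2 B i) = (2 mu)^N (- Pq (B i)) (Pq_smul), p' k = Pq (B k), Z0 i k from equiv_forms, Z i k = Ph^-1 Z0 Ph (LinearMap.det_conj), lam = 1 + (N+1) 2 eps; pack_abs.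
J = triples (i, a, pi) such that the cell IsK (1/n i) (lat (1/n i) a) pi lies in K (finite by meet_finite, kuhn_cube, opE_nonempty); job: sig = sx_map of the cell by Phi, Z z = Phi (Z i k (Phi^-1 z + t)) with t from kuhn_big for the cell of type pi of the cube with corner c i a; its linear part is Z0 i k.
cc: kuhn_dis, iota_eq; kk: different tau' by iota_eq, different (i, a) by pack_abs and kuhn_cube, different pi by kuhn_dis0 (the same linear map and corner); ck: a negative and a positive simplex. The cover: kuhn_cover.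
-/

set_option autoImplicit false
set_option maxSynthPendingDepth 3
set_option linter.unusedSectionVars false
set_option linter.unusedVariables false

open Set Filter Topology Metric

noncomputable section
namespace Pool.Agent.Work.MP_bf98aa_gt.Pl

open Pool.Agent.Work.MP_bf98aa_gt.Ns

variable {m : ℕ} {E : Type} [NormedAddCommGroup E] [NormedSpace ℝ E] [FiniteDimensional ℝ E]

theorem PackC_sum {T : Type} [Fintype T] (f : T → ℝ) [Fintype {τ // 0 < f τ}] :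
    ∑ τ, max (f τ) 0 = ∑ i : {τ // 0 < f τ}, f i := by
  classical
  rw [← Finset.sum_subtype (Finset.univ.filter fun τ => 0 < f τ) (by simp), Finset.sum_filter]
  refine Finset.sum_congr rfl fun τ _ => ?_
  split_ifs with h
  · exact max_eq_left h.le
  · exact max_eq_right (not_lt.1 h)

theorem PackC_lin {V W : Type} [NormedAddCommGroup V] [NormedSpace ℝ V] [NormedAddCommGroup W]
    [NormedSpace ℝ W] {Φ : V →ᴬ[ℝ] W} {Ψ : W →ᴬ[ℝ] V} (h : ∀ z, Φ (Ψ z) = z) (z : W) :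
    Φ.contLinear (Ψ.contLinear z) = z := by
  have e : Φ.comp Ψ = ContinuousAffineMap.id ℝ W := ContinuousAffineMap.ext h
  have := congrArg (fun A : W →ᴬ[ℝ] W => A.contLinear z) e
  exact this

theorem PackC_det {V W : Type} [NormedAddCommGroup V] [NormedSpace ℝ V] [NormedAddCommGroup W]
    [NormedSpace ℝ W] (A : V →L[ℝ] W) (B : W →L[ℝ] V) (h1 : ∀ x, B (A x) = x)
    (h2 : ∀ z, A (B z) = z) (L : W →L[ℝ] W) : (B.comp (L.comp A)).det = L.det :=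
  LinearMap.det_conj (L : W →ₗ[ℝ] W)
    (LinearEquiv.ofLinearMap (B : W →ₗ[ℝ] V) (A : V →ₗ[ℝ] W) (LinearMap.ext h1) (LinearMap.ext h2))

/-- Coordinates in which the inner simplex is the standard cell. -/
theorem PackC_iso (Δ : Sx (WW m) (2 * m + 2)) (σ0 : Sx (Fin (2 * m + 2) → ℝ) (2 * m + 2)) :
    ∃ (Φ : (Fin (2 * m + 2) → ℝ) →ᴬ[ℝ] WW m) (Ψ : WW m →ᴬ[ℝ] Fin (2 * m + 2) → ℝ),
      (∀ x, Ψ (Φ x) = x) ∧ (∀ z, Φ (Ψ z) = z) ∧ (∀ z, Ψ z ∈ clE σ0 0 ↔ z ∈ clE Δ (inn m)) ∧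
      ∀ x ∈ opE σ0 (1 / (2 * (m : ℝ) + 3)), Φ x ∈ opE Δ 0 := by
  have h3 : (0 : ℝ) < 2 * m + 3 := by positivity
  have e : 1 + (((2 * m + 2 : ℕ) : ℝ) + 1) * inn m = 1 / 2 := by
    unfold inn
    push_cast
    field_simp
    ring
  obtain ⟨D, hD⟩ := sx_resize Δ (ε := inn m) (by rw [e]; norm_num)
  obtain ⟨Φ, -, hΦ⟩ := sx_iso σ0 D
  obtain ⟨Ψ, -, hΨ⟩ := sx_iso D σ0
  refine ⟨Φ, Ψ, fun x => σ0.ext_elem fun i => by rw [hΨ, hΦ],
    fun z => D.ext_elem fun i => by rw [hΦ, hΨ], fun z => forall_congr' fun i => ?_,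
    fun x hx i => ?_⟩
  · rw [hΨ, hD, e]
    constructor <;> intro h <;> linarith
  · have h1 := hx i
    have h2 : inn m = -(1 / (2 * (m : ℝ) + 3)) / 2 := by
      unfold inn
      field_simp
    rw [← hΦ, hD, e, h2] at h1
    linarith

theorem pack (a : Amb m E) {μ ε : ℝ} (hμ : 0 < μ) (hε : 0 < ε)
    (h : (μ * (1 + (2 * (m : ℝ) + 3) * (2 * ε))) ^ (2 * m + 2) * ∑ τ, max (-Pq (a.B τ)) 0 <
      ∑ τ, max (Pq (a.B τ)) 0) :
    ∃ (J : Type) (_ : Finite J) (job : J → Job a), Static job ε ∧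
      (∀ j, Pq (a.B (job j).τ) < 0 ∧ (job j).b = (2 * μ) ^ 2 • a.B (job j).τ ∧
        (job j).b' = a.B (job j).τ' ∧ clE (job j).σ 0 ⊆ clE a.Δ (inn m)) ∧
      ∀ τ, Pq (a.B τ) < 0 → ∀ z ∈ clE a.Δ (inn m), ∃ j, (job j).τ = τ ∧ z ∈ clE (job j).σ 0 := by
  classical
  obtain ⟨σ0, H0⟩ := kuhn_ex (N := 2 * m + 2) one_pos 0 1
  obtain ⟨Φ, Ψ, hl, hr, hK, hU⟩ := PackC_iso a.Δ σ0
  have h3 : (0 : ℝ) < 2 * m + 3 := by positivity
  have hs : ∀ τ, Skew ((2 * μ) ^ 2 • a.B τ) := fun τ u v => by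
    simp only [smul_apply, a.skew τ u v, smul_neg]
  have hq : ∀ τ, -Pq ((2 * μ) ^ 2 • a.B τ) = (2 * μ) ^ (2 * m + 2) * -Pq (a.B τ) := fun τ => by
    rw [Pq_smul, ← pow_mul, mul_neg, mul_add]
  have hp : ∀ i : {τ // 0 < -Pq (a.B τ)}, 0 < -Pq ((2 * μ) ^ 2 • a.B i) := fun i => by
    rw [hq]
    exact mul_pos (by positivity) i.2
  choose Z0 hZ0 hZd using fun (i : {τ // 0 < -Pq (a.B τ)}) (k : {τ // 0 < Pq (a.B τ)}) =>
    equiv_forms (hs i) (a.skew k) (neg_pos.1 (hp i)).ne k.2.ne'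
  obtain ⟨Z, hZ⟩ : ∃ Z : {τ // 0 < -Pq (a.B τ)} → {τ // 0 < Pq (a.B τ)} →
      (Fin (2 * m + 2) → ℝ) →L[ℝ] Fin (2 * m + 2) → ℝ,
      ∀ i k, Z i k = Ψ.contLinear.comp ((Z0 i k).comp Φ.contLinear) := ⟨_, fun _ _ => rfl⟩
  have hdet : ∀ i k, |(Z i k).det| * Pq (a.B k) = -Pq ((2 * μ) ^ 2 • a.B i) := by
    intro i k
    rw [hZ, PackC_det _ _ (PackC_lin hl) (PackC_lin hr), ← abs_of_pos k.2, ← abs_mul, hZd, abs_of_neg (neg_pos.1 (hp i))]
  obtain ⟨lam, hlam⟩ : ∃ lam : ℝ, lam = 1 + (((2 * m + 2 : ℕ) : ℝ) + 1) * (2 * ε) := ⟨_, rfl⟩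
  have hl0 : 0 < lam := by rw [hlam]; positivity
  obtain ⟨n, t, c, hn, h1, h2⟩ := pack_abs (isCompact_clE σ0 0) (isOpen_opE σ0 (1 / (2 * m + 3)))
    ((MeasureTheory.measure_mono (opE_sub_clE _ _)).trans_lt
      (isCompact_clE _ _).measure_lt_top).ne hp (fun k => k.2) Z hdet hl0 (by
      have e1 : 1 + (((2 * m + 2 : ℕ) : ℝ) + 1) * (1 / (2 * m + 3)) = 2 := by
        push_cast
        field_simp
        ring
      have e2 : 1 + (2 * (m : ℝ) + 3) * (2 * ε) = lam := by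
        rw [hlam]
        push_cast
        ring
      rw [PackC_sum fun τ => -Pq (a.B τ), PackC_sum fun τ => Pq (a.B τ), e2] at h
      have := mul_lt_mul_of_pos_left h (mul_pos (pow_pos two_pos (2 * m + 2)) (vol_pos σ0))
      simp only [hq]
      rw [vol_opE σ0 (by positivity), e1, ← Finset.mul_sum]
      refine lt_of_eq_of_lt ?_ this
      rw [mul_pow, mul_pow]
      ring)
  have hh : ∀ i, (0 : ℝ) < 1 / n i := fun i => one_div_pos.2 (Nat.cast_pos.2 (hn i))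
  have hks : ∀ (r : ℝ) (c : Fin (2 * m + 2) → ℝ) (π : Equiv.Perm (Fin (2 * m + 2))),
      ∃ σ : Sx (Fin (2 * m + 2) → ℝ) (2 * m + 2), 0 < r → IsK r c π σ := fun r c π => by
    by_cases hr : 0 < r
    · exact (kuhn_ex hr c π).imp fun _ h _ => h
    · exact ⟨σ0, fun h => (hr h).elim⟩
  choose ks hks using hks
  choose mp hmp0 hmp using fun σ : Sx (Fin (2 * m + 2) → ℝ) (2 * m + 2) =>
    sx_map σ Φ (Function.bijective_iff_has_inverse.2 ⟨Ψ, hl, hr⟩)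
  have hc : ∀ σ r z, z ∈ clE (mp σ) r ↔ Ψ z ∈ clE σ r := fun σ r z =>
    forall_congr' fun i => by rw [← hmp, hr]
  have ho : ∀ σ r z, z ∈ opE (mp σ) r ↔ Ψ z ∈ opE σ r := fun σ r z =>
    forall_congr' fun i => by rw [← hmp, hr]
  have hg : ∀ i b π, ∃ g : WW m →ᴬ[ℝ] WW m, g.contLinear = Z0 i (t i b) ∧
      (∀ z ∈ clE (mp (ks (1 / n i) (lat (1 / n i) b) π)) (2 * ε),
        ∃ y ∈ clE (ks (lam * (1 / n i)) (c i b) π) 0, g z = Φ (Z i (t i b) y)) ∧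
      ∀ z ∈ opE (mp (ks (1 / n i) (lat (1 / n i) b) π)) (2 * ε),
        ∃ y ∈ opE (ks (lam * (1 / n i)) (c i b) π) 0, g z = Φ (Z i (t i b) y) := by
    intro i b π
    obtain ⟨v, hv⟩ := kuhn_big (hh i) (ε := 2 * ε) (by positivity) (hks _ (lat (1 / n i) b) π (hh i))
      (σ' := ks (lam * (1 / n i)) (c i b) π) (c' := c i b)
      (by rw [← hlam]; exact hks _ _ π (mul_pos hl0 (hh i)))
    obtain ⟨g, e1, e2⟩ := frame_ex (Φ (Z i (t i b) (Ψ 0 + v))) (Z0 i (t i b))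
    have e3 : ∀ z, g z = Φ (Z i (t i b) (Ψ z + v)) := fun z => by
      rw [e2, aff_eq Ψ z, add_right_comm, map_add _ _ (Ψ.contLinear z), PLc_add Φ, hZ]
      simp only [ContinuousLinearMap.comp_apply, PackC_lin hr]
    exact ⟨g, e1, fun z hz => ⟨_, (hv _).1.1 ((hc _ _ _).1 hz), e3 z⟩,
      fun z hz => ⟨_, (hv _).2.1 ((ho _ _ _).1 hz), e3 z⟩⟩
  choose g hg1 hg2 hg3 using hg
  let S : Set ({τ // 0 < -Pq (a.B τ)} × (Fin (2 * m + 2) → ℤ) × Equiv.Perm (Fin (2 * m + 2))) :=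
    {x | clE (ks (1 / n x.1) (lat (1 / n x.1) x.2.1) x.2.2) 0 ⊆ clE σ0 0}
  have meet : ∀ x ∈ S, (cube (lat (1 / n x.1) x.2.1) (1 / n x.1) ∩ clE σ0 0).Nonempty := by
    intro x hx
    obtain ⟨y, hy⟩ := opE_nonempty (ks (1 / n x.1) (lat (1 / n x.1) x.2.1) x.2.2) (ε := 0) (by simp)
    exact ⟨y, (kuhn_cube (hh _) (hks _ _ _ (hh _))).1 (opE_sub_clE _ _ hy), hx (opE_sub_clE _ _ hy)⟩
  have hS : S.Finite := (finite_iUnion fun i => (finite_singleton i).prod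
    ((meet_finite (isCompact_clE σ0 0) (hh i)).prod finite_univ)).subset fun x hx =>
      mem_iUnion.2 ⟨x.1, rfl, meet x hx, trivial⟩
  have sub : ∀ x ∈ S, clE (mp (ks (1 / n x.1) (lat (1 / n x.1) x.2.1) x.2.2)) 0 ⊆
      clE a.Δ (inn m) := fun x hx z hz => (hK z).1 (hx ((hc _ _ _).1 hz))
  have sub' : ∀ x ∈ S, clE (mp (ks (1 / n x.1) (lat (1 / n x.1) x.2.1) x.2.2)) 0 ⊆ opE a.Δ 0 :=
    fun x hx => (sub x hx).trans (clE_sub_opE _ (neg_lt_zero.2 (by positivity)))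
  have subZ : ∀ x ∈ S, ∀ z ∈ clE (mp (ks (1 / n x.1) (lat (1 / n x.1) x.2.1) x.2.2)) (2 * ε),
      g x.1 x.2.1 x.2.2 z ∈ opE a.Δ 0 := by
    intro x hx z hz
    obtain ⟨y, hy, e⟩ := hg2 _ _ _ z hz
    rw [e]
    exact hU _ (h1 _ _ (meet x hx) (mem_image_of_mem _
      ((kuhn_cube (mul_pos hl0 (hh _)) (hks _ _ _ (mul_pos hl0 (hh _)))).1 hy)))
  refine ⟨S, hS.to_subtype, fun j => ⟨j.1.1, t j.1.1 j.1.2.1,
    mp (ks (1 / n j.1.1) (lat (1 / n j.1.1) j.1.2.1) j.1.2.2), (2 * μ) ^ 2 • a.B j.1.1,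
    a.B (t j.1.1 j.1.2.1), g j.1.1 j.1.2.1 j.1.2.2⟩, ⟨hε, fun j => a.skew _, fun j => (t _ _).2,
    fun j => neg_pos.1 (hp _), fun j => (congrArg (pb · _) (hg1 _ _ _)).trans (hZ0 _ _),
    fun j => sub' _ j.2, fun j => image_subset_iff.2 (subZ _ j.2), ?_, ?_, ?_⟩,
    fun j => ⟨neg_pos.1 j.1.1.2, rfl, rfl, sub _ j.2⟩, fun τ hτ z hz => ?_⟩
  · rintro ⟨⟨i, b, π⟩, hj⟩ ⟨⟨i', b', π'⟩, hj'⟩ hne
    refine disjoint_left.2 ?_
    rintro _ ⟨z, hz, rfl⟩ ⟨z', hz', e⟩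
    obtain ⟨e1, rfl⟩ := iota_eq (sub' _ hj' hz')
      (opE_sub_clE _ _ (sub' _ hj (opE_sub_clE _ _ hz))) e
    obtain rfl : i' = i := Subtype.ext e1
    exact disjoint_left.1 (kuhn_dis (hh i') (hks _ _ _ (hh i')) (hks _ _ _ (hh i')) fun e =>
      hne (Subtype.ext (Prod.ext rfl e))) ((ho _ _ _).1 hz) ((hc _ _ _).1 hz')
  · rintro ⟨⟨i, b, π⟩, hj⟩ ⟨⟨i', b', π'⟩, hj'⟩ hne
    refine disjoint_left.2 ?_
    rintro _ ⟨_, ⟨z, hz, rfl⟩, rfl⟩ ⟨_, ⟨z', hz', rfl⟩, e⟩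
    obtain ⟨e1, e2⟩ := iota_eq (subZ _ hj' z' (opE_sub_clE _ _ hz'))
      (opE_sub_clE _ _ (subZ _ hj z (opE_sub_clE _ _ hz))) e
    obtain ⟨y, hy, ey⟩ := hg3 i b π z hz
    obtain ⟨y', hy', ey'⟩ := hg3 i' b' π' z' hz'
    have e3 : Z i' (t i' b') y' = Z i (t i b) y :=
      Function.LeftInverse.injective hl (ey'.symm.trans (e2.trans ey))
    have k1 := hks _ (c i b) π (mul_pos hl0 (hh i))
    have k2 := hks _ (c i' b') π' (mul_pos hl0 (hh i'))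
    by_cases e4 : (i, b) = (i', b')
    · obtain ⟨rfl, rfl⟩ := Prod.mk.inj e4
      have hd : (Z i (t i b)).det ≠ 0 := fun h0 => (hp i).ne (by rw [← hdet i (t i b), h0]; simp)
      have hi : Function.Injective (Z i (t i b)) :=
        ((Z i (t i b)).toContinuousLinearEquivOfDetNeZero hd).injective
      obtain rfl : y' = y := hi e3
      exact disjoint_left.1 (kuhn_dis0 (mul_pos hl0 (hh i)) k1 k2 fun e =>
        hne (Subtype.ext (Prod.ext rfl (Prod.ext rfl e)))) hy (opE_sub_clE _ _ hy')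
    · exact disjoint_left.1 (h2 i b i' b' (meet (i, b, π) hj) (meet (i', b', π') hj') e4 (Subtype.ext e1.symm))
        (mem_image_of_mem _ ((kuhn_cube (mul_pos hl0 (hh i)) k1).2 hy))
        ⟨y', (kuhn_cube (mul_pos hl0 (hh i')) k2).2 hy', e3⟩
  · rintro ⟨⟨i, b, π⟩, hj⟩ ⟨⟨i', b', π'⟩, hj'⟩
    refine disjoint_left.2 ?_
    rintro _ ⟨z, hz, rfl⟩ ⟨_, ⟨z', hz', rfl⟩, e⟩
    have e1 : (t i' b').1 = i.1 := (iota_eq (subZ _ hj' z' (opE_sub_clE _ _ hz'))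
      (opE_sub_clE _ _ (sub' _ hj hz)) e).1
    exact lt_asymm (neg_pos.1 i.2) (e1 ▸ (t i' b').2)
  · obtain ⟨b, π, hb⟩ := kuhn_cover H0 (hn ⟨τ, neg_pos.2 hτ⟩) ((hK z).2 hz)
    have := hb _ (hks _ _ _ (hh _))
    exact ⟨⟨(⟨τ, neg_pos.2 hτ⟩, b, π), this.2⟩, rfl, (hc _ _ _).2 this.1⟩

end Pool.Agent.Work.MP_bf98aa_gt.Pl
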