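import Pool.Agent.Work.MP_bf98aa_gt.Pl.Rho
import Pool.Agent.Work.MP_bf98aa_gt.Pl.Lin

/-!
The straightening of the gauge. Choose a vertex q1 = q j1 with t1 = (q1).2 > 0 (the sum of w j q j is 0 and the vertices span). Put tau y = y.2 / t1, xt y = y - tau y q1, mx x = max of ell i x over i different from j1,
zeta x = w1 (ell j1 x - mx x), psi y = (M - 1) tau y + zeta (xt y), k0 y = y + psi y q1 = xt y + (M tau y + zeta (xt y)) q1. By ell_vertex,
rho (x + sig q1) = max (ell j1 x - sig (1/w1 - 1)) (mx x + sig), the two terms are equal at sig = zeta x; so rho (k0 y) = mx (xt y) + zeta (xt y) + M tau y for y.2 >= 0 and = mx (xt y) + zeta (xt y) - M (1/w1 - 1) tau y for y.2 <= 0 (0 < w1 < 1).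
The PL function mx o xt + zeta o xt is Lipschitz (K), so for M large the function is strictly increasing in the direction (0,1) with slope >= 1 for y.2 > 0, and decreasing for y.2 < 0; at a locally affine point this gives the sign of fderiv.
Cut off: chi v = c min (1/4 - rho v.1)_+ (1/4 - max (a - v.2) (v.2 - b) 0)_+, k v = (v.1 + clamp (psi v.1) (chi v) q1, v.2), kf y = y + clamp (psi y) (c (1/4 - rho y)_+) q1, with c > 0 so small that c rho (q1) < 1 and c rho (-q1) < 1;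
shear_bdd in the direction q1 (resp. (q1, 0)): tau + clamp = max (tau - chi) (min (tau + chi) (tau + psi)) and all three are strictly increasing (rho_add_le, rho_smul). Near 0, kf = k0; mu by continuity of the inverse at 0 and rho_norm.
-/

set_option autoImplicit false
set_option maxSynthPendingDepth 3
set_option linter.unusedSectionVars false
set_option linter.unusedVariables false

open Set Filter Topology Metric

noncomputable section
namespace Pool.Agent.Work.MP_bf98aa_gt.Pl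

open Pool.Agent.Work.MP_bf98aa_gt.Ns

variable {m : ℕ}

theorem Kap_bd {V : Type} [NormedAddCommGroup V] [NormedSpace ℝ V] {G : V → ℝ} (hG : PL G)
    (e : V) : ∃ K : ℝ, 0 ≤ K ∧ ∀ᶠ y in gen V, DifferentiableAt ℝ G y ∧ |fderiv ℝ G y e| ≤ K := by
  obtain ⟨hc, 𝒜, hf, hA⟩ := hG
  obtain ⟨K, hK⟩ := (hf.image fun A => |A.contLinear e|).bddAbove
  refine ⟨max K 0, le_max_right _ _, ?_⟩
  filter_upwards [PLb_loc isOpen_univ hc hf] with y hy
  obtain ⟨A, h1, h2⟩ := hA y trivial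
  have e1 := hy trivial A h1 h2
  refine ⟨LocAff.differentiableAt ⟨A, e1⟩, ?_⟩
  rw [e1.fderiv_eq, A.hasFDerivAt.fderiv]
  exact (hK ⟨A, h1, rfl⟩).trans (le_max_left _ _)

theorem Kap_mono {f χ : ℝ → ℝ} (hf : StrictMono fun σ => σ + f σ)
    (hχ : ∀ σ σ', σ < σ' → |χ σ' - χ σ| < σ' - σ) :
    StrictMono fun σ => σ + clamp (f σ) (χ σ) := by
  intro σ σ' h
  have h1 := hf h
  have h2 := abs_lt.1 (hχ σ σ' h)
  simp only [clamp, max_def, min_def] at h1 ⊢
  split_ifs <;> linarith [h2.1, h2.2]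

theorem Kap_lip {x x' D : ℝ} (h : ℝ) (h1 : x' ≤ x + D) (h2 : x ≤ x' + D) :
    |min (max (1 / 4 - x') 0) h - min (max (1 / 4 - x) 0) h| ≤ D := by
  rw [abs_le]
  simp only [max_def, min_def]
  split_ifs <;> constructor <;> linarith

theorem Kap_mx {Y : Type} [NormedAddCommGroup Y] [NormedSpace ℝ Y] [FiniteDimensional ℝ Y] {d : ℕ}
    {q : Sx Y d} (hq : Cen q) {j i0 : Fin (d + 1)} (hi : i0 ≠ j) :
    ∃ (ζ G : Y → ℝ) (κ : ℝ), 0 < κ ∧ PL ζ ∧ PL G ∧ ζ 0 = 0 ∧
      (∀ y (σ : ℝ), ζ (y + σ • q j) = ζ y - σ) ∧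
      ∀ y (s : ℝ), rho q (y + (s + ζ y) • q j) = max (G y - κ * s) (G y + s) := by
  have hne : (Finset.univ.erase j).Nonempty := ⟨i0, by simp [hi]⟩
  obtain ⟨mx, m0, m1, m2⟩ : ∃ mx : Y → ℝ, PL mx ∧ (∀ y i, i ≠ j → ell q i y ≤ mx y) ∧
      ∀ y, ∃ i, i ≠ j ∧ mx y = ell q i y := by
    refine ⟨fun y => (Finset.univ.erase j).sup' hne fun i => ell q i y,
      plOn_sup' _ hne fun i _ => pl_ell q i, fun y i h => ?_, fun y => ?_⟩
    · exact Finset.le_sup' (fun i => ell q i y) (by simp [h])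
    · obtain ⟨i, h1, h2⟩ := Finset.exists_mem_eq_sup' hne fun i => ell q i y
      exact ⟨i, (Finset.mem_erase.1 h1).1, h2⟩
  have w0 := hq j
  have w1 : q.coord j 0 < 1 := by
    rw [← q.sum_coord_apply_eq_one 0]
    exact Finset.single_lt_sum (f := fun k => q.coord k 0) hi (Finset.mem_univ _)
      (Finset.mem_univ _) (hq i0) fun k _ _ => (hq k).le
  have l0 : ∀ i, ell q i 0 = 0 := fun i => by
    obtain ⟨l, hl⟩ := ell_lin hq i
    rw [hl, map_zero]
  have l1 : ∀ i y (σ : ℝ), ell q i (y + σ • q j) = ell q i y + σ * ell q i (q j) := fun i y σ => by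
    obtain ⟨l, hl⟩ := ell_lin hq i
    simp only [hl, map_add, map_smul, smul_eq_mul]
  have l2 : ∀ i y (σ : ℝ), i ≠ j → ell q i (y + σ • q j) = ell q i y + σ := fun i y σ h => by
    rw [l1, ell_vertex hq, if_neg h, mul_one]
  have l3 : ∀ y (σ : ℝ), ell q j (y + σ • q j) = ell q j y + σ * (1 - 1 / q.coord j 0) :=
    fun y σ => by rw [l1, ell_vertex hq, if_pos rfl]
  have m3 : ∀ y (σ : ℝ), mx (y + σ • q j) = mx y + σ := fun y σ => by
    apply le_antisymm
    · obtain ⟨i, h1, h2⟩ := m2 (y + σ • q j)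
      rw [h2, l2 i y σ h1]
      linarith [m1 y i h1]
    · obtain ⟨i, h1, h2⟩ := m2 y
      rw [h2, ← l2 i y σ h1]
      exact m1 _ i h1
  have m4 : ∀ y, rho q y = max (ell q j y) (mx y) := fun y => by
    apply le_antisymm
    · refine (rho_le_iff q y _).2 fun i => ?_
      by_cases h : i = j
      · rw [h]
        exact le_max_left _ _
      · exact (m1 y i h).trans (le_max_right _ _)
    · obtain ⟨i, -, h2⟩ := m2 y
      exact max_le (ell_le_rho q j y) (h2 ▸ ell_le_rho q i y)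
  refine ⟨fun y => q.coord j 0 * (ell q j y - mx y),
    fun y => mx y + q.coord j 0 * (ell q j y - mx y), 1 / q.coord j 0 - 1, ?_,
    ((pl_ell q j).sub m0).const_mul _, m0.add (((pl_ell q j).sub m0).const_mul _), ?_,
    fun y σ => ?_, fun y s => ?_⟩
  · rw [sub_pos, lt_div_iff₀ w0, one_mul]
    exact w1
  · obtain ⟨i, -, h2⟩ := m2 0
    simp only [h2, l0, sub_zero, mul_zero]
  · simp only [l3, m3]
    field_simp
    ring
  · rw [m4, l3, m3]
    refine congrArg₂ max ?_ (by ring)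
    field_simp
    ring

theorem Kap_der {f G : YY m → ℝ} {y : YY m} {c : ℝ} (hG : DifferentiableAt ℝ G y)
    (h : f =ᶠ[𝓝 y] fun z => G z + c * z.2) :
    fderiv ℝ f y (0, 1) = fderiv ℝ G y (0, 1) + c := by
  have d : HasFDerivAt (fun z : YY m => G z + c * z.2)
      (fderiv ℝ G y + c • ContinuousLinearMap.snd ℝ (XX m) ℝ) y :=
    hG.hasFDerivAt.add (hasFDerivAt_snd.const_mul c)
  rw [h.fderiv_eq, d.fderiv]
  simp

theorem Kap_vtx {q : Sx (YY m) (2 * m + 1)} (hq : Cen q) : ∃ j, 0 < (q j).2 := by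
  by_contra h
  push Not at h
  have e := congrArg Prod.snd (sum_bet_smul hq ((0, 1) : YY m))
  rw [Prod.snd_sum] at e
  have : ∑ j, (bet q j ((0, 1) : YY m) • q j).2 ≤ 0 :=
    Finset.sum_nonpos fun j _ => mul_nonpos_of_nonneg_of_nonpos (bet_nonneg hq j _) (h j)
  rw [e] at this
  norm_num at this

theorem kap_ex {q : Sx (YY m) (2 * m + 1)} (hq : Cen q) :
    ∃ (kf kf' : YY m → YY m) (μ : ℝ), 0 < μ ∧ IsPLH kf kf' ∧ kf 0 = 0 ∧
      (∀ᶠ y in gen (YY m), rho q (kf y) ≤ μ →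
        0 < y.2 * fderiv ℝ (fun y => rho q (kf y)) y (0, 1)) ∧
      ∀ a b : ℝ, a ≤ b → ∃ k k', KapOK q kf a b k k' := by
  obtain ⟨j, hj⟩ := Kap_vtx hq
  obtain ⟨i0, hi⟩ := exists_ne j
  obtain ⟨ζ, G, κ, hκ, pζ, pG, z0, z1, z2⟩ := Kap_mx hq hi
  obtain ⟨K, hK, gK⟩ := Kap_bd pG (0, 1)
  obtain ⟨C, hC, hn⟩ := rho_norm hq
  obtain ⟨M, hM1, hM2⟩ : ∃ M : ℝ, K < M ∧ K < κ * M := by
    refine ⟨(K + 1) + (K + 1) / κ, ?_, ?_⟩
    · have : 0 ≤ (K + 1) / κ := by positivity
      linarith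
    · rw [mul_add, mul_div_cancel₀ _ hκ.ne']
      have : 0 ≤ κ * (K + 1) := by positivity
      linarith
  have hM : 0 < M := hK.trans_lt hM1
  obtain ⟨R, hR, hR1⟩ : ∃ R : ℝ, 0 ≤ R ∧ ∀ y (u : ℝ), rho q (y + u • q j) ≤ rho q y + R * |u| := by
    refine ⟨C * ‖q j‖, by positivity, fun y u => (rho_add_le hq _ _).trans ?_⟩
    have := (hn (u • q j)).1
    rw [norm_smul, Real.norm_eq_abs] at this
    linarith
  obtain ⟨c, hc, hcR⟩ : ∃ c : ℝ, 0 < c ∧ c * R < 1 :=
    ⟨1 / (R + 1), by positivity, by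
      rw [one_div, inv_mul_lt_iff₀ (by positivity)]
      linarith⟩
  obtain ⟨ψ, eψ⟩ : ∃ ψ : YY m → ℝ, ∀ y, ψ y = M * y.2 + ζ y := ⟨_, fun _ => rfl⟩
  obtain ⟨χ, eχ⟩ : ∃ χ : YY m → ℝ → ℝ, ∀ y h, χ y h = c * min (max (1 / 4 - rho q y) 0) h :=
    ⟨_, fun _ _ => rfl⟩
  have pψ : PL ψ := (((plOn_snd _).const_mul M).add pζ).congr fun y _ => eψ y
  have pχ : ∀ {V : Type} [NormedAddCommGroup V] [NormedSpace ℝ V] {f : V → YY m} {h : V → ℝ},
      PL f → PL h → PL fun v => χ (f v) (h v) := fun hf hh => by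
    simp only [eχ]
    exact ((((plOn_const _ _).sub ((pl_rho q).comp hf)).max (plOn_const _ _)).min hh).const_mul c
  have χ0 : ∀ y h, 0 ≤ h → 0 ≤ χ y h := fun y h hh => by
    rw [eχ]
    exact mul_nonneg hc.le (le_min (le_max_right _ _) hh)
  have χ1 : ∀ y h, χ y h ≤ c * (1 / 4) := fun y h => by
    rw [eχ]
    refine mul_le_mul_of_nonneg_left ((min_le_left _ _).trans (max_le ?_ (by norm_num))) hc.le
    linarith [rho_nonneg hq y]
  have sm : ∀ y h, StrictMono fun σ : ℝ => σ + clamp (ψ (y + σ • q j)) (χ (y + σ • q j) h) := by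
    intro y h
    refine Kap_mono (fun σ σ' hσ => ?_) fun σ σ' hσ => ?_
    · simp only [eψ, z1, Prod.snd_add, Prod.smul_snd, smul_eq_mul]
      nlinarith [mul_pos (mul_pos hM hj) (sub_pos.2 hσ)]
    · have a1 := hR1 (y + σ • q j) (σ' - σ)
      have a2 := hR1 (y + σ' • q j) (σ - σ')
      rw [add_assoc, ← add_smul, add_sub_cancel] at a1 a2
      rw [abs_sub_comm] at a2
      rw [abs_of_pos (sub_pos.2 hσ)] at a1 a2
      rw [eχ, eχ, ← mul_sub, abs_mul, abs_of_pos hc]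
      refine (mul_le_mul_of_nonneg_left (Kap_lip h a1 a2) hc.le).trans_lt ?_
      nlinarith [mul_pos (sub_pos.2 hcR) (sub_pos.2 hσ)]
  have bd : ∀ y h, 0 ≤ h → |clamp (ψ y) (χ y h)| ≤ c * (1 / 4) := fun y h hh =>
    (abs_clamp_le (χ0 y h hh)).trans (χ1 y h)
  obtain ⟨kf', hkf⟩ := shear_bdd (u := fun y => clamp (ψ y) (χ y (1 / 4)))
    (pψ.clamp (pχ (plOn_id _) (plOn_const _ _))) (q j) (fun y => sm y _)
    fun y => ⟨_, fun _ => bd _ _ (by norm_num)⟩
  have ψ0 : ψ 0 = 0 := by simp [eψ, z0]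
  have k0 : (0 : YY m) + clamp (ψ 0) (χ 0 (1 / 4)) • q j = 0 := by
    rw [ψ0, zero_clamp (χ0 _ _ (by norm_num)), zero_smul, add_zero]
  have hU : IsOpen {y | |ψ y| < χ y (1 / 4)} :=
    isOpen_lt pψ.continuous.abs (pχ (plOn_id _) (plOn_const _ _)).continuous
  have h0 : kf' 0 ∈ {y | |ψ y| < χ y (1 / 4)} := by
    have e := hkf.left 0
    simp only [k0] at e
    rw [e]
    show |ψ 0| < χ 0 (1 / 4)
    rw [ψ0, eχ, rho_zero hq, abs_zero]
    refine mul_pos hc (lt_min (lt_max_of_lt_left ?_) ?_) <;> norm_num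
  obtain ⟨ε, hε, hb⟩ := nhds_basis_closedBall.mem_iff.1
    (hkf.pl'.continuous.continuousAt.preimage_mem_nhds (hU.mem_nhds h0))
  refine ⟨_, kf', ε / C, by positivity, hkf, k0, ?_, fun a b hab => ?_⟩
  · filter_upwards [gK, PLb_aff_ne (ContinuousLinearMap.snd ℝ (XX m) ℝ).toContinuousAffineMap
      ⟨(0, 1), one_ne_zero⟩] with y hy hy2 hμ
    have y2 : y.2 ≠ 0 := hy2
    have yU : y ∈ {y | |ψ y| < χ y (1 / 4)} := by
      rw [← hkf.left y]
      refine hb (mem_closedBall_zero_iff.2 ((hn _).2.trans ?_))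
      rw [mul_comm]
      exact (le_div_iff₀ hC).1 hμ
    have ev : ∀ᶠ z in 𝓝 y, rho q (z + clamp (ψ z) (χ z (1 / 4)) • q j) =
        max (G z - κ * (M * z.2)) (G z + M * z.2) := by
      filter_upwards [hU.mem_nhds yU] with z hz
      rw [clamp_of_le (le_of_lt hz), eψ, z2]
    have kb := abs_le.1 hy.2
    rcases lt_or_gt_of_ne y2 with h | h
    · rw [Kap_der (c := -(κ * M)) hy.1]
      · exact mul_pos_of_neg_of_neg h (by linarith [kb.2])
      · filter_upwards [ev, continuousAt_snd.eventually (gt_mem_nhds h)] with z h1 h2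
        have : M * z.2 < 0 := mul_neg_of_pos_of_neg hM h2
        rw [h1, max_eq_left (by nlinarith)]
        ring
    · rw [Kap_der (c := M) hy.1]
      · exact mul_pos h (by linarith [kb.1])
      · filter_upwards [ev, continuousAt_snd.eventually (lt_mem_nhds h)] with z h1 h2
        have : 0 < M * z.2 := mul_pos hM h2
        rw [h1, max_eq_right (by nlinarith)]
  · obtain ⟨H, eH⟩ : ∃ H : ℝ → ℝ, ∀ s, H s = max (1 / 4 - max (max (a - s) (s - b)) 0) 0 :=
      ⟨_, fun _ => rfl⟩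
    have pH : PL fun v : YY m × ℝ => H v.2 := by
      simp only [eH]
      exact ((plOn_const _ _).sub ((((plOn_const _ _).sub (plOn_snd _)).max
        ((plOn_snd _).sub (plOn_const _ _))).max (plOn_const _ _))).max (plOn_const _ _)
    have H0 : ∀ s, 0 ≤ H s := fun s => by
      rw [eH]
      exact le_max_right _ _
    obtain ⟨k', hk⟩ := shear_bdd (u := fun v : YY m × ℝ => clamp (ψ v.1) (χ v.1 (H v.2)))
      ((pψ.comp (plOn_fst _)).clamp (pχ (plOn_fst _) pH)) (q j, 0)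
      (fun v => by simpa using sm v.1 (H v.2)) fun v => ⟨_, fun _ => bd _ _ (H0 _)⟩
    refine ⟨_, k', hk, fun v => by simp, fun v h1 h2 => ?_, fun v => ?_⟩
    · have e : H v.2 = 1 / 4 := by
        rw [eH, max_eq_right (max_le (by linarith) (by linarith)), sub_zero,
          max_eq_left (by norm_num)]
      rw [e]
      rfl
    · rcases (χ0 v.1 _ (H0 v.2)).eq_or_lt with h | h
      · left
        rw [← h, clamp_zero, zero_smul, add_zero]
      · right
        have h1 := h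
        rw [eχ, mul_pos_iff_of_pos_left hc, lt_min_iff, eH, lt_max_iff, lt_max_iff, sub_pos,
          sub_pos, max_lt_iff, max_lt_iff] at h1
        obtain ⟨h2 | h2, h3 | h3⟩ := h1
        · refine ⟨h2, ?_, by linarith [h3.1.1], by linarith [h3.1.2]⟩
          have a1 := hR1 v.1 (clamp (ψ v.1) (χ v.1 (H v.2)))
          have a2 := mul_le_mul_of_nonneg_left (bd v.1 _ (H0 v.2)) hR
          refine a1.trans_lt ?_
          nlinarith
        all_goals exact absurd ‹(0 : ℝ) < 0› (lt_irrefl _)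

end Pool.Agent.Work.MP_bf98aa_gt.Pl
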