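import Pool.Agent.Work.MP_bf98aa_gt.Pl.PLb

/-!
Piecewise linear homeomorphisms. isPLH_of_bij: by PLOn.active and inj_of_injOn every point has an active piece with invertible linear part, so the norm of phi x is at least c |x| - C: phi is proper, hence closed, so the inverse
is continuous; its pieces are the inverses of the invertible pieces. shear: on the line y + R q the map is tau -> tau + psi; at a locally affine point the derivative is id + (d psi).smulRight q with determinant 1 + d psi q,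
which is positive because tau + psi (y + tau q) is strictly increasing and affine near 0. det_rank1: Matrix.det_one_add_replicateCol_mul_replicateRow after LinearMap.det_toMatrix, or det_one_add_mul_comm.
symm: at a generic z (gen_pull) the two derivatives are inverse to each other. two_piece: A' = A o (id + l u), so the map is A o bend.
-/

set_option autoImplicit false
set_option maxSynthPendingDepth 3
set_option linter.unusedSectionVars false
set_option linter.unusedVariables false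

open Set Filter Topology Metric

noncomputable section
namespace Pool.Agent.Work.MP_bf98aa_gt.Pl

open Pool.Agent.Work.MP_bf98aa_gt.Ns

variable {V V' F F' : Type} [NormedAddCommGroup V] [NormedSpace ℝ V] [NormedAddCommGroup V']
  [NormedSpace ℝ V'] [NormedAddCommGroup F] [NormedSpace ℝ F] [NormedAddCommGroup F']
  [NormedSpace ℝ F']
  [FiniteDimensional ℝ V] {φ ψ φ' ψ' : V → V}

theorem PLc_det2 (l l' : V →L[ℝ] ℝ) (u u' : V) :
    (ContinuousLinearMap.id ℝ V + l.smulRight u + l'.smulRight u').det =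
      (1 + l u) * (1 + l' u') - l u' * l' u := by
  classical
  let b := Module.finBasis ℝ V
  let P : Matrix (Fin (Module.finrank ℝ V)) (Fin 2) ℝ := fun i k => b.repr (![u, u'] k) i
  let Q : Matrix (Fin 2) (Fin (Module.finrank ℝ V)) ℝ := fun k j => ![l, l'] k (b j)
  have e : LinearMap.toMatrix b b
      (ContinuousLinearMap.id ℝ V + l.smulRight u + l'.smulRight u').toLinearMap = 1 + P * Q := by
    ext i j
    simp [LinearMap.toMatrix_apply, P, Q, Matrix.mul_apply, Fin.sum_univ_two, Matrix.one_apply,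
      Finsupp.single_apply, eq_comm, mul_comm, add_assoc]
  have e2 : ∀ k k', (Q * P) k k' = ![l, l'] k (![u, u'] k') := by
    intro k k'
    conv_rhs => rw [← b.sum_repr (![u, u'] k'), map_sum]
    simp only [Matrix.mul_apply, P, Q, map_smul, smul_eq_mul, mul_comm]
  rw [ContinuousLinearMap.det, ← LinearMap.det_toMatrix b, e, Matrix.det_one_add_mul_comm,
    Matrix.det_fin_two]
  simp [e2]

theorem PLc_add (A : V →ᴬ[ℝ] F) (y v : V) : A (y + v) = A y + A.contLinear v := by
  rw [add_comm y, add_comm (A y)]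
  exact A.map_vadd y v

theorem PLc_line (A : V →ᴬ[ℝ] F) (y v : V) (t : ℝ) : A (y + t • v) = A y + t • A.contLinear v := by
  rw [PLc_add, map_smul]

theorem PLc_one : (ContinuousLinearMap.id ℝ V).det = 1 := LinearMap.det_id

theorem PLc_unit {l : V →L[ℝ] ℝ} (hl : l ≠ 0) : ∃ v, l v = 1 := by
  obtain ⟨v, hv⟩ := DFunLike.ne_iff.1 hl
  exact ⟨(l v)⁻¹ • v, by rw [map_smul, smul_eq_mul, inv_mul_cancel₀ hv]⟩

theorem PLc_det_ne {A : V →L[ℝ] V} (h : Function.Injective A) : A.det ≠ 0 := fun e =>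
  LinearMap.det_eq_zero_iff_ker_ne_bot.1 e (LinearMap.ker_eq_bot.2 h)

theorem det_rank1 (l : V →L[ℝ] ℝ) (u : V) :
    (ContinuousLinearMap.id ℝ V + l.smulRight u).det = 1 + l u := by
  have := PLc_det2 l 0 u 0
  simpa using this

theorem det_rank2 (l l' : V →L[ℝ] ℝ) (u u' : V) :
    (ContinuousLinearMap.id ℝ V + l.smulRight u + l'.smulRight u').det =
      (1 + l u) * (1 + l' u') - l u' * l' u := by
  exact PLc_det2 l l' u u'

theorem det_comp' (A B : V →L[ℝ] V) : (A.comp B).det = A.det * B.det := by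
  exact LinearMap.det_comp A.toLinearMap B.toLinearMap

theorem bij_of_det {A : V →L[ℝ] V} (h : A.det ≠ 0) : Function.Bijective A := by
  exact (A.toContinuousLinearEquivOfDetNeZero h).bijective

theorem det_prodMap_id (A : V →L[ℝ] V) :
    (A.prodMap (ContinuousLinearMap.id ℝ ℝ)).det = A.det := by
  have := LinearMap.det_prodMap A.toLinearMap (LinearMap.id : ℝ →ₗ[ℝ] ℝ)
  rw [LinearMap.det_id, mul_one] at this
  exact this

theorem det_plane (l l' : ℝ × ℝ →L[ℝ] ℝ) :
    (l.prod l').det = l (1, 0) * l' (0, 1) - l (0, 1) * l' (1, 0) := by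
  rw [ContinuousLinearMap.det, ← LinearMap.det_toMatrix (Module.Basis.finTwoProd ℝ),
    Matrix.det_fin_two]
  simp [LinearMap.toMatrix_apply]

theorem aff_inv (A : V →ᴬ[ℝ] V) (h : A.contLinear.det ≠ 0) : ∃ A' : V →ᴬ[ℝ] V,
    (∀ y, A' (A y) = y) ∧ (∀ y, A (A' y) = y) ∧ A'.contLinear.det * A.contLinear.det = 1 ∧
    A'.contLinear.comp A.contLinear = ContinuousLinearMap.id ℝ V ∧
    A.contLinear.comp A'.contLinear = ContinuousLinearMap.id ℝ V := by
  let e := A.contLinear.toContinuousLinearEquivOfDetNeZero h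
  let A' : V →ᴬ[ℝ] V := (e.symm : V →L[ℝ] V).toContinuousAffineMap.comp
    (ContinuousAffineMap.id ℝ V - ContinuousAffineMap.const ℝ V (A 0))
  have a0 : ∀ y, A y = A 0 + e y := fun y => by
    have := PLc_add A 0 y
    rwa [zero_add] at this
  have a1 : ∀ y, A' y = e.symm (y - A 0) := fun y => rfl
  have a2 : A'.contLinear = e.symm := by
    ext y
    have := A'.contLinear_map_vsub y 0
    rw [vsub_eq_sub, vsub_eq_sub, sub_zero, a1, a1, ← map_sub, sub_sub_sub_cancel_right,
      sub_zero] at this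
    exact this
  have a3 : A'.contLinear.comp A.contLinear = ContinuousLinearMap.id ℝ V := by
    rw [a2]
    ext y
    exact e.symm_apply_apply y
  refine ⟨A', fun y => ?_, fun y => ?_, by rw [← det_comp', a3, PLc_one], a3, ?_⟩
  · rw [a1, a0 y, add_sub_cancel_left, e.symm_apply_apply]
  · rw [a0, a1, e.apply_symm_apply, add_sub_cancel]
  · rw [a2]
    ext y
    exact e.apply_symm_apply y

theorem isPLH_of_bij (h : PL φ) (hb : Function.Bijective φ)
    (hp : ∀ᶠ y in gen V, 0 < (fderiv ℝ φ y).det) : ∃ ψ, IsPLH φ ψ := by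
  obtain ⟨𝒜, hf, hA⟩ := PLOn.active isOpen_univ h
  have key : ∀ A : V →ᴬ[ℝ] V, ∃ A' : V →ᴬ[ℝ] V, (∃ y', φ =ᶠ[𝓝 y'] A) → ∀ y, A' (A y) = y := by
    intro A
    by_cases k : ∃ y', φ =ᶠ[𝓝 y'] A
    · obtain ⟨y', k⟩ := k
      obtain ⟨A', a1, -⟩ := aff_inv A (PLc_det_ne (inj_of_injOn A k fun x hx x' hx' e =>
        hb.1 (hx.trans (e.trans hx'.symm))))
      exact ⟨A', fun _ => a1⟩
    · exact ⟨A, fun k' => absurd k' k⟩
  choose I hI using key
  have a1 : ∀ y, ∃ B ∈ I '' 𝒜, y = B (φ y) := fun y => by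
    obtain ⟨A, b1, b2, y', -, b3⟩ := hA y (mem_univ y)
    exact ⟨I A, mem_image_of_mem I b1, by rw [b2, hI A ⟨y', b3⟩]⟩
  have hc := h.continuous
  have a2 : IsClosedMap φ := by
    refine (isProperMap_iff_isCompact_preimage.2 ⟨hc, fun K hK => ?_⟩).isClosedMap
    refine ((hf.image I).isCompact_biUnion fun B _ => hK.image B.continuous).of_isClosed_subset
      (hK.isClosed.preimage hc) fun y hy => ?_
    obtain ⟨B, b1, b2⟩ := a1 y
    exact mem_biUnion b1 ⟨φ y, hy, b2.symm⟩
  obtain ⟨ψ, l, r⟩ := Function.bijective_iff_has_inverse.1 hb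
  refine ⟨ψ, h, ⟨(continuous_iff_isClosed.2 fun C hC => ?_).continuousOn, I '' 𝒜, hf.image I,
    fun z _ => ?_⟩, l, r, hp⟩
  · rw [← image_eq_preimage_of_inverse l r]
    exact a2 C hC
  · have := a1 (ψ z)
    rwa [r z] at this

theorem IsPLH.gen_pull (h : IsPLH φ ψ) {p : V → Prop} (hp : ∀ᶠ z in gen V, p z) :
    ∀ᶠ y in gen V, p (φ y) := by
  refine (Pl.gen_pull isOpen_univ ?_ hp).mono fun y k => k (mem_univ y)
  filter_upwards [h.pl.gen_locAff, h.pos] with y a b _ using ⟨a, (bij_of_det b.ne').2⟩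

theorem isPLH_refl : IsPLH (fun y : V => y) fun y => y := by
  refine ⟨plOn_id _, plOn_id _, fun _ => rfl, fun _ => rfl, Eventually.of_forall fun y => ?_⟩
  rw [fderiv_fun_id, PLc_one]
  exact one_pos

theorem IsPLH.comp (h' : IsPLH φ' ψ') (h : IsPLH φ ψ) :
    IsPLH (fun y => φ' (φ y)) fun y => ψ (ψ' y) := by
  refine ⟨h'.pl.comp h.pl, h.pl'.comp h'.pl', fun y => by rw [h'.left, h.left],
    fun y => by rw [h.right, h'.right], ?_⟩
  filter_upwards [h.pl.gen_locAff, h.pos, h.gen_pull (h'.pl.gen_locAff.and h'.pos)] with y a b c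
  rw [c.1.fderiv_comp a, det_comp']
  exact mul_pos c.2 b

theorem IsPLH.symm (h : IsPLH φ ψ) : IsPLH ψ φ := by
  refine ⟨h.pl', h.pl, h.right, h.left, ?_⟩
  have a1 : ∀ᶠ z in gen V, z ∈ univ → LocAff ψ z ∧ Function.Surjective (fderiv ℝ ψ z) := by
    filter_upwards [h.pl'.gen_locAff] with z a _
    obtain ⟨A, b1, b2⟩ := a.exists_aff
    rw [b2]
    exact ⟨a, (bij_of_det (PLc_det_ne (inj_of_injOn A b1 fun x hx x' hx' e =>
      Function.LeftInverse.injective h.right (hx.trans (e.trans hx'.symm))))).2⟩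
  filter_upwards [a1, Pl.gen_pull isOpen_univ a1 (h.pl.gen_locAff.and h.pos)] with z a b
  obtain ⟨b1, b2⟩ := b (mem_univ z)
  have e := congrArg ContinuousLinearMap.det (b1.fderiv_comp (a (mem_univ z)).1)
  simp only [h.right] at e
  rw [fderiv_fun_id, PLc_one, det_comp'] at e
  exact (mul_pos_iff_of_pos_left b2).1 (e ▸ one_pos)

theorem IsPLH.injective (h : IsPLH φ ψ) : Function.Injective φ := by
  exact Function.LeftInverse.injective h.left

theorem IsPLH.isOpenMap (h : IsPLH φ ψ) : IsOpenMap φ := by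
  intro U hU
  rw [image_eq_preimage_of_inverse h.left h.right]
  exact hU.preimage h.pl'.continuous

theorem IsPLH.image_eq (h : IsPLH φ ψ) (S : Set V) : φ '' S = ψ ⁻¹' S := by
  rw [image_eq_preimage_of_inverse h.left h.right]

theorem isPLH_aff (A : V →ᴬ[ℝ] V) (h : 0 < A.contLinear.det) : ∃ A' : V →ᴬ[ℝ] V, IsPLH A A' := by
  obtain ⟨A', a1, a2, -⟩ := aff_inv A h.ne'
  exact ⟨A', plOn_aff _ _, plOn_aff _ _, a1, a2, Eventually.of_forall fun y => by rwa [A.fderiv]⟩

theorem shear {u : V → ℝ} (hu : PL u) (q : V)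
    (hm : ∀ y, StrictMono fun τ : ℝ => τ + u (y + τ • q))
    (hs : ∀ y, Function.Surjective fun τ : ℝ => τ + u (y + τ • q)) :
    ∃ ψ, IsPLH (fun y => y + u y • q) ψ := by
  refine isPLH_of_bij ((plOn_id _).add (hu.smul_const q)) ⟨fun y y' e => ?_, fun z => ?_⟩ ?_
  · have a1 : y + (u y - u y') • q = y' := by
      rw [sub_smul, ← add_sub_assoc, show y + u y • q = y' + u y' • q from e, add_sub_cancel_right]
    have a2 : u y - u y' = 0 := (hm y).injective (by simp only [a1, zero_smul, add_zero]; ring)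
    rw [← a1, a2, zero_smul, add_zero]
  · obtain ⟨τ, hτ⟩ := hs z 0
    refine ⟨z + τ • q, ?_⟩
    simp only at hτ ⊢
    rw [add_assoc, ← add_smul, hτ, zero_smul, add_zero]
  · filter_upwards [hu.gen_locAff] with y ⟨A, hA⟩
    have d : HasFDerivAt (fun y => y + u y • q)
        (ContinuousLinearMap.id ℝ V + A.contLinear.smulRight q) y :=
      (hasFDerivAt_id y).add ((A.hasFDerivAt.congr_of_eventuallyEq hA).smul_const q)
    rw [d.fderiv, det_rank1]
    have t : Tendsto (fun τ : ℝ => y + τ • q) (𝓝[>] 0) (𝓝 y) := by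
      refine Tendsto.mono_left ?_ nhdsWithin_le_nhds
      exact Continuous.tendsto' (by fun_prop) _ _ (by simp)
    obtain ⟨τ, a1, a2⟩ := ((t.eventually hA).and self_mem_nhdsWithin).exists
    have a3 := hm y (show (0 : ℝ) < τ from a2)
    simp only [zero_smul, add_zero, zero_add] at a3
    rw [a1, hA.self_of_nhds, PLc_line, smul_eq_mul] at a3
    exact (mul_pos_iff_of_pos_left (show (0 : ℝ) < τ from a2)).1 (by linarith)

theorem shear_bdd {u : V → ℝ} (hu : PL u) (q : V)
    (hm : ∀ y, StrictMono fun τ : ℝ => τ + u (y + τ • q))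
    (hs : ∀ y, ∃ C, ∀ τ : ℝ, |u (y + τ • q)| ≤ C) : ∃ ψ, IsPLH (fun y => y + u y • q) ψ := by
  refine shear hu q hm fun y => ?_
  obtain ⟨C, hC⟩ := hs y
  have c := hu.continuous
  refine Continuous.surjective (by fun_prop) ?_ ?_
  · exact tendsto_atTop_mono (fun τ => add_le_add le_rfl (abs_le.1 (hC τ)).1)
      (tendsto_atTop_add_const_right _ (-C) tendsto_id)
  · exact tendsto_atBot_mono (fun τ => add_le_add le_rfl (abs_le.1 (hC τ)).2)
      (tendsto_atBot_add_const_right _ C tendsto_id)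

theorem shear_snd {k : ℝ × ℝ → ℝ} (hk : PL k) (hm : ∀ x, StrictMono fun s => k (x, s))
    (hs : ∀ x, Function.Surjective fun s => k (x, s)) :
    ∃ ψ, IsPLH (fun u : ℝ × ℝ => (u.1, k u)) ψ := by
  have e : ∀ (y : ℝ × ℝ) (τ : ℝ), τ + (k (y + τ • (0, 1)) - (y + τ • ((0, 1) : ℝ × ℝ)).2) =
      k (y.1, y.2 + τ) - y.2 := fun y τ => by
    rw [show y + τ • ((0, 1) : ℝ × ℝ) = (y.1, y.2 + τ) by ext <;> simp]
    ring
  obtain ⟨ψ, h⟩ := shear (u := fun v => k v - v.2) (hk.sub (plOn_snd _)) (0, 1)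
    (fun y a b hab => by simp only [e]; exact sub_lt_sub_right (hm y.1 (by linarith)) _)
    fun y z => by
      obtain ⟨s, h⟩ := hs y.1 (z + y.2)
      refine ⟨s - y.2, ?_⟩
      simp only [e, add_sub_cancel] at h ⊢
      linarith
  have e' : (fun u : ℝ × ℝ => (u.1, k u)) = fun y => y + (k y - y.2) • ((0, 1) : ℝ × ℝ) := by
    ext <;> simp
  exact ⟨ψ, e' ▸ h⟩

theorem shear_fst {k : ℝ × ℝ → ℝ} (hk : PL k) (hm : ∀ s, StrictMono fun x => k (x, s))
    (hs : ∀ s, Function.Surjective fun x => k (x, s)) :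
    ∃ ψ, IsPLH (fun u : ℝ × ℝ => (k u, u.2)) ψ := by
  have e : ∀ (y : ℝ × ℝ) (τ : ℝ), τ + (k (y + τ • (1, 0)) - (y + τ • ((1, 0) : ℝ × ℝ)).1) =
      k (y.1 + τ, y.2) - y.1 := fun y τ => by
    rw [show y + τ • ((1, 0) : ℝ × ℝ) = (y.1 + τ, y.2) by ext <;> simp]
    ring
  obtain ⟨ψ, h⟩ := shear (u := fun v => k v - v.1) (hk.sub (plOn_fst _)) (1, 0)
    (fun y a b hab => by simp only [e]; exact sub_lt_sub_right (hm y.2 (by linarith)) _)
    fun y z => by
      obtain ⟨s, h⟩ := hs y.2 (z + y.1)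
      refine ⟨s - y.1, ?_⟩
      simp only [e, add_sub_cancel] at h ⊢
      linarith
  have e' : (fun u : ℝ × ℝ => (k u, u.2)) = fun y => y + (k y - y.1) • ((1, 0) : ℝ × ℝ) := by
    ext <;> simp
  exact ⟨ψ, e' ▸ h⟩

theorem bend (l : V →ᴬ[ℝ] ℝ) (u : V) (h : 0 < 1 + l.contLinear u) :
    ∃ ψ, IsPLH (fun y => y + max (l y) 0 • u) ψ := by
  have e : ∀ y (τ : ℝ), τ + max (l (y + τ • u)) 0 = max (l y + τ * (1 + l.contLinear u)) τ :=
    fun y τ => by
      rw [PLc_line, smul_eq_mul, ← max_add_add_left]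
      congr 1 <;> ring
  refine shear (u := fun y => max (l y) 0) ((plOn_aff l _).max (plOn_const 0 _)) u
    (fun y a b hab => ?_) fun y z => ?_
  · simp only [e]
    exact max_lt_max (by linarith [mul_lt_mul_of_pos_right hab h]) hab
  · have a1 := div_mul_cancel₀ (z - l y) h.ne'
    rcases le_total ((z - l y) / (1 + l.contLinear u)) z with k | k
    · refine ⟨(z - l y) / (1 + l.contLinear u), ?_⟩
      simp only [e, a1, add_sub_cancel]
      exact max_eq_left k
    · refine ⟨z, ?_⟩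
      simp only [e]
      exact max_eq_right (by linarith [mul_le_mul_of_nonneg_right k h.le])

theorem two_piece (A A' : V →ᴬ[ℝ] V) (hA : 0 < A.contLinear.det) (hA' : 0 < A'.contLinear.det)
    (l : V →ᴬ[ℝ] ℝ) (hl : l.contLinear ≠ 0) (e : ∀ y, l y = 0 → A y = A' y) :
    ∃ ψ, IsPLH (fun y => if l y ≤ 0 then A y else A' y) ψ := by
  obtain ⟨v, hv⟩ := PLc_unit hl
  obtain ⟨u, hu⟩ := (bij_of_det hA.ne').2 (A'.contLinear v - A.contLinear v)
  have a1 : ∀ y, A' y = A (y + l y • u) := fun y => by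
    have b1 := e (y + (-l y) • v) (by rw [PLc_line, hv]; simp)
    rw [PLc_line, PLc_line, neg_smul, neg_smul] at b1
    rw [PLc_line, hu, smul_sub, add_sub, eq_sub_iff_add_eq, ← add_neg_eq_iff_eq_add,
      add_right_comm, ← b1, neg_add_cancel_right]
  have a2 : A'.contLinear =
      A.contLinear.comp (ContinuousLinearMap.id ℝ V + l.contLinear.smulRight u) := by
    ext y
    have b1 := PLc_add A' 0 y
    rw [a1, a1, PLc_add l, add_smul, add_add_add_comm, PLc_add] at b1
    exact (add_left_cancel b1).symm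
  rw [a2, det_comp', det_rank1] at hA'
  obtain ⟨ψ, h⟩ := bend l u ((mul_pos_iff_of_pos_left hA).1 hA')
  obtain ⟨B, hB⟩ := isPLH_aff A hA
  have e' : (fun y => if l y ≤ 0 then A y else A' y) = fun y => A (y + max (l y) 0 • u) := by
    funext y
    split_ifs with k
    · rw [max_eq_right k, zero_smul, add_zero]
    · rw [max_eq_left (not_le.1 k).le, a1]
  exact ⟨_, e' ▸ hB.comp h⟩

theorem side_of_det {A A' : V →L[ℝ] V} (h : 0 < A.det * A'.det) (l : V →L[ℝ] ℝ)
    (e : ∀ y, l (A y) = 0 → A' y = A y) : ∃ c : ℝ, 0 < c ∧ ∀ y, l (A' y) = c * l (A y) := by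
  by_cases hl : l.comp A = 0
  · exact ⟨1, one_pos, fun y => by rw [e y (DFunLike.congr_fun hl y), one_mul]⟩
  obtain ⟨v, hv⟩ := PLc_unit hl
  change l (A v) = 1 at hv
  have a1 : A' = (ContinuousLinearMap.id ℝ V + l.smulRight (A' v - A v)).comp A := by
    ext y
    have b1 := e (y - l (A y) • v) (by simp [hv])
    rw [map_sub, map_sub, map_smul, map_smul, sub_eq_iff_eq_add] at b1
    change A' y = A y + l (A y) • (A' v - A v)
    rw [b1, smul_sub]
    abel
  have a2 := congrArg ContinuousLinearMap.det a1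
  rw [det_comp', det_rank1] at a2
  refine ⟨1 + l (A' v - A v), ?_, fun y => ?_⟩
  · rw [a2] at h
    by_contra k
    nlinarith [mul_self_nonneg A.det, not_lt.1 k]
  · have b1 : A' y = A y + l (A y) • (A' v - A v) := DFunLike.congr_fun a1 y
    rw [b1, map_add, map_smul, smul_eq_mul]
    ring

end Pool.Agent.Work.MP_bf98aa_gt.Pl
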