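import Pool.Agent.Work.MP_bf98aa_gt.Pl.ProfA
import Pool.Agent.Work.MP_bf98aa_gt.Pl.PLc

/-!
The plane computation on the sleeve. For generic u in targ with e1 > 0 one has -delta < u.2 < 0 and u.1 < eta, so near u: e1 = eta - u.1, a = ca = 1 - 4 (eta - u.1)/eta, b = cb = 2 u.2/delta + 1 with |b| < 1, r2 = eta/2 (1 + max |a| |b|),
and generically a, b, a - b, a + b do not vanish (gen_ne). With da = (4/eta) fst, db = (2/delta) snd there are four sectors. max = a: d r2 = (eta/2) da, take gamma0 = db; max = -a: gamma0 = -db; max = b: gamma0 = -da; max = -b: gamma0 = da (det_plane).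
d gee = (delta/2) db, -(L/6) db, -(L/6) da, (L/6) da; d phi = da, -da, db, -db where the function is positive, and phi i = 0 near u otherwise (then take al' i = be' i = 0). The distinguished index is 0, 1, 2, 3 in the four sectors, for the other indices with
phi i > 0 one has be i = 0. It may be convenient to prove one lemma for abstract affine functions a, b of the plane with det (da, db) > 0.
gen_clamp: the closed sets |u| <= b, b <= u, u <= -b cover; gen_closed.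
-/

set_option autoImplicit false
set_option maxSynthPendingDepth 3
set_option linter.unusedSectionVars false
set_option linter.unusedVariables false

open Set Filter Topology Metric

noncomputable section
namespace Pool.Agent.Work.MP_bf98aa_gt.Pl

open Pool.Agent.Work.MP_bf98aa_gt.Ns

theorem gen_clamp {V : Type} [TopologicalSpace V] {u b : V → ℝ} (hu : Continuous u)
    (hb : Continuous b) (h0 : ∀ v, 0 ≤ b v) : ∀ᶠ v in gen V,
    ((fun v => clamp (u v) (b v)) =ᶠ[𝓝 v] u) ∨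
    (((fun v => clamp (u v) (b v)) =ᶠ[𝓝 v] b) ∧ b v ≤ u v) ∨
    (((fun v => clamp (u v) (b v)) =ᶠ[𝓝 v] fun v => -b v) ∧ u v ≤ -b v) := by
  filter_upwards [gen_closed (isClosed_le hu.abs hb), gen_closed (isClosed_le hb hu),
    gen_closed (isClosed_le hu hb.neg)] with v h1 h2 h3
  by_cases c2 : b v ≤ u v
  · exact Or.inr (Or.inl ⟨mem_of_superset (mem_interior_iff_mem_nhds.1 (h2 c2))
      fun z hz => clamp_top (h0 z) hz, c2⟩)
  by_cases c3 : u v ≤ -b v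
  · exact Or.inr (Or.inr ⟨mem_of_superset (mem_interior_iff_mem_nhds.1 (h3 c3))
      fun z hz => clamp_bot (h0 z) hz, c3⟩)
  · exact Or.inl (mem_of_superset (mem_interior_iff_mem_nhds.1
      (h1 (abs_le.2 ⟨(not_le.1 c3).le, (not_le.1 c2).le⟩))) fun z hz => clamp_of_le hz)

theorem M5_a (η : ℝ) : PL fun u : ℝ × ℝ => ca η (e1 η u) :=
  (plOn_const 1 _).sub ((((((plOn_const η _).sub (plOn_fst _)).sub
    ((plOn_snd _).max (plOn_const 0 _))).max (plOn_const 0 _)).const_mul 4).div_const η)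

theorem M5_b (δ : ℝ) : PL fun u : ℝ × ℝ => cb δ u.2 :=
  ((((plOn_snd _).const_mul 2).div_const δ).add (plOn_const 1 _)).clamp (plOn_const 1 _)

theorem pl_gee (η δ L : ℝ) (i : Fin 4) :
    PL fun u : ℝ × ℝ => gee L u.2 (ca η (e1 η u)) (cb δ u.2) i := by
  fin_cases i
  exacts [plOn_snd _, (M5_b δ).const_mul _, (M5_a η).const_mul _, (M5_a η).const_mul _]

theorem pl_phi (η δ : ℝ) (i : Fin 4) :
    PL fun u : ℝ × ℝ => phi (ca η (e1 η u)) (cb δ u.2) i := by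
  fin_cases i
  exacts [(M5_a η).max (plOn_const 0 _), (M5_a η).neg.max (plOn_const 0 _),
    (M5_b δ).max (plOn_const 0 _), (M5_b δ).neg.max (plOn_const 0 _)]

theorem phi_nonneg (a b : ℝ) (i : Fin 4) : 0 ≤ phi a b i := by
  fin_cases i <;> exact le_max_right _ _

theorem M5_box {η δ : ℝ} (hη' : η ≤ 1 / 8) {u : ℝ × ℝ} (h : u ∈ targ η δ) (h' : 0 < e1 η u) :
    -δ ≤ u.2 ∧ u.2 ≤ 0 ∧ η / 2 ≤ u.1 ∧ u.1 < η := by
  obtain ⟨-, h2, h3, h4⟩ := h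
  have h5 : 0 < η - u.1 - max u.2 0 := (lt_max_iff.1 h').resolve_right (lt_irrefl _)
  have h6 := le_max_left u.2 0
  have h7 : u.2 ≤ 0 := by
    rcases le_max_iff.1 h2 with h | h <;> linarith
  rw [max_eq_right h7] at h4 h5
  exact ⟨by linarith [le_max_right (u.1 + u.2 - 1) (-u.2)], h7, by linarith, by linarith⟩

theorem M5_e1 {η : ℝ} {u : ℝ × ℝ} (h1 : u.2 ≤ 0) (h2 : u.1 ≤ η) : e1 η u = η - u.1 := by
  rw [e1, max_eq_right h1, sub_zero, max_eq_left (sub_nonneg.2 h2)]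

theorem sleeve_box {η δ : ℝ} (hη : 0 < η) (hη' : η ≤ 1 / 8) (hδ : 0 < δ) {u : ℝ × ℝ}
    (h : u ∈ targ η δ) (h' : 0 < e1 η u) : -δ ≤ u.2 ∧ u.2 ≤ 0 ∧ r2 η δ u ≤ η := by
  obtain ⟨h1, h2, h3, h4⟩ := M5_box hη' h h'
  refine ⟨h1, h2, ?_⟩
  have h5 : |ca η (e1 η u)| ≤ 1 := by
    have a1 : 4 * (η - u.1) / η ≤ 2 := by rw [div_le_iff₀ hη]; linarith
    have a2 : 0 ≤ 4 * (η - u.1) / η := div_nonneg (by linarith) hη.le
    rw [M5_e1 h2 h4.le, ca, abs_le]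
    constructor <;> linarith
  have h6 := sub_nonneg.2 (max_le h5 (abs_clamp_le (u := 2 * u.2 / δ + 1) zero_le_one))
  have h7 := mul_nonneg (half_pos hη).le h6
  rw [r2, cb]
  linarith [M5_e1 h2 h4.le]

/-- the area form on covectors of the plane -/
def M5_w (l l' : ℝ × ℝ →L[ℝ] ℝ) : ℝ := l (1, 0) * l' (0, 1) - l (0, 1) * l' (1, 0)

theorem M5_dec (r γ l : ℝ × ℝ →L[ℝ] ℝ) (h : M5_w r γ ≠ 0) :
    l = (M5_w l γ / M5_w r γ) • r + (M5_w r l / M5_w r γ) • γ := by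
  have e : ∀ (k : ℝ × ℝ →L[ℝ] ℝ) (v : ℝ × ℝ), k v = v.1 * k (1, 0) + v.2 * k (0, 1) := by
    intro k v
    rw [← smul_eq_mul, ← smul_eq_mul, ← map_smul, ← map_smul, ← map_add]
    simp
  refine ContinuousLinearMap.ext fun v => ?_
  change l v = M5_w l γ / M5_w r γ * r v + M5_w r l / M5_w r γ * γ v
  rw [e l v, e r v, e γ v]
  field_simp
  simp only [M5_w]
  ring

theorem M5_abs {r : ℝ × ℝ →L[ℝ] ℝ} {G P : Fin 4 → ℝ × ℝ →L[ℝ] ℝ} {Z : Fin 4 → Prop}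
    {x : Fin 4 → ℝ} (j : Fin 4) (h1 : 0 < x j) (h2 : 0 < M5_w r (G j))
    (h3 : ∀ i, Z i ∨ (0 < x i ∧ 0 ≤ M5_w r (G i) ∧ 0 < M5_w (P i) (G i))) :
    ∃ (γ0 : ℝ × ℝ →L[ℝ] ℝ) (α β α' β' : Fin 4 → ℝ), 0 < (r.prod γ0).det ∧
      (∀ i, G i = α i • r + β i • γ0) ∧ (∀ i, P i = α' i • r + β' i • γ0) ∧
      (∀ i, Z i ∨ (0 < x i ∧ 0 ≤ β i ∧ 0 < β i * α' i - α i * β' i)) ∧
      ∃ i, 0 < x i ∧ 0 < β i := by
  refine ⟨G j, _, _, _, _, det_plane r (G j) ▸ h2, fun i => M5_dec r (G j) (G i) h2.ne',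
    fun i => M5_dec r (G j) (P i) h2.ne', fun i => (h3 i).imp_right fun h =>
      ⟨h.1, div_nonneg h.2.1 h2.le, (div_pos h.2.2 h2).trans_eq ?_⟩, j, h1, div_pos h2 h2⟩
  have h4 := h2.ne'
  field_simp
  simp only [M5_w]
  ring

theorem M5_gen (l : ℝ × ℝ →L[ℝ] ℝ) (c : ℝ) (h : ∃ y, l y + c ≠ 0) :
    ∀ᶠ u in gen (ℝ × ℝ), l u + c ≠ 0 := by
  obtain ⟨A, e⟩ : ∃ A : (ℝ × ℝ) →ᴬ[ℝ] ℝ, ∀ y, A y = l y + c :=
    ⟨l.toContinuousAffineMap + ContinuousAffineMap.const ℝ (ℝ × ℝ) c, fun y => by simp⟩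
  simp only [← e] at h ⊢
  exact PLb_aff_ne A h

theorem M5_fd {f : ℝ × ℝ → ℝ} {u : ℝ × ℝ} (l : ℝ × ℝ →L[ℝ] ℝ) (c : ℝ)
    (h : ∀ᶠ v in 𝓝 u, f v = l v + c) : fderiv ℝ f u = l :=
  (EventuallyEq.fderiv_eq h).trans (l.hasFDerivAt.add_const c).fderiv

/-- the linear parts of `a, -a, b, -b` -/
def M5_P (η δ : ℝ) : Fin 4 → ℝ × ℝ →L[ℝ] ℝ :=
  ![(4 / η) • .fst ℝ ℝ ℝ, -(4 / η) • .fst ℝ ℝ ℝ, (2 / δ) • .snd ℝ ℝ ℝ, -(2 / δ) • .snd ℝ ℝ ℝ]

/-- their constant parts -/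
def M5_c : Fin 4 → ℝ := ![-3, 3, 1, -1]

/-- the linear parts of the functions `gee` -/
def M5_G (η δ L : ℝ) : Fin 4 → ℝ × ℝ →L[ℝ] ℝ :=
  ![.snd ℝ ℝ ℝ, -(L / 6 * (2 / δ)) • .snd ℝ ℝ ℝ, -(L / 6 * (4 / η)) • .fst ℝ ℝ ℝ,
    (L / 6 * (4 / η)) • .fst ℝ ℝ ℝ]

theorem M5_val {η δ : ℝ} (hη : 0 < η) (hδ : 0 < δ) {v : ℝ × ℝ} (h1 : -δ ≤ v.2) (h2 : v.2 ≤ 0)
    (h3 : v.1 ≤ η) : ca η (e1 η v) = 4 / η * v.1 - 3 ∧ cb δ v.2 = 2 / δ * v.2 + 1 := by
  constructor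
  · rw [M5_e1 h2 h3, ca]
    field_simp
    ring
  · have a1 : -2 ≤ 2 * v.2 / δ := by rw [le_div_iff₀ hδ]; linarith
    have a2 : 2 * v.2 / δ ≤ 0 := div_nonpos_of_nonpos_of_nonneg (by linarith) hδ.le
    rw [cb, clamp_of_le (abs_le.2 ⟨by linarith, by linarith⟩)]
    ring

theorem M5_phi (η δ : ℝ) (v : ℝ × ℝ) (i : Fin 4) :
    phi (4 / η * v.1 - 3) (2 / δ * v.2 + 1) i = max (M5_P η δ i v + M5_c i) 0 := by
  fin_cases i <;> simp [phi, M5_P, M5_c, sub_eq_add_neg, add_comm]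

theorem M5_gee (η δ L : ℝ) (v : ℝ × ℝ) (i : Fin 4) :
    gee L v.2 (4 / η * v.1 - 3) (2 / δ * v.2 + 1) i =
      M5_G η δ L i v + ![0, -(L / 6), L / 2, -(L / 2)] i := by
  fin_cases i <;> simp [gee, M5_G] <;> ring

theorem M5_max {η δ : ℝ} {v : ℝ × ℝ} {j : Fin 4}
    (h : ∀ i, M5_P η δ i v + M5_c i ≤ M5_P η δ j v + M5_c j) :
    max |4 / η * v.1 - 3| |2 / δ * v.2 + 1| = M5_P η δ j v + M5_c j := by
  have e : ∀ i, M5_P η δ i v + M5_c i = ![4 / η * v.1 - 3, -(4 / η * v.1 - 3), 2 / δ * v.2 + 1,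
      -(2 / δ * v.2 + 1)] i := fun i => by
    fin_cases i <;> simp [M5_P, M5_c, sub_eq_add_neg, add_comm]
  refine le_antisymm (max_le (abs_le'.2 ⟨?_, ?_⟩) (abs_le'.2 ⟨?_, ?_⟩)) ?_
  · exact (e 0).symm.trans_le (h 0)
  · exact (e 1).symm.trans_le (h 1)
  · exact (e 2).symm.trans_le (h 2)
  · exact (e 3).symm.trans_le (h 3)
  · rw [e]
    fin_cases j
    exacts [le_max_of_le_left (le_abs_self _), le_max_of_le_left (neg_le_abs _),
      le_max_of_le_right (le_abs_self _), le_max_of_le_right (neg_le_abs _)]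

theorem M5_pos {η δ L : ℝ} (hη : 0 < η) (hδ : 0 < δ) (hL : 0 < L) (i : Fin 4) :
    0 < M5_w (M5_P η δ i) (M5_G η δ L i) := by
  fin_cases i <;> simp [M5_w, M5_P, M5_G] <;> positivity

theorem M5_nn {η δ L : ℝ} (hη : 0 < η) (hδ : 0 < δ) (hL : 0 < L) {v : ℝ × ℝ} {i j : Fin 4}
    (hi : 0 < M5_P η δ i v + M5_c i) (hj : 0 < M5_P η δ j v + M5_c j) :
    0 ≤ M5_w (M5_P η δ j) (M5_G η δ L i) := by
  by_cases h : i = j
  · exact h ▸ (M5_pos hη hδ hL i).le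
  fin_cases i <;> fin_cases j <;> simp [M5_w, M5_P, M5_G, M5_c] at h hi hj ⊢ <;> linarith

theorem sector {η δ L : ℝ} (hη : 0 < η) (hη' : η ≤ 1 / 8) (hδ : 0 < δ) (hL : 0 < L) :
    ∀ᶠ u in gen (ℝ × ℝ), u ∈ targ η δ → 0 < e1 η u →
      ∃ (γ0 : ℝ × ℝ →L[ℝ] ℝ) (α β α' β' : Fin 4 → ℝ),
        0 < ((fderiv ℝ (r2 η δ) u).prod γ0).det ∧
        (∀ i, fderiv ℝ (fun u : ℝ × ℝ => gee L u.2 (ca η (e1 η u)) (cb δ u.2) i) u =
          α i • fderiv ℝ (r2 η δ) u + β i • γ0) ∧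
        (∀ i, fderiv ℝ (fun u : ℝ × ℝ => phi (ca η (e1 η u)) (cb δ u.2) i) u =
          α' i • fderiv ℝ (r2 η δ) u + β' i • γ0) ∧
        (∀ i, (∀ᶠ u' in 𝓝 u, phi (ca η (e1 η u')) (cb δ u'.2) i = 0) ∨
          (0 < phi (ca η (e1 η u)) (cb δ u.2) i ∧ 0 ≤ β i ∧ 0 < β i * α' i - α i * β' i)) ∧
        ∃ i, 0 < phi (ca η (e1 η u)) (cb δ u.2) i ∧ 0 < β i := by
  have g1 : ∀ i, ∀ᶠ u in gen (ℝ × ℝ), M5_P η δ i u + M5_c i ≠ 0 := fun i =>
    M5_gen _ _ ⟨0, by fin_cases i <;> simp [M5_c]⟩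
  have g2 : ∀ i k, ∀ᶠ u in gen (ℝ × ℝ), i ≠ k →
      (M5_P η δ i - M5_P η δ k) u + (M5_c i - M5_c k) ≠ 0 := fun i k => by
    by_cases h : i = k
    · exact Eventually.of_forall fun _ h' => absurd h h'
    · refine (M5_gen _ _ ⟨0, ?_⟩).mono fun _ h' _ => h'
      fin_cases i <;> fin_cases k <;> simp [M5_c] at h ⊢ <;> norm_num
  filter_upwards [eventually_all.2 g1, eventually_all.2 fun i => eventually_all.2 (g2 i),
    M5_gen (.snd ℝ ℝ ℝ) 0 ⟨(0, 1), by simp⟩, M5_gen (.snd ℝ ℝ ℝ) δ ⟨0, by simp [hδ.ne']⟩]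
    with u k1 k2 k3 k4 hu he
  obtain ⟨b1, b2, -, b4⟩ := M5_box hη' hu he
  have b5 : -δ < u.2 := lt_of_le_of_ne b1 fun h => k4 (by simp [← h])
  have b6 : u.2 < 0 := lt_of_le_of_ne b2 fun h => k3 (by simp [h])
  have E : ∀ᶠ v : ℝ × ℝ in 𝓝 u, -δ < v.2 ∧ v.2 < 0 ∧ v.1 < η :=
    (continuous_snd.continuousAt.eventually (lt_mem_nhds b5)).and
      ((continuous_snd.continuousAt.eventually (gt_mem_nhds b6)).and
        (continuous_fst.continuousAt.eventually (gt_mem_nhds b4)))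
  have E1 := E.mono fun v h => M5_val hη hδ h.1.le h.2.1.le h.2.2.le
  have E2 : ∀ i, ∀ᶠ v in 𝓝 u, phi (ca η (e1 η v)) (cb δ v.2) i = max (M5_P η δ i v + M5_c i) 0 :=
    fun i => E1.mono fun v h => by rw [h.1, h.2, M5_phi]
  have cn : ∀ i, ContinuousAt (fun v => M5_P η δ i v + M5_c i) u := fun i => by fun_prop
  obtain ⟨j, hj⟩ := Finite.exists_max fun i => M5_P η δ i u + M5_c i
  have E3 : ∀ᶠ v in 𝓝 u, ∀ i, M5_P η δ i v + M5_c i ≤ M5_P η δ j v + M5_c j :=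
    eventually_all.2 fun i => by
      by_cases h : i = j
      · exact Eventually.of_forall fun _ => h ▸ le_rfl
      · refine ((cn i).eventually_lt (cn j) (lt_of_le_of_ne (hj i) fun e => k2 i j h ?_)).mono
          fun _ => le_of_lt
        rw [sub_apply]
        linarith
  have j0 : 0 < M5_P η δ j u + M5_c j := lt_of_le_of_ne
    (M5_max hj ▸ le_max_of_le_left (abs_nonneg _)) (k1 j).symm
  have dr : fderiv ℝ (r2 η δ) u = (η / 2) • M5_P η δ j := by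
    refine M5_fd _ (η / 2 * (1 + M5_c j)) ?_
    filter_upwards [E, E1, E3] with v h0 h1 h3
    rw [r2, h1.1, h1.2, M5_max h3, M5_e1 h0.2.1.le h0.2.2.le]
    change _ = η / 2 * M5_P η δ j v + _
    ring
  have dg : ∀ i, fderiv ℝ (fun u : ℝ × ℝ => gee L u.2 (ca η (e1 η u)) (cb δ u.2) i) u =
      M5_G η δ L i := fun i => M5_fd _ _ (E1.mono fun v h => by rw [h.1, h.2, M5_gee])
  have w1 : ∀ l, M5_w ((η / 2) • M5_P η δ j) l = η / 2 * M5_w (M5_P η δ j) l := fun l => by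
    simp only [M5_w, smul_apply, smul_eq_mul]
    ring
  refine M5_abs j ?_ ?_ fun i => ?_
  · rw [(E2 j).self_of_nhds]
    exact lt_max_of_lt_left j0
  · rw [dr, dg, w1]
    exact mul_pos (half_pos hη) (M5_pos hη hδ hL j)
  rcases (k1 i).lt_or_gt with h | h
  · left
    filter_upwards [E2 i, (cn i).eventually (gt_mem_nhds h)] with v h1 h2
    rw [h1, max_eq_right h2.le]
  · have dp : fderiv ℝ (fun u : ℝ × ℝ => phi (ca η (e1 η u)) (cb δ u.2) i) u = M5_P η δ i := by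
      refine M5_fd _ (M5_c i) ?_
      filter_upwards [E2 i, (cn i).eventually (lt_mem_nhds h)] with v h1 h2
      rw [h1, max_eq_left h2.le]
    rw [dr, dg, dp, w1, (E2 i).self_of_nhds]
    exact Or.inr ⟨lt_max_of_lt_left h, mul_nonneg (half_pos hη).le (M5_nn hη hδ hL h j0),
      M5_pos hη hδ hL i⟩

theorem gen_level (η : ℝ) : ∀ᶠ u in gen (ℝ × ℝ), u.1 + max u.2 0 ≠ η := by
  filter_upwards [M5_gen (.fst ℝ ℝ ℝ) (-η) ⟨(η + 1, 0), by simp⟩,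
    M5_gen (.fst ℝ ℝ ℝ + .snd ℝ ℝ ℝ) (-η) ⟨(η + 1, 0), by simp⟩] with u h1 h2 h
  change u.1 + -η ≠ 0 at h1
  change u.1 + u.2 + -η ≠ 0 at h2
  rcases le_total u.2 0 with h3 | h3
  · rw [max_eq_right h3] at h
    exact h1 (by linarith)
  · rw [max_eq_left h3] at h
    exact h2 (by linarith)

end Pool.Agent.Work.MP_bf98aa_gt.Pl
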