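import Pool.Agent.Work.MP_bf98aa_gt.Pl.M4
import Pool.Agent.Work.MP_bf98aa_gt.Pl.M5

/-!
Positivity on the sleeve U = No with e1 (uu v) > 0 (open). On U: (G v).1 = kf' (rd v) (sleeve_box, ko'_act) and rho (kf (G v).1) = r2 (uu v) <= eta (rho_rd). det_rd: rad_det on the open set rot q (profO) for R = r2 o gamma, with the covector gamma0 o D gamma;
the plane determinant is det (d r2, gamma0) det (D gamma); pull back along ki and multiply by det (D ki). With sector (pulled back along gamma, pr, ki) the derivative of rd is onto at generic points of U (bij_of_det), so the generic properties of kf'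
pull back along rd (gen_pull), and then sgn and local affinity of rho o kf pull back along kf' o rd. Put D0 = (D (G.1)).prod (gamma0 o D uu) = (D kf' x id) o (D rd).prod (gamma0 o D uu), det > 0 (det_prodMap_id),
lt = d (rho o kf) (0, 1), xi x = d (rho o kf) (x, 0), R = d (r2 o uu) = lt ct o D0 + xi o cx o D0. By gen_clamp each g i is near v equal to t = (G v).1.2 (ep = 1, al' = be' = 0), or T phi i with t >= T phi i, or -T phi i with t <= -T phi i
(ep = 0, coefficients +-T al', +-T be'; if phi i > 0 the sign of t, hence of lt, is +-), or phi i = 0 near v and g i = 0 (clamp_zero). All terms of the sum in decomp are >= 0 and the distinguished one is > 0.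
-/

set_option autoImplicit false
set_option maxSynthPendingDepth 3
set_option linter.unusedSectionVars false
set_option linter.unusedVariables false

open Set Filter Topology Metric

noncomputable section
namespace Pool.Agent.Work.MP_bf98aa_gt.Pl

open Pool.Agent.Work.MP_bf98aa_gt.Ns

namespace MD

variable {m : ℕ} (D : MD m)

theorem M6_pr {p : ℝ × ℝ → Prop} (hp : ∀ᶠ u in gen (ℝ × ℝ), p u) :
    ∀ᶠ v in gen (WW m), p (pr D.q (D.ki v)) :=
  D.hi.plh.gen_pull (p := fun w => p (pr D.q w)) (gen_pr (by omega) D.hq hp)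

theorem det_rd : ∀ᶠ v in gen (WW m), v ∈ D.No → ∃ c : ℝ, 0 < c ∧ ∀ γ0 : ℝ × ℝ →L[ℝ] ℝ,
    ((fderiv ℝ D.rd v).prod (γ0.comp (fderiv ℝ D.uu v))).det =
      c * ((fderiv ℝ (r2 D.η D.δ) (D.uu v)).prod γ0).det := by
  have hR : PL fun u => r2 D.η D.δ (D.γ u) := D.pl_r2.comp D.hγ.plh.pl
  have h1 := rad_det (by omega) D.hq D.pΛ.le hR (D.oN.preimage D.hi.plh.pl'.continuous)
    fun w hw => by
      have h := D.rat (D.sN hw)
      rwa [uu, D.hi.plh.right] at h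
  have hΦ : PL fun v : WW m => rad D.q D.Λ v.1 (r2 D.η D.δ (D.γ (pr D.q v))) :=
    pl_rad _ _ (plOn_fst _) (hR.comp (pl_pr D.q))
  filter_upwards [D.hi.plh.gen_pull (h1.and (hΦ.gen_locAff.and (pl_pr D.q).gen_locAff)),
    D.hi.plh.pl.gen_locAff, D.hi.plh.pos, D.M6_pr (D.hγ.plh.pl.gen_locAff.and (D.hγ.plh.pos.and
      (D.hγ.plh.gen_pull D.pl_r2.gen_locAff)))] with v ⟨a1, a2, a3⟩ a4 a5 ⟨a6, a7, a8⟩ hv
  obtain ⟨c, hc, e⟩ := a1 (mem_preimage.2 ((D.hi.plh.left v).symm ▸ hv))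
  refine ⟨c * (fderiv ℝ D.γ (pr D.q (D.ki v))).det * (fderiv ℝ D.ki v).det, by positivity,
    fun γ0 => ?_⟩
  have e1 : fderiv ℝ D.rd v = _ := a2.fderiv_comp a4
  have e2 : fderiv ℝ D.uu v = _ := LocAff.fderiv_comp (f := fun x => pr D.q (D.ki x)) a6 (a3.comp a4)
  have e3 := e (γ0.comp (fderiv ℝ D.γ (pr D.q (D.ki v))))
  rw [a8.fderiv_comp a6] at e3
  rw [e1, e2, a3.fderiv_comp a4]
  refine (det_comp' ((fderiv ℝ _ (D.ki v)).prod ((γ0.comp (fderiv ℝ D.γ (pr D.q (D.ki v)))).comp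
    (fderiv ℝ (pr D.q) (D.ki v)))) (fderiv ℝ D.ki v)).trans ?_
  rw [e3.trans (congrArg (c * ·) (det_comp' ((fderiv ℝ (r2 D.η D.δ) (D.uu v)).prod γ0)
    (fderiv ℝ D.γ (pr D.q (D.ki v)))))]
  ring

theorem gen_uu {p : ℝ × ℝ → Prop} (hp : ∀ᶠ u in gen (ℝ × ℝ), p u) :
    ∀ᶠ v in gen (WW m), p (D.uu v) := by
  exact D.M6_pr (p := fun u => p (D.γ u)) (D.hγ.plh.gen_pull hp)

theorem M6_term {V : Type} [NormedAddCommGroup V] [NormedSpace ℝ V] {t φ : V → ℝ} {v : V}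
    {T lt α β α' β' : ℝ} {dt R S : V →L[ℝ] ℝ} (hT : 0 < T) (ht : fderiv ℝ t v = dt)
    (hφ : HasFDerivAt φ (α' • R + β' • S) v) (hs : 0 < t v * lt)
    (h1 : (∀ᶠ x in 𝓝 v, φ x = 0) ∨ (0 < φ v ∧ 0 ≤ β ∧ 0 < β * α' - α * β'))
    (h2 : ((fun v => clamp (t v) (T * φ v)) =ᶠ[𝓝 v] t) ∨
      (((fun v => clamp (t v) (T * φ v)) =ᶠ[𝓝 v] fun v => T * φ v) ∧ T * φ v ≤ t v) ∨
      (((fun v => clamp (t v) (T * φ v)) =ᶠ[𝓝 v] fun v => -(T * φ v)) ∧ t v ≤ -(T * φ v))) :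
    ∃ ε a b : ℝ, fderiv ℝ (fun v => clamp (t v) (T * φ v)) v = ε • dt + a • R + b • S ∧
      0 ≤ ε * β + lt * (β * a - α * b) ∧
      (0 < φ v → 0 < β → 0 < ε * β + lt * (β * a - α * b)) := by
  rcases h1 with h1 | ⟨p1, p2, p3⟩
  · have e : (fun v => clamp (t v) (T * φ v)) =ᶠ[𝓝 v] fun _ => 0 :=
      h1.mono fun x hx => by simp only [hx, mul_zero, clamp_zero]
    exact ⟨0, 0, 0, by simp [e.fderiv_eq], by simp, fun h => (h.ne' h1.self_of_nhds).elim⟩
  have p4 := mul_pos hT p1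
  rcases h2 with e | ⟨e, h⟩ | ⟨e, h⟩
  · exact ⟨1, 0, 0, by simp [e.fderiv_eq, ht], by simpa using p2, fun _ h => by simpa using h⟩
  · have p5 := mul_pos (mul_pos ((mul_pos_iff_of_pos_left (p4.trans_le h)).1 hs) hT) p3
    refine ⟨0, T * α', T * β', ?_, by linarith, fun _ _ => by linarith⟩
    rw [e.fderiv_eq, (hφ.const_mul T).fderiv, zero_smul, zero_add, smul_add, smul_smul, smul_smul]
  · have p6 : 0 < -lt := neg_pos.2 (neg_of_mul_pos_right hs (by linarith))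
    have p5 := mul_pos (mul_pos p6 hT) p3
    refine ⟨0, -(T * α'), -(T * β'), ?_, by linarith, fun _ _ => by linarith⟩
    rw [e.fderiv_eq, (hφ.const_mul T).fun_neg.fderiv, zero_smul, zero_add, smul_add, smul_smul,
      smul_smul, neg_add, neg_smul, neg_smul]

theorem posS {T : ℝ} (hT : 0 < T) : ∀ᶠ v in gen (WW m), v ∈ D.No → 0 < e1 D.η (D.uu v) →
    0 < Pq ((D.Θ T).new.form v) := by
  have hη : D.η ≤ 1 / 8 := D.lη.trans (by norm_num)
  have hU : IsOpen (D.No ∩ {v | 0 < e1 D.η (D.uu v)}) := by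
    have hc := D.pl_uu.continuous
    refine D.oN.inter (isOpen_lt continuous_const ?_)
    unfold e1
    fun_prop
  have g1 := D.det_rd.and (D.gen_uu (sector D.pη hη D.pδ D.pL))
  have g2 := gen_pull hU (φ := D.rd) ((g1.and D.pl_rd.gen_locAff).mono
    fun v ⟨⟨a1, a2⟩, a3⟩ hv => ⟨a3, by
      obtain ⟨c, hc, e⟩ := a1 hv.1
      obtain ⟨γ0, -, -, -, -, h, -⟩ := a2 (D.uu_mem (D.sN hv.1)) hv.2
      intro y
      obtain ⟨x, hx⟩ := (bij_of_det ((mul_pos hc h).trans_eq (e γ0).symm).ne').2 (y, 0)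
      exact ⟨x, congrArg Prod.fst hx⟩⟩)
    (D.plf.pl'.gen_locAff.and (D.plf.symm.pos.and (D.plf.symm.gen_pull
      (D.sgn.and (PL.gen_locAff ((pl_rho D.q).comp D.plf.pl))))))
  have g3 := eventually_all.2 fun i => gen_clamp (u := fun v => (D.G v).1.2)
    (b := fun v => T * phi (ca D.η (e1 D.η (D.uu v))) (cb D.δ (D.uu v).2) i)
    D.pl_G.continuous.fst.snd
    (continuous_const.mul ((pl_phi D.η D.δ i).continuous.comp D.pl_uu.continuous))
    fun v => mul_nonneg hT.le (phi_nonneg _ _ i)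
  have g4 := D.gen_uu (D.pl_r2.gen_locAff.and
    ((eventually_all.2 fun i => (pl_gee D.η D.δ D.L i).gen_locAff).and
      (eventually_all.2 fun i => (pl_phi D.η D.δ i).gen_locAff)))
  filter_upwards [g1, g2, g3, g4, D.pl_rd.gen_locAff, D.pl_uu.gen_locAff] with v ⟨a1, a2⟩ a3 a4
    ⟨a5, a6, a7⟩ a8 a9 hv he
  obtain ⟨c, hc, e⟩ := a1 hv
  obtain ⟨γ0, α, β, α', β', b1, b2, b3, b4, i0, b5, b6⟩ := a2 (D.uu_mem (D.sN hv)) he
  obtain ⟨c1, c2, c3, c4⟩ := a3 ⟨hv, he⟩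
  have hG : (fun x => (D.G x).1) =ᶠ[𝓝 v] fun x => D.kf' (D.rd x) := by
    filter_upwards [hU.mem_nhds ⟨hv, he⟩] with x hx
    obtain ⟨k1, k2, -⟩ := sleeve_box D.pη hη D.pδ (D.uu_mem (D.sN hx.1)) hx.2
    rw [G, D.ko'_act _ k1 k2]
  have hH := (c1.comp a8).differentiableAt.hasFDerivAt.congr_of_eventuallyEq hG
  let D0 : WW m →L[ℝ] WW m :=
    (fderiv ℝ (fun x => D.kf' (D.rd x)) v).prod (γ0.comp (fderiv ℝ D.uu v))
  have hD : 0 < D0.det := by
    have h1 := det_comp' ((fderiv ℝ D.kf' (D.rd v)).prodMap (ContinuousLinearMap.id ℝ ℝ))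
      ((fderiv ℝ D.rd v).prod (γ0.comp (fderiv ℝ D.uu v)))
    rw [det_prodMap_id, e] at h1
    refine (mul_pos c2 (mul_pos hc b1)).trans_eq (h1.symm.trans (congrArg _ ?_))
    simp only [D0, c1.fderiv_comp a8]
    rfl
  let ρ : YY m →L[ℝ] ℝ := fderiv ℝ (fun y => rho D.q (D.kf y)) (D.kf' (D.rd v))
  have hR : (fderiv ℝ (r2 D.η D.δ) (D.uu v)).comp (fderiv ℝ D.uu v) = ρ (0, 1) • (ct m).comp D0 +
      ((ρ.comp (ContinuousLinearMap.inl ℝ (XX m) ℝ)).comp (cx m)).comp D0 := by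
    have h1 : (fun x => r2 D.η D.δ (D.uu x)) =ᶠ[𝓝 v] fun x => rho D.q (D.kf (D.kf' (D.rd x))) := by
      filter_upwards [D.oN.mem_nhds hv] with x hx
      rw [D.plf.right, D.rho_rd (D.sN hx)]
    rw [← a5.fderiv_comp a9, h1.fderiv_eq, LocAff.fderiv_comp (f := fun x => D.kf' (D.rd x)) c4 (c1.comp a8)]
    refine ContinuousLinearMap.ext fun x => ?_
    change ρ (D0 x).1 = ρ (0, 1) * (D0 x).1.2 + ρ ((D0 x).1.1, 0)
    rw [mul_comm, ← smul_eq_mul, ← map_smul, ← map_add]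
    simp
  have hs : 0 < (D.G v).1.2 * ρ (0, 1) := by
    have hy : (D.G v).1 = D.kf' (D.rd v) := hG.self_of_nhds
    rw [hy]
    refine c3 ?_
    rw [D.plf.right, D.rho_rd (D.sN hv)]
    exact (sleeve_box D.pη hη D.pδ (D.uu_mem (D.sN hv)) he).2.2
  choose ε a b d1 d2 d3 using fun i => M6_term (α := α i) (β := β i) (α' := α' i) (β' := β' i)
    (R := (fderiv ℝ (r2 D.η D.δ) (D.uu v)).comp (fderiv ℝ D.uu v)) (S := (cs m).comp D0)
    (dt := (ct m).comp D0) hT hH.snd.fderiv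
    (((a7 i).differentiableAt.hasFDerivAt.comp v a9.differentiableAt.hasFDerivAt).congr_fderiv
      (by rw [b3 i]; rfl)) hs
    ((b4 i).imp_left fun h => a9.continuousAt.eventually h) (a4 i)
  refine (decomp D0 hD _ _ _ hR α β ε a b (Finset.sum_pos' (fun i _ => d2 i)
    ⟨i0, Finset.mem_univ _, d3 i0 b5 b6⟩)).trans_eq (congrArg _ ?_)
  rw [wD_eq_sum]
  refine Eq.trans ?_ (Fintype.sum_sum_type _).symm
  refine congrArg₂ (· + ·) (Finset.sum_congr rfl fun i _ => ?_) (Finset.sum_congr rfl fun i _ => ?_)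
  · have h1 := fun j => ((ContinuousLinearMap.proj (R := ℝ) (φ := fun _ : Fin m ⊕ Fin m => ℝ)
      j).hasFDerivAt.comp v hH.fst).fderiv
    exact congrArg₂ wedge (h1 _).symm (h1 _).symm
  · refine congrArg₂ wedge (Eq.trans ?_ ((a6 i).fderiv_comp a9).symm) (d1 i).symm
    rw [b2 i]
    rfl

end MD

end Pool.Agent.Work.MP_bf98aa_gt.Pl
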