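import Pool.Agent.Work.MP_bf98aa_gt.Pl.M2
import Pool.Agent.Work.MP_bf98aa_gt.Pl.M6
import Pool.Agent.Work.MP_bf98aa_gt.Pl.Kap

/-!
The cancellation model. pos: generically (uu v).1 + max (uu v).2 0 is different from eta (gen_level, gen_uu); if it is smaller use posS, if it is larger v is in A by IsProf.fwd, pos_of_acc.
md_ex: kap_ex, prof_ex; eta <= min (1/16) mu so small that rho w <= 2 eta implies that the norm of kf' w is at most eta0 (continuity of kf' at 0, rho_norm); Lam = 2 C - 1.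
-/

set_option autoImplicit false
set_option maxSynthPendingDepth 3
set_option linter.unusedSectionVars false
set_option linter.unusedVariables false

open Set Filter Topology Metric

noncomputable section
namespace Pool.Agent.Work.MP_bf98aa_gt.Pl

open Pool.Agent.Work.MP_bf98aa_gt.Ns

variable {m : ℕ}

theorem MD.pos (D : MD m) {T : ℝ} (hT : D.Big T) :
    ∀ᶠ v in gen (WW m), v ∈ D.No → 0 < Pq ((D.Θ T).new.form v) := by
  filter_upwards [D.gen_uu (gen_level D.η), D.posS hT.1, pos_of_acc (D.acc hT)] with v h1 h2 h3 hv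
  rcases lt_or_gt_of_ne h1 with h | h
  · exact h2 hv (lt_max_of_lt_left (by linarith))
  · exact h3 (D.hγ.fwd _ hv h)

theorem md_ex {q : Sx (YY m) (2 * m + 1)} (hq : Cen q) {δ δ' L η0 : ℝ} (hδ : 0 < δ) (hδ' : 0 < δ')
    (hL : δ' < L) (hη : 0 < η0) :
    ∃ D : MD m, D.q = q ∧ D.δ = δ ∧ D.δ' = δ' ∧ D.L = L ∧ D.η0 = η0 := by
  obtain ⟨kf, kf', μ, hμ, hk, h0, hs, hab⟩ := kap_ex hq
  obtain ⟨ki, ki', hi⟩ := hab 0 L (hδ'.trans hL).le
  obtain ⟨ko, ko', ho⟩ := hab (-δ) 0 (by linarith)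
  obtain ⟨c, hc, hn⟩ := rho_norm hq
  obtain ⟨r, hr, hb⟩ := Metric.continuousAt_iff.1 (hk.pl'.continuous.continuousAt (x := 0)) η0 hη
  have h1 : kf' 0 = 0 := by simpa only [h0] using hk.left 0
  obtain ⟨η, h2, h3, h4, h5⟩ : ∃ η : ℝ, 0 < η ∧ η ≤ 1 / 16 ∧ η ≤ μ ∧ η ≤ r / (4 * c) :=
    ⟨min (1 / 16) (min μ (r / (4 * c))), by positivity, min_le_left _ _,
      (min_le_right _ _).trans (min_le_left _ _), (min_le_right _ _).trans (min_le_right _ _)⟩
  obtain ⟨C, γ, γ', hγ⟩ := prof_ex h2 (by linarith) (hδ'.trans hL) hδ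
  refine ⟨⟨q, δ, δ', L, η0, η, 2 * C - 1, C, kf, kf', ki, ki', ko, ko', γ, γ', hq, hδ, hδ', hL, h2,
    h3, hk, hs.mono fun y hy h => hy (h.trans h4), fun y hy => ?_, hi, ho, hγ, by ring⟩,
    rfl, rfl, rfl, rfl, rfl⟩
  have h6 : dist (kf y) 0 < r := by
    rw [dist_zero_right]
    rw [le_div_iff₀ (by positivity)] at h5
    nlinarith [(hn (kf y)).2, mul_le_mul_of_nonneg_left hy hc.le]
  have h7 := hb h6
  rw [hk.left, h1, dist_zero_right] at h7
  exact h7.le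

theorem model (hm : 1 ≤ m) {q : Sx (YY m) (2 * m + 1)} (hq : Cen q) {δ δ' L η0 : ℝ} (hδ : 0 < δ)
    (hδ' : 0 < δ') (hL : δ' < L) (hη : 0 < η0) :
    ∃ (N No Np Npo A : Set (WW m)) (Θ : Pot2 (WW m)), IsModel q δ δ' L η0 N No Np Npo A Θ := by
  obtain ⟨D, rfl, rfl, rfl, rfl, rfl⟩ := md_ex hq hδ hδ' hL hη
  obtain ⟨T, hT⟩ := D.big_ex
  exact ⟨D.N, D.No, D.Np, D.Npo, D.A, D.Θ T, D.cN, D.cNp, D.oN, D.oNp, D.sN, D.sNp, D.sub, D.subo,
    D.negl, D.hul, D.lo, D.hi', D.lop, D.loo, D.up, D.con hm, D.chi, D.pl_new T, D.pl_old T,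
    D.bd T, D.old hT, D.pos hT, D.acc hT, D.sA, D.conA hm, D.near, D.top⟩

end Pool.Agent.Work.MP_bf98aa_gt.Pl
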