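import Pool.Agent.Work.MP_bf98aa_gt.Pl.Sx

/-!
Simplices and their gauges. Useful: AffineBasis.sum_coord_apply_eq_one, AffineBasis.linear_combination_coord_eq_self, AffineBasis.coord_apply, AffineBasis.continuous_coord (or AffineMap.continuous_of_finiteDimensional),
AffineBasis.surjective_coord needs Nontrivial (Fin (d+1)). clE is closed and bounded (y is the sum of coord i y times q i with bounded coordinates). shrink: the compact sets clE (eps + 1/n) minus O decrease, or minimise the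
continuous function max of -coord on the compact set clE (eps+1) minus O. ell q j is linear (it vanishes at 0), the sum of w j * ell j is 0 with w j = coord j 0 > 0 and the sum of w j is 1.
bet_unique: for y = sum c j q j one has coord j y = c j + (1 - sum c) w j.
-/

set_option autoImplicit false
set_option maxSynthPendingDepth 3
set_option linter.unusedSectionVars false
set_option linter.unusedVariables false

open Set Filter Topology Metric

noncomputable section
namespace Pool.Agent.Work.MP_bf98aa_gt.Pl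

open Pool.Agent.Work.MP_bf98aa_gt.Ns

variable {Y Y' : Type} [NormedAddCommGroup Y] [NormedSpace ℝ Y] [FiniteDimensional ℝ Y]
  [NormedAddCommGroup Y'] [NormedSpace ℝ Y'] [FiniteDimensional ℝ Y'] {d : ℕ}
  {σ q : Sx Y d} {ε ε' : ℝ}

theorem Rho_coord (q : Sx Y d) (j : Fin (d + 1)) (y : Y) :
    q.coord j y = (crd q j).contLinear y + q.coord j 0 := by
  have h := (q.coord j).map_vadd 0 y
  rw [vadd_eq_add, add_zero, vadd_eq_add] at h
  rw [crd_lin, ← h]

theorem Rho_ell (hq : Cen q) (j : Fin (d + 1)) (y : Y) :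
    ell q j y = -(q.coord j 0)⁻¹ * (crd q j).contLinear y := by
  have h := (hq j).ne'
  rw [ell, Rho_coord q j y]
  field_simp
  ring

theorem Rho_mul (hq : Cen q) (j : Fin (d + 1)) (y : Y) :
    q.coord j 0 * ell q j y = q.coord j 0 - q.coord j y := by
  have h := (hq j).ne'
  rw [ell]
  field_simp

/-- The functional `ell` as a continuous linear map. -/
theorem ell_lin (hq : Cen q) (j : Fin (d + 1)) : ∃ l : Y →L[ℝ] ℝ, ∀ y, ell q j y = l y := by
  refine ⟨(-(q.coord j 0)⁻¹) • (crd q j).contLinear, fun y => ?_⟩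
  exact Rho_ell hq j y

theorem ell_vertex (hq : Cen q) (i j : Fin (d + 1)) :
    ell q j (q i) = if j = i then 1 - 1 / q.coord j 0 else 1 := by
  rw [ell, q.coord_apply]
  split_ifs
  · rfl
  · rw [zero_div, sub_zero]

theorem sum_ell (hq : Cen q) (y : Y) : ∑ j, q.coord j 0 * ell q j y = 0 := by
  rw [Finset.sum_congr rfl fun j _ => Rho_mul hq j y, Finset.sum_sub_distrib,
    q.sum_coord_apply_eq_one, q.sum_coord_apply_eq_one, sub_self]

theorem ell_le_rho (q : Sx Y d) (j : Fin (d + 1)) (y : Y) : ell q j y ≤ rho q y := by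
  exact Finset.le_sup' (fun j => ell q j y) (Finset.mem_univ j)

theorem rho_eq_ell (q : Sx Y d) (y : Y) : ∃ j, rho q y = ell q j y := by
  obtain ⟨j, -, h⟩ := Finset.exists_mem_eq_sup' Finset.univ_nonempty fun j => ell q j y
  exact ⟨j, h⟩

theorem rho_le_iff (q : Sx Y d) (y : Y) (r : ℝ) : rho q y ≤ r ↔ ∀ j, ell q j y ≤ r := by
  refine ⟨fun h j => (ell_le_rho q j y).trans h, fun h => ?_⟩
  obtain ⟨j, e⟩ := rho_eq_ell q y
  exact e ▸ h j

theorem rho_lt_iff (q : Sx Y d) (y : Y) (r : ℝ) : rho q y < r ↔ ∀ j, ell q j y < r := by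
  refine ⟨fun h j => (ell_le_rho q j y).trans_lt h, fun h => ?_⟩
  obtain ⟨j, e⟩ := rho_eq_ell q y
  exact e ▸ h j

theorem pl_ell (q : Sx Y d) (j : Fin (d + 1)) : PL (ell q j) := by
  exact (plOn_const (1 : ℝ) univ).sub ((plOn_aff (crd q j) univ).div_const (q.coord j 0))

theorem pl_rho (q : Sx Y d) : PL (rho q) := by
  exact plOn_sup' Finset.univ Finset.univ_nonempty fun j _ => pl_ell q j

theorem pl_pr (q : Sx Y d) : PL (pr q) := by
  exact ((pl_rho q).comp (plOn_fst univ)).prodMk (plOn_snd univ)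

theorem Rho_nonneg (hq : Cen q) (j : Fin (d + 1)) (y : Y) : 0 ≤ bet q j y :=
  mul_nonneg (hq j).le (sub_nonneg.2 (ell_le_rho q j y))

theorem Rho_bet (hq : Cen q) (j : Fin (d + 1)) (y : Y) :
    bet q j y = (rho q y - 1) * q.coord j 0 + q.coord j y := by
  rw [bet, mul_sub, Rho_mul hq]
  ring

theorem Rho_sum (hq : Cen q) (y : Y) : ∑ j, bet q j y = rho q y := by
  rw [Finset.sum_congr rfl fun j _ => Rho_bet hq j y, Finset.sum_add_distrib, ← Finset.mul_sum,
    q.sum_coord_apply_eq_one, q.sum_coord_apply_eq_one]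
  ring

theorem Rho_sum_smul (hq : Cen q) (y : Y) : ∑ j, bet q j y • q j = y := by
  have e : ∀ j, bet q j y • q j = (rho q y - 1) • (q.coord j 0 • q j) + q.coord j y • q j :=
    fun j => by rw [Rho_bet hq, add_smul, mul_smul]
  rw [Finset.sum_congr rfl fun j _ => e j, Finset.sum_add_distrib, ← Finset.smul_sum,
    q.linear_combination_coord_eq_self, q.linear_combination_coord_eq_self, smul_zero, zero_add]

theorem rho_nonneg (hq : Cen q) (y : Y) : 0 ≤ rho q y := by
  rw [← Rho_sum hq y]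
  exact Finset.sum_nonneg fun j _ => Rho_nonneg hq j y

theorem rho_zero (hq : Cen q) : rho q 0 = 0 := by
  obtain ⟨j, e⟩ := rho_eq_ell q 0
  rw [e, ell, div_self (hq j).ne', sub_self]

theorem rho_eq_zero (hq : Cen q) {y : Y} (h : rho q y = 0) : y = 0 := by
  have h1 := (Finset.sum_eq_zero_iff_of_nonneg fun j _ => Rho_nonneg hq j y).1
    ((Rho_sum hq y).trans h)
  rw [← Rho_sum_smul hq y]
  exact Finset.sum_eq_zero fun j hj => by rw [h1 j hj, zero_smul]

theorem rho_smul (hq : Cen q) {c : ℝ} (hc : 0 ≤ c) (y : Y) : rho q (c • y) = c * rho q y := by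
  have e : ∀ j, ell q j (c • y) = c * ell q j y := fun j => by
    rw [Rho_ell hq, Rho_ell hq, map_smul, smul_eq_mul]
    ring
  refine le_antisymm ((rho_le_iff q _ _).2 fun j => ?_) ?_
  · rw [e]
    exact mul_le_mul_of_nonneg_left (ell_le_rho q j y) hc
  · obtain ⟨j, h⟩ := rho_eq_ell q y
    rw [h, ← e]
    exact ell_le_rho q j _

theorem rho_add_le (hq : Cen q) (y y' : Y) : rho q (y + y') ≤ rho q y + rho q y' := by
  refine (rho_le_iff q _ _).2 fun j => ?_
  have e : ell q j (y + y') = ell q j y + ell q j y' := by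
    rw [Rho_ell hq, Rho_ell hq, Rho_ell hq, map_add, mul_add]
  rw [e]
  exact add_le_add (ell_le_rho q j y) (ell_le_rho q j y')

theorem rho_le_one (hq : Cen q) (y : Y) : rho q y ≤ 1 ↔ y ∈ clE q 0 := by
  rw [rho_le_iff]
  refine forall_congr' fun j => ?_
  rw [ell, sub_le_self_iff, neg_zero, le_div_iff₀ (hq j), zero_mul]

theorem rho_lt_one (hq : Cen q) (y : Y) : rho q y < 1 ↔ y ∈ opE q 0 := by
  rw [rho_lt_iff]
  refine forall_congr' fun j => ?_
  rw [ell, sub_lt_self_iff, neg_zero, lt_div_iff₀ (hq j), zero_mul]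

theorem rho_norm (hq : Cen q) : ∃ C : ℝ, 0 < C ∧ ∀ y, rho q y ≤ C * ‖y‖ ∧ ‖y‖ ≤ C * rho q y := by
  choose l hl using ell_lin hq
  have a0 : 0 ≤ ∑ j, ‖l j‖ := Finset.sum_nonneg fun j _ => norm_nonneg _
  have b0 : 0 ≤ ∑ j, ‖q j‖ := Finset.sum_nonneg fun j _ => norm_nonneg _
  refine ⟨1 + ∑ j, ‖l j‖ + ∑ j, ‖q j‖, by linarith, fun y => ⟨?_, ?_⟩⟩
  · obtain ⟨j, e⟩ := rho_eq_ell q y
    have h1 : ‖l j‖ ≤ ∑ j, ‖l j‖ :=
      Finset.single_le_sum (f := fun j => ‖l j‖) (fun j _ => norm_nonneg _) (Finset.mem_univ j)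
    rw [e, hl]
    exact (le_abs_self _).trans (((l j).le_opNorm y).trans
      (mul_le_mul_of_nonneg_right (by linarith) (norm_nonneg _)))
  · calc ‖y‖ = ‖∑ j, bet q j y • q j‖ := by rw [Rho_sum_smul hq]
      _ ≤ ∑ j, (1 + ∑ j, ‖l j‖ + ∑ j, ‖q j‖) * bet q j y := by
        refine norm_sum_le_of_le _ fun j _ => ?_
        have h1 : ‖q j‖ ≤ ∑ j, ‖q j‖ :=
          Finset.single_le_sum (f := fun j => ‖q j‖) (fun j _ => norm_nonneg _) (Finset.mem_univ j)
        rw [norm_smul, Real.norm_of_nonneg (Rho_nonneg hq j y), mul_comm]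
        exact mul_le_mul_of_nonneg_right (by linarith) (Rho_nonneg hq j y)
      _ = _ := by rw [← Finset.mul_sum, Rho_sum hq]

theorem bet_nonneg (hq : Cen q) (j : Fin (d + 1)) (y : Y) : 0 ≤ bet q j y := by
  exact Rho_nonneg hq j y

theorem bet_zero (q : Sx Y d) (y : Y) : ∃ j, bet q j y = 0 := by
  obtain ⟨j, e⟩ := rho_eq_ell q y
  exact ⟨j, by rw [bet, e, sub_self, mul_zero]⟩

theorem sum_bet (hq : Cen q) (y : Y) : ∑ j, bet q j y = rho q y := by
  exact Rho_sum hq y

theorem sum_bet_smul (hq : Cen q) (y : Y) : ∑ j, bet q j y • q j = y := by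
  exact Rho_sum_smul hq y

theorem bet_unique (hq : Cen q) {c : Fin (d + 1) → ℝ} (h0 : ∀ j, 0 ≤ c j) (h1 : ∃ j, c j = 0) :
    rho q (∑ j, c j • q j) = ∑ j, c j ∧ ∀ i, bet q i (∑ j, c j • q j) = c i := by
  have e : ∀ i, ell q i (∑ j, c j • q j) = ∑ j, c j - c i / q.coord i 0 := fun i => by
    obtain ⟨l, hl⟩ := ell_lin hq i
    have e1 : ∀ j, l (c j • q j) = c j - if i = j then c j / q.coord i 0 else 0 := fun j => by
      rw [map_smul, ← hl, ell_vertex hq, smul_eq_mul]
      split_ifs <;> ring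
    rw [hl, map_sum, Finset.sum_congr rfl fun j _ => e1 j, Finset.sum_sub_distrib,
      Finset.sum_ite_eq, if_pos (Finset.mem_univ i)]
  have r : rho q (∑ j, c j • q j) = ∑ j, c j := by
    refine le_antisymm ((rho_le_iff q _ _).2 fun i => ?_) ?_
    · rw [e]
      exact sub_le_self _ (div_nonneg (h0 i) (hq i).le)
    · obtain ⟨i, hi⟩ := h1
      have h2 := ell_le_rho q i (∑ j, c j • q j)
      rwa [e, hi, zero_div, sub_zero] at h2
  refine ⟨r, fun i => ?_⟩
  rw [bet, r, e, sub_sub_cancel, mul_div_cancel₀ _ (hq i).ne']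

/-- Generically one facet is active. -/
theorem gen_rho (hq : Cen q) :
    ∀ᶠ y in gen Y, ∃ j, ∀ᶠ y' in 𝓝 y, rho q y' = ell q j y' := by
  choose l hl using ell_lin hq
  filter_upwards [PLb_loc isOpen_univ (pl_rho q).continuousOn
    (finite_range fun j => (l j).toContinuousAffineMap)] with y hy
  obtain ⟨j, e⟩ := rho_eq_ell q y
  refine ⟨j, ?_⟩
  filter_upwards [hy (mem_univ y) _ (mem_range_self j) (e.trans (hl j y))] with y' h
  exact h.trans (hl j y').symm

theorem Rho_fst {p : Y → Prop} : (∀ᶠ v in gen (Y × ℝ), p v.1) ↔ ∀ᶠ y in gen Y, p y := by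
  rw [gen_iff, gen_iff, ← isOpenQuotientMap_fst.dense_preimage_iff (Y := Y) (X := Y × ℝ),
    isOpenMap_fst.preimage_interior_eq_interior_preimage continuous_fst]
  rfl

theorem gen_pr (hd : 1 ≤ d) (hq : Cen q) {p : ℝ × ℝ → Prop} (hp : ∀ᶠ u in gen (ℝ × ℝ), p u) :
    ∀ᶠ v in gen (Y × ℝ), p (pr q v) := by
  have h : ∀ᶠ v in gen (Y × ℝ), v ∈ univ →
      LocAff (pr q) v ∧ Function.Surjective (fderiv ℝ (pr q) v) := by
    filter_upwards [Rho_fst.2 (gen_rho hq)] with v ⟨j, hj⟩ _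
    obtain ⟨l, hl⟩ := ell_lin hq j
    have e : pr q =ᶠ[𝓝 v] l.prodMap (ContinuousLinearMap.id ℝ ℝ) := by
      filter_upwards [continuous_fst.continuousAt.eventually hj] with u hu
      exact Prod.ext (hu.trans (hl _)) rfl
    obtain ⟨u, hu⟩ : ∃ u, l u = 1 := by
      obtain ⟨u, hu⟩ := PLc_unit (crd_ne hd q j)
      refine ⟨(-q.coord j 0) • u, ?_⟩
      rw [← hl, Rho_ell hq, map_smul, hu, smul_eq_mul, mul_one, neg_mul_neg,
        inv_mul_cancel₀ (hq j).ne']
    refine ⟨⟨(l.prodMap (ContinuousLinearMap.id ℝ ℝ)).toContinuousAffineMap, e⟩, ?_⟩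
    rw [e.fderiv_eq, ContinuousLinearMap.fderiv]
    intro z
    refine ⟨(z.1 • u, z.2), Prod.ext ?_ rfl⟩
    show l (z.1 • u) = z.1
    rw [map_smul, hu, smul_eq_mul, mul_one]
  filter_upwards [gen_pull isOpen_univ h hp] with v hv
  exact hv (mem_univ v)

theorem gen_fst {p : Y → Prop} : (∀ᶠ v in gen (Y × ℝ), p v.1) ↔ ∀ᶠ y in gen Y, p y := by
  exact Rho_fst

theorem Rho_cpt (hq : Cen q) {K : Set (Y × ℝ)} (hK : IsClosed K) (R : ℝ)
    (h : ∀ v ∈ K, rho q v.1 ≤ R ∧ |v.2| ≤ R) : IsCompact K := by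
  obtain ⟨C, c0, hC⟩ := rho_norm hq
  refine Metric.isCompact_of_isClosed_isBounded hK
    (isBounded_iff_forall_norm_le.2 ⟨max (C * R) R, fun v hv => ?_⟩)
  rw [Prod.norm_def]
  exact max_le_max ((hC v.1).2.trans (mul_le_mul_of_nonneg_left (h v hv).1 c0.le)) (h v hv).2

theorem Rho_cont (q : Sx Y d) : Continuous fun v : Y × ℝ => rho q v.1 :=
  (pl_rho q).continuous.comp continuous_fst

theorem isCompact_rot (hq : Cen q) {S : Set (ℝ × ℝ)} (hS : IsCompact S) :
    IsCompact (rot q S) := by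
  obtain ⟨R, hR⟩ := hS.isBounded.exists_norm_le
  refine Rho_cpt hq (hS.isClosed.preimage (pl_pr q).continuous) R fun v hv => ?_
  have h := hR _ hv
  exact ⟨(le_abs_self _).trans ((norm_fst_le (pr q v)).trans h), (norm_snd_le (pr q v)).trans h⟩

theorem isCompact_coneLo (hq : Cen q) : IsCompact (coneLo q) := by
  refine Rho_cpt hq ((isClosed_le continuous_snd continuous_const).inter
    (isClosed_le ((Rho_cont q).sub continuous_snd) continuous_const)) 1 fun v hv => ?_
  have h0 := rho_nonneg hq v.1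
  have h1 : v.2 ≤ 0 := hv.1
  have h2 : rho q v.1 - v.2 ≤ 1 := hv.2
  exact ⟨by linarith, abs_le.2 ⟨by linarith, by linarith⟩⟩

theorem isCompact_coneHi (hq : Cen q) (a b : ℝ) : IsCompact (coneHi q a b) := by
  refine Rho_cpt hq ((isClosed_le continuous_const continuous_snd).inter
    (isClosed_le ((Rho_cont q).add continuous_snd) continuous_const)) (|a| + |b|) fun v hv => ?_
  have h0 := rho_nonneg hq v.1
  have h1 : a ≤ v.2 := hv.1
  have h2 : rho q v.1 + v.2 ≤ b := hv.2
  have h3 := neg_abs_le a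
  have h4 := le_abs_self b
  have h5 := abs_nonneg a
  have h6 := abs_nonneg b
  exact ⟨by linarith, abs_le.2 ⟨by linarith, by linarith⟩⟩

theorem isOpen_opCone (q : Sx Y d) : IsOpen (opCone q) := by
  exact (isOpen_lt continuous_snd continuous_const).inter
    (isOpen_lt ((Rho_cont q).sub continuous_snd) continuous_const)

theorem isCompact_tub (η a b : ℝ) : IsCompact (tub η a b : Set (Y × ℝ)) := by
  have e : (tub η a b : Set (Y × ℝ)) = closedBall 0 η ×ˢ Icc a b := by
    ext v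
    rw [mem_prod, mem_closedBall_zero_iff]
    rfl
  rw [e]
  exact (isCompact_closedBall 0 η).prod isCompact_Icc

theorem isOpen_tubO (η a b : ℝ) : IsOpen (tubO η a b : Set (Y × ℝ)) := by
  exact (isOpen_lt continuous_fst.norm continuous_const).inter
    ((isOpen_lt continuous_const continuous_snd).inter (isOpen_lt continuous_snd continuous_const))

theorem coneHi_shrink (hq : Cen q) {a b : ℝ} {O : Set (Y × ℝ)} (hO : IsOpen O)
    (h : coneHi q a b ⊆ O) : ∃ δ' : ℝ, 0 < δ' ∧ coneHi q (a - δ') (b + δ') ⊆ O := by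
  have : Nonempty (Ioi (0 : ℝ)) := ⟨⟨1, mem_Ioi.2 one_pos⟩⟩
  have mono : ∀ {s t : ℝ}, s ≤ t → coneHi q (a - s) (b + s) ⊆ coneHi q (a - t) (b + t) :=
    fun hst v hv => ⟨(sub_le_sub_left hst a).trans hv.1, hv.2.trans (by linarith)⟩
  obtain ⟨δ', hδ⟩ := exists_subset_nhds_of_isCompact'
    (V := fun t : Ioi (0 : ℝ) => coneHi q (a - t.1) (b + t.1)) (U := O)
    (fun s t => ⟨min s t, mono (Subtype.coe_le_coe.2 (min_le_left _ _)),
      mono (Subtype.coe_le_coe.2 (min_le_right _ _))⟩)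
    (fun t => isCompact_coneHi hq _ _) (fun t => (isCompact_coneHi hq _ _).isClosed)
    (fun v hv => hO.mem_nhds (h ⟨le_of_forall_pos_le_add fun t ht =>
        sub_le_iff_le_add.1 (mem_iInter.1 hv ⟨t, ht⟩).1,
      le_of_forall_pos_le_add fun t ht => (mem_iInter.1 hv ⟨t, ht⟩).2⟩))
  exact ⟨δ'.1, δ'.2, hδ⟩

end Pool.Agent.Work.MP_bf98aa_gt.Pl
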