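import Pool.Agent.Work.MP_bf98aa_gt.Pl.AmbC
import Pool.Agent.Work.MP_bf98aa_gt.Pl.Rho

/-!
The new potentials. extend: let i' be an affine left inverse of (iota tau).comp alpha (left_inv_aff, inj_contLinear), u v = h v - h (i' (e v)) on Np; it vanishes for v.2 <= 0 (Cht.lo); K a bound of |u| on the compact set Np; ext0 on (Np, Npo) of clamp u (K chi), which vanishes on
Np minus Npo and equals u on N; H = h o i' + that extension. Npo is contained in O by loo, hul, sub1, sub2, sub3. ctx_ex: update with extend; IsModel.old and Cht.pb.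
disc: if e v is in cell i = closure of cello i (closure_opE), the relatively open set e '' (small ball round v in O) meets cello i, so the open set of u in the ball with e u in cello i is nonempty (Emb.isOpen_pre; cello i is relatively open: Static.sub, emb_iota) and contains u with u.2 different from 0;
for u.2 > 0, e u is in D (win), for u.2 < 0, u is in opCone (hsm: take the ball so small) and e u is in cello j; both contradict dcell, cc.
good: the complement of the remaining cells is covered by e '' No (good_of_chart), e '' (N minus No) (negl_image) and the complement of all old cells minus e '' N (cell j = e '' coneLo lies in e '' N; Keep.good).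
ball: wall_dar in the chart e on the ball of IsModel.top with b = b' = w0 and R = Q.comp e (PB.add, pos_of_good with good; the ball is mapped to D union K j, which misses the remaining cells).
-/

set_option autoImplicit false
set_option maxSynthPendingDepth 3
set_option linter.unusedSectionVars false
set_option linter.unusedVariables false

open Set Filter Topology Metric

noncomputable section
namespace Pool.Agent.Work.MP_bf98aa_gt.Pl

open Pool.Agent.Work.MP_bf98aa_gt.Ns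

/-- The data of one step. -/
structure Ctx {m : ℕ} {E : Type} [NormedAddCommGroup E] [NormedSpace ℝ E] {a : Amb m E}
    (P : Pot E) (D : Set E) (j : Job a) (ε : ℝ) where
  q : Sx (YY m) (2 * m + 1)
  δ : ℝ
  δ' : ℝ
  L : ℝ
  η : ℝ
  α : WW m →ᴬ[ℝ] WW m
  e : WW m → E
  O : Set (WW m)
  N : Set (WW m)
  No : Set (WW m)
  Np : Set (WW m)
  Npo : Set (WW m)
  A : Set (WW m)
  Θ : Pot2 (WW m)
  Q : Pot E
  cht : Cht P D j ε q δ δ' L η α e O
  mod : IsModel q δ δ' L η N No Np Npo A Θ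
  plQ : Q.PLOn a.M
  keep : Keep a P (P.add Q) (e '' N)
  ins : ∀ᶠ v in gen (WW m), v ∈ No → PB a (P.add Q) e v (Θ.new.form v)

variable {m : ℕ} {E : Type} [NormedAddCommGroup E] [NormedSpace ℝ E] [FiniteDimensional ℝ E]
  {a : Amb m E} {J : Type} {job : J → Job a} {ε : ℝ} {P : Pot E} {S : Set J} {D : Set E} {j : J}

section
variable {j0 : Job a} {q : Sx (YY m) (2 * m + 1)} {δ δ' L η : ℝ} {α : WW m →ᴬ[ℝ] WW m}
  {e : WW m → E} {O N No Np Npo A : Set (WW m)} {Θ : Pot2 (WW m)}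

theorem npo_sub (hc : Cht P D j0 ε q δ δ' L η α e O) (hM : IsModel q δ δ' L η N No Np Npo A Θ) :
    Npo ⊆ O := fun v hv => by
  rcases le_or_gt v.2 0 with h | h
  · exact (hM.loo v hv h).elim (fun h1 => hc.sub1 h1) fun h1 => hc.sub2 v h1.1 h1.2
  · exact hc.sub3 v (hM.hul (hM.sNp hv)) h

theorem extend (hc : Cht P D j0 ε q δ δ' L η α e O) (hM : IsModel q δ δ' L η N No Np Npo A Θ)
    (h : WW m → ℝ) (hh : PL h) : ∃ H : E → ℝ, PLOn a.M H ∧ ∀ v ∈ N, H (e v) = h v := by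
  obtain ⟨α', h1, -⟩ := aff_inv α hc.det.ne'
  obtain ⟨i', hi⟩ := left_inv_aff ((a.ι j0.τ).comp α)
    (inj_contLinear _ ((a.inj j0.τ).comp (Function.LeftInverse.injective h1)))
  have he := hc.pl.mono hM.hul
  have hu : PLOn Np fun v => h v - h (i' (e v)) :=
    (hh.plOn Np).sub (hh.comp (PL.comp (plOn_aff i' univ) he))
  have u0 : ∀ v : WW m, v.2 ≤ 0 → h v - h (i' (e v)) = 0 := fun v hv => by
    rw [hc.lo v hv]
    exact sub_eq_zero.2 (congrArg h (hi v).symm)
  obtain ⟨K, hK⟩ := hM.cNp.exists_bound_of_continuousOn hu.continuousOn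
  obtain ⟨χ, c1, c2, c3, c4⟩ := hM.chi
  have k0 : ∀ v, 0 ≤ |K| * χ v := fun v => mul_nonneg (abs_nonneg K) (c2 v)
  obtain ⟨H, H1, H2, -⟩ := ext0 hM.cNp hM.oNp hM.sNp he (hc.inj.mono hM.hul)
    (hc.mem.mono_left hM.hul) (hc.emb.mono hM.oNp (npo_sub hc hM)).oin
    (hu.clamp ((c1.plOn Np).const_mul |K|)) fun v hv hn => by
      rcases le_or_gt v.2 0 with h2 | h2
      · rw [u0 v h2, zero_clamp (k0 v)]
      · rw [c4 v hv h2 hn, mul_zero, clamp_zero]
  refine ⟨fun x => h (i' x) + H x, (hh.comp (plOn_aff i' a.M)).add H1, fun v hv => ?_⟩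
  beta_reduce
  rw [H2 v (hM.sub hv), clamp_of_le, add_sub_cancel]
  rcases le_or_gt v.2 0 with h2 | h2
  · rw [u0 v h2, abs_zero]
    exact k0 v
  · exact ((hK v (hM.sub hv)).trans (le_abs_self K)).trans
      (le_mul_of_one_le_right (abs_nonneg K) (c3 v hv h2))

theorem ctx_ex (hc : Cht P D j0 ε q δ δ' L η α e O) (hM : IsModel q δ δ' L η N No Np Npo A Θ) :
    Nonempty (Ctx P D j0 ε) := by
  have h1 := hM.sub.trans hM.hul
  have h2 := hM.subo.trans (npo_sub hc hM)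
  obtain ⟨Q, hQ, hk, hi⟩ := update hM.cN hM.sN (hc.pl.mono h1) (hc.inj.mono h1)
    (hc.mem.mono_left h1) (hc.emb.mono hM.oN h2) Θ hM.pl hM.pl0 hM.bd (extend hc hM)
  refine ⟨⟨q, δ, δ', L, η, α, e, O, N, No, Np, Npo, A, Θ, Q, hc, hM, hQ, hk P, ?_⟩⟩
  filter_upwards [hi P, hM.old, hc.pb] with v h3 h4 h5 hv
  have := h3 hv _ (h5 (h2 hv))
  rwa [h4 (hM.sN hv), add_sub_cancel] at this

end

theorem StepC_cello (k : Job a) : k.cello ⊆ k.cell := image_mono (opE_sub_clE _ _)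

theorem StepC_K (hs : Static job ε) (i : J) : (job i).K ε ⊆ (job i).Ko (2 * ε) :=
  image_mono (image_mono (clE_sub_opE _ (by linarith [hs.pos])))

namespace Ctx

variable (c : Ctx P D (job j) ε)

theorem isCompact : IsCompact (c.e '' c.N) :=
  c.mod.cN.image_of_continuousOn (c.cht.pl.mono (c.mod.sub.trans c.mod.hul)).continuousOn

theorem img_lo {v : WW m} (hv : v ∈ coneLo c.q) : c.e v ∈ (job j).cell :=
  ⟨c.α v, c.cht.cl ▸ mem_image_of_mem _ hv, (c.cht.lo v hv.1).symm⟩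

theorem img_op {v : WW m} (hv : v ∈ opCone c.q) : c.e v ∈ (job j).cello :=
  ⟨c.α v, c.cht.op ▸ mem_image_of_mem _ hv, (c.cht.lo v hv.1.le).symm⟩

theorem cell_sub : (job j).cell ⊆ c.e '' c.N := by
  rintro _ ⟨z, hz, rfl⟩
  rw [← c.cht.cl] at hz
  obtain ⟨v, hv, rfl⟩ := hz
  exact ⟨v, c.mod.lo hv, c.cht.lo v hv.1⟩

theorem img_up {v : WW m} (hv : v ∈ c.Np) (h : 0 < v.2) : c.e v ∈ D ∪ (job j).K ε := by
  by_cases h1 : v ∈ coneHi c.q c.L (c.L + 1 + 2 * c.δ)
  · exact Or.inr (c.cht.hiK ▸ mem_image_of_mem _ h1)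
  · exact Or.inl (c.cht.up v (c.mod.hul hv) h h1)

theorem disc (hs : Static job ε) (hI : Inv job ε P S D) {i : J} (hi : i ∈ S) (hij : i ≠ j)
    {v : WW m} (h0 : v.2 = 0) (h1 : ‖v.1‖ ≤ c.η) : c.e v ∉ (job i).cell := by
  rintro ⟨z, hz, e⟩
  have h2 : ∀ᶠ u in 𝓝 v, rho c.q u.1 - u.2 < 1 :=
    (((Rho_cont c.q).sub continuous_snd).tendsto v).eventually_lt_const
      (by rw [Pi.sub_apply, h0, sub_zero]; exact c.cht.small _ h1)
  obtain ⟨t, ht, ho, hv⟩ := _root_.eventually_nhds_iff.1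
    ((Eventually.and (c.cht.emb.opn.mem_nhds (c.cht.sub2 v h0 h1)) (c.cht.win v h0 h1)).and h2)
  have he := c.cht.emb.mono ho fun u hu => (ht u hu).1.1
  obtain ⟨W, hW, eW⟩ := he.openSub
  have hs1 := (opE_sub_clE _ _).trans (hs.sub i)
  rw [← closure_opE _ (by simp)] at hz
  obtain ⟨z', h3, h4⟩ := _root_.mem_closure_iff.1 hz _ (hW.preimage (a.ι (job i).τ).continuous)
    (show _ ∈ W from e ▸ (eW.subset (mem_image_of_mem _ hv)).1)
  obtain ⟨u, hu, eu⟩ := eW.superset ⟨h3, a.mem _ (opE_sub_clE _ _ (hs1 h4))⟩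
  obtain ⟨w, ⟨w1, w2⟩, w3⟩ := gen_exists
    (gen_ne (cs m).toContinuousAffineMap (by simpa using cs_ne))
    (he.isOpen_pre ((emb_iota a (job i).τ).oin _ hs1 (isOpen_opE _ _))) ⟨u, hu, z', h4, eu.symm⟩
  rcases lt_or_gt_of_ne (show w.2 ≠ 0 from w3.self_of_nhds) with h5 | h5
  · exact disjoint_left.1 (hs.cc j i hij.symm) (c.img_op ⟨h5, (ht w w1).2⟩) (StepC_cello _ w2)
  · exact disjoint_left.1 (hI.dcell i hi) ((ht w w1).1.2 h5) (StepC_cello _ w2)

theorem npo_cell (hs : Static job ε) (hI : Inv job ε P S D) {i : J} (hi : i ∈ S) (hij : i ≠ j) :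
    Disjoint (c.e '' c.Npo) (job i).cell := by
  refine disjoint_left.2 ?_
  rintro _ ⟨v, hv, rfl⟩ h
  rcases le_or_gt v.2 0 with h1 | h1
  · rcases c.mod.loo v hv h1 with h2 | h2
    · exact disjoint_left.1 (hs.cc j i hij.symm) (c.img_op h2) h
    · exact c.disc hs hI hi hij h2.1 h2.2 h
  · rcases c.img_up (c.mod.sNp hv) h1 with h2 | h2
    · exact disjoint_left.1 (hI.dcell i hi) h2 h
    · exact disjoint_left.1 (hs.ck i j) h (StepC_K hs j h2)

theorem np_K (hs : Static job ε) (hI : Inv job ε P S D) {i : J} (hi : i ∈ S) (hij : i ≠ j) :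
    Disjoint (c.e '' c.Np) ((job i).K ε) := by
  refine disjoint_left.2 ?_
  rintro _ ⟨v, hv, rfl⟩ h
  rcases le_or_gt v.2 0 with h1 | h1
  · exact disjoint_left.1 (hs.ck j i) (c.img_lo (c.mod.lop v hv h1)) (StepC_K hs i h)
  · rcases c.img_up hv h1 with h2 | h2
    · exact disjoint_left.1 (hI.dK i hi) h2 h
    · exact disjoint_left.1 (hs.kk i j hij) (StepC_K hs i h) (StepC_K hs j h2)

theorem n_cello (hs : Static job ε) (hI : Inv job ε P S D) {i : J} (hi : i ∈ S) (hij : i ≠ j) :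
    Disjoint (c.e '' c.N) (job i).cello := by
  refine disjoint_left.2 ?_
  rintro _ ⟨v, hv, rfl⟩ h
  rcases le_or_gt v.2 0 with h1 | h1
  · exact disjoint_left.1 (hs.cc i j hij) h (c.img_lo (c.mod.lop v (c.mod.sub hv) h1))
  · rcases c.img_up (c.mod.sub hv) h1 with h2 | h2
    · exact disjoint_left.1 (hI.dcell i hi) h2 (StepC_cello _ h)
    · exact disjoint_left.1 (hs.ck i j) (StepC_cello _ h) (StepC_K hs j h2)

theorem good (hI : Inv job ε P S D) :
    Good a (P.add c.Q) (⋃ i ∈ S \ {j}, (job i).cell)ᶜ := by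
  have hP := hI.pl.add c.plQ
  have g1 : Good a (P.add c.Q) (c.e '' c.No) :=
    good_of_chart hP (c.cht.emb.mono c.mod.oN (c.mod.subo.trans (npo_sub c.cht c.mod)))
      ((c.ins.and c.mod.pos).mono fun v h hv => ⟨_, h.1 hv, h.2 hv⟩)
  have g2 : Good a (P.add c.Q) (c.e '' (c.N \ c.No)) :=
    (negl_image (c.cht.pl.mono (c.mod.sub.trans c.mod.hul)) sdiff_subset
      (c.mod.negl.mono fun v h hv => hv.2 (h hv.1))).good _
  refine ((g1.union g2).union (c.keep.good c.isCompact.isClosed hI.pl hP hI.good)).mono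
    fun x hx => ?_
  by_cases h : x ∈ c.e '' c.N
  · obtain ⟨v, hv, rfl⟩ := h
    by_cases h1 : v ∈ c.No
    · exact Or.inl (Or.inl (mem_image_of_mem _ h1))
    · exact Or.inl (Or.inr (mem_image_of_mem _ ⟨hv, h1⟩))
  · refine Or.inr ⟨fun h1 => ?_, h⟩
    obtain ⟨i, hi, h2⟩ := mem_iUnion₂.1 h1
    exact hx (mem_iUnion₂.2 ⟨i, ⟨hi, fun e => h (c.cell_sub (mem_singleton_iff.1 e ▸ h2))⟩, h2⟩)

theorem ball_ex (hs : Static job ε) (hI : Inv job ε P S D) : ∃ W : Set E, OpenSub a.M W ∧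
    IsPreconnected W ∧ W ⊆ Dar a (P.add c.Q) ∧ W ⊆ c.e '' c.Npo ∧ (W ∩ c.e '' c.A).Nonempty ∧
    (W ∩ (D \ c.e '' c.N)).Nonempty := by
  obtain ⟨z, r, l, hr, hl, h0, hb⟩ := c.mod.top
  have hO : ball z r ⊆ c.O := fun u hu => npo_sub c.cht c.mod (hb u hu).1
  have he := c.cht.emb.mono isOpen_ball hO
  have hR := c.plQ.comp he.pl he.mapsTo
  obtain ⟨z', r', hr', h0', hs', hd⟩ := wall_dar (P := P.add c.Q) he hR skew_w0 skew_w0 l hl
    (fun _ _ _ _ => rfl) (by
      filter_upwards [c.cht.pb, hR.gen_aff isOpen_ball, pos_of_good (c.good hI) he]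
        with v h1 h2 h3 hv
      have p := h1 (hO hv)
      rw [if_neg (hb v hv).2.1.not_gt] at p
      have p' := h3 hv (fun h4 => by
        obtain ⟨i, hi, h5⟩ := mem_iUnion₂.1 h4
        exact disjoint_left.1 (c.npo_cell hs hI hi.1 hi.2) (mem_image_of_mem _ (hb v hv).1) h5) _
        (p.add (h2 hv))
      exact ⟨fun _ => ⟨p.add (h2 hv), p'⟩, fun _ => ⟨p.add (h2 hv), p'⟩⟩) (mem_ball_self hr) h0
  have he' := he.mono isOpen_ball hs'
  obtain ⟨⟨y, hy, ly⟩, y', hy', ly'⟩ := AmbC_pt l hl h0' hr'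
  obtain ⟨b1, b2, -, b3, -⟩ := hb y' (hs' hy')
  have b4 := c.mod.hul (c.mod.sNp b1)
  refine ⟨_, he'.openSub, (convex_ball z' r').isPreconnected.image _ he'.pl.continuousOn, hd,
    image_mono fun u hu => (hb u (hs' hu)).1,
    ⟨_, mem_image_of_mem _ hy, mem_image_of_mem _ ((hb y (hs' hy)).2.2.1 ly)⟩,
    ⟨_, mem_image_of_mem _ hy', c.cht.up y' b4 b2 fun h => b3 ly' (c.mod.hi h), ?_⟩⟩
  rintro ⟨v, hv, e⟩
  exact b3 ly' (c.cht.inj (c.mod.hul (c.mod.sub hv)) b4 e ▸ hv)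

end Ctx

end Pool.Agent.Work.MP_bf98aa_gt.Pl
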