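import Pool.Agent.Work.MP_bf98aa_gt.Pl.StepB
import Pool.Agent.Work.MP_bf98aa_gt.Pl.StepC
import Pool.Agent.Work.MP_bf98aa_gt.Pl.Model

/-!
The induction step. conn: rem_conn with T = e '' N and W = e '' (Npo with s > 0): a point e v in D with v in N has v.2 > 0 (lop, img_lo, dcell); IsModel.up, Cht.up, IsModel.hi, IsModel.con, injectivity on hull.
inv: D' = (D minus e '' N) union e '' A union W; IsPreconnected.union'; Keep.dar, acc_dar; A and W lie in e '' Npo (npo_cell, np_K). neg: n_cello, Keep.fm. slot: the preimage of the complement of e '' N under (iota tau') o Z is open and contains clE sig eps (np_K), clE_shrink, take the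
minimum with the old eps'. win_keep: the centre z of the window is not mapped into e '' N: its image is in cell i, so not in D or K j; if it were in cell j then tau is the same (iota_eq) and z is in the closure of opE (sig j) 0, which then meets the window ball off the facet (gen_exists, gen_ne),
in the outer half (mapped to D) or in the inner half (opE (sig i) 0); shrink the ball (Wall.mono). win_new: z is in clE (sig j) 0 (Wall.closure_hb), not in opE (cc), z = alpha v with v in coneLo minus opCone, v is not in the disc (disc), IsModel.near, transported by the inverse of alpha.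
-/

set_option autoImplicit false
set_option maxSynthPendingDepth 3
set_option linter.unusedSectionVars false
set_option linter.unusedVariables false

open Set Filter Topology Metric

noncomputable section
namespace Pool.Agent.Work.MP_bf98aa_gt.Pl

open Pool.Agent.Work.MP_bf98aa_gt.Ns

variable {m : ℕ} {E : Type} [NormedAddCommGroup E] [NormedSpace ℝ E] [FiniteDimensional ℝ E]
  {a : Amb m E} {J : Type} {job : J → Job a} {ε : ℝ} {P : Pot E} {S : Set J} {D : Set E} {j : J}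

namespace Ctx

variable (c : Ctx P D (job j) ε)

theorem conn (hI : Inv job ε P S D) (hj : j ∈ S) : IsPreconnected (D \ c.e '' c.N) := by
  have hN : c.N ⊆ hull c.q c.δ c.δ' c.L c.η := c.mod.sub.trans c.mod.hul
  have hNp : c.Npo ⊆ hull c.q c.δ c.δ' c.L c.η := c.mod.sNp.trans c.mod.hul
  refine rem_conn (W := c.e '' (c.Npo ∩ {v | 0 < v.2})) hI.dop hI.dcon c.isCompact.isClosed
    (c.cht.emb.oin _ (inter_subset_left.trans (npo_sub c.cht c.mod))
      (c.mod.oNp.inter (isOpen_lt continuous_const continuous_snd))) ?_ ?_ ?_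
  · rintro _ ⟨⟨v, hv, rfl⟩, hD⟩
    have h0 : 0 < v.2 := by
      by_contra h
      exact disjoint_left.1 (hI.dcell j hj) hD
        (c.img_lo (c.mod.lop v (c.mod.sub hv) (not_lt.1 h)))
    exact ⟨v, ⟨c.mod.up v hv h0, h0⟩, rfl⟩
  · rintro _ ⟨⟨v, hv, rfl⟩, hn⟩
    exact c.cht.up v (hNp hv.1) hv.2 fun h => hn ⟨v, c.mod.hi h, rfl⟩
  · have e : c.e '' (c.Npo ∩ {v | 0 < v.2}) \ c.e '' c.N =
        c.e '' ((c.Npo ∩ {v | 0 < v.2}) \ c.N) := by
      apply Subset.antisymm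
      · rintro _ ⟨⟨v, hv, rfl⟩, hn⟩
        exact ⟨v, ⟨hv, fun h => hn ⟨v, h, rfl⟩⟩, rfl⟩
      · rintro _ ⟨v, hv, rfl⟩
        refine ⟨⟨v, hv.1, rfl⟩, ?_⟩
        rintro ⟨u, hu, h⟩
        exact hv.2 (c.cht.inj (hN hu) (hNp hv.1.1) h ▸ hu)
    rw [e]
    exact c.mod.con.image _ (c.cht.pl.continuousOn.mono fun v hv => hNp hv.1.1)

theorem inv (hs : Static job ε) (hI : Inv job ε P S D) (hj : j ∈ S) : ∃ W : Set E,
    Inv job ε (P.add c.Q) (S \ {j}) ((D \ c.e '' c.N) ∪ c.e '' c.A ∪ W) := by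
  obtain ⟨W, w1, w2, w3, w4, w5, w6⟩ := c.ball_ex hs hI
  have hC : IsClosed (c.e '' c.N) := c.isCompact.isClosed
  have hP : (P.add c.Q).PLOn a.M := hI.pl.add c.plQ
  have hA : c.A ⊆ c.Npo := c.mod.sA.trans c.mod.subo
  have hO : c.A ⊆ c.O := hA.trans (npo_sub c.cht c.mod)
  refine ⟨W, hP, c.good hI, fun i hi => ?_, fun i hi => ?_, ?_, ?_, ?_, fun i hi => ?_,
    fun i hi => ?_⟩
  · filter_upwards [hI.neg i hi.1, c.keep.fm hC hI.pl hP (job i).τ] with z h1 h2 hz
    rw [h2 (hs.sub i (opE_sub_clE _ _ hz))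
      (fun h => disjoint_left.1 (c.n_cello hs hI hi.1 hi.2) h ⟨z, hz, rfl⟩), h1 hz]
  · obtain ⟨ε', h1, h2, h3, h4⟩ := hI.slot i hi.1
    have ho : IsOpen ((fun y => a.ι (job i).τ' ((job i).Z y)) ⁻¹' (c.e '' c.N)ᶜ) :=
      hC.isOpen_compl.preimage ((a.ι _).continuous.comp (job i).Z.continuous)
    obtain ⟨ε'', h5, h6⟩ := clE_shrink (ε := ε) (job i).σ ho fun y hy h =>
      disjoint_left.1 (c.np_K hs hI hi.1 hi.2) (image_mono c.mod.sub h) ⟨_, ⟨y, hy, rfl⟩, rfl⟩
    have h7 : ∀ y ∈ opE (job i).σ (min ε' ε''), a.ι (job i).τ' ((job i).Z y) ∉ c.e '' c.N :=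
      fun y hy => h6 (opE_sub_clE _ _ (opE_mono _ (min_le_right _ _) hy))
    refine ⟨min ε' ε'', lt_min h1 h5, (min_le_left _ _).trans h2, ?_, ?_⟩
    · rintro _ ⟨⟨_, ⟨y, hy, rfl⟩, rfl⟩, hn⟩
      exact Or.inl (Or.inl ⟨h3 ⟨⟨_, ⟨y, opE_mono _ (min_le_left _ _) hy, rfl⟩, rfl⟩, hn⟩, h7 y hy⟩)
    · filter_upwards [h4, c.keep.fm hC hI.pl hP (job i).τ'] with z k1 k2
      rintro ⟨y, hy, rfl⟩
      have hy' := opE_mono _ (min_le_left _ _) hy
      rw [k2 (hs.subZ i ⟨y, opE_sub_clE _ _ (opE_mono _ h2 hy'), rfl⟩) (h7 y hy), k1 ⟨y, hy', rfl⟩]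
  · exact ((hI.dop.diff hC).union (c.cht.emb.oin _ hO c.mod.acc.isOpen)).union w1
  · rw [union_right_comm]
    refine IsPreconnected.union' ?_ (IsPreconnected.union' ?_ (c.conn hI hj) w2)
      (c.mod.conA.image _ (c.cht.emb.pl.continuousOn.mono hO))
    · exact w5.mono (inter_subset_inter_left _ subset_union_right)
    · rwa [inter_comm]
  · refine union_subset (union_subset ?_ ?_) w3
    · exact (diff_subset_diff_left hI.ddar).trans (c.keep.dar hC)
    · exact acc_dar c.cht.emb c.mod.acc hO (c.ins.mono fun v h hv => h (c.mod.sA hv))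
  · have h := c.npo_cell hs hI hi.1 hi.2
    exact disjoint_union_left.2 ⟨disjoint_union_left.2
      ⟨(hI.dcell i hi.1).mono_left diff_subset, h.mono_left (image_mono hA)⟩, h.mono_left w4⟩
  · have h := (c.np_K hs hI hi.1 hi.2).mono_left (image_mono c.mod.sNp)
    exact disjoint_union_left.2 ⟨disjoint_union_left.2
      ⟨(hI.dK i hi.1).mono_left diff_subset, h.mono_left (image_mono hA)⟩, h.mono_left w4⟩

theorem win_keep (hs : Static job ε) (hI : Inv job ε P S D) (hj : j ∈ S) {i : J} (hi : i ∈ S)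
    (hij : i ≠ j) (hw : Win (job i) D) : Win (job i) (D \ c.e '' c.N) := by
  obtain ⟨k, z, r, hW, hb1, hD⟩ := hw
  have hz : a.ι (job i).τ z ∈ (job i).cell := ⟨z, hW.mem, rfl⟩
  have hn : a.ι (job i).τ z ∉ c.e '' c.N := by
    rintro ⟨v, hv, e⟩
    rcases lt_or_ge 0 v.2 with h0 | h0
    · rcases c.img_up (c.mod.sub hv) h0 with h | h
      · exact disjoint_left.1 (hI.dcell i hi) (e ▸ h) hz
      · refine disjoint_left.1 (hs.ck i j) hz (e ▸ ?_)
        exact image_mono (image_mono (clE_sub_opE _ (by linarith [hs.pos]))) h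
    · obtain ⟨z', hz', e'⟩ := c.img_lo (c.mod.lop v (c.mod.sub hv) h0)
      obtain ⟨e1, rfl⟩ := iota_eq (hb1 (mem_ball_self hW.1)) (opE_sub_clE _ _ (hs.sub j hz'))
        (e'.trans e).symm
      rw [← closure_opE _ (by simp)] at hz'
      obtain ⟨y, hy, hy'⟩ := gen_exists (gen_ne (crd (job i).σ k) (crd_ne (by omega) _ _))
        (isOpen_ball.inter (isOpen_opE (job j).σ 0))
        (mem_closure_iff.1 hz' _ isOpen_ball (mem_ball_self hW.1))
      have hj' : a.ι (job i).τ y ∈ (job j).cell := ⟨y, opE_sub_clE _ _ hy.2, by rw [e1]⟩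
      rcases lt_or_gt_of_ne hy'.self_of_nhds with h | h
      · exact disjoint_left.1 (hI.dcell j hj) (hD ⟨y, ⟨hy.1, h⟩, rfl⟩) hj'
      · refine disjoint_left.1 (hs.cc i j hij) ⟨y, fun k' => ?_, rfl⟩ hj'
        rw [neg_zero]
        by_cases hk : k' = k
        · rw [hk]; exact h
        · exact hW.2.2 y hy.1 k' hk
  obtain ⟨r', hr', hs'⟩ := Metric.isOpen_iff.1
    (c.isCompact.isClosed.isOpen_compl.preimage (a.ι (job i).τ).continuous) z hn
  have hm : ball z (min r r') ⊆ ball z r := ball_subset_ball (min_le_left _ _)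
  refine ⟨k, z, min r r', hW.mono (lt_min hW.1 hr') hW.2.1 hm, hm.trans hb1, ?_⟩
  rintro _ ⟨y, hy, rfl⟩
  exact ⟨hD ⟨y, ⟨hm hy.1, hy.2⟩, rfl⟩, hs' (ball_subset_ball (min_le_right _ _) hy.1)⟩

theorem win_new (hs : Static job ε) (hI : Inv job ε P S D) {i : J} (hi : i ∈ S) (hij : i ≠ j)
    (hn : Nbr (job i) (job j)) : Win (job i) (c.e '' c.A) := by
  obtain ⟨e1, k, z, r, hW, hb1, hD⟩ := hn
  have hz : a.ι (job j).τ z ∈ (job i).cell := ⟨z, hW.mem, by rw [e1]⟩
  have h1 : z ∈ clE (job j).σ 0 :=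
    closure_minimal (hD.trans (opE_sub_clE _ _)) (Sx_closed _ _) (hW.closure_hb (by omega))
  rw [← c.cht.cl] at h1
  obtain ⟨v, hv, rfl⟩ := h1
  have h2 : v ∉ opCone c.q := fun h =>
    disjoint_left.1 (hs.cc j i hij.symm) ⟨_, c.cht.op ▸ mem_image_of_mem _ h, rfl⟩ hz
  have h3 := c.mod.near v hv h2 fun h => c.disc hs hI hi hij h.1 h.2 (c.cht.lo v hv.1 ▸ hz)
  obtain ⟨α', h4, -⟩ := aff_inv c.α c.cht.det.ne'
  have h5 : Tendsto α' (𝓝 (c.α v)) (𝓝 v) := by
    have := α'.continuous.tendsto (c.α v)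
    rwa [h4] at this
  obtain ⟨r', hr', hs'⟩ := Metric.eventually_nhds_iff_ball.1 (h5.eventually h3)
  have hm : ball (c.α v) (min r r') ⊆ ball (c.α v) r := ball_subset_ball (min_le_left _ _)
  refine ⟨k, c.α v, min r r', hW.mono (lt_min hW.1 hr') hW.2.1 hm, hm.trans hb1, ?_⟩
  rintro _ ⟨y, hy, rfl⟩
  have h6 := hD ⟨hm hy.1, hy.2⟩
  rw [← c.cht.op] at h6
  obtain ⟨u, hu, rfl⟩ := h6
  have h7 := hs' _ (ball_subset_ball (min_le_right _ _) hy.1)
  rw [h4] at h7
  exact ⟨u, h7 hu, by rw [c.cht.lo u hu.1.le, e1]⟩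

end Ctx

theorem Win.mono {j0 : Job a} {D' : Set E} (h : Win j0 D) (hs : D ⊆ D') : Win j0 D' := by
  obtain ⟨i, z, r, h1, h2, h3⟩ := h
  exact ⟨i, z, r, h1, h2, h3.trans hs⟩

theorem step (hm : 1 ≤ m) (hs : Static job ε) (hI : Inv job ε P S D) (hj : j ∈ S)
    (hw : Win (job j) D) : ∃ (P' : Pot E) (D' : Set E), Inv job ε P' (S \ {j}) D' ∧
      ∀ i ∈ S, i ≠ j → Win (job i) D ∨ Nbr (job i) (job j) → Win (job i) D' := by
  obtain ⟨q, δ, δ', L, η, α, e, O, hc⟩ := cht_ex hm hs hI hj hw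
  obtain ⟨N, No, Np, Npo, A, Θ, hM⟩ := model hm hc.cen hc.pδ hc.pδ' hc.lδ' hc.pη
  obtain ⟨c⟩ := ctx_ex hc hM
  obtain ⟨W, hW⟩ := c.inv hs hI hj
  refine ⟨_, _, hW, fun i hi hij h => h.elim (fun h => ?_) fun h => ?_⟩
  · exact (c.win_keep hs hI hj hi hij h).mono (subset_union_left.trans subset_union_left)
  · exact (c.win_new hs hI hi hij h).mono (subset_union_right.trans subset_union_left)

theorem StepD_loop [Finite J] (hm : 1 ≤ m) (hs : Static job ε) (n : ℕ) :
    ∀ (S : Set J) (P : Pot E) (D : Set E), S.ncard = n → Inv job ε P S D →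
      (∀ j ∈ S, ∃ k ∈ S, Win (job k) D ∧
        Relation.ReflTransGen (fun i k => k ∈ S ∧ Nbr (job i) (job k)) j k) →
      ∃ P' : Pot E, P'.PLOn a.M ∧ Good a P' univ := by
  induction n with
  | zero =>
    intro S P D hn hI _
    obtain rfl := (ncard_eq_zero (toFinite S)).1 hn
    exact ⟨P, hI.pl, hI.good.mono (by simp)⟩
  | succ n ih =>
    intro S P D hn hI hr
    obtain ⟨j0, hj0⟩ := nonempty_of_ncard_ne_zero (s := S) (by omega)
    obtain ⟨k0, hk0, hw, -⟩ := hr j0 hj0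
    obtain ⟨P', D', hI', hW⟩ := step hm hs hI hk0 hw
    refine ih (S \ {k0}) P' D' (by rw [ncard_diff_singleton_of_mem hk0]; omega) hI' ?_
    intro j hj
    obtain ⟨k, hk, hw', hc⟩ := hr j hj.1
    induction hc using Relation.ReflTransGen.head_induction_on with
    | refl => exact ⟨k, hj, hW k hk hj.2 (Or.inl hw'), .refl⟩
    | @head x y h _ ih' =>
      by_cases hy : y = k0
      · exact ⟨x, hj, hW x hj.1 hj.2 (Or.inr (hy ▸ h.2)), .refl⟩
      · obtain ⟨k', h1, h2, h3⟩ := ih' ⟨h.1, hy⟩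
        exact ⟨k', h1, h2, .head ⟨⟨h.1, hy⟩, h.2⟩ h3⟩

/-- Induction on the finite set of remaining cells. -/
theorem loop [Finite J] (hm : 1 ≤ m) (hs : Static job ε) (hI : Inv job ε P univ D)
    (hr : ∀ j, ∃ k, Win (job k) D ∧
      Relation.ReflTransGen (fun i k => Nbr (job i) (job k)) j k) :
    ∃ P' : Pot E, P'.PLOn a.M ∧ Good a P' univ := by
  refine StepD_loop hm hs _ univ P D rfl hI fun j _ => ?_
  obtain ⟨k, h1, h2⟩ := hr j
  exact ⟨k, trivial, h1, Relation.ReflTransGen.mono (fun _ _ h => ⟨trivial, h⟩) _ _ h2⟩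

end Pool.Agent.Work.MP_bf98aa_gt.Pl
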