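import Pool.Agent.Work.MP_bf98aa_gt.Pl.Conn

/-!
Every cell of a packing is joined to the outside through facets. Let H be the finite family of the affine functionals crd (sig k) i. For two of them with linearly independent linear parts the common zero set is c + S with S of codimension 2 (finrank of the intersection of two kernels);
let U0 = U minus all these (codim2_conn). At a point p of U0 all functionals that vanish at p are multiples of one of them. Let R be the set of j that satisfy the conclusion, F = union of clE (sig j) 0 over j not in R, F' = closure (U minus all cells) union the cells with j in R: closed sets that cover U.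
If some j is not in R both meet U0 (U0 is dense in U: gen_sub, gen_exists), so (isPreconnected_closed_iff) there is p in U0, F and F', p in clE (sig j) 0 with j not in R. p is not in opE (sig j) 0; exactly one coordinate i of sig j vanishes at p (two coordinates have independent linear parts as d >= 2);
take a ball B in U on which all functionals that do not vanish at p keep their sign. On the convex set hb no functional vanishes, so hb is inside one opE (sig k) 0 or disjoint from all cells. In both cases either j is in R, or k is not in R and B lies in the union of the cells j and k, so that p is not in F'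
(a cell i containing p has opE (sig i) 0 meeting B off the hyperplane, so i = j or i = k).
-/

set_option autoImplicit false
set_option maxSynthPendingDepth 3
set_option linter.unusedSectionVars false
set_option linter.unusedVariables false

open Set Filter Topology Metric

noncomputable section
namespace Pool.Agent.Work.MP_bf98aa_gt.Pl

open Pool.Agent.Work.MP_bf98aa_gt.Ns

variable {Y : Type} [NormedAddCommGroup Y] [NormedSpace ℝ Y] [FiniteDimensional ℝ Y] {d : ℕ}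

theorem Tile_sub (l : Y →ᴬ[ℝ] ℝ) (y c : Y) : l.contLinear (y - c) = l y - l c :=
  l.contLinear_map_vsub y c

theorem Tile_conn {A : Type} [Finite A] (l : A → Y →ᴬ[ℝ] ℝ) (hl : ∀ a, (l a).contLinear ≠ 0)
    {U : Set Y} (hU : IsOpen U) (hc : Convex ℝ U) :
    IsPreconnected {y | y ∈ U ∧ ∀ a b, l a y = 0 → l b y = 0 →
      ∀ v, (l a).contLinear v = 0 → (l b).contLinear v = 0} := by
  let S : A → Submodule ℝ Y := fun a => LinearMap.ker ((l a).contLinear : Y →ₗ[ℝ] ℝ)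
  have ex : ∀ a b, ∃ c, (∃ y, l a y = 0 ∧ l b y = 0) → l a c = 0 ∧ l b c = 0 := fun a b => by
    by_cases h : ∃ y, l a y = 0 ∧ l b y = 0
    exacts [⟨h.choose, fun _ => h.choose_spec⟩, ⟨0, fun h' => absurd h' h⟩]
  choose c hz using ex
  have hm : ∀ a b y, (∃ y, l a y = 0 ∧ l b y = 0) →
      (y - c a b ∈ S a ⊓ S b ↔ l a y = 0 ∧ l b y = 0) := fun a b y h => by
    change (l a).contLinear _ = 0 ∧ (l b).contLinear _ = 0 ↔ _
    rw [Tile_sub, Tile_sub, (hz a b h).1, (hz a b h).2, sub_zero, sub_zero]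
  have h := codim2_conn hU hc (𝒮 := (fun p : A × A => (c p.1 p.2, S p.1 ⊓ S p.2)) ''
    {p | (∃ y, l p.1 y = 0 ∧ l p.2 y = 0) ∧ ¬ S p.1 ≤ S p.2}) ((toFinite _).image _) (by
      rintro _ ⟨⟨a, b⟩, ⟨-, h⟩, rfl⟩
      have h1 := Submodule.finrank_lt_finrank_of_lt (inf_lt_left.2 h)
      have h2 := Submodule.finrank_lt (s := S a) fun e =>
        hl a (ContinuousLinearMap.ext fun v => (e.ge Submodule.mem_top : v ∈ S a))
      dsimp only at h1 ⊢
      omega)
  refine (congrArg IsPreconnected (Set.ext fun y => and_congr_right fun _ =>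
    ⟨fun h a b ha hb => ?_, ?_⟩)).mp h
  · by_contra h0
    exact h _ ⟨(a, b), ⟨⟨y, ha, hb⟩, h0⟩, rfl⟩ ((hm a b y ⟨y, ha, hb⟩).2 ⟨ha, hb⟩)
  · rintro h _ ⟨⟨a, b⟩, ⟨h1, h2⟩, rfl⟩ h3
    exact h2 (h a b ((hm a b y h1).1 h3).1 ((hm a b y h1).1 h3).2)

theorem Tile_ind (hd : 2 ≤ d) (σ : Sx Y d) {i i' : Fin (d + 1)} (h : i' ≠ i) :
    ∃ v, (crd σ i).contLinear v = 0 ∧ (crd σ i').contLinear v ≠ 0 := by
  obtain ⟨k, hk⟩ : ∃ k, k ∉ ({i, i'} : Finset (Fin (d + 1))) := by
    by_contra h0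
    have := Finset.card_le_card (fun k _ => not_not.1 fun h => h0 ⟨k, h⟩ : Finset.univ ⊆ {i, i'})
    have := Finset.card_le_two (a := i) (b := i')
    simp only [Finset.card_univ, Fintype.card_fin] at *
    omega
  rw [Finset.mem_insert, Finset.mem_singleton, not_or] at hk
  refine ⟨σ i' - σ k, ?_⟩
  simp [Tile_sub, crd_apply, σ.coord_apply_ne h.symm, σ.coord_apply_ne (Ne.symm hk.1),
    σ.coord_apply_ne (Ne.symm hk.2)]

theorem Tile_loc (hd : 2 ≤ d) {κ : Type} [Finite κ] (σ : κ → Sx Y d) {U : Set Y} (hU : IsOpen U)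
    {p : Y} (hp : p ∈ U) (h0 : ∀ a b : κ × Fin (d + 1), crd (σ a.1) a.2 p = 0 →
      crd (σ b.1) b.2 p = 0 → ∀ v, (crd (σ a.1) a.2).contLinear v = 0 →
        (crd (σ b.1) b.2).contLinear v = 0) {j : κ} (hj : p ∈ clE (σ j) 0) :
    ∃ r > 0, ball p r ⊆ U ∧ ∀ y ∈ ball p r, y ∉ clE (σ j) 0 → ∃ i, Wall (σ j) i p r ∧
      y ∈ hb (σ j) i p r ∧ ∀ k, ∀ z ∈ hb (σ j) i p r, z ∈ clE (σ k) 0 →
        hb (σ j) i p r ⊆ opE (σ k) 0 := by
  have h1 : ∀ᶠ y in 𝓝 p, y ∈ U ∧ ∀ a : κ × Fin (d + 1), (σ a.1).coord a.2 p ≠ 0 →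
      0 < (σ a.1).coord a.2 p * (σ a.1).coord a.2 y := by
    refine (hU.eventually_mem hp).and (eventually_all.2 fun a => eventually_imp_distrib_left.2
      fun h => ?_)
    exact (continuous_const.mul (Sx_cont _ _)).continuousAt.eventually (lt_mem_nhds (mul_self_pos.2 h))
  obtain ⟨r, hr, h1⟩ := Metric.eventually_nhds_iff_ball.1 h1
  refine ⟨r, hr, fun y hy => (h1 y hy).1, fun y hy hn => ?_⟩
  have h2 : ∀ i, (σ j).coord i p ≠ 0 → ∀ z ∈ ball p r, 0 < (σ j).coord i z := fun i h z hz =>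
    pos_of_mul_pos_right ((h1 z hz).2 (j, i) h) (by simpa using hj i)
  obtain ⟨i, hi⟩ : ∃ i, (σ j).coord i y < 0 := by simpa [clE] using hn
  have h3 : (σ j).coord i p = 0 := not_not.1 fun h => (h2 i h y hy).not_gt hi
  refine ⟨i, ⟨hr, h3, fun z hz i' h => h2 i' (fun h4 => ?_) z hz⟩, ⟨hy, hi⟩,
    fun k z hz hk w hw m => ?_⟩
  · obtain ⟨v, h5, h6⟩ := Tile_ind hd (σ j) h
    exact h6 (h0 (j, i) (j, i') h3 h4 v h5)
  have h4 : ∀ u ∈ hb (σ j) i p r, (σ k).coord m u ≠ -0 := fun u hu e => by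
    rw [neg_zero] at e
    by_cases h : (σ k).coord m p = 0
    · have := h0 (k, m) (j, i) h h3 (u - p) (by rw [Tile_sub, crd_apply, crd_apply, e, h, sub_zero])
      rw [Tile_sub, crd_apply, crd_apply, h3, sub_zero] at this
      exact ne_of_lt hu.2 this
    · simpa [e] using (h1 u hu.1).2 (k, m) h
  have h5 : Convex ℝ (hb (σ j) i p r) :=
    (convex_ball p r).inter ((convex_Iio 0).affine_preimage ((σ j).coord i))
  exact h5.isPreconnected.lt_of_ne (Sx_cont _ _).continuousOn h4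
    ⟨z, hz, (hk m).lt_of_ne (h4 z hz).symm⟩ hw

theorem tile (hd : 2 ≤ d) {κ : Type} [Finite κ] (σ : κ → Sx Y d) {U : Set Y} (hU : IsOpen U)
    (hc : Convex ℝ U) (hs : ∀ j, clE (σ j) 0 ⊆ U)
    (hdis : ∀ i j, i ≠ j → Disjoint (opE (σ i) 0) (clE (σ j) 0))
    (hne : (U \ ⋃ j, clE (σ j) 0).Nonempty) (j : κ) :
    ∃ k, (∃ i z r, Wall (σ k) i z r ∧ ball z r ⊆ U ∧
        Disjoint (hb (σ k) i z r) (⋃ j, clE (σ j) 0)) ∧
      Relation.ReflTransGen (fun j k => ∃ i z r, Wall (σ j) i z r ∧ ball z r ⊆ U ∧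
        hb (σ j) i z r ⊆ opE (σ k) 0) j k := by
  by_contra hj
  set R : κ → Prop := fun j => ∃ k, (∃ i z r, Wall (σ k) i z r ∧ ball z r ⊆ U ∧
    Disjoint (hb (σ k) i z r) (⋃ j, clE (σ j) 0)) ∧
      Relation.ReflTransGen (fun j k => ∃ i z r, Wall (σ j) i z r ∧ ball z r ⊆ U ∧
        hb (σ j) i z r ⊆ opE (σ k) 0) j k with hR
  have hl : ∀ a : κ × Fin (d + 1), (crd (σ a.1) a.2).contLinear ≠ 0 := fun a =>
    crd_ne (by omega) _ _
  have hg : ∀ᶠ y in gen Y, ∀ a : κ × Fin (d + 1), crd (σ a.1) a.2 y ≠ 0 :=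
    eventually_all.2 fun a => gen_ne _ (hl a)
  have hcl : ∀ P : κ → Prop, IsClosed (⋃ j : {j // P j}, clE (σ j) 0) := fun P =>
    isClosed_iUnion_of_finite fun j => Sx_closed _ _
  obtain ⟨p, hp, hF, hF'⟩ := isPreconnected_closed_iff.1 (Tile_conn _ hl hU hc) _ _
    (hcl fun j => ¬ R j) ((isClosed_closure (s := U \ ⋃ j, clE (σ j) 0)).union (hcl R))
    (fun y hy => by
      by_cases h : y ∈ ⋃ j, clE (σ j) 0
      · obtain ⟨k, hk⟩ := mem_iUnion.1 h
        by_cases h' : R k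
        exacts [.inr (.inr (mem_iUnion.2 ⟨⟨k, h'⟩, hk⟩)), .inl (mem_iUnion.2 ⟨⟨k, h'⟩, hk⟩)]
      · exact .inr (.inl (subset_closure ⟨hy.1, h⟩)))
    (by
      obtain ⟨y, hy, h⟩ := gen_exists hg (isOpen_opE (σ j) 0) (opE_nonempty _ (by simp))
      exact ⟨y, ⟨hs j (opE_sub_clE _ _ hy), fun a _ h' => absurd h' (h.self_of_nhds a)⟩,
        mem_iUnion.2 ⟨⟨j, hj⟩, opE_sub_clE _ _ hy⟩⟩)
    (by
      obtain ⟨y, hy, h⟩ := gen_exists hg
        (hU.sdiff (isClosed_iUnion_of_finite fun j => Sx_closed _ _)) hne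
      exact ⟨y, ⟨hy.1, fun a _ h' => absurd h' (h.self_of_nhds a)⟩, .inl (subset_closure hy)⟩)
  obtain ⟨⟨k, hk⟩, hpk⟩ := mem_iUnion.1 hF
  obtain ⟨r, hr, hB, h⟩ := Tile_loc hd σ hU hp.1 hp.2 hpk
  rcases hF' with h1 | h1
  · obtain ⟨y, hy, hy'⟩ := _root_.mem_closure_iff.1 h1 _ isOpen_ball (mem_ball_self hr)
    obtain ⟨i, hw, h2, h3⟩ := h y hy fun h => hy'.2 (mem_iUnion.2 ⟨k, h⟩)
    refine hk ⟨k, ⟨i, p, r, hw, hB, disjoint_left.2 fun z hz hz' => ?_⟩, .refl⟩
    obtain ⟨m, hm⟩ := mem_iUnion.1 hz'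
    exact hy'.2 (mem_iUnion.2 ⟨m, opE_sub_clE _ _ (h3 m z hz hm h2)⟩)
  · obtain ⟨⟨m, m', h4, h5⟩, hm⟩ := mem_iUnion.1 h1
    rw [← closure_opE _ (by simp)] at hm
    obtain ⟨y, hy, hy'⟩ := _root_.mem_closure_iff.1 hm _ isOpen_ball (mem_ball_self hr)
    obtain ⟨i, hw, h2, h3⟩ := h y hy
      (disjoint_left.1 (hdis m k fun e => hk (e ▸ ⟨m', h4, h5⟩)) hy')
    exact hk ⟨m', h4, .head ⟨i, p, r, hw, hB, h3 m y h2 (opE_sub_clE _ _ hy')⟩ h5⟩

end Pool.Agent.Work.MP_bf98aa_gt.Pl
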