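import Pool.Agent.Work.MP_bf98aa_gt.Pl.Init
import Pool.Agent.Work.MP_bf98aa_gt.Pl.PackC
import Pool.Agent.Work.MP_bf98aa_gt.Pl.Tile
import Pool.Agent.Work.MP_bf98aa_gt.Pl.StepD

/-!
The existence theorem on an ambient polyhedron. The sum of max (Pq) 0 minus the sum of max (-Pq) 0 is positive; by continuity at x = 1 choose x > 1 with x^N times the negative part below the positive part, mu = (1 + x)/2 and eps > 0 with mu (1 + (2 m + 3) 2 eps) = x.
shells, pack, init, loop. For j apply tile to the cells with the same tau (a subtype of J), U = opE Delta 0: their union is clE Delta (inn m); the shell is nonempty (a point with one coordinate between 0 and - inn m: closure_opE and a vertex, or ann); lift the chain with Relation.ReflTransGen.lift.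
-/

set_option autoImplicit false
set_option maxSynthPendingDepth 3
set_option linter.unusedSectionVars false
set_option linter.unusedVariables false

open Set Filter Topology Metric

noncomputable section
namespace Pool.Agent.Work.MP_bf98aa_gt.Pl

open Pool.Agent.Work.MP_bf98aa_gt.Ns

variable {m : ℕ} {E : Type} [NormedAddCommGroup E] [NormedSpace ℝ E] [FiniteDimensional ℝ E]

theorem Core_num (m : ℕ) {p n : ℝ} (h : n < p) : ∃ μ ε : ℝ, 1 < μ ∧ 0 < ε ∧
    (μ * (1 + (2 * (m : ℝ) + 3) * (2 * ε))) ^ (2 * m + 2) * n < p := by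
  have hc : Continuous fun t : ℝ =>
      ((1 + t) * (1 + (2 * (m : ℝ) + 3) * (2 * t))) ^ (2 * m + 2) * n := by fun_prop
  have h1 : ∀ᶠ t in 𝓝 (0 : ℝ),
      ((1 + t) * (1 + (2 * (m : ℝ) + 3) * (2 * t))) ^ (2 * m + 2) * n < p :=
    hc.continuousAt.eventually_lt continuousAt_const (by simpa using h)
  obtain ⟨t, ht, ht0⟩ := ((h1.filter_mono (nhdsWithin_le_nhds (s := Ioi 0))).and
    self_mem_nhdsWithin).exists
  exact ⟨1 + t, t, lt_add_of_pos_right 1 ht0, ht0, ht⟩

theorem Core_shell (Δ : Sx (WW m) (2 * m + 2)) : (opE Δ 0 \ clE Δ (inn m)).Nonempty := by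
  by_contra hn
  rw [not_nonempty_iff_eq_empty, sdiff_eq_empty] at hn
  have h1 := closure_minimal hn (Sx_closed Δ (inn m))
  rw [closure_opE Δ (by simp)] at h1
  have h2 : Δ 0 ∈ clE Δ 0 := fun i => by
    rw [AffineBasis.coord_apply]
    split_ifs <;> simp
  have h3 := h1 h2 (Fin.last _)
  rw [Δ.coord_apply_ne (Fin.last_pos.ne')] at h3
  linarith [(inn_pos m).2]

theorem core (hm : 1 ≤ m) (a : Amb m E) (hne : ∀ τ, Pq (a.B τ) ≠ 0) (h : 0 < ∑ τ, Pq (a.B τ)) :
    ∃ P : Pot E, P.PLOn a.M ∧ Good a P univ := by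
  have h0 : ∑ τ, max (-Pq (a.B τ)) 0 < ∑ τ, max (Pq (a.B τ)) 0 := by
    rw [← sub_pos, ← Finset.sum_sub_distrib]
    refine h.trans_eq (Finset.sum_congr rfl fun τ _ => ?_)
    exact (max_zero_sub_max_neg_zero_eq_self _).symm
  obtain ⟨μ, ε, hμ, hε, hnum⟩ := Core_num m h0
  obtain ⟨P, hP, h1, h2⟩ := shells a hμ
  obtain ⟨J, _, job, hs, h3, h4⟩ := pack a (zero_lt_one.trans hμ) hε hnum
  obtain ⟨D, hI, hD⟩ := init a hne hP h1 h2 hs h3 h4
  refine loop hm hs hI fun j => ?_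
  have hU : (⋃ k : {k : J // (job k).τ = (job j).τ}, clE (job k.1).σ 0) = clE a.Δ (inn m) := by
    refine Subset.antisymm (iUnion_subset fun k => (h3 k.1).2.2.2) fun z hz => ?_
    obtain ⟨k, hk, hz'⟩ := h4 _ (h3 j).1 z hz
    exact mem_iUnion.2 ⟨⟨k, hk⟩, hz'⟩
  obtain ⟨k, ⟨i, z, r, hw, hb1, hb2⟩, hch⟩ :=
    tile (d := 2 * m + 2) (by omega) (κ := {k : J // (job k).τ = (job j).τ})
      (fun k => (job k.1).σ) (isOpen_opE a.Δ 0) (convex_opE a.Δ 0) (fun k => hs.sub k.1)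
      (fun k l hkl => Set.disjoint_left.2 fun y hy hy' =>
        Set.disjoint_left.1 (hs.cc k.1 l.1 fun e => hkl (Subtype.ext e)) ⟨y, hy, rfl⟩
          ⟨y, hy', by rw [k.2, l.2]⟩)
      (by rw [hU]; exact Core_shell a.Δ) ⟨j, rfl⟩
  rw [hU] at hb2
  refine ⟨k.1, ⟨i, z, r, hw, hb1, (image_mono fun y hy => ?_).trans (hD _ (h3 k.1).1)⟩, ?_⟩
  · exact ⟨hb1 hy.1, Set.disjoint_left.1 hb2 hy⟩
  · clear hb1 hb2 hw
    induction hch with
    | refl => exact .refl
    | @tail k l _ hkl ih => exact ih.tail ⟨k.2.trans l.2.symm, hkl⟩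

end Pool.Agent.Work.MP_bf98aa_gt.Pl
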