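import Pool.Agent.Work.MP_bf98aa_gt.Ns.Pf

/-!
Working definitions for the existence theorem for piecewise linear symplectic forms.
Write-up: team store, h67_bf98aa_pl.md.
-/

set_option autoImplicit false
set_option maxSynthPendingDepth 3

open Set Filter Topology Metric

noncomputable section
namespace Pool.Agent.Work.MP_bf98aa_gt.Pl

open Pool.Agent.Work.MP_bf98aa_gt.Ns

/-- Generic properties: those that hold on an open dense set. -/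
def gen (V : Type) [TopologicalSpace V] : Filter V where
  sets := {S | Dense (interior S)}
  univ_sets := by simp
  sets_of_superset := fun h h' => Dense.mono (interior_mono h') h
  inter_sets := fun {S S'} h h' => by
    show Dense (interior (S ∩ S'))
    rw [interior_inter]
    exact Dense.inter_of_isOpen_left h h' isOpen_interior

def clamp (u b : ℝ) : ℝ := max (-b) (min b u)

section PL
variable {V F : Type} [NormedAddCommGroup V] [NormedSpace ℝ V] [NormedAddCommGroup F]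
  [NormedSpace ℝ F]

/-- Continuous selections of finitely many affine maps. -/
def PLOn (S : Set V) (f : V → F) : Prop :=
  ContinuousOn f S ∧ ∃ 𝒜 : Set (V →ᴬ[ℝ] F), 𝒜.Finite ∧ ∀ x ∈ S, ∃ A ∈ 𝒜, f x = A x

abbrev PL (f : V → F) : Prop := PLOn univ f

/-- Affine near `y`. -/
def LocAff (f : V → F) (y : V) : Prop := ∃ A : V →ᴬ[ℝ] F, f =ᶠ[𝓝 y] A

/-- Mutually inverse orientation preserving piecewise linear homeomorphisms. -/
structure IsPLH (φ ψ : V → V) : Prop where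
  pl : PL φ
  pl' : PL ψ
  left : ∀ y, ψ (φ y) = y
  right : ∀ y, φ (ψ y) = y
  pos : ∀ᶠ y in gen V, 0 < (fderiv ℝ φ y).det

/-- Contained in finitely many lines. -/
def Lines (X : Set V) : Prop :=
  ∃ S : Set (V × V), S.Finite ∧ ∀ x ∈ X, ∃ p ∈ S, ∃ t : ℝ, x = p.1 + t • p.2

/-- Relatively open subsets. -/
def OpenSub (M D : Set F) : Prop := ∃ O, IsOpen O ∧ D = O ∩ M

/-- The map is open from `U` to `M`. -/
def OpenIn (M : Set F) (e : V → F) (U : Set V) : Prop :=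
  ∀ U' ⊆ U, IsOpen U' → OpenSub M (e '' U')

/-- A piecewise linear open embedding of `U` in `M`. -/
structure Emb (M : Set F) (e : V → F) (U : Set V) : Prop where
  opn : IsOpen U
  pl : PLOn U e
  inj : InjOn e U
  oin : OpenIn M e U

end PL

/-- A finite family of pairs of functions. -/
structure Pot (E : Type) : Type 1 where
  κ : Type
  fin : Fintype κ
  f : κ → E → ℝ
  g : κ → E → ℝ

instance {E : Type} (P : Pot E) : Fintype P.κ := P.fin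

/-- Two families with the same index type. -/
structure Pot2 (E : Type) : Type 1 where
  κ : Type
  fin : Fintype κ
  f : κ → E → ℝ
  g : κ → E → ℝ
  f0 : κ → E → ℝ
  g0 : κ → E → ℝ

def Pot2.new {E : Type} (P : Pot2 E) : Pot E := ⟨P.κ, P.fin, P.f, P.g⟩

def Pot2.old {E : Type} (P : Pot2 E) : Pot E := ⟨P.κ, P.fin, P.f0, P.g0⟩

def Pot.comp {V E : Type} (P : Pot E) (e : V → E) : Pot V :=
  ⟨P.κ, P.fin, fun k y => P.f k (e y), fun k y => P.g k (e y)⟩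

section Pot
variable {V : Type} [NormedAddCommGroup V] [NormedSpace ℝ V]

def Pot.PLOn (P : Pot V) (S : Set V) : Prop := ∀ k, Pl.PLOn S (P.f k) ∧ Pl.PLOn S (P.g k)

def Pot.AffAt (P : Pot V) (y : V) : Prop := ∀ k, LocAff (P.f k) y ∧ LocAff (P.g k) y

/-- The 2-form `∑ df ∧ dg`. -/
def Pot.form (P : Pot V) (y : V) : B2 V :=
  ∑ k, wedge (fderiv ℝ (P.f k) y) (fderiv ℝ (P.g k) y)

end Pot

/-! Simplices and radial maps. -/

abbrev Sx (Y : Type) [AddCommGroup Y] [Module ℝ Y] (d : ℕ) : Type := AffineBasis (Fin (d + 1)) ℝ Y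

section Sx
variable {Y : Type} [NormedAddCommGroup Y] [NormedSpace ℝ Y] {d : ℕ}

def clE (σ : Sx Y d) (ε : ℝ) : Set Y := {y | ∀ i, -ε ≤ σ.coord i y}

def opE (σ : Sx Y d) (ε : ℝ) : Set Y := {y | ∀ i, -ε < σ.coord i y}

/-- A ball centred on the facet number `i` that meets no other facet. -/
def Wall (σ : Sx Y d) (i : Fin (d + 1)) (z : Y) (r : ℝ) : Prop :=
  0 < r ∧ σ.coord i z = 0 ∧ ∀ y ∈ ball z r, ∀ i', i' ≠ i → 0 < σ.coord i' y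

/-- The outer open half ball. -/
def hb (σ : Sx Y d) (i : Fin (d + 1)) (z : Y) (r : ℝ) : Set Y := ball z r ∩ {y | σ.coord i y < 0}

/-- The origin is an interior point. -/
def Cen (q : Sx Y d) : Prop := ∀ j, 0 < q.coord j 0

def ell (q : Sx Y d) (j : Fin (d + 1)) (y : Y) : ℝ := 1 - q.coord j y / q.coord j 0

/-- The gauge of the simplex. -/
def rho (q : Sx Y d) (y : Y) : ℝ := Finset.univ.sup' Finset.univ_nonempty fun j => ell q j y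

def bet (q : Sx Y d) (j : Fin (d + 1)) (y : Y) : ℝ := q.coord j 0 * (rho q y - ell q j y)

def ps (q : Sx Y d) (k : ℕ) (y : Y) : ℝ := ∑ j : Fin (d + 1), if j.1 < k then bet q j y else 0

/-- An increasing map of the line that fixes `0` and sends `ρ` to `r`. -/
def th (Λ ρ r S : ℝ) : ℝ :=
  S + min (Λ * max S 0) (max (r - ρ) 0) - min (Λ / (1 + Λ) * max S 0) (max (ρ - r) 0)

def Rat (Λ ρ r : ℝ) : Prop := 0 ≤ ρ ∧ 0 ≤ r ∧ r ≤ (1 + Λ) * ρ ∧ ρ ≤ (1 + Λ) * r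

/-- The radial map: it moves `y` to the level `r` of the gauge. -/
def rad (q : Sx Y d) (Λ : ℝ) (y : Y) (r : ℝ) : Y :=
  ∑ j : Fin (d + 1),
    (th Λ (rho q y) r (ps q (j.1 + 1) y) - th Λ (rho q y) r (ps q j.1 y)) • q j

/-- The profile coordinates. -/
def pr (q : Sx Y d) (v : Y × ℝ) : ℝ × ℝ := (rho q v.1, v.2)

def rot (q : Sx Y d) (S : Set (ℝ × ℝ)) : Set (Y × ℝ) := pr q ⁻¹' S

def coneLo (q : Sx Y d) : Set (Y × ℝ) := {v | v.2 ≤ 0 ∧ rho q v.1 - v.2 ≤ 1}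

def opCone (q : Sx Y d) : Set (Y × ℝ) := {v | v.2 < 0 ∧ rho q v.1 - v.2 < 1}

def coneHi (q : Sx Y d) (a b : ℝ) : Set (Y × ℝ) := {v | a ≤ v.2 ∧ rho q v.1 + v.2 ≤ b}

def tub (η a b : ℝ) : Set (Y × ℝ) := {v | ‖v.1‖ ≤ η ∧ a ≤ v.2 ∧ v.2 ≤ b}

def tubO (η a b : ℝ) : Set (Y × ℝ) := {v | ‖v.1‖ < η ∧ a < v.2 ∧ v.2 < b}

def hull (q : Sx Y d) (δ δ' L η : ℝ) : Set (Y × ℝ) :=
  coneLo q ∪ tub η 0 L ∪ coneHi q (L - δ') (L + 1 + 2 * δ + δ')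

end Sx

/-! The model space, coordinates `((x, t), s)`. -/

abbrev YY (m : ℕ) : Type := XX m × ℝ

abbrev WW (m : ℕ) : Type := YY m × ℝ

section Std
variable {m : ℕ}

def cx (m : ℕ) : WW m →L[ℝ] XX m :=
  (ContinuousLinearMap.fst ℝ (XX m) ℝ).comp (ContinuousLinearMap.fst ℝ (YY m) ℝ)

def ct (m : ℕ) : B1 (WW m) :=
  (ContinuousLinearMap.snd ℝ (XX m) ℝ).comp (ContinuousLinearMap.fst ℝ (YY m) ℝ)

def cs (m : ℕ) : B1 (WW m) := ContinuousLinearMap.snd ℝ (YY m) ℝ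

def w0 (m : ℕ) : B2 (WW m) := pb (cx m) (wD m) + wedge (cs m) (ct m)

def wn (m : ℕ) : B2 (WW m) := pb (cx m) (wD m) - wedge (cs m) (ct m)

/-- The normalised Pfaffian. -/
def Pq (b : B2 (WW m)) : ℝ := pf b / pf (w0 m)

/-- The point of the axis at height `s`. -/
def ax (m : ℕ) (s : ℝ) : WW m := (0, s)

def Sp (g : WW m →ᴬ[ℝ] WW m) : Prop := pb g.contLinear (w0 m) = w0 m

/-- The frame moved forward along its axis. -/
def fw (g : WW m →ᴬ[ℝ] WW m) (L : ℝ) : WW m →ᴬ[ℝ] WW m :=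
  g.comp (ContinuousAffineMap.id ℝ (WW m) + ContinuousAffineMap.const ℝ (WW m) (ax m L))

/-- The image of the axis. -/
def axis {F : Type} (h : WW m → F) (L : ℝ) : Set F := (fun s => h (ax m s)) '' Icc 0 L

/-- The level of the inner half size simplex. -/
def inn (m : ℕ) : ℝ := -(1 / (2 * (2 * (m : ℝ) + 3)))

/-- The set `A` is parametrised by a chart in which the form of `P` is standard. -/
def Acc (P : Pot (WW m)) (A : Set (WW m)) : Prop :=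
  ∃ (Sb : Set (WW m)) (G : WW m → WW m), IsOpen Sb ∧ PL G ∧ InjOn G Sb ∧ G '' Sb = A ∧
    (∀ U ⊆ Sb, IsOpen U → IsOpen (G '' U)) ∧
    ∀ᶠ u in gen (WW m), u ∈ Sb →
      0 < (fderiv ℝ G u).det ∧ pb (fderiv ℝ G u) (P.form (G u)) = w0 m

/-- The cancellation model. -/
structure IsModel (q : Sx (YY m) (2 * m + 1)) (δ δ' L η : ℝ) (N No Np Npo A : Set (WW m))
    (Θ : Pot2 (WW m)) : Prop where
  cN : IsCompact N
  cNp : IsCompact Np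
  oN : IsOpen No
  oNp : IsOpen Npo
  sN : No ⊆ N
  sNp : Npo ⊆ Np
  sub : N ⊆ Np
  subo : No ⊆ Npo
  negl : ∀ᶠ v in gen (WW m), v ∈ N → v ∈ No
  hul : Np ⊆ hull q δ δ' L η
  lo : coneLo q ⊆ N
  hi : coneHi q L (L + 1 + 2 * δ) ⊆ N
  lop : ∀ v ∈ Np, v.2 ≤ 0 → v ∈ coneLo q
  loo : ∀ v ∈ Npo, v.2 ≤ 0 → v ∈ opCone q ∨ (v.2 = 0 ∧ ‖v.1‖ ≤ η)
  up : ∀ v ∈ N, 0 < v.2 → v ∈ Npo
  con : IsPreconnected ((Npo ∩ {v | 0 < v.2}) \ N)
  chi : ∃ χ : WW m → ℝ, PL χ ∧ (∀ v, 0 ≤ χ v) ∧ (∀ v ∈ N, 0 < v.2 → 1 ≤ χ v) ∧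
    ∀ v ∈ Np, 0 < v.2 → v ∉ Npo → χ v = 0
  pl : Θ.new.PLOn univ
  pl0 : Θ.old.PLOn univ
  bd : ∀ v ∈ N, v ∉ No → ∀ k, Θ.f k v = Θ.f0 k v ∧ Θ.g k v = Θ.g0 k v
  old : ∀ᶠ v in gen (WW m), v ∈ N → Θ.old.form v = if v.2 < 0 then wn m else w0 m
  pos : ∀ᶠ v in gen (WW m), v ∈ No → 0 < Pq (Θ.new.form v)
  acc : Acc Θ.new A
  sA : A ⊆ No
  conA : IsPreconnected A
  near : ∀ v ∈ coneLo q, v ∉ opCone q → ¬(v.2 = 0 ∧ ‖v.1‖ ≤ η) →
    ∀ᶠ u in 𝓝 v, u ∈ opCone q → u ∈ A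
  top : ∃ (z : WW m) (r : ℝ) (l : WW m →ᴬ[ℝ] ℝ), 0 < r ∧ l.contLinear ≠ 0 ∧ l z = 0 ∧
    ∀ u ∈ ball z r, u ∈ Npo ∧ 0 < u.2 ∧ (l u < 0 → u ∈ A) ∧ (0 < l u → u ∉ N) ∧
      (l u = 0 → u ∈ N ∧ u ∉ No)

/-- Locally a symplectic piecewise linear homeomorphism, with value in `U`. -/
def SLoc (U : Set (WW m)) (h : WW m → WW m) (y : WW m) : Prop :=
  ∃ φ ψ, IsPLH φ ψ ∧ (∀ᶠ z in gen (WW m), pb (fderiv ℝ φ z) (w0 m) = w0 m) ∧ h =ᶠ[𝓝 y] φ ∧ h y ∈ U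

/-- Near `g 0` the set lies on the backward ray. -/
def Fr (X : Set (WW m)) (g : WW m →ᴬ[ℝ] WW m) : Prop :=
  ∀ᶠ z in 𝓝 (g 0), z ∈ X → ∃ s ≤ 0, z = g (ax m s)

/-- A germ of symplectic tube in `U` from the frame `g` to the frame `g'` whose axis avoids `X`. -/
structure VS (U X : Set (WW m)) (g : WW m →ᴬ[ℝ] WW m) (L : ℝ) (h : WW m → WW m)
    (g' : WW m →ᴬ[ℝ] WW m) : Prop where
  pos : 0 < L
  st : h =ᶠ[𝓝 0] g
  loc : ∀ s ∈ Icc 0 L, SLoc U h (ax m s)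
  inj : InjOn (fun s => h (ax m s)) (Icc 0 L)
  av : ∀ s ∈ Ioc 0 L, h (ax m s) ∉ X
  lin : Lines (axis h L)
  en : h =ᶠ[𝓝 (ax m L)] fun v => g' (v - ax m L)
  sp : Sp g'

end Std

/-! The plane profiles. -/

def prof (η L b c : ℝ) : Set (ℝ × ℝ) :=
  {u | 0 ≤ u.1 ∧ ((u.2 ≤ 0 ∧ u.1 - u.2 ≤ 1) ∨ (0 ≤ u.2 ∧ u.2 ≤ L ∧ u.1 ≤ η) ∨
    (b ≤ u.2 ∧ u.1 + u.2 ≤ c))}

def profO (η L b c : ℝ) : Set (ℝ × ℝ) :=
  {u | 0 ≤ u.1 ∧ ((u.2 < 0 ∧ u.1 - u.2 < 1) ∨ (-(1 / 2) < u.2 ∧ u.2 < L + 1 / 2 ∧ u.1 < η) ∨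
    (b < u.2 ∧ u.1 + u.2 < c))}

def targ (η δ : ℝ) : Set (ℝ × ℝ) :=
  {u | 0 ≤ u.1 ∧ 0 ≤ max (u.1 + u.2 - 1) (-u.2) ∧ max (u.1 + u.2 - 1) (-u.2) ≤ δ ∧
    η / 2 ≤ u.1 + max u.2 0}

def targO (η δ : ℝ) : Set (ℝ × ℝ) :=
  {u | 0 ≤ u.1 ∧ 0 < max (u.1 + u.2 - 1) (-u.2) ∧ max (u.1 + u.2 - 1) (-u.2) < δ ∧
    η < u.1 + max u.2 0}

def e10 (η L s : ℝ) : ℝ := max 0 (min (η / 2) (min (3 * η / (2 * L) * s) (3 * η / (2 * L) * (L - s))))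

def vb (δ L s : ℝ) : ℝ := δ * min 1 (max 0 (3 * s / L - 1))

def s0 (δ L s : ℝ) : ℝ := max (-s) 0 - vb δ L s + max (s - L) 0

/-- The properties of the plane map. -/
structure IsProf (η L δ C : ℝ) (γ γ' : ℝ × ℝ → ℝ × ℝ) : Prop where
  plh : IsPLH γ γ'
  one : 1 ≤ C
  mem : ∀ u ∈ prof η L L (L + 1 + 2 * δ), γ u ∈ targ η δ ∧ (γ u).1 ≤ C * u.1 ∧ u.1 ≤ C * (γ u).1
  bd : ∀ u ∈ prof η L L (L + 1 + 2 * δ), u ∉ profO η L L (L + 1 + 2 * δ) →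
    γ u = (u.1 - e10 η L u.2, s0 δ L u.2)
  fwd : ∀ u ∈ profO η L L (L + 1 + 2 * δ), η < (γ u).1 + max (γ u).2 0 → γ u ∈ targO η δ
  bwd : ∀ u ∈ targO η δ, γ' u ∈ profO η L L (L + 1 + 2 * δ)

/-- The properties of the cut off straightening maps. -/
structure KapOK {Y : Type} [NormedAddCommGroup Y] [NormedSpace ℝ Y] {d : ℕ} (q : Sx Y d)
    (kf : Y → Y) (a b : ℝ) (k k' : Y × ℝ → Y × ℝ) : Prop where
  plh : IsPLH k k'
  snd : ∀ v, (k v).2 = v.2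
  act : ∀ v, a ≤ v.2 → v.2 ≤ b → (k v).1 = kf v.1
  off : ∀ v, k v = v ∨
    (rho q v.1 < 1 / 4 ∧ rho q (k v).1 < 1 / 2 ∧ a - 1 / 4 < v.2 ∧ v.2 < b + 1 / 4)

/-! The ambient polyhedron. -/

section Amb
variable {m : ℕ} {E : Type} [NormedAddCommGroup E] [NormedSpace ℝ E]

open Classical in
/-- Two top simplices glued along a facet. -/
def Adj {T : Type} (M : Set E) (Δ : Sx (WW m) (2 * m + 2)) (ι : T → WW m →ᴬ[ℝ] E)
    (B : T → B2 (WW m)) (τ τ' : T) : Prop :=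
  ∃ (i : Fin (2 * m + 2 + 1)) (z : WW m) (r : ℝ) (α : WW m →ᴬ[ℝ] WW m),
    Wall Δ i z r ∧ 0 < α.contLinear.det ∧ MapsTo α (hb Δ i z r) (opE Δ 0) ∧
    (∀ y, Δ.coord i y = 0 → ι τ' (α y) = ι τ y) ∧
    (∀ u u', (Δ.coord i).linear u = 0 → (Δ.coord i).linear u' = 0 →
      B τ' (α.contLinear u) (α.contLinear u') = B τ u u') ∧
    Emb M (fun y => if 0 ≤ Δ.coord i y then ι τ y else ι τ' (α y)) (ball z r)

structure Amb (m : ℕ) (E : Type) [NormedAddCommGroup E] [NormedSpace ℝ E] : Type 1 where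
  T : Type
  fin : Fintype T
  M : Set E
  Δ : Sx (WW m) (2 * m + 2)
  ι : T → WW m →ᴬ[ℝ] E
  B : T → B2 (WW m)
  skew : ∀ τ, Skew (B τ)
  inj : ∀ τ, Function.Injective (ι τ)
  mem : ∀ τ, MapsTo (ι τ) (clE Δ 0) M
  disj : ∀ τ τ', τ ≠ τ' → Disjoint (ι τ '' opE Δ 0) (ι τ' '' clE Δ 0)
  oin : ∀ τ, OpenIn M (ι τ) (opE Δ 0)
  conn : ∀ τ τ', Relation.ReflTransGen (Adj M Δ ι B) τ τ'

instance (a : Amb m E) : Fintype a.T := a.fin

/-- The form in the coordinates of a top simplex. -/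
def fm (a : Amb m E) (P : Pot E) (τ : a.T) (z : WW m) : B2 (WW m) :=
  a.B τ + (P.comp (a.ι τ)).form z

/-- At `y` the map `e` pulls the form back to `b`. -/
def PB (a : Amb m E) (P : Pot E) (e : WW m → E) (y : WW m) (b : B2 (WW m)) : Prop :=
  ∃ (τ : a.T) (α : WW m →ᴬ[ℝ] WW m), 0 < α.contLinear.det ∧ α y ∈ opE a.Δ 0 ∧
    (e =ᶠ[𝓝 y] fun z => a.ι τ (α z)) ∧ (P.comp e).AffAt y ∧
    b = pb α.contLinear (a.B τ) + (P.comp e).form y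

/-- A Darboux chart. -/
def Dx (a : Amb m E) (P : Pot E) (e : WW m → E) (U : Set (WW m)) : Prop :=
  Emb a.M e U ∧ ∀ᶠ y in gen (WW m), y ∈ U → PB a P e y (w0 m)

def Dar (a : Amb m E) (P : Pot E) : Set E := {x | ∃ e U, Dx a P e U ∧ x ∈ e '' U}

/-- Generically positive on `X`. -/
def Good (a : Amb m E) (P : Pot E) (X : Set E) : Prop :=
  ∀ τ, ∀ᶠ z in gen (WW m), z ∈ opE a.Δ 0 → a.ι τ z ∈ X → 0 < Pq (fm a P τ z)

/-- Negligible sets. -/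
def Negl (a : Amb m E) (X : Set E) : Prop :=
  ∀ τ, ∀ᶠ z in gen (WW m), z ∈ opE a.Δ 0 → a.ι τ z ∉ X

/-- The form is unchanged off the closed set `C`. -/
def Keep (a : Amb m E) (P P' : Pot E) (C : Set E) : Prop :=
  ∀ (e : WW m → E) (U : Set (WW m)), Emb a.M e U → Disjoint (e '' U) C →
    ∀ᶠ y in gen (WW m), y ∈ U → ∀ b, PB a P e y b → PB a P' e y b

/-- A germ of Darboux tube in `D` that starts like `e0`. -/
structure TS (a : Amb m E) (P : Pot E) (D : Set E) (e0 : WW m →ᴬ[ℝ] E) (L : ℝ) (e : WW m → E) :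
    Prop where
  pos : 0 < L
  st : e =ᶠ[𝓝 0] e0
  loc : ∀ s ∈ Ioc 0 L, ∃ U, ax m s ∈ U ∧ Dx a P e U ∧ e '' U ⊆ D
  inj : InjOn (fun s => e (ax m s)) (Icc 0 L)

/-- The end of the tube is affine in the chart `c`. -/
def GP (c : WW m → E) (U : Set (WW m)) (L : ℝ) (e : WW m → E) (g : WW m →ᴬ[ℝ] WW m) : Prop :=
  Sp g ∧ g 0 ∈ U ∧ e =ᶠ[𝓝 (ax m L)] fun v => c (g (v - ax m L))

/-- A negative cell and its slot. -/
structure Job (a : Amb m E) where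
  τ : a.T
  τ' : a.T
  σ : Sx (WW m) (2 * m + 2)
  b : B2 (WW m)
  b' : B2 (WW m)
  Z : WW m →ᴬ[ℝ] WW m

variable {a : Amb m E}

def Job.cell (j : Job a) : Set E := a.ι j.τ '' clE j.σ 0

def Job.cello (j : Job a) : Set E := a.ι j.τ '' opE j.σ 0

def Job.K (j : Job a) (ε : ℝ) : Set E := a.ι j.τ' '' (j.Z '' clE j.σ ε)

def Job.Ko (j : Job a) (ε : ℝ) : Set E := a.ι j.τ' '' (j.Z '' opE j.σ ε)

structure Static {J : Type} (job : J → Job a) (ε : ℝ) : Prop where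
  pos : 0 < ε
  skew : ∀ j, Skew (job j).b'
  posb : ∀ j, 0 < Pq (job j).b'
  negb : ∀ j, Pq (job j).b < 0
  pbZ : ∀ j, pb (job j).Z.contLinear (job j).b' = (job j).b
  sub : ∀ j, clE (job j).σ 0 ⊆ opE a.Δ 0
  subZ : ∀ j, (job j).Z '' clE (job j).σ (2 * ε) ⊆ opE a.Δ 0
  cc : ∀ i j, i ≠ j → Disjoint (job i).cello (job j).cell
  kk : ∀ i j, i ≠ j → Disjoint ((job i).Ko (2 * ε)) ((job j).Ko (2 * ε))
  ck : ∀ i j, Disjoint (job i).cell ((job j).Ko (2 * ε))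

structure Inv {J : Type} (job : J → Job a) (ε : ℝ) (P : Pot E) (S : Set J) (D : Set E) : Prop where
  pl : P.PLOn a.M
  good : Good a P (⋃ j ∈ S, (job j).cell)ᶜ
  neg : ∀ j ∈ S, ∀ᶠ z in gen (WW m), z ∈ opE (job j).σ 0 → fm a P (job j).τ z = (job j).b
  slot : ∀ j ∈ S, ∃ ε', ε < ε' ∧ ε' ≤ 2 * ε ∧ (job j).Ko ε' \ (job j).K ε ⊆ D ∧
    ∀ᶠ z in gen (WW m), z ∈ (job j).Z '' opE (job j).σ ε' → fm a P (job j).τ' z = (job j).b'
  dop : OpenSub a.M D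
  dcon : IsPreconnected D
  ddar : D ⊆ Dar a P
  dcell : ∀ j ∈ S, Disjoint D (job j).cell
  dK : ∀ j ∈ S, Disjoint D ((job j).K ε)

/-- The cell has a window into `D`. -/
def Win (j : Job a) (D : Set E) : Prop :=
  ∃ i z r, Wall j.σ i z r ∧ ball z r ⊆ opE a.Δ 0 ∧ a.ι j.τ '' hb j.σ i z r ⊆ D

/-- The cell `k` lies across a facet of the cell `j`. -/
def Nbr (j k : Job a) : Prop :=
  j.τ = k.τ ∧ ∃ i z r, Wall j.σ i z r ∧ ball z r ⊆ opE a.Δ 0 ∧ hb j.σ i z r ⊆ opE k.σ 0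

/-- The chart of the union of a cell, a tube and the slot. -/
structure Cht (P : Pot E) (D : Set E) (j : Job a) (ε : ℝ) (q : Sx (YY m) (2 * m + 1))
    (δ δ' L η : ℝ) (α : WW m →ᴬ[ℝ] WW m) (e : WW m → E) (O : Set (WW m)) : Prop where
  cen : Cen q
  pδ : 0 < δ
  pδ' : 0 < δ'
  lδ' : δ' < L
  pη : 0 < η
  small : ∀ y : YY m, ‖y‖ ≤ η → rho q y < 1
  pl : PLOn (hull q δ δ' L η) e
  inj : InjOn e (hull q δ δ' L η)
  mem : MapsTo e (hull q δ δ' L η) a.M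
  emb : Emb a.M e O
  sub1 : opCone q ⊆ O
  sub2 : ∀ v : WW m, v.2 = 0 → ‖v.1‖ ≤ η → v ∈ O
  sub3 : ∀ v ∈ hull q δ δ' L η, 0 < v.2 → v ∈ O
  pb : ∀ᶠ v in gen (WW m), v ∈ O → PB a P e v (if v.2 < 0 then wn m else w0 m)
  lo : ∀ v : WW m, v.2 ≤ 0 → e v = a.ι j.τ (α v)
  det : 0 < α.contLinear.det
  cl : α '' coneLo q = clE j.σ 0
  op : α '' opCone q = opE j.σ 0
  hiK : e '' coneHi q L (L + 1 + 2 * δ) = j.K ε
  up : ∀ v ∈ hull q δ δ' L η, 0 < v.2 → v ∉ coneHi q L (L + 1 + 2 * δ) → e v ∈ D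
  win : ∀ v : WW m, v.2 = 0 → ‖v.1‖ ≤ η → ∀ᶠ u in 𝓝 v, 0 < u.2 → e u ∈ D

end Amb

end Pool.Agent.Work.MP_bf98aa_gt.Pl
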