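import Pool.Agent.Work.MP_bf98aa_gt.Pl.Stmt2

/-!
Cutting along finitely many hyperplanes by subdividing edges.
-/

set_option autoImplicit false

open Set

namespace Pool.Agent.Work.MP_bf98aa_gt.PlSt

variable {W : Type} {N : ℕ}

/-- A property of ordered simplices that passes to the two halves. -/
def EdHer (P : (Fin (N + 1) → W → ℝ) → Prop) : Prop :=
  ∀ σ i j (l : ℝ), P σ → i ≠ j → 0 < l → l < 1 → P (Function.update σ i ((1 - l) • σ i + l • σ j))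

theorem ed_star {P : (Fin (N + 1) → W → ℝ) → Prop} (hP : EdHer P) {u u' : W → ℝ} {l : ℝ}
    (h0 : u ≠ u') (h1 : 0 < l) (h2 : l < 1) {L : Set (Fin (N + 1) → W → ℝ)} (hL : ∀ σ ∈ L, P σ) :
    ∀ σ ∈ star u u' ((1 - l) • u + l • u') L, P σ := by
  rintro σ' (h | ⟨σ, hσ, i, j, rfl, rfl, h⟩)
  · exact hL _ h.1
  · have hij : i ≠ j := fun e => h0 (e ▸ rfl)
    rcases h with rfl | rfl
    · exact hP σ i j l (hL σ hσ) hij h1 h2
    · have := hP σ j i (1 - l) (hL σ hσ) hij.symm (by linarith) (by linarith)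
      rwa [sub_sub_cancel, add_comm (l • σ j)] at this

theorem ed_ind {P : (Fin (N + 1) → W → ℝ) → Prop} (hP : EdHer P)
    {L L' : Set (Fin (N + 1) → W → ℝ)} (h : Subdiv L L') (hL : ∀ σ ∈ L, P σ) : ∀ σ ∈ L', P σ := by
  induction h with
  | refl => exact hL
  | tail _ h2 ih =>
    obtain ⟨u, u', l, e0, e1, e2, rfl⟩ := h2
    exact ed_star hP e0 e1 e2 ih

theorem ed_fin {X : Type} (u u' p : X) {L : Set (Fin (N + 1) → X)} (hL : L.Finite) :
    (star u u' p L).Finite := by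
  refine (hL.subset fun σ h => h.1).union
    ((hL.biUnion fun σ _ => finite_range fun i => Function.update σ i p).subset ?_)
  rintro σ' ⟨σ, hσ, i, j, -, -, h⟩
  refine mem_biUnion hσ ?_
  rcases h with rfl | rfl
  · exact ⟨i, rfl⟩
  · exact ⟨j, rfl⟩

/-- The affine function `h` does not change sign on the vertices of `σ`. -/
def EdSgn (h : (W → ℝ) →ᵃ[ℝ] ℝ) (σ : Fin (N + 1) → W → ℝ) : Prop :=
  (∀ j, 0 ≤ h (σ j)) ∨ ∀ j, h (σ j) ≤ 0

theorem ed_combo (h : (W → ℝ) →ᵃ[ℝ] ℝ) (l : ℝ) (x y : W → ℝ) :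
    h ((1 - l) • x + l • y) = (1 - l) * h x + l * h y :=
  Convex.combo_affine_apply (sub_add_cancel 1 l)

theorem ed_sgn_her (h : (W → ℝ) →ᵃ[ℝ] ℝ) : EdHer (N := N) (EdSgn h) := by
  intro σ i j l hσ _ h1 h2
  refine hσ.imp (fun e k => ?_) fun e k => ?_
  · by_cases hk : k = i
    · rw [hk, Function.update_self, ed_combo]
      exact add_nonneg (mul_nonneg (by linarith) (e i)) (mul_nonneg h1.le (e j))
    · rw [Function.update_of_ne hk]
      exact e k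
  · by_cases hk : k = i
    · rw [hk, Function.update_self, ed_combo]
      exact add_nonpos (mul_nonpos_of_nonneg_of_nonpos (by linarith) (e i))
        (mul_nonpos_of_nonneg_of_nonpos h1.le (e j))
    · rw [Function.update_of_ne hk]
      exact e k

/-- The edges on which `h` changes sign. -/
def edBad (h : (W → ℝ) →ᵃ[ℝ] ℝ) (L : Set (Fin (N + 1) → W → ℝ)) : Set ((W → ℝ) × (W → ℝ)) :=
  {q | h q.1 < 0 ∧ 0 < h q.2 ∧ ∃ σ ∈ L, q.1 ∈ range σ ∧ q.2 ∈ range σ}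

theorem edBad_fin (h : (W → ℝ) →ᵃ[ℝ] ℝ) {L : Set (Fin (N + 1) → W → ℝ)} (hL : L.Finite) :
    (edBad h L).Finite := by
  refine (hL.biUnion fun σ _ => (finite_range σ).prod (finite_range σ)).subset ?_
  rintro q ⟨-, -, σ, hσ, h1⟩
  exact mem_biUnion hσ h1

theorem ed_upd {X : Type} {σ : Fin (N + 1) → X} {i : Fin (N + 1)} {p x : X}
    (hx : x ∈ range (Function.update σ i p)) (hp : x ≠ p) : ∃ k, k ≠ i ∧ σ k = x := by
  obtain ⟨k, rfl⟩ := hx
  by_cases hk : k = i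
  · rw [hk, Function.update_self] at hp
    exact absurd rfl hp
  · exact ⟨k, hk, (Function.update_of_ne hk _ _).symm⟩

theorem edBad_star (h : (W → ℝ) →ᵃ[ℝ] ℝ) {L : Set (Fin (N + 1) → W → ℝ)}
    (hL : ∀ σ ∈ L, Function.Injective σ) (u u' : W → ℝ) {p : W → ℝ} (hp : h p = 0) :
    edBad h (star u u' p L) ⊆ edBad h L \ {(u, u')} := by
  rintro ⟨x, y⟩ ⟨h1, h2, σ', hσ', h3, h4⟩
  have hx : x ≠ p := fun e => h1.ne (e ▸ hp)
  have hy : y ≠ p := fun e => h2.ne' (e ▸ hp)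
  rcases hσ' with e | ⟨σ, hσ, i, j, rfl, rfl, e⟩
  · refine ⟨⟨h1, h2, σ', e.1, h3, h4⟩, fun e' => e.2 ?_⟩
    obtain ⟨rfl, rfl⟩ := Prod.mk.inj (mem_singleton_iff.1 e')
    exact ⟨h3, h4⟩
  · rcases e with rfl | rfl
    · obtain ⟨k, k1, k2⟩ := ed_upd h3 hx
      obtain ⟨k', -, k3⟩ := ed_upd h4 hy
      refine ⟨⟨h1, h2, σ, hσ, ⟨k, k2⟩, ⟨k', k3⟩⟩, fun e' => k1 (hL σ hσ ?_)⟩
      exact k2.trans (Prod.mk.inj (mem_singleton_iff.1 e')).1
    · obtain ⟨k, -, k2⟩ := ed_upd h3 hx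
      obtain ⟨k', k1, k3⟩ := ed_upd h4 hy
      refine ⟨⟨h1, h2, σ, hσ, ⟨k, k2⟩, ⟨k', k3⟩⟩, fun e' => k1 (hL σ hσ ?_)⟩
      exact k3.trans (Prod.mk.inj (mem_singleton_iff.1 e')).2

theorem ed_cut_one {P : (Fin (N + 1) → W → ℝ) → Prop} (hP : EdHer P)
    (hi : ∀ σ, P σ → Function.Injective σ) (h : (W → ℝ) →ᵃ[ℝ] ℝ) (m : ℕ) :
    ∀ L : Set (Fin (N + 1) → W → ℝ), L.Finite → (∀ σ ∈ L, P σ) → (edBad h L).ncard = m →
      ∃ L', Subdiv L L' ∧ L'.Finite ∧ ∀ σ ∈ L', EdSgn h σ := by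
  induction m using Nat.strong_induction_on with
  | _ m ih =>
    intro L h1 h2 h3
    rcases (edBad h L).eq_empty_or_nonempty with h4 | ⟨⟨u, u'⟩, h4⟩
    · refine ⟨L, Relation.ReflTransGen.refl, h1, fun σ hσ => ?_⟩
      by_contra h5
      simp only [EdSgn, not_or, not_forall, not_le] at h5
      obtain ⟨⟨i, e1⟩, j, e2⟩ := h5
      have : (σ i, σ j) ∈ edBad h L := ⟨e1, e2, σ, hσ, ⟨i, rfl⟩, ⟨j, rfl⟩⟩
      rw [h4] at this
      exact this
    · have e1 : h u < 0 := h4.1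
      have e2 : 0 < h u' := h4.2.1
      have e3 : 0 < h u' - h u := by linarith
      obtain ⟨l, hl⟩ : ∃ l, l = -h u / (h u' - h u) := ⟨_, rfl⟩
      have l0 : 0 < l := hl ▸ div_pos (neg_pos.2 e1) e3
      have l1 : l < 1 := hl ▸ (div_lt_one e3).2 (by linarith)
      have hne : u ≠ u' := fun e => by rw [e] at e1; linarith
      have hp : h ((1 - l) • u + l • u') = 0 := by
        rw [ed_combo, hl]
        field_simp
        ring
      have hs := edBad_star h (fun σ hσ => hi σ (h2 σ hσ)) u u' hp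
      obtain ⟨L', f1, f2, f3⟩ := ih _ (h3 ▸ ncard_lt_ncard
        (hs.trans_ssubset (sdiff_singleton_ssubset.2 h4)) (edBad_fin h h1)) _ (ed_fin u u' _ h1)
        (ed_star hP hne l0 l1 h2) rfl
      exact ⟨L', Relation.ReflTransGen.head ⟨u, u', l, hne, l0, l1, rfl⟩ f1, f2, f3⟩

theorem ed_cut {P : (Fin (N + 1) → W → ℝ) → Prop} (hP : EdHer P)
    (hi : ∀ σ, P σ → Function.Injective σ) {L : Set (Fin (N + 1) → W → ℝ)} (h1 : L.Finite)
    (h2 : ∀ σ ∈ L, P σ) {H : Set ((W → ℝ) →ᵃ[ℝ] ℝ)} (hH : H.Finite) :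
    ∃ L', Subdiv L L' ∧ L'.Finite ∧ ∀ h ∈ H, ∀ σ ∈ L', EdSgn h σ := by
  induction H, hH using Set.Finite.induction_on with
  | empty => exact ⟨L, Relation.ReflTransGen.refl, h1, fun _ h => h.elim⟩
  | @insert h H _ _ ih =>
    obtain ⟨L', e1, e2, e3⟩ := ih
    obtain ⟨L'', f1, f2, f3⟩ := ed_cut_one hP hi h _ L' e2 (ed_ind hP e1 h2) rfl
    refine ⟨L'', e1.trans f1, f2, fun h' hh => ?_⟩
    rcases hh with rfl | hh
    · exact f3
    · exact ed_ind (ed_sgn_her h') f1 (e3 h' hh)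

end Pool.Agent.Work.MP_bf98aa_gt.PlSt
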