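import Pool.Agent.Work.MP_bf98aa_gt.Pl.Stmt

/-!
Change of basis in the Pfaffian sum, and a determinant.
-/

set_option autoImplicit false

namespace Pool.Agent.Work.MP_bf98aa_gt.PlSt

theorem ed_bij {κ : Type} [Fintype κ] [DecidableEq κ] (n : ℕ) : Function.Bijective
    fun (G : Fin (2 * n) → κ) (l : Fin n) => (G (evn l), G (odd l)) := by
  refine (Fintype.bijective_iff_injective_and_card _).2 ⟨fun G G' h => funext fun k => ?_, ?_⟩
  · have h1 := congrFun h ⟨k.1 / 2, by omega⟩
    rw [Prod.mk.injEq] at h1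
    rcases Nat.mod_two_eq_zero_or_one k.1 with h2 | h2
    · have e : evn ⟨k.1 / 2, by omega⟩ = k := Fin.ext (by simp only [evn]; omega)
      exact e ▸ h1.1
    · have e : odd ⟨k.1 / 2, by omega⟩ = k := Fin.ext (by simp only [odd]; omega)
      exact e ▸ h1.2
  · simp [pow_mul, sq]

theorem ed_prod {n : ℕ} (x : Fin (2 * n) → ℝ) : ∏ l : Fin n, x (evn l) * x (odd l) = ∏ k, x k := by
  rw [← List.prod_ofFn, ← List.prod_ofFn, List.ofFn_mul' x, List.prod_flatten, List.map_ofFn]
  refine congrArg List.prod (congrArg List.ofFn (funext fun l => ?_))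
  simp [List.ofFn_succ, evn, odd]

theorem pfaff_congr {n : ℕ} (B : Matrix (Fin (2 * n)) (Fin (2 * n)) ℝ)
    (P : Fin (2 * n) → Fin (2 * n) → ℝ) :
    (pfaff fun i j => ∑ a, ∑ b, B a i * B b j * P a b) = B.det * pfaff P := by
  have h1 : ∀ σ : Equiv.Perm (Fin (2 * n)),
      ∏ l : Fin n, ∑ a, ∑ b, B a (σ (evn l)) * B b (σ (odd l)) * P a b =
      ∑ G : Fin (2 * n) → Fin (2 * n),
        (∏ k, B (G k) (σ k)) * ∏ l : Fin n, P (G (evn l)) (G (odd l)) := by
    intro σ
    simp only [← Fintype.sum_prod_type' (f := fun a b => B a (σ (evn _)) * B b (σ (odd _)) * P a b)]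
    rw [Fintype.prod_sum, ← (ed_bij n).sum_comp]
    refine Finset.sum_congr rfl fun G _ => ?_
    rw [← ed_prod fun k => B (G k) (σ k), ← Finset.prod_mul_distrib]
  have h2 : ∀ G : Fin (2 * n) → Fin (2 * n), ∑ σ : Equiv.Perm (Fin (2 * n)),
      ((Equiv.Perm.sign σ : ℤ) : ℝ) * ∏ k, B (G k) (σ k) = (B.submatrix G id).det := by
    intro G
    rw [← Matrix.det_transpose, Matrix.det_apply']
    rfl
  simp only [pfaff, h1, Finset.mul_sum]
  rw [Finset.sum_comm]
  simp only [← mul_assoc, ← Finset.sum_mul, h2]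
  symm
  refine Fintype.sum_of_injective (fun σ : Equiv.Perm (Fin (2 * n)) => (σ : Fin (2 * n) → Fin (2 * n)))
    DFunLike.coe_injective _ _ (fun G hG => ?_) fun σ => ?_
  · have h3 : ¬ Function.Injective G := fun h =>
      hG ⟨Equiv.ofBijective G (Finite.injective_iff_bijective.1 h), rfl⟩
    obtain ⟨i, j, h4, h5⟩ := Function.not_injective_iff.1 h3
    rw [Matrix.det_zero_of_row_eq h5 (funext fun k => by
      simp only [Matrix.submatrix_apply, h4]), zero_mul]
  · rw [Matrix.det_permute]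
    ring

/-- The determinant of a matrix with column sums 1. -/
theorem ed_det {N : ℕ} (M : Matrix (Fin (N + 1)) (Fin (N + 1)) ℝ) (h : ∀ j, ∑ i, M i j = 1) :
    (Matrix.of fun a i : Fin N => M a.succ i.succ - M a.succ 0).det = M.det := by
  have h1 : (M.updateRow 0 (∑ k, (1 : ℝ) • M k)).det = M.det := by
    rw [Matrix.det_updateRow_sum, one_smul]
  obtain ⟨A, hA⟩ : ∃ A : Matrix (Fin (N + 1)) (Fin (N + 1)) ℝ, A = Matrix.of fun i j =>
      M.updateRow 0 (∑ k, (1 : ℝ) • M k) i j -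
        (if j = 0 then 0 else 1) * M.updateRow 0 (∑ k, (1 : ℝ) • M k) i 0 := ⟨_, rfl⟩
  have h2 : (M.updateRow 0 (∑ k, (1 : ℝ) • M k)).det = A.det := by
    rw [← Matrix.det_transpose, ← Matrix.det_transpose A]
    refine Matrix.det_eq_of_forall_row_eq_smul_add_const (fun j => if j = 0 then 0 else 1) 0
      (if_pos rfl) fun i j => ?_
    simp [hA]
  have h3 : ∀ j, A 0 j = if j = 0 then 1 else 0 := by
    intro j
    by_cases hj : j = 0
    · simp [hA, hj, Finset.sum_apply, h]
    · simp [hA, hj, Finset.sum_apply, h]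
  rw [← h1, h2, Matrix.det_succ_row_zero, Finset.sum_eq_single 0 (fun j _ hj => by
    rw [h3, if_neg hj, mul_zero, zero_mul]) (by simp), h3, if_pos rfl]
  simp only [Fin.val_zero, pow_zero, one_mul, Fin.succAbove_zero]
  refine congrArg Matrix.det (Matrix.ext fun a i => ?_)
  simp [hA, Fin.succ_ne_zero]

end Pool.Agent.Work.MP_bf98aa_gt.PlSt
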