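import Pool.Agent.Work.MP_bf98aa_gt.Pl.EdSel
import Pool.Agent.Work.MP_bf98aa_gt.Pl.EdPf

/-!
From piecewise linear functions to a subdivision and a simplicial cochain.
-/

set_option autoImplicit false
set_option linter.unusedSectionVars false

open Set Filter Topology

namespace Pool.Agent.Work.MP_bf98aa_gt.PlSt

variable {W T : Type} [Fintype W] [DecidableEq W] {N : ℕ}

/-- `σ` is a positively ordered simplex inside the simplex `u`. -/
def EdIn (u : Fin (N + 1) → W) (σ : Fin (N + 1) → W → ℝ) : Prop :=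
  ∃ M : Matrix (Fin (N + 1)) (Fin (N + 1)) ℝ, 0 < M.det ∧ (∀ i j, 0 ≤ M i j) ∧
    (∀ j, ∑ i, M i j = 1) ∧ ∀ j, σ j = edBar (fun i => pt (u i)) fun i => M i j

theorem edBar_pt {u : Fin (N + 1) → W} (hu : Function.Injective u) (m : Fin (N + 1) → ℝ)
    (k : Fin (N + 1)) : edBar (fun i => pt (u i)) m (u k) = m k := by
  simp [edBar, pt, Finset.sum_apply, Pi.single_apply, hu.eq_iff]

theorem edBar_combo (σ : Fin (N + 1) → W → ℝ) (s t : ℝ) (m m' : Fin (N + 1) → ℝ) :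
    edBar σ (fun i => s * m i + t * m' i) = s • edBar σ m + t • edBar σ m' := by
  simp only [edBar, add_smul, mul_smul, Finset.sum_add_distrib, Finset.smul_sum]

theorem edIn_self (u : Fin (N + 1) → W) : EdIn u fun i => pt (u i) := by
  refine ⟨1, by simp, fun i j => ?_, fun j => ?_, fun j => ?_⟩
  · rw [Matrix.one_apply]
    split_ifs
    · exact zero_le_one
    · exact le_rfl
  · simp [Matrix.one_apply]
  · simp [edBar, Matrix.one_apply]

theorem edIn_her (u : Fin (N + 1) → W) : EdHer (EdIn u) := by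
  rintro σ i j l ⟨M, h1, h2, h3, h4⟩ hij l0 l1
  have l2 : 0 < 1 - l := by linarith
  refine ⟨M.updateCol i ((1 - l) • (fun k => M k i) + l • fun k => M k j), ?_, fun k k' => ?_,
    fun k' => ?_, fun k' => ?_⟩
  · rw [Matrix.det_updateCol_add, Matrix.det_updateCol_smul, Matrix.det_updateCol_smul,
      Matrix.updateCol_eq_self, Matrix.det_updateCol_eq_zero hij.symm, mul_zero, add_zero]
    exact mul_pos l2 h1
  · by_cases e : k' = i
    · rw [e, Matrix.updateCol_self]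
      exact add_nonneg (mul_nonneg l2.le (h2 k i)) (mul_nonneg l0.le (h2 k j))
    · rw [Matrix.updateCol_ne e]
      exact h2 k k'
  · by_cases e : k' = i
    · simp only [e, Matrix.updateCol_self, Pi.add_apply, Pi.smul_apply, smul_eq_mul,
        Finset.sum_add_distrib, ← Finset.mul_sum, h3]
      ring
    · simp only [Matrix.updateCol_ne e, h3]
  · by_cases e : k' = i
    · simp only [e, Matrix.updateCol_self, Pi.add_apply, Pi.smul_apply, smul_eq_mul,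
        Function.update_self]
      rw [edBar_combo, ← h4, ← h4]
    · simp only [Matrix.updateCol_ne e, Function.update_of_ne e, h4]

theorem edIn_inj {u : Fin (N + 1) → W} (hu : Function.Injective u) {σ : Fin (N + 1) → W → ℝ}
    (h : EdIn u σ) : Function.Injective σ := by
  obtain ⟨M, h1, -, -, h4⟩ := h
  intro i j e
  by_contra hij
  refine h1.ne' (Matrix.det_zero_of_column_eq hij fun k => ?_)
  have := congrFun e (u k)
  rwa [h4, h4, edBar_pt hu, edBar_pt hu] at this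

theorem edBar_mem (u : Fin (N + 1) → W) {m : Fin (N + 1) → ℝ}
    (hm : m ∈ stdSimplex ℝ (Fin (N + 1))) : edBar (fun i => pt (u i)) m ∈ simplex u :=
  (convex_convexHull ℝ _).sum_mem (fun i _ => hm.1 i) hm.2 fun i _ => subset_convexHull ℝ _ ⟨i, rfl⟩

theorem ed_of_mem {u : Fin (N + 1) → W} {x : W → ℝ} (hx : x ∈ simplex u) :
    ∃ m : Fin (N + 1) → ℝ, ∑ i, m i = 1 ∧ x = edBar (fun i => pt (u i)) m := by
  refine convexHull_min (t := {x | ∃ m : Fin (N + 1) → ℝ, ∑ i, m i = 1 ∧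
    x = edBar (fun i => pt (u i)) m}) ?_ ?_ hx
  · rintro _ ⟨i, rfl⟩
    exact ⟨Pi.single i 1, by simp, (edBar_single (fun i => pt (u i)) i).symm⟩
  · rintro _ ⟨m, e1, rfl⟩ _ ⟨m', e2, rfl⟩ s t _ _ hst
    refine ⟨fun i => s * m i + t * m' i, ?_, (edBar_combo _ _ _ _ _).symm⟩
    rw [Finset.sum_add_distrib, ← Finset.mul_sum, ← Finset.mul_sum, e1, e2, mul_one, mul_one, hst]

theorem edBar_mul {σ ρ : Fin (N + 1) → W → ℝ} {M : Matrix (Fin (N + 1)) (Fin (N + 1)) ℝ}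
    (h : ∀ j, σ j = edBar ρ fun i => M i j) (m : Fin (N + 1) → ℝ) :
    edBar σ m = edBar ρ (M.mulVec m) := by
  simp only [edBar, h, Finset.smul_sum, Matrix.mulVec, dotProduct, Finset.sum_smul, smul_smul]
  rw [Finset.sum_comm]
  simp only [mul_comm]

theorem ed_sum_mul {M : Matrix (Fin (N + 1)) (Fin (N + 1)) ℝ} (h : ∀ j, ∑ i, M i j = 1)
    (m : Fin (N + 1) → ℝ) : ∑ i, M.mulVec m i = ∑ j, m j := by
  simp only [Matrix.mulVec, dotProduct]
  rw [Finset.sum_comm]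
  simp only [← Finset.sum_mul, h, one_mul]

theorem edIn_mem {u : Fin (N + 1) → W} {σ : Fin (N + 1) → W → ℝ} (h : EdIn u σ) :
    ∀ m ∈ stdSimplex ℝ (Fin (N + 1)), edBar σ m ∈ simplex u := by
  obtain ⟨M, -, h2, h3, h4⟩ := h
  intro m hm
  rw [edBar_mul h4]
  refine edBar_mem u ⟨fun i => ?_, (ed_sum_mul h3 m).trans hm.2⟩
  exact Finset.sum_nonneg (s := Finset.univ) fun j _ => mul_nonneg (h2 i j) (hm.1 j)

/-- An interior point of `σ`, with a neighbourhood in the big simplex that lies in `σ`. -/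
theorem edIn_int {u : Fin (N + 1) → W} (hu : Function.Injective u) {σ : Fin (N + 1) → W → ℝ}
    (h : EdIn u σ) : ∃ x ∈ openSimplex u, ∀ᶠ y in 𝓝[simplex u] x,
      ∃ m ∈ stdSimplex ℝ (Fin (N + 1)), y = edBar σ m := by
  have hm := edIn_mem h
  obtain ⟨M, h1, h2, h3, h4⟩ := h
  have hM : IsUnit M.det := h1.ne'.isUnit
  obtain ⟨m0, e0, e1⟩ : ∃ m0 : Fin (N + 1) → ℝ, (∀ i, 0 < m0 i) ∧ ∑ i, m0 i = 1 := by
    refine ⟨fun _ => 1 / ((N : ℝ) + 1), fun _ => by positivity, ?_⟩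
    rw [Finset.sum_const, Finset.card_univ, Fintype.card_fin, nsmul_eq_mul]
    push_cast
    field_simp
  refine ⟨edBar σ m0, ⟨hm m0 ⟨fun i => (e0 i).le, e1⟩, fun i => ?_⟩, ?_⟩
  · rw [edBar_mul h4, edBar_pt hu]
    obtain ⟨j, hj⟩ := not_forall.1 fun e => h1.ne' (Matrix.det_eq_zero_of_row_eq_zero i e)
    exact Finset.sum_pos' (fun k _ => mul_nonneg (h2 i k) (e0 k).le)
      ⟨j, Finset.mem_univ j, mul_pos ((h2 i j).lt_of_ne' hj) (e0 j)⟩
  · have c1 : Continuous fun y : W → ℝ => M⁻¹.mulVec fun i => y (u i) := by fun_prop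
    have c2 : (M⁻¹.mulVec fun i => edBar σ m0 (u i)) = m0 := by
      simp only [edBar_mul h4, edBar_pt hu]
      rw [Matrix.mulVec_mulVec, Matrix.nonsing_inv_mul _ hM, Matrix.one_mulVec]
    have c3 : ∀ᶠ y in 𝓝 (edBar σ m0), ∀ j, 0 < (M⁻¹.mulVec fun i => y (u i)) j :=
      eventually_all.2 fun j => ((continuous_apply j).comp c1).continuousAt.eventually
        (lt_mem_nhds (by rw [Function.comp_apply, c2]; exact e0 j))
    filter_upwards [mem_nhdsWithin_of_mem_nhds c3, self_mem_nhdsWithin] with y hy1 hy2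
    obtain ⟨m, f1, rfl⟩ := ed_of_mem hy2
    simp only [edBar_pt hu] at hy1
    have f2 : M.mulVec (M⁻¹.mulVec m) = m := by
      rw [Matrix.mulVec_mulVec, Matrix.mul_nonsing_inv _ hM, Matrix.one_mulVec]
    refine ⟨M⁻¹.mulVec m, ⟨fun j => (hy1 j).le, ?_⟩, by rw [edBar_mul h4, f2]⟩
    rw [← ed_sum_mul h3, f2, f1]

theorem ed_sum_bar (u : Fin (N + 1) → W) (m : Fin (N + 1) → ℝ) (F : W → ℝ) :
    ∑ a, edBar (fun i => pt (u i)) m a * F a = ∑ i, m i * F (u i) := by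
  simp only [edBar, pt, Finset.sum_apply, Pi.smul_apply, smul_eq_mul, Finset.sum_mul]
  rw [Finset.sum_comm]
  simp [Pi.single_apply]

theorem tri_bar (c : W → W → W → ℝ) (u : Fin (N + 1) → W) (m₁ m₂ m₃ : Fin (N + 1) → ℝ) :
    tri c (edBar (fun i => pt (u i)) m₁) (edBar (fun i => pt (u i)) m₂)
      (edBar (fun i => pt (u i)) m₃) =
      ∑ i, m₁ i * ∑ j, m₂ j * ∑ k, m₃ k * c (u i) (u j) (u k) := by
  simp only [tri, mul_assoc, ← Finset.mul_sum, ed_sum_bar]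

/-- A function of the vertices, summed against weights of total mass zero. -/
theorem ed_diff {m m' : Fin (N + 1) → ℝ} (h : ∑ i, m i = 1) (h' : ∑ i, m' i = 1)
    (F : Fin (N + 1) → ℝ) : ∑ i, m i * F i - ∑ i, m' i * F i =
      ∑ a : Fin N, (m a.succ - m' a.succ) * (F a.succ - F 0) := by
  rw [Fin.sum_univ_succ] at h h'
  rw [Fin.sum_univ_succ, Fin.sum_univ_succ]
  simp only [mul_sub, sub_mul, Finset.sum_sub_distrib, ← Finset.sum_mul]
  rw [eq_sub_of_add_eq h, eq_sub_of_add_eq h']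
  ring

theorem tri_eq {C : Fin (N + 1) → Fin (N + 1) → Fin (N + 1) → ℝ}
    (h2 : ∀ j k, C 0 j k = -C 0 k j) (h0 : ∀ k, C 0 0 k = 0)
    (h3 : ∀ i j k, C i j k - C 0 j k + C 0 i k - C 0 i j = 0) {m₁ m₂ m₃ : Fin (N + 1) → ℝ}
    (e₁ : ∑ i, m₁ i = 1) (e₂ : ∑ i, m₂ i = 1) (e₃ : ∑ i, m₃ i = 1) :
    ∑ i, m₁ i * ∑ j, m₂ j * ∑ k, m₃ k * C i j k =
      ∑ a : Fin N, ∑ b : Fin N, (m₂ a.succ - m₁ a.succ) * (m₃ b.succ - m₁ b.succ) *
        C 0 a.succ b.succ := by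
  obtain ⟨ω, hω⟩ : ∃ ω : (Fin (N + 1) → ℝ) → (Fin (N + 1) → ℝ) → ℝ,
      ω = fun m m' => ∑ j, m j * ∑ k, m' k * C 0 j k := ⟨_, rfl⟩
  have s1 : ∀ m m', ω m m' = -ω m' m := by
    intro m m'
    simp only [hω, Finset.mul_sum, ← Finset.sum_neg_distrib]
    rw [Finset.sum_comm]
    refine Finset.sum_congr rfl fun j _ => Finset.sum_congr rfl fun k _ => ?_
    rw [h2 k j]
    ring
  have s2 : ∑ i, m₁ i * ∑ j, m₂ j * ∑ k, m₃ k * C i j k = ω m₂ m₃ - ω m₁ m₃ + ω m₁ m₂ := by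
    have t1 : ∀ i j k, C i j k = C 0 j k - C 0 i k + C 0 i j := fun i j k => by linarith [h3 i j k]
    have t2 : ∀ i j, ∑ k, m₃ k * C i j k =
        ∑ k, m₃ k * C 0 j k - ∑ k, m₃ k * C 0 i k + C 0 i j := fun i j => by
      rw [Finset.sum_congr rfl fun k _ => by rw [t1 i j k]]
      simp only [mul_add, mul_sub, Finset.sum_add_distrib, Finset.sum_sub_distrib,
        ← Finset.sum_mul, e₃, one_mul]
    rw [Finset.sum_congr rfl fun i _ => by rw [Finset.sum_congr rfl fun j _ => by rw [t2 i j]]]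
    simp only [hω, mul_add, mul_sub, Finset.sum_add_distrib, Finset.sum_sub_distrib,
      ← Finset.sum_mul, e₁, e₂, one_mul]
  have s3 : ∑ a : Fin N, ∑ b : Fin N, (m₂ a.succ - m₁ a.succ) * (m₃ b.succ - m₁ b.succ) *
      C 0 a.succ b.succ = ω m₂ m₃ - ω m₂ m₁ - (ω m₁ m₃ - ω m₁ m₁) := by
    have t1 : ∀ j, C 0 j 0 = 0 := fun j => by rw [h2, h0, neg_zero]
    have t2 : ∀ m m', ω m m' = ∑ a : Fin N, ∑ b : Fin N, m a.succ * m' b.succ * C 0 a.succ b.succ := by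
      intro m m'
      rw [hω]
      dsimp only
      rw [Fin.sum_univ_succ, Finset.sum_eq_zero fun k _ => by rw [h0, mul_zero], mul_zero, zero_add]
      refine Finset.sum_congr rfl fun a _ => ?_
      rw [Fin.sum_univ_succ, t1, mul_zero, zero_add, Finset.mul_sum]
      simp only [mul_assoc]
    simp only [t2, ← Finset.sum_sub_distrib]
    refine Finset.sum_congr rfl fun a _ => Finset.sum_congr rfl fun b _ => ?_
    ring
  rw [s2, s3, s1 m₂ m₁]
  linarith [s1 m₁ m₁]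

theorem ed_wedge {ι κ : Type} [Fintype ι] [Fintype κ] (x y : ι → ℝ) (α β : κ → ι → ℝ) :
    ∑ p, ∑ q, x p * y q * ∑ k, (α k p * β k q - α k q * β k p) =
      ∑ k, ((∑ p, x p * α k p) * ∑ q, y q * β k q - (∑ p, y p * α k p) * ∑ q, x q * β k q) := by
  have h : ∀ k, (∑ p, x p * α k p) * ∑ q, y q * β k q - (∑ p, y p * α k p) * ∑ q, x q * β k q =
      ∑ p, ∑ q, x p * y q * (α k p * β k q - α k q * β k p) := by
    intro k
    rw [mul_comm (∑ p, y p * α k p), Finset.sum_mul_sum, Finset.sum_mul_sum,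
      ← Finset.sum_sub_distrib]
    refine Finset.sum_congr rfl fun p _ => ?_
    rw [← Finset.sum_sub_distrib]
    exact Finset.sum_congr rfl fun q _ => by ring
  simp only [h]
  simp only [Finset.mul_sum]
  symm
  rw [Finset.sum_comm]
  exact Finset.sum_congr rfl fun p _ => Finset.sum_comm

theorem subdiv_of_pl {n : ℕ} [Fintype T] {v : T → Fin (2 * n + 1) → W}
    (hv : ∀ τ, Function.Injective (v τ)) {c : W → W → W → ℝ} (hc : Cocycle v c) {r : ℕ}
    {f g : Fin r → (W → ℝ) → ℝ} (hfg : ∀ k, IsPL (space v) (f k) ∧ IsPL (space v) (g k))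
    (hpos : ∀ τ, ∀ x ∈ openSimplex (v τ), ∀ a b : Fin r → (W → ℝ) →ᵃ[ℝ] ℝ,
      (∀ k, f k =ᶠ[𝓝[simplex (v τ)] x] a k ∧ g k =ᶠ[𝓝[simplex (v τ)] x] b k) →
      0 < pfaff fun i j => mat c (v τ) i j +
        ∑ k, (dif (a k) (v τ) i * dif (b k) (v τ) j - dif (a k) (v τ) j * dif (b k) (v τ) i)) :
    ∃ L, Subdiv (geom v) L ∧ ∃ β : (W → ℝ) → (W → ℝ) → ℝ, (∀ x y, β x y = -β y x) ∧
      ∀ σ ∈ L, 0 < pfaff (mat (fun x y z => tri c x y z + cob β x y z) σ) := by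
  choose A hA hA' using fun k => (hfg k).1.2
  choose B hB hB' using fun k => (hfg k).2.2
  have hD : ((⋃ k, A k) ∪ ⋃ k, B k).Finite := (finite_iUnion hA).union (finite_iUnion hB)
  have hher : EdHer fun σ => ∃ τ, EdIn (v τ) σ := fun σ i j l ⟨τ, h⟩ h1 h2 h3 =>
    ⟨τ, edIn_her _ σ i j l h h1 h2 h3⟩
  have h0 : ∀ σ ∈ geom v, ∃ τ, EdIn (v τ) σ := by
    rintro _ ⟨τ, rfl⟩
    exact ⟨τ, edIn_self _⟩
  obtain ⟨L, l1, -, l3⟩ := ed_cut hher (fun σ ⟨τ, h⟩ => edIn_inj (hv τ) h) (finite_range _) h0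
    (hD.image2 (fun a a' => a - a') hD)
  refine ⟨L, l1, fun x y => ∑ k, (f k x + f k y) * (g k y - g k x), fun x y => ?_, fun σ hσ => ?_⟩
  · rw [← Finset.sum_neg_distrib]
    exact Finset.sum_congr rfl fun k _ => by ring
  obtain ⟨τ, hτ⟩ := ed_ind hher l1 h0 σ hσ
  have hS : ∀ m ∈ stdSimplex ℝ (Fin (2 * n + 1)), edBar σ m ∈ space v := fun m hm =>
    mem_iUnion.2 ⟨τ, edIn_mem hτ m hm⟩
  choose a ha using fun k => ed_sel (hfg k).1.1 (hA k) (hA' k) hS fun a e a' e' =>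
    l3 _ (mem_image2_of_mem (Or.inl (mem_iUnion.2 ⟨k, e⟩)) (Or.inl (mem_iUnion.2 ⟨k, e'⟩))) σ hσ
  choose b hb using fun k => ed_sel (hfg k).2.1 (hB k) (hB' k) hS fun a e a' e' =>
    l3 _ (mem_image2_of_mem (Or.inr (mem_iUnion.2 ⟨k, e⟩)) (Or.inr (mem_iUnion.2 ⟨k, e'⟩))) σ hσ
  obtain ⟨x, hx, hx'⟩ := edIn_int (hv τ) hτ
  have h1 := hpos τ x hx a b fun k => ⟨hx'.mono fun y ⟨m, e1, e2⟩ => e2 ▸ ha k m e1,
    hx'.mono fun y ⟨m, e1, e2⟩ => e2 ▸ hb k m e1⟩
  obtain ⟨M, m1, -, m3, m4⟩ := hτ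
  have h2 := mul_pos ((ed_det M m3).symm ▸ m1) h1
  rw [← pfaff_congr] at h2
  refine h2.trans_eq (congrArg pfaff (funext fun i => funext fun j => ?_))
  have d1 : ∀ (e : (W → ℝ) →ᵃ[ℝ] ℝ) (i : Fin (2 * n)), e (σ i.succ) - e (σ 0) =
      ∑ p : Fin (2 * n), (M p.succ i.succ - M p.succ 0) * dif e (v τ) p := fun e i => by
    rw [m4, m4, edBar_aff e _ (m3 _), edBar_aff e _ (m3 _), ed_diff (m3 _) (m3 _)]
    rfl
  have d2 : ∀ k i, f k (σ i) = a k (σ i) := fun k i => by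
    simpa only [edBar_single] using ha k _ (single_mem_stdSimplex ℝ i)
  have d3 : ∀ k i, g k (σ i) = b k (σ i) := fun k i => by
    simpa only [edBar_single] using hb k _ (single_mem_stdSimplex ℝ i)
  have d4 : tri c (σ 0) (σ i.succ) (σ j.succ) = ∑ p : Fin (2 * n), ∑ q : Fin (2 * n),
      (M p.succ i.succ - M p.succ 0) * (M q.succ j.succ - M q.succ 0) * mat c (v τ) p q := by
    rw [m4, m4, m4, tri_bar]
    exact tri_eq (C := fun i j k => c (v τ i) (v τ j) (v τ k)) (fun j k => hc.alt2 _ _ _)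
      (fun k => by linarith [hc.alt1 (v τ 0) (v τ 0) (v τ k)])
      (fun i j k => hc.closed τ 0 i j k) (m3 _) (m3 _) (m3 _)
  have d5 : cob (fun x y => ∑ k, (f k x + f k y) * (g k y - g k x)) (σ 0) (σ i.succ) (σ j.succ) =
      ∑ k, ((a k (σ i.succ) - a k (σ 0)) * (b k (σ j.succ) - b k (σ 0)) -
        (a k (σ j.succ) - a k (σ 0)) * (b k (σ i.succ) - b k (σ 0))) := by
    simp only [cob, d2, d3, ← Finset.sum_sub_distrib, ← Finset.sum_add_distrib]
    exact Finset.sum_congr rfl fun k _ => by ring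
  change _ = tri c (σ 0) (σ i.succ) (σ j.succ) + cob _ (σ 0) (σ i.succ) (σ j.succ)
  rw [d4, d5]
  simp only [d1, Matrix.of_apply, mul_add, Finset.sum_add_distrib, add_right_inj]
  exact ed_wedge _ _ (fun k => dif (a k) (v τ)) fun k => dif (b k) (v τ)

end Pool.Agent.Work.MP_bf98aa_gt.PlSt
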