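import Pool.Agent.Work.MP_bf98aa_gt.Pl.EdCut

/-!
On a simplex that no hyperplane cuts, a continuous selection of affine functions is affine.
-/

set_option autoImplicit false
set_option linter.unusedSectionVars false

open Set Filter Topology

namespace Pool.Agent.Work.MP_bf98aa_gt.PlSt

variable {W : Type} [Fintype W] {N : ℕ}

/-- The point with barycentric coordinates `m`. -/
def edBar (σ : Fin (N + 1) → W → ℝ) (m : Fin (N + 1) → ℝ) : W → ℝ := ∑ i, m i • σ i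

theorem edBar_cont (σ : Fin (N + 1) → W → ℝ) : Continuous (edBar σ) := by
  unfold edBar
  fun_prop

theorem edBar_single (σ : Fin (N + 1) → W → ℝ) (j : Fin (N + 1)) :
    edBar σ (Pi.single j 1) = σ j := by
  simp [edBar, Pi.single_apply]

theorem edBar_aff (a : (W → ℝ) →ᵃ[ℝ] ℝ) (σ : Fin (N + 1) → W → ℝ) {m : Fin (N + 1) → ℝ}
    (hm : ∑ i, m i = 1) : a (edBar σ m) = ∑ i, m i * a (σ i) := by
  have h : ∀ x, a x = a.linear x + a 0 := fun x => congrFun a.decomp x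
  rw [h, edBar, map_sum]
  simp only [h (σ _), mul_add, Finset.sum_add_distrib, ← Finset.sum_mul, hm, one_mul, map_smul,
    smul_eq_mul]

theorem ed_zero {h : (W → ℝ) →ᵃ[ℝ] ℝ} {σ : Fin (N + 1) → W → ℝ} (hs : EdSgn h σ)
    {m : Fin (N + 1) → ℝ} (h0 : ∀ i, 0 < m i) (h1 : ∑ i, m i * h (σ i) = 0) (j : Fin (N + 1)) :
    h (σ j) = 0 := by
  refine (mul_eq_zero.1 (?_ : m j * h (σ j) = 0)).resolve_left (h0 j).ne'
  rcases hs with e | e
  · exact (Finset.sum_eq_zero_iff_of_nonneg fun i _ => mul_nonneg (h0 i).le (e i)).1 h1 j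
      (Finset.mem_univ j)
  · exact (Finset.sum_eq_zero_iff_of_nonpos fun i _ =>
      mul_nonpos_of_nonneg_of_nonpos (h0 i).le (e i)).1 h1 j (Finset.mem_univ j)

theorem ed_sel {S : Set (W → ℝ)} {f : (W → ℝ) → ℝ} (hf : ContinuousOn f S)
    {A : Set ((W → ℝ) →ᵃ[ℝ] ℝ)} (hA : A.Finite) (h1 : ∀ x ∈ S, ∃ a ∈ A, f x = a x)
    {σ : Fin (N + 1) → W → ℝ} (h2 : ∀ m ∈ stdSimplex ℝ (Fin (N + 1)), edBar σ m ∈ S)
    (h3 : ∀ a ∈ A, ∀ a' ∈ A, EdSgn (a - a') σ) :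
    ∃ a : (W → ℝ) →ᵃ[ℝ] ℝ, ∀ m ∈ stdSimplex ℝ (Fin (N + 1)), f (edBar σ m) = a (edBar σ m) := by
  obtain ⟨O, hO⟩ : ∃ O : Set (Fin (N + 1) → ℝ), O = {m | (∀ i, 0 < m i) ∧ ∑ i, m i = 1} := ⟨_, rfl⟩
  have o1 : ∀ m ∈ O, m ∈ stdSimplex ℝ (Fin (N + 1)) := fun m hm => by
    rw [hO] at hm
    exact ⟨fun i => (hm.1 i).le, hm.2⟩
  have o2 : ∀ m ∈ stdSimplex ℝ (Fin (N + 1)), ∀ m' ∈ O, ∀ s t : ℝ, 0 ≤ s → 0 < t → s + t = 1 →
      s • m + t • m' ∈ O := by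
    intro m hm m' hm' s t hs ht hst
    have e := convex_stdSimplex ℝ (Fin (N + 1)) hm (o1 m' hm') hs ht.le hst
    rw [hO] at hm' ⊢
    exact ⟨fun i => add_pos_of_nonneg_of_pos (mul_nonneg hs (hm.1 i)) (mul_pos ht (hm'.1 i)), e.2⟩
  have o3 : Convex ℝ O := by
    intro m hm m' hm' s t hs ht hst
    rcases ht.eq_or_lt with rfl | ht
    · rw [add_zero] at hst
      rwa [hst, one_smul, zero_smul, add_zero]
    · exact o2 m (o1 m hm) m' hm' s t hs ht hst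
  obtain ⟨m0, hm0⟩ : O.Nonempty := by
    refine ⟨fun _ => 1 / ((N : ℝ) + 1), ?_⟩
    rw [hO]
    refine ⟨fun _ => by positivity, ?_⟩
    rw [Finset.sum_const, Finset.card_univ, Fintype.card_fin, nsmul_eq_mul]
    push_cast
    field_simp
  obtain ⟨Z, hZ⟩ : ∃ Z : ((W → ℝ) →ᵃ[ℝ] ℝ) → Set (Fin (N + 1) → ℝ), Z = fun a =>
    {m ∈ stdSimplex ℝ (Fin (N + 1)) | f (edBar σ m) = a (edBar σ m)} := ⟨_, rfl⟩
  have z1 : ∀ a, IsClosed (Z a) := fun a => by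
    rw [hZ]
    exact (isClosed_stdSimplex ℝ _).isClosed_eq (hf.comp (edBar_cont σ).continuousOn h2)
      (a.continuous_of_finiteDimensional.comp (edBar_cont σ)).continuousOn
  obtain ⟨a0, ha0, e0⟩ := h1 _ (h2 m0 (o1 m0 hm0))
  have z2 : O ⊆ Z a0 := by
    have z3 : IsClosed (⋃ a ∈ {a ∈ A | ¬ ∀ j, a (σ j) = a0 (σ j)}, Z a) :=
      (hA.subset fun a h => h.1).isClosed_biUnion fun a _ => z1 a
    have z4 : O ∩ (Z a0 ∩ ⋃ a ∈ {a ∈ A | ¬ ∀ j, a (σ j) = a0 (σ j)}, Z a) = ∅ := by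
      refine eq_empty_of_forall_notMem fun m ⟨e1, e2, e3⟩ => ?_
      obtain ⟨a, e4, e5⟩ := mem_iUnion₂.1 e3
      rw [hZ] at e2 e5
      rw [hO] at e1
      refine e4.2 fun j => sub_eq_zero.1 (ed_zero (h3 a e4.1 a0 ha0) e1.1 ?_ j)
      rw [← edBar_aff _ σ e1.2]
      exact sub_eq_zero.2 (e5.2.symm.trans e2.2)
    have z5 : O ⊆ Z a0 ∪ ⋃ a ∈ {a ∈ A | ¬ ∀ j, a (σ j) = a0 (σ j)}, Z a := by
      intro m hm
      obtain ⟨a, ha, e⟩ := h1 _ (h2 m (o1 m hm))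
      by_cases e1 : ∀ j, a (σ j) = a0 (σ j)
      · left
        rw [hZ]
        refine ⟨o1 m hm, e.trans ?_⟩
        rw [edBar_aff _ σ (o1 m hm).2, edBar_aff _ σ (o1 m hm).2]
        simp only [e1]
      · right
        refine mem_biUnion (⟨ha, e1⟩ : a ∈ {a ∈ A | ¬ ∀ j, a (σ j) = a0 (σ j)}) ?_
        rw [hZ]
        exact ⟨o1 m hm, e⟩
    refine (isPreconnected_iff_subset_of_disjoint_closed.1 o3.isPreconnected _ _ (z1 a0) z3 z5
      z4).resolve_right fun e => ?_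
    have : m0 ∈ O ∩ (Z a0 ∩ ⋃ a ∈ {a ∈ A | ¬ ∀ j, a (σ j) = a0 (σ j)}, Z a) :=
      ⟨hm0, by rw [hZ]; exact ⟨o1 m0 hm0, e0⟩, e hm0⟩
    rw [z4] at this
    exact this
  refine ⟨a0, fun m hm => ?_⟩
  have z6 : openSegment ℝ m m0 ⊆ Z a0 := by
    rintro _ ⟨s, t, hs, ht, hst, rfl⟩
    exact z2 (o2 m hm m0 hm0 s t hs.le ht hst)
  have z7 := (z1 a0).closure_subset_iff.2 z6
    (segment_subset_closure_openSegment (left_mem_segment ℝ m m0))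
  rw [hZ] at z7
  exact z7.2

end Pool.Agent.Work.MP_bf98aa_gt.PlSt
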