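import Pool.Agent.Work.MP_bf98aa_gt.Pl.Main
import Pool.Agent.Work.MP_bf98aa_gt.Pl.EdMain

/-!
Every class of positive top power on an oriented simplicial pseudomanifold contains a piecewise
constant symplectic form on a subdivision.
-/

set_option autoImplicit false

namespace Pool.Agent.Work.MP_bf98aa_gt.PlSt

theorem pl_final (n : ℕ) (hn : 2 ≤ n) (W T : Type) [Fintype W] [DecidableEq W] [Fintype T]
    (v : T → Fin (2 * n + 1) → W) (hv : Pseudo v) (c : W → W → W → ℝ) (hc : Cocycle v c)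
    (hpos : 0 < ∑ τ, pfaff (mat c (v τ))) :
    ∃ L, Subdiv (geom v) L ∧ ∃ β : (W → ℝ) → (W → ℝ) → ℝ, (∀ x y, β x y = -β y x) ∧
      ∀ σ ∈ L, 0 < pfaff (mat (fun x y z => tri c x y z + cob β x y z) σ) := by
  obtain ⟨r, f, g, h1, h2⟩ := plsymp n hn W T v hv c hc hpos
  exact subdiv_of_pl hv.inj hc h1 h2

end Pool.Agent.Work.MP_bf98aa_gt.PlSt
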