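import Pool.Agent.Work.MP_bf98aa_gt.Pl.Final

/-!
General position: the form is also nondegenerate on all faces of even dimension.
-/

set_option autoImplicit false
set_option linter.unusedSectionVars false

open Set Filter Topology Polynomial

namespace Pool.Agent.Work.MP_bf98aa_gt.PlSt

theorem gp_std (j : ℕ) : ∃ S : Fin (2 * j) → Fin (2 * j) → ℝ, (∀ a b, S a b = -S b a) ∧ pfaff S ≠ 0 := by
  rcases j with _ | m
  · exact ⟨0, fun _ _ => neg_zero.symm, by simp [pfaff]⟩
  · obtain ⟨Ψ, κ, h, e⟩ := Pl.br_frame m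
    exact ⟨_, fun a b => Pl.skew_w0 _ _, by rw [e, Pl.Pq_w0, mul_one]; exact h.ne'⟩

theorem gp_fin {j : ℕ} (A : Fin (2 * j) → Fin (2 * j) → ℝ) {S : Fin (2 * j) → Fin (2 * j) → ℝ}
    (h : pfaff S ≠ 0) : {t : ℝ | (pfaff fun a b => A a b + t * S a b) = 0}.Finite := by
  obtain ⟨P, hP⟩ : ∃ P : ℝ[X], P = ∑ σ : Equiv.Perm (Fin (2 * j)), C ((Equiv.Perm.sign σ : ℤ) : ℝ) *
    ∏ i : Fin j, (C (S (σ (evn i)) (σ (odd i))) * X + C (A (σ (evn i)) (σ (odd i)))) := ⟨_, rfl⟩
  have h1 : P.coeff ((Finset.univ : Finset (Fin j)).card * 1) = pfaff S := by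
    rw [hP, finsetSum_coeff]
    refine Finset.sum_congr rfl fun σ _ => ?_
    rw [coeff_C_mul, coeff_prod_of_natDegree_le _ _ _ fun _ _ => natDegree_linear_le]
    simp
  refine (finite_setOfPred_isRoot (p := P) fun e => h (by rw [← h1, e, coeff_zero])).subset
    fun t ht => Eq.trans ?_ ht
  simp only [hP, eval_finsetSum, eval_mul, eval_C, eval_prod, eval_add, eval_X, pfaff, add_comm,
    mul_comm t]

theorem gp_cont {j : ℕ} (A S : Fin (2 * j) → Fin (2 * j) → ℝ) :
    Continuous fun t : ℝ => pfaff fun a b => A a b + t * S a b := by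
  unfold pfaff
  fun_prop

theorem gp_beta {X : Type} {j : ℕ} {u : Fin (2 * j + 1) → X} (hu : Function.Injective u) :
    ∃ β : X → X → ℝ, (∀ x y, β x y = -β y x) ∧ pfaff (mat (cob β) u) ≠ 0 := by
  classical
  obtain ⟨S, h1, h2⟩ := gp_std j
  refine ⟨fun x y => ∑ a, ∑ b, if u a.succ = x ∧ u b.succ = y then S a b else 0, fun x y => ?_,
    fun e => h2 (Eq.trans (congrArg pfaff (funext fun a => funext fun b => ?_)) e)⟩
  · beta_reduce
    rw [Finset.sum_comm, ← Finset.sum_neg_distrib]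
    refine Finset.sum_congr rfl fun a _ => ?_
    rw [← Finset.sum_neg_distrib]
    refine Finset.sum_congr rfl fun b _ => ?_
    rw [h1 b a, if_congr and_comm rfl rfl]
    split_ifs
    · rfl
    · exact neg_zero.symm
  · simp [mat, cob, hu.eq_iff, ite_and]

/-- A small change of the cochain makes the form nondegenerate on finitely many given faces. -/
theorem gp_small {X : Type} {n : ℕ} (c : X → X → X → ℝ) {L : Set (Fin (2 * n + 1) → X)}
    (hL : L.Finite) {β₀ : X → X → ℝ} (h0 : ∀ x y, β₀ x y = -β₀ y x)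
    (h1 : ∀ σ ∈ L, 0 < pfaff (mat (fun x y z => c x y z + cob β₀ x y z) σ))
    {F : Set (Σ j : ℕ, Fin (2 * j + 1) → X)} (hF : F.Finite) :
    ∃ β : X → X → ℝ, (∀ x y, β x y = -β y x) ∧
      (∀ σ ∈ L, 0 < pfaff (mat (fun x y z => c x y z + cob β x y z) σ)) ∧
      ∀ u ∈ F, Function.Injective u.2 → pfaff (mat (fun x y z => c x y z + cob β x y z) u.2) ≠ 0 := by
  induction F, hF using Set.Finite.induction_on with
  | empty => exact ⟨β₀, h0, h1, fun _ h => h.elim⟩
  | @insert u F _ hF ih =>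
    obtain ⟨β, b0, b1, b2⟩ := ih
    by_cases hu : Function.Injective u.2
    · obtain ⟨γ, c0, c1⟩ := gp_beta hu
      have e : ∀ (t : ℝ) (j : ℕ) (w : Fin (2 * j + 1) → X),
          mat (fun x y z => c x y z + cob (fun x y => β x y + t * γ x y) x y z) w =
            fun a b => mat (fun x y z => c x y z + cob β x y z) w a b + t * mat (cob γ) w a b :=
        fun t j w => funext fun a => funext fun b => by
          simp only [mat, cob]
          ring
      have e1 : ∀ᶠ t : ℝ in 𝓝 0, ∀ σ ∈ L, 0 < pfaff fun a b =>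
          mat (fun x y z => c x y z + cob β x y z) σ a b + t * mat (cob γ) σ a b :=
        (eventually_all_finite hL).2 fun σ hσ => (gp_cont _ _).continuousAt.eventually_const_lt (by
          simpa only [zero_mul, add_zero] using b1 σ hσ)
      have e2 : ∀ᶠ t : ℝ in 𝓝 0, ∀ w ∈ F, Function.Injective w.2 → (pfaff fun a b =>
          mat (fun x y z => c x y z + cob β x y z) w.2 a b + t * mat (cob γ) w.2 a b) ≠ 0 :=
        (eventually_all_finite hF).2 fun w hw => eventually_imp_distrib_left.2 fun k =>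
          (gp_cont _ _).continuousAt.eventually_ne (by
            simpa only [zero_mul, add_zero] using b2 w hw k)
      obtain ⟨t, t1, t2⟩ := (infinite_of_mem_nhds _ (e1.and e2)).exists_notMem_finite
        (gp_fin (mat (fun x y z => c x y z + cob β x y z) u.2) c1)
      refine ⟨fun x y => β x y + t * γ x y, fun x y => by beta_reduce; rw [b0 x y, c0 x y]; ring, fun σ hσ => ?_,
        fun w hw k => ?_⟩
      · rw [e]
        exact t1.1 σ hσ
      · rw [e]
        rcases hw with rfl | hw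
        · exact t2
        · exact t1.2 w hw k
    · refine ⟨β, b0, b1, fun w hw k => ?_⟩
      rcases hw with rfl | hw
      · exact (hu k).elim
      · exact b2 w hw k

theorem pl_general (n : ℕ) (hn : 2 ≤ n) (W T : Type) [Fintype W] [DecidableEq W] [Fintype T]
    (v : T → Fin (2 * n + 1) → W) (hv : Pseudo v) (c : W → W → W → ℝ) (hc : Cocycle v c)
    (hpos : 0 < ∑ τ, pfaff (mat c (v τ))) :
    ∃ L, Subdiv (geom v) L ∧ ∃ β : (W → ℝ) → (W → ℝ) → ℝ, (∀ x y, β x y = -β y x) ∧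
      ∀ σ ∈ L, 0 < pfaff (mat (fun x y z => tri c x y z + cob β x y z) σ) ∧
        ∀ (j : ℕ) (φ : Fin (2 * j + 1) → Fin (2 * n + 1)), Function.Injective φ →
          pfaff (mat (fun x y z => tri c x y z + cob β x y z) fun i => σ (φ i)) ≠ 0 := by
  obtain ⟨L, l1, β, b0, b1⟩ := pl_final n hn W T v hv c hc hpos
  have hL : L.Finite := by
    clear b1
    induction l1 with
    | refl => exact finite_range _
    | tail _ h ih =>
      obtain ⟨u, u', l, -, -, -, rfl⟩ := h
      exact ed_fin _ _ _ ih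
  have hi : ∀ σ ∈ L, ∃ τ, EdIn (v τ) σ := ed_ind
    (fun σ i j l ⟨τ, h⟩ h1 h2 h3 => ⟨τ, edIn_her _ σ i j l h h1 h2 h3⟩) l1 (by
      rintro _ ⟨τ, rfl⟩
      exact ⟨τ, edIn_self _⟩)
  obtain ⟨γ, c0, c1, c2⟩ := gp_small (tri c) hL b0 b1 (F := ⋃ σ ∈ L, ⋃ j ∈ Iic n,
    range fun φ : Fin (2 * j + 1) → Fin (2 * n + 1) => ⟨j, fun i => σ (φ i)⟩)
    (hL.biUnion fun _ _ => (finite_Iic n).biUnion fun _ _ => finite_range _)
  refine ⟨L, l1, γ, c0, fun σ hσ => ⟨c1 σ hσ, fun j φ hφ => c2 ⟨j, _⟩ (mem_iUnion₂.2 ⟨σ, hσ,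
    mem_iUnion₂.2 ⟨j, ?_, φ, rfl⟩⟩) ((hi σ hσ).elim fun τ h => (edIn_inj (hv.inj τ) h).comp hφ)⟩⟩
  have := Fintype.card_le_of_injective φ hφ
  simp only [Fintype.card_fin] at this
  exact mem_Iic.2 (by omega)

end Pool.Agent.Work.MP_bf98aa_gt.PlSt
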