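import Pool.Agent.Work.MP_bf98aa_gt.Pl.RadD
import Pool.Agent.Work.MP_bf98aa_gt.Pl.Acc
import Pool.Agent.Work.MP_bf98aa_gt.Pl.Conn
import Pool.Agent.Work.MP_bf98aa_gt.Pl.LinB

/-!
The shell. centre_ex gives c, q with opE sig 0 = (rho (y - c) < 1) and clE sig (inn m) = (rho (y - c) <= 1/2). Let r x = min (2 mu x) (2 mu - 1 - 2 (mu - 1) x), Lam = 2 mu - 1, F y = c + rad q Lam (y - c) (r (rho (y - c))). Then F = id where rho = 1 (rad_self),
F y = c + 2 mu (y - c) where rho <= 1/2 (rad_lin), and on the shell 1/2 < rho < 1 the determinant of DF is negative (rad_det1 with slope -2 (mu - 1)); F maps the shell bijectively to 1 < rho < mu, the inverse being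
F' w = c + rad q Lam (w - c) (r' (rho (w - c))), r' x = (2 mu - 1 - x) / (2 (mu - 1)) (rho_rad, rad_rad). Write b = sum of wedge (p k) (q k) (skew_eq_sum); old = (p, q), new = old.comp F, so new.form = pb DF b (Pot.AffAt.comp).
darboux gives L with pb L b = w0, det L < 0; acc_of_inv with G = L^-1 o F, G' = F' o L.
-/

set_option autoImplicit false
set_option maxSynthPendingDepth 3
set_option linter.unusedSectionVars false
set_option linter.unusedVariables false

open Set Filter Topology Metric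

noncomputable section
namespace Pool.Agent.Work.MP_bf98aa_gt.Pl

open Pool.Agent.Work.MP_bf98aa_gt.Ns

variable {m : ℕ}

section
variable {Y : Type} [NormedAddCommGroup Y] [NormedSpace ℝ Y] [FiniteDimensional ℝ Y] {d : ℕ}
  {q : Sx Y d}

theorem Shell_tr {p : Y → Prop} (h : ∀ᶠ y in gen Y, p y) (c : Y) : ∀ᶠ v in gen Y, p (v - c) := by
  rw [gen_iff] at h ⊢
  have := h.preimage (Homeomorph.subRight c).isOpenMap
  rwa [Homeomorph.preimage_interior] at this

theorem Shell_form {r : ℕ} (p p' : Fin r → B1 Y) {H : Y → Y} {v : Y} {D : Y →L[ℝ] Y}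
    (h : HasFDerivAt H D v) :
    ∑ k, wedge (fderiv ℝ (fun y => p k (H y)) v) (fderiv ℝ (fun y => p' k (H y)) v) =
      pb D (∑ k, wedge (p k) (p' k)) := by
  rw [pb_sum]
  refine Finset.sum_congr rfl fun k _ => ?_
  rw [pb_wedge, ← ((p k).hasFDerivAt.comp v h).fderiv, ← ((p' k).hasFDerivAt.comp v h).fderiv]
  rfl

theorem Shell_map (hd : 1 ≤ d) (hq : Cen q) {μ : ℝ} (hμ : 1 < μ) : ∃ F F' : Y → Y, PL F ∧ PL F' ∧
    (∀ y, rho q y = 1 → F y = y) ∧ (∀ y, rho q y < 1 / 2 → F y = (2 * μ) • y) ∧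
    (∀ y, 1 / 2 < rho q y → rho q y < 1 → (1 < rho q (F y) ∧ rho q (F y) < μ) ∧ F' (F y) = y) ∧
    (∀ w, 1 < rho q w → rho q w < μ →
      (1 / 2 < rho q (F' w) ∧ rho q (F' w) < 1) ∧ F (F' w) = w) ∧
    ∀ᶠ y in gen Y, 1 / 2 < rho q y → rho q y < 1 → (fderiv ℝ F y).det < 0 := by
  have hΛ : 0 ≤ 2 * μ - 1 := by linarith
  have h2 : 0 < 2 * (μ - 1) := by linarith
  obtain ⟨r, hr⟩ : ∃ r : ℝ → ℝ, r = fun x => min (2 * μ * x) (2 * μ - 1 - 2 * (μ - 1) * x) :=
    ⟨_, rfl⟩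
  obtain ⟨r', hr'⟩ : ∃ r' : ℝ → ℝ, r' = fun x => (2 * μ - 1 - x) / (2 * (μ - 1)) := ⟨_, rfl⟩
  have p1 : PL r := hr ▸ ((plOn_id _).const_mul _).min
    ((plOn_const _ _).sub ((plOn_id _).const_mul _))
  have p2 : PL r' := hr' ▸ ((plOn_const _ _).sub (plOn_id _)).div_const _
  have e1 : ∀ x, 1 / 2 < x → r x = 2 * μ - 1 - 2 * (μ - 1) * x := fun x hx => by
    rw [hr]
    exact min_eq_right (by nlinarith)
  have e2 : ∀ x, 2 * (μ - 1) * r' x = 2 * μ - 1 - x := fun x => by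
    rw [hr']
    exact mul_div_cancel₀ _ h2.ne'
  have b1 : ∀ x, 1 / 2 < x → x < 1 → 1 < r x ∧ r x < μ := fun x a b => by
    rw [e1 x a]
    constructor <;> nlinarith
  have b2 : ∀ x, 1 < x → x < μ → 1 / 2 < r' x ∧ r' x < 1 := fun x a b => by
    have := e2 x
    constructor <;> nlinarith
  have rat : ∀ x z : ℝ, 1 / 2 < x → x < 1 → 1 < z → z < μ → Rat (2 * μ - 1) x z :=
    fun x z a b c e => ⟨by linarith, by linarith, by nlinarith, by nlinarith⟩
  refine ⟨fun y => rad q (2 * μ - 1) y (r (rho q y)), fun y => rad q (2 * μ - 1) y (r' (rho q y)),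
    pl_rad q _ (plOn_id _) (p1.comp (pl_rho q)), pl_rad q _ (plOn_id _) (p2.comp (pl_rho q)),
    fun y hy => ?_, fun y hy => ?_, fun y a b => ?_, fun w a b => ?_, ?_⟩
  · have e : r (rho q y) = rho q y := by
      rw [hy, e1 1 (by norm_num)]
      ring
    simp only [e, rad_self hq hΛ]
  · have e : r (rho q y) = (1 + (2 * μ - 1)) * rho q y := by
      rw [hr, add_sub_cancel]
      exact min_eq_left (by nlinarith)
    simp only [e]
    rw [rad_lin hq hΛ, add_sub_cancel]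
  · have h := rat _ _ a b (b1 _ a b).1 (b1 _ a b).2
    have e : r' (r (rho q y)) = rho q y := mul_left_cancel₀ h2.ne' (by rw [e2, e1 _ a]; ring)
    simp only [rho_rad hq hΛ h, e, rad_rad hq hΛ h]
    exact ⟨b1 _ a b, trivial⟩
  · have h := (rat _ _ (b2 _ a b).1 (b2 _ a b).2 a b).symm
    have e : r (r' (rho q w)) = rho q w := by
      rw [e1 _ (b2 _ a b).1, e2]
      ring
    simp only [rho_rad hq hΛ h, e, rad_rad hq hΛ h]
    exact ⟨b2 _ a b, trivial⟩
  · filter_upwards [rad_det1 hd hq hΛ p1 (U := rho q ⁻¹' Ioo (1 / 2) 1)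
      (isOpen_Ioo.preimage (pl_rho q).continuous)
      (fun y hy => rat _ _ hy.1 hy.2 (b1 _ hy.1 hy.2).1 (b1 _ hy.1 hy.2).2) (k := -(2 * (μ - 1)))
      fun y hy => by
        refine HasDerivAt.congr_of_eventuallyEq ?_
          (mem_of_superset (Ioi_mem_nhds hy.1) fun x hx => e1 x hx)
        simpa using ((hasDerivAt_id (rho q y)).const_mul (2 * (μ - 1))).const_sub (2 * μ - 1)]
      with y hy a b
    obtain ⟨c, hc, e⟩ := hy ⟨a, b⟩
    rw [e]
    nlinarith

end

theorem shell (σ : Sx (WW m) (2 * m + 2)) {b : B2 (WW m)} (hs : Skew b) (hb : Pq b < 0) {μ : ℝ}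
    (hμ : 1 < μ) : ∃ Θ : Pot2 (WW m), Θ.new.PLOn univ ∧ Θ.old.PLOn univ ∧
      (∀ v, Θ.old.form v = b) ∧
      (∀ v ∈ clE σ 0, v ∉ opE σ 0 → ∀ k, Θ.f k v = Θ.f0 k v ∧ Θ.g k v = Θ.g0 k v) ∧
      (∀ v ∈ opE σ (inn m), Θ.new.form v = (2 * μ) ^ 2 • b) ∧
      Acc Θ.new (opE σ 0 \ clE σ (inn m)) := by
  obtain ⟨c, q, hq, hc, ho⟩ := centre_ex σ
  obtain ⟨F, F', p1, p2, h1, h2, h3, h4, h5⟩ := Shell_map (by omega) hq hμ
  obtain ⟨r, p, p', hp⟩ := skew_eq_sum hs
  obtain ⟨K, hK, hd⟩ := equiv_forms hs skew_w0 hb.ne (by rw [Pq_w0]; exact one_ne_zero)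
  rw [Pq_w0, mul_one] at hd
  have hK0 : K.det ≠ 0 := hd ▸ hb.ne
  let L : WW m →L[ℝ] WW m := (K.toContinuousLinearEquivOfDetNeZero hK0).symm
  have k1 : ∀ y, K (L y) = y := (K.toContinuousLinearEquivOfDetNeZero hK0).apply_symm_apply
  have k2 : ∀ y, L (K y) = y := (K.toContinuousLinearEquivOfDetNeZero hK0).symm_apply_apply
  have e0 : 1 + (((2 * m + 2 : ℕ) : ℝ) + 1) * 0 = 1 := by ring
  have e1 : 1 + (((2 * m + 2 : ℕ) : ℝ) + 1) * inn m = 1 / 2 := by
    unfold inn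
    push_cast
    field_simp
    ring
  have hA : ∀ v, v ∈ opE σ 0 \ clE σ (inn m) ↔ 1 / 2 < rho q (v - c) ∧ rho q (v - c) < 1 :=
    fun v => by rw [mem_diff, hc, ho, e0, e1, not_le, and_comm]
  have t : PL fun v : WW m => v - c := (plOn_id _).sub (plOn_const _ _)
  have pH : PL fun v => c + F (v - c) := (plOn_const _ _).add (p1.comp t)
  have pC : ∀ l : B1 (WW m), PL fun v => l (c + F (v - c)) := fun l => PL.comp (plOn_clm l _) pH
  refine ⟨⟨Fin r, inferInstance, fun k v => p k (c + F (v - c)), fun k v => p' k (c + F (v - c)),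
    fun k v => p k v, fun k v => p' k v⟩,
    fun k => ⟨pC (p k), pC (p' k)⟩,
    fun k => ⟨plOn_clm (p k) _, plOn_clm (p' k) _⟩, fun v => ?_, fun v a b k => ?_, fun v hv => ?_,
    acc_of_inv (Sb := (fun u => rho q (L u - c)) ⁻¹' Ioo 1 μ) (G := fun v => K (c + F (v - c)))
      (G' := fun u => c + F' (L u - c)) ((isOpen_opE _ _).sdiff (Sx_closed _ _))
      (isOpen_Ioo.preimage ((pl_rho q).continuous.comp (L.continuous.sub continuous_const)))
      (PL.comp (plOn_clm K _) pH)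
      ((plOn_const _ _).add (p2.comp ((plOn_clm L _).sub (plOn_const _ _))))
      (fun v hv => ?_) (fun u hu => ?_) ?_⟩
  · exact (Shell_form p p' (hasFDerivAt_id v)).trans (by rw [pb_id, hp])
  · rw [hc, e0] at a
    rw [ho, e0, not_lt] at b
    simp only [h1 _ (le_antisymm a b), add_sub_cancel, and_self]
  · rw [ho, e1] at hv
    have h6 : HasFDerivAt (fun v => c + F (v - c)) ((2 * μ) • ContinuousLinearMap.id ℝ (WW m)) v := by
      refine ((((hasFDerivAt_id v).sub_const c).const_smul (2 * μ)).const_add c).congr_of_eventuallyEq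
        ?_
      filter_upwards [((pl_rho q).continuous.comp t.continuous).continuousAt.eventually_lt_const hv]
        with y hy
      rw [h2 _ hy]
      rfl
    refine (Shell_form p p' h6).trans (b2_ext fun u w => ?_)
    simp only [← hp, pb_apply, smul_apply, map_smul, ContinuousLinearMap.id_apply, smul_eq_mul]
    ring
  · obtain ⟨a, e⟩ := h3 _ ((hA v).1 hv).1 ((hA v).1 hv).2
    simp only [mem_preimage, k2, add_sub_cancel_left, e, add_sub_cancel]
    exact ⟨a, trivial⟩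
  · obtain ⟨a, e⟩ := h4 _ hu.1 hu.2
    simp only [hA, add_sub_cancel_left, e, add_sub_cancel, k1]
    exact ⟨a, trivial⟩
  · filter_upwards [Shell_tr h5 c, Shell_tr p1.gen_locAff c] with v a e hv
    have h6 : HasFDerivAt (fun v => c + F (v - c)) (fderiv ℝ F (v - c)) v :=
      (hasFDerivAt_comp_sub c |>.2 e.differentiableAt.hasFDerivAt).const_add c
    have h7 : fderiv ℝ (fun v => K (c + F (v - c))) v = K.comp (fderiv ℝ F (v - c)) :=
      (K.hasFDerivAt.comp v h6).fderiv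
    rw [h7, det_comp', pb_comp, hK, hd]
    exact ⟨mul_pos_of_neg_of_neg hb (a ((hA v).1 hv).1 ((hA v).1 hv).2),
      (Shell_form p p' h6).trans (by rw [hp])⟩

end Pool.Agent.Work.MP_bf98aa_gt.Pl
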