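import Pool.Agent.Work.MP_bf98aa_gt.Pl.AmbC
import Pool.Agent.Work.MP_bf98aa_gt.Pl.Shell
import Pool.Agent.Work.MP_bf98aa_gt.Pl.Conn

/-!
The initial state. shells: induction over a Finset s of negative simplices, starting with Pot.zero; invariant: for tau not in s the form is generically B tau on opE Delta 0, for tau in s the two stated properties. Step: shell, update with N = clE Delta 0, No = opE Delta 0, e = iota tau
(extensions h o left inverse: left_inv_aff); inside, PB.unique with pb_iota gives fm = new form; acc_dar; for the other simplices Keep.fm and Keep.dar with C = iota tau '' clE Delta 0 (Amb.disj).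
init: C = union of the cells and of the K eps (compact; it misses the boundaries of the top simplices by iota_eq, Static.sub, subZ). D tau = iota tau '' opE Delta 0 minus C is iota tau '' (opE Delta 0 minus clE Delta (inn m)) for negative tau (ann_conn) and iota tau '' (opE Delta 0 minus the union of the
Z '' clE sig eps with tau' = tau) for positive tau (many_conn with O = Z '' opE sig (2 eps), ann_conn; Z is invertible as Pq b is nonzero); it is nonempty, preconnected and in Dar (dar_const). good: good_dar and pointwise, in fact the complement of the cells is covered inside each open simplex by Dar.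
D = union of the D tau and of all sets W as in adj_cross (all relatively open preconnected W in Dar, disjoint from C, that meet some D tau). Preconnected: every D tau lies in the connected component of a point of D tau0 by induction along Amb.conn (isPreconnected_of_forall, IsPreconnected.union', subset_connectedComponentIn).
-/

set_option autoImplicit false
set_option maxSynthPendingDepth 3
set_option linter.unusedSectionVars false
set_option linter.unusedVariables false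

open Set Filter Topology Metric

noncomputable section
namespace Pool.Agent.Work.MP_bf98aa_gt.Pl

open Pool.Agent.Work.MP_bf98aa_gt.Ns

variable {m : ℕ} {E : Type} [NormedAddCommGroup E] [NormedSpace ℝ E] [FiniteDimensional ℝ E]

theorem inn_pos (m : ℕ) : 0 < 1 + (((2 * m + 2 : ℕ) : ℝ) + 1) * inn m ∧ inn m < 0 := by
  have h : (0 : ℝ) < 2 * (m : ℝ) + 3 := by positivity
  have e : 1 + (((2 * m + 2 : ℕ) : ℝ) + 1) * inn m = 1 / 2 := by
    rw [inn]; push_cast; field_simp; ring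
  refine ⟨by rw [e]; norm_num, neg_neg_of_pos (by positivity)⟩

theorem Init_step (a : Amb m E) {μ : ℝ} (hμ : 1 < μ) {P : Pot E} (hP : P.PLOn a.M) {τ0 : a.T}
    (hb : Pq (a.B τ0) < 0) (h0 : ∀ᶠ z in gen (WW m), z ∈ opE a.Δ 0 → fm a P τ0 z = a.B τ0) :
    ∃ P' : Pot E, P'.PLOn a.M ∧
      ((∀ᶠ z in gen (WW m), z ∈ opE a.Δ (inn m) → fm a P' τ0 z = (2 * μ) ^ 2 • a.B τ0) ∧
        a.ι τ0 '' (opE a.Δ 0 \ clE a.Δ (inn m)) ⊆ Dar a P') ∧
      ∀ τ, τ ≠ τ0 → (∀ᶠ z in gen (WW m), z ∈ opE a.Δ 0 → fm a P' τ z = fm a P τ z) ∧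
        ∀ z ∈ opE a.Δ 0, a.ι τ z ∈ Dar a P → a.ι τ z ∈ Dar a P' := by
  obtain ⟨Θ, t1, t2, t3, t4, t5, t6⟩ := shell a.Δ (a.skew τ0) hb hμ
  obtain ⟨A', hA'⟩ := left_inv_aff (a.ι τ0) (inj_contLinear _ (a.inj τ0))
  obtain ⟨Q, hQ, hK, hN⟩ := update (isCompact_clE a.Δ 0) (opE_sub_clE _ _) (plOn_aff (a.ι τ0) _)
    (a.inj τ0).injOn (a.mem τ0) (emb_iota a τ0) Θ t1 t2 t4 fun h hh =>
      ⟨fun x => h (A' x), hh.comp (plOn_aff A' _), fun v _ => congrArg h (hA' v)⟩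
  have hP' := hP.add hQ
  have hC : IsClosed (a.ι τ0 '' clE a.Δ 0) :=
    ((isCompact_clE a.Δ 0).image (a.ι τ0).continuous).isClosed
  have key : ∀ᶠ v in gen (WW m), v ∈ opE a.Δ 0 → PB a (P.add Q) (a.ι τ0) v (Θ.new.form v) := by
    filter_upwards [pb_iota hP τ0, h0, hN P] with v c1 c2 c3 hv
    have := c3 hv _ (c1 hv)
    rwa [c2 hv, t3, add_sub_cancel] at this
  refine ⟨P.add Q, hP', ⟨?_, acc_dar (emb_iota a τ0) t6 sdiff_subset
    (key.mono fun v c hv => c hv.1)⟩, fun τ hτ => ?_⟩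
  · filter_upwards [key, pb_iota hP' τ0] with v c1 c2 hv
    have hv' := opE_mono a.Δ (inn_pos m).2.le hv
    rw [(c2 hv').unique (c1 hv'), t5 v hv]
  · have hd : ∀ z ∈ opE a.Δ 0, a.ι τ z ∉ a.ι τ0 '' clE a.Δ 0 := fun z hz =>
      disjoint_left.1 (a.disj τ τ0 hτ) (mem_image_of_mem _ hz)
    exact ⟨((hK P).fm hC hP hP' τ).mono fun z c hz => c hz (hd z hz),
      fun z hz c => (hK P).dar hC ⟨c, hd z hz⟩⟩

theorem shells (a : Amb m E) {μ : ℝ} (hμ : 1 < μ) : ∃ P : Pot E, P.PLOn a.M ∧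
    (∀ τ, 0 < Pq (a.B τ) → ∀ᶠ z in gen (WW m), z ∈ opE a.Δ 0 → fm a P τ z = a.B τ) ∧
    ∀ τ, Pq (a.B τ) < 0 →
      (∀ᶠ z in gen (WW m), z ∈ opE a.Δ (inn m) → fm a P τ z = (2 * μ) ^ 2 • a.B τ) ∧
      a.ι τ '' (opE a.Δ 0 \ clE a.Δ (inn m)) ⊆ Dar a P := by
  classical
  have key : ∀ s : Finset a.T, (∀ τ ∈ s, Pq (a.B τ) < 0) → ∃ P : Pot E, P.PLOn a.M ∧
      (∀ τ, τ ∉ s → ∀ᶠ z in gen (WW m), z ∈ opE a.Δ 0 → fm a P τ z = a.B τ) ∧ ∀ τ ∈ s,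
        (∀ᶠ z in gen (WW m), z ∈ opE a.Δ (inn m) → fm a P τ z = (2 * μ) ^ 2 • a.B τ) ∧
        a.ι τ '' (opE a.Δ 0 \ clE a.Δ (inn m)) ⊆ Dar a P := by
    intro s
    induction s using Finset.induction_on with
    | empty => exact fun _ => ⟨Pot.zero E, plOn_zero _,
        fun τ _ => Eventually.of_forall fun z _ => fm_zero a τ z, fun τ h => absurd h (by simp)⟩
    | insert τ0 s h0 ih =>
      intro hs
      obtain ⟨P, p1, p2, p3⟩ := ih fun τ h => hs τ (Finset.mem_insert_of_mem h)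
      obtain ⟨P', q1, q2, q3⟩ := Init_step a hμ p1 (hs τ0 (Finset.mem_insert_self _ _)) (p2 τ0 h0)
      refine ⟨P', q1, fun τ hτ => ?_, fun τ hτ => ?_⟩
      · rw [Finset.mem_insert, not_or] at hτ
        filter_upwards [(q3 τ hτ.1).1, p2 τ hτ.2] with z c1 c2 hz using (c1 hz).trans (c2 hz)
      · rcases Finset.mem_insert.1 hτ with rfl | hτ
        · exact q2
        have hn : τ ≠ τ0 := fun e => h0 (e ▸ hτ)
        refine ⟨?_, ?_⟩
        · filter_upwards [(q3 τ hn).1, (p3 τ hτ).1] with z c1 c2 hz using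
            (c1 (opE_mono a.Δ (inn_pos m).2.le hz)).trans (c2 hz)
        · rintro _ ⟨z, hz, rfl⟩
          exact (q3 τ hn).2 z hz.1 ((p3 τ hτ).2 (mem_image_of_mem _ hz))
  obtain ⟨P, p1, p2, p3⟩ := key (Finset.univ.filter fun τ => Pq (a.B τ) < 0)
    fun τ h => (Finset.mem_filter.1 h).2
  exact ⟨P, p1, fun τ h => p2 τ fun k => h.not_gt (Finset.mem_filter.1 k).2,
    fun τ h => p3 τ (Finset.mem_filter.2 ⟨Finset.mem_univ _, h⟩)⟩

theorem Init_Z (σ : Sx (WW m) (2 * m + 2)) {Z : WW m →ᴬ[ℝ] WW m} (h : Z.contLinear.det ≠ 0) :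
    ∃ σ' : Sx (WW m) (2 * m + 2), ∀ ε, Z '' clE σ ε = clE σ' ε ∧ Z '' opE σ ε = opE σ' ε := by
  obtain ⟨Z', z1, z2, -⟩ := aff_inv Z h
  obtain ⟨σ', -, hσ⟩ := sx_map σ Z (Function.bijective_iff_has_inverse.2 ⟨Z', z1, z2⟩)
  refine ⟨σ', fun ε => ⟨Subset.antisymm ?_ fun y hy => ⟨Z' y, fun i => ?_, z2 y⟩,
    Subset.antisymm ?_ fun y hy => ⟨Z' y, fun i => ?_, z2 y⟩⟩⟩
  · rintro _ ⟨y, hy, rfl⟩ i
    exact (hy i).trans_eq (hσ i y).symm
  · rw [← hσ, z2]; exact hy i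
  · rintro _ ⟨y, hy, rfl⟩ i
    exact (hy i).trans_eq (hσ i y).symm
  · rw [← hσ, z2]; exact hy i

theorem Init_glue (a : Amb m E) {P : Pot E} (hP : P.PLOn a.M) {C : Set E} (hC : IsClosed C)
    (h1 : ∀ x ∈ C, ∃ τ, ∃ z ∈ opE a.Δ 0, a.ι τ z = x)
    (h2 : ∀ τ, a.ι τ '' opE a.Δ 0 \ C ⊆ Dar a P)
    (h3 : ∀ τ, IsPreconnected (a.ι τ '' opE a.Δ 0 \ C)) :
    ∃ D, OpenSub a.M D ∧ IsPreconnected D ∧ D ⊆ Dar a P ∧ Disjoint D C ∧
      ∀ τ, a.ι τ '' opE a.Δ 0 \ C ⊆ D := by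
  let 𝒮 : Set (Set E) := {S | OpenSub a.M S ∧ IsPreconnected S ∧ S ⊆ Dar a P ∧ Disjoint S C ∧
    ∃ τ, (S ∩ (a.ι τ '' opE a.Δ 0 \ C)).Nonempty}
  have h4 : ∀ τ, a.ι τ '' opE a.Δ 0 \ C ⊆ ⋃₀ 𝒮 := fun τ x hx =>
    ⟨_, ⟨(emb_iota a τ).openSub.diff hC, h3 τ, h2 τ, disjoint_sdiff_left, τ, x, hx, hx⟩, hx⟩
  have hg : Good a P Cᶜ := fun τ => (good_dar hP τ).mono fun z c hz hx =>
    c hz (h2 τ ⟨mem_image_of_mem _ hz, hx⟩)
  have h5 : ∀ τ τ', ∃ t ⊆ ⋃₀ 𝒮, IsPreconnected t ∧ a.ι τ '' opE a.Δ 0 \ C ⊆ t ∧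
      a.ι τ' '' opE a.Δ 0 \ C ⊆ t := fun τ τ' => by
    induction a.conn τ τ' with
    | refl => exact ⟨_, h4 τ, h3 τ, Subset.rfl, Subset.rfl⟩
    | @tail τ1 τ2 _ hadj ih =>
      obtain ⟨t, t1, t2, t3, t4⟩ := ih
      obtain ⟨W, w1, w2, w3, w4, ⟨x, hx⟩, y, hy⟩ := adj_cross hadj hP hC (fun z hz hz' hc => by
        obtain ⟨τ3, z', k1, k2⟩ := h1 _ hc
        exact hz' ((iota_eq k1 hz k2).2 ▸ k1)) hg
      have hx' : x ∈ a.ι τ1 '' opE a.Δ 0 \ C := ⟨hx.2, disjoint_left.1 w4 hx.1⟩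
      have hy' : y ∈ a.ι τ2 '' opE a.Δ 0 \ C := ⟨hy.2, disjoint_left.1 w4 hy.1⟩
      exact ⟨(t ∪ W) ∪ (a.ι τ2 '' opE a.Δ 0 \ C),
        union_subset (union_subset t1 (subset_sUnion_of_mem ⟨w1, w2, w3, w4, τ1, x, hx.1, hx'⟩))
          (h4 τ2),
        .union y (Or.inr hy.1) hy' (.union x (t4 hx') hx.1 t2 w2) (h3 τ2),
        t3.trans (subset_union_left.trans subset_union_left), subset_union_right⟩
  refine ⟨⋃₀ 𝒮, openSub_of_local fun x ⟨S, hS, hx⟩ => ⟨S, hx, subset_sUnion_of_mem hS, hS.1⟩,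
    isPreconnected_of_forall_pair fun x ⟨S, hS, hx⟩ y ⟨S', hS', hy⟩ => ?_,
    sUnion_subset fun S hS => hS.2.2.1, disjoint_sUnion_left.2 fun S hS => hS.2.2.2.1, h4⟩
  obtain ⟨τ, u, hu⟩ := hS.2.2.2.2
  obtain ⟨τ', v, hv⟩ := hS'.2.2.2.2
  obtain ⟨t, t1, t2, t3, t4⟩ := h5 τ τ'
  exact ⟨(S ∪ t) ∪ S', union_subset (union_subset (subset_sUnion_of_mem hS) t1)
    (subset_sUnion_of_mem hS'), Or.inl (Or.inl hx), Or.inr hy,
    .union v (Or.inr (t4 hv.2)) hv.1 (.union u hu.1 (t3 hu.2) hS.2.1 t2) hS'.2.1⟩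

theorem init (a : Amb m E) (hne : ∀ τ, Pq (a.B τ) ≠ 0) {μ ε : ℝ} {P : Pot E} (hP : P.PLOn a.M)
    (h1 : ∀ τ, 0 < Pq (a.B τ) → ∀ᶠ z in gen (WW m), z ∈ opE a.Δ 0 → fm a P τ z = a.B τ)
    (h2 : ∀ τ, Pq (a.B τ) < 0 →
      (∀ᶠ z in gen (WW m), z ∈ opE a.Δ (inn m) → fm a P τ z = (2 * μ) ^ 2 • a.B τ) ∧
      a.ι τ '' (opE a.Δ 0 \ clE a.Δ (inn m)) ⊆ Dar a P)
    {J : Type} [Finite J] {job : J → Job a} (hs : Static job ε)
    (h3 : ∀ j, Pq (a.B (job j).τ) < 0 ∧ (job j).b = (2 * μ) ^ 2 • a.B (job j).τ ∧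
      (job j).b' = a.B (job j).τ' ∧ clE (job j).σ 0 ⊆ clE a.Δ (inn m))
    (h4 : ∀ τ, Pq (a.B τ) < 0 → ∀ z ∈ clE a.Δ (inn m), ∃ j, (job j).τ = τ ∧ z ∈ clE (job j).σ 0) :
    ∃ D, Inv job ε P univ D ∧
      ∀ τ, Pq (a.B τ) < 0 → a.ι τ '' (opE a.Δ 0 \ clE a.Δ (inn m)) ⊆ D := by
  have hε := hs.pos
  have hε2 : ε < 2 * ε := by linarith
  have hpos : ∀ j, 0 < Pq (a.B (job j).τ') := fun j => (h3 j).2.2.1 ▸ hs.posb j
  have hZ : ∀ j, (job j).Z '' clE (job j).σ ε ⊆ opE a.Δ 0 := fun j =>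
    (image_mono (clE_mono _ hε2.le)).trans (hs.subZ j)
  have hZo : ∀ j, (job j).Z '' opE (job j).σ (2 * ε) ⊆ opE a.Δ 0 := fun j =>
    (image_mono (opE_sub_clE _ _)).trans (hs.subZ j)
  have hKK : ∀ j, (job j).K ε ⊆ (job j).Ko (2 * ε) := fun j =>
    image_mono (image_mono (clE_sub_opE _ hε2))
  have hcell : ∀ τ, ∀ z ∈ opE a.Δ 0, ∀ j, a.ι τ z ∈ (job j).cell →
      τ = (job j).τ ∧ z ∈ clE (job j).σ 0 := fun τ z hz j ⟨w, hw, e⟩ => by
    obtain ⟨e1, e2⟩ := iota_eq hz (opE_sub_clE _ _ (hs.sub j hw)) e.symm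
    exact ⟨e1, e2 ▸ hw⟩
  have hK : ∀ τ, ∀ z ∈ opE a.Δ 0, ∀ j, a.ι τ z ∈ (job j).K ε →
      τ = (job j).τ' ∧ z ∈ (job j).Z '' clE (job j).σ ε := fun τ z hz j ⟨w, hw, e⟩ => by
    obtain ⟨e1, e2⟩ := iota_eq hz (opE_sub_clE _ _ (hZ j hw)) e.symm
    exact ⟨e1, e2 ▸ hw⟩
  have hin : ∀ τ, Pq (a.B τ) < 0 → ∀ z ∈ clE a.Δ (inn m), ∃ j, a.ι τ z ∈ (job j).cell :=
    fun τ hτ z hz => by
      obtain ⟨j, rfl, hj⟩ := h4 τ hτ z hz
      exact ⟨j, mem_image_of_mem _ hj⟩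
  have hdar : ∀ τ, ∀ z ∈ opE a.Δ 0, (∀ j, a.ι τ z ∉ (job j).cell) → a.ι τ z ∈ Dar a P :=
    fun τ z hz hc => by
      rcases lt_or_gt_of_ne (hne τ) with hτ | hτ
      · refine (h2 τ hτ).2 (mem_image_of_mem _ ⟨hz, fun k => ?_⟩)
        obtain ⟨j, hj⟩ := hin τ hτ z k
        exact hc j hj
      · exact dar_const hP τ (isOpen_opE _ _) Subset.rfl (a.skew τ) hτ (h1 τ hτ)
          (mem_image_of_mem _ hz)
  obtain ⟨C, hCd⟩ : ∃ C : Set E, C = (⋃ j, (job j).cell) ∪ ⋃ j, (job j).K ε := ⟨_, rfl⟩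
  have hm : ∀ x, x ∈ C ↔ (∃ j, x ∈ (job j).cell) ∨ ∃ j, x ∈ (job j).K ε := fun x => by
    rw [hCd, mem_union, mem_iUnion, mem_iUnion]
  have hC : IsClosed C := hCd ▸ (isClosed_iUnion_of_finite fun j =>
      ((isCompact_clE _ _).image (a.ι _).continuous).isClosed).union
    (isClosed_iUnion_of_finite fun j => (((isCompact_clE _ _).image (job j).Z.continuous).image
      (a.ι _).continuous).isClosed)
  have hneg : ∀ τ, Pq (a.B τ) < 0 →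
      a.ι τ '' (opE a.Δ 0 \ clE a.Δ (inn m)) = a.ι τ '' opE a.Δ 0 \ C := fun τ hτ => by
    refine Subset.antisymm ?_ ?_
    · rintro _ ⟨z, hz, rfl⟩
      refine ⟨mem_image_of_mem _ hz.1, fun hc => ?_⟩
      rcases (hm _).1 hc with ⟨j, hj⟩ | ⟨j, hj⟩
      · exact hz.2 ((h3 j).2.2.2 (hcell τ z hz.1 j hj).2)
      · exact hτ.not_gt ((hK τ z hz.1 j hj).1 ▸ hpos j)
    · rintro _ ⟨⟨z, hz, rfl⟩, hc⟩
      exact mem_image_of_mem _ ⟨hz, fun k => hc ((hm _).2 (Or.inl (hin τ hτ z k)))⟩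
  have hcon : ∀ τ, IsPreconnected (a.ι τ '' opE a.Δ 0 \ C) := fun τ => by
    rcases lt_or_gt_of_ne (hne τ) with hτ | hτ
    · rw [← hneg τ hτ]
      exact (ann_conn (by omega) a.Δ (inn_pos m).1).image _ (a.ι τ).continuous.continuousOn
    have hσ := fun j => Init_Z (job j).σ (Z := (job j).Z) fun e => (hs.negb j).ne (by
      rw [← hs.pbZ j, Pq_pb, e, zero_mul])
    choose σ' hσ using hσ
    have k := many_conn (κ := {j // (job j).τ' = τ}) (isOpen_opE a.Δ 0)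
      (convex_opE _ _).isPreconnected (K := fun j => (job j.1).Z '' clE (job j.1).σ ε)
      (O := fun j => (job j.1).Z '' opE (job j.1).σ (2 * ε))
      (fun j => (hσ j.1 ε).1 ▸ Sx_closed _ _) (fun j => (hσ j.1 _).2 ▸ isOpen_opE _ _)
      (fun j => image_mono (clE_sub_opE _ hε2)) (fun j => hZo j.1)
      (fun j => by
        rw [(hσ j.1 ε).1, (hσ j.1 _).2]
        exact ann_conn (by omega) _ (by positivity))
      fun i j hij => disjoint_left.2 fun z hi hj =>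
        disjoint_left.1 (hs.kk i.1 j.1 fun e => hij (Subtype.ext e)) (mem_image_of_mem _ hi)
          ⟨z, hj, by rw [i.2, j.2]⟩
    refine (Subset.antisymm ?_ ?_ : _ = a.ι τ '' opE a.Δ 0 \ C) ▸
      k.image _ (a.ι τ).continuous.continuousOn
    · rintro _ ⟨z, hz, rfl⟩
      refine ⟨mem_image_of_mem _ hz.1, fun hc => ?_⟩
      rcases (hm _).1 hc with ⟨j, hj⟩ | ⟨j, hj⟩
      · exact hτ.not_gt ((hcell τ z hz.1 j hj).1 ▸ (h3 j).1)
      · exact hz.2 (mem_iUnion.2 ⟨⟨j, (hK τ z hz.1 j hj).1.symm⟩, (hK τ z hz.1 j hj).2⟩)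
    · rintro _ ⟨⟨z, hz, rfl⟩, hc⟩
      refine mem_image_of_mem _ ⟨hz, fun k => ?_⟩
      obtain ⟨⟨j, rfl⟩, hj⟩ := mem_iUnion.1 k
      exact hc ((hm _).2 (Or.inr ⟨j, mem_image_of_mem _ hj⟩))
  obtain ⟨D, d1, d2, d3, d4, d5⟩ := Init_glue a hP hC (fun x hx => by
      rcases (hm _).1 hx with ⟨j, w, hw, e⟩ | ⟨j, w, hw, e⟩
      exacts [⟨_, w, hs.sub j hw, e⟩, ⟨_, w, hZ j hw, e⟩])
    (fun τ => by
      rintro _ ⟨⟨z, hz, rfl⟩, hc⟩
      exact hdar τ z hz fun j hj => hc ((hm _).2 (Or.inl ⟨j, hj⟩))) hcon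
  refine ⟨D, ⟨hP, fun τ => (good_dar hP τ).mono fun z c hz hx => c hz (hdar τ z hz fun j hj =>
      hx (mem_biUnion (mem_univ j) hj)), fun j _ => ?_, fun j _ => ⟨2 * ε, hε2, le_rfl, ?_, ?_⟩,
    d1, d2, d3, fun j _ => d4.mono_right fun x hx => (hm x).2 (Or.inl ⟨j, hx⟩),
    fun j _ => d4.mono_right fun x hx => (hm x).2 (Or.inr ⟨j, hx⟩)⟩,
    fun τ hτ => (hneg τ hτ).subset.trans (d5 τ)⟩
  · filter_upwards [(h2 _ (h3 j).1).1, gen_clE (by omega) a.Δ (inn m)] with z c1 c2 hz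
    rw [(h3 j).2.1]
    exact c1 (c2 ((h3 j).2.2.2 (opE_sub_clE _ _ hz)))
  · refine fun x hx => d5 (job j).τ' ⟨image_mono (hZo j) hx.1, fun hc => ?_⟩
    rcases (hm _).1 hc with ⟨i, hi⟩ | ⟨i, hi⟩
    · exact disjoint_left.1 (hs.ck i j) hi hx.1
    · by_cases e : i = j
      · exact hx.2 (e ▸ hi)
      · exact disjoint_left.1 (hs.kk i j e) (hKK i hi) hx.1
  · filter_upwards [h1 _ (hpos j)] with z c hz
    rw [(h3 j).2.2.1]
    exact c (hZo j hz)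

end Pool.Agent.Work.MP_bf98aa_gt.Pl
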