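import Pool.Agent.Work.MP_bf98aa_gt.Pl.Rho

/-!
The Kuhn cells. With y i = (x (pi i) - c (pi i)) / h the coordinates are 1 - y 0, y 0 - y 1, ..., y (N-1); mem_clE and mem_opE describe the cells by the monotonicity of the sequence 1, y 0, ..., y (N-1), 0 (kv). kuhn_ex: sx_of_coord with the vertices c + h (sum of e (pi i), i < j).
kuhn_dis: the integer parts agree, then y o pi is strictly antitone and y o pi' antitone, Tuple.unique_antitone and injectivity. kuhn_cover: n i = min (floor (k x i)) (k - 1) is antitone in i, y = k x - n has values in [0, 1]; pi = Tuple.sort (fun i => - y i) is stable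
(Tuple.eq_sort_iff or monotonicity of Tuple.graph: ties are ordered by the index); for x' in the cell and i < i+1 either n i > n (i+1), or n i = n (i+1), y i >= y (i+1), so i precedes i+1 in the order of pi. kuhn_big: c' (pi i) = c (pi i) - h eps (N - i).
vol_opE: opE sig eps is the image of opE sig 0 under the homothety with centre the centroid (MeasureTheory.Measure.addHaar_image_homothety), and clE sig 0 minus opE sig 0 lies in finitely many hyperplanes (addHaar_affineSubspace) or in the frontier (Convex.addHaar_frontier).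
-/

set_option autoImplicit false
set_option maxSynthPendingDepth 3
set_option linter.unusedSectionVars false
set_option linter.unusedVariables false

open Set Filter Topology Metric

noncomputable section
namespace Pool.Agent.Work.MP_bf98aa_gt.Pl

open Pool.Agent.Work.MP_bf98aa_gt.Ns

variable {N : ℕ} {h : ℝ} {c c' : Fin N → ℝ} {π π' : Equiv.Perm (Fin N)}
  {σ σ' : Sx (Fin N → ℝ) N}

def cube (c : Fin N → ℝ) (h : ℝ) : Set (Fin N → ℝ) := {x | ∀ i, c i ≤ x i ∧ x i ≤ c i + h}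

def cubeO (c : Fin N → ℝ) (h : ℝ) : Set (Fin N → ℝ) := {x | ∀ i, c i < x i ∧ x i < c i + h}

/-- The lattice point. -/
def lat (h : ℝ) (n : Fin N → ℤ) : Fin N → ℝ := fun i => h * n i

/-- The sequence `1, y 0, …, y (N - 1), 0`. -/
def kv (h : ℝ) (c : Fin N → ℝ) (π : Equiv.Perm (Fin N)) (x : Fin N → ℝ) (k : ℕ) : ℝ :=
  if k = 0 then 1 else if hk : k - 1 < N then (x (π ⟨k - 1, hk⟩) - c (π ⟨k - 1, hk⟩)) / h else 0

/-- The simplex is the cell of type `π` of the cube with corner `c` and side `h`. -/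
def IsK (h : ℝ) (c : Fin N → ℝ) (π : Equiv.Perm (Fin N)) (σ : Sx (Fin N → ℝ) N) : Prop :=
  ∀ (j : Fin (N + 1)) x, σ.coord j x = kv h c π x j.1 - kv h c π x (j.1 + 1)

theorem Kuhn_0 (x : Fin N → ℝ) : kv h c π x 0 = 1 := if_pos rfl

theorem Kuhn_s (x : Fin N → ℝ) (i : Fin N) :
    kv h c π x (i.1 + 1) = (x (π i) - c (π i)) / h := by
  simp [kv]

theorem Kuhn_n (x : Fin N → ℝ) {k : ℕ} (hk : N < k) : kv h c π x k = 0 := by
  rw [kv, if_neg (by omega), dif_neg (by omega)]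

theorem Kuhn_cases {P : ℕ → Prop} (h0 : P 0) (h1 : ∀ i : Fin N, P (i.1 + 1))
    (h2 : ∀ k, N < k → P k) (k : ℕ) : P k := by
  rcases k with _ | k
  · exact h0
  · by_cases hk : k < N
    · exact h1 ⟨k, hk⟩
    · exact h2 _ (by omega)

theorem Kuhn_aff (k : ℕ) : ∃ A : (Fin N → ℝ) →ᵃ[ℝ] ℝ, ∀ x, A x = kv h c π x k := by
  refine Kuhn_cases (N := N) (P := fun k => ∃ A : (Fin N → ℝ) →ᵃ[ℝ] ℝ, ∀ x, A x = kv h c π x k)
    ⟨AffineMap.const ℝ _ 1, fun x => (Kuhn_0 x).symm⟩ (fun i => ?_)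
    (fun k hk => ⟨AffineMap.const ℝ _ 0, fun x => (Kuhn_n x hk).symm⟩) k
  refine ⟨h⁻¹ • ((LinearMap.proj (π i) : (Fin N → ℝ) →ₗ[ℝ] ℝ).toAffineMap -
    AffineMap.const ℝ _ (c (π i))), fun x => ?_⟩
  rw [Kuhn_s, div_eq_inv_mul]
  rfl

theorem Kuhn_tel (f : ℕ → ℝ) : ∑ i : Fin (N + 1), (f i.1 - f (i.1 + 1)) = f 0 - f (N + 1) := by
  rw [Fin.sum_univ_eq_sum_range (fun i => f i - f (i + 1)), Finset.sum_range_sub']

theorem Kuhn_cl (H : IsK h c π σ) (x : Fin N → ℝ) : x ∈ clE σ 0 ↔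
    (∀ i, 0 ≤ (x (π i) - c (π i)) / h ∧ (x (π i) - c (π i)) / h ≤ 1) ∧
      Antitone fun i => (x (π i) - c (π i)) / h := by
  constructor
  · intro hx
    have a : Antitone (kv h c π x) := antitone_nat_of_succ_le fun k => by
      by_cases hk : k < N + 1
      · have := hx ⟨k, hk⟩
        rw [H] at this
        linarith
      · rw [Kuhn_n x (by omega), Kuhn_n x (by omega)]
    refine ⟨fun i => ?_, fun i j hij => ?_⟩
    · rw [← Kuhn_s]
      exact ⟨Kuhn_n (h := h) (c := c) (π := π) x N.lt_succ_self ▸ a (by omega),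
        Kuhn_0 (h := h) (c := c) (π := π) x ▸ a (by omega)⟩
    · simp only [← Kuhn_s]
      exact a (Nat.succ_le_succ hij)
  · rintro ⟨h1, h2⟩ ⟨j, hj⟩
    rw [H, neg_zero, sub_nonneg]
    by_cases h3 : j < N
    · rw [Kuhn_s x ⟨j, h3⟩]
      rcases j with _ | j
      · exact (h1 _).2
      · rw [Kuhn_s x ⟨j, by omega⟩]
        exact h2 (Nat.le_succ j)
    · rw [Kuhn_n x (k := j + 1) (by omega)]
      rcases j with _ | j
      · exact zero_le_one
      · rw [Kuhn_s x ⟨j, by omega⟩]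
        exact (h1 _).1

theorem Kuhn_op (H : IsK h c π σ) {x : Fin N → ℝ} (hx : x ∈ opE σ 0) :
    (∀ i, 0 < (x (π i) - c (π i)) / h ∧ (x (π i) - c (π i)) / h < 1) ∧
      StrictAnti fun i => (x (π i) - c (π i)) / h := by
  have a : ∀ k l, k < l → l ≤ N + 1 → kv h c π x l < kv h c π x k := by
    intro k l hl
    induction l, hl using Nat.le_induction with
    | base =>
      intro hk
      have := hx ⟨k, hk⟩
      rw [H] at this
      linarith
    | succ l hl ih =>
      intro hk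
      have := hx ⟨l, hk⟩
      rw [H] at this
      have := ih (by omega)
      linarith
  refine ⟨fun i => ?_, fun i j hij => ?_⟩
  · rw [← Kuhn_s]
    exact ⟨Kuhn_n (h := h) (c := c) (π := π) x N.lt_succ_self ▸ a _ _ (by omega) le_rfl,
      Kuhn_0 (h := h) (c := c) (π := π) x ▸ a _ _ (by omega) (by omega)⟩
  · simp only [← Kuhn_s]
    exact a _ _ (Nat.succ_lt_succ hij) (by omega)

theorem kuhn_ex (hh : 0 < h) (c : Fin N → ℝ) (π : Equiv.Perm (Fin N)) :
    ∃ σ : Sx (Fin N → ℝ) N, IsK h c π σ := by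
  choose A hA using Kuhn_aff (h := h) (c := c) (π := π)
  have hp : ∀ (j : Fin (N + 1)) k,
      kv h c π (fun l => c l + h * if (π.symm l).1 < j.1 then 1 else 0) k =
        if k ≤ j.1 then 1 else 0 := fun j => by
    refine Kuhn_cases (N := N) (by simp [Kuhn_0]) (fun i => ?_) fun k hk => ?_
    · rw [Kuhn_s, add_sub_cancel_left, mul_div_cancel_left₀ _ hh.ne', Equiv.symm_apply_apply]
      rfl
    · rw [Kuhn_n _ hk, if_neg (by omega)]
  have h3 : ∀ y, ∑ i : Fin (N + 1), (kv h c π y i.1 - kv h c π y (i.1 + 1)) = 1 := fun y => by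
    rw [Kuhn_tel, Kuhn_0, Kuhn_n y N.lt_succ_self, sub_zero]
  refine (sx_of_coord (d := N)
    (fun j l => c l + h * if (π.symm l).1 < j.1 then 1 else 0) (fun j => A j.1 - A (j.1 + 1))
    (fun i j => ?_) (fun y => ?_) fun y => ?_).imp fun σ hσ j x => by
      rw [hσ.2, AffineMap.coe_sub, Pi.sub_apply, hA, hA]
  · rw [AffineMap.coe_sub, Pi.sub_apply, hA, hA, hp, hp]
    simp only [Fin.ext_iff]
    split_ifs <;> first | omega | norm_num
  · funext l
    obtain ⟨m, rfl⟩ := π.surjective l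
    simp only [AffineMap.coe_sub, Pi.sub_apply, hA, Finset.sum_apply, Pi.smul_apply, smul_eq_mul,
      mul_add, Finset.sum_add_distrib, ← Finset.sum_mul, h3, Equiv.symm_apply_apply]
    have e : ∀ i : Fin (N + 1), (kv h c π y i.1 - kv h c π y (i.1 + 1)) *
        (h * if m.1 < i.1 then 1 else 0) =
        h * (kv h c π y (max i.1 (m.1 + 1)) - kv h c π y (max (i.1 + 1) (m.1 + 1))) := fun i => by
      split_ifs with hi
      · rw [max_eq_left (by omega), max_eq_left (by omega)]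
        ring
      · rw [max_eq_right (by omega), max_eq_right (by omega)]
        ring
    simp only [e, ← Finset.mul_sum]
    rw [Kuhn_tel fun k => kv h c π y (max k (m.1 + 1)), max_eq_right (Nat.zero_le _),
      max_eq_left (by omega), Kuhn_s, Kuhn_n y N.lt_succ_self]
    field_simp
    ring
  · simp only [AffineMap.coe_sub, Pi.sub_apply, hA, h3]

theorem kuhn_cube (hh : 0 < h) (H : IsK h c π σ) :
    clE σ 0 ⊆ cube c h ∧ opE σ 0 ⊆ cubeO c h := by
  refine ⟨fun x hx l => ?_, fun x hx l => ?_⟩ <;> obtain ⟨i, rfl⟩ := π.surjective l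
  · obtain ⟨h1, h2⟩ := ((Kuhn_cl H x).1 hx).1 i
    rw [le_div_iff₀ hh] at h1
    rw [div_le_iff₀ hh] at h2
    constructor <;> linarith
  · obtain ⟨h1, h2⟩ := (Kuhn_op H hx).1 i
    rw [lt_div_iff₀ hh] at h1
    rw [div_lt_iff₀ hh] at h2
    constructor <;> linarith

theorem kuhn_dis0 (hh : 0 < h) (H : IsK h c π σ) (H' : IsK h c π' σ') (hne : π ≠ π') :
    Disjoint (opE σ 0) (clE σ' 0) := by
  refine disjoint_left.2 fun x h1 h2 => hne ?_
  have a := (Kuhn_op H h1).2
  have e := Tuple.unique_antitone (f := fun l => (x l - c l) / h) (σ := π) (τ := π')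
    a.antitone ((Kuhn_cl H' x).1 h2).2
  have i : Function.Injective fun l => (x l - c l) / h :=
    Function.Injective.of_comp_right (g := π) a.injective π.surjective
  exact Equiv.ext fun l => i (congrFun e l)

theorem kuhn_dis (hh : 0 < h) {n n' : Fin N → ℤ} (H : IsK h (lat h n) π σ)
    (H' : IsK h (lat h n') π' σ') (hne : (n, π) ≠ (n', π')) : Disjoint (opE σ 0) (clE σ' 0) := by
  by_cases e : n = n'
  · subst e
    exact kuhn_dis0 hh H H' fun e => hne (by rw [e])
  · refine disjoint_left.2 fun x h1 h2 => e (funext fun i => ?_)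
    obtain ⟨a1, a2⟩ := (kuhn_cube hh H).2 h1 i
    obtain ⟨a3, a4⟩ := (kuhn_cube hh H').1 h2 i
    simp only [lat] at a1 a2 a3 a4
    have b1 : (n i : ℝ) < n' i + 1 := lt_of_mul_lt_mul_left (by linarith) hh.le
    have b2 : (n' i : ℝ) < n i + 1 := lt_of_mul_lt_mul_left (by linarith) hh.le
    have c1 : n i < n' i + 1 := by exact_mod_cast b1
    have c2 : n' i < n i + 1 := by exact_mod_cast b2
    omega

theorem kuhn_cover {σ0 : Sx (Fin N → ℝ) N} (H0 : IsK 1 0 1 σ0) {k : ℕ} (hk : 0 < k)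
    {x : Fin N → ℝ} (hx : x ∈ clE σ0 0) : ∃ (n : Fin N → ℤ) (π : Equiv.Perm (Fin N)),
      ∀ σ, IsK (1 / k) (lat (1 / k) n) π σ → x ∈ clE σ 0 ∧ clE σ 0 ⊆ clE σ0 0 := by
  have K : ∀ z, z ∈ clE σ0 0 ↔ (∀ i, 0 ≤ z i ∧ z i ≤ 1) ∧ Antitone z := fun z => by
    simpa using Kuhn_cl H0 z
  have hk' : (0 : ℝ) < k := Nat.cast_pos.2 hk
  obtain ⟨x1, x2⟩ := (K x).1 hx
  obtain ⟨n, n0, n1, n2, n3⟩ : ∃ n : Fin N → ℤ, (∀ i, (0 : ℝ) ≤ n i) ∧ (∀ i, (n i : ℝ) + 1 ≤ k) ∧
      Antitone n ∧ ∀ i, 0 ≤ k * x i - n i ∧ k * x i - n i ≤ 1 := by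
    refine ⟨fun i => min ⌊k * x i⌋ (k - 1), fun i => ?_, fun i => ?_, fun i j hij => ?_,
      fun i => ?_⟩
    · exact Int.cast_nonneg (le_min (Int.floor_nonneg.2 (mul_nonneg hk'.le (x1 i).1)) (by omega))
    · have : ((min ⌊k * x i⌋ (k - 1) : ℤ) : ℝ) ≤ ((k - 1 : ℤ) : ℝ) :=
        Int.cast_le.2 (min_le_right _ _)
      push_cast at this ⊢
      linarith
    · exact min_le_min_right _ (Int.floor_mono (mul_le_mul_of_nonneg_left (x2 hij) hk'.le))
    · have a1 := Int.floor_le (k * x i)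
      have a2 := Int.lt_floor_add_one (k * x i)
      have a3 := mul_le_mul_of_nonneg_left (x1 i).2 hk'.le
      push_cast
      rw [sub_nonneg, sub_le_comm, le_min_iff]
      exact ⟨(min_le_left _ _).trans a1, by linarith, by linarith⟩
  obtain ⟨π, p1, p2⟩ : ∃ π : Equiv.Perm (Fin N), Monotone (fun i => -(k * x (π i) - n (π i))) ∧
      ∀ i j, i < j → -(k * x (π i) - n (π i)) = -(k * x (π j) - n (π j)) → π i < π j :=
    ⟨_, (Tuple.eq_sort_iff (f := fun i => -(k * x i - n i))).1 rfl⟩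
  refine ⟨n, π, fun σ H => ?_⟩
  have K' : ∀ z, z ∈ clE σ 0 ↔ (∀ i, 0 ≤ k * z (π i) - n (π i) ∧ k * z (π i) - n (π i) ≤ 1) ∧
      Antitone fun i => k * z (π i) - n (π i) := fun z => by
    have e : ∀ l, (z l - lat (1 / k) n l) / (1 / k) = k * z l - n l := fun l => by
      simp only [lat]
      field_simp
    simpa only [e] using Kuhn_cl H z
  refine ⟨(K' x).2 ⟨fun i => n3 _, fun i j hij => neg_le_neg_iff.1 (p1 hij)⟩, fun z hz => ?_⟩
  obtain ⟨z1, z2⟩ := (K' z).1 hz
  refine (K z).2 ⟨fun l => ?_, fun a b hab => le_of_mul_le_mul_left ?_ hk'⟩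
  · obtain ⟨i, rfl⟩ := π.surjective l
    obtain ⟨a1, a2⟩ := z1 i
    exact ⟨le_of_mul_le_mul_left (by linarith [n0 (π i)]) hk',
      le_of_mul_le_mul_left (by linarith [n1 (π i)]) hk'⟩
  · obtain ⟨i, rfl⟩ := π.surjective a
    obtain ⟨j, rfl⟩ := π.surjective b
    rcases (n2 hab).eq_or_lt with e | e
    · have hij : i ≤ j := by
        by_contra hij
        have a1 := p1 (not_le.1 hij).le
        have a2 := mul_le_mul_of_nonneg_left (x2 hab) hk'.le
        simp only [e] at a1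
        exact absurd hab (not_le.2 (p2 j i (not_le.1 hij) (by rw [e]; linarith)))
      have := z2 hij
      simp only [e] at this
      linarith
    · have : (n (π j) : ℝ) + 1 ≤ n (π i) := by exact_mod_cast e
      linarith [(z1 i).1, (z1 j).2]

/-- The enlarged cell is a translate of the cell of the enlarged cube. -/
theorem kuhn_big (hh : 0 < h) {ε : ℝ} (hε : 0 ≤ ε) (H : IsK h c π σ)
    (H' : IsK ((1 + ((N : ℝ) + 1) * ε) * h) c' π σ') : ∃ t : Fin N → ℝ, ∀ x,
      (x ∈ clE σ ε ↔ x + t ∈ clE σ' 0) ∧ (x ∈ opE σ ε ↔ x + t ∈ opE σ' 0) := by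
  have hl : 0 < 1 + ((N : ℝ) + 1) * ε := by positivity
  refine ⟨fun l => c' l - c l + h * ε * (N - (π.symm l).1), fun x => ?_⟩
  have e1 : ∀ k, k ≤ N + 1 → kv ((1 + ((N : ℝ) + 1) * ε) * h) c' π
      (x + fun l => c' l - c l + h * ε * (N - (π.symm l).1)) k =
      (kv h c π x k + ε * (N + 1 - k)) / (1 + ((N : ℝ) + 1) * ε) := by
    refine Kuhn_cases (N := N) (fun _ => ?_) (fun i _ => ?_) fun k hk hk' => ?_
    · rw [Kuhn_0, Kuhn_0, eq_div_iff hl.ne']
      push_cast
      ring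
    · rw [Kuhn_s, Kuhn_s, Pi.add_apply, Equiv.symm_apply_apply]
      push_cast
      field_simp
      ring
    · rw [Kuhn_n _ hk, Kuhn_n _ hk, show k = N + 1 by omega]
      simp
  have e2 : ∀ j, σ'.coord j (x + fun l => c' l - c l + h * ε * (N - (π.symm l).1)) =
      (σ.coord j x + ε) / (1 + ((N : ℝ) + 1) * ε) := fun j => by
    rw [H', H, e1 _ (by omega), e1 _ (by omega), ← sub_div]
    push_cast
    ring
  refine ⟨forall_congr' fun j => ?_, forall_congr' fun j => ?_⟩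
  · rw [e2, le_div_iff₀ hl, neg_zero, zero_mul, neg_le_iff_add_nonneg]
  · rw [e2, lt_div_iff₀ hl, neg_zero, zero_mul, neg_lt_iff_pos_add]

theorem Kuhn_hom {Y : Type} [NormedAddCommGroup Y] [NormedSpace ℝ Y] {d : ℕ} (σ : Sx Y d) {ε : ℝ}
    (hε : 0 < 1 + ((d : ℝ) + 1) * ε) : ∃ z : Y,
      Function.Bijective (AffineMap.homothety z (1 + ((d : ℝ) + 1) * ε)) ∧
      ∀ i x, σ.coord i (AffineMap.homothety z (1 + ((d : ℝ) + 1) * ε) x) =
        (1 + ((d : ℝ) + 1) * ε) * σ.coord i x - ε := by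
  refine ⟨Finset.univ.centroid ℝ σ, Function.bijective_iff_has_inverse.2
    ⟨AffineMap.homothety (Finset.univ.centroid ℝ σ) (1 + ((d : ℝ) + 1) * ε)⁻¹, fun x => ?_,
      fun x => ?_⟩, fun i x => ?_⟩
  · rw [← AffineMap.homothety_mul_apply, inv_mul_cancel₀ hε.ne', AffineMap.homothety_one]
    rfl
  · rw [← AffineMap.homothety_mul_apply, mul_inv_cancel₀ hε.ne', AffineMap.homothety_one]
    rfl
  · rw [AffineMap.homothety_eq_lineMap, AffineMap.apply_lineMap, AffineMap.lineMap_apply_ring,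
      σ.coord_apply_centroid (Finset.mem_univ i), Finset.card_fin]
    push_cast
    field_simp
    ring

theorem vol_opE (σ : Sx (Fin N → ℝ) N) {ε : ℝ} (hε : 0 ≤ ε) :
    MeasureTheory.volume.real (opE σ ε) =
      (1 + ((N : ℝ) + 1) * ε) ^ N * MeasureTheory.volume.real (clE σ 0) := by
  have hl : 0 < 1 + ((N : ℝ) + 1) * ε := by positivity
  obtain ⟨z, hb, hz⟩ := Kuhn_hom σ hl
  have e : opE σ ε = AffineMap.homothety z (1 + ((N : ℝ) + 1) * ε) '' opE σ 0 := by
    ext y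
    obtain ⟨x, rfl⟩ := hb.2 y
    rw [hb.1.mem_set_image]
    refine forall_congr' fun i => ?_
    rw [hz, neg_zero, lt_sub_iff_add_lt, neg_add_cancel, mul_pos_iff_of_pos_left hl]
  rw [← closure_opE σ (ε := 0) (by simp), MeasureTheory.Measure.real, MeasureTheory.Measure.real,
    measure_closure_of_null_frontier ((convex_opE σ 0).addHaar_frontier _), e,
    MeasureTheory.Measure.addHaar_image_homothety, ENNReal.toReal_mul,
    ENNReal.toReal_ofReal (abs_nonneg _), abs_of_pos (pow_pos hl _), Module.finrank_fin_fun]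

theorem vol_pos (σ : Sx (Fin N → ℝ) N) : 0 < MeasureTheory.volume.real (clE σ 0) := by
  refine ENNReal.toReal_pos (ne_of_gt ?_) (isCompact_clE σ 0).measure_lt_top.ne
  exact ((isOpen_opE σ 0).measure_pos _ (opE_nonempty σ (by simp))).trans_le
    (MeasureTheory.measure_mono (opE_sub_clE σ 0))

theorem sx_resize {Y : Type} [NormedAddCommGroup Y] [NormedSpace ℝ Y] [FiniteDimensional ℝ Y]
    {d : ℕ} (σ : Sx Y d) {ε : ℝ} (hε : 0 < 1 + ((d : ℝ) + 1) * ε) : ∃ σ' : Sx Y d,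
      ∀ i y, σ'.coord i y = (σ.coord i y + ε) / (1 + ((d : ℝ) + 1) * ε) := by
  obtain ⟨z, hb, hz⟩ := Kuhn_hom σ hε
  obtain ⟨σ', -, h⟩ := sx_map σ ⟨AffineMap.homothety z (1 + ((d : ℝ) + 1) * ε),
    AffineMap.continuous_of_finiteDimensional _⟩ hb
  refine ⟨σ', fun i y => ?_⟩
  obtain ⟨x, rfl⟩ := hb.2 y
  rw [hz, sub_add_cancel, mul_div_cancel_left₀ _ hε.ne']
  exact h i x

end Pool.Agent.Work.MP_bf98aa_gt.Pl
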