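import Pool.Agent.Work.MP_bf98aa_gt.Pl.ProfC
import Pool.Agent.Work.MP_bf98aa_gt.Pl.Conn
import Pool.Agent.Work.MP_bf98aa_gt.Pl.Lin

/-!
The sets of the model, first part. ki preserves the last coordinate (KapOK.snd), acts as kf for 0 <= s <= L (act), and either fixes v or both v and ki v have small gauge and -1/4 < s < L + 1/4 (off); all inclusions follow by cases on off and on
the three pieces of the profile. Compactness: preimage under ki = image under ki' (IsPLH.symm, image_eq) of isCompact_rot. Openness: rho >= 0, so the first condition of profO and targO is void. negl: gen_prof, gen_pr, IsPLH.gen_pull.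
-/

set_option autoImplicit false
set_option maxSynthPendingDepth 3
set_option linter.unusedSectionVars false
set_option linter.unusedVariables false

open Set Filter Topology Metric

noncomputable section
namespace Pool.Agent.Work.MP_bf98aa_gt.Pl

open Pool.Agent.Work.MP_bf98aa_gt.Ns

namespace MD

variable {m : ℕ} (D : MD m)

theorem pL : 0 < D.L := D.pδ'.trans D.lδ'

theorem M1_mem (S : Set (ℝ × ℝ)) (v : WW m) :
    v ∈ D.ki ⁻¹' rot D.q S ↔ (rho D.q (D.ki v).1, v.2) ∈ S := by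
  rw [← D.hi.snd v]
  rfl

theorem M1_off (v : WW m) : rho D.q (D.ki v).1 = rho D.q v.1 ∨
    (rho D.q v.1 < 1 / 4 ∧ rho D.q (D.ki v).1 < 1 / 2 ∧ -(1 / 4) < v.2 ∧ v.2 < D.L + 1 / 4) := by
  rcases D.hi.off v with h | ⟨h1, h2, h3, h4⟩
  · exact Or.inl (by rw [h])
  · exact Or.inr ⟨h1, h2, by linarith, h4⟩

theorem M1_sm {v : WW m} (h1 : 0 ≤ v.2) (h2 : v.2 ≤ D.L) (h : rho D.q (D.ki v).1 ≤ 2 * D.η) :
    ‖v.1‖ ≤ D.η0 := by
  rw [D.hi.act v h1 h2] at h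
  exact D.sm _ h

theorem M1_rot {S O : Set (ℝ × ℝ)} (hO : IsOpen O) (h : ∀ u, u ∈ S ↔ 0 ≤ u.1 ∧ u ∈ O) :
    IsOpen (rot D.q S) := by
  have e : rot D.q S = pr D.q ⁻¹' O := by
    ext v
    exact (h _).trans (and_iff_right (rho_nonneg D.hq _))
  rw [e]
  exact hO.preimage (pl_pr D.q).continuous

theorem M1_po (η L b c : ℝ) : IsOpen (rot D.q (profO η L b c)) := by
  refine D.M1_rot (O := {u | (u.2 < 0 ∧ u.1 - u.2 < 1) ∨
    (-(1 / 2) < u.2 ∧ u.2 < L + 1 / 2 ∧ u.1 < η) ∨ (b < u.2 ∧ u.1 + u.2 < c)}) ?_ fun _ => Iff.rfl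
  simp only [ofPred_or, ofPred_and]
  refine IsOpen.union (IsOpen.inter ?_ ?_)
    (IsOpen.union (IsOpen.inter ?_ (IsOpen.inter ?_ ?_)) (IsOpen.inter ?_ ?_)) <;>
    exact isOpen_lt (by fun_prop) (by fun_prop)

theorem M1_to (η δ : ℝ) : IsOpen {u : ℝ × ℝ | 0 < max (u.1 + u.2 - 1) (-u.2) ∧
    max (u.1 + u.2 - 1) (-u.2) < δ ∧ η < u.1 + max u.2 0} := by
  simp only [ofPred_and]
  refine IsOpen.inter ?_ (IsOpen.inter ?_ ?_) <;> exact isOpen_lt (by fun_prop) (by fun_prop)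

theorem M1_sub {η L b c : ℝ} (hη : η ≤ 1 / 2) (hb : b ≤ L) (hc : L + 1 ≤ c) :
    profO η L b c ⊆ prof η L b c := by
  rintro u ⟨h0, ⟨h1, h2⟩ | ⟨h1, h2, h3⟩ | ⟨h1, h2⟩⟩
  · exact ⟨h0, Or.inl ⟨h1.le, h2.le⟩⟩
  · rcases le_total u.2 0 with h | h
    · exact ⟨h0, Or.inl ⟨h, by linarith⟩⟩
    · rcases le_total u.2 L with h' | h'
      · exact ⟨h0, Or.inr (Or.inl ⟨h, h', h3.le⟩)⟩
      · exact ⟨h0, Or.inr (Or.inr ⟨by linarith, by linarith⟩)⟩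
  · exact ⟨h0, Or.inr (Or.inr ⟨h1.le, h2.le⟩)⟩

theorem pΛ : 0 < D.Λ := by
  linarith [D.hΛ, D.hγ.one]

theorem ki'_snd (v : WW m) : (D.ki' v).2 = v.2 := by
  rw [← D.hi.snd, D.hi.plh.right]

theorem ko'_snd (v : WW m) : (D.ko' v).2 = v.2 := by
  rw [← D.ho.snd, D.ho.plh.right]

theorem ko'_act (y : YY m) {s : ℝ} (h : -D.δ ≤ s) (h' : s ≤ 0) : D.ko' (y, s) = (D.kf' y, s) := by
  have e : D.ko (D.kf' y, s) = (y, s) :=
    Prod.ext ((D.ho.act (D.kf' y, s) h h').trans (D.plf.right y)) (D.ho.snd _)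
  rw [← e, D.ho.plh.left]

theorem cN : IsCompact D.N := by
  rw [N, ← D.hi.plh.symm.image_eq]
  exact (isCompact_rot D.hq (isCompact_prof _ _ _ _)).image D.hi.plh.pl'.continuous

theorem cNp : IsCompact D.Np := by
  rw [Np, ← D.hi.plh.symm.image_eq]
  exact (isCompact_rot D.hq (isCompact_prof _ _ _ _)).image D.hi.plh.pl'.continuous

theorem oN : IsOpen D.No := by
  exact (D.M1_po _ _ _ _).preimage D.hi.plh.pl.continuous

theorem oNp : IsOpen D.Npo := by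
  exact (D.M1_po _ _ _ _).preimage D.hi.plh.pl.continuous

theorem oA : IsOpen D.A := by
  have c : Continuous D.uu :=
    D.hγ.plh.pl.continuous.comp ((pl_pr D.q).continuous.comp D.hi.plh.pl.continuous)
  have e : D.A = D.No ∩ D.uu ⁻¹' {u : ℝ × ℝ | 0 < max (u.1 + u.2 - 1) (-u.2) ∧
      max (u.1 + u.2 - 1) (-u.2) < D.δ ∧ D.η < u.1 + max u.2 0} := by
    ext v
    constructor
    · intro h
      have h1 := D.hγ.bwd _ h
      rw [D.hγ.plh.left] at h1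
      exact ⟨h1, h.2⟩
    · rintro ⟨h1, h2⟩
      exact ⟨(D.hγ.mem _ (M1_sub (by linarith [D.lη]) le_rfl (by linarith [D.pδ]) h1)).1.1, h2⟩
  rw [e]
  exact D.oN.inter ((M1_to _ _).preimage c)

theorem oSb : IsOpen D.Sb := by
  exact (D.M1_rot (M1_to _ _) fun _ => Iff.rfl).preimage D.ho.plh.pl.continuous

theorem sN : D.No ⊆ D.N := by
  exact fun v h => M1_sub (by linarith [D.lη]) le_rfl (by linarith [D.pδ]) h

theorem sNp : D.Npo ⊆ D.Np := by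
  exact fun v h => M1_sub (by linarith [D.lη]) (by linarith [D.pδ'])
    (by linarith [D.pδ, D.pδ']) h

theorem sub : D.N ⊆ D.Np := by
  have := D.pη
  have := D.pδ'
  rintro v ⟨h0, h | ⟨h1, h2, h3⟩ | ⟨h1, h2⟩⟩
  · exact ⟨h0, Or.inl h⟩
  · exact ⟨h0, Or.inr (Or.inl ⟨h1, h2, by linarith⟩)⟩
  · exact ⟨h0, Or.inr (Or.inr ⟨by linarith, by linarith⟩)⟩

theorem subo : D.No ⊆ D.Npo := by
  have := D.pη
  have := D.pδ'
  rintro v ⟨h0, h | ⟨h1, h2, h3⟩ | ⟨h1, h2⟩⟩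
  · exact ⟨h0, Or.inl h⟩
  · exact ⟨h0, Or.inr (Or.inl ⟨h1, h2, by linarith⟩)⟩
  · exact ⟨h0, Or.inr (Or.inr ⟨by linarith, by linarith⟩)⟩

theorem sA : D.A ⊆ D.No := by
  intro v h
  have h1 := D.hγ.bwd _ h
  rw [D.hγ.plh.left] at h1
  exact h1

theorem negl : ∀ᶠ v in gen (WW m), v ∈ D.N → v ∈ D.No := by
  exact D.hi.plh.gen_pull (gen_pr (by omega) D.hq (gen_prof _ _ _ _))

theorem hul : D.Np ⊆ hull D.q D.δ D.δ' D.L D.η0 := by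
  intro v hv
  have := D.pδ
  have := D.pδ'
  obtain ⟨h0, ⟨h1, h2⟩ | ⟨h1, h2, h3⟩ | ⟨h1, h2⟩⟩ := (D.M1_mem _ v).1 hv
  · refine Or.inl (Or.inl ⟨h1, ?_⟩)
    rcases D.M1_off v with h | ⟨h, -, h', -⟩ <;> linarith
  · exact Or.inl (Or.inr ⟨D.M1_sm h1 h2 h3, h1, h2⟩)
  · refine Or.inr ⟨h1, ?_⟩
    rcases D.M1_off v with h | ⟨h, -, -, h'⟩ <;> linarith

theorem lo : coneLo D.q ⊆ D.N := by
  rintro v ⟨h1, h2⟩
  refine (D.M1_mem _ v).2 ⟨rho_nonneg D.hq _, Or.inl ⟨h1, ?_⟩⟩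
  rcases D.M1_off v with h | ⟨-, h, h', -⟩ <;> linarith

theorem lo' : opCone D.q ⊆ D.No := by
  rintro v ⟨h1, h2⟩
  refine (D.M1_mem _ v).2 ⟨rho_nonneg D.hq _, Or.inl ⟨h1, ?_⟩⟩
  rcases D.M1_off v with h | ⟨-, h, h', -⟩ <;> linarith

theorem hi' : coneHi D.q D.L (D.L + 1 + 2 * D.δ) ⊆ D.N := by
  rintro v ⟨h1, h2⟩
  have := D.pδ
  refine (D.M1_mem _ v).2 ⟨rho_nonneg D.hq _, Or.inr (Or.inr ⟨h1, ?_⟩)⟩
  rcases D.M1_off v with h | ⟨-, h, -, h'⟩ <;> linarith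

theorem lop : ∀ v ∈ D.Np, v.2 ≤ 0 → v ∈ coneLo D.q := by
  intro v hv hs
  have := D.lη
  have := D.lδ'
  refine ⟨hs, ?_⟩
  obtain ⟨h0, ⟨h1, h2⟩ | ⟨h1, h2, h3⟩ | ⟨h1, h2⟩⟩ := (D.M1_mem _ v).1 hv <;>
    rcases D.M1_off v with h | ⟨h, -, h', -⟩ <;> linarith

theorem loo : ∀ v ∈ D.Npo, v.2 ≤ 0 → v ∈ opCone D.q ∨ (v.2 = 0 ∧ ‖v.1‖ ≤ D.η0) := by
  intro v hv hs
  have := D.lη
  have := D.lδ'
  rcases hs.lt_or_eq with hs | hs
  · refine Or.inl ⟨hs, ?_⟩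
    obtain ⟨h0, ⟨h1, h2⟩ | ⟨h1, h2, h3⟩ | ⟨h1, h2⟩⟩ := (D.M1_mem _ v).1 hv <;>
      rcases D.M1_off v with h | ⟨h, -, h', -⟩ <;> linarith
  · obtain ⟨h0, ⟨h1, h2⟩ | ⟨h1, h2, h3⟩ | ⟨h1, h2⟩⟩ := (D.M1_mem _ v).1 hv
    · linarith
    · exact Or.inr ⟨hs, D.M1_sm hs.ge (by linarith [D.pL]) h3.le⟩
    · linarith

theorem up : ∀ v ∈ D.N, 0 < v.2 → v ∈ D.Npo := by
  intro v hv hs
  have := D.pη
  have := D.pδ'
  obtain ⟨h0, ⟨h1, h2⟩ | ⟨h1, h2, h3⟩ | ⟨h1, h2⟩⟩ := (D.M1_mem _ v).1 hv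
  · linarith
  · exact (D.M1_mem _ v).2 ⟨h0, Or.inr (Or.inl ⟨by linarith, by linarith, by linarith⟩)⟩
  · exact (D.M1_mem _ v).2 ⟨h0, Or.inr (Or.inr ⟨by linarith, by linarith⟩)⟩

theorem uu_mem {v : WW m} (h : v ∈ D.N) : D.uu v ∈ targ D.η D.δ := by
  exact (D.hγ.mem _ h).1

theorem pl_uu : PL D.uu := by
  exact D.hγ.plh.pl.comp ((pl_pr D.q).comp D.hi.plh.pl)

end MD

end Pool.Agent.Work.MP_bf98aa_gt.Pl
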