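import Pool.Agent.Work.MP_bf98aa_gt.Pl.M1

/-!
The sets of the model, second part. con, conA: images under ki' of rot_conn (conn_gap; the preimage of targO under gamma is the image under gamma' of targO, conn_targO, IsProf.bwd). chi v = X (pr q (ki v)) with
X (r, s) = max 0 (max (min ((2 eta - r)/eta) (2 (L + 1/2 - s))) (min ((s - (L - delta'))/delta') ((c + delta' - r - s)/delta'))), c = L + 1 + 2 delta.
near: v is in N and not in No (for s = 0 the gauge of kf v.1 is > 2 eta by sm; for s < 0 one has rho - s = 1 and ki v = v), so uu v = (r, -s) by IsProf.bd (e10 = 0, vb = 0 for s <= 0) and eta < r + max (-s) 0; this persists near v by continuity; lo', IsProf.fwd.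
top: take y generic (gen_rho, gen_exists) with 1/3 < rho y < 2/3, z = (y, c - rho y), l u = ell j u.1 + u.2 - c (ell_lin); near z, ki = id (off), s > L, rho > 2 eta; z is in N minus No, so uu z = (rho y, ..) and eta < (uu u).1 near z.
-/

set_option autoImplicit false
set_option maxSynthPendingDepth 3
set_option linter.unusedSectionVars false
set_option linter.unusedVariables false

open Set Filter Topology Metric

noncomputable section
namespace Pool.Agent.Work.MP_bf98aa_gt.Pl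

open Pool.Agent.Work.MP_bf98aa_gt.Ns

namespace MD

variable {m : ℕ} (D : MD m)

theorem M2_conn (hm : 1 ≤ m) {S : Set (ℝ × ℝ)} (hS : IsPreconnected S) (h0 : ∀ u ∈ S, 0 ≤ u.1) :
    IsPreconnected (D.ki ⁻¹' rot D.q S) := by
  rw [← D.hi.plh.symm.image_eq]
  exact (rot_conn (by omega) D.hq hS h0).image _ D.hi.plh.pl'.continuous.continuousOn

theorem M2_e10 {η L s : ℝ} (hη : 0 < η) (hL : 0 < L) (h : s ≤ 0 ∨ L ≤ s) : e10 η L s = 0 := by
  have hk : 0 ≤ 3 * η / (2 * L) := by positivity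
  refine max_eq_left ((min_le_right _ _).trans ?_)
  rcases h with h | h
  · exact (min_le_left _ _).trans (mul_nonpos_of_nonneg_of_nonpos hk h)
  · exact (min_le_right _ _).trans (mul_nonpos_of_nonneg_of_nonpos hk (sub_nonpos.2 h))

theorem M2_s0 {δ L s : ℝ} (hL : 0 < L) (h : s ≤ 0) : s0 δ L s = -s := by
  have h1 : 3 * s / L ≤ 0 := div_nonpos_of_nonpos_of_nonneg (by linarith) hL.le
  have h2 : max 0 (3 * s / L - 1) = 0 := max_eq_left (by linarith)
  have h3 : max (s - L) 0 = 0 := max_eq_right (by linarith)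
  have h4 : max (-s) 0 = -s := max_eq_left (by linarith)
  have h5 : min (1 : ℝ) 0 = 0 := min_eq_right zero_le_one
  unfold s0 vb
  rw [h2, h3, h4, h5]
  ring

/-- Near a boundary point off the tube, the open set is contained in `A`. -/
theorem M2_ev {v : WW m} (h : D.η < (D.uu v).1 + max (D.uu v).2 0) :
    ∀ᶠ u in 𝓝 v, u ∈ D.No → u ∈ D.A := by
  have hc : Continuous fun u => (D.uu u).1 + max (D.uu u).2 0 :=
    D.pl_uu.continuous.fst.add (D.pl_uu.continuous.snd.max continuous_const)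
  filter_upwards [hc.continuousAt.eventually (lt_mem_nhds h)] with u hu hN
  exact D.hγ.fwd _ hN hu

theorem M2_pr (v : WW m) : pr D.q (D.ki v) = (rho D.q (D.ki v).1, v.2) :=
  Prod.ext rfl (D.hi.snd v)

theorem con (hm : 1 ≤ m) : IsPreconnected ((D.Npo ∩ {v | 0 < v.2}) \ D.N) := by
  have e : (D.Npo ∩ {v | 0 < v.2}) \ D.N = D.ki ⁻¹' rot D.q
      ((profO (2 * D.η) D.L (D.L - D.δ') (D.L + 1 + 2 * D.δ + D.δ') ∩ {u | 0 < u.2}) \
        prof D.η D.L D.L (D.L + 1 + 2 * D.δ)) := by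
    ext v
    have : (pr D.q (D.ki v)).2 = v.2 := D.hi.snd v
    exact ⟨fun h => ⟨⟨h.1.1, lt_of_lt_of_eq h.1.2 this.symm⟩, h.2⟩,
      fun h => ⟨⟨h.1.1, lt_of_lt_of_eq h.1.2 this⟩, h.2⟩⟩
  rw [e]
  exact D.M2_conn hm (conn_gap D.pη D.lη D.pδ D.pδ' D.lδ') fun u hu => hu.1.1.1

theorem conA (hm : 1 ≤ m) : IsPreconnected D.A := by
  refine D.M2_conn hm ?_ fun u hu => ?_
  · rw [← D.hγ.plh.symm.image_eq]
    exact (conn_targO D.pη (D.lη.trans (by norm_num))).image _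
      D.hγ.plh.pl'.continuous.continuousOn
  · have := (D.hγ.bwd _ hu).1
    rwa [D.hγ.plh.left] at this

theorem chi : ∃ χ : WW m → ℝ, PL χ ∧ (∀ v, 0 ≤ χ v) ∧ (∀ v ∈ D.N, 0 < v.2 → 1 ≤ χ v) ∧
    ∀ v ∈ D.Np, 0 < v.2 → v ∉ D.Npo → χ v = 0 := by
  have pη := D.pη
  have pδ' := D.pδ'
  have hr : PL fun v : WW m => rho D.q (D.ki v).1 := (pl_rho D.q).comp D.hi.plh.pl.fst
  have hs : PL fun v : WW m => v.2 := plOn_snd _
  refine ⟨fun v => max 0 (max (min ((2 * D.η - rho D.q (D.ki v).1) / D.η)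
    (2 * (D.L + 1 / 2 - v.2))) (min ((v.2 - (D.L - D.δ')) / D.δ')
    ((D.L + 1 + 2 * D.δ + D.δ' - rho D.q (D.ki v).1 - v.2) / D.δ'))), ?_,
    fun v => le_max_left _ _, fun v hv h0 => ?_, fun v hv h0 h1 => ?_⟩
  · exact (plOn_const _ _).max (((((plOn_const _ _).sub hr).div_const _).min
      (((plOn_const _ _).sub hs).const_mul _)).max (((hs.sub (plOn_const _ _)).div_const _).min
      ((((plOn_const _ _).sub hr).sub hs).div_const _)))
  · have h : pr D.q (D.ki v) ∈ prof D.η D.L D.L (D.L + 1 + 2 * D.δ) := hv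
    rw [D.M2_pr] at h
    refine le_max_of_le_right ?_
    rcases h.2 with h | h | h
    · exact absurd h.1 (not_le.2 h0)
    · refine le_max_of_le_left (le_min ?_ ?_)
      · rw [le_div_iff₀ pη]
        linarith [h.2.2]
      · linarith [h.2.1]
    · refine le_max_of_le_right (le_min ?_ ?_) <;> rw [le_div_iff₀ pδ'] <;> linarith [h.1, h.2]
  · have h : pr D.q (D.ki v) ∉
      profO (2 * D.η) D.L (D.L - D.δ') (D.L + 1 + 2 * D.δ + D.δ') := h1
    rw [D.M2_pr] at h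
    have hn := rho_nonneg D.hq (D.ki v).1
    refine max_eq_left (max_le ?_ ?_)
    · by_contra hc
      rw [not_le, lt_min_iff, lt_div_iff₀ pη] at hc
      exact h ⟨hn, Or.inr (Or.inl ⟨by linarith, by linarith [hc.2], by linarith [hc.1]⟩)⟩
    · by_contra hc
      rw [not_le, lt_min_iff, lt_div_iff₀ pδ', lt_div_iff₀ pδ'] at hc
      exact h ⟨hn, Or.inr (Or.inr ⟨by linarith [hc.1], by linarith [hc.2]⟩)⟩

theorem near : ∀ v ∈ coneLo D.q, v ∉ opCone D.q → ¬(v.2 = 0 ∧ ‖v.1‖ ≤ D.η0) →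
    ∀ᶠ u in 𝓝 v, u ∈ opCone D.q → u ∈ D.A := by
  intro v h1 h2 h3
  have pη := D.pη
  have lη := D.lη
  have pL := D.pL
  have hp : v ∉ D.Npo := fun h => (D.loo v h h1.1).elim h2 h3
  have e : D.uu v = _ := D.hγ.bd _ (D.lo h1) fun h => hp (D.subo h)
  have h : pr D.q (D.ki v) ∉
    profO (2 * D.η) D.L (D.L - D.δ') (D.L + 1 + 2 * D.δ + D.δ') := hp
  rw [D.M2_pr] at h e
  have hn := rho_nonneg D.hq (D.ki v).1
  have hs : v.2 ≤ 0 := h1.1
  have key : D.η < (D.uu v).1 + max (D.uu v).2 0 := by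
    rw [e]
    show D.η < rho D.q (D.ki v).1 - e10 D.η D.L v.2 + max (s0 D.δ D.L v.2) 0
    rw [M2_e10 pη pL (Or.inl hs), M2_s0 pL hs, max_eq_left (neg_nonneg.2 hs)]
    by_contra hc
    rw [not_lt] at hc
    rcases hs.eq_or_lt with h0 | h0
    · exact h ⟨hn, Or.inr (Or.inl ⟨by linarith, by linarith, by linarith⟩)⟩
    · exact h ⟨hn, Or.inl ⟨h0, by linarith⟩⟩
  filter_upwards [D.M2_ev key] with u hu ho
  exact hu (D.lo' ho)

theorem top : ∃ (z : WW m) (r : ℝ) (l : WW m →ᴬ[ℝ] ℝ), 0 < r ∧ l.contLinear ≠ 0 ∧ l z = 0 ∧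
    ∀ u ∈ ball z r, u ∈ D.Npo ∧ 0 < u.2 ∧ (l u < 0 → u ∈ D.A) ∧ (0 < l u → u ∉ D.N) ∧
      (l u = 0 → u ∈ D.N ∧ u ∉ D.No) := by
  have pη := D.pη
  have lη := D.lη
  have pL := D.pL
  have pδ := D.pδ
  have pδ' := D.pδ'
  have hc := (pl_rho D.q).continuous
  have hne : {y : YY m | 1 / 3 < rho D.q y ∧ rho D.q y < 2 / 3}.Nonempty := by
    have h0 : rho D.q ((0, 1) : YY m) ≠ 0 := fun h =>
      one_ne_zero (congrArg Prod.snd (rho_eq_zero D.hq h))
    have h1 := (rho_nonneg D.hq ((0, 1) : YY m)).lt_of_ne' h0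
    have h2 : rho D.q ((1 / 2 / rho D.q ((0, 1) : YY m)) • ((0, 1) : YY m)) = 1 / 2 := by
      rw [rho_smul D.hq (by positivity), div_mul_cancel₀ _ h0]
    exact ⟨_, by rw [h2]; norm_num, by rw [h2]; norm_num⟩
  obtain ⟨y, ⟨y1, y2⟩, hy⟩ := gen_exists (gen_rho D.hq)
    ((isOpen_lt continuous_const hc).inter (isOpen_lt hc continuous_const)) hne
  replace y1 : 1 / 3 < rho D.q y := y1
  replace y2 : rho D.q y < 2 / 3 := y2
  obtain ⟨j, hj⟩ := hy.self_of_nhds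
  obtain ⟨l0, hl0⟩ := ell_lin D.hq j
  obtain ⟨l, hl⟩ : ∃ l : WW m →ᴬ[ℝ] ℝ, ∀ u, l u = l0 u.1 + u.2 - (D.L + 1 + 2 * D.δ) :=
    ⟨(l0.comp (ContinuousLinearMap.fst ℝ (YY m) ℝ) + cs m).toContinuousAffineMap -
      ContinuousAffineMap.const ℝ (WW m) (D.L + 1 + 2 * D.δ), fun u => rfl⟩
  have hki : ∀ u : WW m, 1 / 4 < rho D.q u.1 → pr D.q (D.ki u) = (rho D.q u.1, u.2) := by
    intro u hu
    rcases D.hi.off u with h | h
    · rw [h]; rfl
    · exact absurd h.1 (not_lt.2 hu.le)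
  have hbd : ∀ u : WW m, 1 / 4 < rho D.q u.1 → D.L < u.2 →
      rho D.q u.1 + u.2 = D.L + 1 + 2 * D.δ → u ∈ D.N ∧ u ∉ D.No := by
    intro u h1 h2 h3
    refine ⟨?_, fun h => ?_⟩
    · show pr D.q (D.ki u) ∈ prof D.η D.L D.L (D.L + 1 + 2 * D.δ)
      rw [hki u h1]
      exact ⟨rho_nonneg D.hq _, Or.inr (Or.inr ⟨h2.le, h3.le⟩)⟩
    · have h' : pr D.q (D.ki u) ∈ profO D.η D.L D.L (D.L + 1 + 2 * D.δ) := h
      rw [hki u h1] at h'
      rcases h'.2 with h | h | h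
      · linarith [h.1]
      · linarith [h.2.2]
      · linarith [h.2]
  obtain ⟨z, z1, z2⟩ : ∃ z : WW m, z.1 = y ∧ z.2 = D.L + 1 + 2 * D.δ - rho D.q y :=
    ⟨(y, _), rfl, rfl⟩
  have a1 : 1 / 4 < rho D.q z.1 := by rw [z1]; linarith
  have a2 : D.L < z.2 := by rw [z2]; linarith
  have a3 : rho D.q z.1 + z.2 = D.L + 1 + 2 * D.δ := by rw [z1, z2]; ring
  have key : D.η < (D.uu z).1 + max (D.uu z).2 0 := by
    have e : D.uu z = _ := D.hγ.bd _ (hbd z a1 a2 a3).1 (hbd z a1 a2 a3).2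
    rw [hki z a1] at e
    have : (D.uu z).1 = rho D.q z.1 - e10 D.η D.L z.2 := by rw [e]
    rw [this, M2_e10 pη pL (Or.inr a2.le)]
    linarith [le_max_right (D.uu z).2 0]
  have c1 : Continuous fun u : WW m => rho D.q u.1 := hc.comp continuous_fst
  have hj' : ∀ᶠ u : WW m in 𝓝 z, rho D.q u.1 = ell D.q j u.1 :=
    (continuous_fst.tendsto' z y z1).eventually hj
  have a4 : rho D.q z.1 + z.2 < D.L + 1 + 2 * D.δ + D.δ' := by linarith
  obtain ⟨r, hr, hb⟩ := Metric.eventually_nhds_iff_ball.1 ((D.M2_ev key).and (hj'.and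
    ((c1.continuousAt.eventually (lt_mem_nhds a1)).and
    ((continuous_snd.continuousAt.eventually (lt_mem_nhds a2)).and
    ((c1.add continuous_snd).continuousAt.eventually (gt_mem_nhds a4))))))
  refine ⟨z, r, l, hr, fun h => ?_, ?_, fun u hu => ?_⟩
  · have := aff_eq l (ax m 1)
    rw [h, hl, hl] at this
    simp [ax] at this
    linarith
  · rw [hl, ← hl0, ← hj'.self_of_nhds, a3, sub_self]
  obtain ⟨b0, b1, b2, b3, b4⟩ := hb u hu
  have hn := rho_nonneg D.hq u.1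
  have e : l u = rho D.q u.1 + u.2 - (D.L + 1 + 2 * D.δ) := by rw [hl, ← hl0, b1]
  have b3' : D.L < u.2 := b3
  refine ⟨?_, by linarith, fun h => b0 ?_, fun h h' => ?_, fun h => hbd u b2 b3 (by linarith)⟩
  · show pr D.q (D.ki u) ∈ profO (2 * D.η) D.L (D.L - D.δ') (D.L + 1 + 2 * D.δ + D.δ')
    rw [hki u b2]
    exact ⟨hn, Or.inr (Or.inr ⟨by linarith, b4⟩)⟩
  · show pr D.q (D.ki u) ∈ profO D.η D.L D.L (D.L + 1 + 2 * D.δ)
    rw [hki u b2]
    exact ⟨hn, Or.inr (Or.inr ⟨b3, by linarith⟩)⟩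
  · have h'' : pr D.q (D.ki u) ∈ prof D.η D.L D.L (D.L + 1 + 2 * D.δ) := h'
    rw [hki u b2] at h''
    rcases h''.2 with h | h | h
    · linarith [h.1]
    · linarith [h.2.1]
    · linarith [h.2]

end MD

end Pool.Agent.Work.MP_bf98aa_gt.Pl
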