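import Pool.Agent.Work.MP_bf98aa_gt.Pl.M1
import Pool.Agent.Work.MP_bf98aa_gt.Pl.LinB

/-!
The potentials: piecewise linearity, boundary values, the old form. bd_data: for v in N minus No put (r, s) = pr q (ki v); uu v = (r - e10 s, s0 s) by IsProf.bd. If 0 <= s <= L and r = eta (wall of the tube) then e1 = e10 s, -delta <= s0 s <= 0 and
max |ca| |cb| = 1 (on [0, L/3] cb = 1, on [L/3, 2L/3] ca = -1, on [2L/3, L] cb = -1); otherwise e10 s = 0 = e1. In all cases r2 = r, rd v = (ki v).1 by rad_self, and ko' ((ki v).1, s0 s) has first component v.1: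
for 0 <= s <= L by act and ko'_act; for s < 0 (r - s = 1) and s > L (r + s = c) both ki v = v and ko (v.1, s0 s) = (v.1, s0 s) by off.
old: for generic v in N, v is in No (open, there clamp t T = t) and s is none of 0, L/3, 2L/3, L, and ca, cb are locally affine functions of s. On each of the five intervals exactly one gee i is not constant near v, its derivative is cs (-cs for s < 0), and for
that i phi i = 1 near v, or else phi i = 0 near v: s < 0 and s > L: i = 0 (gee 1 is not constant for s > L but phi 1 = 0); (0, L/3): i = 2 (gee 3 has phi 3 = 0); (L/3, 2L/3): i = 1 (gee 0 has phi 0 = 0); (2L/3, L): i = 3 (gee 2 has phi 2 = 0).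
Use Filter.EventuallyEq.fderiv_eq, Fintype.sum_sum_type, Fin.sum_univ_four, wD_eq_sum.
-/

set_option autoImplicit false
set_option maxSynthPendingDepth 3
set_option linter.unusedSectionVars false
set_option linter.unusedVariables false

open Set Filter Topology Metric

noncomputable section
namespace Pool.Agent.Work.MP_bf98aa_gt.Pl

open Pool.Agent.Work.MP_bf98aa_gt.Ns

namespace MD

variable {m : ℕ} (D : MD m)

theorem M3_e1 {a : WW m → ℝ × ℝ} (ha : PL a) (η : ℝ) : PL fun v => e1 η (a v) :=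
  (((plOn_const _ _).sub ha.fst).sub (ha.snd.max (plOn_const _ _))).max (plOn_const _ _)

theorem M3_ca {a : WW m → ℝ} (ha : PL a) (η : ℝ) : PL fun v => ca η (a v) :=
  (plOn_const _ _).sub ((ha.const_mul 4).div_const η)

theorem M3_cb {a : WW m → ℝ} (ha : PL a) (δ : ℝ) : PL fun v => cb δ (a v) :=
  (((ha.const_mul 2).div_const δ).add (plOn_const _ _)).clamp (plOn_const _ _)

theorem M3_gee {s a b : WW m → ℝ} (hs : PL s) (ha : PL a) (hb : PL b) (L : ℝ) (i : Fin 4) :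
    PL fun v => gee L (s v) (a v) (b v) i := by
  fin_cases i
  exacts [hs, hb.const_mul _, ha.const_mul _, ha.const_mul _]

theorem M3_phi {a b : WW m → ℝ} (ha : PL a) (hb : PL b) (i : Fin 4) :
    PL fun v => phi (a v) (b v) i := by
  fin_cases i
  exacts [ha.max (plOn_const _ _), ha.neg.max (plOn_const _ _), hb.max (plOn_const _ _),
    hb.neg.max (plOn_const _ _)]

theorem pl_rd : PL D.rd :=
  pl_rad _ _ D.hi.plh.pl.fst ((D.pl_uu.fst.add (M3_e1 D.pl_uu _)).sub (((plOn_const _ _).sub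
    ((M3_ca (M3_e1 D.pl_uu _) _).abs.max (M3_cb D.pl_uu.snd _).abs)).const_mul _))

theorem pl_G : PL D.G := by
  have k := PL.comp D.ho.plh.pl' (D.pl_rd.prodMk D.pl_uu.snd)
  exact k

theorem pl_G' : PL D.G' := by
  have k := PL.comp D.hγ.plh.pl' (PL.comp (pl_pr D.q) D.ho.plh.pl)
  have k' := PL.comp D.hi.plh.pl' ((pl_rad D.q D.Λ D.ho.plh.pl.fst k.fst).prodMk k.snd)
  exact k'

theorem pl_new (T : ℝ) : (D.Θ T).new.PLOn univ := by
  have a := M3_ca (M3_e1 D.pl_uu D.η) D.η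
  have b := M3_cb D.pl_uu.snd D.δ
  rintro (i | i)
  · exact ⟨D.pl_G.fst.fst.apply _, D.pl_G.fst.fst.apply _⟩
  · exact ⟨M3_gee D.pl_uu.snd a b _ i, D.pl_G.fst.snd.clamp ((M3_phi a b i).const_mul T)⟩

theorem pl_old (T : ℝ) : (D.Θ T).old.PLOn univ := by
  have f : PL fun v : WW m => v.1 := plOn_fst _
  have s := PL.comp (pl_s0 D.δ D.L) (plOn_snd (univ : Set (WW m)))
  have a := M3_ca (PL.comp (pl_e10 D.η D.L) (plOn_snd (univ : Set (WW m)))) D.η
  have b := M3_cb s D.δ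
  rintro (i | i)
  · exact ⟨f.fst.apply _, f.fst.apply _⟩
  · exact ⟨M3_gee s a b _ i, f.snd.clamp ((M3_phi a b i).const_mul T)⟩

section Val
variable {η L δ s : ℝ}

theorem M3_e (hη : 0 < η) (hL : 0 < L) (s : ℝ) :
    e10 η L s = η / 4 * max 0 (min 2 (min (6 * s / L) (6 - 6 * s / L))) := by
  have h : 0 ≤ η / 4 := by positivity
  rw [mul_max_of_nonneg _ _ h, mul_min_of_nonneg _ _ h, mul_min_of_nonneg _ _ h, e10,
    (by field_simp; ring : η / 4 * (6 * s / L) = 3 * η / (2 * L) * s),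
    (by field_simp; ring : η / 4 * (6 - 6 * s / L) = 3 * η / (2 * L) * (L - s)), mul_zero,
    (by ring : η / 4 * 2 = η / 2)]

theorem M3_a (hη : 0 < η) (hL : 0 < L) (s : ℝ) :
    ca η (e10 η L s) = 1 - max 0 (min 2 (min (6 * s / L) (6 - 6 * s / L))) := by
  rw [M3_e hη hL, ca]
  field_simp

theorem M3_t (hL : 0 < L) (c s : ℝ) :
    (c ≤ 6 * s / L ↔ c * L ≤ 6 * s) ∧ (6 * s / L ≤ c ↔ 6 * s ≤ c * L) :=
  ⟨le_div_iff₀ hL, div_le_iff₀ hL⟩

theorem M3_s (δ L s : ℝ) :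
    s0 δ L s = max (-s) 0 - δ * min 1 (max 0 (6 * s / L / 2 - 1)) + max (s - L) 0 := by
  rw [s0, vb, (by ring : 6 * s / L / 2 = 3 * s / L)]

theorem M3_b1 (hδ : 0 < δ) (h : 0 ≤ s) : cb δ s = 1 :=
  clamp_top zero_le_one (le_add_of_nonneg_left (by positivity))

theorem M3_v0 (hη : 0 < η) (hL : 0 < L) (hδ : 0 < δ) (h : s ≤ 0) :
    e10 η L s = 0 ∧ s0 δ L s = -s ∧ ca η (e10 η L s) = 1 ∧ cb δ (s0 δ L s) = 1 := by
  have t := (M3_t hL 0 s).2.2 (by linarith)
  have e : max 0 (min 2 (min (6 * s / L) (6 - 6 * s / L))) = 0 :=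
    max_eq_left ((min_le_right _ _).trans ((min_le_left _ _).trans t))
  have k : s0 δ L s = -s := by
    rw [M3_s, max_eq_left (by linarith), max_eq_left (by linarith), max_eq_right (by linarith),
      min_eq_right zero_le_one]
    ring
  exact ⟨by rw [M3_e hη hL, e, mul_zero], k, by rw [M3_a hη hL, e, sub_zero],
    M3_b1 hδ (by linarith)⟩

theorem M3_v1 (hη : 0 < η) (hL : 0 < L) (hδ : 0 < δ) (h : 0 ≤ s) (h' : s ≤ L / 3) :
    s0 δ L s = 0 ∧ ca η (e10 η L s) = 1 - 6 * s / L ∧ cb δ (s0 δ L s) = 1 := by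
  have t := (M3_t hL 0 s).1.2 (by linarith)
  have t' := (M3_t hL 2 s).2.2 (by linarith)
  have k : s0 δ L s = 0 := by
    rw [M3_s, max_eq_right (by linarith), max_eq_left (by linarith), max_eq_right (by linarith),
      min_eq_right zero_le_one]
    ring
  exact ⟨k, by rw [M3_a hη hL, min_eq_left (by linarith : 6 * s / L ≤ _), min_eq_right t',
    max_eq_right t], M3_b1 hδ k.ge⟩

theorem M3_v2 (hη : 0 < η) (hL : 0 < L) (hδ : 0 < δ) (h : L / 3 ≤ s) (h' : s ≤ 2 * L / 3) :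
    (-δ ≤ s0 δ L s ∧ s0 δ L s ≤ 0) ∧ ca η (e10 η L s) = -1 ∧ cb δ (s0 δ L s) = 3 - 6 * s / L := by
  have t := (M3_t hL 2 s).1.2 (by linarith)
  have t' := (M3_t hL 4 s).2.2 (by linarith)
  have k : s0 δ L s = δ * (1 - 6 * s / L / 2) := by
    rw [M3_s, max_eq_right (by linarith), max_eq_right (by linarith), max_eq_right (by linarith),
      min_eq_right (by linarith)]
    ring
  refine ⟨⟨by nlinarith, by nlinarith⟩, ?_, ?_⟩
  · rw [M3_a hη hL, min_eq_left (le_min t (by linarith)), max_eq_right zero_le_two]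
    norm_num
  · rw [k, cb, (by field_simp; ring : 2 * (δ * (1 - 6 * s / L / 2)) / δ + 1 = 3 - 6 * s / L)]
    exact clamp_of_le (abs_le.2 ⟨by linarith, by linarith⟩)

theorem M3_v3 (hη : 0 < η) (hL : 0 < L) (hδ : 0 < δ) (h : 2 * L / 3 ≤ s) (h' : s ≤ L) :
    s0 δ L s = -δ ∧ ca η (e10 η L s) = 6 * s / L - 5 ∧ cb δ (s0 δ L s) = -1 := by
  have t := (M3_t hL 4 s).1.2 (by linarith)
  have t' := (M3_t hL 6 s).2.2 (by linarith)
  have k : s0 δ L s = -δ := by
    rw [M3_s, max_eq_right (by linarith), max_eq_right (by linarith), max_eq_right (by linarith),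
      min_eq_left (by linarith)]
    ring
  refine ⟨k, ?_, ?_⟩
  · rw [M3_a hη hL, min_eq_right (by linarith : _ ≤ 6 * s / L), min_eq_right (by linarith),
      max_eq_right (by linarith)]
    ring
  · rw [k, cb]
    exact clamp_bot zero_le_one (by field_simp; norm_num)

theorem M3_v4 (hη : 0 < η) (hL : 0 < L) (hδ : 0 < δ) (h : L ≤ s) :
    e10 η L s = 0 ∧ s0 δ L s = s - L - δ ∧ ca η (e10 η L s) = 1 := by
  have t := (M3_t hL 6 s).1.2 (by linarith)
  have e : max 0 (min 2 (min (6 * s / L) (6 - 6 * s / L))) = 0 :=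
    max_eq_left ((min_le_right _ _).trans ((min_le_right _ _).trans (by linarith)))
  refine ⟨by rw [M3_e hη hL, e, mul_zero], ?_, by rw [M3_a hη hL, e, sub_zero]⟩
  rw [M3_s, max_eq_right (by linarith), max_eq_right (by linarith), max_eq_left (by linarith),
    min_eq_left (by linarith)]
  ring

theorem M3_max (hη : 0 < η) (hL : 0 < L) (hδ : 0 < δ) (s : ℝ) :
    max |ca η (e10 η L s)| |cb δ (s0 δ L s)| = 1 ∧
      (0 ≤ s → s ≤ L → -δ ≤ s0 δ L s ∧ s0 δ L s ≤ 0) := by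
  have a : |ca η (e10 η L s)| ≤ 1 := by
    have := le_max_left 0 (min 2 (min (6 * s / L) (6 - 6 * s / L)))
    have := max_le zero_le_two (min_le_left 2 (min (6 * s / L) (6 - 6 * s / L)))
    rw [M3_a hη hL]
    exact abs_le.2 ⟨by linarith, by linarith⟩
  have b : |cb δ (s0 δ L s)| ≤ 1 := abs_clamp_le zero_le_one
  rcases le_total s 0 with h0 | h0
  · obtain ⟨-, k, k', -⟩ := M3_v0 hη hL hδ h0
    exact ⟨by rw [k', abs_one, max_eq_left b], fun _ _ => ⟨by linarith, by linarith⟩⟩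
  rcases le_total s (L / 3) with h1 | h1
  · obtain ⟨k, -, k'⟩ := M3_v1 hη hL hδ h0 h1
    exact ⟨by rw [k', abs_one, max_eq_right a], fun _ _ => ⟨by linarith, by linarith⟩⟩
  rcases le_total s (2 * L / 3) with h2 | h2
  · obtain ⟨k, k', -⟩ := M3_v2 hη hL hδ h1 h2
    exact ⟨by rw [k', abs_neg, abs_one, max_eq_left b], fun _ _ => k⟩
  rcases le_total s L with h3 | h3
  · obtain ⟨k, -, k'⟩ := M3_v3 hη hL hδ h2 h3
    exact ⟨by rw [k', abs_neg, abs_one, max_eq_right a], fun _ _ => ⟨by linarith, by linarith⟩⟩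
  · obtain ⟨-, k, k'⟩ := M3_v4 hη hL hδ h3
    exact ⟨by rw [k', abs_one, max_eq_left b], fun _ _ => ⟨by linarith, by linarith⟩⟩

theorem M3_wall (hη : 0 < η) (hη' : η ≤ 1 / 16) (hL : 0 < L) (hδ : 0 < δ) {r : ℝ}
    (h : (r, s) ∈ prof η L L (L + 1 + 2 * δ)) (h' : (r, s) ∉ profO η L L (L + 1 + 2 * δ)) :
    e1 η (r - e10 η L s, s0 δ L s) = e10 η L s ∧ ((0 ≤ s ∧ s ≤ L) ∨
      ¬(r < 1 / 2 ∧ -(1 / 4) < s ∧ s < L + 1 / 4) ∧ ¬(r < 1 / 4 ∧ s0 δ L s < 1 / 4)) := by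
  obtain ⟨h0, h⟩ : 0 ≤ r ∧ ((s ≤ 0 ∧ r - s ≤ 1) ∨ (0 ≤ s ∧ s ≤ L ∧ r ≤ η) ∨
    (L ≤ s ∧ r + s ≤ L + 1 + 2 * δ)) := h
  have a : s < 0 → 1 ≤ r - s := fun x => not_lt.1 fun y => h' ⟨h0, .inl ⟨x, y⟩⟩
  have b : 0 ≤ s → s ≤ L → η ≤ r := fun x y => not_lt.1 fun z =>
    h' ⟨h0, .inr (.inl ⟨show _ < s by linarith, show s < _ by linarith, z⟩)⟩
  have c : L < s → L + 1 + 2 * δ ≤ r + s := fun x => not_lt.1 fun y =>
    h' ⟨h0, .inr (.inr ⟨x, y⟩)⟩
  rw [e1]
  rcases h with h | h | h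
  · obtain ⟨k, k', -⟩ := M3_v0 hη hL hδ h.1
    simp only [k, k', sub_zero, max_eq_left (neg_nonneg.2 h.1)]
    rcases h.1.eq_or_lt with e | e
    · exact ⟨max_eq_right (by linarith [b e.ge (e.le.trans hL.le)]), .inl ⟨e.ge, e.le.trans hL.le⟩⟩
    · exact ⟨max_eq_right (by linarith [a e]), .inr ⟨fun x => by linarith [a e, x.1, x.2.1],
        fun x => by linarith [a e, x.1, x.2]⟩⟩
  · refine ⟨?_, .inl ⟨h.1, h.2.1⟩⟩
    simp only [max_eq_right ((M3_max hη hL hδ s).2 h.1 h.2.1).2, h.2.2.antisymm (b h.1 h.2.1),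
      sub_sub_cancel, sub_zero]
    exact max_eq_left (le_max_left _ _)
  · obtain ⟨k, k', -⟩ := M3_v4 hη hL hδ h.1
    simp only [k, k', sub_zero]
    have m1 := le_max_left (s - L - δ) 0
    have m2 := le_max_right (s - L - δ) 0
    rcases h.1.eq_or_lt with e | e
    · exact ⟨max_eq_right (by linarith [b (hL.le.trans e.le) e.ge]), .inl ⟨hL.le.trans e.le, e.ge⟩⟩
    · exact ⟨max_eq_right (by linarith [c e]), .inr ⟨fun x => by linarith [c e, x.1, x.2.2],
        fun x => by linarith [c e, x.1, x.2]⟩⟩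

end Val

theorem bd_data {v : WW m} (h : v ∈ D.N) (h' : v ∉ D.No) :
    (D.G v).1 = v.1 ∧ (D.uu v).2 = s0 D.δ D.L v.2 ∧ e1 D.η (D.uu v) = e10 D.η D.L v.2 := by
  have e : pr D.q (D.ki v) = (rho D.q (D.ki v).1, v.2) := Prod.ext rfl (D.hi.snd v)
  have p : pr D.q (D.ki v) ∈ prof D.η D.L D.L (D.L + 1 + 2 * D.δ) := h
  have p' : pr D.q (D.ki v) ∉ profO D.η D.L D.L (D.L + 1 + 2 * D.δ) := h'
  have u := D.hγ.bd _ p p'
  rw [e] at p p'
  obtain ⟨k, k'⟩ := M3_wall D.pη D.lη D.pL D.pδ p p'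
  obtain ⟨w, w'⟩ := M3_max D.pη D.pL D.pδ v.2
  replace u : D.uu v = (rho D.q (D.ki v).1 - e10 D.η D.L v.2, s0 D.δ D.L v.2) := by
    rw [uu, u, e]
  have r : D.rd v = (D.ki v).1 := by
    rw [rd, u, r2, k, w, sub_self, mul_zero, sub_zero, sub_add_cancel, rad_self D.hq D.pΛ.le]
  refine ⟨?_, by rw [u], by rw [u, k]⟩
  rw [G, r, u]
  rcases k' with k' | k'
  · rw [D.ko'_act _ (w' k'.1 k'.2).1 (w' k'.1 k'.2).2, D.hi.act v k'.1 k'.2, D.plf.left]
  · have i : D.ki v = v := (D.hi.off v).resolve_right fun x =>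
      k'.1 ⟨x.2.1, by linarith [x.2.2.1], x.2.2.2⟩
    rw [i] at k' ⊢
    have o := (D.ho.off (v.1, s0 D.δ D.L v.2)).resolve_right fun x =>
      k'.2 ⟨x.1, by linarith [x.2.2.2]⟩
    rw [← o, D.ho.plh.left]

theorem bd (T : ℝ) : ∀ v ∈ D.N, v ∉ D.No →
    ∀ k, (D.Θ T).f k v = (D.Θ T).f0 k v ∧ (D.Θ T).g k v = (D.Θ T).g0 k v := by
  intro v h h'
  obtain ⟨a, b, c⟩ := D.bd_data h h'
  rintro (i | i) <;> simp only [Θ, Sum.elim_inl, Sum.elim_inr, a, b, c, and_self]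

theorem M3_gen (c : ℝ) : ∀ᶠ v in gen (WW m), v.2 ≠ c :=
  PLb_dense (C := {v : WW m | v.2 = c}) (isClosed_eq continuous_snd continuous_const)
    fun y hy => ⟨(0, 1), fun t ht e => ht (by
      have h1 : y.2 = c := hy
      have h2 : y.2 + t * 1 = c := e
      linarith)⟩

/-- One of the four last terms of the old form. -/
def M3_tm (T : ℝ) (v : WW m) (F P : ℝ → ℝ) : B2 (WW m) :=
  wedge (fderiv ℝ (fun z : WW m => F z.2) v) (fderiv ℝ (fun z : WW m => clamp z.1.2 (T * P z.2)) v)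

section Tm
variable {T : ℝ} {v : WW m} {F P : ℝ → ℝ} {I : Set ℝ}

theorem M3_f (hI : I ∈ 𝓝 v.2) (c : ℝ) (h : ∀ x ∈ I, F x = c) : M3_tm T v F P = 0 := by
  have e : (fun z : WW m => F z.2) =ᶠ[𝓝 v] fun _ => c :=
    mem_of_superset (continuous_snd.continuousAt.preimage_mem_nhds hI) fun z hz => h _ hz
  rw [M3_tm, e.fderiv_eq, fderiv_fun_const, Pi.zero_apply, wedge_zero_left]

theorem M3_p (hI : I ∈ 𝓝 v.2) (h : ∀ x ∈ I, P x = 0) : M3_tm T v F P = 0 := by
  have e : (fun z : WW m => clamp z.1.2 (T * P z.2)) =ᶠ[𝓝 v] fun _ => 0 :=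
    mem_of_superset (continuous_snd.continuousAt.preimage_mem_nhds hI) fun z hz => by
      show clamp _ _ = _
      rw [h _ hz, mul_zero, clamp_zero]
  rw [M3_tm, e.fderiv_eq, fderiv_fun_const, Pi.zero_apply, wedge_zero_right]

theorem M3_o (hI : I ∈ 𝓝 v.2) (hT : ∀ᶠ z in 𝓝 v, |z.1.2| ≤ T) (a c : ℝ)
    (h : ∀ x ∈ I, F x = a * x + c ∧ P x = 1) : M3_tm T v F P = a • wedge (cs m) (ct m) := by
  have e : (fun z : WW m => F z.2) =ᶠ[𝓝 v] fun z => (a • cs m) z + c :=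
    mem_of_superset (continuous_snd.continuousAt.preimage_mem_nhds hI) fun z hz => (h _ hz).1
  have e' : (fun z : WW m => clamp z.1.2 (T * P z.2)) =ᶠ[𝓝 v] ct m := by
    filter_upwards [continuous_snd.continuousAt.preimage_mem_nhds hI, hT] with z hz hz'
    rw [(h _ hz).2, mul_one, clamp_of_le hz', ct_apply]
  rw [M3_tm, e.fderiv_eq, e'.fderiv_eq, fderiv_add_const, ContinuousLinearMap.fderiv,
    ContinuousLinearMap.fderiv, wedge_smul_left]

end Tm

theorem M3_form (T : ℝ) (v : WW m) : (D.Θ T).old.form v = pb (cx m) (wD m) + ∑ i : Fin 4,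
    M3_tm T v (fun x => gee D.L (s0 D.δ D.L x) (ca D.η (e10 D.η D.L x)) (cb D.δ (s0 D.δ D.L x)) i)
      fun x => phi (ca D.η (e10 D.η D.L x)) (cb D.δ (s0 D.δ D.L x)) i := by
  show ∑ k : Fin m ⊕ Fin 4, wedge (fderiv ℝ ((D.Θ T).f0 k) v) (fderiv ℝ ((D.Θ T).g0 k) v) = _
  rw [Fintype.sum_sum_type, wD_eq_sum]
  refine congrArg₂ (· + ·) (Finset.sum_congr rfl fun i _ => congrArg₂ wedge ?_ ?_) rfl
  · exact ContinuousLinearMap.fderiv
      ((ContinuousLinearMap.proj (R := ℝ) (φ := fun _ => ℝ) (Sum.inl i)).comp (cx m))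
  · exact ContinuousLinearMap.fderiv
      ((ContinuousLinearMap.proj (R := ℝ) (φ := fun _ => ℝ) (Sum.inr i)).comp (cx m))

theorem old {T : ℝ} (hT : D.Big T) : ∀ᶠ v in gen (WW m), v ∈ D.N →
    (D.Θ T).old.form v = if v.2 < 0 then wn m else w0 m := by
  have hL := D.pL
  filter_upwards [D.negl, M3_gen 0, M3_gen (D.L / 3), M3_gen (2 * D.L / 3), M3_gen D.L]
    with v hv h0 h1 h2 h3 hN
  have hb : ∀ᶠ z in 𝓝 v, |z.1.2| ≤ T :=
    mem_of_superset (D.oN.mem_nhds (hv hN)) fun z hz => (hT.2 z (D.sN hz)).1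
  rw [M3_form, Fin.sum_univ_four]
  rcases h0.lt_or_gt with h0 | h0
  · have I := Iic_mem_nhds h0
    have k := fun x (hx : x ∈ Iic (0 : ℝ)) => M3_v0 D.pη hL D.pδ hx
    rw [if_pos h0, M3_o I hb (-1) 0 fun x hx => by simp [gee, phi, (k x hx).2.1, (k x hx).2.2.1],
      M3_f I (-(D.L / 6)) fun x hx => by simp [gee, (k x hx).2.2.2],
      M3_f I (-(D.L / 6)) fun x hx => by simp [gee, (k x hx).2.2.1],
      M3_f I (D.L / 6) fun x hx => by simp [gee, (k x hx).2.2.1], wn]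
    simp only [add_zero, neg_smul, one_smul, sub_eq_add_neg]
  rw [if_neg h0.not_gt, w0]
  refine congrArg _ ?_
  rcases h1.lt_or_gt with h1 | h1
  · have I := Icc_mem_nhds h0 h1
    have k := fun x (hx : x ∈ Icc 0 (D.L / 3)) => M3_v1 D.pη hL D.pδ hx.1 hx.2
    rw [M3_f I 0 fun x hx => by simp [gee, (k x hx).1],
      M3_f I (-(D.L / 6)) fun x hx => by simp [gee, (k x hx).2.2],
      M3_o I hb 1 (-(D.L / 6)) fun x hx => by
        simp only [gee, phi, (k x hx).2.1, (k x hx).2.2]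
        exact ⟨by simp; field_simp; ring, by simp⟩,
      M3_p I fun x hx => by simp [phi, (k x hx).2.2]]
    simp only [add_zero, zero_add, one_smul]
  rcases h2.lt_or_gt with h2 | h2
  · have I := Icc_mem_nhds h1 h2
    have k := fun x (hx : x ∈ Icc (D.L / 3) (2 * D.L / 3)) => M3_v2 D.pη hL D.pδ hx.1 hx.2
    rw [M3_p I fun x hx => by simp [phi, (k x hx).2.1],
      M3_o I hb 1 (-(D.L / 2)) fun x hx => by
        simp only [gee, phi, (k x hx).2.1, (k x hx).2.2]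
        exact ⟨by simp; field_simp; ring, by simp⟩,
      M3_f I (D.L / 6) fun x hx => by simp [gee, (k x hx).2.1],
      M3_f I (-(D.L / 6)) fun x hx => by simp [gee, (k x hx).2.1]]
    simp only [add_zero, zero_add, one_smul]
  rcases h3.lt_or_gt with h3 | h3
  · have I := Icc_mem_nhds h2 h3
    have k := fun x (hx : x ∈ Icc (2 * D.L / 3) D.L) => M3_v3 D.pη hL D.pδ hx.1 hx.2
    rw [M3_f I (-D.δ) fun x hx => by simp [gee, (k x hx).1],
      M3_f I (D.L / 6) fun x hx => by simp [gee, (k x hx).2.2],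
      M3_p I fun x hx => by simp [phi, (k x hx).2.2],
      M3_o I hb 1 (-(5 * D.L / 6)) fun x hx => by
        simp only [gee, phi, (k x hx).2.1, (k x hx).2.2]
        exact ⟨by simp; field_simp; ring, by simp⟩]
    simp only [add_zero, zero_add, one_smul]
  · have I := Ici_mem_nhds h3
    have k := fun x (hx : x ∈ Ici D.L) => M3_v4 D.pη hL D.pδ hx
    rw [M3_o I hb 1 (-D.L - D.δ) fun x hx => by
        simp only [gee, phi, (k x hx).2.1, (k x hx).2.2]
        exact ⟨by simp; ring, by simp⟩,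
      M3_p I fun x hx => by simp [phi, (k x hx).2.2],
      M3_f I (-(D.L / 6)) fun x hx => by simp [gee, (k x hx).2.2],
      M3_f I (D.L / 6) fun x hx => by simp [gee, (k x hx).2.2]]
    simp only [add_zero, one_smul]

theorem big_ex : ∃ T, D.Big T := by
  obtain ⟨T, hT⟩ := D.cN.exists_bound_of_continuousOn (f := fun v => (v.1.2, (D.G v).1.2))
    (continuous_fst.snd.prodMk D.pl_G.continuous.fst.snd).continuousOn
  exact ⟨max T 1, lt_max_of_lt_right one_pos, fun v hv =>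
    ⟨le_max_of_le_left ((norm_fst_le (v.1.2, (D.G v).1.2)).trans (hT v hv)),
      le_max_of_le_left ((norm_snd_le (v.1.2, (D.G v).1.2)).trans (hT v hv))⟩⟩

end MD

end Pool.Agent.Work.MP_bf98aa_gt.Pl
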