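import Pool.Agent.Work.MP_bf98aa_gt.Pl.Rad

/-!
The determinant of the radial map. At a generic v: rho = ell k near v.1 (gen_rho), the maps Th j v = th (rho v.1) (R (pr v)) (ps j v.1) are locally affine (they are PL), R is locally affine at pr v (gen_pr).
Near v.1 the function bet k vanishes and bet j is linear. The vertices q (k.succAbove i), i : Fin d, are a basis of Y with coordinates bet (k.succAbove i); let S i be their partial sums (S i = ps ((k.succAbove i) + 1), the last one is rho),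
so that the linear map J = (S 0, ..., S (d-1), s) : Y x R -> (Fin d -> R) x R is an isomorphism, and J (rad ..) = (th S 0, ..., th S (d-2), R) by ps_rad (bet k of the image vanishes too, rho of the image is R). In these coordinates the derivative is
block triangular: along the i-th coordinate vector (i < d-1) rho and s are constant, Th j is constant for j different from i and strictly increasing for j = i (th_strictMono), so the slope c i is positive.
tri_det is the linear algebra (Matrix.det_fromBlocks_zero or BlockTriangular; conjugation invariance LinearMap.det_conj). You may organise the proof differently. rad_det1: apply rad_det with R u = r u.1 and the covector snd, gen_fst, det_prodMap_id, det_plane.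
-/

set_option autoImplicit false
set_option maxSynthPendingDepth 3
set_option linter.unusedSectionVars false
set_option linter.unusedVariables false

open Set Filter Topology Metric

noncomputable section
namespace Pool.Agent.Work.MP_bf98aa_gt.Pl

open Pool.Agent.Work.MP_bf98aa_gt.Ns

variable {Y Y' : Type} [NormedAddCommGroup Y] [NormedSpace ℝ Y] [FiniteDimensional ℝ Y]
  [NormedAddCommGroup Y'] [NormedSpace ℝ Y'] [FiniteDimensional ℝ Y'] {d : ℕ}
  {q : Sx Y d} {Λ : ℝ}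

theorem RadD_blk {M N : Type} [AddCommGroup M] [Module ℝ M] [FiniteDimensional ℝ M]
    [AddCommGroup N] [Module ℝ N] [FiniteDimensional ℝ N] (D : M × N →ₗ[ℝ] M × N) (B : M →ₗ[ℝ] M)
    (A : N →ₗ[ℝ] N) (h1 : ∀ x, D (x, 0) = (B x, 0)) (h2 : ∀ y, (D (0, y)).2 = A y) :
    LinearMap.det D = LinearMap.det B * LinearMap.det A := by
  classical
  let b := (Module.finBasis ℝ M).prod (Module.finBasis ℝ N)
  rw [← LinearMap.det_toMatrix b, ← LinearMap.det_toMatrix (Module.finBasis ℝ M),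
    ← LinearMap.det_toMatrix (Module.finBasis ℝ N), ← Matrix.det_fromBlocks_zero₂₁ _
      (Matrix.of fun i j => LinearMap.toMatrix b b D (Sum.inl i) (Sum.inr j))]
  congr 1
  ext (i | i) (j | j) <;> simp [LinearMap.toMatrix_apply, b, h1, h2]



theorem tri_det {n : ℕ} (D : ((Fin n → ℝ) × ℝ) × ℝ →L[ℝ] ((Fin n → ℝ) × ℝ) × ℝ) (c : Fin n → ℝ)
    (h : ∀ i, D ((Pi.single i 1, 0), 0) = ((Pi.single i (c i), 0), 0)) (A : ℝ × ℝ →L[ℝ] ℝ × ℝ)
    (hA : ∀ a b : ℝ, ((D ((0, a), b)).1.2, (D ((0, a), b)).2) = A (a, b)) :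
    D.det = (∏ i, c i) * A.det := by
  have h1 : (D : ((Fin n → ℝ) × ℝ) × ℝ →ₗ[ℝ] ((Fin n → ℝ) × ℝ) × ℝ) ∘ₗ LinearMap.inl ℝ _ ℝ ∘ₗ
      LinearMap.inl ℝ _ ℝ = LinearMap.inl ℝ _ ℝ ∘ₗ LinearMap.inl ℝ _ ℝ ∘ₗ
        Matrix.toLin' (Matrix.diagonal c) := (Pi.basisFun ℝ (Fin n)).ext fun i => by
    simp [h i]
  have h2 := RadD_blk ((LinearEquiv.prodAssoc ℝ (Fin n → ℝ) ℝ ℝ : _ →ₗ[ℝ] _) ∘ₗ
    (D : ((Fin n → ℝ) × ℝ) × ℝ →ₗ[ℝ] ((Fin n → ℝ) × ℝ) × ℝ) ∘ₗ
      (LinearEquiv.prodAssoc ℝ (Fin n → ℝ) ℝ ℝ).symm) (Matrix.toLin' (Matrix.diagonal c))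
    (A : ℝ × ℝ →ₗ[ℝ] ℝ × ℝ)
    (fun x => congrArg (LinearEquiv.prodAssoc ℝ (Fin n → ℝ) ℝ ℝ) (LinearMap.congr_fun h1 x))
    fun y => hA y.1 y.2
  rw [LinearMap.det_conj, LinearMap.det_toLin', Matrix.det_diagonal] at h2
  exact h2

/-- The radial map in the coordinates given by the partial sums. -/
def RadD_G (n : ℕ) (Λ : ℝ) (R : ℝ × ℝ → ℝ) (w : ((Fin n → ℝ) × ℝ) × ℝ) : (Fin n → ℝ) × ℝ :=
  (fun i => th Λ w.1.2 (R (w.1.2, w.2)) (w.1.1 i), R (w.1.2, w.2))

/-- The profile coordinates. -/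
def RadD_p (n : ℕ) : ((Fin n → ℝ) × ℝ) × ℝ →L[ℝ] ℝ × ℝ :=
  (ContinuousLinearMap.snd ℝ (Fin n → ℝ) ℝ).prodMap (ContinuousLinearMap.id ℝ ℝ)

theorem RadD_pull {V V' : Type} [NormedAddCommGroup V] [NormedSpace ℝ V] [FiniteDimensional ℝ V]
    [NormedAddCommGroup V'] [NormedSpace ℝ V'] [FiniteDimensional ℝ V'] (L : V →L[ℝ] V')
    (hL : Function.Surjective L) {p : V' → Prop} (hp : ∀ᶠ z in gen V', p z) :
    ∀ᶠ y in gen V, p (L y) :=
  (gen_pull (φ := L) isOpen_univ (Eventually.of_forall fun y _ =>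
    ⟨locAff_aff L.toContinuousAffineMap y, by rwa [L.fderiv]⟩) hp).mono fun y hy => hy trivial

theorem RadD_model (n : ℕ) (hΛ : 0 ≤ Λ) {R : ℝ × ℝ → ℝ} (hR : PL R) :
    ∀ᶠ w in gen (((Fin n → ℝ) × ℝ) × ℝ), DifferentiableAt ℝ (RadD_G n Λ R) w ∧
      ∃ c : ℝ, 0 < c ∧ ∀ γ0 : ℝ × ℝ →L[ℝ] ℝ,
        ((fderiv ℝ (RadD_G n Λ R) w).prod (γ0.comp (RadD_p n))).det =
          c * ((fderiv ℝ R (RadD_p n w)).prod γ0).det := by
  have p1 : PL fun w : ((Fin n → ℝ) × ℝ) × ℝ => R (w.1.2, w.2) :=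
    PL.comp hR ((plOn_fst univ).snd.prodMk (plOn_snd univ))
  have p2 : PL (RadD_G n Λ R) := (plOn_pi fun i =>
    pl_th Λ (plOn_fst univ).snd p1 ((plOn_fst univ).fst.apply i)).prodMk p1
  filter_upwards [p2.gen_locAff, RadD_pull (RadD_p n) (fun u => ⟨((0, u.1), u.2), rfl⟩)
    hR.gen_locAff] with w h1 h2
  refine ⟨h1.differentiableAt, ?_⟩
  obtain ⟨A, hA, hD⟩ := h1.exists_aff
  have key : ∀ i, ∃ c : ℝ, 0 < c ∧ fderiv ℝ (RadD_G n Λ R) w ((Pi.single i 1, 0), 0) =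
      (Pi.single i c, 0) := fun i => by
    have e1 := ((PLb_line w ((Pi.single i 1, 0), 0)).eventually hA).filter_mono
      (nhdsWithin_le_nhds (s := Ioi 0))
    obtain ⟨t, h3, (h4 : 0 < t)⟩ := (e1.and self_mem_nhdsWithin).exists
    rw [PLb_add, ← hA.eq_of_nhds, ← hD] at h3
    generalize fderiv ℝ (RadD_G n Λ R) w ((Pi.single i 1, 0), 0) = z at h3
    have h5 := fun j => congrFun (congrArg Prod.fst h3) j
    have h6 := congrArg Prod.snd h3
    simp only [RadD_G, Prod.fst_add, Prod.snd_add, Prod.smul_fst, Prod.smul_snd, smul_zero,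
      add_zero, Pi.add_apply, Pi.smul_apply, smul_eq_mul, mul_zero] at h5 h6
    refine ⟨z.1 i, ?_, Prod.ext (funext fun j => ?_) ?_⟩
    · have h7 := h5 i
      have h8 := th_strictMono hΛ w.1.2 (R (w.1.2, w.2)) (lt_add_of_pos_right (w.1.1 i) h4)
      rw [Pi.single_eq_same, mul_one] at h7
      exact pos_of_mul_pos_left (by linarith : 0 < z.1 i * t) h4.le
    · show z.1 j = (Pi.single i (z.1 i) : Fin n → ℝ) j
      by_cases e : j = i
      · rw [e, Pi.single_eq_same]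
      · have h7 := h5 j
        rw [Pi.single_eq_of_ne e, mul_zero, add_zero, left_eq_add] at h7
        rw [Pi.single_eq_of_ne e]
        exact (mul_eq_zero.1 h7).resolve_left h4.ne'
    · exact (mul_eq_zero.1 (left_eq_add.1 h6)).resolve_left h4.ne'
  choose c hc hk using key
  refine ⟨∏ i, c i, Finset.prod_pos fun i _ => hc i, fun γ0 => tri_det _ c (fun i => ?_) _
    fun a b => Prod.ext ?_ rfl⟩
  · exact Prod.ext (hk i) (map_zero γ0)
  · have e1 := (ContinuousLinearMap.snd ℝ (Fin n → ℝ) ℝ).hasFDerivAt.comp w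
      h1.differentiableAt.hasFDerivAt
    have e2 := h2.differentiableAt.hasFDerivAt.comp w (RadD_p n).hasFDerivAt
    exact congrArg (fun L => L ((0, a), b)) (e1.unique e2)

theorem RadD_tri {m : ℕ} {a : Fin m → ℝ} (h : ∀ i, ∑ j, (if j ≤ i then a j else 0) = 0)
    (i : Fin m) : a i = 0 := by
  induction i using WellFoundedLT.induction with
  | ind i ih =>
    have h1 := h i
    rwa [Finset.sum_eq_single i (fun j _ e => ?_) (by simp), if_pos le_rfl] at h1
    split_ifs with k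
    exacts [ih j (lt_of_le_of_ne k e), rfl]

theorem RadD_J {n : ℕ} {q : Sx Y (n + 1)} (hq : Cen q) (k : Fin (n + 2)) :
    ∃ J : Y ≃L[ℝ] (Fin n → ℝ) × ℝ, ∀ y, bet q k y = 0 →
      J y = (fun i => ps q ((k.succAbove i.castSucc).1 + 1) y, rho q y) := by
  choose l hl using ell_lin hq
  let b : Fin (n + 2) → Y →L[ℝ] ℝ := fun j => q.coord j 0 • (l k - l j)
  have hb : ∀ j y, b j y = q.coord j 0 * (ell q k y - ell q j y) := fun j y => by
    rw [hl, hl]
    rfl
  let J : Y →L[ℝ] (Fin n → ℝ) × ℝ := (ContinuousLinearMap.pi fun i : Fin n =>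
    ∑ j : Fin (n + 2), if j.1 < (k.succAbove i.castSucc).1 + 1 then b j else 0).prod (l k)
  have hJ : ∀ y, J y = (fun i : Fin n => ∑ j : Fin (n + 2),
      if j.1 < (k.succAbove i.castSucc).1 + 1 then b j y else 0, ell q k y) := fun y => by
    refine Prod.ext (funext fun i => ?_) (hl k y).symm
    simp only [J, ContinuousLinearMap.prod_apply, ContinuousLinearMap.pi_apply,
      sum_apply]
    refine Finset.sum_congr rfl fun j _ => ?_
    split_ifs <;> rfl
  have inj : Function.Injective (J : Y →ₗ[ℝ] (Fin n → ℝ) × ℝ) := by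
    refine (injective_iff_map_eq_zero _).2 fun y hy => ?_
    have h0 : J y = 0 := hy
    rw [hJ] at h0
    have h1 : ell q k y = 0 := congrArg Prod.snd h0
    have hk : b k y = 0 := by rw [hb, sub_self, mul_zero]
    have h2 : ∀ i : Fin (n + 1), b (k.succAbove i) y = 0 := RadD_tri fun i => by
      refine Fin.lastCases ?_ (fun i => ?_) i
      · have h3 : ∑ j, b j y = 0 := by
          simp only [hb, h1, zero_sub, mul_neg, Finset.sum_neg_distrib, sum_ell hq, neg_zero]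
        rw [Fin.sum_univ_succAbove _ k, hk, zero_add] at h3
        simpa only [Fin.le_last, if_true] using h3
      · have h3 : ∑ j : Fin (n + 2), (if j.1 < (k.succAbove i.castSucc).1 + 1 then b j y else 0) =
            0 := congrFun (congrArg Prod.fst h0) i
        rw [Fin.sum_univ_succAbove _ k, hk, ite_self, zero_add] at h3
        simpa only [Nat.lt_succ_iff, Fin.val_fin_le, Fin.succAbove_le_succAbove_iff] using h3
    have h3 : ∀ j, ell q j y = 0 := fun j => by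
      rcases Fin.eq_self_or_eq_succAbove k j with rfl | ⟨i, rfl⟩
      · exact h1
      · have := h2 i
        rw [hb, h1, zero_sub, mul_neg, neg_eq_zero] at this
        exact (mul_eq_zero.1 this).resolve_left (hq _).ne'
    obtain ⟨j, hj⟩ := rho_eq_ell q y
    exact rho_eq_zero hq (hj.trans (h3 j))
  refine ⟨(LinearMap.linearEquivOfInjective _ inj
    (by simp [sx_finrank q])).toContinuousLinearEquiv, fun y hy => (hJ y).trans ?_⟩
  have e : ell q k y = rho q y :=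
    (sub_eq_zero.1 ((mul_eq_zero.1 hy).resolve_left (hq k).ne')).symm
  simp only [hb, e]
  rfl



theorem rad_det (hd : 1 ≤ d) (hq : Cen q) (hΛ : 0 ≤ Λ) {R : ℝ × ℝ → ℝ} (hR : PL R)
    {U : Set (Y × ℝ)} (hU : IsOpen U) (h : ∀ v ∈ U, Rat Λ (rho q v.1) (R (pr q v))) :
    ∀ᶠ v in gen (Y × ℝ), v ∈ U → ∃ c : ℝ, 0 < c ∧ ∀ γ0 : ℝ × ℝ →L[ℝ] ℝ,
      ((fderiv ℝ (fun v : Y × ℝ => rad q Λ v.1 (R (pr q v))) v).prod
        (γ0.comp (fderiv ℝ (pr q) v))).det = c * ((fderiv ℝ R (pr q v)).prod γ0).det := by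
  obtain ⟨n, rfl⟩ : ∃ n, d = n + 1 := ⟨d - 1, by omega⟩
  choose J hJ using RadD_J hq
  let E := fun k => (J k).prodCongr (ContinuousLinearEquiv.refl ℝ ℝ)
  have g1 := fun k => RadD_pull (E k : Y × ℝ →L[ℝ] ((Fin n → ℝ) × ℝ) × ℝ) (E k).surjective
    (RadD_model n hΛ hR)
  have g2 := eventually_all.2 g1
  have g3 := gen_fst.2 (gen_rho hq)
  filter_upwards [g3, g2] with v ⟨k, hk⟩ hm hv
  obtain ⟨h1, c, hc, h2⟩ := hm k
  have b0 : ∀ᶠ z in 𝓝 v, bet q k z.1 = 0 := (continuousAt_fst.eventually hk).mono fun z hz => by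
    rw [bet, hz, sub_self, mul_zero]
  have e1 : pr q =ᶠ[𝓝 v] fun z => RadD_p n (E k z) := b0.mono fun z hz =>
    Prod.ext (congrArg Prod.snd (hJ k z.1 hz)).symm rfl
  have e2 : (fun z : Y × ℝ => rad q Λ z.1 (R (pr q z))) =ᶠ[𝓝 v]
      fun z => (J k).symm (RadD_G n Λ R (E k z)) := by
    filter_upwards [b0, hU.mem_nhds hv] with z hz hu
    have b1 : bet q k (rad q Λ z.1 (R (pr q z))) = 0 := by
      have := ps_succ q k (rad q Λ z.1 (R (pr q z)))
      rwa [ps_rad hq hΛ _ _ k.2, ps_rad hq hΛ _ _ k.2.le, ps_succ, hz, add_zero,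
        left_eq_add] at this
    rw [ContinuousLinearEquiv.eq_symm_apply, hJ k _ b1, rho_rad hq hΛ (h z hu)]
    show _ = RadD_G n Λ R (J k z.1, z.2)
    rw [hJ k _ hz]
    exact Prod.ext (funext fun i => ps_rad hq hΛ _ _ (Fin.is_lt _)) rfl
  have d1 := ((RadD_p n).hasFDerivAt.comp v (E k).hasFDerivAt).congr_of_eventuallyEq e1
  have d2 := ((J k).symm.hasFDerivAt.comp v
    (h1.hasFDerivAt.comp v (E k).hasFDerivAt)).congr_of_eventuallyEq e2
  refine ⟨c, hc, fun γ0 => ?_⟩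
  rw [d1.fderiv, d2.fderiv, e1.eq_of_nhds]
  refine Eq.trans ?_ (h2 γ0)
  exact LinearMap.det_conj (((fderiv ℝ (RadD_G n Λ R) (E k v)).prod
    (γ0.comp (RadD_p n)) : _ →L[ℝ] _) : _ →ₗ[ℝ] _) (E k).symm.toLinearEquiv

theorem rad_det1 (hd : 1 ≤ d) (hq : Cen q) (hΛ : 0 ≤ Λ) {r : ℝ → ℝ} (hr : PL r) {U : Set Y}
    (hU : IsOpen U) (h : ∀ y ∈ U, Rat Λ (rho q y) (r (rho q y))) {k : ℝ}
    (hk : ∀ y ∈ U, HasDerivAt r k (rho q y)) :
    ∀ᶠ y in gen Y, y ∈ U → ∃ c : ℝ, 0 < c ∧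
      (fderiv ℝ (fun y => rad q Λ y (r (rho q y))) y).det = c * k := by
  have p1 : PL fun y => rad q Λ y (r (rho q y)) := pl_rad q Λ (plOn_id univ) (PL.comp hr (pl_rho q))
  refine gen_fst.1 ?_
  filter_upwards [rad_det hd hq hΛ (PL.comp hr (plOn_fst univ)) (hU.preimage continuous_fst)
    fun v hv => h v.1 hv, gen_fst.2 p1.gen_locAff, (pl_pr q).gen_locAff] with v h1 h2 h3 hv
  obtain ⟨c, hc, h4⟩ := h1 hv
  refine ⟨c, hc, ?_⟩
  have d1 := h2.differentiableAt.hasFDerivAt.comp v hasFDerivAt_fst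
  have d2 : (ContinuousLinearMap.snd ℝ ℝ ℝ).comp (fderiv ℝ (pr q) v) =
      ContinuousLinearMap.snd ℝ Y ℝ :=
    (hasFDerivAt_snd.comp v h3.differentiableAt.hasFDerivAt).unique hasFDerivAt_snd
  have d3 := HasFDerivAt.comp (f := Prod.fst) (pr q v) (hk v.1 hv).hasFDerivAt hasFDerivAt_fst
  have h5 := h4 (ContinuousLinearMap.snd ℝ ℝ ℝ)
  rw [d2, det_plane] at h5
  erw [d1.fderiv, d3.fderiv] at h5
  rw [← det_prodMap_id]
  refine Eq.trans ?_ (h5.trans ?_)
  · rfl
  · simp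

end Pool.Agent.Work.MP_bf98aa_gt.Pl
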