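import Pool.Agent.Work.MP_bf98aa_gt.Pl.M3
import Pool.Agent.Work.MP_bf98aa_gt.Pl.RadD
import Pool.Agent.Work.MP_bf98aa_gt.Pl.Acc

/-!
The chart off the sleeve. rat: on N the point uu v lies in targ, so e1 <= eta/2, |ca| <= 1, |cb| <= 1; if e1 = 0 then r2 = (uu v).1, otherwise both lie in [eta/2, eta]; IsProf.mem and 1 + Lam = 2 C.
On A: e1 = 0, ca = 1, r2 = fst. GG: rho (rd v) = r2 by rho_rad, so pr q (ko (G v)) = uu v, and rad_rad. The same for G'. posA: G = ko' o Phi o ki with Phi w = (rad w.1 (R (pr w)), (gamma (pr w)).2), R = r2 o gamma (PL);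
rad_det on the open set rot q (preimage of targO) with gamma0 = the derivative of snd o gamma; there R = fst o gamma near pr w, so the plane determinant is that of gamma (positive generically, gen_pr); pull the generic properties of ko' back along Phi (gen_pull,
bij_of_det) and everything along ki. The form: phi = (1, 0, .., ..), gee 0 = (G v).2, gee 2 and gee 3 are constant, clamp t T = t on N, clamp t 0 = 0; wD_eq_sum, pb_add, pb_wedge.
-/

set_option autoImplicit false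
set_option maxSynthPendingDepth 3
set_option linter.unusedSectionVars false
set_option linter.unusedVariables false

open Set Filter Topology Metric

noncomputable section
namespace Pool.Agent.Work.MP_bf98aa_gt.Pl

open Pool.Agent.Work.MP_bf98aa_gt.Ns

theorem M4_e1 {η : ℝ} {u : ℝ × ℝ} (h : η ≤ u.1 + max u.2 0) : e1 η u = 0 :=
  max_eq_right (by linarith)

theorem M4_ca (η : ℝ) : ca η 0 = 1 := by simp [ca]

theorem M4_cb (δ s : ℝ) : |cb δ s| ≤ 1 := abs_clamp_le zero_le_one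

theorem M4_r2O {η δ : ℝ} {u : ℝ × ℝ} (h : η ≤ u.1 + max u.2 0) : r2 η δ u = u.1 := by
  rw [r2, M4_e1 h, M4_ca, abs_one, max_eq_left (M4_cb _ _)]
  ring

theorem M4_r2 {η δ : ℝ} (hη : 0 < η) (hη' : η ≤ 1) {u : ℝ × ℝ} (h : u ∈ targ η δ) :
    0 ≤ r2 η δ u ∧ r2 η δ u ≤ 2 * u.1 ∧ u.1 ≤ 2 * r2 η δ u := by
  obtain ⟨h0, h1, -, h3⟩ := h
  rcases le_or_gt η (u.1 + max u.2 0) with h | h
  · rw [M4_r2O h]
    exact ⟨h0, by linarith, by linarith⟩
  · have h4 : u.2 ≤ 0 := by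
      by_contra h5
      rw [max_eq_left (not_le.1 h5).le] at h
      rcases le_max_iff.1 h1 with h6 | h6 <;> linarith [not_le.1 h5]
    rw [max_eq_right h4] at h h3
    have e : e1 η u = η - u.1 := by
      rw [e1, max_eq_right h4, sub_zero, max_eq_left (by linarith)]
    have h5 : |ca η (e1 η u)| ≤ 1 := by
      have a1 : 0 ≤ 4 * (η - u.1) / η := div_nonneg (by linarith) hη.le
      have a2 : 4 * (η - u.1) / η ≤ 2 := by rw [div_le_iff₀ hη]; linarith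
      rw [e, ca, abs_le]
      constructor <;> linarith
    have h6 : max |ca η (e1 η u)| |cb δ u.2| ≤ 1 := max_le h5 (M4_cb _ _)
    have h7 : 0 ≤ max |ca η (e1 η u)| |cb δ u.2| := (abs_nonneg _).trans (le_max_left _ _)
    rw [r2]
    generalize max |ca η (e1 η u)| |cb δ u.2| = M at h6 h7
    have h8 := mul_nonneg hη.le h7
    have h9 := mul_nonneg hη.le (sub_nonneg.2 h6)
    rw [e]
    refine ⟨?_, ?_, ?_⟩ <;> nlinarith

theorem M4_prof {η L δ : ℝ} (hη : η ≤ 1 / 2) (hδ : 0 ≤ δ) :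
    profO η L L (L + 1 + 2 * δ) ⊆ prof η L L (L + 1 + 2 * δ) := by
  rintro u ⟨h0, h | h | h⟩
  · exact ⟨h0, Or.inl ⟨h.1.le, h.2.le⟩⟩
  · obtain ⟨h1, h2, h3⟩ := h
    rcases le_total u.2 0 with a | a
    · exact ⟨h0, Or.inl ⟨a, by linarith⟩⟩
    · rcases le_total u.2 L with b | b
      · exact ⟨h0, Or.inr (Or.inl ⟨a, b, h3.le⟩)⟩
      · exact ⟨h0, Or.inr (Or.inr ⟨b, by linarith⟩)⟩
  · exact ⟨h0, Or.inr (Or.inr ⟨h.1.le, h.2.le⟩)⟩

namespace MD

variable {m : ℕ} (D : MD m)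

theorem rat {v : WW m} (h : v ∈ D.N) :
    Rat D.Λ (rho D.q (D.ki v).1) (r2 D.η D.δ (D.uu v)) := by
  obtain ⟨h1, h2, h3⟩ := D.hγ.mem _ h
  obtain ⟨a1, a2, a3⟩ := M4_r2 D.pη (by linarith [D.lη]) h1
  have a4 := mul_le_mul_of_nonneg_left a3 (zero_le_one.trans D.hγ.one)
  refine ⟨rho_nonneg D.hq _, a1, ?_, ?_⟩ <;> rw [D.hΛ]
  · change r2 D.η D.δ (D.γ (pr D.q (D.ki v))) ≤ 2 * D.C * (pr D.q (D.ki v)).1
    linarith
  · change (pr D.q (D.ki v)).1 ≤ 2 * D.C * r2 D.η D.δ (D.γ (pr D.q (D.ki v)))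
    linarith

theorem rho_rd {v : WW m} (h : v ∈ D.N) : rho D.q (D.rd v) = r2 D.η D.δ (D.uu v) := by
  exact rho_rad D.hq D.pΛ.le (D.rat h)

theorem pl_r2 : PL (r2 D.η D.δ) := by
  have h1 : PL (e1 D.η) :=
    (((plOn_const D.η _).sub (plOn_fst _)).sub ((plOn_snd _).max (plOn_const 0 _))).max
      (plOn_const 0 _)
  have h2 : PL fun u => ca D.η (e1 D.η u) :=
    (plOn_const 1 _).sub ((h1.const_mul 4).div_const D.η)
  have h3 : PL fun u : ℝ × ℝ => cb D.δ u.2 :=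
    ((((plOn_snd _).const_mul 2).div_const D.δ).add (plOn_const 1 _)).clamp (plOn_const 1 _)
  exact ((plOn_fst _).add h1).sub (((plOn_const 1 _).sub (h2.abs.max h3.abs)).const_mul _)

theorem GG {v : WW m} (h : v ∈ D.A) : D.G v ∈ D.Sb ∧ D.G' (D.G v) = v := by
  have hN := D.sN (D.sA h)
  have h0 : D.uu v ∈ targO D.η D.δ := h
  have e1 : D.ko (D.G v) = (D.rd v, (D.uu v).2) := D.ho.plh.right _
  have e2 : pr D.q (D.ko (D.G v)) = D.uu v := by
    rw [e1]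
    exact Prod.ext ((D.rho_rd hN).trans (M4_r2O h0.2.2.2.le)) rfl
  have e3 : D.γ' (D.uu v) = pr D.q (D.ki v) := D.hγ.plh.left _
  refine ⟨show pr D.q (D.ko (D.G v)) ∈ targO D.η D.δ from e2 ▸ h0, ?_⟩
  rw [G', e2, e3, e1]
  refine Eq.trans (congrArg D.ki' ?_) (D.hi.plh.left v)
  exact Prod.ext (rad_rad D.hq D.pΛ.le (D.rat hN)) rfl

theorem GG' {u : WW m} (h : u ∈ D.Sb) : D.G' u ∈ D.A ∧ D.G (D.G' u) = u := by
  have h0 : pr D.q (D.ko u) ∈ targO D.η D.δ := h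
  have h1 := M4_prof (by linarith [D.lη]) D.pδ.le (D.hγ.bwd _ h0)
  obtain ⟨-, h2, h3⟩ := D.hγ.mem _ h1
  rw [D.hγ.plh.right] at h2 h3
  have hC := zero_le_one.trans D.hγ.one
  have hr : Rat D.Λ (rho D.q (D.ko u).1) (D.γ' (pr D.q (D.ko u))).1 := by
    have a1 := mul_nonneg hC h0.1
    have a2 := mul_nonneg hC h1.1
    refine ⟨h0.1, h1.1, ?_, ?_⟩ <;> rw [D.hΛ]
    · change _ ≤ 2 * D.C * (pr D.q (D.ko u)).1
      linarith
    · change (pr D.q (D.ko u)).1 ≤ _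
      linarith
  have e1 : D.ki (D.G' u) = (rad D.q D.Λ (D.ko u).1 (D.γ' (pr D.q (D.ko u))).1,
      (D.γ' (pr D.q (D.ko u))).2) := D.hi.plh.right _
  have e2 : D.uu (D.G' u) = pr D.q (D.ko u) := by
    rw [uu, e1]
    refine Eq.trans (congrArg D.γ ?_) (D.hγ.plh.right (pr D.q (D.ko u)))
    exact Prod.ext (rho_rad D.hq D.pΛ.le hr) rfl
  refine ⟨show D.uu (D.G' u) ∈ targO D.η D.δ from e2 ▸ h0, ?_⟩
  rw [G, rd, e2, e1, M4_r2O h0.2.2.2.le]
  refine Eq.trans (congrArg D.ko' ?_) (D.ho.plh.left u)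
  exact Prod.ext (rad_rad D.hq D.pΛ.le hr) rfl

/-- The middle map. -/
def M4_Φ (w : WW m) : WW m :=
  (rad D.q D.Λ w.1 (r2 D.η D.δ (D.γ (pr D.q w))), (D.γ (pr D.q w)).2)

theorem M4_open : IsOpen (rot D.q (D.γ ⁻¹' targO D.η D.δ)) := by
  have e : rot D.q (D.γ ⁻¹' targO D.η D.δ) = D.ki' ⁻¹' D.A := by
    ext w
    rw [A, mem_preimage, mem_preimage, D.hi.plh.right]
  rw [e]
  exact D.oA.preimage D.hi.plh.pl'.continuous

theorem M4_det : ∀ᶠ w in gen (WW m), w ∈ rot D.q (D.γ ⁻¹' targO D.η D.δ) →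
    LocAff D.M4_Φ w ∧ 0 < (fderiv ℝ D.M4_Φ w).det := by
  have hR : PL fun u => r2 D.η D.δ (D.γ u) := D.pl_r2.comp D.hγ.plh.pl
  have h1 : PL fun w : WW m => rad D.q D.Λ w.1 (r2 D.η D.δ (D.γ (pr D.q w))) :=
    pl_rad D.q D.Λ (plOn_fst _) (hR.comp (pl_pr D.q))
  have h2 : PL D.M4_Φ := h1.prodMk (D.hγ.plh.pl.comp (pl_pr D.q)).snd
  have h3 := rad_det (by omega) D.hq D.pΛ.le hR D.M4_open fun w hw => by
    have hA : D.ki' w ∈ D.A := by rwa [A, mem_preimage, D.hi.plh.right]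
    have := D.rat (D.sN (D.sA hA))
    rwa [uu, D.hi.plh.right] at this
  have h4 := gen_pr (by omega) D.hq (D.hγ.plh.pl.gen_locAff.and D.hγ.plh.pos)
  filter_upwards [h1.gen_locAff, h2.gen_locAff, h3, h4, (pl_pr D.q).gen_locAff]
    with w a1 a2 a3 ⟨a4, a5⟩ a6 hw
  refine ⟨a2, ?_⟩
  obtain ⟨c, hc, e⟩ := a3 hw
  have d1 := a4.differentiableAt.hasFDerivAt
  have e1 : fderiv ℝ D.M4_Φ w = _ := (a1.differentiableAt.hasFDerivAt.prodMk
    (d1.snd.comp w a6.differentiableAt.hasFDerivAt)).fderiv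
  have e2 : fderiv ℝ (fun u => r2 D.η D.δ (D.γ u)) (pr D.q w) =
      (ContinuousLinearMap.fst ℝ ℝ ℝ).comp (fderiv ℝ D.γ (pr D.q w)) := by
    refine Eq.trans (Filter.EventuallyEq.fderiv_eq ?_) d1.fst.fderiv
    have c1 := D.hγ.plh.pl.continuous
    have c2 : Continuous fun u => (D.γ u).1 + max (D.γ u).2 0 := by fun_prop
    exact (c2.continuousAt.eventually_const_lt hw.2.2.2).mono fun u hu => M4_r2O hu.le
  have e3 : ((ContinuousLinearMap.fst ℝ ℝ ℝ).comp (fderiv ℝ D.γ (pr D.q w))).prod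
      ((ContinuousLinearMap.snd ℝ ℝ ℝ).comp (fderiv ℝ D.γ (pr D.q w))) =
      fderiv ℝ D.γ (pr D.q w) := ContinuousLinearMap.ext fun _ => rfl
  rw [e1, e, e2, e3]
  exact mul_pos hc a5

theorem M4_pos : ∀ᶠ v in gen (WW m), v ∈ D.A → LocAff D.G v ∧ 0 < (fderiv ℝ D.G v).det := by
  have h1 := gen_pull (φ := D.M4_Φ) (p := fun z => LocAff D.ko' z ∧ 0 < (fderiv ℝ D.ko' z).det)
    D.M4_open (D.M4_det.mono fun w h hw => ⟨(h hw).1, (bij_of_det (h hw).2.ne').2⟩)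
    (D.ho.plh.pl'.gen_locAff.and D.ho.plh.symm.pos)
  have eG : D.G = fun x => D.ko' (D.M4_Φ (D.ki x)) := rfl
  filter_upwards [D.hi.plh.gen_pull h1, D.hi.plh.gen_pull D.M4_det, D.hi.plh.pl.gen_locAff,
    D.hi.plh.pos] with v a1 a2 a3 a4 hv
  obtain ⟨b1, b2⟩ := a1 hv
  obtain ⟨b3, b4⟩ := a2 hv
  have b5 : LocAff (fun x => D.M4_Φ (D.ki x)) v := LocAff.comp (k := D.M4_Φ) (f := D.ki) b3 a3
  rw [eG, LocAff.fderiv_comp (k := D.ko') (f := fun x => D.M4_Φ (D.ki x)) b1 b5,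
    LocAff.fderiv_comp (k := D.M4_Φ) (f := D.ki) b3 a3, det_comp', det_comp']
  exact ⟨LocAff.comp (k := D.ko') (f := fun x => D.M4_Φ (D.ki x)) b1 b5,
    mul_pos b2 (mul_pos b4 a4)⟩

theorem posA {T : ℝ} (hT : D.Big T) : ∀ᶠ v in gen (WW m), v ∈ D.A →
    0 < (fderiv ℝ D.G v).det ∧ (D.Θ T).new.form v = pb (fderiv ℝ D.G v) (w0 m) := by
  filter_upwards [D.M4_pos] with v h hv
  refine ⟨(h hv).2, ?_⟩
  have d := (h hv).1.differentiableAt.hasFDerivAt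
  have hc : ∀ᶠ z in 𝓝 v, ca D.η (e1 D.η (D.uu z)) = 1 ∧ |(D.G z).1.2| ≤ T :=
    (D.oA.eventually_mem hv).mono fun z hz =>
      ⟨by rw [M4_e1 (show D.uu z ∈ targO D.η D.δ from hz).2.2.2.le, M4_ca],
        (hT.2 z (D.sN (D.sA hz))).2⟩
  have l : ∀ θ : B1 (WW m), fderiv ℝ (fun z => θ (D.G z)) v = θ.comp (fderiv ℝ D.G v) :=
    fun θ => (θ.hasFDerivAt.comp v d).fderiv
  have f0 : fderiv ℝ ((D.Θ T).f (Sum.inr 0)) v = (cs m).comp (fderiv ℝ D.G v) := by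
    rw [← l]
    exact congrArg (fderiv ℝ · v) (funext fun z => (D.ko'_snd (D.rd z, (D.uu z).2)).symm)
  have g0 : fderiv ℝ ((D.Θ T).g (Sum.inr 0)) v = (ct m).comp (fderiv ℝ D.G v) := by
    rw [← l]
    refine Filter.EventuallyEq.fderiv_eq (hc.mono fun z hz => ?_)
    change clamp (D.G z).1.2 (T * max (ca D.η (e1 D.η (D.uu z))) 0) = (D.G z).1.2
    rw [hz.1, max_eq_left zero_le_one, mul_one, clamp_of_le hz.2]
  have g1 : fderiv ℝ ((D.Θ T).g (Sum.inr 1)) v = 0 := by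
    refine Eq.trans (Filter.EventuallyEq.fderiv_eq (hc.mono fun z hz => ?_))
      (fderiv_const_apply (0 : ℝ))
    change clamp (D.G z).1.2 (T * max (-ca D.η (e1 D.η (D.uu z))) 0) = 0
    rw [hz.1, max_eq_right (by norm_num), mul_zero, clamp_zero]
  have f2 : fderiv ℝ ((D.Θ T).f (Sum.inr 2)) v = 0 := by
    refine Eq.trans (Filter.EventuallyEq.fderiv_eq (hc.mono fun z hz => ?_))
      (fderiv_const_apply (-(D.L / 6) * 1))
    change -(D.L / 6) * ca D.η (e1 D.η (D.uu z)) = _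
    rw [hz.1]
  have f3 : fderiv ℝ ((D.Θ T).f (Sum.inr 3)) v = 0 := by
    refine Eq.trans (Filter.EventuallyEq.fderiv_eq (hc.mono fun z hz => ?_))
      (fderiv_const_apply (D.L / 6 * 1))
    change D.L / 6 * ca D.η (e1 D.η (D.uu z)) = _
    rw [hz.1]
  change ∑ k : Fin m ⊕ Fin 4,
    wedge (fderiv ℝ ((D.Θ T).f k) v) (fderiv ℝ ((D.Θ T).g k) v) = _
  rw [Fintype.sum_sum_type, Fin.sum_univ_four, f0, g0, g1, f2, f3, wedge_zero_right,
    wedge_zero_left, wedge_zero_left, add_zero, add_zero, add_zero, w0, pb_add, pb_wedge,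
    ← pb_comp, wD_eq_sum]
  refine congrArg (· + _) (Finset.sum_congr rfl fun i _ => ?_)
  exact congrArg₂ wedge (l ((ContinuousLinearMap.proj (Sum.inl i)).comp (cx m)))
    (l ((ContinuousLinearMap.proj (Sum.inr i)).comp (cx m)))

theorem acc {T : ℝ} (hT : D.Big T) : Acc (D.Θ T).new D.A :=
  acc_of_inv D.oA D.oSb D.pl_G D.pl_G' (fun _ h => D.GG h) (fun _ h => D.GG' h) (D.posA hT)

end MD

end Pool.Agent.Work.MP_bf98aa_gt.Pl
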