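import Pool.Agent.Work.MP_bf98aa_gt.Pl.BrD

/-!
The existence theorem with piecewise linear functions.
-/

set_option autoImplicit false

open Set Filter Topology

namespace Pool.Agent.Work.MP_bf98aa_gt.PlSt

theorem plsymp (n : ℕ) (hn : 2 ≤ n) (W T : Type) [Fintype W] [DecidableEq W] [Fintype T]
    (v : T → Fin (2 * n + 1) → W) (hv : Pseudo v) (c : W → W → W → ℝ) (hc : Cocycle v c)
    (hpos : 0 < ∑ τ, pfaff (mat c (v τ))) :
    ∃ (r : ℕ) (f g : Fin r → (W → ℝ) → ℝ), (∀ k, IsPL (space v) (f k) ∧ IsPL (space v) (g k)) ∧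
      ∀ τ, ∀ x ∈ openSimplex (v τ), ∀ a b : Fin r → (W → ℝ) →ᵃ[ℝ] ℝ,
        (∀ k, f k =ᶠ[𝓝[simplex (v τ)] x] a k ∧ g k =ᶠ[𝓝[simplex (v τ)] x] b k) →
        0 < pfaff fun i j => mat c (v τ) i j +
          ∑ k, (dif (a k) (v τ) i * dif (b k) (v τ) j - dif (a k) (v τ) j * dif (b k) (v τ) i) := by
  obtain ⟨m, rfl⟩ : ∃ m, n = m + 1 := ⟨n - 1, by omega⟩
  exact Pl.br_main (by omega) hv hc hpos

end Pool.Agent.Work.MP_bf98aa_gt.PlSt
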