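import Pool.Agent.Work.MP_bf98aa_gt.Pl.Rad

/-!
The explicit functions of the plane profile map and of the cancellation model.
-/

set_option autoImplicit false
set_option maxSynthPendingDepth 3
set_option linter.unusedSectionVars false
set_option linter.unusedVariables false

open Set Filter Topology Metric

noncomputable section
namespace Pool.Agent.Work.MP_bf98aa_gt.Pl

open Pool.Agent.Work.MP_bf98aa_gt.Ns

def s1 (η L δ : ℝ) (u : ℝ × ℝ) : ℝ :=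
  u.2 + clamp (2 * (1 + 2 * δ) / L * (u.2 - L / 2)) (max (u.1 - η) 0 / 2)

def AA (η σ : ℝ) : ℝ := max σ (2 * σ - η)

/-- The width of the profile at height `σ` after the first shear. -/
def RR (η L δ σ : ℝ) : ℝ :=
  min (AA η (1 + σ)) (min (max (η - 2 * σ) (max η (η + 2 * (σ - L)))) (AA η (L + 1 + 2 * δ - σ)))

/-- The first coordinate of the boundary arc of the straightened target. -/
def lb (η L δ σ : ℝ) : ℝ :=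
  AA η (1 + min σ 0) + e10 η L σ + 4 * vb δ L σ +
    (AA η (L + 1 + 2 * δ - max σ L) - AA η (1 + 2 * δ))

def tl (δ : ℝ) (u : ℝ × ℝ) : ℝ :=
  u.2 + clamp ((δ / 2 - u.2) / 2) (δ / (8 * (2 + 4 * δ)) * max u.1 0)

def al (η L δ σ : ℝ) : ℝ :=
  tl δ (lb η L δ σ, vb δ L σ) + min (σ + 1) 0 + max (σ - (L + 1 + 2 * δ)) 0

def psiC (u : ℝ × ℝ) : ℝ × ℝ :=
  (u.1 + 2 * max (1 - u.1 - 2 * u.2) 0, u.1 + u.2 - 1 + max (1 - u.1 - 2 * u.2) 0)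

/-- The straightened target. -/
def quad (η δ : ℝ) : Set (ℝ × ℝ) :=
  {u | 0 ≤ u.1 ∧ 0 ≤ u.2 ∧ u.2 ≤ δ ∧ u.1 ≤ 2 - η / 2 + 4 * u.2}

/-- Its boundary arc. -/
def arc (η δ : ℝ) : Set (ℝ × ℝ) :=
  {u | u ∈ quad η δ ∧ (u.2 = 0 ∨ u.2 = δ ∨ u.1 = 2 - η / 2 + 4 * u.2)}

def e1 (η : ℝ) (u : ℝ × ℝ) : ℝ := max (η - u.1 - max u.2 0) 0

def ca (η e : ℝ) : ℝ := 1 - 4 * e / η

def cb (δ s : ℝ) : ℝ := clamp (2 * s / δ + 1) 1

def r2 (η δ : ℝ) (u : ℝ × ℝ) : ℝ :=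
  u.1 + e1 η u - η / 2 * (1 - max |ca η (e1 η u)| |cb δ u.2|)

def phi (a b : ℝ) : Fin 4 → ℝ := ![max a 0, max (-a) 0, max b 0, max (-b) 0]

def gee (L s a b : ℝ) : Fin 4 → ℝ := ![s, -(L / 6) * b, -(L / 6) * a, L / 6 * a]

/-- The data of the cancellation model. -/
structure MD (m : ℕ) where
  q : Sx (YY m) (2 * m + 1)
  δ : ℝ
  δ' : ℝ
  L : ℝ
  η0 : ℝ
  η : ℝ
  Λ : ℝ
  C : ℝ
  kf : YY m → YY m
  kf' : YY m → YY m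
  ki : WW m → WW m
  ki' : WW m → WW m
  ko : WW m → WW m
  ko' : WW m → WW m
  γ : ℝ × ℝ → ℝ × ℝ
  γ' : ℝ × ℝ → ℝ × ℝ
  hq : Cen q
  pδ : 0 < δ
  pδ' : 0 < δ'
  lδ' : δ' < L
  pη : 0 < η
  lη : η ≤ 1 / 16
  plf : IsPLH kf kf'
  sgn : ∀ᶠ y in gen (YY m), rho q (kf y) ≤ η →
    0 < y.2 * fderiv ℝ (fun y => rho q (kf y)) y (0, 1)
  sm : ∀ y, rho q (kf y) ≤ 2 * η → ‖y‖ ≤ η0
  hi : KapOK q kf 0 L ki ki'
  ho : KapOK q kf (-δ) 0 ko ko'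
  hγ : IsProf η L δ C γ γ'
  hΛ : 1 + Λ = 2 * C

namespace MD

variable {m : ℕ} (D : MD m)

def N : Set (WW m) := D.ki ⁻¹' rot D.q (prof D.η D.L D.L (D.L + 1 + 2 * D.δ))

def No : Set (WW m) := D.ki ⁻¹' rot D.q (profO D.η D.L D.L (D.L + 1 + 2 * D.δ))

def Np : Set (WW m) :=
  D.ki ⁻¹' rot D.q (prof (2 * D.η) D.L (D.L - D.δ') (D.L + 1 + 2 * D.δ + D.δ'))

def Npo : Set (WW m) :=
  D.ki ⁻¹' rot D.q (profO (2 * D.η) D.L (D.L - D.δ') (D.L + 1 + 2 * D.δ + D.δ'))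

def A : Set (WW m) := D.ki ⁻¹' rot D.q (D.γ ⁻¹' targO D.η D.δ)

def Sb : Set (WW m) := D.ko ⁻¹' rot D.q (targO D.η D.δ)

def uu (v : WW m) : ℝ × ℝ := D.γ (pr D.q (D.ki v))

def rd (v : WW m) : YY m := rad D.q D.Λ (D.ki v).1 (r2 D.η D.δ (D.uu v))

def G (v : WW m) : WW m := D.ko' (D.rd v, (D.uu v).2)

def G' (u : WW m) : WW m :=
  D.ki' (rad D.q D.Λ (D.ko u).1 (D.γ' (pr D.q (D.ko u))).1, (D.γ' (pr D.q (D.ko u))).2)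

def Θ (T : ℝ) : Pot2 (WW m) where
  κ := Fin m ⊕ Fin 4
  fin := inferInstance
  f := Sum.elim (fun i v => (D.G v).1.1 (Sum.inl i)) fun i v =>
    gee D.L (D.uu v).2 (ca D.η (e1 D.η (D.uu v))) (cb D.δ (D.uu v).2) i
  g := Sum.elim (fun i v => (D.G v).1.1 (Sum.inr i)) fun i v =>
    clamp (D.G v).1.2 (T * phi (ca D.η (e1 D.η (D.uu v))) (cb D.δ (D.uu v).2) i)
  f0 := Sum.elim (fun i v => v.1.1 (Sum.inl i)) fun i v =>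
    gee D.L (s0 D.δ D.L v.2) (ca D.η (e10 D.η D.L v.2)) (cb D.δ (s0 D.δ D.L v.2)) i
  g0 := Sum.elim (fun i v => v.1.1 (Sum.inr i)) fun i v =>
    clamp v.1.2 (T * phi (ca D.η (e10 D.η D.L v.2)) (cb D.δ (s0 D.δ D.L v.2)) i)

/-- The constant `T` is large enough. -/
def Big (T : ℝ) : Prop := 0 < T ∧ ∀ v ∈ D.N, |v.1.2| ≤ T ∧ |(D.G v).1.2| ≤ T

end MD

end Pool.Agent.Work.MP_bf98aa_gt.Pl
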