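import Pool.Agent.Work.MP_bf98aa_gt.Pl.Defs

/-!
Closure properties of piecewise linear maps. All by the definition: continuity, and the finite set of pieces is an image of a product of finite sets
(Set.Finite.image2, Set.Finite.image, Set.Finite.union). comp and prodMk first; add, sub, smul etc. are compositions with continuous linear maps;
max: the pieces are the union. pi and sum by induction on a Finset (or pi from sum with Pi.single). plOn_of_local: finite subcover.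
-/

set_option autoImplicit false
set_option maxSynthPendingDepth 3
set_option linter.unusedSectionVars false
set_option linter.unusedVariables false

open Set Filter Topology Metric

noncomputable section
namespace Pool.Agent.Work.MP_bf98aa_gt.Pl

open Pool.Agent.Work.MP_bf98aa_gt.Ns

variable {V V' F F' : Type} [NormedAddCommGroup V] [NormedSpace ℝ V] [NormedAddCommGroup V']
  [NormedSpace ℝ V'] [NormedAddCommGroup F] [NormedSpace ℝ F] [NormedAddCommGroup F']
  [NormedSpace ℝ F']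
  {S S' : Set V} {f g : V → F}

theorem PLOn.continuousOn (h : PLOn S f) : ContinuousOn f S := h.1

theorem PL.continuous (h : PL f) : Continuous f := continuousOn_univ.1 h.1

theorem PLOn.mono (h : PLOn S f) (hs : S' ⊆ S) : PLOn S' f := by
  obtain ⟨c, 𝒜, h1, h2⟩ := h
  exact ⟨c.mono hs, 𝒜, h1, fun x hx => h2 x (hs hx)⟩

theorem PL.plOn (h : PL f) (S : Set V) : PLOn S f := h.mono (subset_univ S)

theorem PLOn.congr (h : PLOn S f) (e : ∀ x ∈ S, g x = f x) : PLOn S g := by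
  obtain ⟨c, 𝒜, h1, h2⟩ := h
  exact ⟨c.congr e, 𝒜, h1, fun x hx => e x hx ▸ h2 x hx⟩

theorem plOn_aff (A : V →ᴬ[ℝ] F) (S : Set V) : PLOn S A :=
  ⟨A.continuous.continuousOn, {A}, finite_singleton A, fun x _ => ⟨A, rfl, rfl⟩⟩

theorem plOn_clm (A : V →L[ℝ] F) (S : Set V) : PLOn S A :=
  plOn_aff A.toContinuousAffineMap S

theorem plOn_const (c : F) (S : Set V) : PLOn S fun _ => c :=
  plOn_aff (ContinuousAffineMap.const ℝ V c) S

theorem plOn_id (S : Set V) : PLOn S fun x => x :=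
  plOn_aff (ContinuousAffineMap.id ℝ V) S

theorem PLOn.comp {T : Set F} {k : F → F'} (hk : PLOn T k) (hf : PLOn S f) (hm : MapsTo f S T) :
    PLOn S fun x => k (f x) := by
  obtain ⟨c, 𝒜, h1, h2⟩ := hk
  obtain ⟨c', ℬ, k1, k2⟩ := hf
  refine ⟨c.comp c' hm, _, h1.image2 (fun A B => A.comp B) k1, fun x hx => ?_⟩
  obtain ⟨A, a1, a2⟩ := h2 _ (hm hx)
  obtain ⟨B, b1, b2⟩ := k2 x hx
  exact ⟨_, mem_image2_of_mem a1 b1, a2.trans (congrArg A b2)⟩

theorem PL.comp {k : F → F'} (hk : PL k) (hf : PLOn S f) : PLOn S fun x => k (f x) :=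
  PLOn.comp hk hf (mapsTo_univ _ _)

theorem PLOn.prodMk {k : V → F'} (hf : PLOn S f) (hk : PLOn S k) : PLOn S fun x => (f x, k x) := by
  obtain ⟨c, 𝒜, h1, h2⟩ := hf
  obtain ⟨c', ℬ, k1, k2⟩ := hk
  refine ⟨c.prodMk c', _, h1.image2 (fun A B => A.prod B) k1, fun x hx => ?_⟩
  obtain ⟨A, a1, a2⟩ := h2 x hx
  obtain ⟨B, b1, b2⟩ := k2 x hx
  exact ⟨_, mem_image2_of_mem a1 b1, Prod.ext a2 b2⟩

theorem PLOn.fst {k : V → F × F'} (h : PLOn S k) : PLOn S fun x => (k x).1 :=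
  PL.comp (plOn_clm (ContinuousLinearMap.fst ℝ F F') _) h

theorem PLOn.snd {k : V → F × F'} (h : PLOn S k) : PLOn S fun x => (k x).2 :=
  PL.comp (plOn_clm (ContinuousLinearMap.snd ℝ F F') _) h

theorem plOn_fst (S : Set (F × F')) : PLOn S fun x => x.1 := (plOn_id S).fst

theorem plOn_snd (S : Set (F × F')) : PLOn S fun x => x.2 := (plOn_id S).snd

theorem PLOn.add (hf : PLOn S f) (hg : PLOn S g) : PLOn S fun x => f x + g x :=
  PL.comp (plOn_clm (ContinuousLinearMap.fst ℝ F F + ContinuousLinearMap.snd ℝ F F) _)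
    (hf.prodMk hg)

theorem PLOn.sub (hf : PLOn S f) (hg : PLOn S g) : PLOn S fun x => f x - g x :=
  PL.comp (plOn_clm (ContinuousLinearMap.fst ℝ F F - ContinuousLinearMap.snd ℝ F F) _)
    (hf.prodMk hg)

theorem PLOn.neg (hf : PLOn S f) : PLOn S fun x => -f x :=
  PL.comp (plOn_clm (-ContinuousLinearMap.id ℝ F) _) hf

theorem PLOn.const_smul (hf : PLOn S f) (c : ℝ) : PLOn S fun x => c • f x :=
  PL.comp (plOn_clm (c • ContinuousLinearMap.id ℝ F) _) hf

theorem PLOn.smul_const {u : V → ℝ} (hu : PLOn S u) (c : F) : PLOn S fun x => u x • c :=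
  PL.comp (plOn_clm ((ContinuousLinearMap.id ℝ ℝ).smulRight c) _) hu

theorem PLOn.const_mul {u : V → ℝ} (hu : PLOn S u) (c : ℝ) : PLOn S fun x => c * u x :=
  hu.const_smul c

theorem PLOn.mul_const {u : V → ℝ} (hu : PLOn S u) (c : ℝ) : PLOn S fun x => u x * c :=
  hu.smul_const c

theorem PLOn.div_const {u : V → ℝ} (hu : PLOn S u) (c : ℝ) : PLOn S fun x => u x / c :=
  (hu.mul_const c⁻¹).congr fun x _ => div_eq_mul_inv _ _

theorem PLOn.max {u u' : V → ℝ} (hu : PLOn S u) (hu' : PLOn S u') :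
    PLOn S fun x => max (u x) (u' x) := by
  obtain ⟨c, 𝒜, h1, h2⟩ := hu
  obtain ⟨c', ℬ, k1, k2⟩ := hu'
  refine ⟨c.sup c', _, h1.union k1, fun x hx => ?_⟩
  rcases max_choice (u x) (u' x) with e | e
  · exact (h2 x hx).imp fun A a => ⟨.inl a.1, e.trans a.2⟩
  · exact (k2 x hx).imp fun A a => ⟨.inr a.1, e.trans a.2⟩

theorem PLOn.min {u u' : V → ℝ} (hu : PLOn S u) (hu' : PLOn S u') :
    PLOn S fun x => min (u x) (u' x) :=
  (hu.neg.max hu'.neg).neg.congr fun x _ => by rw [max_neg_neg, neg_neg]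

theorem PLOn.abs {u : V → ℝ} (hu : PLOn S u) : PLOn S fun x => |u x| :=
  hu.max hu.neg

theorem PLOn.clamp {u u' : V → ℝ} (hu : PLOn S u) (hu' : PLOn S u') :
    PLOn S fun x => clamp (u x) (u' x) :=
  hu'.neg.max (hu'.min hu)

theorem plOn_sum {κ : Type} (t : Finset κ) {k : κ → V → F} (h : ∀ i ∈ t, PLOn S (k i)) :
    PLOn S fun x => ∑ i ∈ t, k i x := by
  classical
  induction t using Finset.induction_on with
  | empty => exact (plOn_const 0 S).congr fun x _ => Finset.sum_empty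
  | insert i t hi ih =>
    exact ((h i (Finset.mem_insert_self _ _)).add (ih fun j hj =>
      h j (Finset.mem_insert_of_mem hj))).congr fun x _ => Finset.sum_insert hi

theorem plOn_sup' {κ : Type} (t : Finset κ) (ht : t.Nonempty) {k : κ → V → ℝ}
    (h : ∀ i ∈ t, PLOn S (k i)) : PLOn S fun x => t.sup' ht fun i => k i x := by
  induction ht using Finset.Nonempty.cons_induction with
  | singleton i => exact (h i (Finset.mem_singleton_self i)).congr fun x _ => Finset.sup'_singleton _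
  | cons i t hi ht ih =>
    exact ((h i (Finset.mem_cons_self _ _)).max (ih fun j hj =>
      h j (Finset.mem_cons_of_mem hj))).congr fun x _ => Finset.sup'_cons ht _

theorem plOn_pi {κ : Type} [Fintype κ] {k : V → κ → ℝ} (h : ∀ i, PLOn S fun x => k x i) :
    PLOn S k := by
  classical
  exact (plOn_sum Finset.univ fun i _ => (h i).smul_const (Pi.single i (1 : ℝ) : κ → ℝ)).congr
    fun x _ => pi_eq_sum_univ' (k x)

theorem PLOn.apply {κ : Type} [Fintype κ] {k : V → κ → ℝ} (h : PLOn S k) (i : κ) :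
    PLOn S fun x => k x i :=
  PL.comp (plOn_clm (ContinuousLinearMap.proj (R := ℝ) (φ := fun _ : κ => ℝ) i) _) h

theorem PLa_union (hc : ContinuousOn f (S ∪ S')) (h : PLOn S f) (h' : PLOn S' f) :
    PLOn (S ∪ S') f := by
  obtain ⟨-, 𝒜, h1, h2⟩ := h
  obtain ⟨-, ℬ, k1, k2⟩ := h'
  exact ⟨hc, _, h1.union k1, fun x hx => hx.elim
    (fun k => (h2 x k).imp fun A a => ⟨.inl a.1, a.2⟩)
    fun k => (k2 x k).imp fun A a => ⟨.inr a.1, a.2⟩⟩

theorem PLOn.union (hS : IsClosed S) (hS' : IsClosed S') (h : PLOn S f) (h' : PLOn S' f) :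
    PLOn (S ∪ S') f :=
  PLa_union (h.1.union_of_isClosed h'.1 hS hS') h h'

theorem PLOn.union_open (hS : IsOpen S) (hS' : IsOpen S') (h : PLOn S f) (h' : PLOn S' f) :
    PLOn (S ∪ S') f :=
  PLa_union (h.1.union_of_isOpen h'.1 hS hS') h h'

theorem plOn_ite {l : V → ℝ} (hl : ContinuousOn l S) (hf : PLOn (S ∩ {x | l x ≤ 0}) f)
    (hg : PLOn (S ∩ {x | 0 ≤ l x}) g) (e : ∀ x ∈ S, l x = 0 → f x = g x) :
    PLOn S fun x => if l x ≤ 0 then f x else g x := by
  have e1 : ∀ x ∈ S ∩ {x | l x ≤ 0}, (if l x ≤ 0 then f x else g x) = f x := fun x hx => if_pos hx.2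
  have e2 : ∀ x ∈ S ∩ {x | 0 ≤ l x}, (if l x ≤ 0 then f x else g x) = g x := fun x hx => by
    split_ifs with k
    exacts [e x hx.1 (le_antisymm k hx.2), rfl]
  have cov : S ⊆ S ∩ {x | l x ≤ 0} ∪ S ∩ {x | 0 ≤ l x} := fun x hx =>
    (le_total (l x) 0).imp (fun k => ⟨hx, k⟩) fun k => ⟨hx, k⟩
  have key : ∀ {T : Set ℝ}, IsClosed T → ∀ {φ : V → F}, ContinuousOn φ (S ∩ l ⁻¹' T) → ∀ x ∈ S,
      ContinuousWithinAt φ (S ∩ l ⁻¹' T) x := fun {T} hT φ hφ x hx => by
    by_cases k : l x ∈ T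
    · exact hφ x ⟨hx, k⟩
    · refine continuousWithinAt_of_notMem_closure fun c => k ?_
      exact hT.closure_subset (((hl x hx).mono inter_subset_left).mem_closure c fun y hy => hy.2)
  refine (PLa_union (fun x hx => ?_) (hf.congr e1) (hg.congr e2)).mono cov
  have hx' : x ∈ S := hx.elim (·.1) (·.1)
  exact (key isClosed_Iic (hf.congr e1).1 x hx').union (key isClosed_Ici (hg.congr e2).1 x hx')

theorem plOn_of_local (hS : IsCompact S) (h : ∀ x ∈ S, ∃ U ∈ 𝓝[S] x, PLOn U f) : PLOn S f := by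
  choose! U hU hP using h
  obtain ⟨t, ht, hc⟩ := hS.elim_nhdsWithin_subcover U hU
  choose! 𝒜 h1 h2 using fun x hx => (hP x hx).2
  refine ⟨fun x hx => ((hP x hx).1 x (mem_of_mem_nhdsWithin hx (hU x hx))).mono_of_mem_nhdsWithin
    (hU x hx), ⋃ x ∈ t, 𝒜 x, t.finite_toSet.biUnion fun x hx => h1 x (ht x hx), fun x hx => ?_⟩
  obtain ⟨y, hy, k⟩ := mem_iUnion₂.1 (hc hx)
  exact (h2 y (ht y hy) x k).imp fun A a => ⟨mem_iUnion₂.2 ⟨y, hy, a.1⟩, a.2⟩

theorem clamp_of_le {u b : ℝ} (h : |u| ≤ b) : clamp u b = u := by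
  rw [clamp, min_eq_right (abs_le.1 h).2, max_eq_right (abs_le.1 h).1]

theorem clamp_zero (u : ℝ) : clamp u 0 = 0 := by
  rw [clamp, neg_zero, max_eq_left (min_le_left _ _)]

theorem zero_clamp {b : ℝ} (hb : 0 ≤ b) : clamp 0 b = 0 :=
  clamp_of_le (abs_zero.trans_le hb)

theorem clamp_top {u b : ℝ} (hb : 0 ≤ b) (h : b ≤ u) : clamp u b = b := by
  rw [clamp, min_eq_left h, max_eq_right (neg_le_self hb)]

theorem clamp_bot {u b : ℝ} (hb : 0 ≤ b) (h : u ≤ -b) : clamp u b = -b :=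
  max_eq_left ((min_le_right _ _).trans h)

theorem abs_clamp_le {u b : ℝ} (hb : 0 ≤ b) : |clamp u b| ≤ b :=
  abs_le.2 ⟨le_max_left _ _, max_le (neg_le_self hb) (min_le_left _ _)⟩

end Pool.Agent.Work.MP_bf98aa_gt.Pl
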