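import Pool.Agent.Work.MP_bf98aa_gt.Pl.PLa

/-!
Generic properties and locally affine maps. A property holds in gen V iff the interior of its set is dense (this is the definition: Filter.Eventually unfolds to Dense (interior {y | p y})).
gen_locAff: U is covered by the finitely many relatively closed sets {f = A}; in every nonempty open subset of U one of them has interior (finite union of closed sets with empty interior: induction, or
a Baire-free argument: choose a point with the smallest number of active pieces). active: keep only the pieces that are active on some open subset; the set of points having such a piece is relatively closed and dense.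
gen_pull: near a good point phi is a surjective affine map, hence open (ContinuousLinearMap.isOpenMap, finite dimension), so the preimage of an open dense set is dense there.
halfball: for two pieces A, A' that do not agree on the hyperplane l = 0 the set where they agree is a proper affine subspace of it; choose z' on the hyperplane off all these (parametrise the hyperplane by y - (l y) u with
l.contLinear u = 1 and use gen in V); in a small ball round z' two pieces that agree at a point with l y < 0 are equal; each open half ball is convex, so preconnected, so one piece is active on it; closure by continuity.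
-/

set_option autoImplicit false
set_option maxSynthPendingDepth 3
set_option linter.unusedSectionVars false
set_option linter.unusedVariables false

open Set Filter Topology Metric

noncomputable section
namespace Pool.Agent.Work.MP_bf98aa_gt.Pl

open Pool.Agent.Work.MP_bf98aa_gt.Ns

variable {V V' F F' : Type} [NormedAddCommGroup V] [NormedSpace ℝ V] [NormedAddCommGroup V']
  [NormedSpace ℝ V'] [NormedAddCommGroup F] [NormedSpace ℝ F] [NormedAddCommGroup F']
  [NormedSpace ℝ F']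
  {U : Set V} {f : V → F} {p : V → Prop}

theorem gen_iff {X : Type} [TopologicalSpace X] {p : X → Prop} :
    (∀ᶠ y in gen X, p y) ↔ Dense (interior {y | p y}) := Iff.rfl

theorem gen_nhds {X : Type} [TopologicalSpace X] {p : X → Prop} (h : ∀ᶠ y in gen X, p y) :
    ∀ᶠ y in gen X, ∀ᶠ z in 𝓝 y, p z := by
  rw [gen_iff] at h ⊢
  exact h.mono (interior_maximal (fun y hy => mem_interior_iff_mem_nhds.1 hy) isOpen_interior)

theorem gen_exists {X : Type} [TopologicalSpace X] {p : X → Prop} (h : ∀ᶠ y in gen X, p y)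
    {U : Set X} (hU : IsOpen U) (hne : U.Nonempty) : ∃ y ∈ U, ∀ᶠ z in 𝓝 y, p z := by
  obtain ⟨y, h1, h2⟩ := (gen_iff.1 h).inter_open_nonempty U hU hne
  exact ⟨y, h1, mem_interior_iff_mem_nhds.1 h2⟩

theorem gen_of_exists {X : Type} [TopologicalSpace X] {p : X → Prop} {U : Set X} (hU : IsOpen U)
    (h : ∀ O ⊆ U, IsOpen O → O.Nonempty → ∃ y ∈ O, ∀ᶠ z in 𝓝 y, p z) :
    ∀ᶠ y in gen X, y ∈ U → p y := by
  refine gen_iff.2 (dense_iff_inter_open.2 fun O hO hne => ?_)
  rcases (O ∩ U).eq_empty_or_nonempty with e | hn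
  · obtain ⟨y, hy⟩ := hne
    exact ⟨y, hy, mem_interior_iff_mem_nhds.2 (mem_of_superset (hO.mem_nhds hy) fun z hz hz' =>
      (eq_empty_iff_forall_notMem.1 e z ⟨hz, hz'⟩).elim)⟩
  · obtain ⟨y, hy, hp⟩ := h _ inter_subset_right (hO.inter hU) hn
    exact ⟨y, hy.1, mem_interior_iff_mem_nhds.2 (hp.mono fun z hz _ => hz)⟩

theorem gen_local {X : Type} [TopologicalSpace X] {p : X → Prop} {U : Set X} (hU : IsOpen U)
    (h : ∀ x ∈ U, ∃ O ∈ 𝓝 x, ∀ᶠ y in gen X, y ∈ O → p y) : ∀ᶠ y in gen X, y ∈ U → p y := by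
  refine gen_of_exists hU fun O' hO' ho ⟨x, hx⟩ => ?_
  obtain ⟨O, hO, hp⟩ := h x (hO' hx)
  obtain ⟨y, hy, hq⟩ := gen_exists hp (ho.inter isOpen_interior)
    ⟨x, hx, mem_interior_iff_mem_nhds.2 hO⟩
  exact ⟨y, hy.1, hq.mp (mem_of_superset (mem_interior_iff_mem_nhds.1 hy.2) fun z hz hz' => hz' hz)⟩

theorem gen_closed {X : Type} [TopologicalSpace X] {C : Set X} (hC : IsClosed C) :
    ∀ᶠ y in gen X, y ∈ C → y ∈ interior C := by
  refine (gen_of_exists isOpen_univ fun O _ hO ⟨x, hx⟩ => ?_).mono fun y hy => hy (mem_univ y)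
  by_cases h : O ⊆ C
  · exact ⟨x, hx, mem_of_superset (hO.mem_nhds hx) fun z hz _ => interior_maximal h hO hz⟩
  · obtain ⟨y, hy, hy'⟩ := not_subset.1 h
    exact ⟨y, hy, mem_of_superset (hC.isOpen_compl.mem_nhds hy') fun z hz hz' => (hz hz').elim⟩

theorem gen_open {X : Type} [TopologicalSpace X] {U : Set X} (hU : IsOpen U) :
    ∀ᶠ y in gen X, y ∈ closure U → y ∈ U := by
  refine (gen_closed hU.isClosed_compl).mono fun y hy h => by_contra fun h' => ?_
  have := hy h'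
  rw [interior_compl] at this
  exact this h

theorem PLb_add (A : V →ᴬ[ℝ] F) (y u : V) (t : ℝ) : A (y + t • u) = A y + t • A.contLinear u := by
  rw [add_comm, add_comm (A y), ← map_smul]
  exact A.map_vadd y (t • u)

theorem PLb_line (y u : V) : Tendsto (fun t : ℝ => y + t • u) (𝓝 0) (𝓝 y) :=
  Continuous.tendsto' (by fun_prop) 0 y (by simp)

theorem PLb_dense {C : Set V} (hC : IsClosed C)
    (h : ∀ y ∈ C, ∃ u : V, ∀ t : ℝ, t ≠ 0 → y + t • u ∉ C) : ∀ᶠ y in gen V, y ∉ C := by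
  refine (gen_closed hC).mono fun y hy hy' => ?_
  obtain ⟨u, hu⟩ := h y hy'
  obtain ⟨t, h1, h2⟩ := (((PLb_line y u).eventually
    (mem_interior_iff_mem_nhds.1 (hy hy'))).filter_mono
    (nhdsWithin_le_nhds (s := {0}ᶜ))).and self_mem_nhdsWithin |>.exists
  exact hu t h2 h1

theorem PLb_aff_ne (A : V →ᴬ[ℝ] F) (h : ∃ y, A y ≠ 0) : ∀ᶠ y in gen V, A y ≠ 0 := by
  obtain ⟨x, hx⟩ := h
  refine PLb_dense (C := {y | A y = 0}) (isClosed_eq A.continuous continuous_const)
    fun y hy => ⟨x - y, fun t ht h => hx ?_⟩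
  have h1 := PLb_add A y (x - y) 1
  rw [mem_ofPred_eq, PLb_add, show A y = 0 from hy, zero_add] at h
  rw [(smul_eq_zero.1 h).resolve_left ht, show A y = 0 from hy] at h1
  simpa using h1

theorem gen_ne (l : V →ᴬ[ℝ] ℝ) (hl : l.contLinear ≠ 0) : ∀ᶠ y in gen V, l y ≠ 0 := by
  refine PLb_aff_ne l (by_contra fun h => hl ?_)
  push Not at h
  rw [show l = 0 from ContinuousAffineMap.ext h, ContinuousAffineMap.zero_contLinear]

theorem gen_sub [FiniteDimensional ℝ V] (S : Submodule ℝ V) (hS : S ≠ ⊤) (c : V) :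
    ∀ᶠ y in gen V, y - c ∉ S := by
  obtain ⟨u, -, hu⟩ := SetLike.exists_of_lt (hS.lt_top)
  refine PLb_dense (C := {y | y - c ∈ S})
    (S.closed_of_finiteDimensional.preimage (continuous_id.sub continuous_const))
    fun y hy => ⟨u, fun t ht h => hu ?_⟩
  have := S.sub_mem h hy
  rwa [show y + t • u - c - (y - c) = t • u by abel, S.smul_mem_iff ht] at this

theorem locAff_aff (A : V →ᴬ[ℝ] F) (y : V) : LocAff A y := ⟨A, EventuallyEq.rfl⟩

theorem LocAff.congr {g : V → F} {y : V} (h : LocAff f y) (e : g =ᶠ[𝓝 y] f) : LocAff g y := by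
  obtain ⟨A, hA⟩ := h
  exact ⟨A, e.trans hA⟩

theorem LocAff.eventually {y : V} (h : LocAff f y) : ∀ᶠ z in 𝓝 y, LocAff f z := by
  obtain ⟨A, hA⟩ := h
  exact hA.eventuallyEq_nhds.mono fun z hz => ⟨A, hz⟩

theorem LocAff.differentiableAt {y : V} (h : LocAff f y) : DifferentiableAt ℝ f y := by
  obtain ⟨A, hA⟩ := h
  exact A.differentiableAt.congr_of_eventuallyEq hA

theorem LocAff.continuousAt {y : V} (h : LocAff f y) : ContinuousAt f y :=
  h.differentiableAt.continuousAt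

theorem LocAff.comp {k : F → F'} {y : V} (hk : LocAff k (f y)) (hf : LocAff f y) :
    LocAff (fun x => k (f x)) y := by
  have hc := hf.continuousAt
  obtain ⟨A, hA⟩ := hf
  obtain ⟨B, hB⟩ := hk
  refine ⟨B.comp A, ?_⟩
  filter_upwards [hA, hc.eventually hB] with z h1 h2
  rw [h2, h1]
  rfl

theorem LocAff.fderiv_comp {k : F → F'} {y : V} (hk : LocAff k (f y)) (hf : LocAff f y) :
    fderiv ℝ (fun x => k (f x)) y = (fderiv ℝ k (f y)).comp (fderiv ℝ f y) := by
  exact fderiv_fun_comp y hk.differentiableAt hf.differentiableAt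

theorem LocAff.fderiv_eventually {y : V} (h : LocAff f y) :
    ∀ᶠ z in 𝓝 y, fderiv ℝ f z = fderiv ℝ f y := by
  obtain ⟨A, hA⟩ := h
  filter_upwards [hA.eventuallyEq_nhds] with z hz
  rw [hz.fderiv_eq, hA.fderiv_eq, A.fderiv, A.fderiv]

theorem LocAff.exists_aff {y : V} (h : LocAff f y) :
    ∃ A : V →ᴬ[ℝ] F, f =ᶠ[𝓝 y] A ∧ fderiv ℝ f y = A.contLinear := by
  obtain ⟨A, hA⟩ := h
  exact ⟨A, hA, hA.fderiv_eq.trans A.fderiv⟩

theorem PLb_eq {A : V →ᴬ[ℝ] F} {z : V} (hc : ContinuousAt f z)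
    (h : z ∈ closure {w | f w = A w}) : f z = A z :=
  tendsto_nhds_unique_of_frequently_eq hc A.continuous.continuousAt (mem_closure_iff_frequently.1 h)

theorem PLb_loc (hU : IsOpen U) (hc : ContinuousOn f U) {𝒜 : Set (V →ᴬ[ℝ] F)} (hf : 𝒜.Finite) :
    ∀ᶠ y in gen V, y ∈ U → ∀ A ∈ 𝒜, f y = A y → f =ᶠ[𝓝 y] A := by
  refine (hf.eventually_all.2 fun A _ =>
    gen_closed (isClosed_closure (s := {w | f w = A w}))).mono fun y hy hyU A hA e => ?_
  filter_upwards [mem_interior_iff_mem_nhds.1 (hy A hA (subset_closure e)), hU.mem_nhds hyU]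
    with z h1 h2
  exact PLb_eq (hc.continuousAt (hU.mem_nhds h2)) h1

theorem PLOn.gen_locAff (hU : IsOpen U) (h : PLOn U f) : ∀ᶠ y in gen V, y ∈ U → LocAff f y := by
  obtain ⟨hc, 𝒜, hf, hA⟩ := h
  refine (PLb_loc hU hc hf).mono fun y hy hyU => ?_
  obtain ⟨A, h1, h2⟩ := hA y hyU
  exact ⟨A, hy hyU A h1 h2⟩

theorem PL.gen_locAff (h : PL f) : ∀ᶠ y in gen V, LocAff f y :=
  (PLOn.gen_locAff isOpen_univ h).mono fun _ hy => hy (mem_univ _)

theorem PLOn.active (hU : IsOpen U) (h : PLOn U f) : ∃ 𝒜 : Set (V →ᴬ[ℝ] F), 𝒜.Finite ∧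
    ∀ y ∈ U, ∃ A ∈ 𝒜, f y = A y ∧ ∃ y' ∈ U, f =ᶠ[𝓝 y'] A := by
  obtain ⟨hc, 𝒜, hf, hA⟩ := h
  refine ⟨𝒜, hf, fun y hy => by_contra fun hn => ?_⟩
  have h1 : ∀ᶠ z in 𝓝 y, ∀ A ∈ 𝒜, ¬(z ∈ U ∧ f =ᶠ[𝓝 z] A) := hf.eventually_all.2 fun A hA =>
    not_frequently.1 fun hq => by
      obtain ⟨y', hy'⟩ := hq.exists
      exact hn ⟨A, hA, PLb_eq (hc.continuousAt (hU.mem_nhds hy))
        (mem_closure_iff_frequently.2 (hq.mono fun z hz => hz.2.self_of_nhds)), y', hy'⟩
  obtain ⟨z, hz, hq⟩ := gen_exists (PLb_loc hU hc hf) (hU.inter isOpen_interior)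
    ⟨y, hy, mem_interior_iff_mem_nhds.2 h1⟩
  obtain ⟨A, h2, h3⟩ := hA z hz.1
  exact interior_subset hz.2 A h2 ⟨hz.1, hq.self_of_nhds hz.1 A h2 h3⟩

theorem inj_of_injOn (A : V →ᴬ[ℝ] F) {y : V} {O : Set V} (hO : O ∈ 𝓝 y) (h : InjOn A O) :
    Function.Injective A.contLinear := by
  refine (injective_iff_map_eq_zero _).2 fun u hu => ?_
  obtain ⟨t, h1, h2⟩ := (((PLb_line y u).eventually hO).filter_mono
    (nhdsWithin_le_nhds (s := {0}ᶜ))).and self_mem_nhdsWithin |>.exists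
  have h3 := h h1 (mem_of_mem_nhds hO) (by rw [PLb_add, hu, smul_zero, add_zero])
  exact (smul_eq_zero.1 (add_eq_left.1 h3)).resolve_left h2

theorem gen_pull [FiniteDimensional ℝ V] [FiniteDimensional ℝ V'] {φ : V → V'} (hU : IsOpen U)
    (h : ∀ᶠ y in gen V, y ∈ U → LocAff φ y ∧ Function.Surjective (fderiv ℝ φ y)) {p : V' → Prop}
    (hp : ∀ᶠ z in gen V', p z) : ∀ᶠ y in gen V, y ∈ U → p (φ y) := by
  refine gen_of_exists hU fun O hO ho hne => ?_
  obtain ⟨y, hy, h1⟩ := gen_exists h ho hne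
  obtain ⟨h2, h3⟩ := h1.self_of_nhds (hO hy)
  obtain ⟨A, hA, e⟩ := h2.exists_aff
  rw [e] at h3
  have hop : IsOpenMap A := (AffineMap.isOpenMap_linear_iff (f := A.toAffineMap)).1
    (LinearMap.isOpenMap_of_finiteDimensional _ h3)
  obtain ⟨_, ⟨y', hy', rfl⟩, h4⟩ := gen_exists hp (hop _ (ho.inter isOpen_interior))
    ⟨_, y, ⟨hy, mem_interior_iff_mem_nhds.2 hA⟩, rfl⟩
  refine ⟨y', hy'.1, ?_⟩
  filter_upwards [mem_interior_iff_mem_nhds.1 hy'.2, A.continuous.continuousAt.eventually h4]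
    with z h5 h6
  exact (show φ z = A z from h5) ▸ h6

theorem PLb_half {z : V} {r : ℝ} (hc : ContinuousOn f (ball z r)) {𝒜 : Set (V →ᴬ[ℝ] F)}
    (hf : 𝒜.Finite) (hA : ∀ w ∈ ball z r, ∃ A ∈ 𝒜, f w = A w) (l : V →ᴬ[ℝ] ℝ) {u : V}
    (hu : l.contLinear u = 1) (hr : 0 < r) (hz : l z ≤ 0)
    (hsep : ∀ w ∈ ball z r, l w ≠ 0 → ∀ A ∈ 𝒜, ∀ A' ∈ 𝒜, A w = A' w → A = A') :
    ∃ A : V →ᴬ[ℝ] F, ∀ y ∈ ball z r, l y ≤ 0 → f y = A y := by
  have hat : ∀ y ∈ ball z r, ContinuousAt f y := fun y hy =>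
    hc.continuousAt (isOpen_ball.mem_nhds hy)
  have hcl : ∀ y ∈ ball z r, l y ≤ 0 → y ∈ closure (ball z r ∩ l ⁻¹' Iio 0) := fun y hy h0 => by
    refine mem_closure_of_tendsto ((PLb_line y u).mono_left (nhdsWithin_le_nhds (s := Iio 0))) ?_
    filter_upwards [((PLb_line y u).eventually (isOpen_ball.mem_nhds hy)).filter_mono
      nhdsWithin_le_nhds, self_mem_nhdsWithin] with t h1 h2
    refine ⟨h1, ?_⟩
    rw [mem_preimage, PLb_add, hu, smul_eq_mul, mul_one]
    exact add_neg_of_nonpos_of_neg h0 h2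
  have hcon : IsPreconnected (ball z r ∩ l ⁻¹' Iio 0) :=
    ((convex_ball z r).inter ((convex_Iio 0).affine_preimage l.toAffineMap)).isPreconnected
  obtain ⟨w, hw⟩ := closure_nonempty_iff.1 ⟨z, hcl z (mem_ball_self hr) hz⟩
  obtain ⟨A, h1, h2⟩ := hA w hw.1
  have hd : (ball z r ∩ l ⁻¹' Iio 0) ∩ (closure {y | f y = A y} ∩
      ⋃ A' ∈ 𝒜 \ {A}, closure {y | f y = A' y}) = ∅ :=
    eq_empty_iff_forall_notMem.2 fun y ⟨hy, h3, h4⟩ => by
      obtain ⟨A', h5, h6⟩ := mem_iUnion₂.1 h4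
      exact h5.2 (hsep y hy.1 (ne_of_lt hy.2) A' h5.1 A h1
        ((PLb_eq (hat y hy.1) h6).symm.trans (PLb_eq (hat y hy.1) h3)))
  rcases isPreconnected_iff_subset_of_disjoint_closed.1 hcon _ _ isClosed_closure
    ((hf.subset sdiff_subset).isClosed_biUnion fun _ _ => isClosed_closure) (fun y hy => by
      obtain ⟨A', h3, h4⟩ := hA y hy.1
      by_cases e : A' = A
      · exact Or.inl (subset_closure (e ▸ h4 :))
      · exact Or.inr (mem_iUnion₂.2 ⟨A', ⟨h3, e⟩, subset_closure h4⟩)) hd with h3 | h3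
  · exact ⟨A, fun y hy h0 => PLb_eq (hat y hy) (closure_minimal h3 isClosed_closure (hcl y hy h0))⟩
  · exact (eq_empty_iff_forall_notMem.1 hd w ⟨hw, subset_closure h2, h3 hw⟩).elim

theorem halfball [FiniteDimensional ℝ V] (hU : IsOpen U) (h : PLOn U f) (l : V →ᴬ[ℝ] ℝ)
    (hl : l.contLinear ≠ 0) {z : V} (hz : z ∈ U) (h0 : l z = 0) :
    ∃ (z' : V) (r : ℝ) (A A' : V →ᴬ[ℝ] F), 0 < r ∧ l z' = 0 ∧ ball z' r ⊆ U ∧
      (∀ y ∈ ball z' r, l y ≤ 0 → f y = A y) ∧ ∀ y ∈ ball z' r, 0 ≤ l y → f y = A' y := by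
  obtain ⟨hc, 𝒜, hf, hA⟩ := h
  obtain ⟨u, hu⟩ : ∃ u, l.contLinear u = 1 := by
    obtain ⟨u, hu⟩ : ∃ u, l.contLinear u ≠ 0 := by
      by_contra hn
      push Not at hn
      exact hl (ContinuousLinearMap.ext hn)
    exact ⟨(l.contLinear u)⁻¹ • u, by rw [map_smul, smul_eq_mul, inv_mul_cancel₀ hu]⟩
  let π : V →ᴬ[ℝ] V := ContinuousAffineMap.id ℝ V -
    ((ContinuousLinearMap.id ℝ ℝ).smulRight u).toContinuousAffineMap.comp l
  have hπ : ∀ y, π y = y + (-l y) • u := fun y => by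
    rw [neg_smul, ← sub_eq_add_neg]
    rfl
  have hπ0 : ∀ y, l (π y) = 0 := fun y => by rw [hπ, PLb_add, hu, smul_eq_mul]; ring
  have hπ1 : ∀ y, l y = 0 → π y = y := fun y hy => by rw [hπ, hy, neg_zero, zero_smul, add_zero]
  have h1 : ∀ᶠ y in gen V, ∀ A ∈ 𝒜, ∀ A' ∈ 𝒜, A (π y) = A' (π y) → ∀ w, A (π w) = A' (π w) :=
    hf.eventually_all.2 fun A _ => hf.eventually_all.2 fun A' _ => by
      by_cases hw : ∀ w, A (π w) = A' (π w)
      · exact Eventually.of_forall fun _ _ => hw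
      · push Not at hw
        obtain ⟨w, hw⟩ := hw
        exact (PLb_aff_ne ((A - A').comp π) ⟨w, sub_ne_zero.2 hw⟩).mono fun y hy e =>
          (hy (sub_eq_zero.2 e)).elim
  obtain ⟨y, hy, h2⟩ := gen_exists h1 (hU.preimage π.continuous)
    ⟨z, show π z ∈ U by rwa [hπ1 z h0]⟩
  replace h2 := h2.self_of_nhds
  have h3 : ∀ᶠ w in 𝓝 (π y), ∀ A ∈ 𝒜, ∀ A' ∈ 𝒜, A w = A' w → A (π y) = A' (π y) :=
    hf.eventually_all.2 fun A _ => hf.eventually_all.2 fun A' _ => by
      by_cases e : A (π y) = A' (π y)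
      · exact Eventually.of_forall fun _ _ => e
      · exact ((isOpen_ne_fun A.continuous A'.continuous).eventually_mem e).mono
          fun w hw e' => (hw e').elim
  obtain ⟨r, hr, hb⟩ := Metric.mem_nhds_iff.1 (h3.and (hU.mem_nhds hy))
  have hsep : ∀ w ∈ ball (π y) r, l w ≠ 0 → ∀ A ∈ 𝒜, ∀ A' ∈ 𝒜, A w = A' w → A = A' := by
    intro w hw hw0 A h4 A' h5 e
    have h6 := h2 A h4 A' h5 ((hb hw).1 A h4 A' h5 e)
    have h7 : ∀ v, v = π v + l v • u := fun v => by rw [hπ, neg_smul, neg_add_cancel_right]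
    have h8 : A.contLinear u = A'.contLinear u := by
      rw [h7 w, PLb_add, PLb_add, h6] at e
      exact smul_right_injective F hw0 (add_left_cancel e)
    ext v
    rw [h7 v, PLb_add, PLb_add, h6, h8]
  have hsub : ball (π y) r ⊆ U := fun w hw => (hb hw).2
  obtain ⟨A, h4⟩ := PLb_half (hc.mono hsub) hf (fun w hw => hA w (hsub hw)) l hu hr (hπ0 y).le hsep
  obtain ⟨A', h5⟩ := PLb_half (hc.mono hsub) hf (fun w hw => hA w (hsub hw)) (-l) (u := -u)
    (by rw [ContinuousAffineMap.neg_contLinear, map_neg, neg_apply, neg_neg, hu]) hr (by simp [hπ0]) fun w hw hw0 => hsep w hw (by simpa using hw0)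
  exact ⟨π y, r, A, A', hr, hπ0 y, hsub, h4, fun w hw hw0 => h5 w hw (by simpa using hw0)⟩

end Pool.Agent.Work.MP_bf98aa_gt.Pl
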