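import Pool.Agent.Work.MP_bf98aa_gt.Pl.PLc

/-!
Relatively open sets, embeddings, extension by zero, lines.
rem_conn: if D minus T lies in two open sets that are disjoint on it, W minus T lies in one of them, say U1; then (U1 minus T) union W and U2 minus T separate D.
gen_push: use gen_of_exists. Let O be open in U'. If e' maps a point of O into e(U) then U meets the preimage of e'(O) in a nonempty open set; take y generic there, with p true on an open neighbourhood N of y;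
the preimage of e(N) in O is open, nonempty, and e is injective on U. Otherwise the property is void on O.
ext0: H = h o inverse on e(N), 0 elsewhere. M is the union of the closed sets e(N) and M minus e(No); on e(N) the inverse is continuous (N compact, e injective: use IsCompact and closed maps, or Continuous.homeoOfEquivCompactToT2).
Pieces: apply PLOn.active to the pair (e, h) on No; an active piece of e is injective (inj_of_injOn), left_inv_aff gives the pieces a o A'. Add the piece 0.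
-/

set_option autoImplicit false
set_option maxSynthPendingDepth 3
set_option linter.unusedSectionVars false
set_option linter.unusedVariables false

open Set Filter Topology Metric

noncomputable section
namespace Pool.Agent.Work.MP_bf98aa_gt.Pl

open Pool.Agent.Work.MP_bf98aa_gt.Ns

variable {V V' F F' : Type} [NormedAddCommGroup V] [NormedSpace ℝ V] [NormedAddCommGroup V']
  [NormedSpace ℝ V'] [NormedAddCommGroup F] [NormedSpace ℝ F] [NormedAddCommGroup F']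
  [NormedSpace ℝ F']
  [FiniteDimensional ℝ V] [FiniteDimensional ℝ V'] [FiniteDimensional ℝ F] {M D D' : Set F}
  {e : V → F} {U U' : Set V}

theorem OpenSub.subset (h : OpenSub M D) : D ⊆ M := by
  obtain ⟨O, -, rfl⟩ := h
  exact inter_subset_right

theorem openSub_empty : OpenSub M ∅ := by
  exact ⟨∅, isOpen_empty, (empty_inter _).symm⟩

theorem OpenSub.inter (h : OpenSub M D) (h' : OpenSub M D') : OpenSub M (D ∩ D') := by
  obtain ⟨O, a, rfl⟩ := h
  obtain ⟨O', b, rfl⟩ := h'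
  exact ⟨O ∩ O', a.inter b, (inter_inter_distrib_right _ _ _).symm⟩

theorem OpenSub.union (h : OpenSub M D) (h' : OpenSub M D') : OpenSub M (D ∪ D') := by
  obtain ⟨O, a, rfl⟩ := h
  obtain ⟨O', b, rfl⟩ := h'
  exact ⟨O ∪ O', a.union b, (union_inter_distrib_right _ _ _).symm⟩

theorem openSub_iUnion {κ : Sort*} {X : κ → Set F} (h : ∀ i, OpenSub M (X i)) :
    OpenSub M (⋃ i, X i) := by
  choose O a b using h
  exact ⟨⋃ i, O i, isOpen_iUnion a, by rw [iUnion_inter]; exact iUnion_congr b⟩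

theorem OpenSub.diff (h : OpenSub M D) {C : Set F} (hC : IsClosed C) : OpenSub M (D \ C) := by
  obtain ⟨O, a, rfl⟩ := h
  exact ⟨O \ C, a.sdiff hC, Set.ext fun x =>
    ⟨fun k => ⟨⟨k.1.1, k.2⟩, k.1.2⟩, fun k => ⟨⟨k.1.1, k.2⟩, k.1.2⟩⟩⟩

theorem openSub_of_local (h : ∀ x ∈ D, ∃ X, x ∈ X ∧ X ⊆ D ∧ OpenSub M X) : OpenSub M D := by
  choose X a b c using h
  have e : D = ⋃ x : D, X x x.2 :=
    Subset.antisymm (fun x hx => mem_iUnion.2 ⟨⟨x, hx⟩, a x hx⟩) (iUnion_subset fun x => b x x.2)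
  rw [e]
  exact openSub_iUnion fun x => c x x.2

theorem OpenSub.eventually (h : OpenSub M D) {X : Type} [TopologicalSpace X] {k : X → F} {x : X}
    (hk : ContinuousAt k x) (hx : k x ∈ D) : ∀ᶠ y in 𝓝 x, k y ∈ M → k y ∈ D := by
  obtain ⟨O, a, rfl⟩ := h
  exact (hk.eventually_mem (a.mem_nhds hx.1)).mono fun y hy hm => ⟨hy, hm⟩

theorem rem_conn {T W : Set F} (hD : OpenSub M D) (hc : IsPreconnected D) (hT : IsClosed T)
    (hW : OpenSub M W) (h1 : T ∩ D ⊆ W) (h2 : W \ T ⊆ D) (h3 : IsPreconnected (W \ T)) :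
    IsPreconnected (D \ T) := by
  obtain ⟨O, a, rfl⟩ := hW
  have key : ∀ u v : Set F, IsOpen u → IsOpen v → D \ T ⊆ u ∪ v → (D \ T) ∩ (u ∩ v) = ∅ →
      (O ∩ M) \ T ⊆ u → D \ T ⊆ u ∨ D \ T ⊆ v := by
    intro u v hu hv c d k
    have f : ∀ x ∈ D, x ∉ T → x ∈ (u \ T) ∪ O → x ∈ u := fun x hx hn l =>
      l.elim (fun l => l.1) fun l => k ⟨⟨l, hD.subset hx⟩, hn⟩
    refine (isPreconnected_iff_subset_of_disjoint.1 hc ((u \ T) ∪ O) (v \ T)
      ((hu.sdiff hT).union a) (hv.sdiff hT) (fun x hx => ?_) ?_).imp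
      (fun l x hx => f x hx.1 hx.2 (l hx.1)) fun l x hx => (l hx.1).1
    · by_cases hn : x ∈ T
      · exact Or.inl (Or.inr (h1 ⟨hn, hx⟩).1)
      · exact (c ⟨hx, hn⟩).elim (fun l => Or.inl (Or.inl ⟨l, hn⟩)) fun l => Or.inr ⟨l, hn⟩
    · exact eq_empty_of_forall_notMem fun x hx => eq_empty_iff_forall_notMem.1 d x
        ⟨⟨hx.1, hx.2.2.2⟩, f x hx.1 hx.2.2.2 hx.2.1, hx.2.2.1⟩
  refine isPreconnected_iff_subset_of_disjoint.2 fun u v hu hv c d => ?_
  have s : (O ∩ M) \ T ⊆ D \ T := fun x hx => ⟨h2 hx, hx.2⟩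
  rcases isPreconnected_iff_subset_of_disjoint.1 h3 u v hu hv (s.trans c)
    (subset_eq_empty (inter_subset_inter_left _ s) d) with k | k
  · exact key u v hu hv c d k
  · exact (key v u hv hu (union_comm u v ▸ c) (inter_comm u v ▸ d) k).symm

theorem Emb.mapsTo (h : Emb M e U) : MapsTo e U M := by
  exact fun y hy => (h.oin U Subset.rfl h.opn).subset (mem_image_of_mem e hy)

theorem Emb.openSub (h : Emb M e U) : OpenSub M (e '' U) := h.oin U Subset.rfl h.opn

theorem Emb.mono (h : Emb M e U) (hU : IsOpen U') (hs : U' ⊆ U) : Emb M e U' := by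
  exact ⟨hU, h.pl.mono hs, h.inj.mono hs, fun O a b => h.oin O (a.trans hs) b⟩

theorem Emb.congr {e' : V → F} (h : Emb M e U) (he : ∀ y ∈ U, e' y = e y) : Emb M e' U := by
  refine ⟨h.opn, h.pl.congr he, h.inj.congr fun y hy => (he y hy).symm, fun O a b => ?_⟩
  rw [image_congr fun y hy => he y (a hy)]
  exact h.oin O a b

theorem Emb.isOpen_pre (h : Emb M e U) (hD : OpenSub M D) : IsOpen (U ∩ e ⁻¹' D) := by
  obtain ⟨O, a, rfl⟩ := hD
  have e1 : U ∩ e ⁻¹' (O ∩ M) = U ∩ e ⁻¹' O :=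
    Set.ext fun y => ⟨fun k => ⟨k.1, k.2.1⟩, fun k => ⟨k.1, k.2, h.mapsTo k.1⟩⟩
  rw [e1]
  exact h.pl.1.isOpen_inter_preimage h.opn a

theorem Emb.comp (h : Emb M e U) {G : V' → V} {S : Set V'} (hS : IsOpen S) (hG : PLOn S G)
    (hi : InjOn G S) (hm : MapsTo G S U) (ho : ∀ O ⊆ S, IsOpen O → IsOpen (G '' O)) :
    Emb M (fun y => e (G y)) S := by
  refine ⟨hS, h.pl.comp hG hm, h.inj.comp hi hm, fun O a b => ?_⟩
  rw [← image_image e G]
  exact h.oin _ ((image_mono a).trans hm.image_subset) (ho O a b)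

theorem Emb.comp_plh (h : Emb M e U) {φ ψ : V → V} (hφ : IsPLH φ ψ) :
    Emb M (fun y => e (φ y)) (φ ⁻¹' U) := by
  exact h.comp (h.opn.preimage hφ.pl.continuous) (hφ.pl.plOn _) hφ.injective.injOn
    (mapsTo_preimage _ _) fun O _ b => hφ.isOpenMap O b

theorem emb_of_local (hU : IsOpen U) (hp : PLOn U e) (hi : InjOn e U)
    (h : ∀ y ∈ U, ∃ O, y ∈ O ∧ Emb M e O) : Emb M e U := by
  refine ⟨hU, hp, hi, fun U' a b => openSub_of_local ?_⟩
  rintro _ ⟨y, hy, rfl⟩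
  obtain ⟨O, c, d⟩ := h y (a hy)
  exact ⟨e '' (U' ∩ O), mem_image_of_mem e ⟨hy, c⟩, image_mono inter_subset_left,
    d.oin _ inter_subset_right (b.inter d.opn)⟩

theorem gen_push {e' : V' → F} {O : Set V'} (h : Emb M e U) (h' : Emb M e' O) {p : V → Prop}
    (hp : ∀ᶠ y in gen V, y ∈ U → p y) :
    ∀ᶠ z in gen V', z ∈ O → ∀ y ∈ U, e y = e' z → p y := by
  refine gen_of_exists h'.opn fun O1 a b c => ?_
  by_cases k : (U ∩ e ⁻¹' (e' '' O1)).Nonempty
  · obtain ⟨y, ⟨hy, z, hz, ez⟩, ev⟩ := gen_exists hp (h.isOpen_pre (h'.oin O1 a b)) k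
    obtain ⟨N, n1, n2, n3⟩ := _root_.eventually_nhds_iff.1 (ev.and (h.opn.eventually_mem hy))
    have o := h'.isOpen_pre (h.oin N (fun x hx => (n1 x hx).2) n2)
    refine ⟨z, hz, (o.eventually_mem ⟨a hz, y, n3, ez.symm⟩).mono ?_⟩
    rintro w ⟨-, y', hy', ew⟩ x hx ex
    obtain rfl := h.inj hx (n1 y' hy').2 (ex.trans ew.symm)
    exact (n1 x hy').1 hx
  · obtain ⟨z, hz⟩ := c
    exact ⟨z, hz, (b.eventually_mem hz).mono fun w hw x hx ex => (k ⟨x, hx, w, hw, ex.symm⟩).elim⟩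

theorem left_inv_aff (A : V →ᴬ[ℝ] F) (h : Function.Injective A.contLinear) :
    ∃ A' : F →ᴬ[ℝ] V, ∀ y, A' (A y) = y := by
  obtain ⟨g, hg⟩ := LinearMap.exists_leftInverse_of_injective (A.contLinear : V →ₗ[ℝ] F)
    (LinearMap.ker_eq_bot.2 h)
  refine ⟨(LinearMap.toContinuousLinearMap g).toContinuousAffineMap -
    ContinuousAffineMap.const ℝ F (g (A 0)), fun y => ?_⟩
  have e1 : A y = A.contLinear y + A 0 := by simpa using A.map_vadd 0 y
  have e2 : g (A.contLinear y) = y := LinearMap.congr_fun hg y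
  change g (A y) - g (A 0) = y
  rw [e1, map_add, e2, add_sub_cancel_right]

theorem inj_contLinear (A : V →ᴬ[ℝ] F) (h : Function.Injective A) :
    Function.Injective A.contLinear :=
  inj_of_injOn A (y := 0) univ_mem h.injOn

theorem ext0 {N No : Set V} (hN : IsCompact N) (ho : IsOpen No) (hs : No ⊆ N) (he : PLOn N e)
    (hi : InjOn e N) (hm : MapsTo e N M) (hoi : OpenIn M e No) {h : V → ℝ} (hh : PLOn N h)
    (h0 : ∀ v ∈ N, v ∉ No → h v = 0) :
    ∃ H : F → ℝ, PLOn M H ∧ (∀ v ∈ N, H (e v) = h v) ∧ ∀ x, x ∉ e '' N → H x = 0 := by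
  classical
  obtain ⟨O, o1, o2⟩ := hoi No Subset.rfl ho
  set H : F → ℝ := fun x => if x ∈ e '' N then h (Function.invFunOn e N x) else 0 with hH
  have H1 : ∀ v ∈ N, H (e v) = h v := fun v hv => by
    simp only [hH, if_pos (mem_image_of_mem e hv), hi.leftInvOn_invFunOn hv]
  have H2 : ∀ x, x ∉ e '' N → H x = 0 := fun x hx => if_neg hx
  have H3 : ∀ x, x ∉ e '' No → H x = 0 := fun x hx => by
    by_cases k : x ∈ e '' N
    · obtain ⟨v, hv, rfl⟩ := k
      rw [H1 v hv, h0 v hv fun l => hx (mem_image_of_mem e l)]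
    · exact H2 x k
  refine ⟨H, ⟨?_, ?_⟩, H1, H2⟩
  · have c1 : ContinuousOn H (e '' N) := continuousOn_iff_isClosed.2 fun t ht => by
      refine ⟨e '' (N ∩ h ⁻¹' t), ((hN.of_isClosed_subset
        (hh.1.preimage_isClosed_of_isClosed hN.isClosed ht) inter_subset_left).image_of_continuousOn
        (he.1.mono inter_subset_left)).isClosed, Subset.antisymm ?_ ?_⟩
      · rintro _ ⟨k, v, hv, rfl⟩
        exact ⟨⟨v, ⟨hv, by rwa [mem_preimage, H1 v hv] at k⟩, rfl⟩, v, hv, rfl⟩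
      · rintro _ ⟨⟨v, hv, rfl⟩, k⟩
        exact ⟨by rw [mem_preimage, H1 v hv.1]; exact hv.2, k⟩
    have c2 : ContinuousOn H Oᶜ := continuousOn_const.congr fun x hx =>
      H3 x fun k => hx (o2 ▸ k : x ∈ O ∩ M).1
    refine (c1.union_of_isClosed c2 (hN.image_of_continuousOn he.1).isClosed
      o1.isClosed_compl).mono fun x hx => ?_
    by_cases k : x ∈ O
    · exact Or.inl (image_mono hs (o2 ▸ ⟨k, hx⟩ : x ∈ e '' No))
    · exact Or.inr k
  · obtain ⟨𝒜, fin, act⟩ := PLOn.active ho ((he.mono hs).prodMk (hh.mono hs))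
    have ch : ∀ A : V →ᴬ[ℝ] F × ℝ, ∃ B : F →ᴬ[ℝ] ℝ,
        (∃ B' : F →ᴬ[ℝ] ℝ, ∀ y, B' (A y).1 = (A y).2) → ∀ y, B (A y).1 = (A y).2 := fun A => by
      by_cases k : ∃ B' : F →ᴬ[ℝ] ℝ, ∀ y, B' (A y).1 = (A y).2
      · exact ⟨k.choose, fun _ => k.choose_spec⟩
      · exact ⟨0, fun l => (k l).elim⟩
    choose Φ hΦ using ch
    refine ⟨insert 0 (Φ '' 𝒜), (fin.image Φ).insert 0, fun x _ => ?_⟩
    by_cases k : x ∈ e '' No
    · obtain ⟨v, hv, rfl⟩ := k
      obtain ⟨A, hA, e1, y, hy, ev⟩ := act v hv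
      obtain ⟨A', hA'⟩ := left_inv_aff
        ((ContinuousLinearMap.fst ℝ F ℝ).toContinuousAffineMap.comp A)
        (inj_of_injOn _ (ev.and (ho.eventually_mem hy)) fun a ha b hb l =>
          hi (hs ha.2) (hs hb.2) (((congrArg Prod.fst ha.1).trans l).trans
            (congrArg Prod.fst hb.1).symm))
      have := hΦ A ⟨((ContinuousLinearMap.snd ℝ F ℝ).toContinuousAffineMap.comp A).comp A',
        fun y => congrArg (fun z => (A z).2) (hA' y)⟩ v
      rw [← e1] at this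
      exact ⟨Φ A, Or.inr (mem_image_of_mem Φ hA), (H1 v (hs hv)).trans this.symm⟩
    · exact ⟨0, Or.inl rfl, H3 x k⟩

theorem PLd_line (A : V →ᴬ[ℝ] F) (c v : V) (t : ℝ) :
    A (c + t • v) = A c + t • A.contLinear v := by
  have := A.map_vadd c (t • v)
  rw [vadd_eq_add, vadd_eq_add, map_smul, add_comm, add_comm (t • _)] at this
  exact this

theorem Lines.mono {X X' : Set V} (h : Lines X) (hs : X' ⊆ X) : Lines X' := by
  obtain ⟨S, a, b⟩ := h
  exact ⟨S, a, fun x hx => b x (hs hx)⟩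

theorem Lines.union {X X' : Set V} (h : Lines X) (h' : Lines X') : Lines (X ∪ X') := by
  obtain ⟨S, a, b⟩ := h
  obtain ⟨S', a', b'⟩ := h'
  refine ⟨S ∪ S', a.union a', fun x hx => hx.elim (fun k => ?_) fun k => ?_⟩
  · exact (b x k).imp fun p l => ⟨Or.inl l.1, l.2⟩
  · exact (b' x k).imp fun p l => ⟨Or.inr l.1, l.2⟩

theorem lines_line (c v : V) : Lines (range fun t : ℝ => c + t • v) := by
  refine ⟨{(c, v)}, finite_singleton _, ?_⟩
  rintro _ ⟨t, rfl⟩
  exact ⟨(c, v), rfl, t, rfl⟩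

theorem Lines.closure {X : Set V} (h : Lines X) : Lines (closure X) := by
  obtain ⟨S, a, b⟩ := h
  have c : IsClosed (⋃ p ∈ S, (fun x => x - p.1) ⁻¹' ((ℝ ∙ p.2 : Submodule ℝ V) : Set V)) :=
    a.isClosed_biUnion fun p _ => (Submodule.closed_of_finiteDimensional _).preimage (by fun_prop)
  refine ⟨S, a, fun x hx => ?_⟩
  obtain ⟨p, hp, k⟩ := mem_iUnion₂.1 (closure_minimal (fun y hy => by
    obtain ⟨p, hp, t, rfl⟩ := b y hy
    exact mem_iUnion₂.2 ⟨p, hp, Submodule.mem_span_singleton.2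
      ⟨t, (add_sub_cancel_left _ _).symm⟩⟩) c hx)
  obtain ⟨t, ht⟩ := Submodule.mem_span_singleton.1 k
  exact ⟨p, hp, t, by rw [ht, add_sub_cancel]⟩

theorem Lines.image {X S : Set V} (h : Lines X) (hs : X ⊆ S) (he : PLOn S e) : Lines (e '' X) := by
  obtain ⟨T, a, b⟩ := h
  obtain ⟨𝒜, c, d⟩ := he.2
  refine ⟨image2 (fun (A : V →ᴬ[ℝ] F) (p : V × V) => (A p.1, A.contLinear p.2)) 𝒜 T,
    c.image2 _ a, ?_⟩
  rintro _ ⟨y, hy, rfl⟩
  obtain ⟨p, hp, t, ht⟩ := b y hy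
  obtain ⟨A, hA, k⟩ := d y (hs hy)
  exact ⟨_, mem_image2_of_mem hA hp, t, by rw [k, ht, PLd_line]⟩

theorem Lines.pre {X : Set F} (h : Lines X) (he : Emb M e U) : Lines (U ∩ e ⁻¹' X) := by
  obtain ⟨T, a, b⟩ := h
  obtain ⟨𝒜, c, d⟩ := PLOn.active he.opn he.pl
  have ch : ∀ A : V →ᴬ[ℝ] F, ∃ A' : F →ᴬ[ℝ] V,
      Function.Injective A.contLinear → ∀ y, A' (A y) = y := fun A => by
    by_cases k : Function.Injective A.contLinear
    · exact (left_inv_aff A k).imp fun A' l _ => l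
    · exact ⟨0, fun l => (k l).elim⟩
  choose Φ hΦ using ch
  refine ⟨image2 (fun (A : V →ᴬ[ℝ] F) (p : F × F) => (Φ A p.1, (Φ A).contLinear p.2)) 𝒜 T,
    c.image2 _ a, fun y hy => ?_⟩
  obtain ⟨p, hp, t, ht⟩ := b _ hy.2
  obtain ⟨A, hA, k, y', hy', ev⟩ := d y hy.1
  have i := hΦ A (inj_of_injOn A (ev.and (he.opn.eventually_mem hy')) fun a ha b hb l =>
    he.inj ha.2 hb.2 ((ha.1.trans l).trans hb.1.symm)) y
  exact ⟨_, mem_image2_of_mem hA hp, t, by rw [← PLd_line, ← ht, k, i]⟩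

theorem Lines.gen {X : Set V} (h : Lines X) (hd : 2 ≤ Module.finrank ℝ V) :
    ∀ᶠ y in gen V, y ∉ X := by
  obtain ⟨S, a, b⟩ := h
  have g : ∀ p ∈ S, ∀ᶠ y in Pl.gen V, y - p.1 ∉ (ℝ ∙ p.2 : Submodule ℝ V) := fun p _ =>
    gen_sub _ (fun k => by
      have := finrank_le_one (R := ℝ) p.2 fun w =>
        Submodule.mem_span_singleton.1 (k ▸ Submodule.mem_top)
      omega) p.1
  refine ((eventually_all_finite a).2 g).mono fun y hy hx => ?_
  obtain ⟨p, hp, t, rfl⟩ := b y hx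
  exact hy p hp (Submodule.mem_span_singleton.2 ⟨t, (add_sub_cancel_left _ _).symm⟩)

end Pool.Agent.Work.MP_bf98aa_gt.Pl
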