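import Pool.Agent.Work.MP_bf98aa_gt.Pl.Kuhn

/-!
Counting lattice cubes. inner: a compact K in U with measure > c0 (IsOpen.exists_lt_isCompact), a thickening of K inside U (IsCompact.exists_cthickening_subset_open); the cubes that meet K have diameter h in the maximum norm, they cover K (floor), so vol K <= card h^N.
outer: an open O containing K with measure < c0 (IsCompact.exists_isOpen_lt_of_lt), the cubes that meet K lie in O for small h, the open cubes are disjoint, so card h^N <= vol O (measure_biUnion_finset). cube c h = Icc c (c + h), cubeO = pi univ Ioo: Real.volume_Icc_pi, Real.volume_pi_Ioo.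
-/

set_option autoImplicit false
set_option maxSynthPendingDepth 3
set_option linter.unusedSectionVars false
set_option linter.unusedVariables false

open Set Filter Topology Metric

noncomputable section
namespace Pool.Agent.Work.MP_bf98aa_gt.Pl

open Pool.Agent.Work.MP_bf98aa_gt.Ns

variable {N : ℕ}

theorem PackA_cube (c : Fin N → ℝ) (h : ℝ) : cube c h = Icc c fun i => c i + h :=
  Set.ext fun _ => ⟨fun k => ⟨fun i => (k i).1, fun i => (k i).2⟩, fun k i => ⟨k.1 i, k.2 i⟩⟩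

theorem PackA_cubeO (c : Fin N → ℝ) (h : ℝ) :
    cubeO c h = Set.pi univ fun i => Ioo (c i) (c i + h) :=
  Set.ext fun _ => ⟨fun k i _ => k i, fun k i => k i trivial⟩

theorem cubeO_sub (c : Fin N → ℝ) (h : ℝ) : cubeO c h ⊆ cube c h := by
  exact fun x k i => ⟨(k i).1.le, (k i).2.le⟩

theorem isCompact_cube (c : Fin N → ℝ) (h : ℝ) : IsCompact (cube c h) := by
  rw [PackA_cube]
  exact isCompact_Icc

theorem isOpen_cubeO (c : Fin N → ℝ) (h : ℝ) : IsOpen (cubeO c h) := by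
  rw [PackA_cubeO]
  exact isOpen_set_pi finite_univ fun _ _ => isOpen_Ioo

theorem vol_cube (c : Fin N → ℝ) {h : ℝ} (hh : 0 ≤ h) :
    MeasureTheory.volume.real (cube c h) = h ^ N ∧ MeasureTheory.volume.real (cubeO c h) = h ^ N := by
  have hl : c ≤ fun i => c i + h := fun i => le_add_of_nonneg_right hh
  rw [PackA_cube, PackA_cubeO, MeasureTheory.measureReal_def, MeasureTheory.measureReal_def,
    Real.volume_Icc_pi_toReal hl, Real.volume_pi_Ioo_toReal hl]
  simp

theorem cubeO_dis {h : ℝ} (hh : 0 < h) {n n' : Fin N → ℤ} (hne : n ≠ n') :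
    Disjoint (cubeO (lat h n) h) (cube (lat h n') h) := by
  refine disjoint_left.2 fun x k k' => hne (funext fun i => ?_)
  obtain ⟨h1, h2⟩ := k i
  obtain ⟨h3, h4⟩ := k' i
  simp only [lat] at h1 h2 h3 h4
  have h5 : (n i : ℝ) < n' i + 1 := lt_of_mul_lt_mul_left (by linarith) hh.le
  have h6 : (n' i : ℝ) < n i + 1 := lt_of_mul_lt_mul_left (by linarith) hh.le
  have h7 : n i < n' i + 1 := by exact_mod_cast h5
  have h8 : n' i < n i + 1 := by exact_mod_cast h6
  omega

theorem meet_finite {K : Set (Fin N → ℝ)} (hK : IsCompact K) {h : ℝ} (hh : 0 < h) :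
    {n : Fin N → ℤ | (cube (lat h n) h ∩ K).Nonempty}.Finite := by
  obtain ⟨R, hR⟩ := hK.isBounded.exists_norm_le
  refine (finite_Icc (fun _ => -⌈R / h⌉ - 1) fun _ => ⌈R / h⌉).subset ?_
  rintro n ⟨x, k, hx⟩
  have h0 : R ≤ h * ⌈R / h⌉ := (div_le_iff₀' hh).1 (Int.le_ceil _)
  have h1 := fun i => abs_le.1 ((norm_le_pi_norm x i).trans (hR x hx))
  refine ⟨fun i => ?_, fun i => ?_⟩
  · have h2 : x i ≤ h * n i + h := (k i).2
    have h3 : (-⌈R / h⌉ - 1 : ℝ) ≤ n i := le_of_mul_le_mul_left (by linarith [(h1 i).1]) hh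
    exact_mod_cast h3
  · have h2 : h * n i ≤ x i := (k i).1
    have h3 : (n i : ℝ) ≤ ⌈R / h⌉ := le_of_mul_le_mul_left (by linarith [(h1 i).2]) hh
    exact_mod_cast h3

theorem PackA_thick {K O : Set (Fin N → ℝ)} (hK : IsCompact K) (hO : IsOpen O) (h : K ⊆ O) :
    ∃ h0 : ℝ, 0 < h0 ∧ ∀ h, 0 < h → h ≤ h0 → ∀ c, (cube c h ∩ K).Nonempty → cube c h ⊆ O := by
  obtain ⟨δ, h1, h2⟩ := hK.exists_cthickening_subset_open hO h
  refine ⟨δ, h1, fun h hh hl c ⟨y, k, hy⟩ x k' => h2 (mem_cthickening_of_dist_le x y δ K hy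
    ((dist_pi_le_iff h1.le).2 fun i => ?_))⟩
  rw [Real.dist_eq, abs_le]
  constructor <;> linarith [(k i).1, (k i).2, (k' i).1, (k' i).2]

theorem PackA_floor {h : ℝ} (hh : 0 < h) (x : Fin N → ℝ) :
    x ∈ cube (lat h fun i => ⌊x i / h⌋) h := fun i =>
  ⟨(le_div_iff₀' hh).1 (Int.floor_le _), by
    have := (div_lt_iff₀' hh).1 (Int.lt_floor_add_one (x i / h))
    simp only [lat]
    linarith⟩

theorem inner_count {U : Set (Fin N → ℝ)} (hU : IsOpen U) (hU' : MeasureTheory.volume U ≠ ⊤)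
    {c0 : ℝ} (h : c0 < MeasureTheory.volume.real U) : ∃ h0 : ℝ, 0 < h0 ∧ ∀ h, 0 < h → h ≤ h0 →
      ∃ I : Finset (Fin N → ℤ), (∀ n ∈ I, cube (lat h n) h ⊆ U) ∧ c0 < I.card * h ^ N := by
  rcases lt_or_ge c0 0 with h0 | h0
  · exact ⟨1, one_pos, fun h _ _ => ⟨∅, by simp, by simpa using h0⟩⟩
  obtain ⟨K, h1, hK, h2⟩ := hU.exists_lt_isCompact ((ENNReal.ofReal_lt_iff_lt_toReal h0 hU').2 h)
  obtain ⟨δ, h3, h4⟩ := PackA_thick hK hU h1
  refine ⟨δ, h3, fun t ht hl => ⟨(meet_finite hK ht).toFinset, fun n hn =>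
    h4 t ht hl _ ((meet_finite hK ht).mem_toFinset.1 hn), ?_⟩⟩
  have h5 : c0 < MeasureTheory.volume.real K :=
    (ENNReal.ofReal_lt_iff_lt_toReal h0 hK.measure_lt_top.ne).1 h2
  refine h5.trans_le ((MeasureTheory.measureReal_mono (s₂ := ⋃ n ∈ (meet_finite hK ht).toFinset,
    cube (lat t n) t) (fun x hx => mem_biUnion ((meet_finite hK ht).mem_toFinset.2
      ⟨x, PackA_floor ht x, hx⟩) (PackA_floor ht x))
    (Finset.isCompact_biUnion _ fun n _ => isCompact_cube _ _).measure_lt_top.ne).trans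
    ((MeasureTheory.measureReal_biUnion_finset_le _ _).trans_eq ?_))
  simp only [(vol_cube _ ht.le).1, Finset.sum_const, nsmul_eq_mul]

theorem outer_count {K : Set (Fin N → ℝ)} (hK : IsCompact K) {c0 : ℝ}
    (h : MeasureTheory.volume.real K < c0) : ∃ h0 : ℝ, 0 < h0 ∧ ∀ h, 0 < h → h ≤ h0 →
      ∀ I : Finset (Fin N → ℤ), (∀ n ∈ I, (cube (lat h n) h ∩ K).Nonempty) →
        I.card * h ^ N < c0 := by
  obtain ⟨O, h1, hO, h2⟩ := hK.exists_isOpen_lt_of_lt (μ := MeasureTheory.volume) _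
    ((ENNReal.lt_ofReal_iff_toReal_lt hK.measure_lt_top.ne).2 h)
  obtain ⟨δ, h3, h4⟩ := PackA_thick hK hO h1
  refine ⟨δ, h3, fun t ht hl I hI => lt_of_le_of_lt ?_ (ENNReal.toReal_lt_of_lt_ofReal h2)⟩
  have h5 := MeasureTheory.measureReal_biUnion_finset (μ := MeasureTheory.volume) (s := I)
    (f := fun n => cubeO (lat t n) t)
    (fun n _ n' _ hne => (cubeO_dis ht hne).mono_right (cubeO_sub _ _))
    (fun n _ => (isOpen_cubeO _ _).measurableSet) fun n _ =>
      ((MeasureTheory.measure_mono (cubeO_sub _ _)).trans_lt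
        (isCompact_cube _ _).measure_lt_top).ne
  simp only [(vol_cube _ ht.le).2, Finset.sum_const, nsmul_eq_mul] at h5
  rw [← h5]
  exact MeasureTheory.measureReal_mono (iUnion₂_subset fun n hn =>
    (cubeO_sub _ _).trans (h4 t ht hl _ (hI n hn))) h2.ne_top

end Pool.Agent.Work.MP_bf98aa_gt.Pl
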