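import Pool.Agent.Work.MP_bf98aa_gt.Pl.PackA

/-!
Allocation of cubes. pack_one: V k = preimage of U k under Z k is open with |det (Z k)| vol (V k) = vol (U k) (MeasureTheory.Measure.addHaar_preimage_continuousLinearMap, or addHaar_image_continuousLinearMap), so p vol (V k) = p' k vol (U k). For n large, with h = 1/n and h' = lam/n: the set I of cubes meeting K has
card I h^N < x / (p lam^N) (outer_count, meet_finite), and inner_count gives I k with the sum over k of p card (I k) h'^N > x; so card I < sum of card (I k) and I embeds in the sigma type (Finset.exists_injOn or Function.Embedding.nonempty_of_card_le). U' k = U k minus the closed pieces assigned to k;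
each piece has weighted measure p h'^N, so the weighted measure drops by at most card I p h'^N < x (measureReal_diff or le_measureReal_diff, measureReal_biUnion_finset_le). kappa is nonempty as x > 0 or x >= 0 is below the sum.
pack_abs: induction over a Finset of iota with the open sets U k as state: the invariant is that the weighted measure exceeds lam^N vol K times the sum of the remaining p; choose x slightly above lam^N vol K p i. Pieces of later steps lie in U' k, which misses the earlier closed pieces.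
-/

set_option autoImplicit false
set_option maxSynthPendingDepth 3
set_option linter.unusedSectionVars false
set_option linter.unusedVariables false

open Set Filter Topology Metric

noncomputable section
namespace Pool.Agent.Work.MP_bf98aa_gt.Pl

open Pool.Agent.Work.MP_bf98aa_gt.Ns

variable {N : ℕ}

open MeasureTheory in
theorem PackB_img (Z : (Fin N → ℝ) →L[ℝ] Fin N → ℝ) (S : Set (Fin N → ℝ)) :
    volume.real (Z '' S) = |Z.det| * volume.real S := by
  rw [Measure.real, Measure.addHaar_image_continuousLinearMap, ENNReal.toReal_mul,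
    ENNReal.toReal_ofReal (abs_nonneg _)]
  rfl

open MeasureTheory in
theorem PackB_pre {Z : (Fin N → ℝ) →L[ℝ] Fin N → ℝ} (hZ : Z.det ≠ 0) {S : Set (Fin N → ℝ)}
    (hS : volume S ≠ ⊤) :
    volume (Z ⁻¹' S) ≠ ⊤ ∧ |Z.det| * volume.real (Z ⁻¹' S) = volume.real S := by
  refine ⟨?_, ?_⟩
  · rw [Measure.addHaar_preimage_continuousLinearMap _ hZ]
    exact ENNReal.mul_ne_top ENNReal.ofReal_ne_top hS
  · rw [← PackB_img, image_preimage_eq (f := Z) S
      (Z.toContinuousLinearEquivOfDetNeZero hZ).surjective]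

theorem PackB_det {d p' p : ℝ} (hp : 0 < p) (h : |d| * p' = p) : d ≠ 0 := by
  rintro rfl
  rw [abs_zero, zero_mul] at h
  exact hp.ne h

theorem PackB_ev {lam h0 : ℝ} (h : 0 < h0) : ∀ᶠ n : ℕ in atTop, lam * (1 / (n : ℝ)) ≤ h0 := by
  have := (tendsto_one_div_atTop_nhds_zero_nat (𝕜 := ℝ)).const_mul lam
  rw [mul_zero] at this
  exact this.eventually (eventually_le_nhds h)

theorem pack_one {κ : Type} [Fintype κ] {K : Set (Fin N → ℝ)} (hK : IsCompact K)
    {U : κ → Set (Fin N → ℝ)} (hU : ∀ k, IsOpen (U k)) (hU' : ∀ k, MeasureTheory.volume (U k) ≠ ⊤)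
    {p : ℝ} (hp : 0 < p) {p' : κ → ℝ} (hp' : ∀ k, 0 < p' k)
    (Z : κ → (Fin N → ℝ) →L[ℝ] Fin N → ℝ) (hZ : ∀ k, |(Z k).det| * p' k = p) {lam x : ℝ}
    (hl : 0 < lam) (h1 : lam ^ N * MeasureTheory.volume.real K * p < x)
    (h2 : x < ∑ k, p' k * MeasureTheory.volume.real (U k)) :
    ∃ (n : ℕ) (t : (Fin N → ℤ) → κ) (c : (Fin N → ℤ) → Fin N → ℝ) (U' : κ → Set (Fin N → ℝ)),
      0 < n ∧ (∀ k, IsOpen (U' k)) ∧ (∀ k, U' k ⊆ U k) ∧
      ∑ k, p' k * MeasureTheory.volume.real (U k) - x <
        ∑ k, p' k * MeasureTheory.volume.real (U' k) ∧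
      (∀ a, (cube (lat (1 / n) a) (1 / n) ∩ K).Nonempty →
        Z (t a) '' cube (c a) (lam * (1 / n)) ⊆ U (t a) \ U' (t a)) ∧
      ∀ a a', (cube (lat (1 / n) a) (1 / n) ∩ K).Nonempty →
        (cube (lat (1 / n) a') (1 / n) ∩ K).Nonempty → a ≠ a' → t a = t a' →
        Disjoint (cubeO (c a) (lam * (1 / n))) (cubeO (c a') (lam * (1 / n))) := by
  classical
  have hl' : 0 < lam ^ N := pow_pos hl N
  have hx : 0 < x := lt_of_le_of_lt (by positivity) h1
  have hd := fun k => PackB_det hp (hZ k)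
  haveI : Nonempty κ := by
    by_contra hk
    rw [not_nonempty_iff] at hk
    rw [Finset.univ_eq_empty, Finset.sum_empty] at h2
    exact hx.not_gt h2
  have hm : (0 : ℝ) < Fintype.card κ := Nat.cast_pos.mpr Fintype.card_pos
  set S := ∑ k, p' k * MeasureTheory.volume.real (U k) with hS
  have hδ : 0 < (S - x) / (p * Fintype.card κ) := div_pos (sub_pos.mpr h2) (mul_pos hp hm)
  choose h0 h0p hin using fun k => inner_count ((hU k).preimage (Z k).continuous)
    (PackB_pre (hd k) (hU' k)).1 (sub_lt_self _ hδ)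
  obtain ⟨h1', h1p, hout⟩ := outer_count hK (c0 := x / (lam ^ N * p))
    (by rw [lt_div_iff₀ (mul_pos hl' hp)]; linarith)
  obtain ⟨n, hn, hn1, hn2⟩ := ((eventually_gt_atTop 0).and ((PackB_ev (lam := 1) h1p).and
    (eventually_all.mpr fun k => PackB_ev (lam := lam) (h0p k)))).exists
  have hh : (0 : ℝ) < 1 / n := one_div_pos.mpr (Nat.cast_pos.mpr hn)
  rw [one_mul] at hn1
  set h : ℝ := 1 / n with hdef
  have hh' : 0 < lam * h := mul_pos hl hh
  choose J hJ hJc using fun k => hin k _ hh' (hn2 k)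
  set I := (meet_finite hK hh).toFinset with hI
  have hIm : ∀ a, a ∈ I ↔ (cube (lat h a) h ∩ K).Nonempty := fun a => Finite.mem_toFinset _
  have hc : (I.card : ℝ) * (p * (lam * h) ^ N) < x := by
    have := hout h hh hn1 I fun a ha => (hIm a).mp ha
    rw [lt_div_iff₀ (mul_pos hl' hp)] at this
    rw [mul_pow]
    linarith
  have hc2 : x < ((Finset.univ.sigma J).card : ℝ) * (p * (lam * h) ^ N) := by
    have e : x = ∑ k, p * (MeasureTheory.volume.real (Z k ⁻¹' U k) -
        (S - x) / (p * Fintype.card κ)) := by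
      simp only [mul_sub, Finset.sum_sub_distrib, Finset.sum_const, Finset.card_univ, nsmul_eq_mul]
      have e1 : ∑ k, p * MeasureTheory.volume.real (Z k ⁻¹' U k) = S :=
        Finset.sum_congr rfl fun k _ => by
          rw [← (PackB_pre (hd k) (hU' k)).2, ← hZ k]
          ring
      rw [e1]
      field_simp
      ring
    rw [e, Finset.card_sigma, Nat.cast_sum, Finset.sum_mul]
    refine Finset.sum_lt_sum_of_nonempty Finset.univ_nonempty fun k _ => ?_
    have := mul_lt_mul_of_pos_left (hJc k) hp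
    linarith
  have hle : I.card ≤ (Finset.univ.sigma J).card := by
    have := lt_of_mul_lt_mul_right (hc.trans hc2) (by positivity)
    exact (Nat.cast_lt.mp this).le
  haveI : Nonempty (Σ _ : κ, Fin N → ℤ) := ⟨⟨Classical.arbitrary κ, 0⟩⟩
  obtain ⟨f, hf, hfi⟩ := I.finite_toSet.exists_injOn_of_encard_le
    (t := ((Finset.univ.sigma J : Finset (Σ _ : κ, Fin N → ℤ)) : Set (Σ _ : κ, Fin N → ℤ)))
    (by rw [encard_coe_eq_coe_finsetCard, encard_coe_eq_coe_finsetCard]; exact_mod_cast hle)
  have hcl : ∀ k, IsCompact (⋃ a ∈ I.filter fun a => (f a).1 = k,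
      Z k '' cube (lat (lam * h) (f a).2) (lam * h)) := fun k =>
    Finset.isCompact_biUnion _ fun a _ => (isCompact_cube _ _).image (Z k).continuous
  refine ⟨n, fun a => (f a).1, fun a => lat (lam * h) (f a).2, fun k => U k \
    ⋃ a ∈ I.filter fun a => (f a).1 = k, Z k '' cube (lat (lam * h) (f a).2) (lam * h), hn,
    fun k => (hU k).sdiff (hcl k).isClosed, fun k => sdiff_subset, ?_, fun a ha => ?_,
    fun a a' ha ha' hne ht => ?_⟩
  · have e : (I.card : ℝ) = ∑ k, ((I.filter fun a => (f a).1 = k).card : ℝ) := by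
      exact_mod_cast Finset.card_eq_sum_card_fiberwise (t := Finset.univ)
        (f := fun a => (f a).1) fun a _ => Finset.mem_coe.mpr (Finset.mem_univ _)
    rw [e, Finset.sum_mul] at hc
    refine lt_of_lt_of_le (sub_lt_sub_left hc S) ?_
    rw [hS, ← Finset.sum_sub_distrib]
    refine Finset.sum_le_sum fun k _ => ?_
    have a1 := MeasureTheory.le_measureReal_sdiff (s₁ := U k) (hcl k).measure_lt_top.ne
      (μ := MeasureTheory.volume)
    have a2 := MeasureTheory.measureReal_biUnion_finset_le (μ := MeasureTheory.volume)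
      (I.filter fun a => (f a).1 = k) fun a => Z k '' cube (lat (lam * h) (f a).2) (lam * h)
    simp only [PackB_img, (vol_cube _ hh'.le).1, Finset.sum_const, nsmul_eq_mul] at a2
    have a3 := mul_le_mul_of_nonneg_left (le_trans (sub_le_sub_left a2 _) a1) (hp' k).le
    refine le_trans (le_of_eq ?_) a3
    rw [← hZ k]
    ring
  · have haI := (hIm a).mpr ha
    have h3 : (f a).2 ∈ J (f a).1 := (Finset.mem_sigma.mp (hf haI)).2
    refine fun y hy => ⟨image_subset_iff.mpr (hJ _ _ h3) hy, fun h4 => h4.2 ?_⟩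
    exact mem_iUnion₂.mpr ⟨a, Finset.mem_filter.mpr ⟨haI, rfl⟩, hy⟩
  · refine (cubeO_dis hh' fun e => hne ?_).mono_right (cubeO_sub _ _)
    exact hfi ((hIm a).mpr ha) ((hIm a').mpr ha') (Sigma.ext ht (heq_of_eq e))

theorem PackB_ind {ι κ : Type} [Fintype κ] {K : Set (Fin N → ℝ)} (hK : IsCompact K)
    {p : ι → ℝ} (hp : ∀ i, 0 < p i)
    {p' : κ → ℝ} (hp' : ∀ k, 0 < p' k) (Z : ι → κ → (Fin N → ℝ) →L[ℝ] Fin N → ℝ)
    (hZ : ∀ i k, |(Z i k).det| * p' k = p i) {lam : ℝ} (hl : 0 < lam) (s : Finset ι) :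
    ∀ U : κ → Set (Fin N → ℝ), (∀ k, IsOpen (U k)) → (∀ k, MeasureTheory.volume (U k) ≠ ⊤) →
      lam ^ N * MeasureTheory.volume.real K * ∑ i ∈ s, p i <
        ∑ k, p' k * MeasureTheory.volume.real (U k) →
    ∃ (n : ι → ℕ) (t : ι → (Fin N → ℤ) → κ) (c : ι → (Fin N → ℤ) → Fin N → ℝ),
      (∀ i, 0 < n i) ∧
      (∀ i ∈ s, ∀ a, (cube (lat (1 / n i) a) (1 / n i) ∩ K).Nonempty →
        Z i (t i a) '' cube (c i a) (lam * (1 / n i)) ⊆ U (t i a)) ∧
      ∀ i ∈ s, ∀ a, ∀ i' ∈ s, ∀ a', (cube (lat (1 / n i) a) (1 / n i) ∩ K).Nonempty →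
        (cube (lat (1 / n i') a') (1 / n i') ∩ K).Nonempty → (i, a) ≠ (i', a') → t i a = t i' a' →
        Disjoint (Z i (t i a) '' cubeO (c i a) (lam * (1 / n i)))
          (Z i' (t i' a') '' cubeO (c i' a') (lam * (1 / n i'))) := by
  classical
  induction s using Finset.induction_on with
  | empty =>
    intro U _ _ h
    obtain ⟨k⟩ : Nonempty κ := by
      by_contra hk
      rw [not_nonempty_iff] at hk
      rw [Finset.univ_eq_empty, Finset.sum_empty, Finset.sum_empty, mul_zero] at h
      exact h.ne rfl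
    exact ⟨fun _ => 1, fun _ _ => k, fun _ _ => 0, fun _ => one_pos, by simp, by simp⟩
  | insert j s hj ih =>
    intro U hU hU' h
    rw [Finset.sum_insert hj, mul_add] at h
    obtain ⟨x, hx1, hx2⟩ := exists_between (lt_sub_iff_add_lt.mpr h)
    have h0 : 0 ≤ lam ^ N * MeasureTheory.volume.real K * ∑ i ∈ s, p i :=
      mul_nonneg (by positivity) (Finset.sum_nonneg fun i _ => (hp i).le)
    obtain ⟨n0, t0, c0, U', a1, a2, a3, a4, a5, a6⟩ :=
      pack_one hK hU hU' (hp j) hp' (Z j) (hZ j) hl hx1 (by linarith)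
    obtain ⟨n, t, c, b1, b2, b3⟩ := ih U' a2
      (fun k => MeasureTheory.measure_ne_top_of_subset (a3 k) (hU' k)) (by linarith)
    have hs : ∀ i ∈ s, ¬i = j := fun i hi e => hj (e ▸ hi)
    have key : ∀ a, ∀ i' ∈ s, ∀ a', (cube (lat (1 / n0) a) (1 / n0) ∩ K).Nonempty →
        (cube (lat (1 / n i') a') (1 / n i') ∩ K).Nonempty → t0 a = t i' a' →
        Disjoint (Z j (t0 a) '' cubeO (c0 a) (lam * (1 / n0)))
          (Z i' (t i' a') '' cubeO (c i' a') (lam * (1 / n i'))) := fun a i' hi' a' ha ha' e => by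
      refine Set.disjoint_left.mpr fun y hy hy' => ?_
      refine (a5 a ha (image_mono (cubeO_sub _ _) hy)).2 ?_
      rw [e]
      exact b2 i' hi' a' ha' (image_mono (cubeO_sub _ _) hy')
    refine ⟨fun i => if i = j then n0 else n i, fun i => if i = j then t0 else t i,
      fun i => if i = j then c0 else c i, fun i => ?_, fun i hi a => ?_,
      fun i hi a i' hi' a' => ?_⟩
    · show 0 < if i = j then n0 else n i
      split_ifs
      exacts [a1, b1 i]
    · rcases Finset.mem_insert.mp hi with rfl | hi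
      · simp only [if_true]
        exact fun ha => (a5 a ha).trans sdiff_subset
      · simp only [if_neg (hs i hi)]
        exact fun ha => (b2 i hi a ha).trans (a3 _)
    · rcases Finset.mem_insert.mp hi with e | g <;> rcases Finset.mem_insert.mp hi' with e' | g'
      · subst e
        subst e'
        simp only [if_true]
        intro ha ha' hne e
        rw [← e]
        exact disjoint_image_of_injective
          ((Z _ _).toContinuousLinearEquivOfDetNeZero (PackB_det (hp _) (hZ _ _))).injective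
          (a6 a a' ha ha' (fun e' => hne (by rw [e'])) e)
      · subst e
        simp only [if_true, if_neg (hs i' g')]
        exact fun ha ha' _ e => key a i' g' a' ha ha' e
      · subst e'
        simp only [if_true, if_neg (hs i g)]
        exact fun ha ha' _ e => (key a' i g a ha' ha e.symm).symm
      · simp only [if_neg (hs i g), if_neg (hs i' g')]
        exact b3 i g a i' g' a'

theorem pack_abs {ι κ : Type} [Fintype ι] [Fintype κ] {K U : Set (Fin N → ℝ)} (hK : IsCompact K)
    (hU : IsOpen U) (hU' : MeasureTheory.volume U ≠ ⊤) {p : ι → ℝ} (hp : ∀ i, 0 < p i)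
    {p' : κ → ℝ} (hp' : ∀ k, 0 < p' k) (Z : ι → κ → (Fin N → ℝ) →L[ℝ] Fin N → ℝ)
    (hZ : ∀ i k, |(Z i k).det| * p' k = p i) {lam : ℝ} (hl : 0 < lam)
    (h : lam ^ N * MeasureTheory.volume.real K * ∑ i, p i <
      MeasureTheory.volume.real U * ∑ k, p' k) :
    ∃ (n : ι → ℕ) (t : ι → (Fin N → ℤ) → κ) (c : ι → (Fin N → ℤ) → Fin N → ℝ),
      (∀ i, 0 < n i) ∧
      (∀ i a, (cube (lat (1 / n i) a) (1 / n i) ∩ K).Nonempty →
        Z i (t i a) '' cube (c i a) (lam * (1 / n i)) ⊆ U) ∧
      ∀ i a i' a', (cube (lat (1 / n i) a) (1 / n i) ∩ K).Nonempty →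
        (cube (lat (1 / n i') a') (1 / n i') ∩ K).Nonempty → (i, a) ≠ (i', a') → t i a = t i' a' →
        Disjoint (Z i (t i a) '' cubeO (c i a) (lam * (1 / n i)))
          (Z i' (t i' a') '' cubeO (c i' a') (lam * (1 / n i'))) := by
  obtain ⟨n, t, c, b1, b2, b3⟩ := PackB_ind hK hp hp' Z hZ hl Finset.univ (fun _ => U)
    (fun _ => hU) (fun _ => hU') (by rwa [← Finset.sum_mul, mul_comm (∑ k, p' k)])
  exact ⟨n, t, c, b1, fun i => b2 i (Finset.mem_univ _),
    fun i a i' => b3 i (Finset.mem_univ _) a i' (Finset.mem_univ _)⟩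

end Pool.Agent.Work.MP_bf98aa_gt.Pl
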