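import Pool.Agent.Work.MP_bf98aa_gt.Pl.PDefs

/-!
The first shear of the profile. On the profile the clamp in s1 is saturated for s <= 0 (value -(rho - eta)_+/2) and for s >= L (value +(rho - eta)_+/2), and vanishes for rho <= eta. RR <= 1 + 2 delta everywhere, which settles the points
where the clamp is not saturated and s is outside (0, L). For 0 <= s <= L use only the bound abs_clamp_le and the middle term of RR. All proofs are case distinctions followed by linarith; unfold max and min with max_def, le_max_iff, max_le_iff, or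
first establish the value of each function on each interval. bd_arc: five arcs (lower slanted side, lower base, wall of the tube, upper base, upper slanted side); on them s1 <= 0, = s, >= L.
rat_lb: lb = RR for sigma <= -(1 - eta)/2 and for sigma >= L + (1 + 2 delta - eta)/2; in between eta <= RR <= 1 + 2 delta and 1 <= lb <= 2 + 4 delta.
-/

set_option autoImplicit false
set_option maxSynthPendingDepth 3
set_option linter.unusedSectionVars false
set_option linter.unusedVariables false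

open Set Filter Topology Metric

noncomputable section
namespace Pool.Agent.Work.MP_bf98aa_gt.Pl

open Pool.Agent.Work.MP_bf98aa_gt.Ns

variable {η L δ : ℝ}

theorem pl_e10 (η L : ℝ) : PL (e10 η L) := by
  exact (plOn_const _ _).max ((plOn_const _ _).min (((plOn_id _).const_mul _).min
    (((plOn_const _ _).sub (plOn_id _)).const_mul _)))

theorem pl_vb (δ L : ℝ) : PL (vb δ L) := by
  exact ((plOn_const _ _).min ((plOn_const _ _).max
    ((((plOn_id _).const_mul _).div_const _).sub (plOn_const _ _)))).const_mul _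

theorem pl_s0 (δ L : ℝ) : PL (s0 δ L) := by
  exact (((plOn_id _).neg.max (plOn_const _ _)).sub (pl_vb δ L)).add
    (((plOn_id _).sub (plOn_const _ _)).max (plOn_const _ _))

theorem ProfA_AA (η : ℝ) : PL (AA η) :=
  (plOn_id _).max (((plOn_id _).const_mul _).sub (plOn_const _ _))

theorem pl_RR (η L δ : ℝ) : PL (RR η L δ) := by
  exact ((ProfA_AA η).comp ((plOn_const _ _).add (plOn_id _))).min
    ((((plOn_const _ _).sub ((plOn_id _).const_mul _)).max ((plOn_const _ _).max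
      ((plOn_const _ _).add (((plOn_id _).sub (plOn_const _ _)).const_mul _)))).min
      ((ProfA_AA η).comp ((plOn_const _ _).sub (plOn_id _))))

theorem pl_lb (η L δ : ℝ) : PL (lb η L δ) := by
  exact ((((ProfA_AA η).comp ((plOn_const _ _).add ((plOn_id _).min (plOn_const _ _)))).add
    (pl_e10 η L)).add ((pl_vb δ L).const_mul _)).add
    (((ProfA_AA η).comp ((plOn_const _ _).sub ((plOn_id _).max (plOn_const _ _)))).sub
      (plOn_const _ _))

theorem plh_s1 (hL : 0 < L) (hδ : 0 < δ) (η : ℝ) :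
    ∃ ψ, IsPLH (fun u : ℝ × ℝ => (u.1, s1 η L δ u)) ψ := by
  have hp : PL (s1 η L δ) := (plOn_snd _).add
    ((((plOn_snd _).sub (plOn_const _ _)).const_mul _).clamp
      ((((plOn_fst _).sub (plOn_const _ _)).max (plOn_const _ _)).div_const _))
  refine shear_snd hp (fun x => strictMono_id.add_monotone fun s t h => ?_) fun x y => ?_
  · exact max_le_max le_rfl (min_le_min le_rfl
      (mul_le_mul_of_nonneg_left (sub_le_sub_right h _) (by positivity)))
  · have hb : 0 ≤ max (x - η) 0 / 2 := by positivity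
    refine mem_range_of_exists_le_of_exists_ge (hp.continuous.comp (Continuous.prodMk_right x))
      ⟨y - max (x - η) 0 / 2, ?_⟩ ⟨y + max (x - η) 0 / 2, ?_⟩
    · exact (add_le_add le_rfl (abs_le.1 (abs_clamp_le hb)).2).trans (sub_add_cancel _ _).le
    · exact (add_neg_cancel_right _ _).ge.trans (add_le_add le_rfl (abs_le.1 (abs_clamp_le hb)).1)

theorem RR_le (hη : 0 < η) (hη' : η ≤ 1 / 8) (hL : 0 < L) (hδ : 0 < δ) (σ : ℝ) :
    RR η L δ σ ≤ 1 + 2 * δ := by
  simp only [RR, AA, min_le_iff, max_le_iff]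
  rcases le_total σ (-(1 - η) / 2) with h | h
  · exact Or.inl ⟨by linarith, by linarith⟩
  rcases le_total σ (L + (1 + 2 * δ - η) / 2) with h' | h'
  · exact Or.inr (Or.inl ⟨by linarith, by linarith, by linarith⟩)
  · exact Or.inr (Or.inr ⟨by linarith, by linarith⟩)

theorem RR_range (hη : 0 < η) (hη' : η ≤ 1 / 8) (hL : 0 < L) (hδ : 0 < δ) {σ : ℝ}
    (h : 0 ≤ RR η L δ σ) : -1 ≤ σ ∧ σ ≤ L + 1 + 2 * δ := by
  simp only [RR, AA, le_min_iff, le_max_iff] at h
  obtain ⟨h1 | h1, -, h2 | h2⟩ := h <;> constructor <;> linarith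

theorem ProfA_s1 (hL : 0 < L) (hδ : 0 < δ) (η : ℝ) (u : ℝ × ℝ) : ∃ b c, s1 η L δ u = u.2 + c ∧
    (u.1 ≤ η ∧ b = 0 ∨ η ≤ u.1 ∧ 2 * b = u.1 - η) ∧ -b ≤ c ∧ c ≤ b ∧
    (b ≤ 1 + 2 * δ → (u.2 ≤ 0 → c = -b) ∧ (L ≤ u.2 → c = b)) := by
  have hb : 0 ≤ max (u.1 - η) 0 / 2 := by positivity
  have hk : 0 ≤ 2 * (1 + 2 * δ) / L := by positivity
  have e : 2 * (1 + 2 * δ) / L * (L / 2) = 1 + 2 * δ := by field_simp
  refine ⟨max (u.1 - η) 0 / 2, _, rfl, ?_, (abs_le.1 (abs_clamp_le hb)).1,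
    (abs_le.1 (abs_clamp_le hb)).2, fun h => ⟨fun h' => clamp_bot hb ?_, fun h' => clamp_top hb ?_⟩⟩
  · rcases le_total u.1 η with h | h
    · exact Or.inl ⟨h, by rw [max_eq_right (by linarith), zero_div]⟩
    · exact Or.inr ⟨h, by rw [max_eq_left (by linarith)]; ring⟩
  · nlinarith [mul_nonneg hk (neg_nonneg.2 h')]
  · nlinarith [mul_nonneg hk (sub_nonneg.2 h')]

theorem mem_prof (hη : 0 < η) (hη' : η ≤ 1 / 8) (hL : 0 < L) (hδ : 0 < δ) (u : ℝ × ℝ) :
    u ∈ prof η L L (L + 1 + 2 * δ) ↔ 0 ≤ u.1 ∧ u.1 ≤ RR η L δ (s1 η L δ u) := by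
  obtain ⟨b, c, e, hb, c1, c2, hc⟩ := ProfA_s1 hL hδ η u
  refine and_congr_right fun h0 => ⟨fun h => ?_, fun h => ?_⟩
  · simp only [e, RR, AA, le_min_iff, le_max_iff]
    rcases h with ⟨h1, h2⟩ | ⟨h1, h2, h3⟩ | ⟨h1, h2⟩
    · have := (hc (by rcases hb with hb | hb <;> linarith [hb.1, hb.2])).1 h1
      rcases hb with ⟨b1, b2⟩ | ⟨b1, b2⟩
      · exact ⟨Or.inl (by linarith), Or.inl (by linarith), Or.inl (by linarith)⟩
      · exact ⟨Or.inr (by linarith), Or.inl (by linarith), Or.inl (by linarith)⟩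
    · have : b = 0 := by rcases hb with hb | hb <;> linarith [hb.1, hb.2]
      exact ⟨Or.inl (by linarith), Or.inr (Or.inl h3), Or.inl (by linarith)⟩
    · have := (hc (by rcases hb with hb | hb <;> linarith [hb.1, hb.2])).2 h1
      rcases hb with ⟨b1, b2⟩ | ⟨b1, b2⟩
      · exact ⟨Or.inl (by linarith), Or.inr (Or.inl b1), Or.inl (by linarith)⟩
      · exact ⟨Or.inr (by linarith), Or.inr (Or.inr (by linarith)), Or.inr (by linarith)⟩
  · have h1 := h.trans (RR_le hη hη' hL hδ _)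
    obtain ⟨c3, c4⟩ := hc (by rcases hb with hb | hb <;> linarith [hb.1, hb.2])
    simp only [e, RR, AA, le_min_iff, le_max_iff] at h
    obtain ⟨r1, r2, r3⟩ := h
    rcases le_or_gt u.2 0 with h2 | h2
    · have := c3 h2
      refine Or.inl ⟨h2, ?_⟩
      rcases hb with ⟨b1, b2⟩ | ⟨b1, b2⟩ <;> rcases r1 with r1 | r1 <;> linarith
    rcases le_or_gt L u.2 with h3 | h3
    · have := c4 h3
      refine Or.inr (Or.inr ⟨h3, ?_⟩)
      rcases hb with ⟨b1, b2⟩ | ⟨b1, b2⟩ <;> rcases r3 with r3 | r3 <;> linarith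
    · refine Or.inr (Or.inl ⟨h2.le, h3.le, ?_⟩)
      rcases hb with ⟨b1, b2⟩ | ⟨b1, b2⟩ <;> rcases r2 with r2 | r2 | r2 <;> linarith

theorem mem_profO (hη : 0 < η) (hη' : η ≤ 1 / 8) (hL : 0 < L) (hδ : 0 < δ) (u : ℝ × ℝ) :
    u ∈ profO η L L (L + 1 + 2 * δ) ↔ 0 ≤ u.1 ∧ u.1 < RR η L δ (s1 η L δ u) := by
  obtain ⟨b, c, e, hb, c1, c2, hc⟩ := ProfA_s1 hL hδ η u
  refine and_congr_right fun h0 => ⟨fun h => ?_, fun h => ?_⟩
  · simp only [e, RR, AA, lt_min_iff, lt_max_iff]
    rcases h with ⟨h1, h2⟩ | ⟨h1, h2, h3⟩ | ⟨h1, h2⟩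
    · have := (hc (by rcases hb with hb | hb <;> linarith [hb.1, hb.2])).1 h1.le
      rcases hb with ⟨b1, b2⟩ | ⟨b1, b2⟩
      · exact ⟨Or.inl (by linarith), Or.inl (by linarith), Or.inl (by linarith)⟩
      · exact ⟨Or.inr (by linarith), Or.inl (by linarith), Or.inl (by linarith)⟩
    · have : b = 0 := by rcases hb with hb | hb <;> linarith [hb.1, hb.2]
      exact ⟨Or.inl (by linarith), Or.inr (Or.inl h3), Or.inl (by linarith)⟩
    · have := (hc (by rcases hb with hb | hb <;> linarith [hb.1, hb.2])).2 h1.le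
      rcases hb with ⟨b1, b2⟩ | ⟨b1, b2⟩
      · exact ⟨Or.inl (by linarith), Or.inr (Or.inr (by linarith)), Or.inl (by linarith)⟩
      · exact ⟨Or.inr (by linarith), Or.inr (Or.inr (by linarith)), Or.inr (by linarith)⟩
  · have h1 := h.trans_le (RR_le hη hη' hL hδ _)
    obtain ⟨c3, c4⟩ := hc (by rcases hb with hb | hb <;> linarith [hb.1, hb.2])
    simp only [e, RR, AA, lt_min_iff, lt_max_iff] at h
    obtain ⟨r1, r2, r3⟩ := h
    rcases lt_or_ge u.2 0 with h2 | h2
    · have := c3 h2.le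
      refine Or.inl ⟨h2, ?_⟩
      rcases hb with ⟨b1, b2⟩ | ⟨b1, b2⟩ <;> rcases r1 with r1 | r1 <;> linarith
    rcases lt_or_ge L u.2 with h3 | h3
    · have := c4 h3.le
      refine Or.inr (Or.inr ⟨h3, ?_⟩)
      rcases hb with ⟨b1, b2⟩ | ⟨b1, b2⟩ <;> rcases r3 with r3 | r3 <;> linarith
    · refine Or.inr (Or.inl ⟨by linarith, by linarith, ?_⟩)
      rcases hb with ⟨b1, b2⟩ | ⟨b1, b2⟩ <;> rcases r2 with r2 | r2 | r2 <;> linarith

theorem ProfA_small {x y : ℝ} (h : x ≤ η) (e : y = x) : y = AA η x :=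
  e.trans (max_eq_left (by linarith)).symm

theorem ProfA_big {x y : ℝ} (h : η ≤ x) (e : y = 2 * x - η) : y = AA η x :=
  e.trans (max_eq_right (by linarith)).symm

theorem ProfA_lo (hη : 0 < η) (hL : 0 < L) (δ : ℝ) {σ : ℝ} (h : σ ≤ 0) :
    e10 η L σ = 0 ∧ vb δ L σ = 0 ∧ lb η L δ σ = AA η (1 + σ) ∧ s0 δ L σ = -σ := by
  have h1 : e10 η L σ = 0 := max_eq_left ((min_le_right _ _).trans ((min_le_left _ _).trans
    (mul_nonpos_of_nonneg_of_nonpos (by positivity) h)))
  have h2 : vb δ L σ = 0 := by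
    have : 3 * σ / L ≤ 0 := div_nonpos_of_nonpos_of_nonneg (by linarith) hL.le
    rw [vb, max_eq_left (by linarith), min_eq_right zero_le_one, mul_zero]
  refine ⟨h1, h2, ?_, ?_⟩
  · rw [lb, h1, h2, min_eq_left h, max_eq_right (h.trans hL.le),
      show L + 1 + 2 * δ - L = 1 + 2 * δ by ring]
    ring
  · rw [s0, h2, max_eq_left (by linarith), max_eq_right (by linarith)]
    ring

theorem ProfA_hi (hη : 0 < η) (hη' : η ≤ 1 / 8) (hL : 0 < L) (hδ : 0 < δ) {σ : ℝ} (h : L ≤ σ) :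
    e10 η L σ = 0 ∧ vb δ L σ = δ ∧ lb η L δ σ = AA η (L + 1 + 2 * δ - σ) ∧
      s0 δ L σ = σ - L - δ := by
  have h1 : e10 η L σ = 0 := max_eq_left ((min_le_right _ _).trans ((min_le_right _ _).trans
    (mul_nonpos_of_nonneg_of_nonpos (by positivity) (by linarith))))
  have h2 : vb δ L σ = δ := by
    have : 2 ≤ 3 * σ / L := by
      rw [le_div_iff₀ hL]
      linarith
    rw [vb, max_eq_right (by linarith), min_eq_left (by linarith), mul_one]
  refine ⟨h1, h2, ?_, ?_⟩
  · rw [lb, h1, h2, min_eq_right (hL.le.trans h), max_eq_left h,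
      ← ProfA_big (x := 1 + 0) (by linarith) rfl, ← ProfA_big (x := 1 + 2 * δ) (by linarith) rfl]
    ring
  · rw [s0, h2, max_eq_right (by linarith), max_eq_left (by linarith)]
    ring

theorem ProfA_mid (hη : 0 < η) (hη' : η ≤ 1 / 8) (hδ : 0 < δ) {σ : ℝ} (h : 0 ≤ σ) (h' : σ ≤ L) :
    0 ≤ e10 η L σ ∧ e10 η L σ ≤ η / 2 ∧ 0 ≤ vb δ L σ ∧ vb δ L σ ≤ δ ∧
      lb η L δ σ = 2 - η + e10 η L σ + 4 * vb δ L σ ∧ s0 δ L σ = -vb δ L σ := by
  refine ⟨le_max_left _ _, max_le (by linarith) (min_le_left _ _),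
    mul_nonneg hδ.le (le_min zero_le_one (le_max_left _ _)),
    mul_le_of_le_one_right hδ.le (min_le_left _ _), ?_, ?_⟩
  · rw [lb, min_eq_right h, max_eq_right h', ← ProfA_big (x := 1 + 0) (by linarith) rfl,
      show L + 1 + 2 * δ - L = 1 + 2 * δ by ring]
    ring
  · rw [s0, max_eq_right (by linarith), max_eq_right (by linarith)]
    ring

theorem ProfA_psi1 {x y : ℝ} (h : 1 - x - 2 * y ≤ 0) : psiC (x, y) = (x, x + y - 1) := by
  simp [psiC, max_eq_right h]

theorem ProfA_psi2 {x y : ℝ} (h : 0 ≤ 1 - x - 2 * y) : psiC (x, y) = (2 - x - 4 * y, -y) := by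
  simp only [psiC, max_eq_left h, Prod.mk.injEq]
  constructor <;> ring

theorem bd_arc (hη : 0 < η) (hη' : η ≤ 1 / 8) (hL : 0 < L) (hδ : 0 < δ) {u : ℝ × ℝ}
    (h : u ∈ prof η L L (L + 1 + 2 * δ)) (h' : u ∉ profO η L L (L + 1 + 2 * δ)) :
    psiC (u.1 - e10 η L u.2, s0 δ L u.2) = (lb η L δ (s1 η L δ u), vb δ L (s1 η L δ u)) := by
  obtain ⟨b, c, e, hb, c1, c2, hc⟩ := ProfA_s1 hL hδ η u
  obtain ⟨h0, h⟩ := h
  have b0 : 0 ≤ b := by linarith
  simp only [profO, mem_ofPred_eq, h0, true_and, not_or, not_and, not_lt] at h'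
  obtain ⟨n1, n2, n3⟩ := h'
  rw [e]
  rcases h with ⟨h1, h2⟩ | ⟨h1, h2, h3⟩ | ⟨h1, h2⟩
  · have := (hc (by rcases hb with hb | hb <;> linarith [hb.1, hb.2])).1 h1
    obtain ⟨a1, -, -, a4⟩ := ProfA_lo hη hL δ h1
    obtain ⟨-, a2, a3, -⟩ := ProfA_lo hη hL δ (σ := u.2 + c) (by linarith)
    rw [a1, a2, a3, a4]
    rcases h1.eq_or_lt with h3 | h3
    · have h4 := n2 (by linarith) (by linarith)
      have : 2 * b = u.1 - η := by rcases hb with hb | hb <;> linarith [hb.1, hb.2]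
      rw [ProfA_psi2 (by linarith)]
      exact Prod.ext (ProfA_big (by linarith) (by linarith)) (by linarith)
    · have h4 := n1 h3
      rw [ProfA_psi1 (by linarith)]
      refine Prod.ext ?_ (by linarith)
      rcases hb with ⟨b1, b2⟩ | ⟨b1, b2⟩
      · exact ProfA_small (by linarith) (by linarith)
      · exact ProfA_big (by linarith) (by linarith)
  · have h4 := n2 (by linarith) (by linarith)
    have : b = 0 := by rcases hb with hb | hb <;> linarith [hb.1, hb.2]
    obtain rfl : c = 0 := by linarith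
    obtain ⟨a1, a2, a3, a4, a5, a6⟩ := ProfA_mid hη hη' hδ h1 h2
    rw [add_zero, a5, a6, ProfA_psi2 (by linarith)]
    exact Prod.ext (by linarith) (neg_neg _)
  · have := (hc (by rcases hb with hb | hb <;> linarith [hb.1, hb.2])).2 h1
    obtain ⟨a1, -, -, a4⟩ := ProfA_hi hη hη' hL hδ h1
    obtain ⟨-, a2, a3, -⟩ := ProfA_hi hη hη' hL hδ (σ := u.2 + c) (by linarith)
    rw [a1, a2, a3, a4]
    rcases h1.eq_or_lt with h3 | h3
    · have h4 := n2 (by linarith) (by linarith)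
      have : 2 * b = u.1 - η := by rcases hb with hb | hb <;> linarith [hb.1, hb.2]
      rw [ProfA_psi2 (by linarith)]
      exact Prod.ext (ProfA_big (by linarith) (by linarith)) (by linarith)
    · have h4 := n3 h3
      rw [ProfA_psi1 (by linarith)]
      refine Prod.ext ?_ (by linarith)
      rcases hb with ⟨b1, b2⟩ | ⟨b1, b2⟩
      · exact ProfA_small (by linarith) (by linarith)
      · exact ProfA_big (by linarith) (by linarith)

theorem rat_lb (hη : 0 < η) (hη' : η ≤ 1 / 8) (hL : 0 < L) (hδ : 0 < δ) {σ : ℝ}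
    (h : -1 ≤ σ) (h' : σ ≤ L + 1 + 2 * δ) : Rat ((2 + 4 * δ) / η) (RR η L δ σ) (lb η L δ σ) := by
  have hΛ : 0 ≤ (2 + 4 * δ) / η := by positivity
  have e : (2 + 4 * δ) / η * η = 2 + 4 * δ := div_mul_cancel₀ _ hη.ne'
  have k1 : ∀ x, 0 ≤ x → Rat ((2 + 4 * δ) / η) (AA η x) (AA η x) := fun x hx => by
    have h0 : 0 ≤ AA η x := hx.trans (le_max_left _ _)
    have := mul_nonneg hΛ h0
    exact ⟨h0, h0, by linarith, by linarith⟩
  rcases le_total σ (-(1 - η) / 2) with h1 | h1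
  · have h2 : AA η (1 + σ) ≤ 1 := max_le (by linarith) (by linarith)
    have h4 : RR η L δ σ = AA η (1 + σ) := min_eq_left (h2.trans (le_min
      (le_max_of_le_left (by linarith)) (le_max_of_le_left (by linarith))))
    rw [(ProfA_lo hη hL δ (by linarith)).2.2.1, h4]
    exact k1 _ (by linarith)
  rcases le_total (L + (1 + 2 * δ - η) / 2) σ with h2 | h2
  · have h3 : AA η (L + 1 + 2 * δ - σ) ≤ 1 + 2 * δ := max_le (by linarith) (by linarith)
    have h4 : RR η L δ σ = AA η (L + 1 + 2 * δ - σ) :=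
      le_antisymm ((min_le_right _ _).trans (min_le_right _ _))
        (le_min (h3.trans (le_max_of_le_right (by linarith)))
          (le_min (h3.trans (le_max_of_le_right (le_max_of_le_right (by linarith)))) le_rfl))
    rw [(ProfA_hi hη hη' hL hδ (by linarith)).2.2.1, h4]
    exact k1 _ (by linarith)
  have r1 : η ≤ RR η L δ σ := le_min (le_max_of_le_left (by linarith))
    (le_min (le_max_of_le_right (le_max_left _ _)) (le_max_of_le_left (by linarith)))
  have r2 := RR_le hη hη' hL hδ σ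
  have r3 : 1 ≤ lb η L δ σ ∧ lb η L δ σ ≤ 2 + 4 * δ := by
    rcases le_total σ 0 with h3 | h3
    · rw [(ProfA_lo hη hL δ h3).2.2.1]
      exact ⟨le_max_of_le_right (by linarith), max_le (by linarith) (by linarith)⟩
    rcases le_total L σ with h4 | h4
    · rw [(ProfA_hi hη hη' hL hδ h4).2.2.1]
      exact ⟨le_max_of_le_right (by linarith), max_le (by linarith) (by linarith)⟩
    · obtain ⟨a1, a2, a3, a4, a5, -⟩ := ProfA_mid hη hη' hδ h3 h4
      constructor <;> linarith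
  have m1 := mul_le_mul_of_nonneg_left r1 hΛ
  have m2 := mul_le_mul_of_nonneg_left r3.1 hΛ
  have m3 := mul_le_mul_of_nonneg_left hη' hΛ
  exact ⟨by linarith, by linarith [r3.1], by linarith [r3.2], by linarith [r3.1]⟩

end Pool.Agent.Work.MP_bf98aa_gt.Pl
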