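import Pool.Agent.Work.MP_bf98aa_gt.Pl.ProfA

/-!
The target. Write c = delta / (8 (2 + 4 delta)) <= 1/32. tl has slope at least 1/2 in the second variable, is c-Lipschitz in the first, tl (l, 0) = c l and tl (l, delta) = delta - c l for 0 <= l <= 2 + 4 delta.
slice_in: if v < 0 then tl (l, v) < c l <= c l0 <= tl (l0, v0); the same at the top; if v < v0 then (v0 - v)/2 <= c (l0 - l), so 4 (v0 - v) <= l0 - l. slice_out: three cases of the arc, the same inequalities.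
al: on [-1, L/3] it is c lb with lb strictly increasing, on [L/3, 2L/3] lb = 2 - eta/2 + 4 vb and the slope in vb is at least 1/2 - 4c > 0 (tl is monotone up to c-Lipschitz), on [2L/3, L + 1 + 2 delta] it is delta - c lb with lb strictly decreasing,
outside lb <= 0 and al is a translate of the identity. Strict monotonicity on consecutive closed intervals glues (StrictMonoOn.union, StrictMonoOn.Iic_union_Ici). psiC = A o bend with A (r, s) = (r, r + s - 1), l = 1 - r - 2 s, u = (2, -1).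
-/

set_option autoImplicit false
set_option maxSynthPendingDepth 3
set_option linter.unusedSectionVars false
set_option linter.unusedVariables false

open Set Filter Topology Metric

noncomputable section
namespace Pool.Agent.Work.MP_bf98aa_gt.Pl

open Pool.Agent.Work.MP_bf98aa_gt.Ns

variable {η L δ : ℝ}

/-- The slope of the tilt. -/
def ProfB_c (δ : ℝ) : ℝ := δ / (8 * (2 + 4 * δ))

theorem ProfB_cc (hδ : 0 < δ) :
    0 < ProfB_c δ ∧ ProfB_c δ ≤ 1 / 32 ∧ ProfB_c δ * (2 + 4 * δ) = δ / 8 := by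
  unfold ProfB_c
  refine ⟨by positivity, ?_, by field_simp⟩
  rw [div_le_iff₀ (by positivity)]
  linarith

theorem ProfB_c1 {u u' : ℝ} (h : u' ≤ u) (b : ℝ) : clamp u b - (u - u') ≤ clamp u' b := by
  simp only [clamp, max_def, min_def]
  split_ifs <;> linarith

theorem ProfB_c2 {b b' : ℝ} (h : b ≤ b') (u : ℝ) :
    clamp u b' ≤ clamp u b + (b' - b) ∧ clamp u b ≤ clamp u b' + (b' - b) := by
  simp only [clamp, max_def, min_def]
  split_ifs <;> constructor <;> linarith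

theorem ProfB_tl (δ l v : ℝ) :
    tl δ (l, v) = v + clamp ((δ / 2 - v) / 2) (ProfB_c δ * max l 0) := rfl

theorem ProfB_slope (δ l : ℝ) {v v' : ℝ} (h : v ≤ v') :
    tl δ (l, v) + (v' - v) / 2 ≤ tl δ (l, v') := by
  have := ProfB_c1 (u := (δ / 2 - v) / 2) (u' := (δ / 2 - v') / 2) (by linarith)
    (ProfB_c δ * max l 0)
  rw [ProfB_tl, ProfB_tl]
  linarith

theorem ProfB_lip (hδ : 0 < δ) {l l' : ℝ} (h : l ≤ l') (v : ℝ) :
    tl δ (l', v) ≤ tl δ (l, v) + (l' - l) / 32 ∧ tl δ (l, v) ≤ tl δ (l', v) + (l' - l) / 32 := by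
  obtain ⟨c0, c1, -⟩ := ProfB_cc hδ
  have m1 : max l 0 ≤ max l' 0 := max_le_max h le_rfl
  have m2 : max l' 0 - max l 0 ≤ l' - l := by
    simp only [max_def]
    split_ifs <;> linarith
  have := ProfB_c2 (mul_le_mul_of_nonneg_left m1 c0.le) ((δ / 2 - v) / 2)
  have m3 := mul_le_mul c1 m2 (sub_nonneg.2 m1) (by norm_num)
  rw [ProfB_tl, ProfB_tl]
  constructor <;> linarith [this.1, this.2]

theorem ProfB_end (hδ : 0 < δ) {l : ℝ} (h : l ≤ 2 + 4 * δ) :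
    tl δ (l, 0) = ProfB_c δ * max l 0 ∧ tl δ (l, δ) = δ - ProfB_c δ * max l 0 := by
  obtain ⟨c0, -, c2⟩ := ProfB_cc hδ
  have m0 : 0 ≤ ProfB_c δ * max l 0 := mul_nonneg c0.le (le_max_right _ _)
  have m1 := mul_le_mul_of_nonneg_left (max_le h (by linarith : (0 : ℝ) ≤ 2 + 4 * δ)) c0.le
  rw [ProfB_tl, ProfB_tl, clamp_top m0 (by linarith), clamp_bot m0 (by linarith)]
  exact ⟨zero_add _, (sub_eq_add_neg _ _).symm⟩

theorem ProfB_bd (hδ : 0 < δ) {l : ℝ} (h0 : 0 ≤ l) (h : l ≤ 2 + 4 * δ) (v : ℝ) :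
    (0 ≤ v → ProfB_c δ * l + v / 2 ≤ tl δ (l, v)) ∧
    (v ≤ 0 → tl δ (l, v) ≤ ProfB_c δ * l + v / 2) ∧
    (v ≤ δ → tl δ (l, v) ≤ δ - ProfB_c δ * l - (δ - v) / 2) ∧
    (δ ≤ v → δ - ProfB_c δ * l - (δ - v) / 2 ≤ tl δ (l, v)) := by
  obtain ⟨e0, e1⟩ := ProfB_end hδ h
  rw [max_eq_left h0] at e0 e1
  refine ⟨fun h => ?_, fun h => ?_, fun h => ?_, fun h => ?_⟩ <;>
    linarith [ProfB_slope δ l h]

theorem ProfB_key (hδ : 0 < δ) {l l' v v' : ℝ} (h : l ≤ l') (e : tl δ (l, v) = tl δ (l', v')) :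
    v' - v ≤ (l' - l) / 16 := by
  rcases le_total v v' with h' | h'
  · linarith [ProfB_slope δ l' h', (ProfB_lip hδ h v).2]
  · linarith

theorem ProfB_pl (δ : ℝ) : PL (tl δ) :=
  (plOn_snd _).add ((((plOn_const _ _).sub (plOn_snd _)).div_const 2).clamp
    (((plOn_fst _).max (plOn_const _ _)).const_mul _))

theorem ProfB_surj {f : ℝ → ℝ} (hf : Continuous f) (a b C : ℝ) (h : ∀ s, a ≤ s → s - C ≤ f s)
    (h' : ∀ s, s ≤ b → f s ≤ s + C) : Function.Surjective f :=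
  hf.surjective
    (tendsto_atTop_mono' _ ((eventually_ge_atTop a).mono h)
      (tendsto_atTop_add_const_right _ (-C) tendsto_id))
    (tendsto_atBot_mono' _ ((eventually_le_atBot b).mono h')
      (tendsto_atBot_add_const_right _ C tendsto_id))

theorem plh_tl (hδ : 0 < δ) : ∃ ψ, IsPLH (fun u : ℝ × ℝ => (u.1, tl δ u)) ψ := by
  refine shear_snd (ProfB_pl δ) (fun x s s' h => ?_) fun x => ?_
  · linarith [ProfB_slope δ x h.le]
  · have hb := fun u : ℝ => abs_le.1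
      (abs_clamp_le (u := u) (mul_nonneg (ProfB_cc hδ).1.le (le_max_right x 0)))
    refine ProfB_surj ((ProfB_pl δ).continuous.comp (Continuous.prodMk_right x)) 0 0
      (ProfB_c δ * max x 0) (fun s _ => ?_) fun s _ => ?_
    · rw [ProfB_tl]
      linarith [(hb ((δ / 2 - s) / 2)).1]
    · rw [ProfB_tl]
      linarith [(hb ((δ / 2 - s) / 2)).2]

theorem plh_psiC : ∃ ψ, IsPLH psiC ψ := by
  have e : ∀ (y : ℝ × ℝ) (τ : ℝ), 1 - (y + τ • ((2, -1) : ℝ × ℝ)).1 -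
      2 * (y + τ • ((2, -1) : ℝ × ℝ)).2 = 1 - y.1 - 2 * y.2 := fun y τ => by
    simp
    ring
  obtain ⟨ψ, h⟩ := shear_bdd (u := fun y : ℝ × ℝ => max (1 - y.1 - 2 * y.2) 0)
    ((((plOn_const _ _).sub (plOn_fst _)).sub ((plOn_snd _).const_mul 2)).max (plOn_const _ _))
    (2, -1) (fun y τ τ' h => by simp only [e]; linarith)
    fun y => ⟨_, fun τ => by simp only [e]; exact le_rfl⟩
  obtain ⟨ψ', h'⟩ := shear_snd (k := fun u => u.1 + u.2 - 1)
    (((plOn_fst _).add (plOn_snd _)).sub (plOn_const _ _))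
    (fun x s s' h => by simp only; linarith) fun x y => ⟨y + 1 - x, by simp only; ring⟩
  have e' : psiC = fun y => (fun u : ℝ × ℝ => (u.1, u.1 + u.2 - 1))
      (y + max (1 - y.1 - 2 * y.2) 0 • ((2, -1) : ℝ × ℝ)) := by
    funext y
    ext <;> simp [psiC] <;> ring
  rw [e']
  exact ⟨_, h'.comp h⟩

theorem psiC_snd (u : ℝ × ℝ) : (psiC u).2 = max (u.1 + u.2 - 1) (-u.2) := by
  simp only [psiC, max_def]
  split_ifs <;> linarith

theorem psiC_targ (hη : 0 < η) (hη' : η ≤ 1 / 8) (u : ℝ × ℝ) :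
    u ∈ targ η δ ↔ psiC u ∈ quad η δ := by
  simp only [targ, quad, psiC, mem_ofPred_eq, max_def]
  split_ifs <;> constructor <;> rintro ⟨h1, h2, h3, h4⟩ <;> refine ⟨?_, ?_, ?_, ?_⟩ <;> linarith

theorem psiC_targO (hη : 0 < η) (hη' : η ≤ 1 / 8) (u : ℝ × ℝ) : u ∈ targO η δ ↔
    0 ≤ (psiC u).1 ∧ 0 < (psiC u).2 ∧ (psiC u).2 < δ ∧ (psiC u).1 < 2 - η + 4 * (psiC u).2 := by
  simp only [targO, psiC, mem_ofPred_eq, max_def]
  split_ifs <;> constructor <;> rintro ⟨h1, h2, h3, h4⟩ <;> refine ⟨?_, ?_, ?_, ?_⟩ <;> linarith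

theorem psiC_fst (hη : 0 < η) (hη' : η ≤ 1 / 8) {u : ℝ × ℝ} (h : u ∈ targ η δ) :
    u.1 ≤ (psiC u).1 ∧ ((psiC u).1 = u.1 ∨ η / 2 ≤ u.1) := by
  obtain ⟨h1, h2, h3, h4⟩ := h
  simp only [psiC]
  rcases le_total (1 - u.1 - 2 * u.2) 0 with h | h
  · rw [max_eq_right h]
    exact ⟨by linarith, .inl (by ring)⟩
  · rw [max_eq_right (by linarith)] at h2
    rw [max_eq_right (by linarith)] at h4
    rw [max_eq_left h]
    exact ⟨by linarith, .inr (by linarith)⟩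

theorem ProfB_AA (η : ℝ) {x y : ℝ} (h : x ≤ y) : AA η x + (y - x) ≤ AA η y := by
  simp only [AA, max_def]
  split_ifs <;> linarith

theorem ProfB_A1 {x : ℝ} (h : η ≤ x) : AA η x = 2 * x - η := max_eq_right (by linarith)

theorem ProfB_A0 (hη : 0 < η) : AA η 0 = 0 := max_eq_left (by linarith)

theorem ProfB_k (hη : 0 < η) (hL : 0 < L) :
    0 < 3 * η / (2 * L) ∧ 3 * η / (2 * L) * L = 3 * η / 2 :=
  ⟨by positivity, by field_simp⟩

theorem ProfB_vr (hδ : 0 < δ) (L σ : ℝ) : 0 ≤ vb δ L σ ∧ vb δ L σ ≤ δ :=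
  ⟨mul_nonneg hδ.le (le_min zero_le_one (le_max_left _ _)),
    mul_le_of_le_one_right hδ.le (min_le_left _ _)⟩

theorem ProfB_e (hη : 0 < η) (hL : 0 < L) (σ : ℝ) :
    (σ ≤ L / 3 → e10 η L σ = 3 * η / (2 * L) * max σ 0) ∧
    (2 * L / 3 ≤ σ → e10 η L σ = 3 * η / (2 * L) * (L - min σ L)) ∧
    (L / 3 ≤ σ → σ ≤ 2 * L / 3 → e10 η L σ = η / 2) := by
  obtain ⟨k0, k1⟩ := ProfB_k hη hL
  unfold e10
  generalize 3 * η / (2 * L) = k at k0 k1
  have hm : ∀ {a b : ℝ}, a ≤ b → k * a ≤ k * b := fun h => mul_le_mul_of_nonneg_left h k0.le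
  refine ⟨fun h => ?_, fun h => ?_, fun h h' => ?_⟩
  · have := hm h
    rcases le_total σ 0 with h0 | h0
    · have := hm h0
      rw [max_eq_right h0]
      simp only [max_def, min_def]
      split_ifs <;> linarith
    · have := hm h0
      rw [max_eq_left h0]
      simp only [max_def, min_def]
      split_ifs <;> linarith
  · have := hm h
    rcases le_total σ L with h0 | h0
    · have := hm h0
      rw [min_eq_left h0]
      simp only [max_def, min_def]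
      split_ifs <;> linarith
    · have := hm h0
      rw [min_eq_right h0]
      simp only [max_def, min_def]
      split_ifs <;> linarith
  · have := hm h
    have := hm h'
    simp only [max_def, min_def]
    split_ifs <;> linarith

theorem ProfB_lo (hη : 0 < η) (hL : 0 < L) (δ : ℝ) {σ : ℝ} (h : σ ≤ L / 3) : vb δ L σ = 0 ∧
    lb η L δ σ = AA η (1 + min σ 0) + 3 * η / (2 * L) * max σ 0 := by
  have v0 : vb δ L σ = 0 := by
    have : 3 * σ / L ≤ 1 := by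
      rw [div_le_one hL]
      linarith
    rw [vb, max_eq_left (by linarith), min_eq_right zero_le_one, mul_zero]
  refine ⟨v0, ?_⟩
  rw [lb, v0, max_eq_right (by linarith : σ ≤ L), (ProfB_e hη hL σ).1 h,
    show L + 1 + 2 * δ - L = 1 + 2 * δ by ring]
  ring

theorem ProfB_hi (hη : 0 < η) (hη' : η ≤ 1 / 8) (hL : 0 < L) (hδ : 0 < δ) {σ : ℝ}
    (h : 2 * L / 3 ≤ σ) : vb δ L σ = δ ∧
    lb η L δ σ = AA η (L + 1 + 2 * δ - max σ L) + 3 * η / (2 * L) * (L - min σ L) := by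
  have v0 : vb δ L σ = δ := by
    have : 2 ≤ 3 * σ / L := by
      rw [le_div_iff₀ hL]
      linarith
    rw [vb, min_eq_left (le_max_of_le_right (by linarith)), mul_one]
  refine ⟨v0, ?_⟩
  rw [lb, v0, min_eq_right (by linarith : 0 ≤ σ), (ProfB_e hη hL σ).2.1 h,
    ProfB_A1 (x := 1 + 0) (by linarith), ProfB_A1 (x := 1 + 2 * δ) (by linarith)]
  ring

theorem ProfB_mid (hη : 0 < η) (hη' : η ≤ 1 / 8) (hL : 0 < L) (δ : ℝ) {σ : ℝ} (h : L / 3 ≤ σ)
    (h' : σ ≤ 2 * L / 3) : vb δ L σ = δ * (3 * σ / L - 1) ∧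
    lb η L δ σ = 2 - η / 2 + 4 * vb δ L σ := by
  have h1 : 1 ≤ 3 * σ / L := by
    rw [le_div_iff₀ hL]
    linarith
  have h2 : 3 * σ / L ≤ 2 := by
    rw [div_le_iff₀ hL]
    linarith
  refine ⟨by rw [vb, max_eq_right (by linarith), min_eq_right (by linarith)], ?_⟩
  rw [lb, min_eq_right (by linarith : 0 ≤ σ), max_eq_right (by linarith : σ ≤ L),
    (ProfB_e hη hL σ).2.2 h h', ProfB_A1 (x := 1 + 0) (by linarith),
    show L + 1 + 2 * δ - L = 1 + 2 * δ by ring]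
  ring

theorem ProfB_up (hη : 0 < η) (hL : 0 < L) (δ : ℝ) {a b : ℝ} (h : a < b) (hb : b ≤ L / 3) :
    lb η L δ a < lb η L δ b := by
  have k0 := (ProfB_k hη hL).1
  have h1 := ProfB_AA η (x := 1 + min a 0) (y := 1 + min b 0)
    (by linarith [min_le_min h.le (le_refl (0 : ℝ))])
  rw [(ProfB_lo hη hL δ hb).2, (ProfB_lo hη hL δ (h.le.trans hb)).2]
  rcases lt_or_ge a 0 with h0 | h0
  · have := mul_le_mul_of_nonneg_left (max_le_max h.le (le_refl (0 : ℝ))) k0.le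
    have : min a 0 < min b 0 := lt_min ((min_le_left _ _).trans_lt h) ((min_le_left _ _).trans_lt h0)
    linarith
  · have := mul_lt_mul_of_pos_left h k0
    rw [min_eq_right h0, min_eq_right (h0.trans h.le), max_eq_left h0, max_eq_left (h0.trans h.le)]
    linarith

theorem ProfB_down (hη : 0 < η) (hη' : η ≤ 1 / 8) (hL : 0 < L) (hδ : 0 < δ) {a b : ℝ} (h : a < b)
    (ha : 2 * L / 3 ≤ a) : lb η L δ b < lb η L δ a := by
  have k0 := (ProfB_k hη hL).1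
  have h1 := ProfB_AA η (x := L + 1 + 2 * δ - max b L) (y := L + 1 + 2 * δ - max a L)
    (by linarith [max_le_max h.le (le_refl L)])
  rw [(ProfB_hi hη hη' hL hδ ha).2, (ProfB_hi hη hη' hL hδ (ha.trans h.le)).2]
  rcases lt_or_ge L b with h0 | h0
  · have := mul_le_mul_of_nonneg_left (min_le_min h.le (le_refl L)) k0.le
    have : max a L < max b L := max_lt (h.trans_le (le_max_left _ _)) (h0.trans_le (le_max_left _ _))
    linarith
  · have := mul_lt_mul_of_pos_left h k0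
    rw [min_eq_left h0, min_eq_left (h.le.trans h0), max_eq_right h0, max_eq_right (h.le.trans h0)]
    linarith

theorem ProfB_z0 (hη : 0 < η) (hL : 0 < L) (δ : ℝ) : lb η L δ (-1) = 0 := by
  rw [(ProfB_lo hη hL δ (by linarith)).2, min_eq_left (by norm_num), max_eq_right (by norm_num),
    add_neg_cancel, ProfB_A0 hη, mul_zero, add_zero]

theorem ProfB_z1 (hη : 0 < η) (hη' : η ≤ 1 / 8) (hL : 0 < L) (hδ : 0 < δ) :
    lb η L δ (L + 1 + 2 * δ) = 0 := by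
  rw [(ProfB_hi hη hη' hL hδ (by linarith)).2, min_eq_right (by linarith),
    max_eq_left (by linarith), sub_self, sub_self, ProfB_A0 hη, mul_zero, add_zero]

theorem ProfB_upm (hη : 0 < η) (hL : 0 < L) (δ : ℝ) {a b : ℝ} (h : a ≤ b) (hb : b ≤ L / 3) :
    lb η L δ a ≤ lb η L δ b :=
  h.eq_or_lt.elim (fun e => by rw [e]) fun h => (ProfB_up hη hL δ h hb).le

theorem ProfB_downm (hη : 0 < η) (hη' : η ≤ 1 / 8) (hL : 0 < L) (hδ : 0 < δ) {a b : ℝ}
    (h : a ≤ b) (ha : 2 * L / 3 ≤ a) : lb η L δ b ≤ lb η L δ a :=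
  h.eq_or_lt.elim (fun e => by rw [e]) fun h => (ProfB_down hη hη' hL hδ h ha).le

theorem ProfB_le (hη : 0 < η) (hη' : η ≤ 1 / 8) (hL : 0 < L) (hδ : 0 < δ) (σ : ℝ) :
    lb η L δ σ ≤ 2 - η / 2 + 4 * vb δ L σ := by
  rcases le_total σ (L / 3) with h | h
  · have h1 := ProfB_upm hη hL δ h le_rfl
    rw [(ProfB_mid hη hη' hL δ le_rfl (by linarith)).2, (ProfB_lo hη hL δ le_rfl).1] at h1
    rwa [(ProfB_lo hη hL δ h).1]
  rcases le_total σ (2 * L / 3) with h' | h'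
  · exact (ProfB_mid hη hη' hL δ h h').2.le
  · have h1 := ProfB_downm hη hη' hL hδ h' le_rfl
    rw [(ProfB_mid hη hη' hL δ (by linarith) le_rfl).2, (ProfB_hi hη hη' hL hδ le_rfl).1] at h1
    rwa [(ProfB_hi hη hη' hL hδ h').1]

theorem ProfB_alo (hη : 0 < η) (hη' : η ≤ 1 / 8) (hL : 0 < L) (hδ : 0 < δ) {σ : ℝ}
    (h : σ ≤ L / 3) : al η L δ σ = ProfB_c δ * max (lb η L δ σ) 0 + min (σ + 1) 0 := by
  have h1 := ProfB_le hη hη' hL hδ σ
  have h2 := (ProfB_vr hδ L σ).2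
  rw [al, (ProfB_lo hη hL δ h).1, (ProfB_end hδ (by linarith)).1,
    max_eq_right (by linarith : σ - (L + 1 + 2 * δ) ≤ 0), add_zero]

theorem ProfB_ahi (hη : 0 < η) (hη' : η ≤ 1 / 8) (hL : 0 < L) (hδ : 0 < δ) {σ : ℝ}
    (h : 2 * L / 3 ≤ σ) :
    al η L δ σ = δ - ProfB_c δ * max (lb η L δ σ) 0 + max (σ - (L + 1 + 2 * δ)) 0 := by
  have h1 := ProfB_le hη hη' hL hδ σ
  have h2 := (ProfB_vr hδ L σ).2
  rw [al, (ProfB_hi hη hη' hL hδ h).1, (ProfB_end hδ (by linarith)).2,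
    min_eq_right (by linarith : 0 ≤ σ + 1), add_zero]

theorem ProfB_a0 (hη : 0 < η) (hη' : η ≤ 1 / 8) (hL : 0 < L) (hδ : 0 < δ) {σ : ℝ} (h : σ ≤ -1) :
    al η L δ σ = σ + 1 := by
  rw [ProfB_alo hη hη' hL hδ (by linarith), max_eq_right
    ((ProfB_upm hη hL δ h (by linarith)).trans_eq (ProfB_z0 hη hL δ)), min_eq_left (by linarith)]
  ring

theorem ProfB_a1 (hη : 0 < η) (hη' : η ≤ 1 / 8) (hL : 0 < L) (hδ : 0 < δ) {σ : ℝ}
    (h : L + 1 + 2 * δ ≤ σ) : al η L δ σ = δ + (σ - (L + 1 + 2 * δ)) := by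
  rw [ProfB_ahi hη hη' hL hδ (by linarith), max_eq_right
    ((ProfB_downm hη hη' hL hδ h (by linarith)).trans_eq (ProfB_z1 hη hη' hL hδ)),
    max_eq_left (by linarith)]
  ring

theorem ProfB_mono (hη : 0 < η) (hη' : η ≤ 1 / 8) (hL : 0 < L) (hδ : 0 < δ) :
    StrictMono (al η L δ) := by
  have c0 := (ProfB_cc hδ).1
  have s1 : StrictMonoOn (al η L δ) (Iic (L / 3)) := fun a ha b hb h => by
    rw [ProfB_alo hη hη' hL hδ ha, ProfB_alo hη hη' hL hδ hb]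
    have h1 := ProfB_up hη hL δ h hb
    rcases lt_or_ge a (-1) with h0 | h0
    · have := mul_le_mul_of_nonneg_left (max_le_max h1.le (le_refl (0 : ℝ))) c0.le
      have : min (a + 1) 0 < min (b + 1) 0 :=
        (min_le_left _ _).trans_lt (lt_min (by linarith) (by linarith))
      linarith
    · have h2 := (ProfB_z0 hη hL δ).symm.trans_le (ProfB_upm hη hL δ h0 ha)
      have := mul_lt_mul_of_pos_left h1 c0
      rw [max_eq_left h2, max_eq_left (h2.trans h1.le), min_eq_right (by linarith),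
        min_eq_right (by linarith)]
      linarith
  have s3 : StrictMonoOn (al η L δ) (Ici (2 * L / 3)) := fun a ha b hb h => by
    rw [ProfB_ahi hη hη' hL hδ ha, ProfB_ahi hη hη' hL hδ hb]
    have h1 := ProfB_down hη hη' hL hδ h ha
    rcases lt_or_ge (L + 1 + 2 * δ) b with h0 | h0
    · have := mul_le_mul_of_nonneg_left (max_le_max h1.le (le_refl (0 : ℝ))) c0.le
      have : max (a - (L + 1 + 2 * δ)) 0 < max (b - (L + 1 + 2 * δ)) 0 :=
        (max_lt (by linarith) (by linarith)).trans_le (le_max_left _ _)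
      linarith
    · have h2 := (ProfB_z1 hη hη' hL hδ).symm.trans_le (ProfB_downm hη hη' hL hδ h0 hb)
      have := mul_lt_mul_of_pos_left h1 c0
      rw [max_eq_left h2, max_eq_left (h2.trans h1.le), max_eq_right (by linarith),
        max_eq_right (by linarith)]
      linarith
  have s2 : StrictMonoOn (al η L δ) (Icc (L / 3) (2 * L / 3)) := fun a ha b hb h => by
    obtain ⟨va, la⟩ := ProfB_mid hη hη' hL δ ha.1 ha.2
    obtain ⟨vb', lb'⟩ := ProfB_mid hη hη' hL δ hb.1 hb.2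
    have h1 : vb δ L a < vb δ L b := by
      rw [va, vb']
      gcongr
    have h2 := ProfB_slope δ (lb η L δ b) h1.le
    have h3 := (ProfB_lip hδ (l := lb η L δ a) (l' := lb η L δ b) (by linarith) (vb δ L a)).2
    rw [al, al, min_eq_right (by linarith [ha.1]), min_eq_right (by linarith [hb.1]),
      max_eq_right (by linarith [ha.2]), max_eq_right (by linarith [hb.2])]
    linarith
  have hle : L / 3 ≤ 2 * L / 3 := by linarith
  exact s1.Iic_union_Ici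
    (Icc_union_Ici_eq_Ici hle ▸ s2.union s3 (isGreatest_Icc hle) isLeast_Ici)

theorem lb_arc (hη : 0 < η) (hη' : η ≤ 1 / 8) (hL : 0 < L) (hδ : 0 < δ) {σ : ℝ}
    (h : -1 ≤ σ) (h' : σ ≤ L + 1 + 2 * δ) : (lb η L δ σ, vb δ L σ) ∈ arc η δ := by
  obtain ⟨v0, v1⟩ := ProfB_vr hδ L σ
  have hl := ProfB_le hη hη' hL hδ σ
  rcases le_total σ (L / 3) with h1 | h1
  · exact ⟨⟨(ProfB_z0 hη hL δ).symm.trans_le (ProfB_upm hη hL δ h h1), v0, v1, hl⟩,
      .inl (ProfB_lo hη hL δ h1).1⟩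
  rcases le_total σ (2 * L / 3) with h2 | h2
  · have e := (ProfB_mid hη hη' hL δ h1 h2).2
    exact ⟨⟨show 0 ≤ lb η L δ σ by linarith, v0, v1, hl⟩, .inr (.inr e)⟩
  · exact ⟨⟨(ProfB_z1 hη hη' hL hδ).symm.trans_le (ProfB_downm hη hη' hL hδ h' h2), v0, v1, hl⟩,
      .inr (.inl (ProfB_hi hη hη' hL hδ h2).1)⟩

theorem plh_al (hη : 0 < η) (hη' : η ≤ 1 / 8) (hL : 0 < L) (hδ : 0 < δ) :
    ∃ ψ, IsPLH (fun u : ℝ × ℝ => (u.1, al η L δ u.2)) ψ := by
  have hp : PL (al η L δ) :=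
    (((ProfB_pl δ).comp ((pl_lb η L δ).prodMk (pl_vb δ L))).add
      (((plOn_id _).add (plOn_const _ _)).min (plOn_const _ _))).add
      (((plOn_id _).sub (plOn_const _ _)).max (plOn_const _ _))
  refine shear_snd (k := fun u => al η L δ u.2) (hp.comp (plOn_snd _))
    (fun _ => ProfB_mono hη hη' hL hδ) fun _ => ?_
  refine ProfB_surj hp.continuous (L + 1 + 2 * δ) (-1) (L + 1 + 2 * δ) (fun s h => ?_) fun s h => ?_
  · rw [ProfB_a1 hη hη' hL hδ h]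
    linarith
  · rw [ProfB_a0 hη hη' hL hδ h]
    linarith

theorem al_eq {σ : ℝ} (h : -1 ≤ σ) (h' : σ ≤ L + 1 + 2 * δ) :
    al η L δ σ = tl δ (lb η L δ σ, vb δ L σ) := by
  rw [al, min_eq_right (by linarith), max_eq_right (by linarith), add_zero, add_zero]

theorem al_range (hη : 0 < η) (hη' : η ≤ 1 / 8) (hL : 0 < L) (hδ : 0 < δ) {σ : ℝ}
    (h : 0 ≤ al η L δ σ) (h' : al η L δ σ ≤ δ) : -1 ≤ σ ∧ σ ≤ L + 1 + 2 * δ := by
  constructor <;> refine le_of_not_gt fun h1 => ?_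
  · rw [ProfB_a0 hη hη' hL hδ h1.le] at h
    linarith
  · rw [ProfB_a1 hη hη' hL hδ h1.le] at h'
    linarith

theorem tl_range (hη : 0 < η) (hδ : 0 < δ) {u : ℝ × ℝ} (h : u ∈ quad η δ) :
    0 ≤ tl δ u ∧ tl δ u ≤ δ := by
  obtain ⟨l, v⟩ := u
  obtain ⟨h1, h2, h3, h4⟩ : 0 ≤ l ∧ 0 ≤ v ∧ v ≤ δ ∧ l ≤ 2 - η / 2 + 4 * v := h
  obtain ⟨b1, -, b3, -⟩ := ProfB_bd hδ h1 (by linarith) v
  have := mul_nonneg (ProfB_cc hδ).1.le h1
  exact ⟨by linarith [b1 h2], by linarith [b3 h3]⟩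

theorem slice_in (hη : 0 < η) (hδ : 0 < δ) {u u0 : ℝ × ℝ} (h0 : u0 ∈ quad η δ) (h : 0 ≤ u.1)
    (h' : u.1 ≤ u0.1) (e : tl δ u = tl δ u0) :
    u ∈ quad η δ ∧ (u.1 < u0.1 → 0 < u.2 ∧ u.2 < δ) := by
  obtain ⟨l, v⟩ := u
  obtain ⟨l0, v0⟩ := u0
  obtain ⟨h1, h2, h3, h4⟩ : 0 ≤ l0 ∧ 0 ≤ v0 ∧ v0 ≤ δ ∧ l0 ≤ 2 - η / 2 + 4 * v0 := h0
  simp only at h h' ⊢
  obtain ⟨b1, -, b3, -⟩ := ProfB_bd hδ h1 (by linarith) v0
  obtain ⟨-, a2, -, a4⟩ := ProfB_bd hδ h (by linarith) v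
  have c0 := (ProfB_cc hδ).1
  have hk := ProfB_key hδ h' e
  have m1 := mul_le_mul_of_nonneg_left h' c0.le
  refine ⟨⟨h, le_of_not_gt fun (h : v < 0) => ?_, le_of_not_gt fun (h : δ < v) => ?_,
    show l ≤ 2 - η / 2 + 4 * v by linarith⟩, fun hl => ?_⟩
  · linarith [b1 h2, a2 h.le]
  · linarith [b3 h3, a4 h.le]
  · have m2 := mul_lt_mul_of_pos_left hl c0
    exact ⟨lt_of_not_ge fun h => by linarith [b1 h2, a2 h],
      lt_of_not_ge fun h => by linarith [b3 h3, a4 h]⟩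

theorem slice_out (hη : 0 < η) (hδ : 0 < δ) {u u0 : ℝ × ℝ} (h0 : u0 ∈ arc η δ) (h : 0 ≤ u.1)
    (h1 : 0 < u.2) (h2 : u.2 < δ) (h3 : u.1 < 2 - η / 2 + 4 * u.2) (e : tl δ u = tl δ u0) :
    u.1 < u0.1 := by
  obtain ⟨l, v⟩ := u
  obtain ⟨l0, v0⟩ := u0
  obtain ⟨⟨k1, k2, k3, k4⟩, k5⟩ : (0 ≤ l0 ∧ 0 ≤ v0 ∧ v0 ≤ δ ∧ l0 ≤ 2 - η / 2 + 4 * v0) ∧
    (v0 = 0 ∨ v0 = δ ∨ l0 = 2 - η / 2 + 4 * v0) := h0
  simp only at h h1 h2 h3 ⊢
  refine lt_of_not_ge fun h' => ?_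
  obtain ⟨-, b2, -, b4⟩ := ProfB_bd hδ k1 (by linarith) v0
  obtain ⟨a1, -, a3, -⟩ := ProfB_bd hδ h (by linarith) v
  have hk := ProfB_key hδ h' e.symm
  have m1 := mul_le_mul_of_nonneg_left h' (ProfB_cc hδ).1.le
  rcases k5 with k | k | k
  · linarith [b2 k.le, a1 h1.le]
  · linarith [b4 k.ge, a3 h2.le]
  · linarith

end Pool.Agent.Work.MP_bf98aa_gt.Pl
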