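import Pool.Agent.Work.MP_bf98aa_gt.Pl.ProfB

/-!
The plane map gamma = psiC^-1 o (fst, tl)^-1 o (fst, al o snd) o (th Lam (RR u.2) (lb u.2) u.1, u.2) o (fst, s1), Lam = (2 + 4 delta) / eta (shear_fst with th_strictMono, th_surj; IsPLH.comp, IsPLH.symm). So, with w = psiC (gamma u) and sigma = s1 u,
w.1 = th Lam (RR sigma) (lb sigma) u.1 and tl w = al sigma. mem: mem_prof, RR_range, th_top and monotonicity give 0 <= w.1 <= lb sigma, slice_in, psiC_targ; the bounds with C = max (1 + Lam) (2 (1 + 2 delta) / eta) from th_le, psiC_fst, RR_le.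
bd: u.1 = RR sigma, so w.1 = lb sigma, and injectivity of (fst, tl) and psiC with bd_arc. fwd: slice_in, psiC_snd. bwd: psiC_targO, tl_range, al_range, slice_out, mem_profO.
conn_targO: image under the inverse of psiC of a convex set. conn_gap: the set is the union of the three convex sets (eta < r < 2 eta, 0 < s < L), (eta < r, L - delta' < s < L, r + s < c + delta'), (0 <= r, L - delta' < s, c < r + s < c + delta').
-/

set_option autoImplicit false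
set_option maxSynthPendingDepth 3
set_option linter.unusedSectionVars false
set_option linter.unusedVariables false

open Set Filter Topology Metric

noncomputable section
namespace Pool.Agent.Work.MP_bf98aa_gt.Pl

open Pool.Agent.Work.MP_bf98aa_gt.Ns

variable {η L δ : ℝ}

theorem ProfC_map (hη : 0 < η) (hη' : η ≤ 1 / 8) (hL : 0 < L) (hδ : 0 < δ) :
    ∃ γ γ' : ℝ × ℝ → ℝ × ℝ, IsPLH γ γ' ∧ ∀ u, (psiC (γ u)).1 =
      th ((2 + 4 * δ) / η) (RR η L δ (s1 η L δ u)) (lb η L δ (s1 η L δ u)) u.1 ∧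
      tl δ (psiC (γ u)) = al η L δ (s1 η L δ u) := by
  have hΛ : 0 ≤ (2 + 4 * δ) / η := by positivity
  obtain ⟨ψ1, h1⟩ := plh_s1 hL hδ η
  obtain ⟨ψ2, h2⟩ := shear_fst
    (k := fun u : ℝ × ℝ => th ((2 + 4 * δ) / η) (RR η L δ u.2) (lb η L δ u.2) u.1)
    (pl_th _ ((pl_RR η L δ).comp (plOn_snd _)) ((pl_lb η L δ).comp (plOn_snd _)) (plOn_fst _))
    (fun s => th_strictMono hΛ (RR η L δ s) (lb η L δ s))
    fun s => th_surj hΛ (RR η L δ s) (lb η L δ s)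
  obtain ⟨ψ3, h3⟩ := plh_al hη hη' hL hδ
  obtain ⟨ψ4, h4⟩ := plh_tl hδ
  obtain ⟨ψ5, h5⟩ := plh_psiC
  refine ⟨_, _, h5.symm.comp (h4.symm.comp (h3.comp (h2.comp h1))), fun u => ?_⟩
  rw [h5.right]
  exact Prod.ext_iff.1 (h4.right _)

theorem prof_ex (hη : 0 < η) (hη' : η ≤ 1 / 8) (hL : 0 < L) (hδ : 0 < δ) :
    ∃ (C : ℝ) (γ γ' : ℝ × ℝ → ℝ × ℝ), IsProf η L δ C γ γ' := by
  obtain ⟨γ, γ', hγ, key⟩ := ProfC_map hη hη' hL hδ
  obtain ⟨ψ4, h4⟩ := plh_tl hδ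
  obtain ⟨ψ5, h5⟩ := plh_psiC
  obtain ⟨Λ, hΛe⟩ : ∃ Λ : ℝ, Λ = (2 + 4 * δ) / η := ⟨_, rfl⟩
  have hΛ : 0 ≤ Λ := by rw [hΛe]; positivity
  have hΛη : Λ * η = 2 + 4 * δ := by rw [hΛe]; field_simp
  rw [← hΛe] at key
  have top : ∀ σ, -1 ≤ σ → σ ≤ L + 1 + 2 * δ →
      th Λ (RR η L δ σ) (lb η L δ σ) (RR η L δ σ) = lb η L δ σ := fun σ a b =>
    th_top hΛ (hΛe ▸ rat_lb hη hη' hL hδ a b)
  have main : ∀ u ∈ prof η L L (L + 1 + 2 * δ), psiC (γ u) ∈ quad η δ ∧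
      ((psiC (γ u)).1 < lb η L δ (s1 η L δ u) → 0 < (psiC (γ u)).2 ∧ (psiC (γ u)).2 < δ) := by
    intro u hu
    obtain ⟨a, b⟩ := (mem_prof hη hη' hL hδ u).1 hu
    obtain ⟨c, d⟩ := RR_range hη hη' hL hδ (a.trans b)
    refine slice_in hη hδ (lb_arc hη hη' hL hδ c d).1 ?_ ?_ ((key u).2.trans (al_eq c d))
    · rw [(key u).1]
      exact (th_zero hΛ _ _).symm.trans_le ((th_strictMono hΛ _ _).monotone a)
    · rw [(key u).1]
      exact ((th_strictMono hΛ _ _).monotone b).trans_eq (top _ c d)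
  refine ⟨1 + Λ, γ, γ', hγ, by linarith, fun u hu => ?_, fun u hu hu' => ?_, fun u hu h => ?_,
    fun v hv => ?_⟩
  · obtain ⟨a, b⟩ := (mem_prof hη hη' hL hδ u).1 hu
    have ht := (psiC_targ hη hη' _).2 (main u hu).1
    obtain ⟨p, q⟩ := psiC_fst hη hη' ht
    obtain ⟨r, s⟩ := th_le hΛ (RR η L δ (s1 η L δ u)) (lb η L δ (s1 η L δ u)) a
    rw [← (key u).1] at r s
    refine ⟨ht, p.trans r, ?_⟩
    rcases q with q | q
    · rwa [q] at s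
    · have c := RR_le hη hη' hL hδ (s1 η L δ u)
      have d := mul_le_mul_of_nonneg_left q hΛ
      nlinarith
  · obtain ⟨a, b⟩ := (mem_prof hη hη' hL hδ u).1 hu
    obtain ⟨c, d⟩ := RR_range hη hη' hL hδ (a.trans b)
    have e : u.1 = RR η L δ (s1 η L δ u) :=
      le_antisymm b (not_lt.1 fun h => hu' ((mem_profO hη hη' hL hδ u).2 ⟨a, h⟩))
    refine h5.injective ?_
    rw [bd_arc hη hη' hL hδ hu hu']
    refine h4.injective (Prod.ext ?_ ((key u).2.trans (al_eq c d)))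
    show (psiC (γ u)).1 = lb η L δ (s1 η L δ u)
    rw [(key u).1]
    exact (congrArg _ e).trans (top _ c d)
  · obtain ⟨a, b⟩ := (mem_profO hη hη' hL hδ u).1 hu
    obtain ⟨c, d⟩ := RR_range hη hη' hL hδ (a.trans b.le)
    obtain ⟨p, q⟩ := main u ((mem_prof hη hη' hL hδ u).2 ⟨a, b.le⟩)
    have r := q (by
      rw [(key u).1]
      exact (th_strictMono hΛ _ _ b).trans_eq (top _ c d))
    rw [psiC_snd] at r
    exact ⟨((psiC_targ hη hη' _).2 p).1, r.1, r.2, h⟩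
  · obtain ⟨a, b, c, d⟩ := (psiC_targO hη hη' v).1 hv
    obtain ⟨k1, k2⟩ := key (γ' v)
    rw [hγ.right] at k1 k2
    have d' : (psiC v).1 < 2 - η / 2 + 4 * (psiC v).2 := by linarith
    obtain ⟨p, q⟩ := tl_range hη hδ (u := psiC v) ⟨a, b.le, c.le, d'.le⟩
    rw [k2] at p q
    obtain ⟨r, s⟩ := al_range hη hη' hL hδ p q
    have t := slice_out hη hδ (lb_arc hη hη' hL hδ r s) a b c d' (k2.trans (al_eq r s))
    refine (mem_profO hη hη' hL hδ _).2 ⟨?_, ?_⟩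
    · rw [k1] at a
      exact (th_strictMono hΛ _ _).le_iff_le.1 ((th_zero hΛ _ _).trans_le a)
    · rw [k1] at t
      exact (th_strictMono hΛ _ _).lt_iff_lt.1 (t.trans_eq (top _ r s).symm)

theorem ProfC_lin (a b : ℝ) : IsLinearMap ℝ fun w : ℝ × ℝ => a * w.1 + b * w.2 :=
  ⟨fun x y => by simp only [Prod.fst_add, Prod.snd_add]; ring,
    fun c x => by simp only [Prod.smul_fst, Prod.smul_snd, smul_eq_mul]; ring⟩

theorem ProfC_le (a b c : ℝ) : Convex ℝ {w : ℝ × ℝ | a * w.1 + b * w.2 ≤ c} :=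
  convex_halfSpace_le (ProfC_lin a b) c

theorem ProfC_lt (a b c : ℝ) : Convex ℝ {w : ℝ × ℝ | a * w.1 + b * w.2 < c} :=
  convex_halfSpace_lt (ProfC_lin a b) c

theorem conn_targO (hη : 0 < η) (hη' : η ≤ 1 / 8) : IsPreconnected (targO η δ) := by
  obtain ⟨ψ, h⟩ := plh_psiC
  have e : targO η δ = ψ '' ({w : ℝ × ℝ | -1 * w.1 + 0 * w.2 ≤ 0} ∩ {w | 0 * w.1 + -1 * w.2 < 0} ∩
      {w | 0 * w.1 + 1 * w.2 < δ} ∩ {w | 1 * w.1 + -4 * w.2 < 2 - η}) := by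
    rw [h.symm.image_eq]
    ext u
    rw [psiC_targO hη hη']
    simp only [mem_preimage, mem_inter_iff, mem_ofPred_eq]
    constructor
    · rintro ⟨a, b, c, d⟩
      exact ⟨⟨⟨by linarith, by linarith⟩, by linarith⟩, by linarith⟩
    · rintro ⟨⟨⟨a, b⟩, c⟩, d⟩
      exact ⟨by linarith, by linarith, by linarith, by linarith⟩
  rw [e]
  exact ((((ProfC_le _ _ _).inter (ProfC_lt _ _ _)).inter (ProfC_lt _ _ _)).inter
    (ProfC_lt _ _ _)).isPreconnected.image _ h.pl'.continuous.continuousOn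

theorem isCompact_prof (η L b c : ℝ) : IsCompact (prof η L b c) := by
  obtain ⟨R, hR⟩ : ∃ R : ℝ, R = 1 + |η| + |L| + |b| + |c| := ⟨_, rfl⟩
  refine (isCompact_Icc (a := ((-R, -R) : ℝ × ℝ)) (b := (R, R))).of_isClosed_subset ?_ ?_
  · refine (isClosed_le continuous_const continuous_fst).inter (IsClosed.union ?_
      (IsClosed.union ?_ ?_))
    · exact (isClosed_le continuous_snd continuous_const).inter
        (isClosed_le (continuous_fst.sub continuous_snd) continuous_const)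
    · exact (isClosed_le continuous_const continuous_snd).inter
        ((isClosed_le continuous_snd continuous_const).inter
          (isClosed_le continuous_fst continuous_const))
    · exact (isClosed_le continuous_const continuous_snd).inter
        (isClosed_le (continuous_fst.add continuous_snd) continuous_const)
  · have h1 := le_abs_self η
    have h2 := le_abs_self L
    have h3 := neg_abs_le b
    have h4 := le_abs_self c
    have h5 := abs_nonneg η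
    have h6 := abs_nonneg L
    have h7 := abs_nonneg b
    have h8 := abs_nonneg c
    rintro u ⟨h0, ⟨p, q⟩ | ⟨p, q, r⟩ | ⟨p, q⟩⟩ <;>
      exact ⟨⟨by show -R ≤ u.1; linarith, by show -R ≤ u.2; linarith⟩,
        ⟨by show u.1 ≤ R; linarith, by show u.2 ≤ R; linarith⟩⟩

theorem ProfC_ne0 (a b c : ℝ) (h : ∃ y : ℝ × ℝ, a * y.1 + b * y.2 ≠ c) :
    ∀ᶠ u in gen (ℝ × ℝ), a * u.1 + b * u.2 ≠ c := by
  have e : ∀ y : ℝ × ℝ, ((a • ContinuousLinearMap.fst ℝ ℝ ℝ +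
      b • ContinuousLinearMap.snd ℝ ℝ ℝ).toContinuousAffineMap -
        ContinuousAffineMap.const ℝ (ℝ × ℝ) c) y = a * y.1 + b * y.2 - c := fun y => rfl
  obtain ⟨y, hy⟩ := h
  filter_upwards [PLb_aff_ne _ ⟨y, (e y).trans_ne (sub_ne_zero.2 hy)⟩] with u hu
  exact sub_ne_zero.1 ((e u).symm.trans_ne hu)

theorem ProfC_ne (a c : ℝ) : ∀ᶠ u in gen (ℝ × ℝ), a * u.1 + 1 * u.2 ≠ c :=
  ProfC_ne0 a 1 c ⟨(0, c + 1), by simp⟩

theorem ProfC_ne' (c : ℝ) : ∀ᶠ u in gen (ℝ × ℝ), u.1 ≠ c := by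
  filter_upwards [ProfC_ne0 1 0 c ⟨(c + 1, 0), by simp⟩] with u hu
  exact fun e => hu (by linarith)

theorem gen_prof (η L b c : ℝ) :
    ∀ᶠ u in gen (ℝ × ℝ), u ∈ prof η L b c → u ∈ profO η L b c := by
  filter_upwards [ProfC_ne 0 0, ProfC_ne (-1) (-1), ProfC_ne 0 b, ProfC_ne 1 c, ProfC_ne' η]
    with u h1 h2 h3 h4 h5 hu
  obtain ⟨h0, ⟨p, q⟩ | ⟨p, q, r⟩ | ⟨p, q⟩⟩ := hu
  · exact ⟨h0, Or.inl ⟨lt_of_le_of_ne p fun e => h1 (by linarith),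
      lt_of_le_of_ne q fun e => h2 (by linarith)⟩⟩
  · exact ⟨h0, Or.inr (Or.inl ⟨by linarith, by linarith, lt_of_le_of_ne r h5⟩)⟩
  · exact ⟨h0, Or.inr (Or.inr ⟨lt_of_le_of_ne p fun e => h3 (by linarith),
      lt_of_le_of_ne q fun e => h4 (by linarith)⟩)⟩

theorem conn_gap (hη : 0 < η) (hη' : η ≤ 1 / 16) (hδ : 0 < δ) {δ' : ℝ} (h1 : 0 < δ') (h2 : δ' < L) :
    IsPreconnected ((profO (2 * η) L (L - δ') (L + 1 + 2 * δ + δ') ∩ {u | 0 < u.2}) \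
      prof η L L (L + 1 + 2 * δ)) := by
  obtain ⟨A, hA⟩ : ∃ A : Set (ℝ × ℝ), A = {w | -1 * w.1 + 0 * w.2 < -η} ∩
    {w | 1 * w.1 + 0 * w.2 < 2 * η} ∩ {w | 0 * w.1 + -1 * w.2 < 0} ∩
    {w | 0 * w.1 + 1 * w.2 < L} := ⟨_, rfl⟩
  obtain ⟨B, hB⟩ : ∃ B : Set (ℝ × ℝ), B = {w | -1 * w.1 + 0 * w.2 < -η} ∩
    {w | 0 * w.1 + -1 * w.2 < δ' - L} ∩ {w | 0 * w.1 + 1 * w.2 < L} ∩
    {w | 1 * w.1 + 1 * w.2 < L + 1 + 2 * δ + δ'} := ⟨_, rfl⟩
  obtain ⟨C, hC⟩ : ∃ C : Set (ℝ × ℝ), C = {w | -1 * w.1 + 0 * w.2 ≤ 0} ∩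
    {w | 0 * w.1 + -1 * w.2 < δ' - L} ∩ {w | -1 * w.1 + -1 * w.2 < -(L + 1 + 2 * δ)} ∩
    {w | 1 * w.1 + 1 * w.2 < L + 1 + 2 * δ + δ'} := ⟨_, rfl⟩
  have mA : ∀ w, w ∈ A ↔ η < w.1 ∧ w.1 < 2 * η ∧ 0 < w.2 ∧ w.2 < L := fun w => by
    rw [hA]
    exact ⟨fun ⟨⟨⟨a, b⟩, c⟩, d⟩ => by
        simp only [mem_ofPred_eq] at a b c d
        exact ⟨by linarith, by linarith, by linarith, by linarith⟩,
      fun ⟨a, b, c, d⟩ => by
        simp only [mem_inter_iff, mem_ofPred_eq]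
        exact ⟨⟨⟨by linarith, by linarith⟩, by linarith⟩, by linarith⟩⟩
  have mB : ∀ w, w ∈ B ↔ η < w.1 ∧ L - δ' < w.2 ∧ w.2 < L ∧ w.1 + w.2 < L + 1 + 2 * δ + δ' :=
    fun w => by
    rw [hB]
    exact ⟨fun ⟨⟨⟨a, b⟩, c⟩, d⟩ => by
        simp only [mem_ofPred_eq] at a b c d
        exact ⟨by linarith, by linarith, by linarith, by linarith⟩,
      fun ⟨a, b, c, d⟩ => by
        simp only [mem_inter_iff, mem_ofPred_eq]
        exact ⟨⟨⟨by linarith, by linarith⟩, by linarith⟩, by linarith⟩⟩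
  have mC : ∀ w, w ∈ C ↔ 0 ≤ w.1 ∧ L - δ' < w.2 ∧ L + 1 + 2 * δ < w.1 + w.2 ∧
      w.1 + w.2 < L + 1 + 2 * δ + δ' := fun w => by
    rw [hC]
    exact ⟨fun ⟨⟨⟨a, b⟩, c⟩, d⟩ => by
        simp only [mem_ofPred_eq] at a b c d
        exact ⟨by linarith, by linarith, by linarith, by linarith⟩,
      fun ⟨a, b, c, d⟩ => by
        simp only [mem_inter_iff, mem_ofPred_eq]
        exact ⟨⟨⟨by linarith, by linarith⟩, by linarith⟩, by linarith⟩⟩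
  have cA : IsPreconnected A := hA ▸ ((((ProfC_lt _ _ _).inter (ProfC_lt _ _ _)).inter
    (ProfC_lt _ _ _)).inter (ProfC_lt _ _ _)).isPreconnected
  have cB : IsPreconnected B := hB ▸ ((((ProfC_lt _ _ _).inter (ProfC_lt _ _ _)).inter
    (ProfC_lt _ _ _)).inter (ProfC_lt _ _ _)).isPreconnected
  have cC : IsPreconnected C := hC ▸ ((((ProfC_le _ _ _).inter (ProfC_lt _ _ _)).inter
    (ProfC_lt _ _ _)).inter (ProfC_lt _ _ _)).isPreconnected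
  have e : (profO (2 * η) L (L - δ') (L + 1 + 2 * δ + δ') ∩ {u | 0 < u.2}) \
      prof η L L (L + 1 + 2 * δ) = (A ∪ B) ∪ C := by
    ext w
    rw [mem_union, mem_union, mA, mB, mC]
    constructor
    · rintro ⟨⟨⟨h0, hw⟩, hs⟩, hn⟩
      have hs : 0 < w.2 := hs
      rcases lt_or_ge w.2 L with k | k
      · have r : η < w.1 := not_le.1 fun r => hn ⟨h0, Or.inr (Or.inl ⟨hs.le, k.le, r⟩)⟩
        rcases hw with ⟨p, q⟩ | ⟨p, q, t⟩ | ⟨p, q⟩
        · linarith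
        · exact Or.inl (Or.inl ⟨r, t, hs, k⟩)
        · exact Or.inl (Or.inr ⟨r, p, k, q⟩)
      · have r : L + 1 + 2 * δ < w.1 + w.2 := not_le.1 fun r => hn ⟨h0, Or.inr (Or.inr ⟨k, r⟩)⟩
        rcases hw with ⟨p, q⟩ | ⟨p, q, t⟩ | ⟨p, q⟩
        · linarith
        · linarith
        · exact Or.inr ⟨h0, p, r, q⟩
    · rintro ((⟨a, b, c, d⟩ | ⟨a, b, c, d⟩) | ⟨a, b, c, d⟩)
      · refine ⟨⟨⟨by linarith, Or.inr (Or.inl ⟨by linarith, by linarith, b⟩)⟩, c⟩, ?_⟩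
        rintro ⟨-, ⟨p, q⟩ | ⟨p, q, t⟩ | ⟨p, q⟩⟩ <;> linarith
      · refine ⟨⟨⟨by linarith, Or.inr (Or.inr ⟨b, d⟩)⟩, show 0 < w.2 by linarith⟩, ?_⟩
        rintro ⟨-, ⟨p, q⟩ | ⟨p, q, t⟩ | ⟨p, q⟩⟩ <;> linarith
      · refine ⟨⟨⟨a, Or.inr (Or.inr ⟨b, d⟩)⟩, show 0 < w.2 by linarith⟩, ?_⟩
        rintro ⟨-, ⟨p, q⟩ | ⟨p, q, t⟩ | ⟨p, q⟩⟩ <;> linarith
  rw [e]
  refine IsPreconnected.union (1 + 2 * δ + δ', L - δ' / 2) (Or.inr ((mB _).2 ?_)) ((mC _).2 ?_)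
    (IsPreconnected.union (3 * η / 2, L - δ' / 2) ((mA _).2 ?_) ((mB _).2 ?_) cA cB) cC <;>
    exact ⟨by dsimp only; linarith, by dsimp only; linarith, by dsimp only; linarith,
      by dsimp only; linarith⟩

end Pool.Agent.Work.MP_bf98aa_gt.Pl
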