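import Pool.Agent.Work.MP_bf98aa_gt.Pl.Rho

/-!
The radial map. The lemmas on th are case checks on the signs of S and r - rho (for r >= rho the last term is 0, for r <= rho the middle term is 0). rad is the sum of c j q j with c j = th (ps (j+1)) - th (ps j) >= 0
(th is increasing), c j = 0 when bet j = 0, and the sum of the c j telescopes to th rho - th 0 = r (Fin.sum_univ_eq_sum_range and Finset.sum_range_sub); bet_unique gives rho and bet of the image, the initial sums telescope again.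
-/

set_option autoImplicit false
set_option maxSynthPendingDepth 3
set_option linter.unusedSectionVars false
set_option linter.unusedVariables false

open Set Filter Topology Metric

noncomputable section
namespace Pool.Agent.Work.MP_bf98aa_gt.Pl

open Pool.Agent.Work.MP_bf98aa_gt.Ns

variable {Y Y' : Type} [NormedAddCommGroup Y] [NormedSpace ℝ Y] [FiniteDimensional ℝ Y]
  [NormedAddCommGroup Y'] [NormedSpace ℝ Y'] [FiniteDimensional ℝ Y'] {d : ℕ}
  {q : Sx Y d} {Λ ρ r S : ℝ}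

theorem Rad_lam (hΛ : 0 ≤ Λ) :
    0 ≤ Λ / (1 + Λ) ∧ Λ / (1 + Λ) < 1 ∧ (1 + Λ) * (Λ / (1 + Λ)) = Λ :=
  ⟨by positivity, (div_lt_one (by linarith)).2 (by linarith), mul_div_cancel₀ _ (by positivity)⟩

theorem Rad_up (hΛ : 0 ≤ Λ) (h : ρ ≤ r) (S : ℝ) :
    th Λ ρ r S = S + min (Λ * max S 0) (r - ρ) := by
  rw [th, max_eq_left (sub_nonneg.2 h), max_eq_right (sub_nonpos.2 h),
    min_eq_right (mul_nonneg (Rad_lam hΛ).1 (le_max_right _ _)), sub_zero]

theorem Rad_dn (hΛ : 0 ≤ Λ) (h : r ≤ ρ) (S : ℝ) :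
    th Λ ρ r S = S - min (Λ / (1 + Λ) * max S 0) (ρ - r) := by
  rw [th, max_eq_left (sub_nonneg.2 h), max_eq_right (sub_nonpos.2 h),
    min_eq_right (mul_nonneg hΛ (le_max_right _ _)), add_zero]

theorem Rad_inv (hΛ : 0 ≤ Λ) (h : ρ ≤ r) (S : ℝ) : th Λ r ρ (th Λ ρ r S) = S := by
  rw [Rad_dn hΛ h, Rad_up hΛ h]
  obtain ⟨l0, l1, l2⟩ := Rad_lam hΛ
  have a0 := sub_nonneg.2 h
  rcases le_total S 0 with k | k
  · rw [max_eq_right k, mul_zero, min_eq_left a0, add_zero, max_eq_right k, mul_zero,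
      min_eq_left a0, sub_zero]
  rw [max_eq_left k]
  rcases le_total (Λ * S) (r - ρ) with k' | k'
  · have e : Λ / (1 + Λ) * (S + Λ * S) = Λ * S := by
      rw [show S + Λ * S = (1 + Λ) * S by ring, ← mul_assoc, mul_comm _ (1 + Λ), l2]
    rw [min_eq_left k', max_eq_left (by positivity), e, min_eq_left k', add_sub_cancel_right]
  · rw [min_eq_right k', max_eq_left (by positivity), min_eq_right, add_sub_cancel_right]
    rw [div_mul_eq_mul_div, le_div_iff₀ (by linarith)]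
    linarith

theorem pl_th (Λ : ℝ) {V : Type} [NormedAddCommGroup V] [NormedSpace ℝ V] {U : Set V}
    {a b c : V → ℝ} (ha : PLOn U a) (hb : PLOn U b) (hc : PLOn U c) :
    PLOn U fun v => th Λ (a v) (b v) (c v) := by
  have z : PLOn U fun _ : V => (0 : ℝ) := plOn_const 0 U
  exact (hc.add (((hc.max z).const_mul Λ).min ((hb.sub ha).max z))).sub
    (((hc.max z).const_mul (Λ / (1 + Λ))).min ((ha.sub hb).max z))

theorem th_strictMono (hΛ : 0 ≤ Λ) (ρ r : ℝ) : StrictMono (th Λ ρ r) := by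
  intro S S' h
  have m1 : max S 0 ≤ max S' 0 := max_le_max_right 0 h.le
  rcases le_total ρ r with k | k
  · rw [Rad_up hΛ k, Rad_up hΛ k]
    exact add_lt_add_of_lt_of_le h (min_le_min_right _ (mul_le_mul_of_nonneg_left m1 hΛ))
  · rw [Rad_dn hΛ k, Rad_dn hΛ k]
    obtain ⟨l0, l1, -⟩ := Rad_lam hΛ
    generalize Λ / (1 + Λ) = l at *
    have m2 : max S' 0 - max S 0 ≤ S' - S := by
      rcases le_total S' 0 with k' | k'
      · rw [max_eq_right k', max_eq_right (h.le.trans k')]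
        linarith
      · rw [max_eq_left k']
        linarith [le_max_left S 0]
    have m3 : l * max S' 0 - l * max S 0 < S' - S := by nlinarith
    rcases le_total (l * max S 0) (ρ - r) with k' | k'
    · rw [min_eq_left k']
      linarith [min_le_left (l * max S' 0) (ρ - r)]
    · rw [min_eq_right k']
      linarith [min_le_right (l * max S' 0) (ρ - r)]

theorem th_inv (hΛ : 0 ≤ Λ) (ρ r S : ℝ) : th Λ r ρ (th Λ ρ r S) = S := by
  rcases le_total ρ r with k | k
  · exact Rad_inv hΛ k S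
  · exact (th_strictMono hΛ ρ r).injective (Rad_inv hΛ k _)

theorem th_surj (hΛ : 0 ≤ Λ) (ρ r : ℝ) : Function.Surjective (th Λ ρ r) :=
  fun S => ⟨_, th_inv hΛ r ρ S⟩

theorem th_zero (hΛ : 0 ≤ Λ) (ρ r : ℝ) : th Λ ρ r 0 = 0 := by
  rw [th, max_self, mul_zero, mul_zero, min_eq_left (le_max_right _ _),
    min_eq_left (le_max_right _ _), add_zero, sub_zero]

theorem th_self (hΛ : 0 ≤ Λ) (ρ S : ℝ) : th Λ ρ ρ S = S := by
  rw [Rad_up hΛ le_rfl, sub_self, min_eq_right (mul_nonneg hΛ (le_max_right _ _)), add_zero]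

theorem th_top (hΛ : 0 ≤ Λ) (h : Rat Λ ρ r) : th Λ ρ r ρ = r := by
  obtain ⟨h1, h2, h3, h4⟩ := h
  rcases le_total ρ r with k | k
  · rw [Rad_up hΛ k, max_eq_left h1, min_eq_right (by linarith)]
    ring
  · rw [Rad_dn hΛ k, max_eq_left h1, min_eq_right]
    · ring
    · rw [div_mul_eq_mul_div, le_div_iff₀ (by linarith)]
      linarith

theorem th_lin (hΛ : 0 ≤ Λ) (h0 : 0 ≤ S) (h1 : S ≤ ρ) :
    th Λ ρ ((1 + Λ) * ρ) S = (1 + Λ) * S := by
  rw [Rad_up hΛ (by nlinarith), max_eq_left h0, min_eq_left (by nlinarith)]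
  ring

theorem th_le (hΛ : 0 ≤ Λ) (ρ r : ℝ) (h0 : 0 ≤ S) :
    th Λ ρ r S ≤ (1 + Λ) * S ∧ S ≤ (1 + Λ) * th Λ ρ r S := by
  rcases le_total ρ r with k | k
  · rw [Rad_up hΛ k, max_eq_left h0]
    have a1 := min_le_left (Λ * S) (r - ρ)
    have a2 : 0 ≤ min (Λ * S) (r - ρ) := le_min (mul_nonneg hΛ h0) (sub_nonneg.2 k)
    exact ⟨by linarith, by nlinarith⟩
  · rw [Rad_dn hΛ k, max_eq_left h0]
    obtain ⟨l0, l1, l2⟩ := Rad_lam hΛ
    generalize Λ / (1 + Λ) = l at *
    have a1 := mul_le_mul_of_nonneg_left (min_le_left (l * S) (ρ - r)) (show 0 ≤ 1 + Λ by linarith)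
    have a2 : 0 ≤ min (l * S) (ρ - r) := le_min (mul_nonneg l0 h0) (sub_nonneg.2 k)
    rw [← mul_assoc, l2] at a1
    exact ⟨by nlinarith, by linarith⟩

theorem Rat.symm (h : Rat Λ ρ r) : Rat Λ r ρ := ⟨h.2.1, h.1, h.2.2.2, h.2.2.1⟩

theorem ps_zero (q : Sx Y d) (y : Y) : ps q 0 y = 0 := by
  simp [ps]

theorem ps_succ (q : Sx Y d) (j : Fin (d + 1)) (y : Y) :
    ps q (j.1 + 1) y = ps q j.1 y + bet q j y := by
  have e : bet q j y = ∑ i : Fin (d + 1), if i = j then bet q i y else 0 := by simp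
  rw [e, ps, ps, ← Finset.sum_add_distrib]
  refine Finset.sum_congr rfl fun i _ => ?_
  rcases lt_trichotomy i.1 j.1 with h | h | h
  · rw [if_pos (by omega), if_pos h, if_neg (fun k => by rw [k] at h; omega), add_zero]
  · rw [if_pos (by omega), if_neg (by omega), if_pos (Fin.ext h), zero_add]
  · rw [if_neg (by omega), if_neg (by omega), if_neg (fun k => by rw [k] at h; omega), add_zero]

theorem ps_top (hq : Cen q) (y : Y) : ps q (d + 1) y = rho q y := by
  rw [← sum_bet hq, ps]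
  exact Finset.sum_congr rfl fun j _ => if_pos j.2

theorem pl_ps (q : Sx Y d) (k : ℕ) : PL (ps q k) := by
  refine plOn_sum Finset.univ (k := fun (j : Fin (d + 1)) y => if j.1 < k then bet q j y else 0)
    fun j _ => ?_
  by_cases h : j.1 < k
  · simp only [if_pos h]
    exact ((pl_rho q).sub (pl_ell q j)).const_mul _
  · simp only [if_neg h]
    exact plOn_const 0 _

theorem pl_rad (q : Sx Y d) (Λ : ℝ) {V : Type} [NormedAddCommGroup V] [NormedSpace ℝ V]
    {U : Set V} {a : V → Y} {b : V → ℝ} (ha : PLOn U a) (hb : PLOn U b) :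
    PLOn U fun v => rad q Λ (a v) (b v) := by
  exact plOn_sum Finset.univ (k := fun (j : Fin (d + 1)) v =>
    (th Λ (rho q (a v)) (b v) (ps q (j.1 + 1) (a v)) - th Λ (rho q (a v)) (b v) (ps q j.1 (a v))) •
      q j) fun j _ =>
    ((pl_th Λ ((pl_rho q).comp ha) hb ((pl_ps q _).comp ha)).sub
      (pl_th Λ ((pl_rho q).comp ha) hb ((pl_ps q _).comp ha))).smul_const _

theorem Rad_ps (hq : Cen q) (hΛ : 0 ≤ Λ) (y : Y) (r : ℝ) {k : ℕ} (hk : k ≤ d + 1) :
    ps q k (rad q Λ y r) = th Λ (rho q y) r (ps q k y) := by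
  have b := (bet_unique hq (c := fun j : Fin (d + 1) =>
    th Λ (rho q y) r (ps q (j.1 + 1) y) - th Λ (rho q y) r (ps q j.1 y))
    (fun j => sub_nonneg.2 ((th_strictMono hΛ _ _).monotone (by
      rw [ps_succ]
      exact le_add_of_nonneg_right (bet_nonneg hq j y))))
    ((bet_zero q y).imp fun j hj => by rw [ps_succ, hj, add_zero, sub_self])).2
  induction k with
  | zero => rw [ps_zero, ps_zero, th_zero hΛ]
  | succ k ih =>
    have e := ps_succ q ⟨k, hk⟩ (rad q Λ y r)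
    rw [ih (by omega), rad, b] at e
    rw [rad, e]
    ring

theorem rho_rad (hq : Cen q) (hΛ : 0 ≤ Λ) {y : Y} (h : Rat Λ (rho q y) r) :
    rho q (rad q Λ y r) = r := by
  rw [← ps_top hq, Rad_ps hq hΛ y r le_rfl, ps_top hq, th_top hΛ h]

theorem ps_rad (hq : Cen q) (hΛ : 0 ≤ Λ) (y : Y) (r : ℝ) {k : ℕ} (hk : k ≤ d + 1) :
    ps q k (rad q Λ y r) = th Λ (rho q y) r (ps q k y) := by
  exact Rad_ps hq hΛ y r hk

theorem rad_self (hq : Cen q) (hΛ : 0 ≤ Λ) (y : Y) : rad q Λ y (rho q y) = y := by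
  simp only [rad, th_self hΛ, ps_succ, add_sub_cancel_left]
  exact sum_bet_smul hq y

theorem rad_rad (hq : Cen q) (hΛ : 0 ≤ Λ) {y : Y} (h : Rat Λ (rho q y) r) :
    rad q Λ (rad q Λ y r) (rho q y) = y := by
  refine Eq.trans (Finset.sum_congr rfl fun j _ => ?_) (sum_bet_smul hq y)
  rw [rho_rad hq hΛ h, ps_rad hq hΛ y r (Nat.succ_le_of_lt j.2), ps_rad hq hΛ y r j.2.le,
    th_inv hΛ, th_inv hΛ, ps_succ, add_sub_cancel_left]

theorem rad_lin (hq : Cen q) (hΛ : 0 ≤ Λ) (y : Y) :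
    rad q Λ y ((1 + Λ) * rho q y) = (1 + Λ) • y := by
  have b : ∀ k, 0 ≤ ps q k y ∧ ps q k y ≤ rho q y := fun k => by
    rw [← sum_bet hq, ps]
    refine ⟨Finset.sum_nonneg fun j _ => ?_, Finset.sum_le_sum fun j _ => ?_⟩
    · split_ifs
      exacts [bet_nonneg hq j y, le_rfl]
    · split_ifs
      exacts [le_rfl, bet_nonneg hq j y]
  have e : (1 + Λ) • y = ∑ j, ((1 + Λ) * bet q j y) • q j := by
    simp only [mul_smul]
    rw [← Finset.smul_sum, sum_bet_smul hq]
  rw [e]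
  refine Finset.sum_congr rfl fun j _ => ?_
  rw [th_lin hΛ (b _).1 (b _).2, th_lin hΛ (b _).1 (b _).2, ps_succ, ← mul_sub,
    add_sub_cancel_left]

end Pool.Agent.Work.MP_bf98aa_gt.Pl
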