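import Pool.Agent.Work.MP_bf98aa_gt.Pl.AmbC
import Pool.Agent.Work.MP_bf98aa_gt.Pl.Rho

/-!
The frames at the window of the cell and at the slot. cone_ex: L is bijective, let p k = the preimage under v -> z + L v of the vertex sig (i.succAbove k); it has last coordinate 0; sx_of_coord with the points (p k).1 and the functionals y -> coord (i.succAbove k) (z + L (y, 0));
moving by s ax 1 = s (z - sig i) changes coord (i.succAbove k) by s times coord (i.succAbove k) z. cone_lo: rho_le_iff, rho_lt_iff, Fin.forall_iff_succAbove (or Fin.succAbove_cases). cone_hi: c = (- eps times the sum of the vertices q k, eps), ell_vertex, ell_lin.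
frames: two_side for R = P.comp (iota tau) on the window ball with l = crd sig i gives z', c, c'; on the inner half ball (contained in opE sig 0) B + c = b (Inv.neg, gen_exists); on the outer half ball B + c' is positive (Inv.good, Inv.dcell, gen_exists);
fold2_lin with the covector minus the linear part of coord i and v = z' - sig i; alpha v = z' + L v, alpha' v = z' + L' v; dx_aff for the outer half ball, Dx.mono.
slot: al1 v = Z (alpha (rf v + c)), det Z < 0 from Pq_pb, det_rf, pb_rf_wn; O1 = preimage under al1 of Z '' opE sig eps' (open as Z is invertible), dx_aff.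
-/

set_option autoImplicit false
set_option maxSynthPendingDepth 3
set_option linter.unusedSectionVars false
set_option linter.unusedVariables false

open Set Filter Topology Metric

noncomputable section
namespace Pool.Agent.Work.MP_bf98aa_gt.Pl

open Pool.Agent.Work.MP_bf98aa_gt.Ns

/-- Cone coordinates on a simplex. -/
def ConeFr {m : ℕ} (σ : Sx (WW m) (2 * m + 2)) (i : Fin (2 * m + 2 + 1)) (q : Sx (YY m) (2 * m + 1))
    (α : WW m → WW m) : Prop :=
  Cen q ∧ (∀ v, σ.coord i (α v) = -v.2) ∧ ∀ (k : Fin (2 * m + 1 + 1)) (v : WW m),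
    σ.coord (i.succAbove k) (α v) = q.coord k 0 * (1 - ell q k v.1 + v.2)

variable {m : ℕ} {E : Type} [NormedAddCommGroup E] [NormedSpace ℝ E] [FiniteDimensional ℝ E]
  {a : Amb m E} {J : Type} {job : J → Job a} {ε : ℝ} {P : Pot E} {S : Set J} {D : Set E} {j : J}
  {σ : Sx (WW m) (2 * m + 2)} {i : Fin (2 * m + 2 + 1)} {q : Sx (YY m) (2 * m + 1)}

theorem StepA_add (σ : Sx (WW m) (2 * m + 2)) (k : Fin (2 * m + 2 + 1)) (y v : WW m) :
    σ.coord k (y + v) = σ.coord k y + (σ.coord k).linear v := PLc_add (crd σ k) y v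

theorem StepA_sub (σ : Sx (WW m) (2 * m + 2)) (k : Fin (2 * m + 2 + 1)) (y v : WW m) :
    (σ.coord k).linear (y - v) = σ.coord k y - σ.coord k v := (σ.coord k).linearMap_vsub y v

theorem cone_ex {z : WW m} (h0 : σ.coord i z = 0) (h1 : ∀ i', i' ≠ i → 0 < σ.coord i' z)
    {L : WW m →L[ℝ] WW m} (hL : L.det ≠ 0) (h2 : L (ax m 1) = z - σ i)
    (h3 : ∀ u, (σ.coord i).linear (L u) = -u.2) : ∃ q, ConeFr σ i q fun v => z + L v := by
  have hb := bij_of_det hL
  have hi : ∀ v, σ.coord i (z + L v) = -v.2 := fun v => by rw [StepA_add, h0, h3, zero_add]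
  choose u hu using fun k : Fin (2 * m + 1 + 1) => hb.2 (σ (i.succAbove k) - z)
  have hu' : ∀ k, z + L ((u k).1, 0) = σ (i.succAbove k) := fun k => by
    have h4 := hi (u k)
    rw [hu, add_sub_cancel, σ.coord_apply_ne (i.succAbove_ne k).symm] at h4
    have h5 : ((u k).1, (0 : ℝ)) = u k := Prod.ext rfl (by linarith)
    rw [h5, hu, add_sub_cancel]
  let c : Fin (2 * m + 1 + 1) → YY m →ᵃ[ℝ] ℝ := fun k => (σ.coord (i.succAbove k)).comp
    (AffineMap.const ℝ _ z + (L.comp (ContinuousLinearMap.inl ℝ _ _)).toLinearMap.toAffineMap)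
  have hc : ∀ k y, c k y = σ.coord (i.succAbove k) (z + L (y, 0)) := fun k y => rfl
  have hsum : ∀ y, ∑ k, c k y = 1 := fun y => by
    have h4 := σ.sum_coord_apply_eq_one (z + L (y, 0))
    rwa [Fin.sum_univ_succAbove _ i, hi, neg_zero, zero_add] at h4
  obtain ⟨q, -, hq⟩ := sx_of_coord (fun k => (u k).1) c
    (fun k l => by
      rw [hc, hu', σ.coord_apply]
      simp only [Fin.succAbove_right_inj])
    (fun y => by
      have h4 := σ.linear_combination_coord_eq_self (z + L (y, 0))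
      rw [Fin.sum_univ_succAbove _ i, hi, neg_zero, zero_smul, zero_add] at h4
      have h5 : L (∑ k, c k y • ((u k).1, 0)) = L (y, 0) := by
        have h6 : ∀ k, L ((u k).1, 0) = σ (i.succAbove k) - z := fun k => eq_sub_of_add_eq' (hu' k)
        simp only [map_sum, map_smul, h6, smul_sub, Finset.sum_sub_distrib]
        rw [← Finset.sum_smul, hsum, one_smul]
        exact sub_eq_of_eq_add' h4
      have h7 := congrArg Prod.fst (hb.1 h5)
      rwa [Prod.fst_sum] at h7) hsum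
  have hq0 : ∀ k, q.coord k 0 = σ.coord (i.succAbove k) z := fun k => by
    rw [hq, hc, Prod.mk_zero_zero, map_zero, add_zero]
  have hcen : Cen q := fun k => hq0 k ▸ h1 _ (i.succAbove_ne k)
  refine ⟨q, hcen, hi, fun k v => ?_⟩
  have h4 : z + L v = z + L (v.1, 0) + v.2 • (z - σ i) := by
    rw [← h2, add_assoc, ← map_smul, ← map_add, ← ax_smul]
    exact congrArg (fun w => z + L w) (Prod.ext (add_zero _).symm (zero_add _).symm)
  change σ.coord _ (z + L v) = _
  rw [h4, StepA_add, map_smul, StepA_sub, σ.coord_apply_ne (i.succAbove_ne k), ← hc, ← hq, ← hq0,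
    smul_eq_mul]
  linear_combination Rho_mul hcen k v.1

theorem cone_lo {α : WW m → WW m} (h : ConeFr σ i q α) (v : WW m) :
    (α v ∈ clE σ 0 ↔ v ∈ coneLo q) ∧ (α v ∈ opE σ 0 ↔ v ∈ opCone q) := by
  obtain ⟨hq, h1, h2⟩ := h
  constructor
  · change (∀ k, -0 ≤ σ.coord k (α v)) ↔ v.2 ≤ 0 ∧ rho q v.1 - v.2 ≤ 1
    rw [Fin.forall_iff_succAbove i, h1, sub_le_iff_le_add, rho_le_iff, neg_le_neg_iff]
    refine and_congr_right fun _ => forall_congr' fun k => ?_
    rw [h2, neg_zero, mul_nonneg_iff_of_pos_left (hq k)]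
    constructor <;> intro h <;> linarith
  · change (∀ k, -0 < σ.coord k (α v)) ↔ v.2 < 0 ∧ rho q v.1 - v.2 < 1
    rw [Fin.forall_iff_succAbove i, h1, sub_lt_iff_lt_add, rho_lt_iff, neg_lt_neg_iff]
    refine and_congr_right fun _ => forall_congr' fun k => ?_
    rw [h2, neg_zero, mul_pos_iff_of_pos_left (hq k)]
    constructor <;> intro h <;> linarith

theorem cone_hi {α : WW m → WW m} (h : ConeFr σ i q α) (ε : ℝ) : ∃ c : WW m, ∀ v,
    α (rf m v + c) ∈ clE σ ε ↔ v ∈ coneHi q 0 (1 + 2 * ((2 * (m : ℝ) + 3) * ε / 2)) := by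
  obtain ⟨hq, h1, h2⟩ := h
  refine ⟨(-ε • ∑ l, q l, ε), fun v => ?_⟩
  change (∀ k, -ε ≤ σ.coord k (α _)) ↔ 0 ≤ v.2 ∧ rho q v.1 + v.2 ≤ _
  rw [Fin.forall_iff_succAbove i, h1, ← le_sub_iff_add_le, rho_le_iff]
  refine and_congr ?_ (forall_congr' fun k => ?_)
  · change -ε ≤ -(-v.2 + ε) ↔ _
    constructor <;> intro h <;> linarith
  · obtain ⟨l, hl⟩ := ell_lin hq k
    have h3 : ∑ j, l (q j) = 2 * m + 2 - 1 / q.coord k 0 := by
      have h4 : ∀ j, l (q j) = 1 - if k = j then 1 / q.coord k 0 else 0 := fun j => by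
        rw [← hl, ell_vertex hq]
        split_ifs
        exacts [rfl, (sub_zero _).symm]
      simp only [h4, Finset.sum_sub_distrib, Finset.sum_ite_eq, Finset.mem_univ, if_true,
        Finset.sum_const, Finset.card_univ, Fintype.card_fin, nsmul_eq_mul]
      push_cast
      ring
    have h5 : q.coord k 0 * (1 - ell q k (v.1 + -ε • ∑ l, q l) + (-v.2 + ε)) =
        q.coord k 0 * (1 + 2 * ((2 * (m : ℝ) + 3) * ε / 2) - v.2 - ell q k v.1) - ε := by
      have h6 := (hq k).ne'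
      rw [hl, hl, map_add, map_smul, map_sum, h3, smul_eq_mul]
      field_simp
      ring
    rw [h2]
    change -ε ≤ q.coord k 0 * (1 - ell q k (v.1 + -ε • ∑ l, q l) + (-v.2 + ε)) ↔ _
    rw [h5, le_sub_iff_add_le, neg_add_cancel, mul_nonneg_iff_of_pos_left (hq k), sub_nonneg]

theorem frames (hs : Static job ε) (hI : Inv job ε P S D) (hj : j ∈ S) (hw : Win (job j) D) :
    ∃ (i : Fin (2 * m + 2 + 1)) (q : Sx (YY m) (2 * m + 1)) (α α' : WW m →ᴬ[ℝ] WW m) (r : ℝ),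
      ConeFr (job j).σ i q α ∧ 0 < r ∧ 0 < α.contLinear.det ∧ 0 < α'.contLinear.det ∧
      pb α.contLinear (job j).b = wn m ∧ (∀ v : WW m, v.2 = 0 → α' v = α v) ∧
      (∀ v ∈ ball (0 : WW m) r, v.2 < 0 → v ∈ opCone q) ∧
      (∀ v ∈ ball (0 : WW m) r, α v ∈ opE a.Δ 0 ∧ α' v ∈ opE a.Δ 0) ∧
      Dx a P (fun v => a.ι (job j).τ (α' v)) (ball 0 r ∩ {v | 0 < v.2}) ∧
      ∀ v ∈ ball (0 : WW m) r, 0 < v.2 → a.ι (job j).τ (α' v) ∈ D := by
  obtain ⟨i, z, r, hW, hΔ, hD⟩ := hw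
  have hl := crd_ne (by omega) (job j).σ i
  obtain ⟨z', r', c, c', hr', h0, hsub, hc, hc', hcc, hn, hp⟩ := two_side isOpen_ball
    (hI.pl.comp (plOn_aff (a.ι (job j).τ) (ball z r))
      fun y hy => a.mem _ (opE_sub_clE _ _ (hΔ hy))) (crd (job j).σ i) hl (mem_ball_self hW.1) hW.2.1
  obtain ⟨⟨y1, hy1, hy1'⟩, y2, hy2, hy2'⟩ := AmbC_pt _ hl h0 hr'
  have hin : ∀ y ∈ ball z' r', 0 < (job j).σ.coord i y → y ∈ opE (job j).σ 0 := fun y hy h k => by
    rw [neg_zero]
    by_cases hk : k = i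
    exacts [hk ▸ h, hW.2.2 y (hsub hy) k hk]
  have hout : ∀ y ∈ hb (job j).σ i z' r', a.ι (job j).τ y ∈ D := fun y hy =>
    hD ⟨y, ⟨hsub hy.1, hy.2⟩, rfl⟩
  have hb1 : (job j).b = a.B (job j).τ + c' := by
    obtain ⟨y, hy, h⟩ := gen_exists (hI.neg j hj)
      (isOpen_ball.inter (isOpen_lt continuous_const (Sx_cont (job j).σ i))) ⟨y2, hy2, hy2'⟩
    rw [← h.self_of_nhds (hin y hy.1 hy.2), fm, hp y hy.1 hy.2]
  have hfm : ∀ y ∈ hb (job j).σ i z' r', fm a P (job j).τ y = a.B (job j).τ + c := fun y hy => by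
    rw [fm, hn y hy.1 hy.2]
  have hb2 : 0 < Pq (a.B (job j).τ + c) := by
    obtain ⟨y, hy, h⟩ := gen_exists (hI.good (job j).τ) (isOpen_hb (job j).σ i z' r') ⟨y1, hy1, hy1'⟩
    rw [← hfm y hy]
    refine h.self_of_nhds (hΔ (hsub hy.1)) fun h1 => ?_
    obtain ⟨k, hk, h2⟩ := mem_iUnion₂.1 h1
    exact disjoint_left.1 (hI.dcell k hk) (hout y hy) h2
  obtain ⟨L, L', t, ht, hL, hL', e1, e2, e3, e4, e5, e6⟩ := fold2_lin
    (hb1 ▸ (a.skew _).add hc') ((a.skew _).add hc) (hs.negb j) hb2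
    (l := -(crd (job j).σ i).contLinear) (v := z' - (job j).σ i)
    (by
      rw [neg_apply, crd_lin, StepA_sub, AffineBasis.coord_apply_eq]
      exact (congrArg (fun t => -(t - 1)) h0).trans (by norm_num))
    (fun u v hu hv => by
      rw [hb1]
      exact congrArg (a.B (job j).τ u v + ·) (hcc u v (neg_eq_zero.1 hu) (neg_eq_zero.1 hv)).symm)
  obtain ⟨α, hα, hα'⟩ := frame_ex z' L
  obtain ⟨β, hβ, hβ'⟩ := frame_ex z' L'
  obtain ⟨q, hq⟩ := cone_ex h0 (hW.2.2 z' (hsub (mem_ball_self hr'))) hL.ne' e3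
    fun u => neg_eq_iff_eq_neg.1 (e4 u)
  rw [← funext hα'] at hq
  obtain ⟨s, hs0, hss⟩ := Metric.isOpen_iff.1 ((isOpen_ball.preimage α.continuous).inter
    (isOpen_ball.preimage β.continuous)) 0
    ⟨by rw [mem_preimage, hα', map_zero, add_zero]; exact mem_ball_self hr',
      by rw [mem_preimage, hβ', map_zero, add_zero]; exact mem_ball_self hr'⟩
  have hup : ∀ v ∈ ball (0 : WW m) s, 0 < v.2 → β v ∈ hb (job j).σ i z' r' := fun v hv h => by
    refine ⟨(hss hv).2, ?_⟩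
    have h1 : ((job j).σ.coord i).linear (L' v) = -(t * v.2) := neg_eq_iff_eq_neg.1 (e5 v)
    have h2 : (job j).σ.coord i z' = 0 := h0
    change (job j).σ.coord i (β v) < 0
    rw [hβ', StepA_add, h1, h2, zero_add]
    exact neg_neg_of_pos (mul_pos ht h)
  refine ⟨i, q, α, β, s, hq, hs0, hα ▸ hL, hβ ▸ hL', hα ▸ e1,
    fun v hv => by rw [hα', hβ', e6 v hv], fun v hv h => (cone_lo hq v).2.1 (hin _ (hss hv).1 ?_),
    fun v hv => ⟨hΔ (hsub (hss hv).1), hΔ (hsub (hss hv).2)⟩, ?_, fun v hv h => hout _ (hup v hv h)⟩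
  · rw [hq.2.1]
    exact neg_pos.2 h
  · exact (dx_aff hI.pl _ (hβ ▸ hL') (isOpen_hb (job j).σ i z' r') (fun y hy => hΔ (hsub hy.1))
      (Eventually.of_forall hfm) (hβ ▸ e2)).mono
      (isOpen_ball.inter (isOpen_lt continuous_const continuous_snd)) fun v hv => hup v hv.1 hv.2

theorem slot (hs : Static job ε) (hI : Inv job ε P S D) (hj : j ∈ S) {α : WW m →ᴬ[ℝ] WW m}
    (h : ConeFr (job j).σ i q α) (hd : 0 < α.contLinear.det)
    (hb : pb α.contLinear (job j).b = wn m) :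
    ∃ (e1 : WW m →ᴬ[ℝ] E) (O : Set (WW m)), Function.Injective e1 ∧ Dx a P e1 O ∧
      coneHi q 0 (1 + 2 * ((2 * (m : ℝ) + 3) * ε / 2)) ⊆ O ∧
      e1 '' coneHi q 0 (1 + 2 * ((2 * (m : ℝ) + 3) * ε / 2)) = (job j).K ε ∧
      (∀ v ∈ O, e1 v ∈ (job j).Ko (2 * ε)) ∧
      ∀ v ∈ O, v ∉ coneHi q 0 (1 + 2 * ((2 * (m : ℝ) + 3) * ε / 2)) → e1 v ∈ D := by
  obtain ⟨ε', h1, h2, h3, h4⟩ := hI.slot j hj
  obtain ⟨c, hc⟩ := cone_hi h ε
  obtain ⟨g, hg, hg'⟩ := frame_ex c (rf m)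
  simp only [add_comm _ c, ← hg'] at hc
  have hZ : (job j).Z.contLinear.det < 0 := by
    have h5 := Pq_pb (job j).Z.contLinear (job j).b'
    rw [hs.pbZ] at h5
    exact neg_of_mul_neg_left (h5 ▸ hs.negb j) (hs.posb j).le
  have hg2 : (α.comp g).contLinear.det < 0 := by
    rw [ContinuousAffineMap.comp_contLinear, det_comp', hg, det_rf]
    linarith
  have hβ : 0 < ((job j).Z.comp (α.comp g)).contLinear.det := by
    rw [ContinuousAffineMap.comp_contLinear, det_comp']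
    exact mul_pos_of_neg_of_neg hZ hg2
  obtain ⟨Z', hZ1, hZ2, -⟩ := aff_inv _ hZ.ne
  obtain ⟨g', -, hg3, -⟩ := aff_inv _ hg2.ne
  obtain ⟨β', hβ1, -⟩ := aff_inv _ hβ.ne'
  have ho : IsOpen ((job j).Z '' opE (job j).σ ε') := by
    rw [image_eq_preimage_of_inverse hZ1 hZ2]
    exact (isOpen_opE _ _).preimage Z'.continuous
  refine ⟨(a.ι (job j).τ').comp ((job j).Z.comp (α.comp g)),
    (job j).Z.comp (α.comp g) ⁻¹' ((job j).Z '' opE (job j).σ ε'),
    (a.inj _).comp (Function.LeftInverse.injective hβ1),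
    dx_aff hI.pl _ hβ ho ((image_mono ((opE_sub_clE _ _).trans (clE_mono _ h2))).trans (hs.subZ j))
      h4 ?_, fun v hv => ⟨_, clE_sub_opE _ h1 ((hc v).2 hv), rfl⟩, ?_,
    fun v hv => ⟨_, image_mono (opE_mono _ h2) hv, rfl⟩, fun v hv hn => h3 ⟨⟨_, hv, rfl⟩, ?_⟩⟩
  · have e : pb ((job j).Z.comp (α.comp g)).contLinear (job j).b' =
        pb g.contLinear (pb α.contLinear (pb (job j).Z.contLinear (job j).b')) := rfl
    rw [e, hs.pbZ, hb, hg, pb_rf_wn]
  · refine Subset.antisymm ?_ ?_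
    · rintro _ ⟨v, hv, rfl⟩
      exact ⟨_, ⟨_, (hc v).2 hv, rfl⟩, rfl⟩
    · rintro _ ⟨_, ⟨y, hy, rfl⟩, rfl⟩
      have e : α (g (g' y)) = y := hg3 y
      exact ⟨g' y, (hc _).1 (e.symm ▸ hy), congrArg (fun w => a.ι (job j).τ' ((job j).Z w)) e⟩
  · rintro ⟨_, ⟨y, hy, rfl⟩, e⟩
    have e1 : y = α (g v) := Function.LeftInverse.injective hZ1 (a.inj _ e)
    exact hn ((hc v).1 (e1 ▸ hy))

end Pool.Agent.Work.MP_bf98aa_gt.Pl
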