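import Pool.Agent.Work.MP_bf98aa_gt.Pl.TubD
import Pool.Agent.Work.MP_bf98aa_gt.Pl.Conn

/-!
The tube. thin: Set.InjOn.exists_isOpen_superset for the compact axis segment (e0, e1 are injective: inj_of_injOn); the union of that open set intersected with the local charts and the two end balls contains a thickening of the segment
(IsCompact.exists_cthickening_subset_open; the norm on WW m is the maximum norm); plOn_of_local, emb_of_local, gen_local.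
tube: J = the points ax s, -r/2 <= s <= 0, T = e1 '' J (compact), U1 = the lower half ball. D minus T is relatively open and preconnected (rem_conn with W = e1 '' U1, seg_conn); e0 0 is not in T, so a smaller upper half ball is mapped into D minus T;
reach_all in D minus T for the chart (e1, U1); the axis avoids T (TS.axis_mem); ts_obs, route in U1 to the frame g' v = ax (-r/2) + v with this J, ts_ext in D. Finally e v = if v.2 <= L1 then e' v else e1 (v - ax (L1 + r/2)), thin.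
-/

set_option autoImplicit false
set_option maxSynthPendingDepth 3
set_option linter.unusedSectionVars false
set_option linter.unusedVariables false

open Set Filter Topology Metric

noncomputable section
namespace Pool.Agent.Work.MP_bf98aa_gt.Pl

open Pool.Agent.Work.MP_bf98aa_gt.Ns

variable {m : ℕ} {E : Type} [NormedAddCommGroup E] [NormedSpace ℝ E] [FiniteDimensional ℝ E]
  {a : Amb m E} {P : Pot E} {D D' : Set E} {e0 : WW m →ᴬ[ℝ] E} {L L' : ℝ} {e c c' : WW m → E}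
  {U U' X : Set (WW m)} {g g' : WW m →ᴬ[ℝ] WW m}

theorem TubE_inj {A : WW m →ᴬ[ℝ] E} (h : Dx a P A U) {y : WW m} (hy : y ∈ U) :
    Function.Injective A := fun u v k => by
  rw [aff_eq A u, aff_eq A v, add_right_inj] at k
  exact inj_of_injOn A (h.1.opn.mem_nhds hy) h.1.inj k

theorem TubE_norm (s : ℝ) : ‖ax m s‖ = |s| := by
  simp [ax]

theorem TubE_hi {r s : ℝ} (h0 : 0 < s) (h1 : s < r) :
    ax m s ∈ ball (0 : WW m) r ∩ {v | 0 < v.2} :=
  ⟨by rwa [mem_ball_zero_iff, TubE_norm, abs_of_pos h0], h0⟩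

theorem TubE_lo {r s : ℝ} (h0 : s < 0) (h1 : -r < s) :
    ax m s ∈ ball (0 : WW m) r ∩ {v | v.2 < 0} :=
  ⟨by rwa [mem_ball_zero_iff, TubE_norm, abs_of_neg h0, neg_lt], h0⟩

theorem TubE_loc {y : WW m} (he : c' =ᶠ[𝓝 y] c) (h : ∃ U, y ∈ U ∧ Dx a P c U ∧ c '' U ⊆ D) :
    ∃ U, y ∈ U ∧ Dx a P c' U ∧ c' '' U ⊆ D := by
  obtain ⟨U, h1, h2, h3⟩ := h
  obtain ⟨O, o1, o2, o3⟩ := _root_.eventually_nhds_iff.1 he
  refine ⟨U ∩ O, ⟨h1, o3⟩, (h2.mono (h2.1.opn.inter o2) inter_subset_left).congr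
    fun z hz => o1 z hz.2, ?_⟩
  rintro _ ⟨z, hz, rfl⟩
  exact h3 ⟨z, hz.1, (o1 z hz.2).symm⟩

theorem thin {e1 : WW m →ᴬ[ℝ] E} {r : ℝ} (hr : 0 < r) (hL : 0 < L)
    (h0 : Dx a P e0 (ball 0 r ∩ {v | 0 < v.2})) (h0' : e0 '' (ball 0 r ∩ {v | 0 < v.2}) ⊆ D)
    (h1 : Dx a P e1 (ball 0 r ∩ {v | v.2 < 0})) (h1' : e1 '' (ball 0 r ∩ {v | v.2 < 0}) ⊆ D)
    (st : e =ᶠ[𝓝 0] e0) (en : e =ᶠ[𝓝 (ax m L)] fun v => e1 (v - ax m L))
    (loc : ∀ s ∈ Ioo 0 L, ∃ U, ax m s ∈ U ∧ Dx a P e U ∧ e '' U ⊆ D)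
    (inj : InjOn (fun s => e (ax m s)) (Icc 0 L)) :
    ∃ η β : ℝ, 0 < η ∧ 0 < β ∧ 2 * β < L ∧ PLOn (tub η 0 L) e ∧ InjOn e (tub η 0 L) ∧
      Dx a P e (tubO η 0 L) ∧ (∀ v ∈ tub η 0 L, 0 < v.2 → v.2 < L → e v ∈ D) ∧
      (∀ v ∈ tub η 0 β, e v = e0 v) ∧ ∀ v ∈ tub η (L - β) L, e v = e1 (v - ax m L) := by
  obtain ⟨ρ, r0, r1, r2, r3⟩ : ∃ ρ, 0 < ρ ∧ ρ ≤ r ∧ (∀ v ∈ ball 0 ρ, e v = e0 v) ∧
      ∀ v ∈ ball (ax m L) ρ, e v = e1 (v - ax m L) := by
    obtain ⟨x, x0, hx⟩ := Metric.eventually_nhds_iff_ball.1 st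
    obtain ⟨y, y0, hy⟩ := Metric.eventually_nhds_iff_ball.1 en
    exact ⟨min r (min x y), by positivity, min_le_left _ _,
      fun v hv => hx v (ball_subset_ball (by simp) hv), fun v hv => hy v (ball_subset_ball (by simp) hv)⟩
  have i0 := TubE_inj h0 (TubE_hi (half_pos hr) (half_lt_self hr))
  have i1 := TubE_inj h1 (TubE_lo (s := -(r / 2)) (by linarith) (by linarith))
  have oZ : IsOpen {v : WW m | 0 < v.2 ∧ v.2 < L} := isOpen_Ioo.preimage continuous_snd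
  let Q : Set (Set (WW m)) := {O | IsOpen O ∧ PLOn O e ∧ InjOn e O ∧
    Dx a P e (O ∩ {v | 0 < v.2 ∧ v.2 < L}) ∧ ∀ v ∈ O, 0 < v.2 → v.2 < L → e v ∈ D}
  have key : ∀ y ∈ ax m '' Icc 0 L, ∃ O ∈ Q, y ∈ O := by
    rintro _ ⟨s, ⟨s0, s1⟩, rfl⟩
    rcases s0.eq_or_lt with rfl | s0
    · exact ⟨ball 0 ρ, ⟨isOpen_ball, (plOn_aff e0 _).congr r2,
        i0.injOn.congr fun v hv => (r2 v hv).symm,
        (h0.mono (isOpen_ball.inter oZ) fun v hv => ⟨ball_subset_ball r1 hv.1, hv.2.1⟩).congr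
          fun v hv => r2 v hv.1,
        fun v hv k _ => h0' ⟨v, ⟨ball_subset_ball r1 hv, k⟩, (r2 v hv).symm⟩⟩, mem_ball_self r0⟩
    rcases s1.eq_or_lt with rfl | s1
    · have k : ∀ v ∈ ball (ax m s) ρ, v.2 < s → v - ax m s ∈ ball (0 : WW m) r ∩ {v | v.2 < 0} :=
        fun v hv k => ⟨mem_ball_zero_iff.2 ((mem_ball_iff_norm.1 hv).trans_le r1), sub_neg.2 k⟩
      exact ⟨ball (ax m s) ρ, ⟨isOpen_ball,
        (PL.comp (plOn_aff e1 _) ((plOn_id _).sub (plOn_const _ _))).congr r3,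
        (i1.comp sub_left_injective).injOn.congr fun v hv => (r3 v hv).symm,
        ((h1.shift (ax m s)).mono (isOpen_ball.inter oZ) fun v hv => k v hv.1 hv.2.2).congr
          fun v hv => r3 v hv.1,
        fun v hv _ k' => h1' ⟨_, k v hv k', (r3 v hv).symm⟩⟩, mem_ball_self r0⟩
    · obtain ⟨O, o1, o2, o3⟩ := loc s ⟨s0, s1⟩
      exact ⟨O, ⟨o2.1.opn, o2.1.pl, o2.1.inj, o2.mono (o2.1.opn.inter oZ) inter_subset_left,
        fun v hv _ _ => o3 ⟨v, hv, rfl⟩⟩, o1⟩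
  have cK : IsCompact (ax m '' Icc 0 L) := isCompact_Icc.image continuous_ax
  obtain ⟨t, t1, t2, t3⟩ := (InjOn.image_of_comp (g := e) inj).exists_isOpen_superset cK
    (fun y hy => (key y hy).elim fun O k => k.1.2.1.1.continuousAt (k.1.1.mem_nhds k.2))
    fun y hy => (key y hy).elim fun O k => ⟨O, k.1.1.mem_nhds k.2, k.1.2.2.1⟩
  obtain ⟨δ, d0, hδ⟩ := cK.exists_cthickening_subset_open
    (t1.inter (isOpen_sUnion (s := Q) fun O k => k.1)) fun y hy => ⟨t2 hy, key y hy⟩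
  obtain ⟨η, n0, n1, n2⟩ : ∃ η, 0 < η ∧ η ≤ δ ∧ η < ρ :=
    ⟨min δ (ρ / 2), by positivity, min_le_left _ _, min_lt_of_right_lt (half_lt_self r0)⟩
  obtain ⟨β, b0, b1, b2⟩ : ∃ β, 0 < β ∧ 2 * β < L ∧ β < ρ :=
    ⟨min (L / 4) (ρ / 2), by positivity, by have := min_le_left (L / 4) (ρ / 2); linarith,
      min_lt_of_right_lt (half_lt_self r0)⟩
  have sub : ∀ v ∈ tub η 0 L, v ∈ t ∩ ⋃₀ Q := fun v hv =>
    hδ (mem_cthickening_of_dist_le v (ax m v.2) δ _ ⟨v.2, hv.2, rfl⟩ (by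
      simpa [Prod.dist_eq, ax, d0.le] using hv.1.trans n1))
  have cT : IsCompact (tub η 0 L : Set (WW m)) :=
    (Set.ext fun v => by simp [tub] : closedBall (0 : YY m) η ×ˢ Icc 0 L = tub η 0 L) ▸
      (isCompact_closedBall 0 η).prod isCompact_Icc
  have pT : PLOn (tub η 0 L) e := plOn_of_local cT fun v hv => (sub v hv).2.elim fun O k =>
    ⟨O, mem_nhdsWithin_of_mem_nhds (k.1.1.mem_nhds k.2), k.1.2.1⟩
  have iT : InjOn e (tub η 0 L) := t3.mono fun v hv => (sub v hv).1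
  have oT : IsOpen (tubO η 0 L : Set (WW m)) :=
    (isOpen_lt continuous_fst.norm continuous_const).inter oZ
  have sT : (tubO η 0 L : Set (WW m)) ⊆ tub η 0 L := fun v hv => ⟨hv.1.le, hv.2.1.le, hv.2.2.le⟩
  have dT : ∀ v ∈ tubO η 0 L, ∃ O, v ∈ O ∧ Dx a P e O := fun v hv =>
    (sub v (sT hv)).2.elim fun O k => ⟨_, mem_inter k.2 hv.2, k.1.2.2.2.1⟩
  refine ⟨η, β, n0, b0, b1, pT, iT, ⟨emb_of_local oT (pT.mono sT) (iT.mono sT) fun v hv =>
    (dT v hv).imp fun O k => ⟨k.1, k.2.1⟩, gen_local oT fun v hv => (dT v hv).elim fun O k =>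
      ⟨O, k.2.1.opn.mem_nhds k.1, k.2.2⟩⟩,
    fun v hv => (sub v hv).2.elim fun O k => k.1.2.2.2.2 v k.2, fun v hv => r2 v ?_,
    fun v hv => r3 v ?_⟩
  · rw [mem_ball_zero_iff, Prod.norm_def, Real.norm_of_nonneg hv.2.1]
    exact max_lt (hv.1.trans_lt n2) (hv.2.2.trans_lt b2)
  · rw [mem_ball_iff_norm, Prod.norm_def]
    refine max_lt ((congrArg norm (sub_zero v.1)).trans_lt (hv.1.trans_lt n2)) ?_
    exact abs_sub_lt_iff.2 ⟨(sub_nonpos.2 hv.2.2).trans_lt r0, (sub_le_comm.1 hv.2.1).trans_lt b2⟩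

theorem tube (hm : 1 ≤ m) (hD : OpenSub a.M D) (hc : IsPreconnected D) (hd : D ⊆ Dar a P)
    {e1 : WW m →ᴬ[ℝ] E} {r : ℝ} (hr : 0 < r)
    (h0 : Dx a P e0 (ball 0 r ∩ {v | 0 < v.2})) (h0' : e0 '' (ball 0 r ∩ {v | 0 < v.2}) ⊆ D)
    (h1 : Dx a P e1 (ball 0 r ∩ {v | v.2 < 0})) (h1' : e1 '' (ball 0 r ∩ {v | v.2 < 0}) ⊆ D)
    (n0 : e0 0 ∉ D) (n1 : e1 0 ∉ D) (ne : e0 0 ≠ e1 0) :
    ∃ (L η β : ℝ) (e : WW m → E), 0 < η ∧ 0 < β ∧ 2 * β < L ∧ PLOn (tub η 0 L) e ∧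
      InjOn e (tub η 0 L) ∧ Dx a P e (tubO η 0 L) ∧
      (∀ v ∈ tub η 0 L, 0 < v.2 → v.2 < L → e v ∈ D) ∧ (∀ v ∈ tub η 0 β, e v = e0 v) ∧
      ∀ v ∈ tub η (L - β) L, e v = e1 (v - ax m L) := by
  have i1 := TubE_inj h1 (TubE_lo (s := -(r / 2)) (by linarith) (by linarith))
  obtain ⟨J, hJ⟩ : ∃ J, J = ax m '' Icc (-(r / 2)) 0 := ⟨_, rfl⟩
  have cJ : IsCompact J := hJ ▸ isCompact_Icc.image continuous_ax
  have lJ : Lines J := (lines_line 0 (ax m 1)).mono (by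
    rw [hJ]
    rintro _ ⟨s, _, rfl⟩
    exact ⟨s, (zero_add _).trans (ax_smul s).symm⟩)
  have cT : IsClosed (e1 '' J) := (cJ.image e1.continuous).isClosed
  have cU : Convex ℝ (ball (0 : WW m) r ∩ {v | v.2 < 0}) :=
    (convex_ball 0 r).inter (convex_halfSpace_lt (cs m).toLinearMap.isLinear 0)
  have sT : ∀ x ∈ e1 '' J, x = e1 0 ∨ x ∈ e1 '' (ball 0 r ∩ {v | v.2 < 0}) := by
    rw [hJ]
    rintro _ ⟨_, ⟨s, hs, rfl⟩, rfl⟩
    exact hs.2.eq_or_lt.imp (fun k => by rw [k, ax_zero]) fun k =>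
      ⟨_, TubE_lo k (by linarith [hs.1]), rfl⟩
  have hc' : IsPreconnected (D \ e1 '' J) := rem_conn hD hc cT h1.1.openSub
    (fun x hx => (sT x hx.1).resolve_left fun k : x = e1 0 => n1 (k ▸ hx.2)) (fun x hx => h1' hx.1) (by
      rw [← image_sdiff i1]
      exact (seg_conn h1.1.opn cU lJ (by rw [finrank_WW]; omega)).image _
        e1.continuous.continuousOn)
  have nT : e0 0 ∉ e1 '' J := fun k => (sT _ k).elim ne fun k => n0 (h1' k)
  obtain ⟨ρ, r0, r1⟩ := Metric.eventually_nhds_iff_ball.1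
    ((e0.continuous.continuousAt.eventually (cT.isOpen_compl.mem_nhds nT)).and (ball_mem_nhds 0 hr))
  obtain ⟨L, e, g, H, hg⟩ := reach_all hm (hD.diff cT) hc' (sdiff_subset.trans hd) r0
    (h0.mono (isOpen_ball.inter (isOpen_lt continuous_const continuous_snd))
      fun v hv => ⟨(r1 v hv.1).2, hv.2⟩)
    (by
      rintro _ ⟨v, hv, rfl⟩
      exact ⟨h0' ⟨v, ⟨(r1 v hv.1).2, hv.2⟩, rfl⟩, (r1 v hv.1).1⟩) h1
    (by
      have k := mem_image_of_mem e1 (TubE_lo (m := m) (r := r) (s := -(3 * r / 4)) (by linarith)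
        (by linarith))
      refine ⟨_, k, h1' k, ?_⟩
      rw [i1.mem_set_image, hJ]
      rintro ⟨s, hs, k⟩
      have : s = -(3 * r / 4) := congrArg Prod.snd k
      linarith [hs.1])
  have av : ∀ x ∈ axis e L, x ∉ e1 '' J := fun x hx =>
    (H.axis_mem hx).elim (fun k => k ▸ nT) fun k => k.2
  obtain ⟨X, x1, x2, x3, x4, x5⟩ := ts_obs H h1.1 hg
  obtain ⟨g', g1, g2⟩ := frame_ex (ax m (-(r / 2))) (ContinuousLinearMap.id ℝ _)
  have g3 : g' 0 = ax m (-(r / 2)) := (g2 0).trans (add_zero _)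
  have g4 : g' 0 ∈ J := hJ ▸ ⟨_, ⟨le_rfl, by linarith⟩, g3.symm⟩
  have g5 : g' 0 ∈ ball (0 : WW m) r ∩ {v | v.2 < 0} := g3 ▸ TubE_lo (by linarith) (by linarith)
  have g6 : g 0 ∉ J := fun k => av _ ((x5 _ hg.2.1).1 x4) ⟨_, k, rfl⟩
  obtain ⟨L', h, V, hV⟩ := route hm h1.1.opn cU x1 x2 cJ.isClosed lJ hg.1
    (g' := g') (by rw [Sp, g1, pb_id]) hg.2.1 g5 x3 g6
    (fun k => av _ ((x5 _ g5).1 k) ⟨_, g4, rfl⟩) (fun k => g6 (k ▸ g4))
    (Eventually.of_forall (by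
      rw [hJ]
      rintro _ ⟨s, hs, rfl⟩
      refine ⟨s + r / 2, by linarith [hs.1], ?_⟩
      rw [g2, ContinuousLinearMap.id_apply, ← ax_add]
      exact congrArg _ (by ring)))
  obtain ⟨e', H', hg', ha⟩ := ts_ext (H.mono sdiff_subset) h1 h1' hg V fun y hy => (x5 y hy).2
  generalize L + L' = L1 at H' hg' ha
  have L0 := H'.pos
  have m1 : e' =ᶠ[𝓝 (ax m L1)] fun v => e1 (v - ax m (L1 + r / 2)) := hg'.2.2.mono fun v hv => by
    rw [hv, ← sub_neg_eq_add, ax_sub]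
    exact congrArg e1 ((g2 _).trans (by rw [ContinuousLinearMap.id_apply]; abel))
  let f : WW m → E := fun v => if v.2 ≤ L1 then e' v else e1 (v - ax m (L1 + r / 2))
  have f1 : ∀ s ≤ L1, f =ᶠ[𝓝 (ax m s)] e' := fun s hs => by
    rcases hs.eq_or_lt with rfl | hs
    · exact m1.mono fun v hv => ite_eq_left_iff.2 fun _ => hv.symm
    · exact (continuous_snd.continuousAt.eventually_lt continuousAt_const hs).mono
        fun v hv => if_pos hv.le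
  have f2 : ∀ s, L1 < s → f =ᶠ[𝓝 (ax m s)] fun v => e1 (v - ax m (L1 + r / 2)) := fun s hs =>
    (continuousAt_const.eventually_lt continuous_snd.continuousAt hs).mono
      fun v hv => if_neg hv.not_ge
  have sep : ∀ s ∈ Icc 0 L1, ∀ s', L1 < s' → s' ≤ L1 + r / 2 → f (ax m s) ≠ f (ax m s') := by
    intro s hs s' k1 k2 k
    replace k : e' (ax m s) = e1 (ax m (s' - (L1 + r / 2))) := by
      rw [ax_sub, ← (f1 s hs.2).self_of_nhds, k]
      exact (f2 s' k1).self_of_nhds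
    have k3 : ax m (s' - (L1 + r / 2)) ∈ J := hJ ▸ ⟨_, ⟨by linarith, by linarith⟩, rfl⟩
    rcases ha.le ⟨s, hs, k⟩ with k4 | ⟨z, k4, k5⟩
    · exact av _ k4 ⟨_, k3, rfl⟩
    · rw [i1 k5] at k4
      have : s' - (L1 + r / 2) = -(r / 2) := congrArg Prod.snd ((hV _ k4 k3).trans g3)
      linarith
  obtain ⟨η, β, k⟩ := thin (e := f) (L := L1 + r / 2) hr (by linarith) h0 h0' h1 h1'
    ((f1 0 L0.le).trans H'.st) (f2 _ (by linarith))
    (fun s hs => (le_or_gt s L1).elim (fun k => TubE_loc (f1 s k) (H'.loc s ⟨hs.1, k⟩)) fun k =>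
      TubE_loc (f2 s k) ⟨_, by
        rw [mem_preimage, ← ax_sub]
        exact TubE_lo (by linarith [hs.2]) (by linarith), h1.shift _, by
          rintro _ ⟨v, hv, rfl⟩
          exact h1' ⟨_, hv, rfl⟩⟩)
    fun s hs s' hs' k => by
      rcases le_or_gt s L1 with k1 | k1 <;> rcases le_or_gt s' L1 with k2 | k2
      · exact H'.inj ⟨hs.1, k1⟩ ⟨hs'.1, k2⟩
          (((f1 s k1).self_of_nhds.symm.trans k).trans (f1 s' k2).self_of_nhds)
      · exact (sep s ⟨hs.1, k1⟩ s' k2 hs'.2 k).elim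
      · exact (sep s' ⟨hs'.1, k2⟩ s k1 hs.2 k.symm).elim
      · exact congrArg Prod.snd (sub_left_injective
          (i1 (((f2 s k1).self_of_nhds.symm.trans k).trans (f2 s' k2).self_of_nhds)))
  exact ⟨_, η, β, f, k⟩

end Pool.Agent.Work.MP_bf98aa_gt.Pl
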