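import Pool.Agent.Work.MP_bf98aa_gt.Pl.StepA
import Pool.Agent.Work.MP_bf98aa_gt.Pl.TubE

/-!
The chart of cell, tube and slot. frames, slot; shrink r so that the ball lies in O; e0 = (iota tau).comp alpha'; tube (e0 0 is in the cell, e1 0 is in K eps; Inv.dcell, Inv.dK, Static.ck) gives L, eta1, beta, et; shrink eta1 and beta below r, and so that rho y < 1 when the norm of y is <= eta1 (rho_norm).
e v = if v.2 <= 0 then iota (alpha v) else if v.2 <= L - beta then et v else e1 (v - ax L); on tub eta1 0 L it is et. O2 = the points v of O with -beta < v.2 and e1 v not in the compact set et '' tub eta1 0 (L - beta); it is open and contains coneHi q 0 c (that compact set lies in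
D union cell); coneHi_shrink gives delta' (take it <= beta). O' = opCone union tubO eta1 (-beta) L union (ax L + O2), eta = eta1 / 2. Injectivity on H = coneLo union tub eta1 0 L union (ax L + O2), which contains O' and hull: compare the three pieces
(cell against D: dcell; cell against Ko (2 eps): ck; a point of the tube at height 0 is in coneLo, at height L in ax L + coneHi q 0 c). Emb by emb_of_local: for s < 0 emb_aff, at s = 0 the map is iota o (two_piece alpha alpha') (Emb.comp_plh of emb_iota), above it is et or a shift of e1 (Dx.shift).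
-/

set_option autoImplicit false
set_option maxSynthPendingDepth 3
set_option linter.unusedSectionVars false
set_option linter.unusedVariables false

open Set Filter Topology Metric

noncomputable section
namespace Pool.Agent.Work.MP_bf98aa_gt.Pl

open Pool.Agent.Work.MP_bf98aa_gt.Ns

variable {m : ℕ} {E : Type} [NormedAddCommGroup E] [NormedSpace ℝ E] [FiniteDimensional ℝ E]
  {a : Amb m E} {J : Type} {job : J → Job a} {ε : ℝ} {P : Pot E} {S : Set J} {D : Set E} {j : J}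

theorem StepB_sh (q : Sx (YY m) (2 * m + 1)) (x y L : ℝ) (v : WW m) :
    v - ax m L ∈ coneHi q x y ↔ v ∈ coneHi q (L + x) (L + y) := by
  change x ≤ v.2 - L ∧ rho q (v.1 - 0) + (v.2 - L) ≤ y ↔ L + x ≤ v.2 ∧ rho q v.1 + v.2 ≤ L + y
  rw [sub_zero]
  constructor <;> rintro ⟨h1, h2⟩ <;> constructor <;> linarith

theorem StepB_ball {r : ℝ} {v : WW m} (h1 : ‖v.1‖ < r) (h2 : -r < v.2) (h3 : v.2 < r) :
    v ∈ ball (0 : WW m) r := by
  rw [mem_ball_zero_iff, Prod.norm_def, max_lt_iff, Real.norm_eq_abs, abs_lt]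
  exact ⟨h1, h2, h3⟩

theorem StepB_tube (hm : 1 ≤ m) (hD : OpenSub a.M D) (hc : IsPreconnected D) (hd : D ⊆ Dar a P)
    {e0 e1 : WW m →ᴬ[ℝ] E} {r : ℝ} (hr : 0 < r)
    (h0 : Dx a P e0 (ball 0 r ∩ {v | 0 < v.2})) (h0' : e0 '' (ball 0 r ∩ {v | 0 < v.2}) ⊆ D)
    (h1 : Dx a P e1 (ball 0 r ∩ {v | v.2 < 0})) (h1' : e1 '' (ball 0 r ∩ {v | v.2 < 0}) ⊆ D)
    (n0 : e0 0 ∉ D) (n1 : e1 0 ∉ D) (ne : e0 0 ≠ e1 0) :
    ∃ (L η β : ℝ) (e : WW m → E), 0 < η ∧ 0 < β ∧ η < r ∧ β < r ∧ 2 * β < L ∧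
      PLOn (tub η 0 L) e ∧ InjOn e (tub η 0 L) ∧ Dx a P e (tubO η 0 L) ∧
      (∀ v ∈ tub η 0 L, 0 < v.2 → v.2 < L → e v ∈ D) ∧ (∀ v ∈ tub η 0 β, e v = e0 v) ∧
      ∀ v ∈ tub η (L - β) L, e v = e1 (v - ax m L) := by
  obtain ⟨L, η, β, e, a1, a2, a3, a4, a5, a6, a7, a8, a9⟩ :=
    tube hm hD hc hd hr h0 h0' h1 h1' n0 n1 ne
  have b1 := min_le_left η (r / 2)
  have b2 := min_le_left β (r / 2)
  have s : tub (min η (r / 2)) 0 L ⊆ (tub η 0 L : Set (WW m)) :=
    fun v hv => ⟨hv.1.trans b1, hv.2⟩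
  exact ⟨L, min η (r / 2), min β (r / 2), e, by positivity, by positivity,
    (min_le_right _ _).trans_lt (half_lt_self hr), (min_le_right _ _).trans_lt (half_lt_self hr),
    by linarith, a4.mono s, a5.mono s,
    a6.mono (isOpen_tubO _ _ _) fun v hv => ⟨hv.1.trans_le b1, hv.2⟩, fun v hv => a7 v (s hv),
    fun v hv => a8 v ⟨hv.1.trans b1, hv.2.1, hv.2.2.trans b2⟩,
    fun v hv => a9 v ⟨hv.1.trans b1, by linarith [hv.2.1], hv.2.2⟩⟩

theorem cht_ex (hm : 1 ≤ m) (hs : Static job ε) (hI : Inv job ε P S D) (hj : j ∈ S)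
    (hw : Win (job j) D) : ∃ (q : Sx (YY m) (2 * m + 1)) (δ δ' L η : ℝ) (α : WW m →ᴬ[ℝ] WW m)
      (e : WW m → E) (O : Set (WW m)), Cht P D (job j) ε q δ δ' L η α e O := by
  obtain ⟨i, q, α, α', r0, hF, r0p, dα, dα', hb, hαα, hlo, hΔ, dx0, hD0⟩ := frames hs hI hj hw
  obtain ⟨e1, O, i1, dx1, hiO, hK, hKo, hD1⟩ := slot hs hI hj hF dα hb
  have hq : Cen q := hF.1
  obtain ⟨δ, hδ⟩ : ∃ δ, δ = (2 * (m : ℝ) + 3) * ε / 2 := ⟨_, rfl⟩
  have pδ : 0 < δ := by
    have := hs.pos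
    rw [hδ]
    positivity
  rw [← hδ] at hiO hK hD1
  have z0 : (0 : WW m) ∈ coneHi q 0 (1 + 2 * δ) :=
    ⟨le_rfl, by simp only [Prod.fst_zero, Prod.snd_zero, rho_zero hq]; linarith⟩
  obtain ⟨r, rp, r1, r2, r3⟩ : ∃ r, 0 < r ∧ r ≤ r0 ∧ ball 0 r ⊆ O ∧
      ∀ y : YY m, ‖y‖ < r → rho q y < 1 := by
    obtain ⟨C, pC, hC⟩ := rho_norm hq
    obtain ⟨x, px, hx⟩ := Metric.isOpen_iff.1 dx1.1.opn 0 (hiO z0)
    refine ⟨min r0 (min x C⁻¹), by positivity, min_le_left _ _,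
      (ball_subset_ball (by simp)).trans hx, fun y hy => (hC y).1.trans_lt ?_⟩
    rw [← lt_inv_mul_iff₀ pC, mul_one]
    exact hy.trans_le (by simp)
  have sb : ball (0 : WW m) r ⊆ ball 0 r0 := ball_subset_ball r1
  have cA : ∀ v ∈ coneLo q, a.ι (job j).τ (α v) ∈ (job j).cell :=
    fun v hv => ⟨_, (cone_lo hF v).1.2 hv, rfl⟩
  have lo0 : ∀ v : WW m, v.2 = 0 → ‖v.1‖ < r → v ∈ coneLo q :=
    fun v h1 h2 => ⟨h1.le, by linarith [r3 _ h2]⟩
  have kK : ∀ v ∈ coneHi q 0 (1 + 2 * δ), e1 v ∈ (job j).K ε := fun v hv => hK ▸ ⟨v, hv, rfl⟩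
  have nD := disjoint_left.1 (hI.dcell j hj)
  have nK := disjoint_left.1 (hI.dK j hj)
  have nC := disjoint_left.1 (hs.ck j j)
  have c0 : a.ι (job j).τ (α' 0) ∈ (job j).cell := by
    rw [hαα 0 rfl]
    exact cA 0 (lo0 0 rfl (by simpa using rp))
  obtain ⟨L, η, β, et, pη, pβ, lη, lβ, hL, t1, t2, t3, t4, t5, t6⟩ :=
    StepB_tube (e0 := (a.ι (job j).τ).comp α') hm hI.dop hI.dcon hI.ddar rp
      (dx0.mono (isOpen_ball.inter (isOpen_lt continuous_const continuous_snd))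
        fun v hv => ⟨sb hv.1, hv.2⟩)
      (by rintro _ ⟨v, hv, rfl⟩; exact hD0 v (sb hv.1) hv.2)
      (dx1.mono (isOpen_ball.inter (isOpen_lt continuous_snd continuous_const)) fun v hv => r2 hv.1)
      (by rintro _ ⟨v, hv, rfl⟩; exact hD1 v (r2 hv.1) fun h => h.1.not_gt hv.2)
      (fun h => nD h c0) (fun h => nK h (kK 0 z0)) fun h => nC c0 (h ▸ hKo 0 (hiO z0))
  obtain ⟨e, E1, E2, E3⟩ : ∃ e : WW m → E, (∀ v, v.2 ≤ 0 → e v = a.ι (job j).τ (α v)) ∧
      (∀ v ∈ tub η 0 L, e v = et v) ∧ ∀ v, L - β < v.2 → e v = e1 (v - ax m L) := by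
    refine ⟨fun v => if v.2 ≤ 0 then a.ι (job j).τ (α v) else if v.2 ≤ L - β then et v else
      e1 (v - ax m L), fun v hv => if_pos hv, fun v hv => ?_, fun v hv => ?_⟩
    · beta_reduce
      split_ifs with h1 h2
      · rw [← hαα v (h1.antisymm hv.2.1)]
        exact (t5 v ⟨hv.1, hv.2.1, h1.trans pβ.le⟩).symm
      · rfl
      · exact (t6 v ⟨hv.1, (not_le.1 h2).le, hv.2.2⟩).symm
    · exact (if_neg (not_le.2 (by linarith))).trans (if_neg (not_le.2 hv))
  have sT : tub η 0 (L - β) ⊆ (tub η 0 L : Set (WW m)) :=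
    fun v hv => ⟨hv.1, hv.2.1, by linarith [hv.2.2]⟩
  have cE : ∀ v ∈ coneLo q, e v ∈ (job j).cell := fun v hv => E1 v hv.1 ▸ cA v hv
  have dE : ∀ v ∈ tub η 0 L, 0 < v.2 → v.2 < L → e v ∈ D :=
    fun v hv h1 h2 => E2 v hv ▸ t4 v hv h1 h2
  have pT : PLOn (tub η 0 L) e := t1.congr E2
  have cC : IsClosed (e '' tub η 0 (L - β)) :=
    ((isCompact_tub _ _ _).image_of_continuousOn (pT.continuousOn.mono sT)).isClosed
  obtain ⟨O2, hO2⟩ : ∃ O2, O2 = O ∩ ({v | -β < v.2} ∩ e1 ⁻¹' (e '' tub η 0 (L - β))ᶜ) := ⟨_, rfl⟩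
  have o2 : IsOpen O2 := hO2 ▸ dx1.1.opn.inter
    ((isOpen_lt continuous_const continuous_snd).inter (cC.isOpen_compl.preimage e1.continuous))
  have h2 : coneHi q 0 (1 + 2 * δ) ⊆ O2 := fun v hv => by
    rw [hO2]
    refine ⟨hiO hv, (neg_neg_of_pos pβ).trans_le hv.1, fun ⟨u, hu, k⟩ => ?_⟩
    rcases hu.2.1.eq_or_lt with h | h
    · exact nC (cE u (lo0 u h.symm (hu.1.trans_lt lη))) (k ▸ hKo v (hiO hv))
    · exact nK (dE u (sT hu) h (by linarith [hu.2.2])) (k ▸ kK v hv)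
  obtain ⟨δ', pδ', hδ'⟩ := coneHi_shrink hq o2 h2
  obtain ⟨O3, hO3⟩ : ∃ O3, O3 = (fun v => v - ax m L) ⁻¹' O2 := ⟨_, rfl⟩
  have m3 : ∀ v ∈ O3, v - ax m L ∈ O ∧ L - β < v.2 ∧ e1 (v - ax m L) ∉ e '' tub η 0 (L - β) :=
    fun v hv => by
      rw [hO3, hO2] at hv
      have : -β < v.2 - L := hv.2.1
      exact ⟨hv.1, by linarith, hv.2.2⟩
  have dx3 : Dx a P e O3 := ((dx1.shift (ax m L)).mono (hO3 ▸ o2.preimage (by fun_prop))
    fun v hv => (m3 v hv).1).congr fun v hv => E3 v (m3 v hv).2.1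
  have s3 : coneHi q (L - δ') (L + 1 + 2 * δ + δ') ⊆ O3 := fun v hv => by
    rw [hO3]
    exact hδ' ((StepB_sh q _ _ L v).2 ⟨by linarith [hv.1], by linarith [hv.2]⟩)
  have lδ' : δ' < β := by
    have := (m3 (ax m (L - δ')) (s3 ⟨le_rfl, by rw [ax_fst, ax_snd, rho_zero hq]; linarith⟩)).2.1
    rw [ax_snd] at this
    linarith
  have top : ∀ v : WW m, ‖v.1‖ ≤ η → v.2 = L → v ∈ coneHi q L (L + 1 + 2 * δ) :=
    fun v h1 h2 => ⟨h2.ge, by linarith [r3 _ (h1.trans_lt lη)]⟩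
  have neg : ∀ v ∈ tubO η (-β) L, v.2 < 0 → v ∈ opCone q := fun v hv h =>
    hlo v (sb (StepB_ball (hv.1.trans lη) (by linarith [hv.2.1]) (by linarith))) h
  have oc : opCone q ⊆ coneLo q := fun v hv => ⟨hv.1.le, hv.2.le⟩
  obtain ⟨α1, g1, g2, -⟩ := aff_inv α dα.ne'
  have inj : InjOn e (coneLo q ∪ tub η 0 L ∪ O3) := by
    have cls : ∀ v ∈ coneLo q ∪ tub η 0 L ∪ O3, v ∈ coneLo q ∨
        (v ∈ tub η 0 (L - β) ∧ e v ∈ D) ∨ (e v = e1 (v - ax m L) ∧ e v ∈ (job j).Ko (2 * ε) ∧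
          (v ∈ tub η 0 L ∨ e v ∉ e '' tub η 0 (L - β))) := by
      rintro v ((h | h) | h)
      · exact Or.inl h
      · rcases h.2.1.eq_or_lt with k | k
        · exact Or.inl (lo0 v k.symm (h.1.trans_lt lη))
        rcases le_or_gt v.2 (L - β) with k' | k'
        · exact Or.inr (Or.inl ⟨⟨h.1, h.2.1, k'⟩, dE v h k (by linarith)⟩)
        · refine Or.inr (Or.inr ⟨E3 v k', E3 v k' ▸ hKo _ (r2 (StepB_ball ?_ ?_ ?_)), Or.inl h⟩)
          · exact (congrArg norm (sub_zero v.1)).trans_lt (h.1.trans_lt lη)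
          · change -r < v.2 - L
            linarith
          · change v.2 - L < r
            linarith [h.2.2]
      · obtain ⟨k1, k2, k3⟩ := m3 v h
        exact Or.inr (Or.inr ⟨E3 v k2, E3 v k2 ▸ hKo _ k1, Or.inr (E3 v k2 ▸ k3)⟩)
    have iT : InjOn e (tub η 0 L) := t2.congr fun v hv => (E2 v hv).symm
    intro u hu v hv k
    rcases cls u hu with x | ⟨x1, x2⟩ | ⟨x1, x2, x3⟩ <;>
      rcases cls v hv with y | ⟨y1, y2⟩ | ⟨y1, y2, y3⟩
    · rw [E1 u x.1, E1 v y.1] at k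
      rw [← g1 u, a.inj _ k, g1]
    · exact (nD y2 (k ▸ cE u x)).elim
    · exact (nC (k ▸ cE u x) y2).elim
    · exact (nD x2 (k ▸ cE v y)).elim
    · exact iT (sT x1) (sT y1) k
    · exact y3.elim (fun y => iT (sT x1) y k) fun y => (y ⟨u, x1, k⟩).elim
    · exact (nC (k ▸ cE v y) x2).elim
    · exact x3.elim (fun x => iT x (sT y1) k) fun x => (x ⟨v, y1, k.symm⟩).elim
    · exact sub_left_injective (i1 (x1.symm.trans (k.trans y1)))
  have pA : ∀ X : Set (WW m), (∀ v ∈ X, v.2 ≤ 0) → PLOn X e := fun X h =>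
    (plOn_aff ((a.ι (job j).τ).comp α) X).congr fun v hv => E1 v (h v hv)
  have sσ : opE (job j).σ 0 ⊆ opE a.Δ 0 := (opE_sub_clE _ _).trans (hs.sub j)
  have dx2 : Dx a P e (tubO η 0 L) := t3.congr fun v hv => E2 v ⟨hv.1.le, hv.2.1.le, hv.2.2.le⟩
  have hcs : (cs m).toContinuousAffineMap.contLinear ≠ 0 := cs_ne
  have emb : Emb a.M e (opCone q ∪ tubO η (-β) L ∪ O3) := by
    have o1 := (isOpen_opCone q).union (isOpen_tubO η (-β) L)
    have s1 : tubO η (-β) L ⊆ (tub η (-β) 0 ∪ tub η 0 L : Set (WW m)) := fun v hv =>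
      (le_total v.2 0).elim (fun h => Or.inl ⟨hv.1.le, hv.2.1.le, h⟩)
        fun h => Or.inr ⟨hv.1.le, h, hv.2.2.le⟩
    have s2 : tubO η (-β) L ⊆ coneLo q ∪ tub η 0 L := fun v hv =>
      (lt_or_ge v.2 0).elim (fun h => Or.inl (oc (neg v hv h)))
        fun h => Or.inr ⟨hv.1.le, h, hv.2.2.le⟩
    refine emb_of_local (o1.union dx3.1.opn) (PLOn.union_open o1 dx3.1.opn
      (PLOn.union_open (isOpen_opCone q) (isOpen_tubO _ _ _) (pA _ fun v hv => hv.1.le)
        ((PLOn.union (isCompact_tub η (-β) 0).isClosed (isCompact_tub η 0 L).isClosed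
          (pA _ fun v hv => hv.2.2) pT).mono s1)) dx3.1.pl)
      (inj.mono (union_subset_union_left _ (union_subset (oc.trans subset_union_left) s2))) ?_
    rintro y ((h | h) | h)
    · exact ⟨_, h, ((emb_aff (job j).τ dα (isOpen_opE _ _) sσ).mono (isOpen_opCone q)
        fun v hv => (cone_lo hF v).2.2 hv).congr fun v hv => E1 v hv.1.le⟩
    · rcases lt_or_ge 0 y.2 with k | k
      · exact ⟨tubO η 0 L, ⟨h.1, k, h.2.2⟩, dx2.1⟩
      obtain ⟨ψ, hψ⟩ := two_piece α α' dα dα' _ hcs fun v hv => (hαα v hv).symm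
      refine ⟨tubO η (-β) β, ⟨h.1, h.2.1, k.trans_lt pβ⟩,
        (((emb_iota a (job j).τ).comp_plh hψ).mono (isOpen_tubO _ _ _) fun v hv => ?_).congr
          fun v hv => ?_⟩
      · have := hΔ v (sb (StepB_ball (hv.1.trans lη) (by linarith [hv.2.1]) (hv.2.2.trans lβ)))
        rw [mem_preimage]
        split_ifs
        exacts [this.1, this.2]
      · split_ifs with k'
        · exact E1 v k'
        · have k'' : 0 ≤ v.2 := (not_le.1 k').le
          exact (E2 v ⟨hv.1.le, k'', by linarith [hv.2.2]⟩).trans (t5 v ⟨hv.1.le, k'', hv.2.2.le⟩)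
    · exact ⟨_, h, dx3.1⟩
  have sη : tub (η / 2) 0 L ⊆ (tub η 0 L : Set (WW m)) :=
    fun v hv => ⟨hv.1.trans (half_le_self pη.le), hv.2⟩
  have sH : hull q δ δ' L (η / 2) ⊆ coneLo q ∪ tub η 0 L ∪ O3 :=
    union_subset_union (union_subset_union_right _ sη) s3
  have sub3 : ∀ v ∈ hull q δ δ' L (η / 2), 0 < v.2 → v ∈ opCone q ∪ tubO η (-β) L ∪ O3 := by
    rintro v ((h | h) | h) k
    · exact (k.not_ge h.1).elim
    · rcases h.2.2.eq_or_lt with k' | k'
      · have := top v (sη h).1 k'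
        exact Or.inr (s3 ⟨by linarith [this.1], by linarith [this.2]⟩)
      · exact Or.inl (Or.inr ⟨h.1.trans_lt (half_lt_self pη), by linarith, k'⟩)
    · exact Or.inr (s3 h)
  refine ⟨q, δ, δ', L, η / 2, α, e, _, hq, pδ, pδ', by linarith, half_pos pη,
    fun y hy => r3 y (by linarith), ?_, inj.mono sH, fun v hv => ?_, emb,
    subset_union_left.trans subset_union_left, fun v h1 h2 => Or.inl (Or.inr
      ⟨h2.trans_lt (half_lt_self pη), by linarith, by linarith⟩), sub3, ?_, E1, dα, ?_, ?_, ?_,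
    ?_, fun v h1 h2 => ?_⟩
  · exact PLOn.union ((isCompact_coneLo hq).union (isCompact_tub _ _ _)).isClosed
      (isCompact_coneHi hq _ _).isClosed (PLOn.union (isCompact_coneLo hq).isClosed
        (isCompact_tub _ _ _).isClosed (pA _ fun v hv => hv.1) (pT.mono sη)) (dx3.1.pl.mono s3)
  · rcases lt_or_ge 0 v.2 with k | k
    · exact emb.mapsTo (sub3 v hv k)
    have : v ∈ coneLo q := by
      rcases hv with (h | h) | h
      · exact h
      · exact lo0 v (k.antisymm h.2.1) ((sη h).1.trans_lt lη)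
      · exact absurd (h.1.trans k) (by linarith)
    rw [E1 v k]
    exact a.mem _ (opE_sub_clE _ _ (hs.sub j ((cone_lo hF v).1.2 this)))
  · filter_upwards [gen_ne _ hcs, pb_aff hI.pl (job j).τ dα sσ (hI.neg j hj), dx2.2, dx3.2] with
      v k1 k2 k3 k4 hv
    have k5 : v ∈ opCone q → PB a P e v (if v.2 < 0 then wn m else w0 m) := fun h => by
      rw [if_pos h.1, ← hb]
      exact (k2 ((cone_lo hF v).2.2 h)).congr
        (((isOpen_opCone q).eventually_mem h).mono fun u hu => E1 u hu.1.le)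
    rcases hv with (h | h) | h
    · exact k5 h
    · rcases lt_or_gt_of_ne (show v.2 ≠ 0 from k1) with k | k
      · exact k5 (neg v h k)
      · rw [if_neg k.not_gt]
        exact k3 ⟨h.1, k, h.2.2⟩
    · rw [if_neg (by linarith [(m3 v h).2.1])]
      exact k4 h
  · exact subset_antisymm (image_subset_iff.2 fun v hv => (cone_lo hF v).1.2 hv) fun z hz =>
      ⟨α1 z, (cone_lo hF _).1.1 ((g2 z).symm ▸ hz), g2 z⟩
  · exact subset_antisymm (image_subset_iff.2 fun v hv => (cone_lo hF v).2.2 hv) fun z hz =>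
      ⟨α1 z, (cone_lo hF _).2.1 ((g2 z).symm ▸ hz), g2 z⟩
  · rw [← hK]
    refine subset_antisymm ?_ ?_
    · rintro _ ⟨v, hv, rfl⟩
      exact ⟨_, (StepB_sh q _ _ L v).2 ⟨by linarith [hv.1], by linarith [hv.2]⟩,
        (E3 v (by linarith [hv.1])).symm⟩
    · rintro _ ⟨v, hv, rfl⟩
      have := (StepB_sh q _ _ L (v + ax m L)).1 ((add_sub_cancel_right v (ax m L)).symm ▸ hv)
      exact ⟨v + ax m L, ⟨by linarith [this.1], by linarith [this.2]⟩,
        (E3 _ (by linarith [this.1])).trans (by rw [add_sub_cancel_right])⟩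
  · rintro v ((h | h) | h) k k'
    · exact (k.not_ge h.1).elim
    · exact dE v (sη h) k (h.2.2.lt_of_ne fun k2 => k' (top v (sη h).1 k2))
    · obtain ⟨k1, k2, -⟩ := m3 v (s3 h)
      rw [E3 v k2]
      refine hD1 _ k1 fun k3 => k' ?_
      have := (StepB_sh q _ _ L v).1 k3
      exact ⟨by linarith [this.1], by linarith [this.2]⟩
  · have : v ∈ tubO η (-β) L := ⟨h2.trans_lt (half_lt_self pη), by linarith, by linarith⟩
    filter_upwards [(isOpen_tubO η (-β) L).mem_nhds this] with u hu k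
    exact dE u ⟨hu.1.le, k.le, hu.2.2.le⟩ k hu.2.2

end Pool.Agent.Work.MP_bf98aa_gt.Pl
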