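import Pool.Agent.Work.MP_bf98aa_gt.Pl.Stmt

/-!
Edge subdivisions and simplicial cochains on them: the notions used in the statement.
-/

set_option autoImplicit false

open Set

namespace Pool.Agent.Work.MP_bf98aa_gt.PlSt

variable {W T X : Type} {N : ℕ}

/-- Subdivision of the edge `u u'` at the point `p`: each ordered simplex with vertices `u` and `u'`
is replaced by the two ordered simplices obtained by putting `p` in the place of `u` or of `u'`. -/
def star (u u' p : X) (L : Set (Fin (N + 1) → X)) : Set (Fin (N + 1) → X) :=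
  {σ | σ ∈ L ∧ ¬ (u ∈ range σ ∧ u' ∈ range σ)} ∪
    {σ' | ∃ σ ∈ L, ∃ i j, σ i = u ∧ σ j = u' ∧
      (σ' = Function.update σ i p ∨ σ' = Function.update σ j p)}

/-- `L'` arises from `L` by finitely many subdivisions of edges at interior points. -/
def Subdiv (L L' : Set (Fin (N + 1) → W → ℝ)) : Prop :=
  Relation.ReflTransGen (fun A B => ∃ (u u' : W → ℝ) (l : ℝ), u ≠ u' ∧ 0 < l ∧ l < 1 ∧
    B = star u u' ((1 - l) • u + l • u') A) L L'

/-- The ordered top simplices, realised in `ℝ ^ W`. -/
def geom [DecidableEq W] (v : T → Fin (N + 1) → W) : Set (Fin (N + 1) → W → ℝ) :=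
  range fun τ i => pt (v τ i)

/-- The cochain `c` on triples of points given by barycentric coordinates: its multilinear
extension, that is the value of the piecewise constant form of `c` on `(y - x, z - x)`. -/
def tri [Fintype W] (c : W → W → W → ℝ) (x y z : W → ℝ) : ℝ :=
  ∑ a, ∑ b, ∑ d, x a * y b * z d * c a b d

/-- The coboundary of a 1-cochain. -/
def cob (β : X → X → ℝ) (x y z : X) : ℝ := β y z - β x z + β x y

end Pool.Agent.Work.MP_bf98aa_gt.PlSt
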