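import Pool.Agent.Work.MP_bf98aa_gt.Pl.PLd
import Pool.Agent.Work.MP_bf98aa_gt.Pl.Lin

/-!
Germs of tubes in the model space. VS.fr: g' 0 = h (ax L) is not in the closed set X; choose theta > 0 with h (ax s) = g' (ax (s - L)) for L - theta <= s <= L (en); the compact set of h (ax s), 0 <= s <= L - theta, does not contain h (ax L) (inj).
VS.concat: k v = if v.2 <= L then h v else h' (v - ax L); near ax L both branches are g' (v - ax L) (en, st); SLoc.shift. vs_plh: the axis of a symplectic PL homeomorphism (Lines.image, lines_line).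
-/

set_option autoImplicit false
set_option maxSynthPendingDepth 3
set_option linter.unusedSectionVars false
set_option linter.unusedVariables false

open Set Filter Topology Metric

noncomputable section
namespace Pool.Agent.Work.MP_bf98aa_gt.Pl

open Pool.Agent.Work.MP_bf98aa_gt.Ns

variable {m : ℕ} {U U' X X' : Set (WW m)} {g g' g'' : WW m →ᴬ[ℝ] WW m} {L L' : ℝ}
  {h h' : WW m → WW m} {y : WW m}

theorem SLoc.mem (H : SLoc U h y) : h y ∈ U := by
  obtain ⟨_, _, _, _, _, h⟩ := H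
  exact h

theorem SLoc.continuousAt (H : SLoc U h y) : ContinuousAt h y := by
  obtain ⟨_, _, hφ, _, e, _⟩ := H
  exact hφ.pl.continuous.continuousAt.congr e.symm

theorem SLoc.mono (H : SLoc U h y) (hs : U ⊆ U') : SLoc U' h y := by
  obtain ⟨φ, ψ, h1, h2, h3, h4⟩ := H
  exact ⟨φ, ψ, h1, h2, h3, hs h4⟩

theorem SLoc.congr (H : SLoc U h y) (e : h' =ᶠ[𝓝 y] h) : SLoc U h' y := by
  obtain ⟨φ, ψ, h1, h2, h3, h4⟩ := H
  exact ⟨φ, ψ, h1, h2, e.trans h3, e.eq_of_nhds ▸ h4⟩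

theorem SLoc.shift (c : WW m) (H : SLoc U h (y - c)) : SLoc U (fun v => h (v - c)) y := by
  obtain ⟨φ, ψ, h1, h2, h3, h4⟩ := H
  have hT : IsPLH (fun v : WW m => v - c) fun v => v + c :=
    ⟨(plOn_id _).sub (plOn_const c _), (plOn_id _).add (plOn_const c _),
      fun v => sub_add_cancel v c, fun v => add_sub_cancel_right v c,
      Eventually.of_forall fun v => by rw [fderiv_sub_const, fderiv_fun_id, PLc_one]; exact one_pos⟩
  refine ⟨_, _, h1.comp hT, (hT.gen_pull h2).mono fun z hz => ?_,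
    h3.comp_tendsto ((continuous_sub_right c).tendsto y), h4⟩
  rwa [fderiv_comp_sub]

theorem sloc_sp (hg : Sp g) (hy : g y ∈ U) : SLoc U g y := by
  obtain ⟨A, hA⟩ := isPLH_aff g (by rw [hg.det]; exact one_pos)
  exact ⟨g, A, hA, Eventually.of_forall fun z => by rw [g.fderiv]; exact hg, EventuallyEq.rfl, hy⟩

theorem VS.mono (H : VS U X g L h g') (hU : U ⊆ U') (hX : ∀ s ∈ Ioc 0 L, h (ax m s) ∉ X') :
    VS U' X' g L h g' :=
  ⟨H.pos, H.st, fun s hs => (H.loc s hs).mono hU, H.inj, hX, H.lin, H.en, H.sp⟩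

theorem VS.start (H : VS U X g L h g') : h (ax m 0) = g 0 := by
  rw [ax_zero]
  exact H.st.eq_of_nhds

theorem VS.stop (H : VS U X g L h g') : h (ax m L) = g' 0 :=
  H.en.eq_of_nhds.trans (by rw [sub_self])

theorem VS.stop_mem (H : VS U X g L h g') : g' 0 ∈ U ∧ g' 0 ∉ X ∧ g' 0 ∈ axis h L :=
  H.stop ▸ ⟨(H.loc L ⟨H.pos.le, le_rfl⟩).mem, H.av L ⟨H.pos, le_rfl⟩, L, ⟨H.pos.le, le_rfl⟩, rfl⟩

theorem VS.axis_sub (H : VS U X g L h g') : axis h L ⊆ U := by
  rintro _ ⟨s, hs, rfl⟩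
  exact (H.loc s hs).mem

theorem VS.TubA_cont (H : VS U X g L h g') : ContinuousOn (fun s => h (ax m s)) (Icc 0 L) :=
  fun s hs => ((H.loc s hs).continuousAt.comp continuous_ax.continuousAt).continuousWithinAt

theorem VS.isCompact (H : VS U X g L h g') : IsCompact (axis h L) :=
  isCompact_Icc.image_of_continuousOn H.TubA_cont

theorem VS.fr (H : VS U X g L h g') (hX : IsClosed X) : Fr (X ∪ axis h L) g' := by
  obtain ⟨O, h1, ho, hL⟩ :=
    _root_.eventually_nhds_iff.1 ((continuous_ax.tendsto L).eventually H.en)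
  have hK := (isCompact_Icc.diff ho).image_of_continuousOn (H.TubA_cont.mono sdiff_subset)
  have h0 : g' 0 ∉ (fun s => h (ax m s)) '' (Icc 0 L \ O) := by
    rintro ⟨s, hs, e⟩
    exact hs.2 (H.inj hs.1 ⟨H.pos.le, le_rfl⟩ (e.trans H.stop.symm) ▸ hL)
  filter_upwards [hX.isOpen_compl.mem_nhds H.stop_mem.2.1, hK.isClosed.isOpen_compl.mem_nhds h0]
  rintro _ h2 h3 (h4 | ⟨s, hs, rfl⟩)
  · exact absurd h4 h2
  · refine ⟨s - L, sub_nonpos.2 hs.2, ?_⟩
    rw [ax_sub]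
    exact h1 s (by_contra fun h5 => h3 ⟨s, ⟨hs, h5⟩, rfl⟩)

theorem VS.concat (H : VS U X g L h g') (H' : VS U (X ∪ axis h L) g' L' h' g'') :
    ∃ k, VS U X g (L + L') k g'' ∧ axis k (L + L') = axis h L ∪ axis h' L' := by
  obtain ⟨k, hk⟩ : ∃ k : WW m → WW m, ∀ v, k v = if v.2 ≤ L then h v else h' (v - ax m L) :=
    ⟨_, fun _ => rfl⟩
  have e0 : h =ᶠ[𝓝 (ax m L)] fun v => h' (v - ax m L) :=
    H.en.trans (H'.st.comp_tendsto ((continuous_sub_right _).tendsto' _ _ (sub_self _))).symm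
  have e1 : ∀ s, s ≤ L → k =ᶠ[𝓝 (ax m s)] h := fun s hs => by
    rcases hs.lt_or_eq with hs | rfl
    · filter_upwards [(continuous_snd.tendsto (ax m s)).eventually_lt_const hs] with v hv
      rw [hk, if_pos hv.le]
    · filter_upwards [e0] with v hv
      rw [hk, ← hv, ite_self]
  have e2 : ∀ s, L ≤ s → k =ᶠ[𝓝 (ax m s)] fun v => h' (v - ax m L) := fun s hs => by
    rcases hs.lt_or_eq with hs | rfl
    · filter_upwards [(continuous_snd.tendsto (ax m s)).eventually_const_lt hs] with v hv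
      rw [hk, if_neg hv.not_ge]
    · exact (e1 _ le_rfl).trans e0
  have v1 : ∀ s, s ≤ L → k (ax m s) = h (ax m s) := fun s hs => (e1 s hs).eq_of_nhds
  have v2 : ∀ s, L ≤ s → k (ax m s) = h' (ax m (s - L)) := fun s hs => by
    rw [ax_sub]
    exact (e2 s hs).eq_of_nhds
  have p := H.pos
  have p' := H'.pos
  have ha : axis k (L + L') = axis h L ∪ axis h' L' := by
    refine Subset.antisymm ?_ ?_
    · rintro _ ⟨s, hs, rfl⟩
      rcases le_total s L with h1 | h1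
      · exact Or.inl ⟨s, ⟨hs.1, h1⟩, (v1 s h1).symm⟩
      · exact Or.inr ⟨s - L, ⟨sub_nonneg.2 h1, by linarith [hs.2]⟩, (v2 s h1).symm⟩
    · rintro _ (⟨s, hs, rfl⟩ | ⟨s, hs, rfl⟩)
      · exact ⟨s, ⟨hs.1, by linarith [hs.2]⟩, v1 s hs.2⟩
      · exact ⟨s + L, ⟨by linarith [hs.1], by linarith [hs.2]⟩,
          (v2 _ (by linarith [hs.1])).trans (by rw [add_sub_cancel_right])⟩
  have hi : ∀ s ∈ Icc 0 (L + L'), ∀ s' ∈ Icc 0 (L + L'), s ≤ L → L < s' →
      k (ax m s) ≠ k (ax m s') := fun s hs s' hs' h1 h2 e => by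
    rw [v1 s h1, v2 s' h2.le] at e
    exact H'.av _ ⟨sub_pos.2 h2, by linarith [hs'.2]⟩ (Or.inr ⟨s, ⟨hs.1, h1⟩, e⟩)
  refine ⟨k, ⟨by linarith, ?_, fun s hs => ?_, fun s hs s' hs' e => ?_, fun s hs => ?_,
    ha ▸ H.lin.union H'.lin, ?_, H'.sp⟩, ha⟩
  · exact (ax_zero (m := m) ▸ e1 0 p.le).trans H.st
  · rcases le_total s L with h1 | h1
    · exact (H.loc s ⟨hs.1, h1⟩).congr (e1 s h1)
    · refine (SLoc.shift (ax m L) ?_).congr (e2 s h1)
      rw [← ax_sub]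
      exact H'.loc _ ⟨sub_nonneg.2 h1, by linarith [hs.2]⟩
  · rcases le_or_gt s L with h1 | h1 <;> rcases le_or_gt s' L with h2 | h2
    · exact H.inj ⟨hs.1, h1⟩ ⟨hs'.1, h2⟩ ((v1 s h1).symm.trans (e.trans (v1 s' h2)))
    · exact absurd e (hi s hs s' hs' h1 h2)
    · exact absurd e.symm (hi s' hs' s hs h2 h1)
    · exact sub_left_injective (H'.inj ⟨by linarith, by linarith [hs.2]⟩
        ⟨by linarith, by linarith [hs'.2]⟩ ((v2 s h1.le).symm.trans (e.trans (v2 s' h2.le))))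
  · rcases le_or_gt s L with h1 | h1
    · rw [v1 s h1]
      exact H.av s ⟨hs.1, h1⟩
    · rw [v2 s h1.le]
      exact fun h2 => H'.av _ ⟨sub_pos.2 h1, by linarith [hs.2]⟩ (Or.inl h2)
  · refine (e2 _ (by linarith)).trans ((H'.en.comp_tendsto ((continuous_sub_right (ax m L)).tendsto'
      _ _ (by rw [ax_add, add_sub_cancel_left]))).trans (Eventually.of_forall fun v => ?_))
    simp only [Function.comp, ax_add, sub_sub]

theorem vs_plh {ψ : WW m → WW m} (hh : IsPLH h ψ)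
    (hs : ∀ᶠ z in gen (WW m), pb (fderiv ℝ h z) (w0 m) = w0 m) (hL : 0 < L) (st : h =ᶠ[𝓝 0] g)
    (en : h =ᶠ[𝓝 (ax m L)] fun v => g' (v - ax m L)) (hg' : Sp g')
    (hU : ∀ s ∈ Icc 0 L, h (ax m s) ∈ U) (hX : ∀ s ∈ Ioc 0 L, h (ax m s) ∉ X) :
    VS U X g L h g' := by
  refine ⟨hL, st, fun s h1 => ⟨h, ψ, hh, hs, EventuallyEq.rfl, hU s h1⟩,
    fun s _ s' _ e => congrArg Prod.snd (hh.injective e), hX,
    ((lines_line 0 (ax m 1)).image (subset_univ _) hh.pl).mono ?_, en, hg'⟩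
  rintro _ ⟨s, -, rfl⟩
  exact ⟨_, ⟨s, (zero_add _).trans (ax_smul s).symm⟩, rfl⟩

theorem Fr.mono (H : Fr X g) (hs : X' ⊆ X) : Fr X' g :=
  Eventually.mono H fun _ hz h1 => hz (hs h1)

theorem Fr.union (H : Fr X g) (H' : Fr X' g) : Fr (X ∪ X') g :=
  (Eventually.and H H').mono fun _ hz h1 => h1.elim hz.1 hz.2

theorem fr_of_not_mem (hX : IsClosed X) (h0 : g 0 ∉ X) : Fr X g :=
  Eventually.mono (hX.isOpen_compl.mem_nhds h0) fun _ hz h1 => absurd h1 hz

theorem Fr.fwd (H : Fr X g) (hg : Sp g) :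
    ∃ θ : ℝ, 0 < θ ∧ ∀ s, 0 < s → s ≤ θ → g (ax m s) ∉ X := by
  obtain ⟨g', -, h1, -⟩ := hg.inv
  obtain ⟨ε, hε, h2⟩ := Metric.eventually_nhds_iff.1
    (((g.continuous.comp continuous_ax).tendsto' 0 (g 0) (congrArg g ax_zero)).eventually H)
  refine ⟨ε / 2, half_pos hε, fun s h3 h4 h5 => ?_⟩
  obtain ⟨s', h6, e⟩ := h2 (y := s) (by rw [Real.dist_0_eq_abs, abs_of_pos h3]; linarith) h5
  have : s = s' := congrArg Prod.snd (Function.LeftInverse.injective h1 e)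
  linarith

end Pool.Agent.Work.MP_bf98aa_gt.Pl
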