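import Pool.Agent.Work.MP_bf98aa_gt.Pl.TubA

/-!
Changing the linear part of the frame. mv_bend: let k = ax 1, c0 = w0 a k (nonzero), lam v = w0 a v / c0 (so lam (ax s) = s, lam a = 0). phi v = v + max (lam v - th) 0 (c c0 a) is a PL homeomorphism (bend), its derivative is generically id or tv w0 c a (pb_tv),
phi = id near 0 and on the backward ray, near ax (2 th) it is ax th + tv (v - ax th). h = g o phi, L = 2 th, th so small that h (ax s), 0 <= s <= L, lies in U and in the neighbourhood given by Fr; by injectivity h (ax s), s > 0, is not on the backward ray. vs_plh.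
mv_id: the case c = 0 (lin_tv0) or vs_plh for g and fw g L. Mv.comp: VS.fr, VS.concat. mv_tv: if a = 0 it is the identity; if w0 a k = 0 choose b with w0 b a and w0 b k nonzero (lin_two with the zero subspace), S = tv 1 b, S' = tv (-1) b its inverse (tv_add),
tv c a = S o tv c (S' a) o S' and w0 (S' a) k is nonzero. mv_sp: sp_ind.
-/

set_option autoImplicit false
set_option maxSynthPendingDepth 3
set_option linter.unusedSectionVars false
set_option linter.unusedVariables false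

open Set Filter Topology Metric

noncomputable section
namespace Pool.Agent.Work.MP_bf98aa_gt.Pl

open Pool.Agent.Work.MP_bf98aa_gt.Ns

variable {m : ℕ} {U U' X X' : Set (WW m)} {g g' g'' : WW m →ᴬ[ℝ] WW m} {L L' : ℝ}
  {h h' : WW m → WW m} {y : WW m}

/-- The linear map can be realised by a short tube. -/
def Mv (K : WW m →L[ℝ] WW m) : Prop :=
  ∀ (U X : Set (WW m)) (g : WW m →ᴬ[ℝ] WW m), IsOpen U → IsClosed X → Sp g → g 0 ∈ U → Fr X g →
    ∃ L h g', VS U X g L h g' ∧ g'.contLinear = g.contLinear.comp K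

theorem TubB_aff (a : B1 (WW m)) (θ : ℝ) :
    ∃ l : WW m →ᴬ[ℝ] ℝ, l.contLinear = a ∧ ∀ y, l y = a y - θ :=
  ⟨a.toContinuousAffineMap - ContinuousAffineMap.const ℝ _ θ, by simp, fun _ => rfl⟩

theorem mv_bend (c : ℝ) {v : WW m} (hv : w0 m v (ax m 1) ≠ 0) : Mv (tv (w0 m) c v) := by
  intro U X g hU hX hg h0 hf
  obtain ⟨u, hu⟩ : ∃ u, u = (c * w0 m v (ax m 1)) • v := ⟨_, rfl⟩
  have c1 : ContinuousAt (fun p : ℝ × ℝ => g (ax m p.1 + p.2 • u)) 0 :=
    (g.continuous.comp ((continuous_ax.comp continuous_fst).add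
      (continuous_snd.smul continuous_const))).continuousAt
  have c2 : Tendsto (fun p : ℝ × ℝ => g (ax m p.1 + p.2 • u)) (𝓝 0) (𝓝 (g 0)) := by
    simpa [ax_zero] using c1.tendsto
  obtain ⟨ε, hε, hb⟩ := Metric.eventually_nhds_iff.1 (c2.eventually (hf.and (hU.mem_nhds h0)))
  obtain ⟨θ, hθ, rfl⟩ : ∃ θ : ℝ, 0 < θ ∧ ε = 3 * θ := ⟨ε / 3, by positivity, by ring⟩
  obtain ⟨l, l1, l2⟩ := TubB_aff ((w0 m v (ax m 1))⁻¹ • w0 m v) θ
  have l3 : ∀ s, l (ax m s) = s - θ := fun s => by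
    rw [l2, ax_smul s, map_smul, smul_apply, smul_eq_mul, smul_eq_mul, inv_mul_cancel₀ hv, mul_one]
  have l4 : l.contLinear ≠ 0 := fun a => by
    have := PLc_add l 0 (ax m 1)
    rw [zero_add, a, ← ax_zero, l3, l3] at this
    simp at this
  obtain ⟨ψ, p1⟩ := bend l u (by simp [l1, hu, skew_w0.self])
  obtain ⟨gi, p2⟩ := isPLH_aff g (by rw [hg.det]; exact one_pos)
  have p3 := p2.comp p1
  have lo : ∀ z, l z < 0 → (fun y => g (y + max (l y) 0 • u)) =ᶠ[𝓝 z] g := fun z hz => by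
    filter_upwards [l.continuous.continuousAt.eventually_lt_const hz] with y hy
    rw [max_eq_right hy.le, zero_smul, add_zero]
  have hi : ∀ z, 0 < l z → ∃ A : WW m →ᴬ[ℝ] WW m,
      A.contLinear = g.contLinear.comp (tv (w0 m) c v) ∧
        (fun y => g (y + max (l y) 0 • u)) =ᶠ[𝓝 z] fun y => A (y - z) := fun z hz => by
    obtain ⟨A, a1, a2⟩ := frame_ex (g (z + l z • u)) (g.contLinear.comp (tv (w0 m) c v))
    refine ⟨A, a1, ?_⟩
    filter_upwards [l.continuous.continuousAt.eventually_const_lt hz] with y hy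
    rw [max_eq_left hy.le, a2, ContinuousLinearMap.comp_apply, ← PLc_add, tv_apply, l2, l2, hu]
    refine congrArg g ?_
    simp only [smul_apply, smul_eq_mul, map_sub]
    match_scalars <;> field_simp <;> ring
  have sp : pb (g.contLinear.comp (tv (w0 m) c v)) (w0 m) = w0 m := by
    rw [pb_comp, hg, pb_tv skew_w0]
  have sm : ∀ s ∈ Icc 0 (2 * θ), dist ((s, max (l (ax m s)) 0) : ℝ × ℝ) 0 < 3 * θ := fun s hs => by
    rw [dist_zero_right, Prod.norm_mk, l3, Real.norm_of_nonneg hs.1,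
      Real.norm_of_nonneg (le_max_right _ _)]
    exact max_lt (by linarith [hs.2]) (max_lt (by linarith [hs.2]) (by linarith))
  obtain ⟨A, a1, a2⟩ := hi (ax m (2 * θ)) (by rw [l3]; linarith)
  refine ⟨2 * θ, _, A, vs_plh p3 ?_ (by linarith) (lo 0 (by rw [← ax_zero, l3]; linarith)) a2
    (a1 ▸ sp : pb A.contLinear (w0 m) = w0 m) (fun s hs => (hb (sm s hs)).2) fun s hs hx => ?_, a1⟩
  · filter_upwards [gen_ne l l4] with z hz
    rcases hz.lt_or_gt with a | a
    · rw [(lo z a).fderiv_eq, g.fderiv]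
      exact hg
    · obtain ⟨B, b1, b2⟩ := hi z a
      rw [b2.fderiv_eq, fderiv_comp_sub, B.fderiv, b1, sp]
  · obtain ⟨s', b1, b2⟩ := (hb (sm s (Ioc_subset_Icc_self hs))).1 hx
    rw [← (lo (ax m s') (by rw [l3]; linarith)).self_of_nhds] at b2
    have b3 : s = s' := congrArg Prod.snd (p3.injective b2)
    linarith [hs.1]

theorem mv_id : Mv (ContinuousLinearMap.id ℝ (WW m)) := by
  rw [← lin_tv0 (w0 m) ((0, 1), 0)]
  exact mv_bend 0 (by simp [w0_apply, ax])

theorem Mv.comp {K K' : WW m →L[ℝ] WW m} (H : Mv K) (H' : Mv K') : Mv (K.comp K') := by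
  intro U X g hU hX hg h0 hf
  obtain ⟨L, h, g1, V, e⟩ := H U X g hU hX hg h0 hf
  obtain ⟨L', h', g2, V', e'⟩ := H' U _ g1 hU (hX.union V.isCompact.isClosed) V.sp V.stop_mem.1
    (V.fr hX)
  obtain ⟨k, V'', -⟩ := V.concat V'
  exact ⟨_, k, g2, V'', by rw [e', e, ContinuousLinearMap.comp_assoc]⟩

theorem mv_tv (c : ℝ) (v : WW m) : Mv (tv (w0 m) c v) := by
  by_cases h1 : w0 m v (ax m 1) = 0
  swap
  · exact mv_bend c h1
  by_cases h2 : v = 0
  · have e : tv (w0 m) c v = ContinuousLinearMap.id ℝ (WW m) :=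
      ContinuousLinearMap.ext fun y => by simp [tv_apply, h2]
    exact e ▸ mv_id
  obtain ⟨z, -, z1, z2⟩ := lin_two (nd_w0 (m := m)) (S := ⊥) (x := v) (y := ax m 1) h2
    fun a => one_ne_zero (congrArg Prod.snd (show ax m 1 = 0 from a))
  have k : ∀ y, tv (w0 m) 1 z (tv (w0 m) (-1) z y) = y := fun y => by
    rw [← ContinuousLinearMap.comp_apply, ← tv_add skew_w0, add_neg_cancel, lin_tv0]
    rfl
  have e : tv (w0 m) c v = (tv (w0 m) 1 z).comp
      ((tv (w0 m) c (tv (w0 m) (-1) z v)).comp (tv (w0 m) (-1) z)) :=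
    ContinuousLinearMap.ext fun y => by
      rw [ContinuousLinearMap.comp_apply, ContinuousLinearMap.comp_apply, tv_apply _ c, tv_apply _ c,
        map_add, map_smul, k, k, ← pb_apply (tv (w0 m) (-1) z), pb_tv skew_w0]
  rw [e]
  refine (mv_bend 1 z2).comp ((mv_bend c ?_).comp (mv_bend (-1) z2))
  simp [tv_apply, h1, z1, z2]

theorem mv_sp {K : WW m →L[ℝ] WW m} (hK : pb K (w0 m) = w0 m) : Mv K := by
  exact sp_ind skew_w0 nd_w0 mv_id (fun c v L hL => (mv_tv c v).comp hL) hK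

theorem vs_frame (hU : IsOpen U) (hX : IsClosed X) (hg : Sp g) (hg' : Sp g') (h0 : g 0 ∈ U)
    (hf : Fr X g) : ∃ L h g1, VS U X g L h g1 ∧ g1.contLinear = g'.contLinear := by
  obtain ⟨A, -, -, -, -, e⟩ := aff_inv g (by rw [hg.det]; exact one_ne_zero)
  have h1 : pb A.contLinear (w0 m) = w0 m := by
    conv_lhs => rw [← hg, ← pb_comp, e, pb_id]
  obtain ⟨L, h, g1, V, e'⟩ := mv_sp (K := A.contLinear.comp g'.contLinear)
    (by rw [pb_comp, h1, hg']) U X g hU hX hg h0 hf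
  exact ⟨L, h, g1, V, by rw [e', ← ContinuousLinearMap.comp_assoc, e, ContinuousLinearMap.id_comp]⟩

end Pool.Agent.Work.MP_bf98aa_gt.Pl
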