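import Pool.Agent.Work.MP_bf98aa_gt.Pl.TubB

/-!
Moving the axis to a parallel line. vs_shear: let K be the linear part, k = K (ax 1), L = 1, u = g' 0 - g 0 - k, lam z = w0 u (z - g 0) / w0 u k, chi x = max 0 (min 1 ((x - th)/(1 - 2 th))); phi z = z + chi (lam z) u is a PL homeomorphism (shear_bdd, lam is constant
along u), its derivative is generically a transvection along u (pb_tv), h = phi o g, h (ax s) = g 0 + (s - chi s) k + chi s (g' 0 - g 0). For th small the points for s <= th and s >= 1 - th are in U, the others lie on the segment between two of them.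
shear_gen, shear_end: if a point c + t d of a line equals p0 + al k + be (p - p0) with be nonzero then p - p0 lies in the span of k, c - p0, d, a proper subspace as the dimension is at least 4 (gen_sub, finrank_span_le_card); w0 (p - p0) k is generically nonzero (gen_ne, nd_w0);
choose theta by Fr.fwd, closedness of X at g' 0, hJ and injectivity of g'.
route: (1) vs_frame in U minus {g' 0} with obstacle X union J. (2) shear_gen to a generic p1, obstacle X, J, the first axis and the point g' 0, with p1 - g' 0 not a multiple of k. (3) a generic p2 for shear_gen from p1 and for shear_end to g', with p2 - p1 outside the span of k and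
g' 0 - p1; Z is the axis of the third piece; a common point of the two strips gives (be' - 1 + be)(p2 - p1) - be' (g' 0 - p1) in the span of k, impossible for be' > 0. VS.concat three times, VS.mono.
-/

set_option autoImplicit false
set_option maxSynthPendingDepth 3
set_option linter.unusedSectionVars false
set_option linter.unusedVariables false

open Set Filter Topology Metric

noncomputable section
namespace Pool.Agent.Work.MP_bf98aa_gt.Pl

open Pool.Agent.Work.MP_bf98aa_gt.Ns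

variable {m : ℕ} {U U' X X' : Set (WW m)} {g g' g'' : WW m →ᴬ[ℝ] WW m} {L L' : ℝ}
  {h h' : WW m → WW m} {y : WW m}

/-- The ramp function. -/
def TubC_chi (t x : ℝ) : ℝ := max 0 (min 1 ((x - t) / (1 - 2 * t)))

theorem TubC_lo {t x : ℝ} (ht : t < 1 / 2) (h : x ≤ t) : TubC_chi t x = 0 :=
  max_eq_left ((min_le_right _ _).trans (div_nonpos_of_nonpos_of_nonneg (by linarith) (by linarith)))

theorem TubC_hi {t x : ℝ} (ht : t < 1 / 2) (h : 1 - t ≤ x) : TubC_chi t x = 1 := by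
  rw [TubC_chi, min_eq_left ((one_le_div (by linarith)).2 (by linarith)), max_eq_right zero_le_one]

theorem TubC_mid {t x : ℝ} (t0 : 0 < t) (ht : t < 1 / 2) (h : t < x) (h' : x < 1 - t) :
    0 < TubC_chi t x ∧ TubC_chi t x < 1 ∧ |x - TubC_chi t x| ≤ t := by
  have h0 : 0 < 1 - 2 * t := by linarith
  have h1 : 0 < (x - t) / (1 - 2 * t) := div_pos (by linarith) h0
  have h2 : (x - t) / (1 - 2 * t) < 1 := (div_lt_one h0).2 (by linarith)
  have h3 := div_mul_cancel₀ (x - t) h0.ne'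
  rw [TubC_chi, min_eq_right h2.le, max_eq_right h1.le, abs_le]
  refine ⟨h1, h2, ?_, ?_⟩ <;> nlinarith

theorem TubC_ax (g : WW m →ᴬ[ℝ] WW m) (s : ℝ) :
    g (ax m s) = g 0 + s • g.contLinear (ax m 1) := by
  rw [aff_eq, ax_smul, map_smul]

theorem TubC_near (g : WW m →ᴬ[ℝ] WW m) {p : WW m → Prop} (h : ∀ᶠ z in 𝓝 (g 0), p z) :
    ∃ θ > 0, ∀ s, |s| ≤ θ → p (g (ax m s)) := by
  have h1 : Tendsto (fun s => g (ax m s)) (𝓝 0) (𝓝 (g 0)) :=
    (g.continuous.comp continuous_ax).tendsto 0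
  obtain ⟨θ, h2, h3⟩ := Metric.nhds_basis_closedBall.eventually_iff.1 (h1.eventually h)
  exact ⟨θ, h2, fun s hs => h3 (mem_closedBall_zero_iff.2 hs)⟩

theorem vs_shear (hU : IsOpen U) (hc : Convex ℝ U) (hg : Sp g) (hl : g'.contLinear = g.contLinear)
    (h0 : g 0 ∈ U) (h0' : g' 0 ∈ U) (hw : w0 m (g' 0 - g 0) (g.contLinear (ax m 1)) ≠ 0) {θ : ℝ}
    (hθ : 0 < θ) : ∃ L h, VS U ∅ g L h g' ∧ ∀ s ∈ Icc 0 L, ∃ α β : ℝ,
      h (ax m s) = g 0 + α • g.contLinear (ax m 1) + β • (g' 0 - g 0) ∧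
      ((β = 0 ∧ α = s ∧ s ≤ θ) ∨ (0 < β ∧ β < 1) ∨ (β = 1 ∧ α = s - L ∧ L - θ ≤ s)) := by
  obtain ⟨θ1, p1, q1⟩ := TubC_near g (hU.mem_nhds h0)
  obtain ⟨θ2, p2, q2⟩ := TubC_near g' (hU.mem_nhds h0')
  obtain ⟨t, t0, t1, t2, t3, t4⟩ : ∃ t, 0 < t ∧ t < 1 / 2 ∧ t ≤ θ ∧ t ≤ θ1 ∧ t ≤ θ2 :=
    ⟨min (min (1 / 4) θ) (min θ1 θ2), by positivity,
      ((min_le_left _ _).trans (min_le_left _ _)).trans_lt (by norm_num),
      (min_le_left _ _).trans (min_le_right _ _), (min_le_right _ _).trans (min_le_left _ _),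
      (min_le_right _ _).trans (min_le_right _ _)⟩
  obtain ⟨u, hu⟩ : ∃ u, u = g' 0 - g 0 - g.contLinear (ax m 1) := ⟨_, rfl⟩
  have sk : ∀ v, w0 m v v = 0 := fun v => by linarith [skew_w0 v v]
  have hc0 : w0 m u (g.contLinear (ax m 1)) ≠ 0 := by
    rwa [hu, map_sub, _root_.sub_apply, sk, sub_zero]
  obtain ⟨l, hl1⟩ : ∃ l : WW m →L[ℝ] ℝ, l = (w0 m u (g.contLinear (ax m 1)))⁻¹ • w0 m u := ⟨_, rfl⟩
  have lu : l u = 0 := by rw [hl1, _root_.smul_apply, sk, smul_zero]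
  have lk : ∀ s, l (g.contLinear (ax m s)) = s := fun s => by
    rw [ax_smul, map_smul, map_smul, hl1, _root_.smul_apply, smul_eq_mul, smul_eq_mul,
      inv_mul_cancel₀ hc0, mul_one]
  have hχ : PL (TubC_chi t) := (plOn_const _ _).max ((plOn_const _ _).min
    (((plOn_id _).sub (plOn_const _ _)).div_const _))
  have e1 : ∀ y (τ : ℝ), l (y + τ • u - g 0) = l (y - g 0) := fun y τ => by
    rw [add_sub_right_comm, map_add, map_smul, lu, smul_zero, add_zero]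
  obtain ⟨ψ, hψ⟩ := shear_bdd (u := fun y => TubC_chi t (l (y - g 0)))
    (hχ.comp (PL.comp (plOn_clm l _) ((plOn_id _).sub (plOn_const _ _)))) u
    (fun y a b hab => by simpa only [e1, add_lt_add_iff_right] using hab)
    fun y => ⟨_, fun τ => by rw [e1]⟩
  obtain ⟨G, hG⟩ := isPLH_aff g (hg.det ▸ one_pos)
  have H := hψ.comp hG
  have e2 : ∀ v, g v - g 0 = g.contLinear v := fun v => by rw [aff_eq g v, add_sub_cancel_left]
  simp only [e2] at H
  have lc : Continuous fun v => l (g.contLinear v) := by fun_prop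
  have e3 : ∀ s, g (ax m s) + TubC_chi t (l (g.contLinear (ax m s))) • u =
      g 0 + (s - TubC_chi t s) • g.contLinear (ax m 1) + TubC_chi t s • (g' 0 - g 0) := fun s => by
    rw [lk, TubC_ax, hu]
    module
  have e4 : ∀ s ∈ Icc (0 : ℝ) 1, |s - TubC_chi t s| ≤ t ∧ ((TubC_chi t s = 0 ∧ s ≤ t) ∨
      (0 < TubC_chi t s ∧ TubC_chi t s < 1) ∨ (TubC_chi t s = 1 ∧ 1 - t ≤ s)) := fun s hs => by
    rcases le_or_gt s t with a | a
    · rw [TubC_lo t1 a, sub_zero, abs_of_nonneg hs.1]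
      exact ⟨a, .inl ⟨rfl, a⟩⟩
    rcases le_or_gt (1 - t) s with b | b
    · rw [TubC_hi t1 b, abs_of_nonpos (sub_nonpos.2 hs.2)]
      exact ⟨by linarith, .inr (.inr ⟨rfl, b⟩)⟩
    · obtain ⟨c1, c2, c3⟩ := TubC_mid t0 t1 a b
      exact ⟨c3, .inr (.inl ⟨c1, c2⟩)⟩
  refine ⟨1, _, vs_plh H ?_ one_pos ?_ ?_ (by rwa [Sp, hl]) (fun s hs => ?_) fun _ _ => id,
    fun s hs => ⟨_, _, e3 s, ?_⟩⟩
  · refine (gen_pull (φ := l.comp g.contLinear) isOpen_univ (Eventually.of_forall fun y _ =>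
      ⟨locAff_aff (l.comp g.contLinear).toContinuousAffineMap y, fun s => ⟨ax m s, by
        rw [ContinuousLinearMap.fderiv]
        exact lk s⟩⟩) hχ.gen_locAff).mono fun z hz => ?_
    have h1 := (g.hasFDerivAt (x := z)).fun_add
      (((hz trivial).differentiableAt.hasDerivAt.comp_hasFDerivAt z
        (l.comp g.contLinear).hasFDerivAt).smul_const u)
    have h2 : fderiv ℝ (fun y => g y + TubC_chi t (l (g.contLinear y)) • u) z =
        (tv (w0 m) (deriv (TubC_chi t) (l (g.contLinear z)) *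
          (w0 m u (g.contLinear (ax m 1)))⁻¹) u).comp g.contLinear :=
      h1.fderiv.trans (ContinuousLinearMap.ext fun v => by simp [tv_apply, hl1, mul_assoc])
    rw [h2, pb_comp, pb_tv skew_w0, hg]
  · refine (lc.continuousAt.eventually_lt_const (show l (g.contLinear 0) < t by
      simpa using t0)).mono fun v hv => ?_
    show g v + _ = g v
    rw [TubC_lo t1 hv.le, zero_smul, add_zero]
  · refine (lc.continuousAt.eventually_const_lt (show 1 - t < l (g.contLinear (ax m 1)) by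
      rw [lk]; linarith)).mono fun v hv => ?_
    show g v + _ = g' (v - ax m 1)
    rw [TubC_hi t1 hv.le, aff_eq g, aff_eq g', hl, map_sub, hu]
    module
  · obtain ⟨a, b⟩ := e4 s hs
    have h1 := hc (q1 _ (a.trans t3)) (q2 _ (a.trans t4)) (a := 1 - TubC_chi t s)
      (b := TubC_chi t s) (by rcases b with b | b | b <;> linarith [b.1, b.2])
      (le_max_left _ _) (sub_add_cancel _ _)
    rw [TubC_ax, TubC_ax g', hl] at h1
    refine mem_of_eq_of_mem ((e3 s).trans ?_) h1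
    module
  · rcases (e4 s hs).2 with b | b | b
    · exact .inl ⟨b.1, by rw [b.1, sub_zero], b.2.trans t2⟩
    · exact .inr (.inl b)
    · exact .inr (.inr ⟨b.1, by rw [b.1], by linarith [b.2]⟩)

theorem TubC_span (hm : 1 ≤ m) (a b c p : WW m) :
    ∀ᶠ y in gen (WW m), ∀ α β γ : ℝ, y - p ≠ α • a + β • b + γ • c := by
  classical
  refine (gen_sub (Submodule.span ℝ (({a, b, c} : Finset (WW m)) : Set (WW m))) (fun e => ?_)
    p).mono fun y hy α β γ e => hy (e ▸ add_mem (add_mem ?_ ?_) ?_)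
  · have h1 := (finrank_span_finset_le_card (R := ℝ) ({a, b, c} : Finset (WW m))).trans
      Finset.card_le_three
    rw [Set.finrank, e, finrank_top, finrank_WW] at h1
    omega
  all_goals exact Submodule.smul_mem _ _ (Submodule.subset_span (by simp))

theorem TubC_gen (hm : 1 ≤ m) (hX : Lines X) (p k : WW m) :
    ∀ᶠ y in gen (WW m), ∀ α β : ℝ, β ≠ 0 → p + α • k + β • (y - p) ∉ X := by
  obtain ⟨S, h1, h2⟩ := hX
  refine ((eventually_all_finite h1).2 fun q _ => TubC_span hm k (q.1 - p) q.2 p).mono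
    fun y hy α β hβ hx => ?_
  obtain ⟨q, h3, t, h4⟩ := h2 _ hx
  refine hy q h3 (-(β⁻¹ * α)) β⁻¹ (β⁻¹ * t) ?_
  rw [← inv_smul_smul₀ hβ (y - p), eq_sub_of_add_eq' h4]
  module

theorem TubC_w (hg : Sp g) (p : WW m) :
    ∀ᶠ y in gen (WW m), w0 m (y - p) (g.contLinear (ax m 1)) ≠ 0 := by
  refine (gen_sub (LinearMap.ker (w0 m (g.contLinear (ax m 1))).toLinearMap) (fun e => ?_)
    p).mono fun y hy e => hy ((skew_w0 _ _).trans (neg_eq_zero.2 e))
  have h1 := nd_w0 (g.contLinear (ax m 1)) fun v => e.ge (Submodule.mem_top (x := v))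
  exact one_ne_zero (congrArg Prod.snd ((bij_of_det (hg.det ▸ one_ne_zero)).1
    (h1.trans (map_zero g.contLinear).symm)))

theorem shear_gen (hm : 1 ≤ m) (hU : IsOpen U) (hc : Convex ℝ U) (hg : Sp g) (h0 : g 0 ∈ U)
    (hX : Lines X) (hf : Fr X g) : ∀ᶠ p in gen (WW m), p ∈ U → ∀ g' : WW m →ᴬ[ℝ] WW m,
      g'.contLinear = g.contLinear → g' 0 = p → ∃ L h, VS U X g L h g' ∧ ∀ z ∈ axis h L,
        ∃ α β : ℝ, z = g 0 + α • g.contLinear (ax m 1) + β • (p - g 0) := by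
  obtain ⟨θ, h1, h2⟩ := hf.fwd hg
  refine ((TubC_gen hm hX (g 0) (g.contLinear (ax m 1))).and (TubC_w hg (g 0))).mono ?_
  rintro _ ⟨h3, h4⟩ hp g' hl rfl
  obtain ⟨L, h, H, h5⟩ := vs_shear hU hc hg hl h0 hp h4 h1
  refine ⟨L, h, H.mono Subset.rfl fun s hs => ?_, ?_⟩
  · obtain ⟨α, β, e, b⟩ := h5 s (Ioc_subset_Icc_self hs)
    rw [e]
    rcases b with ⟨rfl, rfl, b⟩ | b | b
    · rw [zero_smul, add_zero, ← TubC_ax]
      exact h2 _ hs.1 b
    · exact h3 _ _ b.1.ne'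
    · exact h3 _ _ (b.1 ▸ one_ne_zero)
  · rintro _ ⟨s, hs, rfl⟩
    obtain ⟨α, β, e, -⟩ := h5 s hs
    exact ⟨α, β, e⟩

theorem shear_end (hm : 1 ≤ m) (hU : IsOpen U) (hc : Convex ℝ U) (hg' : Sp g') (h0 : g' 0 ∈ U)
    (hX : Lines X) (hX' : IsClosed X) (hn : g' 0 ∉ X) {J : Set (WW m)} (lJ : Lines J)
    (hJ : ∀ᶠ z in 𝓝 (g' 0), z ∈ J → ∃ s, 0 ≤ s ∧ z = g' (ax m s)) :
    ∀ᶠ p in gen (WW m), p ∈ U → ∀ g : WW m →ᴬ[ℝ] WW m, g.contLinear = g'.contLinear → g 0 = p →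
      ∀ Z : Set (WW m), Fr Z g → (∀ z ∈ Z, ∀ α β : ℝ, 0 < β →
        z ≠ p + α • g'.contLinear (ax m 1) + β • (g' 0 - p)) →
      ∃ L h, VS U (X ∪ Z) g L h g' ∧ ∀ z ∈ axis h L, z ∈ J → z = g' 0 := by
  obtain ⟨θ, h1, h2⟩ := TubC_near g' (hJ.and (hX'.isOpen_compl.eventually_mem hn))
  obtain ⟨G, -, hG, -⟩ := hg'.inv
  refine ((TubC_gen hm (hX.union lJ) (g' 0) (g'.contLinear (ax m 1))).and
    (TubC_w hg' (g' 0))).mono ?_
  rintro _ ⟨h3, h4⟩ hp g hl rfl Z hZ hZ'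
  have hg : Sp g := by rwa [Sp, hl]
  obtain ⟨θ', h1', h2'⟩ := hZ.fwd hg
  obtain ⟨L, h, H, h5⟩ := vs_shear hU hc hg hl.symm hp h0 (by
    rwa [hl, ← neg_sub, map_neg, _root_.neg_apply, neg_ne_zero]) (lt_min h1 h1')
  have h6 : ∀ α β : ℝ, β < 1 →
      g 0 + α • g.contLinear (ax m 1) + β • (g' 0 - g 0) ∉ X ∪ J := fun α β hβ hx =>
    h3 α (1 - β) (sub_pos.2 hβ).ne' (mem_of_eq_of_mem (by rw [hl]; module) hx)
  have h7 : ∀ α : ℝ, g 0 + α • g.contLinear (ax m 1) + (1 : ℝ) • (g' 0 - g 0) = g' (ax m α) :=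
    fun α => by rw [TubC_ax, hl]; module
  have h8 : ∀ s ∈ Icc 0 L, L - min θ θ' ≤ s → |s - L| ≤ θ := fun s hs b => by
    rw [abs_of_nonpos (sub_nonpos.2 hs.2)]
    linarith [min_le_left θ θ']
  refine ⟨L, h, H.mono Subset.rfl fun s hs => ?_, ?_⟩
  · obtain ⟨α, β, e, b⟩ := h5 s (Ioc_subset_Icc_self hs)
    rw [e]
    rcases b with ⟨rfl, rfl, b⟩ | b | ⟨rfl, rfl, b⟩
    · refine fun hx => hx.elim (fun hx => h6 _ _ one_pos (.inl hx)) ?_
      rw [zero_smul, add_zero, ← TubC_ax]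
      exact h2' _ hs.1 (b.trans (min_le_right _ _))
    · exact fun hx => hx.elim (fun hx => h6 _ _ b.2 (.inl hx))
        fun hx => hZ' _ hx α β b.1 (by rw [hl])
    · refine fun hx => hx.elim ?_ fun hx => hZ' _ hx _ 1 one_pos (by rw [hl])
      rw [h7]
      exact (h2 _ (h8 s (Ioc_subset_Icc_self hs) b)).2
  · rintro _ ⟨s, hs, rfl⟩ hx
    obtain ⟨α, β, e, b⟩ := h5 s hs
    simp only [e] at hx ⊢
    rcases b with ⟨rfl, rfl, b⟩ | b | ⟨rfl, rfl, b⟩
    · exact (h6 _ _ one_pos (.inr hx)).elim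
    · exact (h6 _ _ b.2 (.inr hx)).elim
    · rw [h7] at hx ⊢
      obtain ⟨r, h9, e'⟩ := (h2 _ (h8 s hs b)).1 hx
      have e2 : s - L = r := congrArg Prod.snd ((hG _).symm.trans ((congrArg G e').trans (hG _)))
      rw [show s - L = 0 by linarith [hs.2]]
      rfl

theorem TubC_av (H : VS U X g L h g') (hs : X' ⊆ X) (h0 : g 0 ∉ X') : ∀ z ∈ axis h L, z ∉ X' := by
  rintro _ ⟨s, ⟨h1, h2⟩, rfl⟩ hx
  rcases h1.eq_or_lt with rfl | e
  · exact h0 (H.start ▸ hx)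
  · exact H.av s ⟨e, h2⟩ (hs hx)

theorem TubC_step (hm : 1 ≤ m) (hU : IsOpen U) (hc : Convex ℝ U) (hX : IsClosed X) (lX : Lines X)
    (hX' : IsClosed X') (lX' : Lines X') (H : VS U X g L h g') (hA : ∀ z ∈ axis h L, z ∉ X') :
    ∀ᶠ p in gen (WW m), p ∈ U → ∃ (g'' : WW m →ᴬ[ℝ] WW m) (L' : ℝ) (h' : WW m → WW m)
      (A : Set (WW m)), g''.contLinear = g'.contLinear ∧ g'' 0 = p ∧ VS U X g L' h' g'' ∧
      axis h' L' = axis h L ∪ A ∧ (∀ z ∈ axis h' L', z ∉ X') ∧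
      ∀ z ∈ A, ∃ α β : ℝ, z = g' 0 + α • g'.contLinear (ax m 1) + β • (p - g' 0) := by
  have h0 := hA _ H.stop_mem.2.2
  refine (shear_gen hm hU hc H.sp H.stop_mem.1 ((lX.union H.lin).union lX')
    ((H.fr hX).union (fr_of_not_mem hX' h0))).mono fun p hp hpU => ?_
  obtain ⟨g'', h1, h2⟩ := frame_ex p g'.contLinear
  have h3 : g'' 0 = p := by rw [h2, map_zero, add_zero]
  obtain ⟨L', h', H', h4⟩ := hp hpU g'' h1 h3
  obtain ⟨k, H'', h5⟩ := H.concat (H'.mono Subset.rfl fun s hs hx => H'.av s hs (.inl hx))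
  exact ⟨g'', _, k, _, h1, h3, H'', h5,
    fun z hz => (h5 ▸ hz).elim (hA z) (TubC_av H' subset_union_right h0 z), h4⟩

theorem route (hm : 1 ≤ m) (hU : IsOpen U) (hc : Convex ℝ U) (hX : IsClosed X) (lX : Lines X)
    {J : Set (WW m)} (cJ : IsClosed J) (lJ : Lines J) (hg : Sp g) (hg' : Sp g') (h0 : g 0 ∈ U)
    (h0' : g' 0 ∈ U) (hf : Fr X g) (hn : g 0 ∉ J) (hn' : g' 0 ∉ X) (hne : g 0 ≠ g' 0)
    (hJ : ∀ᶠ z in 𝓝 (g' 0), z ∈ J → ∃ s, 0 ≤ s ∧ z = g' (ax m s)) :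
    ∃ L h, VS U X g L h g' ∧ ∀ z ∈ axis h L, z ∈ J → z = g' 0 := by
  have cJ' : IsClosed (J ∪ {g' 0}) := cJ.union isClosed_singleton
  have lJ' : Lines (J ∪ {g' 0}) := lJ.union ((lines_line (g' 0) 0).mono
    (singleton_subset_iff.2 ⟨0, by simp⟩))
  obtain ⟨L1, h1, g1, H1, e1⟩ := vs_frame hU (hX.union cJ') hg hg' h0
    (hf.union (fr_of_not_mem cJ' (not_or.2 ⟨hn, hne⟩)))
  obtain ⟨p2, hp2, a2⟩ := gen_exists ((TubC_step hm hU hc hX lX cJ' lJ'
    (H1.mono Subset.rfl fun s hs hx => H1.av s hs (.inl hx))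
    (TubC_av H1 subset_union_right (not_or.2 ⟨hn, hne⟩))).and
    (TubC_span hm (g'.contLinear (ax m 1)) 0 0 (g' 0))) hU ⟨_, h0⟩
  obtain ⟨a2, b2⟩ := a2.self_of_nhds
  obtain ⟨g2, L2, h2, -, e2, rfl, H2, -, c2, -⟩ := a2 hp2
  obtain ⟨p3, hp3, a3⟩ := gen_exists (((TubC_step hm hU hc hX lX cJ' lJ' H2 c2).and
    (TubC_span hm (g'.contLinear (ax m 1)) (g' 0 - g2 0) 0 (g2 0))).and
    (shear_end hm hU hc hg' h0' (lX.union H2.lin) (hX.union H2.isCompact.isClosed)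
      (not_or.2 ⟨hn', fun hx => c2 _ hx (.inr rfl)⟩) lJ hJ)) hU ⟨_, h0⟩
  obtain ⟨⟨a3, b3⟩, d3⟩ := a3.self_of_nhds
  obtain ⟨g3, L3, h3, A, e3, rfl, H3, f3, c3, k3⟩ := a3 hp3
  obtain ⟨L4, h4, H4, c4⟩ := d3 hp3 g3 (e3.trans (e2.trans e1)) rfl A
    ((H3.fr hX).mono fun z hz => .inr (f3 ▸ .inr hz)) fun z hz α β hβ e => by
      obtain ⟨α', β', e'⟩ := k3 z hz
      rw [e2, e1, e] at e'
      have e4 : (β' - 1 + β) • (g3 0 - g2 0) =
          (α - α') • g'.contLinear (ax m 1) + β • (g' 0 - g2 0) := by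
        linear_combination (norm := module) -e'
      rcases eq_or_ne (β' - 1 + β) 0 with e5 | e5
      · refine b2 (β⁻¹ * (α - α')) 0 0 ?_
        rw [e5, zero_smul, eq_comm, add_eq_zero_iff_eq_neg] at e4
        rw [mul_smul, e4, smul_neg, inv_smul_smul₀ hβ.ne']
        module
      · refine b3 ((β' - 1 + β)⁻¹ * (α - α')) ((β' - 1 + β)⁻¹ * β) 0 ?_
        rw [← inv_smul_smul₀ e5 (g3 0 - g2 0), e4]
        module
  rw [union_assoc, ← f3] at H4
  obtain ⟨k, H, e⟩ := H3.concat H4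
  exact ⟨_, k, H, fun z hz hx => (e ▸ hz).elim (fun hz => (c3 z hz (.inl hx)).elim)
    fun hz => c4 z hz hx⟩

end Pool.Agent.Work.MP_bf98aa_gt.Pl
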