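import Pool.Agent.Work.MP_bf98aa_gt.Pl.TubC
import Pool.Agent.Work.MP_bf98aa_gt.Pl.AmbB

/-!
Germs of tubes in the polyhedron. TS.lines: every point of the compact axis segment has a neighbourhood on which e is PL (affine near 0), finite subcover, Lines.image. ts_obs: X = closure of the set of y in U with c y on the axis (relatively closed in U; Lines.pre, Lines.closure);
Fr as in VS.fr, using injectivity of c on U and GP. ts_ext: e' v = if v.2 <= L then e v else c (h (v - ax L)); near ax s, s >= L, e' = c o phi o shift (at s = L by GP and VS.st), Dx.comp_plh, Dx.shift, Dx.mono, Dx.congr.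
reach_trans: ts_obs, dx_trans with the generic property of lying off X (Lines.gen), route with J empty to the frame v -> y + v (frame_ex), ts_ext; the new frame is A o frame. reach_start: e = e0, L = r/2, g = fw id L.
reach_all: the union of the images of the convex charts inside D that are reached, and of those that are not, are relatively open, cover D (restrict a chart to a small ball: Emb.isOpen_pre, Dx.mono) and are disjoint by reach_trans.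
-/

set_option autoImplicit false
set_option maxSynthPendingDepth 3
set_option linter.unusedSectionVars false
set_option linter.unusedVariables false

open Set Filter Topology Metric

noncomputable section
namespace Pool.Agent.Work.MP_bf98aa_gt.Pl

open Pool.Agent.Work.MP_bf98aa_gt.Ns

variable {m : ℕ} {E : Type} [NormedAddCommGroup E] [NormedSpace ℝ E] [FiniteDimensional ℝ E]
  {a : Amb m E} {P : Pot E} {D D' : Set E} {e0 : WW m →ᴬ[ℝ] E} {L L' : ℝ} {e c c' : WW m → E}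
  {U U' X : Set (WW m)} {g g' : WW m →ᴬ[ℝ] WW m}

theorem TS.mono (H : TS a P D e0 L e) (hs : D ⊆ D') : TS a P D' e0 L e := by
  refine ⟨H.pos, H.st, fun s h => ?_, H.inj⟩
  obtain ⟨U, h1, h2, h3⟩ := H.loc s h
  exact ⟨U, h1, h2, h3.trans hs⟩

theorem TubD_pl (H : TS a P D e0 L e) {s : ℝ} (hs : s ∈ Icc 0 L) :
    ∃ U ∈ 𝓝 (ax m s), PLOn U e := by
  rcases hs.1.eq_or_lt with h | h
  · rw [← h, ax_zero]
    exact ⟨{v | e v = e0 v}, H.st, (plOn_aff e0 _).congr fun x hx => hx⟩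
  · obtain ⟨U, h1, h2, -⟩ := H.loc s ⟨h, hs.2⟩
    exact ⟨U, h2.1.opn.mem_nhds h1, h2.1.pl⟩

theorem TubD_con (H : TS a P D e0 L e) : ContinuousOn (fun s => e (ax m s)) (Icc 0 L) := by
  intro s hs
  obtain ⟨U, h1, h2⟩ := TubD_pl H hs
  exact ((h2.continuousOn.continuousAt h1).comp continuous_ax.continuousAt).continuousWithinAt

theorem TubD_germ (h : Dx a P c U) (hD : c '' U ⊆ D) {y : WW m} (hy : y ∈ U)
    (he : e =ᶠ[𝓝 y] c) : ∃ O, y ∈ O ∧ Dx a P e O ∧ e '' O ⊆ D := by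
  obtain ⟨O, h1, h2, h3⟩ := _root_.eventually_nhds_iff.1 he
  refine ⟨U ∩ O, ⟨hy, h3⟩,
    (h.mono (h.1.opn.inter h2) inter_subset_left).congr fun z hz => h1 z hz.2, ?_⟩
  rintro _ ⟨z, hz, rfl⟩
  exact hD ⟨z, hz.1, (h1 z hz.2).symm⟩

theorem TubD_sub (s t : ℝ) :
    Tendsto (fun v : WW m => v - ax m t) (𝓝 (ax m s)) (𝓝 (ax m (s - t))) := by
  rw [ax_sub]
  exact (continuous_id.sub continuous_const).tendsto _

theorem TubD_sub0 (t : ℝ) : Tendsto (fun v : WW m => v - ax m t) (𝓝 (ax m t)) (𝓝 0) := by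
  have := TubD_sub (m := m) t t
  rwa [sub_self, ax_zero] at this

theorem TubD_end (hg : GP c U L e g) : e (ax m L) = c (g 0) := by
  have := hg.2.2.self_of_nhds
  simpa only [sub_self] using this

theorem TubD_fr (y : WW m) : ∃ g : WW m →ᴬ[ℝ] WW m, Sp g ∧ ∀ v, g v = y + v := by
  obtain ⟨g, h1, h2⟩ := frame_ex y (ContinuousLinearMap.id ℝ (WW m))
  refine ⟨g, ?_, h2⟩
  unfold Sp
  rw [h1, pb_id]

theorem TS.axis_mem (H : TS a P D e0 L e) {x : E} (hx : x ∈ axis e L) : x = e0 0 ∨ x ∈ D := by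
  obtain ⟨s, hs, rfl⟩ := hx
  rcases hs.1.eq_or_lt with h | h
  · left
    change e (ax m s) = _
    rw [← h, ax_zero]
    exact H.st.self_of_nhds
  · obtain ⟨U, h1, -, h3⟩ := H.loc s ⟨h, hs.2⟩
    exact Or.inr (h3 ⟨_, h1, rfl⟩)

theorem TS.isCompact (H : TS a P D e0 L e) : IsCompact (axis e L) := by
  exact isCompact_Icc.image_of_continuousOn (TubD_con H)

theorem TS.lines (H : TS a P D e0 L e) : Lines (axis e L) := by
  have h1 : PLOn (ax m '' Icc 0 L) e := by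
    refine plOn_of_local (isCompact_Icc.image continuous_ax) ?_
    rintro _ ⟨s, hs, rfl⟩
    obtain ⟨U, h1, h2⟩ := TubD_pl H hs
    exact ⟨U, mem_nhdsWithin_of_mem_nhds h1, h2⟩
  have h2 : Lines (ax m '' Icc 0 L) := by
    refine (lines_line 0 (ax m 1)).mono ?_
    rintro _ ⟨s, -, rfl⟩
    exact ⟨s, by simp only [zero_add]; exact (ax_smul s).symm⟩
  refine (h2.image Subset.rfl h1).mono ?_
  rintro _ ⟨s, hs, rfl⟩
  exact ⟨_, ⟨s, hs, rfl⟩, rfl⟩

theorem ts_obs (H : TS a P D e0 L e) (hc : Emb a.M c U) (hg : GP c U L e g) :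
    ∃ X : Set (WW m), IsClosed X ∧ Lines X ∧ Fr X g ∧ g 0 ∈ X ∧
      ∀ y ∈ U, y ∈ X ↔ c y ∈ axis e L := by
  have cc : ∀ y ∈ U, ContinuousAt c y := fun y hy =>
    hc.pl.continuousOn.continuousAt (hc.opn.mem_nhds hy)
  have key : ∀ y ∈ U, y ∈ closure (U ∩ c ⁻¹' axis e L) ↔ c y ∈ axis e L := by
    refine fun y hy => ⟨fun h => ?_, fun h => subset_closure ⟨hy, h⟩⟩
    have := (cc y hy).continuousWithinAt.mem_closure h
      (t := axis e L) fun z hz => hz.2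
    rwa [H.isCompact.isClosed.closure_eq] at this
  have hL : L ∈ Icc 0 L := ⟨H.pos.le, le_rfl⟩
  refine ⟨closure (U ∩ c ⁻¹' axis e L), isClosed_closure, (H.lines.pre hc).closure, ?_,
    (key _ hg.2.1).2 ⟨L, hL, TubD_end hg⟩, key⟩
  have t1 : Tendsto (fun v : WW m => g (v - ax m L)) (𝓝 (ax m L)) (𝓝 (g 0)) :=
    (g.continuous.tendsto 0).comp (TubD_sub0 L)
  have e1 : ∀ᶠ s in 𝓝 L, e (ax m s) = c (g (ax m s - ax m L)) ∧ g (ax m s - ax m L) ∈ U :=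
    (continuous_ax.tendsto L).eventually
      (hg.2.2.and (t1.eventually (hc.opn.mem_nhds hg.2.1)))
  obtain ⟨θ, hθ, hp⟩ := Metric.eventually_nhds_iff.1 e1
  have hs : Icc 0 (L - θ) ⊆ Icc 0 L := Icc_subset_Icc_right (by linarith)
  have hK : IsCompact ((fun s => e (ax m s)) '' Icc 0 (L - θ)) :=
    isCompact_Icc.image_of_continuousOn ((TubD_con H).mono hs)
  have hn : c (g 0) ∉ (fun s => e (ax m s)) '' Icc 0 (L - θ) := by
    rintro ⟨s, h1, h2⟩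
    have h3 : s = L := H.inj (hs h1) hL (h2.trans (TubD_end hg).symm)
    have := h1.2
    linarith
  filter_upwards [hc.opn.mem_nhds hg.2.1,
    (cc _ hg.2.1).eventually (hK.isClosed.isOpen_compl.mem_nhds hn)] with z h1 h2 h3
  obtain ⟨s, h4, h5⟩ := (key z h1).1 h3
  have h6 : L - θ < s := not_le.1 fun h => h2 ⟨s, ⟨h4.1, h⟩, h5⟩
  have h7 := hp (y := s) (by rw [Real.dist_eq, abs_lt]; constructor <;> linarith [h4.2])
  refine ⟨s - L, sub_nonpos.2 h4.2, ?_⟩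
  rw [ax_sub]
  exact hc.inj h1 h7.2 (h5.symm.trans h7.1)

theorem ts_ext (H : TS a P D e0 L e) (hc : Dx a P c U) (hD : c '' U ⊆ D) (hg : GP c U L e g)
    {h : WW m → WW m} (V : VS U X g L' h g') (hX : ∀ y ∈ U, c y ∈ axis e L → y ∈ X) :
    ∃ e', TS a P D e0 (L + L') e' ∧ GP c U (L + L') e' g' ∧
      axis e' (L + L') = axis e L ∪ c '' axis h L' := by
  classical
  obtain ⟨k, hk⟩ : ∃ k : WW m → E, ∀ v, k v = if v.2 ≤ L then e v else c (h (v - ax m L)) :=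
    ⟨_, fun _ => rfl⟩
  have lo : ∀ s ≤ L, k (ax m s) = e (ax m s) := fun s hs => by
    rw [hk, if_pos (by rwa [ax_snd])]
  have lo' : ∀ s < L, k =ᶠ[𝓝 (ax m s)] e := fun s hs => by
    have : ∀ᶠ v : WW m in 𝓝 (ax m s), v.2 < L :=
      continuous_snd.continuousAt.eventually (gt_mem_nhds (by rwa [ax_snd]))
    filter_upwards [this] with v hv
    rw [hk, if_pos hv.le]
  have hi : ∀ s, L ≤ s → k =ᶠ[𝓝 (ax m s)] fun v => c (h (v - ax m L)) := fun s hs => by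
    rcases hs.eq_or_lt with h1 | h1
    · rw [← h1]
      filter_upwards [hg.2.2, (TubD_sub0 L).eventually V.st] with v h2 h3
      rw [hk]
      split_ifs
      · rw [h2, h3]
      · rfl
    · have : ∀ᶠ v : WW m in 𝓝 (ax m s), L < v.2 :=
        continuous_snd.continuousAt.eventually (lt_mem_nhds (by rwa [ax_snd]))
      filter_upwards [this] with v hv
      rw [hk, if_neg (not_le.2 hv)]
  have hi' : ∀ s, L ≤ s → k (ax m s) = c (h (ax m (s - L))) := fun s hs => by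
    rw [ax_sub]
    exact (hi s hs).self_of_nhds
  have mm : ∀ s ∈ Icc 0 (L + L'), L ≤ s → s - L ∈ Icc 0 L' := fun s h1 h2 =>
    ⟨sub_nonneg.2 h2, by linarith [h1.2]⟩
  have mix : ∀ s ∈ Icc 0 (L + L'), ∀ t ∈ Icc 0 (L + L'), s ≤ L → L < t →
      k (ax m s) ≠ k (ax m t) := fun s h1 t h2 h3 h4 h5 => by
    rw [lo s h3, hi' t h4.le] at h5
    have h6 := mm t h2 h4.le
    exact V.av _ ⟨sub_pos.2 h4, h6.2⟩ (hX _ (V.loc _ h6).mem ⟨s, ⟨h1.1, h3⟩, h5⟩)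
  refine ⟨k, ⟨add_pos H.pos V.pos, ?_, fun s hs => ?_, fun s h1 t h2 h3 => ?_⟩,
    ⟨V.sp, V.stop_mem.1, ?_⟩, Subset.antisymm ?_ ?_⟩
  · have := lo' 0 H.pos
    rw [ax_zero] at this
    exact this.trans H.st
  · rcases lt_or_ge s L with h1 | h1
    · obtain ⟨O, h2, h3, h4⟩ := H.loc s ⟨hs.1, h1.le⟩
      exact TubD_germ h3 h4 h2 (lo' s h1)
    · obtain ⟨φ, ψ, h2, h3, h4, h5⟩ := V.loc _ (mm s ⟨hs.1.le, hs.2⟩ h1)
      refine TubD_germ ((hc.comp_plh h2 h3).shift (ax m L)) ?_ ?_ ?_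
      · rintro _ ⟨z, hz, rfl⟩
        exact hD ⟨_, hz, rfl⟩
      · change φ (ax m s - ax m L) ∈ U
        rwa [← ax_sub, ← h4.self_of_nhds]
      · filter_upwards [hi s h1, (TubD_sub s L).eventually h4] with v h6 h7
        rw [h6, h7]
  · change k (ax m s) = k (ax m t) at h3
    rcases le_or_gt s L with h4 | h4 <;> rcases le_or_gt t L with h5 | h5
    · rw [lo s h4, lo t h5] at h3
      exact H.inj ⟨h1.1, h4⟩ ⟨h2.1, h5⟩ h3
    · exact (mix s h1 t h2 h4 h5 h3).elim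
    · exact (mix t h2 s h1 h5 h4 h3.symm).elim
    · rw [hi' s h4.le, hi' t h5.le] at h3
      have h6 := mm s h1 h4.le
      have h7 := mm t h2 h5.le
      have h8 : s - L = t - L := V.inj h6 h7 (hc.1.inj (V.loc _ h6).mem (V.loc _ h7).mem h3)
      linarith
  · have t1 := TubD_sub (m := m) (L + L') L
    rw [add_sub_cancel_left] at t1
    filter_upwards [hi (L + L') (by linarith [V.pos]), t1.eventually V.en] with v h1 h2
    rw [h1, h2, ax_add, sub_sub]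
  · rintro _ ⟨s, hs, rfl⟩
    rcases le_total s L with h1 | h1
    · exact Or.inl ⟨s, ⟨hs.1, h1⟩, (lo s h1).symm⟩
    · exact Or.inr ⟨_, ⟨s - L, mm s hs h1, rfl⟩, (hi' s h1).symm⟩
  · rintro _ (⟨s, hs, rfl⟩ | ⟨_, ⟨s, hs, rfl⟩, rfl⟩)
    · exact ⟨s, ⟨hs.1, by linarith [hs.2, V.pos]⟩, lo s hs.2⟩
    · refine ⟨s + L, ⟨by linarith [hs.1, H.pos], by linarith [hs.2]⟩, ?_⟩
      have := hi' (s + L) (by linarith [hs.1])
      rwa [add_sub_cancel_right] at this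

/-- The chart can be reached by a tube. -/
def Reach (a : Amb m E) (P : Pot E) (D : Set E) (e0 : WW m →ᴬ[ℝ] E) (c : WW m → E)
    (U : Set (WW m)) : Prop := ∃ L e g, TS a P D e0 L e ∧ GP c U L e g

theorem reach_trans (hm : 1 ≤ m) (hc : Dx a P c U) (hc' : Dx a P c' U') (hU : Convex ℝ U)
    (hD : c '' U ⊆ D) (hne : (c '' U ∩ c' '' U').Nonempty) (H : Reach a P D e0 c U) :
    Reach a P D e0 c' U' := by
  obtain ⟨L, e, g, H, hg⟩ := H
  obtain ⟨X, cX, lX, fX, mX, hX⟩ := ts_obs H hc.1 hg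
  obtain ⟨y, hy, hn, A, hA, hA', he⟩ :=
    dx_trans hc hc' hne (lX.gen (by rw [finrank_WW]; omega))
  obtain ⟨g1, h4, h2⟩ := TubD_fr y
  have h3 : g1 0 = y := by rw [h2, add_zero]
  obtain ⟨L', h, V, -⟩ := route hm hc.1.opn hU cX lX (J := ∅) isClosed_empty
    ⟨∅, finite_empty, fun x hx => hx.elim⟩ hg.1 h4 hg.2.1 (h3 ▸ hy) fX (notMem_empty _)
    (h3 ▸ hn) (fun h => hn (h3 ▸ h ▸ mX)) (Eventually.of_forall fun z hz => hz.elim)
  obtain ⟨e', H', hg', -⟩ := ts_ext H hc hD hg V fun y hy h => (hX y hy).2 h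
  refine ⟨L + L', e', A.comp g1, H', hA.comp h4, ?_, ?_⟩
  · change A (g1 0) ∈ U'
    rwa [h3]
  · have t1 : Tendsto (fun v : WW m => g1 (v - ax m (L + L'))) (𝓝 (ax m (L + L'))) (𝓝 y) :=
      h3 ▸ (g1.continuous.tendsto 0).comp (TubD_sub0 _)
    filter_upwards [hg'.2.2, t1.eventually he] with v h5 h6
    exact h5.trans h6

theorem TubD_mem {r s : ℝ} (hs : 0 < s) (hr : s < r) :
    ax m s ∈ ball (0 : WW m) r ∩ {v | 0 < v.2} := by
  refine ⟨?_, hs⟩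
  rw [mem_ball_zero_iff, Prod.norm_def, ax_fst, ax_snd, norm_zero, Real.norm_eq_abs,
    abs_of_pos hs, max_eq_right hs.le]
  exact hr

theorem reach_start {r : ℝ} (hr : 0 < r) (h : Dx a P e0 (ball 0 r ∩ {v | 0 < v.2}))
    (hD : e0 '' (ball 0 r ∩ {v | 0 < v.2}) ⊆ D) :
    Reach a P D e0 e0 (ball 0 r ∩ {v | 0 < v.2}) := by
  have h1 : ax m (r / 2) ∈ ball (0 : WW m) r ∩ {v | 0 < v.2} :=
    TubD_mem (half_pos hr) (half_lt_self hr)
  have h2 := inj_of_injOn e0 (h.1.opn.mem_nhds h1) h.1.inj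
  obtain ⟨g, hg, h3⟩ := TubD_fr (ax m (r / 2))
  refine ⟨r / 2, e0, g,
    ⟨half_pos hr, EventuallyEq.rfl, fun s hs => ⟨_, TubD_mem hs.1 (by linarith [hs.2]), h, hD⟩,
      fun s _ t _ h4 => ?_⟩, hg, ?_, Eventually.of_forall fun v => ?_⟩
  · change e0 (ax m s) = e0 (ax m t) at h4
    rw [aff_eq e0 (ax m s), aff_eq e0 (ax m t), add_right_inj] at h4
    exact congrArg Prod.snd (h2 h4)
  · rwa [h3, add_zero]
  · simp only [h3, add_sub_cancel]

theorem reach_all (hm : 1 ≤ m) (hD : OpenSub a.M D) (hc : IsPreconnected D) (hd : D ⊆ Dar a P)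
    {r : ℝ} (hr : 0 < r) (h : Dx a P e0 (ball 0 r ∩ {v | 0 < v.2}))
    (h' : e0 '' (ball 0 r ∩ {v | 0 < v.2}) ⊆ D) (hc' : Dx a P c U) (hne : (c '' U ∩ D).Nonempty) :
    Reach a P D e0 c U := by
  have op : ∀ p : (WW m → E) → Set (WW m) → Prop, OpenSub a.M
      {x | ∃ c U, (Dx a P c U ∧ Convex ℝ U ∧ c '' U ⊆ D ∧ p c U) ∧ x ∈ c '' U} := fun p => by
    refine openSub_of_local ?_
    rintro x ⟨c, U, h1, h2⟩
    exact ⟨c '' U, h2, fun z hz => ⟨c, U, h1, hz⟩, h1.1.1.openSub⟩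
  obtain ⟨O, hO, eO⟩ := op fun c U => Reach a P D e0 c U
  obtain ⟨O', hO', eO'⟩ := op fun c U => ¬Reach a P D e0 c U
  have m1 : ∀ x ∈ D, x ∈ O ↔ ∃ c U,
      (Dx a P c U ∧ Convex ℝ U ∧ c '' U ⊆ D ∧ Reach a P D e0 c U) ∧ x ∈ c '' U := fun x hx =>
    ⟨fun h1 => eO.ge ⟨h1, hD.subset hx⟩, fun h1 => (eO.le h1).1⟩
  have m2 : ∀ x ∈ D, x ∈ O' ↔ ∃ c U,
      (Dx a P c U ∧ Convex ℝ U ∧ c '' U ⊆ D ∧ ¬Reach a P D e0 c U) ∧ x ∈ c '' U := fun x hx =>
    ⟨fun h1 => eO'.ge ⟨h1, hD.subset hx⟩, fun h1 => (eO'.le h1).1⟩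
  have cov : D ⊆ O ∪ O' := by
    intro x hx
    obtain ⟨c, U, h1, y, hy, rfl⟩ := hd hx
    obtain ⟨ε, hε, hb⟩ := Metric.isOpen_iff.1 (h1.1.isOpen_pre hD) y ⟨hy, hx⟩
    have h2 : Dx a P c (ball y ε) := h1.mono isOpen_ball fun z hz => (hb hz).1
    have h3 : c '' ball y ε ⊆ D := by
      rintro _ ⟨z, hz, rfl⟩
      exact (hb hz).2
    have h4 : c y ∈ c '' ball y ε := ⟨y, mem_ball_self hε, rfl⟩
    by_cases h5 : Reach a P D e0 c (ball y ε)
    · exact Or.inl ((m1 _ hx).2 ⟨c, _, ⟨h2, convex_ball y ε, h3, h5⟩, h4⟩)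
    · exact Or.inr ((m2 _ hx).2 ⟨c, _, ⟨h2, convex_ball y ε, h3, h5⟩, h4⟩)
  have cv : Convex ℝ (ball (0 : WW m) r ∩ {v | 0 < v.2}) :=
    (convex_ball 0 r).inter
      (convex_halfSpace_gt (LinearMap.snd ℝ (YY m) ℝ).isLinear 0)
  have n0 : e0 (ax m (r / 2)) ∈ e0 '' (ball (0 : WW m) r ∩ {v | 0 < v.2}) :=
    ⟨_, TubD_mem (half_pos hr) (half_lt_self hr), rfl⟩
  have n1 : (D ∩ O).Nonempty :=
    ⟨_, h' n0, (m1 _ (h' n0)).2 ⟨e0, _, ⟨h, cv, h', reach_start hr h h'⟩, n0⟩⟩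
  obtain ⟨x, hx, hx'⟩ := hne
  have n2 : x ∈ O := by
    refine (cov hx').resolve_right fun h1 => ?_
    obtain ⟨z, hz, h2, h3⟩ := hc O O' hO hO' cov n1 ⟨x, hx', h1⟩
    obtain ⟨c1, U1, h4, h5⟩ := (m1 z hz).1 h2
    obtain ⟨c2, U2, h6, h7⟩ := (m2 z hz).1 h3
    exact h6.2.2.2 (reach_trans hm h4.1 h6.1 h4.2.1 h4.2.2.1 ⟨z, h5, h7⟩ h4.2.2.2)
  obtain ⟨c1, U1, h4, h5⟩ := (m1 x hx').1 n2
  exact reach_trans hm h4.1 hc' h4.2.1 h4.2.2.1 ⟨x, h5, hx⟩ h4.2.2.2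

end Pool.Agent.Work.MP_bf98aa_gt.Pl
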